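import Pool.Agent.X76.CircMix

/-!
Degenerate graphs are mixing with ordinary colourings.
-/

set_option autoImplicit false

namespace Pool.Agent.X76.CircMix

open Relation Finset

/-- the edges of `G` inside the first `t` vertices -/
def firstG {n : ℕ} (G : SimpleGraph (Fin n)) (t : ℕ) : SimpleGraph (Fin n) where
  Adj u v := G.Adj u v ∧ u.1 < t ∧ v.1 < t
  symm := ⟨fun _ _ h => ⟨h.1.symm, h.2.2, h.2.1⟩⟩
  loopless := ⟨fun _ h => G.loopless.irrefl _ h.1⟩

lemma ok_one {m x y : ℕ} (hx : x < m) (hy : y < m) : ok m 1 x y ↔ x ≠ y := by
  unfold ok
  omega

lemma isCol_one {V : Type*} {G : SimpleGraph V} {m : ℕ} (f : V → ℕ) :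
    IsCol G m 1 f ↔ (∀ v, f v < m) ∧ ∀ u v, G.Adj u v → f u ≠ f v := by
  rw [isCol_iff]
  constructor
  · rintro ⟨h1, h2⟩
    exact ⟨h1, fun u v huv => (ok_one (h1 u) (h1 v)).mp (h2 u v huv)⟩
  · rintro ⟨h1, h2⟩
    exact ⟨h1, fun u v huv => (ok_one (h1 u) (h1 v)).mpr (h2 u v huv)⟩

/-- If every vertex has at most `d` smaller neighbours, then the graph is `m`-mixing for all
`m ≥ d + 2`. -/
theorem mixing_of_degenerate {n : ℕ} (G : SimpleGraph (Fin n)) (d m : ℕ)
    (hd : ∀ v : Fin n, ∃ S : Finset (Fin n), S.card ≤ d ∧ ∀ u, u < v → G.Adj v u → u ∈ S)
    (hm : d + 2 ≤ m) : Mixing G m 1 := by
  classical
  have main : ∀ t ≤ n, Mixing (firstG G t) m 1 := by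
    intro t
    induction t with
    | zero =>
      intro _ f g hf hg
      apply conn_mix
      intro w hw
      rw [isCol_one] at hf hg ⊢
      refine ⟨fun v => ?_, fun u v huv => absurd huv.2.1 (by omega)⟩
      rcases hw v with h | h
      · rw [h]; exact hf.1 v
      · rw [h]; exact hg.1 v
    | succ t ih =>
      intro ht f g hf hg
      have ih' := ih (by omega)
      let x₀ : Fin n := ⟨t, by omega⟩
      have hmono : ∀ w, IsCol (firstG G (t + 1)) m 1 w → IsCol (firstG G t) m 1 w := by
        intro w hw
        rw [isCol_one] at hw ⊢
        exact ⟨hw.1, fun u v huv => hw.2 u v ⟨huv.1, by have := huv.2.1; omega,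
          by have := huv.2.2; omega⟩⟩
      have hpath := ih' f g (hmono f hf) (hmono g hg)
      have lift : ∀ h, ReflTransGen (Step (firstG G t) m 1) f h →
          ∃ h', IsCol (firstG G (t + 1)) m 1 h' ∧ (∀ u, u ≠ x₀ → h' u = h u) ∧
            ReflTransGen (Step (firstG G (t + 1)) m 1) f h' := by
        intro h hh
        induction hh with
        | refl => exact ⟨f, hf, fun _ _ => rfl, .refl⟩
        | @tail h h₂ _ hs ihh =>
          obtain ⟨h', hc', heq', hconn'⟩ := ihh
          obtain ⟨hcol, hcol₂, x, hx⟩ := hs
          by_cases hxx : x = x₀
          · refine ⟨h', hc', fun u hu => ?_, hconn'⟩
            rw [heq' u hu, hx u (by rw [hxx]; exact hu)]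
          · obtain ⟨S, hS, hS'⟩ := hd x₀
            -- a free colour for `x₀`
            obtain ⟨b, hbm, hb⟩ : ∃ b < m, b ∉ insert (h₂ x) (S.image h') := by
              by_contra hcon
              push Not at hcon
              have h1 : Finset.range m ⊆ insert (h₂ x) (S.image h') := by
                intro b hb
                exact hcon b (Finset.mem_range.mp hb)
              have h2 := Finset.card_le_card h1
              rw [Finset.card_range] at h2
              have h3 := Finset.card_insert_le (h₂ x) (S.image h')
              have h4 : (S.image h').card ≤ S.card := Finset.card_image_le
              omega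
            rw [Finset.mem_insert, not_or] at hb
            rw [isCol_one] at hc' hcol₂
            let w : Fin n → ℕ := Function.update h' x₀ b
            have hw : IsCol (firstG G (t + 1)) m 1 w := by
              rw [isCol_one]
              constructor
              · intro v
                by_cases hv : v = x₀
                · subst hv
                  simpa [w] using hbm
                · simpa [w, hv] using hc'.1 v
              · have key : ∀ v, (firstG G (t + 1)).Adj x₀ v → b ≠ h' v := by
                  intro v hv heq
                  apply hb.2
                  rw [Finset.mem_image]
                  refine ⟨v, hS' v ?_ hv.1, heq.symm⟩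
                  have h1 : v.1 < t + 1 := hv.2.2
                  have h2 : v.1 ≠ t := by
                    intro h3
                    exact hv.1.ne (Fin.ext h3.symm)
                  show v.1 < t
                  omega
                intro u v huv
                by_cases hu : u = x₀
                · have hvx : v ≠ x₀ := by
                    rintro rfl
                    exact huv.ne hu
                  subst hu
                  simp only [w, Function.update_self, Function.update_of_ne hvx]
                  exact key v huv
                · by_cases hv : v = x₀
                  · subst hv
                    simp only [w, Function.update_self, Function.update_of_ne hu]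
                    exact (key u huv.symm).symm
                  · simp only [w, Function.update_of_ne hu, Function.update_of_ne hv]
                    exact hc'.2 u v huv
            let w₂ : Fin n → ℕ := Function.update w x (h₂ x)
            have hwx₀ : w x₀ = b := by simp [w]
            have hwo : ∀ u, u ≠ x₀ → w u = h u := by
              intro u hu
              simp only [w, Function.update_of_ne hu]
              exact heq' u hu
            have hw₂ : IsCol (firstG G (t + 1)) m 1 w₂ := by
              have hw0 := hw
              rw [isCol_one] at hw0 ⊢
              constructor
              · intro v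
                by_cases hv : v = x
                · subst hv
                  simpa [w₂] using hcol₂.1 v
                · simpa [w₂, hv] using hw0.1 v
              · have key : ∀ v, (firstG G (t + 1)).Adj x v → h₂ x ≠ w v := by
                  intro v hv
                  by_cases hvx : v = x₀
                  · rw [hvx, hwx₀]
                    exact fun h => hb.1 h.symm
                  · have hvt : v.1 < t := by
                      have h1 := hv.2.2
                      have h2 : v.1 ≠ t := fun h3 => hvx (Fin.ext h3)
                      omega
                    have hxt : x.1 < t := by
                      have h1 := hv.2.1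
                      have h2 : x.1 ≠ t := fun h3 => hxx (Fin.ext h3)
                      omega
                    rw [hwo v hvx, hx v hv.ne.symm]
                    exact hcol₂.2 x v ⟨hv.1, hxt, hvt⟩
                intro u v huv
                by_cases hu : u = x
                · have hvx : v ≠ x := by
                    rintro rfl
                    exact huv.ne hu
                  subst hu
                  simp only [w₂, Function.update_self, Function.update_of_ne hvx]
                  exact key v huv
                · by_cases hv : v = x
                  · subst hv
                    simp only [w₂, Function.update_self, Function.update_of_ne hu]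
                    exact (key u huv.symm).symm
                  · simp only [w₂, Function.update_of_ne hu, Function.update_of_ne hv]
                    exact hw0.2 u v huv
            refine ⟨w₂, hw₂, ?_, ?_⟩
            · intro u hu
              by_cases hux : u = x
              · subst hux
                simp [w₂]
              · simp only [w₂, Function.update_of_ne hux]
                rw [hwo u hu, hx u hux]
            · have hc'' : IsCol (firstG G (t + 1)) m 1 h' := by
                rw [isCol_one]
                exact hc'
              refine (hconn'.tail ⟨hc'', hw, x₀, fun u hu => ?_⟩).tail ⟨hw, hw₂, x, fun u hu => ?_⟩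
              · simp only [w, Function.update_of_ne hu]
              · simp only [w₂, Function.update_of_ne hu]
      obtain ⟨g', hg', heq, hconn⟩ := lift g hpath
      exact hconn.tail ⟨hg', hg, x₀, heq⟩
  have e : firstG G n = G := by
    ext u v
    exact ⟨fun h => h.1, fun h => ⟨h, u.2, v.2⟩⟩
  have := main n le_rfl
  rwa [e] at this

end Pool.Agent.X76.CircMix
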