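import Pool.Agent.X76.Euler

set_option autoImplicit false

/-!
Lifting Euler tours of bipartite graphs in which one side has degree two.
-/

namespace Pool.Agent.X76.Blow

open SimpleGraph Finset

/-- numbering the fibres of a map -/
theorem fibP {S V K : Type} [Finite S] [Finite K] [Nonempty K] (g : S → V) (P : V → Prop)
    (h : ∀ v, P v → {s | g s = v}.ncard = Nat.card K) :
    ∃ c : S → K, ∀ v, P v → ∀ x, ∃! s, g s = v ∧ c s = x := by
  classical
  have h1 : ∀ v, P v → Nonempty ({s // g s = v} ≃ K) := by
    intro v hv
    apply Finite.card_eq.1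
    rw [← h v hv]
    exact Nat.card_coe_set_eq _
  let e : ∀ v, P v → ({s // g s = v} ≃ K) := fun v hv => (h1 v hv).some
  refine ⟨fun s => if hs : P (g s) then e (g s) hs ⟨s, rfl⟩ else Classical.arbitrary K, ?_⟩
  intro v hv x
  have h4 : ∀ (s : S) (hs : g s = v),
      (if hs : P (g s) then e (g s) hs ⟨s, rfl⟩ else Classical.arbitrary K) = e v hv ⟨s, hs⟩ := by
    rintro s rfl
    rw [dif_pos hv]
  refine ⟨((e v hv).symm x).1, ⟨((e v hv).symm x).2, ?_⟩, ?_⟩
  · simp only
    rw [h4 _ ((e v hv).symm x).2]
    exact (e v hv).apply_symm_apply x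
  · rintro s ⟨hs1, hs2⟩
    simp only at hs2
    rw [h4 s hs1] at hs2
    rw [← hs2, (e v hv).symm_apply_apply]

theorem visits {V : Type} [Fintype V] [DecidableEq V] (G : SimpleGraph V) [DecidableRel G.Adj]
    {N : ℕ} [NeZero N] (τ : ZMod N → V) (hadj : ∀ s, G.Adj (τ s) (τ (s + 1)))
    (huniq : ∀ a b, G.Adj a b → ∃! s, s(τ s, τ (s + 1)) = s(a, b)) (v : V) :
    2 * (univ.filter fun s => τ s = v).card = G.degree v := by
  have h1 : (univ.filter fun s => τ (s + 1) = v).card = (univ.filter fun s => τ s = v).card := by
    apply Finset.card_bij (fun s _ => s + 1)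
    · intro s hs
      simp only [mem_filter, mem_univ, true_and] at hs ⊢
      exact hs
    · intro a _ b _ hab
      exact add_right_cancel hab
    · intro b hb
      simp only [mem_filter, mem_univ, true_and] at hb ⊢
      exact ⟨b - 1, by rw [sub_add_cancel]; exact hb, sub_add_cancel b 1⟩
  have h2 : ((univ.filter fun s => τ s = v) ∪ (univ.filter fun s => τ (s + 1) = v)).card =
      (G.neighborFinset v).card := by
    apply Finset.card_bij (fun s _ => if τ s = v then τ (s + 1) else τ s)
    · intro s hs
      simp only [mem_union, mem_filter, mem_univ, true_and] at hs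
      rw [mem_neighborFinset]
      have h3 := hadj s
      split_ifs with h
      · rw [← h]; exact h3
      · rcases hs with hs | hs
        · exact absurd hs h
        · rw [← hs]; exact h3.symm
    · intro s hs s' hs' hss
      simp only [mem_union, mem_filter, mem_univ, true_and] at hs hs'
      have key : ∀ s, (τ s = v ∨ τ (s + 1) = v) →
          s(τ s, τ (s + 1)) = s(v, if τ s = v then τ (s + 1) else τ s) := by
        intro s hs
        split_ifs with h
        · rw [h]
        · rcases hs with hs | hs
          · exact absurd hs h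
          · rw [hs, Sym2.eq_swap]
      have h3 := key s hs
      have h4 := key s' hs'
      rw [hss] at h3
      have h5 : G.Adj v (if τ s' = v then τ (s' + 1) else τ s') := by
        have := hadj s'
        rw [← mem_edgeSet, h4] at this
        exact this
      exact (huniq _ _ h5).unique h3 h4
    · intro w hw
      rw [mem_neighborFinset] at hw
      obtain ⟨s, hs, -⟩ := huniq v w hw
      rw [Sym2.eq_iff] at hs
      rcases hs with ⟨h3, h4⟩ | ⟨h3, h4⟩
      · exact ⟨s, by simp [h3], by simp [h3, h4]⟩
      · have h5 : τ s ≠ v := by rw [h3]; exact hw.ne'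
        exact ⟨s, by simp [h4], by simp only [h5, if_false]; exact h3⟩
  rw [card_union_of_disjoint, h1, card_neighborFinset_eq_degree] at h2
  · omega
  · rw [Finset.disjoint_left]
    intro s hs hs'
    simp only [mem_filter, mem_univ, true_and] at hs hs'
    exact (hadj s).ne (hs.trans hs'.symm)

/-- the bipartite graph of a relation -/
def bip {A B : Type} (R : A → B → Prop) : SimpleGraph (A ⊕ B) where
  Adj x y := match x, y with
    | Sum.inl a, Sum.inr b => R a b
    | Sum.inr b, Sum.inl a => R a b
    | _, _ => False
  symm := ⟨by rintro (a | b) (a' | b') h <;> exact h⟩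
  loopless := ⟨by rintro (a | b) h <;> exact h⟩

/-- a decomposition of the edges into Hamilton cycles -/
def HD {W J : Type} (X : SimpleGraph W) (L : ℕ) (F : J → ZMod L → W) : Prop :=
  (∀ j, Function.Bijective (F j)) ∧ (∀ j s, X.Adj (F j s) (F j (s + 1))) ∧
    ∀ x y, X.Adj x y → ∃! p : J × ZMod L, s(F p.1 p.2, F p.1 (p.2 + 1)) = s(x, y)

theorem core {A B : Type} [Fintype A] [Fintype B] [DecidableEq A] [DecidableEq B]
    (R : A → B → Prop) (m : ℕ) [NeZero m]
    (hB : ∀ b, {a | R a b}.ncard = 2) (hA : ∀ a, {b | R a b}.ncard = 2 * m)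
    (hconn : (bip R).Connected) [Nonempty A] (L : ℕ)
    (hL : L = Fintype.card ((A × ZMod m) ⊕ B)) :
    ∃ F : ZMod m → ZMod L → (A × ZMod m) ⊕ B,
      HD (bip fun (p : A × ZMod m) b => R p.1 b) L F := by
  classical
  have hdB : ∀ b, (bip R).degree (Sum.inr b) = 2 := by
    intro b
    rw [← card_neighborFinset_eq_degree, ← hB b]
    rw [Set.ncard_eq_toFinset_card']
    symm
    apply Finset.card_bij (fun a _ => Sum.inl a)
    · intro a ha
      rw [Set.mem_toFinset] at ha
      rw [mem_neighborFinset]
      exact ha
    · intro a _ a' _ h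
      exact Sum.inl_injective h
    · rintro (a | b') h
      · rw [mem_neighborFinset] at h
        exact ⟨a, by rw [Set.mem_toFinset]; exact h, rfl⟩
      · rw [mem_neighborFinset] at h
        exact h.elim
  have hdA : ∀ a, (bip R).degree (Sum.inl a) = 2 * m := by
    intro a
    rw [← card_neighborFinset_eq_degree, ← hA a]
    rw [Set.ncard_eq_toFinset_card']
    symm
    apply Finset.card_bij (fun b _ => Sum.inr b)
    · intro b hb
      rw [Set.mem_toFinset] at hb
      rw [mem_neighborFinset]
      exact hb
    · intro a _ a' _ h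
      exact Sum.inr_injective h
    · rintro (a' | b) h
      · rw [mem_neighborFinset] at h
        exact h.elim
      · rw [mem_neighborFinset] at h
        exact ⟨b, by rw [Set.mem_toFinset]; exact h, rfl⟩
  have hm : m ≠ 0 := NeZero.ne m
  obtain ⟨N, hN, τ, hadj, huniq⟩ := Euler.exists_tour (bip R) hconn (by
    rintro (a | b)
    · rw [hdA]; exact even_two_mul m
    · rw [hdB]; exact even_two) (by
    obtain ⟨a⟩ := (inferInstance : Nonempty A)
    have h1 : 0 < (bip R).degree (Sum.inl a) := by rw [hdA]; omega
    rw [degree_pos_iff_exists_adj] at h1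
    exact ⟨_, h1⟩)
  have hvB : ∀ b, {s | τ s = Sum.inr b}.ncard = 1 := by
    intro b
    have h1 := visits (bip R) τ hadj huniq (Sum.inr b)
    rw [hdB] at h1
    rw [Set.ncard_eq_toFinset_card', Set.toFinset_ofPred]
    omega
  have hvA : ∀ a, {s | τ s = Sum.inl a}.ncard = m := by
    intro a
    have h1 := visits (bip R) τ hadj huniq (Sum.inl a)
    rw [hdA] at h1
    rw [Set.ncard_eq_toFinset_card', Set.toFinset_ofPred]
    omega
  obtain ⟨c, hc⟩ := fibP (K := ZMod m) τ (fun x => ∃ a, x = Sum.inl a) (by
    rintro _ ⟨a, rfl⟩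
    rw [hvA, Nat.card_zmod])
  let F : ZMod m → ZMod N → (A × ZMod m) ⊕ B := fun x s =>
    match τ s with
    | Sum.inl a => Sum.inl (a, x + c s)
    | Sum.inr b => Sum.inr b
  have hFl : ∀ x s a, τ s = Sum.inl a → F x s = Sum.inl (a, x + c s) := by
    intro x s a h
    simp only [F, h]
  have hFr : ∀ x s b, τ s = Sum.inr b → F x s = Sum.inr b := by
    intro x s b h
    simp only [F, h]
  have hbij : ∀ x, Function.Bijective (F x) := by
    intro x
    constructor
    · intro s s' hs
      rcases h1 : τ s with a | b
      · rcases h2 : τ s' with a' | b'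
        · rw [hFl x s a h1, hFl x s' a' h2] at hs
          simp only [Sum.inl.injEq, Prod.mk.injEq, add_right_inj] at hs
          obtain ⟨rfl, h3⟩ := hs
          exact (hc (Sum.inl a) ⟨a, rfl⟩ (c s)).unique ⟨h1, rfl⟩ ⟨h2, h3.symm⟩
        · rw [hFl x s a h1, hFr x s' b' h2] at hs
          simp at hs
      · rcases h2 : τ s' with a' | b'
        · rw [hFr x s b h1, hFl x s' a' h2] at hs
          simp at hs
        · rw [hFr x s b h1, hFr x s' b' h2] at hs
          simp only [Sum.inr.injEq] at hs
          subst hs
          have h3 := hvB b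
          rw [Set.ncard_eq_one] at h3
          obtain ⟨z, hz⟩ := h3
          have h4 : s ∈ ({z} : Set (ZMod N)) := by rw [← hz]; exact h1
          have h5 : s' ∈ ({z} : Set (ZMod N)) := by rw [← hz]; exact h2
          rw [Set.mem_singleton_iff] at h4 h5
          rw [h4, h5]
    · rintro (⟨a, y⟩ | b)
      · obtain ⟨s, ⟨h1, h2⟩, -⟩ := hc (Sum.inl a) ⟨a, rfl⟩ (y - x)
        refine ⟨s, ?_⟩
        rw [hFl x s a h1, h2]
        simp
      · have h3 : {s | τ s = Sum.inr b}.Nonempty := by
          rw [← Set.ncard_pos, hvB]
          exact one_pos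
        obtain ⟨s, hs⟩ := h3
        exact ⟨s, hFr x s b hs⟩
  have hNL : N = L := by
    rw [hL, ← Fintype.card_of_bijective (hbij 0), ZMod.card]
  subst hNL
  refine ⟨F, hbij, ?_, ?_⟩
  · intro x s
    have h1 := hadj s
    rcases h2 : τ s with a | b
    · rcases h3 : τ (s + 1) with a' | b'
      · rw [h2, h3] at h1; exact h1.elim
      · rw [h2, h3] at h1
        rw [hFl x s a h2, hFr x _ b' h3]
        exact h1
    · rcases h3 : τ (s + 1) with a' | b'
      · rw [h2, h3] at h1
        rw [hFr x s b h2, hFl x _ a' h3]
        exact h1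
      · rw [h2, h3] at h1; exact h1.elim
  · -- uniqueness, first for one orientation
    have key : ∀ (a : A) (y : ZMod m) (b : B), R a b → ∃! p : ZMod m × ZMod N,
        s(F p.1 p.2, F p.1 (p.2 + 1)) = s(Sum.inl (a, y), Sum.inr b) := by
      intro a y b hab
      obtain ⟨s, hs, hu⟩ := huniq (Sum.inl a) (Sum.inr b) hab
      -- the time determines the shift
      have hshift : ∀ x, s(F x s, F x (s + 1)) = s(Sum.inl (a, y), Sum.inr b) ↔
          x = y - (if τ s = Sum.inl a then c s else c (s + 1)) := by
        intro x
        rw [Sym2.eq_iff] at hs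
        rcases hs with ⟨h3, h4⟩ | ⟨h3, h4⟩
        · rw [hFl x s a h3, hFr x _ b h4, if_pos h3, Sym2.eq_iff]
          simp only [Sum.inl.injEq, Prod.mk.injEq, true_and, and_true, reduceCtorEq, and_self,
            or_false]
          exact eq_sub_iff_add_eq.symm
        · have h5 : τ s ≠ Sum.inl a := by rw [h3]; simp
          rw [hFr x s b h3, hFl x _ a h4, if_neg h5, Sym2.eq_iff]
          simp only [Sum.inl.injEq, Prod.mk.injEq, true_and, reduceCtorEq, and_self,
            false_or]
          exact eq_sub_iff_add_eq.symm
      refine ⟨(_, s), (hshift _).2 rfl, ?_⟩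
      rintro ⟨x, s'⟩ h
      simp only at h
      have h6 : s' = s := by
        apply hu
        rw [Sym2.eq_iff] at h ⊢
        rcases h with ⟨h3, h4⟩ | ⟨h3, h4⟩
        · left
          constructor
          · rcases h7 : τ s' with a' | b'
            · rw [hFl x s' a' h7] at h3
              simp only [Sum.inl.injEq, Prod.mk.injEq] at h3
              rw [h3.1]
            · rw [hFr x s' b' h7] at h3
              simp at h3
          · rcases h7 : τ (s' + 1) with a' | b'
            · rw [hFl x _ a' h7] at h4
              simp at h4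
            · rw [hFr x _ b' h7] at h4
              rw [Sum.inr_injective h4]
        · right
          constructor
          · rcases h7 : τ s' with a' | b'
            · rw [hFl x s' a' h7] at h3
              simp at h3
            · rw [hFr x s' b' h7] at h3
              rw [Sum.inr_injective h3]
          · rcases h7 : τ (s' + 1) with a' | b'
            · rw [hFl x _ a' h7] at h4
              simp only [Sum.inl.injEq, Prod.mk.injEq] at h4
              rw [h4.1]
            · rw [hFr x _ b' h7] at h4
              simp at h4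
      subst h6
      rw [(hshift x).1 h]
    rintro (⟨a, y⟩ | b) (⟨a', y'⟩ | b') h
    · exact h.elim
    · exact key a y b' h
    · rw [Sym2.eq_swap]
      exact key a' y' b h
    · exact h.elim

end Pool.Agent.X76.Blow
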