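import Pool.Agent.X76.Blow3
import Pool.Agent.TH525.FRG.Basic

set_option autoImplicit false

/-!
Linear forests from Hamilton decompositions.
-/

namespace Pool.Agent.X76.Blow

open SimpleGraph Finset

/-- an edge colouring together with rank functions -/
def Rank {W : Type} (X : SimpleGraph W) (L : ℕ) : Prop :=
  ∃ (φ : W → W → ℕ) (pos : ℕ → W → ℕ),
    (∀ u v, X.Adj u v → φ u v = φ v u) ∧ (∀ u v, X.Adj u v → φ u v < L) ∧
    (∀ u v, X.Adj u v → pos (φ u v) u ≠ pos (φ u v) v) ∧
    (∀ u v w, X.Adj u v → X.Adj u w → φ u v = φ u w →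
      pos (φ u v) v < pos (φ u v) u → pos (φ u v) w < pos (φ u v) u → v = w) ∧
    (∀ u v w, X.Adj u v → X.Adj u w → φ u v = φ u w →
      pos (φ u v) u < pos (φ u v) v → pos (φ u v) u < pos (φ u v) w → v = w)

theorem Rank.cov {W : Type} {X : SimpleGraph W} {L : ℕ} (h : Rank X L) : H931R3.LA.Cov X L := by
  obtain ⟨φ, pos, h1, h2, h3, h4, h5⟩ := h
  exact TH525.FRG.cov_of_rank X L φ pos h1 h2 h3 h4 h5

theorem Rank.comp {W ι : Type} (X : SimpleGraph W) (κ : W → ι)
    (hκ : ∀ u v, X.Adj u v → κ u = κ v) (L : ℕ)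
    (h : ∀ c, Rank (X.comap (Subtype.val : {w // κ w = c} → W)) L) : Rank X L := by
  classical
  choose φ pos h1 h2 h3 h4 h5 using h
  let Φ : W → W → ℕ := fun u v => if huv : κ v = κ u then φ (κ u) ⟨u, rfl⟩ ⟨v, huv⟩ else 0
  let P : ℕ → W → ℕ := fun n u => pos (κ u) n ⟨u, rfl⟩
  have hΦ : ∀ c u v (hu : κ u = c) (hv : κ v = c), Φ u v = φ c ⟨u, hu⟩ ⟨v, hv⟩ := by
    rintro c u v rfl hv
    simp only [Φ, dif_pos hv]
  have hP : ∀ c n u (hu : κ u = c), P n u = pos c n ⟨u, hu⟩ := by
    rintro c n u rfl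
    rfl
  refine ⟨Φ, P, ?_, ?_, ?_, ?_, ?_⟩
  · intro u v huv
    have hv := (hκ u v huv).symm
    rw [hΦ (κ u) u v rfl hv, hΦ (κ u) v u hv rfl]
    exact h1 (κ u) ⟨u, rfl⟩ ⟨v, hv⟩ huv
  · intro u v huv
    have hv := (hκ u v huv).symm
    rw [hΦ (κ u) u v rfl hv]
    exact h2 (κ u) ⟨u, rfl⟩ ⟨v, hv⟩ huv
  · intro u v huv
    have hv := (hκ u v huv).symm
    rw [hΦ (κ u) u v rfl hv, hP (κ u) _ u rfl, hP (κ u) _ v hv]
    exact h3 (κ u) ⟨u, rfl⟩ ⟨v, hv⟩ huv
  · intro u v w huv huw
    have hv := (hκ u v huv).symm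
    have hw := (hκ u w huw).symm
    rw [hΦ (κ u) u v rfl hv, hΦ (κ u) u w rfl hw, hP (κ u) _ u rfl, hP (κ u) _ v hv,
      hP (κ u) _ w hw]
    intro e a b
    exact congrArg Subtype.val (h4 (κ u) ⟨u, rfl⟩ ⟨v, hv⟩ ⟨w, hw⟩ huv huw e a b)
  · intro u v w huv huw
    have hv := (hκ u v huv).symm
    have hw := (hκ u w huw).symm
    rw [hΦ (κ u) u v rfl hv, hΦ (κ u) u w rfl hw, hP (κ u) _ u rfl, hP (κ u) _ v hv,
      hP (κ u) _ w hw]
    intro e a b
    exact congrArg Subtype.val (h5 (κ u) ⟨u, rfl⟩ ⟨v, hv⟩ ⟨w, hw⟩ huv huw e a b)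

theorem HD.reindex {W J J' : Type} {X : SimpleGraph W} {L : ℕ} {F : J → ZMod L → W}
    (h : HD X L F) (e : J' ≃ J) : HD X L (fun j => F (e j)) := by
  refine ⟨fun j => h.1 _, fun j => h.2.1 _, ?_⟩
  intro x y hxy
  obtain ⟨⟨j, s⟩, h1, h2⟩ := h.2.2 x y hxy
  refine ⟨(e.symm j, s), ?_, ?_⟩
  · simp only [Equiv.apply_symm_apply]
    exact h1
  · rintro ⟨j', s'⟩ h3
    have h4 := h2 (e j', s') h3
    rw [Prod.mk.injEq] at h4
    rw [h4.2, ← h4.1, Equiv.symm_apply_apply]

/-- greedy choice of disjoint edges -/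
theorem greedy {W : Type} {L h : ℕ} [NeZero L] (F : Fin h → ZMod L → W)
    (hF : ∀ j, Function.Injective (F j)) (h4 : 4 * h ≤ L) :
    ∃ T : Fin h → ZMod L, ∀ j j', j ≠ j' → F j (T j) ≠ F j' (T j') ∧
      F j (T j) ≠ F j' (T j' + 1) ∧ F j (T j + 1) ≠ F j' (T j' + 1) := by
  classical
  have main : ∀ S : Finset (Fin h), ∃ T : Fin h → ZMod L, ∀ j ∈ S, ∀ j' ∈ S, j ≠ j' →
      F j (T j) ≠ F j' (T j') ∧ F j (T j) ≠ F j' (T j' + 1) ∧ F j (T j + 1) ≠ F j' (T j' + 1) := by
    intro S
    induction S using Finset.induction_on with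
    | empty => exact ⟨fun _ => 0, by simp⟩
    | insert a S ha ih =>
      obtain ⟨T, hT⟩ := ih
      let P : Finset W := S.image (fun j => F j (T j)) ∪ S.image (fun j => F j (T j + 1))
      have hP : P.card ≤ 2 * S.card := by
        refine (card_union_le _ _).trans ?_
        have h1 := card_image_le (s := S) (f := fun j => F j (T j))
        have h2 := card_image_le (s := S) (f := fun j => F j (T j + 1))
        omega
      have hS : S.card + 1 ≤ h := by
        have h1 := card_le_univ (insert a S)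
        rw [card_insert_of_notMem ha, Fintype.card_fin] at h1
        exact h1
      have hb1 : (univ.filter fun t : ZMod L => F a t ∈ P).card ≤ P.card := by
        apply card_le_card_of_injOn (F a)
        · intro t ht
          rw [Finset.mem_coe, mem_filter] at ht
          exact ht.2
        · exact (hF a).injOn
      have hb2 : (univ.filter fun t : ZMod L => F a (t + 1) ∈ P).card ≤ P.card := by
        apply card_le_card_of_injOn (fun t => F a (t + 1))
        · intro t ht
          rw [Finset.mem_coe, mem_filter] at ht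
          exact ht.2
        · intro t _ t' _ htt
          exact add_right_cancel (hF a htt)
      obtain ⟨t, ht⟩ : ∃ t : ZMod L, F a t ∉ P ∧ F a (t + 1) ∉ P := by
        by_contra hno
        push Not at hno
        have h1 : (univ : Finset (ZMod L)) ⊆ (univ.filter fun t : ZMod L => F a t ∈ P) ∪
            (univ.filter fun t : ZMod L => F a (t + 1) ∈ P) := by
          intro t _
          rw [mem_union, mem_filter, mem_filter]
          by_cases h2 : F a t ∈ P
          · exact Or.inl ⟨mem_univ _, h2⟩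
          · exact Or.inr ⟨mem_univ _, hno t h2⟩
        have h2 := (card_le_card h1).trans (card_union_le _ _)
        rw [card_univ, ZMod.card] at h2
        omega
      have hmem : ∀ j ∈ S, F j (T j) ∈ P ∧ F j (T j + 1) ∈ P := by
        intro j hj
        exact ⟨mem_union_left _ (mem_image_of_mem _ hj),
          mem_union_right _ (mem_image_of_mem (fun j => F j (T j + 1)) hj)⟩
      refine ⟨Function.update T a t, ?_⟩
      intro j hj j' hj' hne
      rw [mem_insert] at hj hj'
      have hup : ∀ i ∈ S, Function.update T a t i = T i := by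
        intro i hi
        apply Function.update_of_ne
        rintro rfl
        exact ha hi
      rcases hj with rfl | hj
      · rcases hj' with rfl | hj'
        · exact absurd rfl hne
        · rw [Function.update_self, hup j' hj']
          obtain ⟨h1, h2⟩ := hmem j' hj'
          exact ⟨fun e => ht.1 (e ▸ h1), fun e => ht.1 (e ▸ h2), fun e => ht.2 (e ▸ h2)⟩
      · rcases hj' with rfl | hj'
        · rw [Function.update_self, hup j hj]
          obtain ⟨h1, h2⟩ := hmem j hj
          exact ⟨fun e => ht.1 (e ▸ h1), fun e => ht.2 (e ▸ h1), fun e => ht.2 (e ▸ h2)⟩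
        · rw [hup j hj, hup j' hj']
          exact hT j hj j' hj' hne
  obtain ⟨T, hT⟩ := main univ
  exact ⟨T, fun j j' hne => hT j (mem_univ _) j' (mem_univ _) hne⟩

theorem rank_of_HD {W : Type} {X : SimpleGraph W} {L h : ℕ} [NeZero L] {F : Fin h → ZMod L → W}
    (hF : HD X L F) (h4 : 4 * h ≤ L) : Rank X (h + 1) := by
  classical
  obtain ⟨T, hT⟩ := greedy F (fun j => (hF.1 j).1) h4
  let G : Fin h → (ZMod L ≃ W) := fun j => Equiv.ofBijective (F j) (hF.1 j)
  have hG : ∀ j s, (G j).symm (F j s) = s := fun j s => (G j).symm_apply_apply s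
  let p : W → W → Fin h × ZMod L → Prop := fun u v q => s(F q.1 q.2, F q.1 (q.2 + 1)) = s(u, v)
  let φ : W → W → ℕ := fun u v => if hp : ∃ q, p u v q then
    (if hp.choose.2 = T hp.choose.1 then h else hp.choose.1.val) else 0
  have hφ : ∀ u v, X.Adj u v → ∀ q, p u v q → φ u v = if q.2 = T q.1 then h else q.1.val := by
    intro u v huv q hq
    have h1 : ∃ q, p u v q := ⟨q, hq⟩
    have h2 : h1.choose = q := (hF.2.2 u v huv).unique h1.choose_spec hq
    simp only [φ, dif_pos h1, h2]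
  let pos : ℕ → W → ℕ := fun n w => if hn : n < h then
    ((G ⟨n, hn⟩).symm w - (T ⟨n, hn⟩ + 1)).val else (if ∃ j, w = F j (T j) then 1 else 0)
  have hposj : ∀ (j : Fin h) s, pos j.val (F j s) = (s - (T j + 1)).val := by
    intro j s
    simp only [pos, dif_pos j.2]
    rw [hG]
  have hinj : ∀ (j : Fin h) x y, pos j.val x = pos j.val y → x = y := by
    intro j x y hxy
    simp only [pos, dif_pos j.2] at hxy
    have h1 := ZMod.val_injective L hxy
    have h2 := sub_left_injective h1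
    exact (G j).symm.injective h2
  have hstep : ∀ (j : Fin h) s, s ≠ T j → pos j.val (F j (s + 1)) = pos j.val (F j s) + 1 := by
    intro j s hs
    rw [hposj, hposj]
    have h1 : s + 1 - (T j + 1) = (s - (T j + 1)) + 1 := by ring
    rw [h1, Euler.val_succ, if_neg]
    intro h2
    have h3 : (((s - (T j + 1)).val + 1 : ℕ) : ZMod L) = 0 := by
      rw [h2, ZMod.natCast_self]
    push_cast at h3
    rw [ZMod.natCast_zmod_val] at h3
    apply hs
    linear_combination h3
  have hL1 : ∀ j : Fin h, T j + 1 ≠ T j := by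
    intro j h1
    have h2 : (1 : ZMod L) = 0 := by linear_combination h1
    have h3 : 1 < L := by
      have := j.2
      omega
    have : Fact (1 < L) := ⟨h3⟩
    exact one_ne_zero h2
  have hposh : ∀ w, pos h w = if ∃ j, w = F j (T j) then 1 else 0 := by
    intro w
    simp only [pos, lt_irrefl, dif_neg, not_false_eq_true]
  have hfst : ∀ j, pos h (F j (T j)) = 1 := by
    intro j
    rw [hposh, if_pos ⟨j, rfl⟩]
  have hsnd : ∀ j, pos h (F j (T j + 1)) = 0 := by
    intro j
    rw [hposh, if_neg]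
    rintro ⟨j', h1⟩
    by_cases hjj : j' = j
    · subst hjj
      exact hL1 j' ((hF.1 j').1 h1)
    · exact (hT j' j hjj).2.1 h1.symm
  -- the structure of an edge
  have hcase : ∀ u v, X.Adj u v →
      (∃ (j : Fin h) (s : ZMod L), s ≠ T j ∧ φ u v = j.val ∧
        ((u = F j s ∧ v = F j (s + 1)) ∨ (v = F j s ∧ u = F j (s + 1)))) ∨
      (φ u v = h ∧ ∃ j : Fin h, (u = F j (T j) ∧ v = F j (T j + 1)) ∨
        (v = F j (T j) ∧ u = F j (T j + 1))) := by
    intro u v huv
    obtain ⟨⟨j, s⟩, hq, -⟩ := hF.2.2 u v huv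
    have h1 := hφ u v huv (j, s) hq
    simp only at h1 hq
    rw [Sym2.eq_iff] at hq
    have h2 : (u = F j s ∧ v = F j (s + 1)) ∨ (v = F j s ∧ u = F j (s + 1)) := by
      rcases hq with ⟨a, b⟩ | ⟨a, b⟩
      · exact Or.inl ⟨a.symm, b.symm⟩
      · exact Or.inr ⟨a.symm, b.symm⟩
    by_cases hs : s = T j
    · rw [if_pos hs] at h1
      subst hs
      exact Or.inr ⟨h1, j, h2⟩
    · rw [if_neg hs] at h1
      exact Or.inl ⟨j, s, hs, h1, h2⟩
  have hmatch : ∀ u v w, X.Adj u v → X.Adj u w → φ u v = h → φ u w = h → v = w := by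
    intro u v w huv huw h1 h2
    rcases hcase u v huv with ⟨j, s, -, h3, -⟩ | ⟨-, j, h3⟩
    · have := j.2; omega
    rcases hcase u w huw with ⟨j', s, -, h5, -⟩ | ⟨-, j', h5⟩
    · have := j'.2; omega
    by_cases hjj : j = j'
    · subst hjj
      rcases h3 with ⟨a, b⟩ | ⟨a, b⟩ <;> rcases h5 with ⟨c, d⟩ | ⟨c, d⟩
      · rw [b, d]
      · exact absurd ((hF.1 j).1 (a.symm.trans d)).symm (hL1 j)
      · exact absurd ((hF.1 j).1 (b.symm.trans c)) (hL1 j)
      · rw [a, c]
    · obtain ⟨e1, e2, e3⟩ := hT j j' hjj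
      obtain ⟨-, e4, -⟩ := hT j' j (Ne.symm hjj)
      rcases h3 with ⟨a, b⟩ | ⟨a, b⟩ <;> rcases h5 with ⟨c, d⟩ | ⟨c, d⟩
      · exact absurd (a.symm.trans c) e1
      · exact absurd (a.symm.trans d) e2
      · exact absurd (c.symm.trans b) e4
      · exact absurd (b.symm.trans d) e3
  refine ⟨φ, pos, ?_, ?_, ?_, ?_, ?_⟩
  · intro u v huv
    obtain ⟨q, hq, -⟩ := hF.2.2 u v huv
    rw [hφ u v huv q hq, hφ v u huv.symm q (hq.trans Sym2.eq_swap)]
  · intro u v huv
    rcases hcase u v huv with ⟨j, s, -, h1, -⟩ | ⟨h1, -⟩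
    · have := j.2; omega
    · omega
  · intro u v huv
    rcases hcase u v huv with ⟨j, s, hs, h1, h2⟩ | ⟨h1, j, h2⟩
    · rw [h1]
      have h3 := hstep j s hs
      rcases h2 with ⟨rfl, rfl⟩ | ⟨rfl, rfl⟩ <;> omega
    · rw [h1]
      have h3 := hfst j
      have h5 := hsnd j
      rcases h2 with ⟨rfl, rfl⟩ | ⟨rfl, rfl⟩ <;> omega
  · intro u v w huv huw he
    rcases hcase u v huv with ⟨j, s, hs, h1, h2⟩ | ⟨h1, -⟩
    · rcases hcase u w huw with ⟨j', s', hs', h1', h2'⟩ | ⟨h1', -⟩
      · have hjj : j = j' := Fin.ext (by omega)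
        subst hjj
        rw [h1]
        have h3 := hstep j s hs
        have h3' := hstep j s' hs'
        intro a b
        apply hinj j
        rcases h2 with ⟨e1, e2⟩ | ⟨e1, e2⟩ <;> rcases h2' with ⟨e3, e4⟩ | ⟨e3, e4⟩ <;>
          rw [← e1, ← e2] at h3 <;> rw [← e3, ← e4] at h3' <;> omega
      · have := j.2
        omega
    · intro _ _
      exact hmatch u v w huv huw h1 (he ▸ h1)
  · intro u v w huv huw he
    rcases hcase u v huv with ⟨j, s, hs, h1, h2⟩ | ⟨h1, -⟩
    · rcases hcase u w huw with ⟨j', s', hs', h1', h2'⟩ | ⟨h1', -⟩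
      · have hjj : j = j' := Fin.ext (by omega)
        subst hjj
        rw [h1]
        have h3 := hstep j s hs
        have h3' := hstep j s' hs'
        intro a b
        apply hinj j
        rcases h2 with ⟨e1, e2⟩ | ⟨e1, e2⟩ <;> rcases h2' with ⟨e3, e4⟩ | ⟨e3, e4⟩ <;>
          rw [← e1, ← e2] at h3 <;> rw [← e3, ← e4] at h3' <;> omega
      · have := j.2
        omega
    · intro _ _
      exact hmatch u v w huv huw h1 (he ▸ h1)

end Pool.Agent.X76.Blow
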