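import Pool.Agent.X76.Blow4

set_option autoImplicit false

/-!
Linear arboricity of blow-ups of bipartite regular graphs.
-/

namespace Pool.Agent.X76.Blow

open SimpleGraph Finset

/-- counting a set fibred over another one -/
theorem ncard_fib {V W : Type} [Finite V] [Finite W] (f : W → V) (m : ℕ)
    (hf : ∀ v, {w | f w = v}.ncard = m) (P : V → Prop) :
    {w | P (f w)}.ncard = {v | P v}.ncard * m := by
  classical
  have := Fintype.ofFinite V
  have := Fintype.ofFinite W
  rw [Set.ncard_eq_toFinset_card', Set.ncard_eq_toFinset_card', Set.toFinset_ofPred,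
    Set.toFinset_ofPred]
  rw [Finset.card_eq_sum_card_fiberwise (f := f) (t := univ.filter P)]
  · rw [Finset.sum_const_nat (m := m)]
    intro v hv
    rw [mem_filter] at hv
    rw [← hf v, Set.ncard_eq_toFinset_card', Set.toFinset_ofPred]
    congr 1
    ext w
    simp only [mem_filter, mem_univ, true_and]
    constructor
    · exact fun h => h.2
    · intro h; exact ⟨by rw [h]; exact hv.2, h⟩
  · intro w hw
    simp only [Finset.coe_filter, mem_univ, true_and, Set.mem_ofPred_eq] at hw ⊢
    exact hw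

theorem card_fib {V W : Type} [Finite V] [Finite W] (f : W → V) (m : ℕ)
    (hf : ∀ v, {w | f w = v}.ncard = m) : Nat.card W = Nat.card V * m := by
  have h := ncard_fib f m hf (fun _ => True)
  simpa [Set.ncard_univ] using h

/-- a connected bipartite `d`-regular graph has at least `2 d` vertices -/
theorem two_mul_le_card {V : Type} [Finite V] [Nonempty V] (G : SimpleGraph V) (χ : V → Bool)
    (hχ : ∀ u v, G.Adj u v → χ u ≠ χ v) (d : ℕ) (hd : 0 < d)
    (hdeg : ∀ v, (G.neighborSet v).ncard = d) : 2 * d ≤ Nat.card V := by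
  obtain ⟨v⟩ := (inferInstance : Nonempty V)
  have h1 : (G.neighborSet v).Nonempty := by
    rw [← Set.ncard_pos, hdeg]; exact hd
  obtain ⟨u, hu⟩ := h1
  have h2 : Disjoint (G.neighborSet v) (G.neighborSet u) := by
    rw [Set.disjoint_left]
    intro x hx hx'
    have h3 := hχ _ _ hx
    have h4 := hχ _ _ hx'
    have h5 := hχ _ _ hu
    revert h3 h4 h5
    cases χ v <;> cases χ u <;> cases χ x <;> simp
  have h3 := Set.ncard_union_eq h2 (Set.toFinite _) (Set.toFinite _)
  rw [hdeg, hdeg] at h3
  have h4 := Set.ncard_le_ncard (Set.subset_univ (G.neighborSet v ∪ G.neighborSet u))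
    (Set.toFinite _)
  rw [Set.ncard_univ] at h4
  omega

theorem rank_all {V W : Type} [Finite V] [Finite W] (G : SimpleGraph V)
    (χ : V → Bool) (hχ : ∀ u v, G.Adj u v → χ u ≠ χ v) (k m : ℕ) (hk : 0 < k)
    (hkm : k ≤ m) (hdeg : ∀ v, (G.neighborSet v).ncard = 2 * k)
    (f : W → V) (hf : ∀ v, {w | f w = v}.ncard = m) : Rank (G.comap f) (k * m + 1) := by
  classical
  have : NeZero k := ⟨hk.ne'⟩
  have : NeZero m := ⟨by omega⟩
  apply Rank.comp (G.comap f) (fun w => G.connectedComponentMk (f w))
  · intro u v huv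
    exact ConnectedComponent.sound (Adj.reachable huv)
  intro C
  -- the component
  let VC : Type := {v : V // G.connectedComponentMk v = C}
  let WC : Type := {w : W // G.connectedComponentMk (f w) = C}
  have iV := Fintype.ofFinite VC
  have iW := Fintype.ofFinite WC
  let GC : SimpleGraph VC := G.comap Subtype.val
  let fC : WC → VC := fun w => ⟨f w.1, w.2⟩
  have hconn : GC.Connected := C.connected_toSimpleGraph
  have hdC : ∀ v : VC, (GC.neighborSet v).ncard = 2 * k := by
    intro v
    rw [← hdeg v.1, ← Set.ncard_image_of_injective _ Subtype.val_injective]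
    congr 1
    ext u
    simp only [Set.mem_image, mem_neighborSet]
    constructor
    · rintro ⟨u', h1, rfl⟩
      exact h1
    · intro h1
      refine ⟨⟨u, ?_⟩, h1, rfl⟩
      rw [← v.2]
      exact ConnectedComponent.sound (Adj.reachable h1.symm)
  have hfC : ∀ v : VC, {w | fC w = v}.ncard = m := by
    intro v
    rw [← hf v.1, ← Set.ncard_image_of_injective _ Subtype.val_injective]
    congr 1
    ext w
    simp only [Set.mem_image, Set.mem_ofPred_eq]
    constructor
    · rintro ⟨w', h1, rfl⟩
      rw [← h1]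
    · intro h1
      refine ⟨⟨w, ?_⟩, ?_, rfl⟩
      · rw [h1]; exact v.2
      · exact Subtype.ext h1
  obtain ⟨F, hF⟩ := main_conn GC hconn (fun v => χ v.1) (fun u v h => hχ _ _ h) k m hkm hdC fC hfC
  have hneV : Nonempty VC := hconn.nonempty
  have hcV := two_mul_le_card GC (fun v => χ v.1) (fun u v h => hχ _ _ h) (2 * k) (by omega) hdC
  have hcW := card_fib fC m hfC
  have h4 : 4 * (k * m) ≤ Fintype.card WC := by
    rw [← Nat.card_eq_fintype_card, hcW]
    nlinarith
  have : NeZero (Fintype.card WC) := ⟨by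
    have : 0 < k * m := Nat.mul_pos hk (by omega)
    omega⟩
  have hcJ : Nat.card (ZMod k × ZMod m) = k * m := by
    rw [Nat.card_prod, Nat.card_zmod, Nat.card_zmod]
  let e : Fin (k * m) ≃ ZMod k × ZMod m := (Finite.equivFinOfCardEq hcJ).symm
  exact rank_of_HD (hF.reindex e) h4

/-- blow-ups of connected graphs are connected -/
theorem conn_comap {V W : Type} (G : SimpleGraph V) (hconn : G.Connected) (f : W → V)
    (hsurj : Function.Surjective f) (hdeg : ∀ v, ∃ u, G.Adj v u) : (G.comap f).Connected := by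
  have key : ∀ (a b : V) (_ : G.Walk a b) (x y : W), f x = a → f y = b →
      (G.comap f).Reachable x y := by
    intro a b p
    induction p with
    | nil =>
      intro x y hx hy
      obtain ⟨u, hu⟩ := hdeg (f x)
      obtain ⟨z, rfl⟩ := hsurj u
      have h1 : (G.comap f).Adj x z := hu
      have h2 : (G.comap f).Adj z y := by
        rw [comap_adj, hy, ← hx]; exact hu.symm
      exact h1.reachable.trans h2.reachable
    | @cons a c b h p ih =>
      intro x y hx hy
      obtain ⟨z, rfl⟩ := hsurj c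
      have h1 : (G.comap f).Adj x z := by rw [comap_adj, hx]; exact h
      exact h1.reachable.trans (ih z y rfl hy)
  refine (connected_iff _).2 ⟨fun x y => ?_, ?_⟩
  · obtain ⟨p⟩ := hconn.preconnected (f x) (f y)
    exact key _ _ p x y rfl rfl
  · obtain ⟨v⟩ := hconn.nonempty
    exact ⟨(hsurj v).choose⟩

/-- splitting a blow-up by an even factor -/
theorem split {V W : Type} [Finite W] (f : W → V) (m : ℕ)
    (hf : ∀ v, {w | f w = v}.ncard = 2 * m) :
    ∃ g : W → V × Fin 2, (∀ w, (g w).1 = f w) ∧ ∀ z, {w | g w = z}.ncard = m := by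
  classical
  rcases Nat.eq_zero_or_pos m with rfl | hm
  · -- no vertices
    have hW : IsEmpty W := by
      refine ⟨fun w => ?_⟩
      have h1 := hf (f w)
      rw [Nat.mul_zero, Set.ncard_eq_zero (Set.toFinite _)] at h1
      have h2 : w ∈ ({w' | f w' = f w} : Set W) := rfl
      rw [h1] at h2
      exact h2
    exact ⟨fun w => (f w, 0), fun _ => rfl, fun z => by
      rw [Set.eq_empty_of_isEmpty {w | (f w, (0 : Fin 2)) = z}, Set.ncard_empty]⟩
  have : Nonempty (Fin 2 × Fin m) := ⟨(0, ⟨0, hm⟩)⟩
  obtain ⟨c, hc⟩ := fibP (K := Fin 2 × Fin m) f (fun _ => True) (by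
    intro v _
    rw [hf, Nat.card_prod, Nat.card_fin, Nat.card_fin])
  refine ⟨fun w => (f w, (c w).1), fun _ => rfl, ?_⟩
  rintro ⟨v, e⟩
  choose s hs hs' using fun x => hc v trivial x
  have h1 : {w | (f w, (c w).1) = (v, e)} = (fun i : Fin m => s (e, i)) '' Set.univ := by
    ext w
    simp only [Set.mem_ofPred_eq, Prod.mk.injEq, Set.mem_image, Set.mem_univ, true_and]
    constructor
    · rintro ⟨h2, h3⟩
      refine ⟨(c w).2, ?_⟩
      symm
      apply hs'
      exact ⟨h2, by rw [← h3]⟩
    · rintro ⟨i, rfl⟩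
      exact ⟨(hs (e, i)).1, by rw [(hs (e, i)).2]⟩
  rw [h1, Set.ncard_image_of_injective, Set.ncard_univ, Nat.card_fin]
  intro i i' hii
  have h2 := (hs (e, i)).2
  have h3 := (hs (e, i')).2
  simp only at hii
  rw [hii, h3] at h2
  simpa using h2.symm

theorem deg_comap {V W : Type} [Finite V] [Finite W] (G : SimpleGraph V) (r m : ℕ)
    (hdeg : ∀ v, (G.neighborSet v).ncard = r) (f : W → V)
    (hf : ∀ v, {w | f w = v}.ncard = m) (w : W) : ((G.comap f).neighborSet w).ncard = r * m := by
  have h := ncard_fib f m hf (fun v => G.Adj (f w) v)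
  rw [← hdeg (f w)]
  exact h

/-- **Main theorem.** -/
theorem main {V W : Type} [Finite V] [Finite W] (G : SimpleGraph V)
    (χ : V → Bool) (hχ : ∀ u v, G.Adj u v → χ u ≠ χ v) (r m : ℕ) (hr : 0 < r)
    (hdeg : ∀ v, (G.neighborSet v).ncard = r)
    (f : W → V) (hf : ∀ v, {w | f w = v}.ncard = m)
    (hrm : (Even r ∧ r ≤ 2 * m) ∨ (Even m ∧ 0 < m ∧ 2 * r ≤ m)) :
    Rank (G.comap f) (r * m / 2 + 1) ∧
    (G.Connected → ∃ F : Fin (r * m / 2) → ZMod (Nat.card W) → W,
      HD (G.comap f) (Nat.card W) F) := by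
  classical
  have iV := Fintype.ofFinite V
  have iW := Fintype.ofFinite W
  have hcW : Nat.card W = Fintype.card W := Nat.card_eq_fintype_card
  rcases hrm with ⟨⟨k, hk⟩, hm⟩ | ⟨⟨m', hm'⟩, hm0, hm⟩
  · have hr2 : r = 2 * k := by omega
    subst hr2
    have hJ : 2 * k * m / 2 = k * m := by
      rw [mul_assoc]; exact Nat.mul_div_cancel_left _ two_pos
    rw [hJ]
    refine ⟨rank_all G χ hχ k m (by omega) (by omega) hdeg f hf, fun hconn => ?_⟩
    have : NeZero k := ⟨by omega⟩
    have : NeZero m := ⟨by omega⟩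
    obtain ⟨F, hF⟩ := main_conn G hconn χ hχ k m (by omega) hdeg f hf
    have hcJ : Nat.card (ZMod k × ZMod m) = k * m := by
      rw [Nat.card_prod, Nat.card_zmod, Nat.card_zmod]
    let e : Fin (k * m) ≃ ZMod k × ZMod m := (Finite.equivFinOfCardEq hcJ).symm
    rw [hcW]
    exact ⟨_, hF.reindex e⟩
  · have hm2 : m = 2 * m' := by omega
    subst hm2
    have hJ : r * (2 * m') / 2 = r * m' := by
      rw [show r * (2 * m') = 2 * (r * m') by ring]; exact Nat.mul_div_cancel_left _ two_pos
    rw [hJ]
    obtain ⟨g, hg1, hg2⟩ := split f m' hf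
    have hcomap : G.comap f = (G.comap (Prod.fst : V × Fin 2 → V)).comap g := by
      ext x y
      simp only [comap_adj, hg1]
    have hfst : ∀ v : V, {z : V × Fin 2 | z.1 = v}.ncard = 2 := by
      intro v
      have h1 : {z : V × Fin 2 | z.1 = v} = (fun i : Fin 2 => (v, i)) '' Set.univ := by
        ext ⟨a, b⟩
        simp only [Set.mem_ofPred_eq, Set.mem_image, Set.mem_univ, true_and, Prod.mk.injEq,
          exists_eq_right]
        exact eq_comm
      rw [h1, Set.ncard_image_of_injective, Set.ncard_univ, Nat.card_fin]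
      intro i j hij
      exact (Prod.mk.inj hij).2
    have hd2 : ∀ z, ((G.comap (Prod.fst : V × Fin 2 → V)).neighborSet z).ncard = 2 * r := by
      intro z
      rw [deg_comap G r 2 hdeg Prod.fst hfst z]
      ring
    rw [hcomap]
    refine ⟨rank_all _ (fun z => χ z.1) (fun u v h => hχ _ _ h) r m' hr (by omega) hd2 g hg2,
      fun hconn => ?_⟩
    have hconn2 : (G.comap (Prod.fst : V × Fin 2 → V)).Connected := by
      apply conn_comap G hconn
      · exact fun v => ⟨(v, 0), rfl⟩
      · intro v
        have h1 : (G.neighborSet v).Nonempty := by rw [← Set.ncard_pos, hdeg]; exact hr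
        exact h1
    have : NeZero r := ⟨by omega⟩
    have : NeZero m' := ⟨by omega⟩
    obtain ⟨F, hF⟩ := main_conn _ hconn2 (fun z => χ z.1) (fun u v h => hχ _ _ h) r m' (by omega)
      hd2 g hg2
    have hcJ : Nat.card (ZMod r × ZMod m') = r * m' := by
      rw [Nat.card_prod, Nat.card_zmod, Nat.card_zmod]
    let e : Fin (r * m') ≃ ZMod r × ZMod m' := (Finite.equivFinOfCardEq hcJ).symm
    rw [hcW]
    exact ⟨_, hF.reindex e⟩

end Pool.Agent.X76.Blow
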