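import Mathlib

/-!
A verified backtracking solver for binary constraint problems on `n` variables with values `< k`.
-/

set_option autoImplicit false

namespace Pool.Agent.X76.CSP

/-- no conflict between the value `c` of variable `i` and the values of `j-1,...,0` in the list -/
def okV (con : ℕ → ℕ → ℕ → ℕ → Bool) (i c : ℕ) : ℕ → List ℕ → Bool
  | _, [] => true
  | 0, _ :: _ => true
  | j + 1, d :: ds => con i c j d && okV con i c j ds

/-- all solutions extending the partial assignment `cs` satisfy `P` -/
def allSol (con : ℕ → ℕ → ℕ → ℕ → Bool) (k : ℕ) (P : List ℕ → Bool) : ℕ → ℕ → List ℕ → Bool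
  | 0, _, cs => P cs
  | rem + 1, i, cs =>
    (List.range k).all (fun c => !(okV con i c i cs) || allSol con k P rem (i + 1) (c :: cs))

/-- list of the values of `j-1, ..., 0` -/
def pre (f : ℕ → ℕ) : ℕ → List ℕ
  | 0 => []
  | j + 1 => f j :: pre f j

lemma okV_pre (con : ℕ → ℕ → ℕ → ℕ → Bool) (f : ℕ → ℕ) (i j : ℕ)
    (h : ∀ t < j, con i (f i) t (f t) = true) : okV con i (f i) j (pre f j) = true := by
  induction j with
  | zero => rfl
  | succ j ih =>
    rw [pre, okV, Bool.and_eq_true]
    exact ⟨h j (by omega), ih (fun t ht => h t (by omega))⟩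

lemma allSol_aux (con : ℕ → ℕ → ℕ → ℕ → Bool) (k n : ℕ) (P : List ℕ → Bool) (f : ℕ → ℕ)
    (hk : ∀ i < n, f i < k) (h : ∀ i < n, ∀ t < i, con i (f i) t (f t) = true) :
    ∀ rem i, i + rem = n → allSol con k P rem i (pre f i) = true → P (pre f n) = true := by
  intro rem
  induction rem with
  | zero =>
    intro i hi hP
    obtain rfl : i = n := by omega
    exact hP
  | succ rem ih =>
    intro i hi hP
    rw [allSol, List.all_eq_true] at hP
    have h1 := hP (f i) (List.mem_range.mpr (hk i (by omega)))
    rw [okV_pre con f i i (h i (by omega))] at h1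
    simp only [Bool.not_true, Bool.false_or] at h1
    exact ih (i + 1) (by omega) h1

/-- the certificate theorem -/
theorem allSol_spec {con : ℕ → ℕ → ℕ → ℕ → Bool} {k n : ℕ} {P : List ℕ → Bool}
    (hc : allSol con k P n 0 [] = true) (f : ℕ → ℕ)
    (hk : ∀ i < n, f i < k) (h : ∀ i < n, ∀ t < i, con i (f i) t (f t) = true) :
    P (pre f n) = true :=
  allSol_aux con k n P f hk h n 0 (by omega) hc

end Pool.Agent.X76.CSP
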