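import Pool.Agent.X76.Blow3

set_option autoImplicit false

/-!
Hamilton decompositions of blow-ups of coloured regular graphs: the lift of an Euler tour.
-/

namespace Pool.Agent.X76.Blow

open SimpleGraph Finset

section Pos

variable {N s : ℕ} [NeZero N] [NeZero s]

/-- place in the tour -/
def tt (N s : ℕ) (T : ZMod (N * s)) : ZMod N := (T.val : ZMod N)

/-- number of the round -/
def rr (N s : ℕ) (T : ZMod (N * s)) : ZMod s := ((T.val / N : ℕ) : ZMod s)

theorem tt_succ (T : ZMod (N * s)) : tt N s (T + 1) = tt N s T + 1 := by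
  have : NeZero (N * s) := ⟨Nat.mul_ne_zero (NeZero.ne N) (NeZero.ne s)⟩
  unfold tt
  rw [Euler.val_succ]
  split_ifs with h
  · have h1 : ((T.val : ℕ) : ZMod N) + 1 = ((T.val + 1 : ℕ) : ZMod N) := by push_cast; ring
    rw [h1, h]
    push_cast
    simp
  · push_cast
    ring

theorem tt_zero_iff (T : ZMod (N * s)) : tt N s T + 1 = 0 ↔ N ∣ T.val + 1 := by
  unfold tt
  have h1 : ((T.val : ℕ) : ZMod N) + 1 = ((T.val + 1 : ℕ) : ZMod N) := by push_cast; ring
  rw [h1, ZMod.natCast_eq_zero_iff]

theorem rr_succ (T : ZMod (N * s)) :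
    rr N s (T + 1) = if tt N s T + 1 = 0 then rr N s T + 1 else rr N s T := by
  have : NeZero (N * s) := ⟨Nat.mul_ne_zero (NeZero.ne N) (NeZero.ne s)⟩
  have hN : 0 < N := Nat.pos_of_ne_zero (NeZero.ne N)
  simp only [tt_zero_iff]
  unfold rr
  rw [Euler.val_succ]
  by_cases h : T.val + 1 = N * s
  · rw [if_pos h]
    have h1 : N ∣ T.val + 1 := by rw [h]; exact Nat.dvd_mul_right N s
    rw [if_pos h1]
    have h2 := Nat.succ_div (a := T.val) (b := N)
    rw [if_pos h1, h, Nat.mul_div_cancel_left _ hN] at h2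
    have h3 : (((T.val / N : ℕ) : ZMod s)) + 1 = ((T.val / N + 1 : ℕ) : ZMod s) := by push_cast; ring
    rw [h3, ← h2]
    simp
  · rw [if_neg h, Nat.succ_div]
    split_ifs with h1
    · push_cast; ring
    · rfl

theorem pos_inj (T T' : ZMod (N * s)) (h1 : tt N s T = tt N s T') (h2 : rr N s T = rr N s T') :
    T = T' := by
  have : NeZero (N * s) := ⟨Nat.mul_ne_zero (NeZero.ne N) (NeZero.ne s)⟩
  have hlt : ∀ T : ZMod (N * s), T.val / N < s := by
    intro T
    apply Nat.div_lt_of_lt_mul
    exact ZMod.val_lt T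
  unfold tt at h1
  unfold rr at h2
  rw [ZMod.natCast_eq_natCast_iff'] at h1 h2
  rw [Nat.mod_eq_of_lt (hlt T), Nat.mod_eq_of_lt (hlt T')] at h2
  apply ZMod.val_injective
  rw [← Nat.div_add_mod T.val N, ← Nat.div_add_mod T'.val N, h1, h2]

end Pos

/-- an Euler tour, numbered at every vertex, that ends at a given vertex -/
theorem tour_at {V K : Type} [Fintype V] (G : SimpleGraph V) (k : ℕ) (hk : 0 < k) [Finite K]
    (hK : Nat.card K = k) (hconn : G.Connected)
    (hdeg : ∀ v, (G.neighborSet v).ncard = 2 * k) (v0 : V) :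
    ∃ (N : ℕ) (_ : NeZero N) (τ : ZMod N → V) (c : ZMod N → K),
      (∀ t, G.Adj (τ t) (τ (t + 1))) ∧
      (∀ a b, G.Adj a b → ∃! t, s(τ t, τ (t + 1)) = s(a, b)) ∧
      (∀ v x, ∃! t, τ t = v ∧ c t = x) ∧ τ (-1) = v0 := by
  classical
  have hdeg' : ∀ v, G.degree v = 2 * k := by
    intro v
    rw [← hdeg v, ← card_neighborFinset_eq_degree, Set.ncard_eq_toFinset_card']
    rfl
  obtain ⟨N, hN, τ, hadj, huniq⟩ := Euler.exists_tour G hconn (by
    intro v; rw [hdeg']; exact even_two_mul k) (by
    have h1 : 0 < G.degree v0 := by rw [hdeg']; omega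
    rw [degree_pos_iff_exists_adj] at h1
    exact ⟨_, h1⟩)
  have hv : ∀ v, {s | τ s = v}.ncard = k := by
    intro v
    have h1 := visits G τ hadj huniq v
    rw [hdeg'] at h1
    rw [Set.ncard_eq_toFinset_card', Set.toFinset_ofPred]
    omega
  obtain ⟨s0, hs0⟩ : ∃ s, τ s = v0 := by
    have h1 : {s | τ s = v0}.Nonempty := by rw [← Set.ncard_pos, hv]; exact hk
    exact h1
  have hneK : Nonempty K := by
    rw [← Nat.card_pos_iff.trans (and_iff_left ‹Finite K›), hK]
    exact hk
  obtain ⟨c, hc⟩ := fibP (K := K) τ (fun _ => True) (by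
    intro v _; rw [hv, hK])
  refine ⟨N, hN, fun t => τ (t + (s0 + 1)), fun t => c (t + (s0 + 1)), ?_, ?_, ?_, ?_⟩
  · intro t
    have h1 := hadj (t + (s0 + 1))
    rw [show t + (s0 + 1) + 1 = t + 1 + (s0 + 1) by ring] at h1
    exact h1
  · intro a b hab
    obtain ⟨t, ht, ht'⟩ := huniq a b hab
    refine ⟨t - (s0 + 1), ?_, ?_⟩
    · simp only
      rw [show t - (s0 + 1) + (s0 + 1) = t by ring,
        show t - (s0 + 1) + 1 + (s0 + 1) = t + 1 by ring]
      exact ht
    · intro t' h1
      simp only at h1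
      rw [show t' + 1 + (s0 + 1) = t' + (s0 + 1) + 1 by ring] at h1
      have h2 := ht' _ h1
      rw [← h2]
      ring
  · intro v x
    obtain ⟨t, ht, ht'⟩ := hc v trivial x
    refine ⟨t - (s0 + 1), ?_, ?_⟩
    · simp only [sub_add_cancel]
      exact ht
    · intro t' h1
      have h2 := ht' _ h1
      rw [← h2]
      ring
  · simp only
    rw [show (-1 : ZMod N) + (s0 + 1) = s0 by ring]
    exact hs0

theorem lift_HD {V W : Type} [Fintype V] [Fintype W] (G : SimpleGraph V) (hconn : G.Connected)
    (k : ℕ) (hk : 0 < k) (hdeg : ∀ v, (G.neighborSet v).ncard = 2 * k)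
    {R S K : Type} [CommRing R] [Finite R] [Finite S] [Finite K] (hK : Nat.card K = k)
    (w : S → R) (y : K → R) (hwy : Function.Bijective (fun p : S × K => w p.1 + y p.2))
    (a d : V → R) (hu : ∀ u v, G.Adj u v → IsUnit (a u * d v - a v * d u))
    (hd : ∀ v s, d v * w s = w s) (v0 : V) (ha0 : a v0 = 0) (hd0 : d v0 = 1)
    (f : W → V) (hf : ∀ v, {x | f x = v}.ncard = Nat.card R) :
    ∃ F : R × K → ZMod (Fintype.card W) → W, HD (G.comap f) (Fintype.card W) F := by
  classical
  have : Fintype R := Fintype.ofFinite R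
  have : Fintype S := Fintype.ofFinite S
  have : Fintype K := Fintype.ofFinite K
  obtain ⟨N, hN, τ, c, hadj, huniq, hc, hτ0⟩ := tour_at G k hk hK hconn hdeg v0
  obtain ⟨s, hs⟩ : ∃ s, s = Nat.card S := ⟨_, rfl⟩
  have hcR : Nat.card R = s * k := by
    rw [← Nat.card_congr (Equiv.ofBijective _ hwy), Nat.card_prod, hK, hs]
  have hRpos : 0 < Nat.card R := Nat.card_pos
  have hs0 : s ≠ 0 := by
    rintro rfl
    rw [hcR, Nat.zero_mul] at hRpos
    exact lt_irrefl _ hRpos
  have : NeZero s := ⟨hs0⟩
  have : NeZero (N * s) := ⟨Nat.mul_ne_zero (NeZero.ne N) (NeZero.ne s)⟩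
  let ε : ZMod s ≃ S := (Finite.card_eq.1 (by rw [Nat.card_zmod, hs])).some
  -- numbering of the copies
  obtain ⟨g, hg⟩ := fibP (K := R) f (fun _ => True) (by
    intro v _; rw [hf])
  let E : W → V × R := fun x => (f x, g x)
  have hEb : Function.Bijective E := by
    constructor
    · intro x x' h
      simp only [E, Prod.mk.injEq] at h
      exact (hg (f x) trivial (g x)).unique ⟨rfl, rfl⟩ ⟨h.1.symm, h.2.symm⟩
    · rintro ⟨v, b⟩
      obtain ⟨x, ⟨rfl, rfl⟩, -⟩ := hg v trivial b
      exact ⟨x, rfl⟩
  let Ei := Equiv.ofBijective E hEb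
  have hEi : ∀ z, E (Ei.symm z) = z := fun z => Ei.apply_symm_apply z
  have hcW : Fintype.card W = Fintype.card V * (s * k) := by
    rw [← Nat.card_eq_fintype_card, Nat.card_congr Ei, Nat.card_prod, hcR,
      Nat.card_eq_fintype_card]
  -- the length of the tour
  have hcN : N = Fintype.card V * k := by
    have h1 : Function.Bijective (fun t : ZMod N => (τ t, c t)) := by
      constructor
      · intro t t' h
        simp only [Prod.mk.injEq] at h
        exact (hc (τ t) (c t)).unique ⟨rfl, rfl⟩ ⟨h.1.symm, h.2.symm⟩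
      · rintro ⟨v, x⟩
        obtain ⟨t, ⟨rfl, rfl⟩, -⟩ := hc v x
        exact ⟨t, rfl⟩
    have h2 := Nat.card_congr (Equiv.ofBijective _ h1)
    rw [Nat.card_zmod, Nat.card_prod, hK, Nat.card_eq_fintype_card] at h2
    exact h2
  have hL : Fintype.card W = N * s := by rw [hcW, hcN]; ring
  rw [hL]
  let val : R → K → ZMod s → ZMod N → R := fun x i r t =>
    a (τ t) * x + d (τ t) * y i + w (ε r) + y (c t)
  let F : R × K → ZMod (N * s) → W := fun p T =>
    Ei.symm (τ (tt N s T), val p.1 p.2 (rr N s T) (tt N s T))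
  have hfF : ∀ p T, f (F p T) = τ (tt N s T) := by
    intro p T
    have h1 := hEi (τ (tt N s T), val p.1 p.2 (rr N s T) (tt N s T))
    exact congrArg Prod.fst h1
  have hgF : ∀ p T, g (F p T) = val p.1 p.2 (rr N s T) (tt N s T) := by
    intro p T
    have h1 := hEi (τ (tt N s T), val p.1 p.2 (rr N s T) (tt N s T))
    exact congrArg Prod.snd h1
  refine ⟨F, ?_, ?_, ?_⟩
  · intro p
    have hinj : Function.Injective (F p) := by
      intro T T' h
      have h1 := congrArg f h
      have h2 := congrArg g h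
      rw [hfF, hfF] at h1
      rw [hgF, hgF] at h2
      simp only [val] at h2
      rw [h1] at h2
      have h3 : w (ε (rr N s T)) + y (c (tt N s T)) =
          w (ε (rr N s T')) + y (c (tt N s T')) := by
        linear_combination h2
      have h4 := @hwy.1 (ε (rr N s T), c (tt N s T)) (ε (rr N s T'), c (tt N s T')) h3
      rw [Prod.mk.injEq] at h4
      have h5 := ε.injective h4.1
      have h6 : tt N s T = tt N s T' := (hc (τ (tt N s T)) (c (tt N s T))).unique ⟨rfl, rfl⟩
        ⟨h1.symm, h4.2.symm⟩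
      exact pos_inj T T' h6 h5
    refine (Fintype.bijective_iff_injective_and_card _).2 ⟨hinj, ?_⟩
    rw [ZMod.card, hL]
  · intro p T
    rw [comap_adj, hfF, hfF, tt_succ]
    exact hadj _
  · -- the copies of an edge
    have hbij : ∀ t : ZMod N, Function.Bijective (fun q : (R × K) × ZMod s =>
        (val q.1.1 q.1.2 q.2 t, val q.1.1 q.1.2 (if t + 1 = 0 then q.2 + 1 else q.2) (t + 1))) := by
      intro t
      refine (Fintype.bijective_iff_injective_and_card _).2 ⟨?_, ?_⟩
      · rintro ⟨⟨x, i⟩, r⟩ ⟨⟨x', i'⟩, r'⟩ h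
        simp only [Prod.mk.injEq, val] at h
        obtain ⟨h1, h2⟩ := h
        have hun := hu _ _ (hadj t)
        by_cases ht : t + 1 = 0
        · have ht' : t = -1 := by linear_combination ht
          rw [ht', hτ0, ha0, hd0] at h1
          have h3 : w (ε r) + y i = w (ε r') + y i' := by linear_combination h1
          have h4 := @hwy.1 (ε r, i) (ε r', i') h3
          rw [Prod.mk.injEq] at h4
          have h5 := ε.injective h4.1
          obtain ⟨-, h6⟩ := h4
          subst h5 h6
          have h7 : (a (τ (-1)) * d (τ (t + 1)) - a (τ (t + 1)) * d (τ (-1))) * (x - x') = 0 := by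
            rw [hτ0, ha0, hd0]
            linear_combination -h2
          rw [← ht'] at h7
          have h8 := hun.mul_right_eq_zero.1 h7
          have h9 : x = x' := by linear_combination h8
          rw [h9]
        · rw [if_neg ht, if_neg ht] at h2
          have e1 := hd (τ t) (ε r)
          have e2 := hd (τ t) (ε r')
          have e3 := hd (τ (t + 1)) (ε r)
          have e4 := hd (τ (t + 1)) (ε r')
          have h1' : a (τ t) * (x - x') + d (τ t) * (w (ε r) + y i - (w (ε r') + y i')) = 0 := by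
            linear_combination h1 + e1 - e2
          have h2' : a (τ (t + 1)) * (x - x') +
              d (τ (t + 1)) * (w (ε r) + y i - (w (ε r') + y i')) = 0 := by
            linear_combination h2 + e3 - e4
          have h3 : (a (τ t) * d (τ (t + 1)) - a (τ (t + 1)) * d (τ t)) * (x - x') = 0 := by
            linear_combination d (τ (t + 1)) * h1' - d (τ t) * h2'
          have h4 : (a (τ t) * d (τ (t + 1)) - a (τ (t + 1)) * d (τ t)) *
              (w (ε r) + y i - (w (ε r') + y i')) = 0 := by
            linear_combination a (τ t) * h2' - a (τ (t + 1)) * h1'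
          have h5 := hun.mul_right_eq_zero.1 h3
          have h6 := hun.mul_right_eq_zero.1 h4
          have h7 : x = x' := by linear_combination h5
          have h8 : w (ε r) + y i = w (ε r') + y i' := by linear_combination h6
          have h9 := @hwy.1 (ε r, i) (ε r', i') h8
          rw [Prod.mk.injEq] at h9
          have h10 := ε.injective h9.1
          rw [h7, h9.2, h10]
      · rw [Fintype.card_prod, Fintype.card_prod, Fintype.card_prod, ZMod.card]
        rw [← Nat.card_eq_fintype_card (α := K), hK, ← Nat.card_eq_fintype_card (α := R), mul_assoc,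
          mul_comm k s, ← hcR]
    have hpos : Function.Bijective (fun T : ZMod (N * s) => (tt N s T, rr N s T)) := by
      refine (Fintype.bijective_iff_injective_and_card _).2 ⟨?_, ?_⟩
      · intro T T' h
        simp only [Prod.mk.injEq] at h
        exact pos_inj T T' h.1 h.2
      · rw [Fintype.card_prod, ZMod.card, ZMod.card, ZMod.card]
    have main : ∀ (x x' : W) (t : ZMod N), τ t = f x → τ (t + 1) = f x' → 
        ∃! p : (R × K) × ZMod (N * s), s(F p.1 p.2, F p.1 (p.2 + 1)) = s(x, x') := by
      intro x x' t ht ht'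
      have hadj' : G.Adj (f x) (f x') := by rw [← ht, ← ht']; exact hadj t
      obtain ⟨⟨⟨z, i⟩, r⟩, hz⟩ := (hbij t).2 (g x, g x')
      obtain ⟨T, hT⟩ := hpos.2 (t, r)
      simp only [Prod.mk.injEq] at hz hT
      have hrr := rr_succ T
      rw [hT.1, hT.2] at hrr
      refine ⟨((z, i), T), ?_, ?_⟩
      · have h1 : F (z, i) T = x := by
          apply hEb.1
          simp only [E, Prod.mk.injEq]
          rw [hfF, hgF, hT.1, hT.2]
          exact ⟨ht, hz.1⟩
        have h2 : F (z, i) (T + 1) = x' := by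
          apply hEb.1
          simp only [E, Prod.mk.injEq]
          rw [hfF, hgF, tt_succ, hrr, hT.1]
          exact ⟨ht', hz.2⟩
        simp only
        rw [h1, h2]
      · rintro ⟨⟨z', i'⟩, T'⟩ h
        simp only at h
        have h1 := congrArg (Sym2.map f) h
        simp only [Sym2.map_mk] at h1
        rw [hfF, hfF, tt_succ] at h1
        obtain ⟨t1, -, h2⟩ := huniq _ _ hadj'
        have h3 : tt N s T' = t := by
          rw [h2 _ h1, h2 t (by simp only [ht, ht'])]
        rw [Sym2.eq_iff] at h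
        rcases h with ⟨h4, h5⟩ | ⟨h4, h5⟩
        · have h6 := congrArg g h4
          have h7 := congrArg g h5
          rw [hgF] at h6 h7
          rw [tt_succ, rr_succ, h3] at h7
          rw [h3] at h6
          have h8 := (hbij t).1 (a₁ := ((z', i'), rr N s T')) (a₂ := ((z, i), r)) (by
            simp only [Prod.mk.injEq]
            exact ⟨h6.trans hz.1.symm, h7.trans hz.2.symm⟩)
          rw [Prod.mk.injEq] at h8
          have h9 : T' = T := pos_inj T' T (h3.trans hT.1.symm) (h8.2.trans hT.2.symm)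
          rw [h8.1, h9]
        · have h6 := congrArg f h4
          rw [hfF, h3, ht] at h6
          exact absurd h6 hadj'.ne
    intro x x' hxx
    obtain ⟨t, ht, -⟩ := huniq _ _ hxx
    rw [Sym2.eq_iff] at ht
    rcases ht with ⟨h1, h2⟩ | ⟨h1, h2⟩
    · exact main x x' t h1 h2
    · rw [Sym2.eq_swap]
      exact main x' x t h1 h2

end Pool.Agent.X76.Blow
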