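import Mathlib

set_option autoImplicit false

/-!
Rings with many directions and tilings of their additive groups.
-/

namespace Pool.Agent.X76.Blow

/-- a commutative ring of order `m`, a tiling of it with a part of size `k`, and `q` directions -/
def Str (q k m : ℕ) : Prop :=
  ∃ (R S K : Type) (_ : CommRing R) (_ : Finite R) (_ : Finite S) (_ : Finite K)
    (w : S → R) (y : K → R) (a d : Fin q → R),
    Nat.card R = m ∧ Nat.card K = k ∧
    Function.Bijective (fun p : S × K => w p.1 + y p.2) ∧
    (∀ i j, i ≠ j → IsUnit (a i * d j - a j * d i)) ∧ (∀ i s, d i * w s = w s) ∧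
    (∀ i, i.val = 0 → a i = 0 ∧ d i = 1)

theorem Str.one (q : ℕ) : Str q 1 1 := by
  refine ⟨PUnit, PUnit, PUnit, inferInstance, inferInstance, inferInstance, inferInstance,
    fun _ => 0, fun _ => 0, fun _ => 0, fun _ => 1, ?_, ?_, ?_, ?_, ?_, ?_⟩
  · simp
  · simp
  · constructor
    · intro _ _ _; exact Subsingleton.elim _ _
    · intro x; exact ⟨(x, x), rfl⟩
  · intro i j _
    exact isUnit_of_subsingleton _
  · intro i s; rfl
  · intro i _; exact ⟨rfl, rfl⟩

theorem Str.mul {q k m k' m' : ℕ} (h : Str q k m) (h' : Str q k' m') :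
    Str q (k * k') (m * m') := by
  obtain ⟨R, S, K, _, _, _, _, w, y, a, d, h1, h2, h3, h4, h5, h6⟩ := h
  obtain ⟨R', S', K', _, _, _, _, w', y', a', d', h1', h2', h3', h4', h5', h6'⟩ := h'
  refine ⟨R × R', S × S', K × K', inferInstance, inferInstance, inferInstance, inferInstance,
    fun s => (w s.1, w' s.2), fun x => (y x.1, y' x.2), fun i => (a i, a' i),
    fun i => (d i, d' i), ?_, ?_, ?_, ?_, ?_, ?_⟩
  · rw [Nat.card_prod, h1, h1']
  · rw [Nat.card_prod, h2, h2']
  · constructor
    · rintro ⟨⟨s, s'⟩, ⟨x, x'⟩⟩ ⟨⟨t, t'⟩, ⟨z, z'⟩⟩ h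
      simp only [Prod.mk_add_mk, Prod.mk.injEq] at h
      have e1 := @h3.1 (s, x) (t, z) h.1
      have e2 := @h3'.1 (s', x') (t', z') h.2
      simp only [Prod.mk.injEq] at e1 e2
      rw [e1.1, e1.2, e2.1, e2.2]
    · rintro ⟨r, r'⟩
      obtain ⟨⟨s, x⟩, e1⟩ := h3.2 r
      obtain ⟨⟨s', x'⟩, e2⟩ := h3'.2 r'
      refine ⟨((s, s'), (x, x')), ?_⟩
      simp only [Prod.mk_add_mk, Prod.mk.injEq]
      exact ⟨e1, e2⟩
  · intro i j hij
    rw [Prod.isUnit_iff]
    exact ⟨h4 i j hij, h4' i j hij⟩
  · intro i s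
    exact Prod.ext (h5 i s.1) (h5' i s.2)
  · intro i hi
    exact ⟨Prod.ext (h6 i hi).1 (h6' i hi).1, Prod.ext (h6 i hi).2 (h6' i hi).2⟩

theorem Str.primePow {q p b n : ℕ} (hp : p.Prime) (hn : n ≠ 0) (hb : b ≤ n)
    (hq : q ≤ p ^ n ∨ (b = n ∧ q ≤ p ^ n + 1)) : Str q (p ^ b) (p ^ n) := by
  classical
  have : Fact p.Prime := ⟨hp⟩
  let R := GaloisField p n
  have hcard : Nat.card R = p ^ n := GaloisField.card p n hn
  have hfin : Finite R := by
    apply Nat.finite_of_card_ne_zero
    rw [hcard]
    exact pow_ne_zero _ hp.ne_zero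
  -- a subgroup
  obtain ⟨H, hH⟩ := Sylow.exists_subgroup_card_pow_prime (G := Multiplicative R) p (n := n - b) (by
    have h1 : Nat.card (Multiplicative R) = p ^ n := by
      rw [← hcard]; exact Nat.card_congr Multiplicative.toAdd
    rw [h1]
    exact pow_dvd_pow p (by omega))
  let A : AddSubgroup R := Subgroup.toAddSubgroup' H
  have hA : Nat.card A = p ^ (n - b) := hH
  have hK : Nat.card (R ⧸ A) = p ^ b := by
    have h1 := AddSubgroup.card_eq_card_quotient_mul_card_addSubgroup A
    rw [hcard, hA] at h1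
    have h2 : p ^ n = p ^ b * p ^ (n - b) := by
      rw [← pow_add]; congr 1; omega
    rw [h2] at h1
    exact (Nat.eq_of_mul_eq_mul_right (pow_pos hp.pos _) h1).symm
  -- a numbering of the field
  obtain ⟨e, he⟩ : ∃ e : Fin (p ^ n) → R, Function.Injective e ∧ ∀ i, i.val = 0 → e i = 0 := by
    have h0 : 0 < p ^ n := pow_pos hp.pos _
    let e0 : Fin (p ^ n) ≃ R := (Finite.equivFinOfCardEq hcard).symm
    refine ⟨fun i => e0 i - e0 ⟨0, h0⟩, ?_, ?_⟩
    · intro i j hij
      simp only [sub_left_inj] at hij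
      exact e0.injective hij
    · intro i hi
      have h1 : i = ⟨0, h0⟩ := Fin.ext hi
      rw [h1]
      exact sub_self _
  refine ⟨R, A, R ⧸ A, inferInstance, hfin, inferInstance, inferInstance, fun s => s.1,
    fun x => x.out, fun i => if h : i.val < p ^ n then e ⟨i.val, h⟩ else 1,
    fun i => if i.val < p ^ n then 1 else 0, hcard, hK, ?_, ?_, ?_, ?_⟩
  · constructor
    · rintro ⟨s, x⟩ ⟨t, z⟩ h
      simp only at h
      have h1 : (QuotientAddGroup.mk (s.1 + x.out) : R ⧸ A) =
        QuotientAddGroup.mk (t.1 + z.out) := by rw [h]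
      have h2 : ∀ (s : A) (x : R ⧸ A), (QuotientAddGroup.mk (s.1 + x.out) : R ⧸ A) = x := by
        intro s x
        rw [QuotientAddGroup.mk_add, (QuotientAddGroup.eq_zero_iff s.1).2 s.2, zero_add]
        exact Quotient.out_eq' x
      rw [h2, h2] at h1
      subst h1
      have h3 := add_right_cancel h
      rw [Prod.mk.injEq]
      exact ⟨Subtype.ext h3, rfl⟩
    · intro r
      refine ⟨(⟨r - (QuotientAddGroup.mk r : R ⧸ A).out, ?_⟩, QuotientAddGroup.mk r), ?_⟩
      · rw [← QuotientAddGroup.eq_zero_iff, QuotientAddGroup.mk_sub, sub_eq_zero]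
        exact (Quotient.out_eq' _).symm
      · simp only [sub_add_cancel]
  · intro i j hij
    have hlt : ∀ i : Fin q, ¬ i.val < p ^ n → i.val = p ^ n := by
      intro i hi
      have := i.2
      omega
    rw [isUnit_iff_ne_zero]
    by_cases hi : i.val < p ^ n
    · by_cases hj : j.val < p ^ n
      · simp only [dif_pos hi, dif_pos hj, if_pos hi, if_pos hj, mul_one]
        rw [sub_ne_zero]
        intro h
        have h1 := he.1 h
        rw [Fin.mk.injEq] at h1
        exact hij (Fin.ext h1)
      · simp only [dif_pos hi, dif_neg hj, if_pos hi, if_neg hj, mul_one, mul_zero, zero_sub]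
        exact neg_ne_zero.2 one_ne_zero
    · by_cases hj : j.val < p ^ n
      · simp only [dif_neg hi, dif_pos hj, if_neg hi, if_pos hj, mul_one, mul_zero, sub_zero]
        exact one_ne_zero
      · exact absurd (Fin.ext ((hlt i hi).trans (hlt j hj).symm)) hij
  · intro i s
    by_cases hi : i.val < p ^ n
    · simp only [if_pos hi, one_mul]
    · have := i.2
      have hbn : b = n := by
        rcases hq with h | h
        · omega
        · exact h.1
      have h1 : Nat.card A = 1 := by rw [hA, hbn, Nat.sub_self, pow_zero]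
      have h2 : Subsingleton A := (Nat.card_eq_one_iff_unique.1 h1).1
      have h3 : s = 0 := Subsingleton.elim _ _
      rw [h3]
      simp
  · intro i hi
    have h0 : 0 < p ^ n := pow_pos hp.pos _
    have hi' : i.val < p ^ n := by rw [hi]; exact h0
    simp only [dif_pos hi', if_pos hi', and_true]
    exact he.2 _ hi

theorem Str.prod (q : ℕ) (T : Finset ℕ) (b n : ℕ → ℕ) (h : ∀ p ∈ T, p.Prime ∧ n p ≠ 0 ∧ b p ≤ n p ∧
    (q ≤ p ^ n p ∨ (b p = n p ∧ q ≤ p ^ n p + 1))) :
    Str q (∏ p ∈ T, p ^ b p) (∏ p ∈ T, p ^ n p) := by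
  classical
  induction T using Finset.induction_on with
  | empty => simpa using Str.one q
  | insert p T hp ih =>
    rw [Finset.prod_insert hp, Finset.prod_insert hp]
    obtain ⟨h1, h2, h3, h4⟩ := h p (Finset.mem_insert_self p T)
    exact (Str.primePow h1 h2 h3 h4).mul (ih fun p' hp' => h p' (Finset.mem_insert_of_mem hp'))

/-- the two factors of `m` -/
theorem Str.split (q k m : ℕ) (hk : 0 < k) (hm : 0 < m) (hkm : k ∣ m)
    (h2 : m % 4 ≠ 2 ∨ Even k)
    (hq : ∀ p, p.Prime → p ∣ k → q ≤ p ^ m.factorization p ∨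
      (m.factorization p = k.factorization p ∧ q ≤ p ^ m.factorization p + 1)) :
    ∃ m0 m1, m0 * m1 = m ∧ Str q k m0 ∧ Str 3 1 m1 := by
  classical
  have hsub : k.primeFactors ⊆ m.primeFactors := Nat.primeFactors_mono hkm hm.ne'
  refine ⟨∏ p ∈ k.primeFactors, p ^ m.factorization p,
    ∏ p ∈ m.primeFactors \ k.primeFactors, p ^ m.factorization p, ?_, ?_, ?_⟩
  · rw [mul_comm, Finset.prod_sdiff hsub]
    exact Nat.prod_factorization_pow_eq_self hm.ne'
  · have h3 := Str.prod q k.primeFactors (fun p => k.factorization p) (fun p => m.factorization p)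
      (by
        intro p hp
        have hp' := Nat.prime_of_mem_primeFactors hp
        have hpk := Nat.dvd_of_mem_primeFactors hp
        refine ⟨hp', ?_, ?_, ?_⟩
        · exact (hp'.factorization_pos_of_dvd hm.ne' (hpk.trans hkm)).ne'
        · exact (Nat.factorization_le_iff_dvd hk.ne' hm.ne').2 hkm p
        · rcases hq p hp' hpk with h | h
          · exact Or.inl h
          · exact Or.inr ⟨h.1.symm, h.2⟩)
    have h4 : ∏ p ∈ k.primeFactors, p ^ k.factorization p = k :=
      Nat.prod_factorization_pow_eq_self hk.ne'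
    rw [h4] at h3
    exact h3
  · have h3 := Str.prod 3 (m.primeFactors \ k.primeFactors) (fun _ => 0)
      (fun p => m.factorization p) (by
        intro p hp
        rw [Finset.mem_sdiff] at hp
        have hp' := Nat.prime_of_mem_primeFactors hp.1
        have hpm := Nat.dvd_of_mem_primeFactors hp.1
        have hn := hp'.factorization_pos_of_dvd hm.ne' hpm
        have hpk : ¬ p ∣ k := by
          intro h
          exact hp.2 (Nat.mem_primeFactors.2 ⟨hp', h, hk.ne'⟩)
        refine ⟨hp', hn.ne', Nat.zero_le _, Or.inl ?_⟩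
        by_cases hp2 : p = 2
        · subst hp2
          have h5 : m % 4 ≠ 2 := by
            rcases h2 with h | h
            · exact h
            · exact absurd h.two_dvd hpk
          have h6 : 4 ∣ m := by omega
          have h7 : 2 ≤ m.factorization 2 := by
            rw [← Nat.Prime.pow_dvd_iff_le_factorization Nat.prime_two hm.ne']
            exact h6
          calc 3 ≤ 2 ^ 2 := by norm_num
            _ ≤ 2 ^ m.factorization 2 := Nat.pow_le_pow_right (by norm_num) h7
        · have h5 : 3 ≤ p := by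
            have := hp'.two_le
            omega
          calc 3 ≤ p := h5
            _ = p ^ 1 := (pow_one p).symm
            _ ≤ p ^ m.factorization p := Nat.pow_le_pow_right hp'.pos hn)
    simpa using h3

end Pool.Agent.X76.Blow
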