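import Pool.Agent.X76.Chr1
import Pool.Agent.X76.Chr2
import Pool.Agent.X76.Blow5

set_option autoImplicit false

/-!
Hamilton decompositions of blow-ups: colourings, cycles, and iterated blow-ups.
-/

namespace Pool.Agent.X76.Blow

open SimpleGraph Finset

theorem col_HD {V W : Type} [Fintype V] [Fintype W] (G : SimpleGraph V) (hconn : G.Connected)
    (q k m : ℕ) (hk : 0 < k) (hdeg : ∀ v, (G.neighborSet v).ncard = 2 * k)
    (hcol : G.Colorable q) (hS : Str q k m)
    (f : W → V) (hf : ∀ v, {x | f x = v}.ncard = m) :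
    ∃ (J : Type) (_ : Finite J) (F : J → ZMod (Fintype.card W) → W), Nat.card J = k * m ∧
      HD (G.comap f) (Fintype.card W) F := by
  classical
  obtain ⟨R, S, K, _, _, _, _, w, y, a, d, h1, h2, h3, h4, h5, h6⟩ := hS
  obtain ⟨C0⟩ := hcol
  obtain ⟨v0⟩ := hconn.nonempty
  have hq : 0 < q := (Nat.zero_le _).trans_lt (C0 v0).2
  let C : V → Fin q := fun v => Equiv.swap (C0 v0) ⟨0, hq⟩ (C0 v)
  have hC : ∀ u v, G.Adj u v → C u ≠ C v := by
    intro u v h h'
    exact C0.valid h ((Equiv.swap (C0 v0) ⟨0, hq⟩).injective h')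
  have hC0 : (C v0).val = 0 := by
    simp only [C, Equiv.swap_apply_left]
  obtain ⟨F, hF⟩ := lift_HD G hconn k hk hdeg h2 w y h3 (fun v => a (C v)) (fun v => d (C v))
    (fun u v h => h4 _ _ (hC u v h)) (fun v s => h5 _ s) v0 (h6 _ hC0).1 (h6 _ hC0).2 f
    (by rw [h1]; exact hf)
  refine ⟨R × K, inferInstance, F, ?_, hF⟩
  rw [Nat.card_prod, h1, h2, mul_comm]

/-- the cycle of length `L` -/
def cyc (L : ℕ) : SimpleGraph (ZMod L) where
  Adj s t := s ≠ t ∧ (t = s + 1 ∨ s = t + 1)
  symm := ⟨fun s t h => ⟨h.1.symm, h.2.symm⟩⟩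
  loopless := ⟨fun s h => h.1 rfl⟩

theorem cyc_HD {L : ℕ} (hL : 3 ≤ L) {W : Type} [Fintype W] (m : ℕ) (hS : Str 3 1 m)
    (f : W → ZMod L) (hf : ∀ v, {x | f x = v}.ncard = m) :
    ∃ (J : Type) (_ : Finite J) (F : J → ZMod (Fintype.card W) → W), Nat.card J = m ∧
      HD ((cyc L).comap f) (Fintype.card W) F := by
  classical
  have : NeZero L := ⟨by omega⟩
  have : Fact (1 < L) := ⟨by omega⟩
  have hne : ∀ s : ZMod L, s ≠ s + 1 := by
    intro s h
    have h1 : (1 : ZMod L) = 0 := by linear_combination -h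
    exact one_ne_zero h1
  have hadj : ∀ s : ZMod L, (cyc L).Adj s (s + 1) := fun s => ⟨hne s, Or.inl rfl⟩
  have hconn : (cyc L).Connected := by
    have h1 : ∀ n : ℕ, (cyc L).Reachable 0 (n : ZMod L) := by
      intro n
      induction n with
      | zero => simp
      | succ n ih =>
        have h2 := hadj (n : ZMod L)
        push_cast
        exact ih.trans h2.reachable
    refine (connected_iff _).2 ⟨fun s t => ?_, ⟨0⟩⟩
    have h2 := h1 s.val
    have h3 := h1 t.val
    rw [ZMod.natCast_zmod_val] at h2 h3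
    exact h2.symm.trans h3
  have hdeg : ∀ s, ((cyc L).neighborSet s).ncard = 2 * 1 := by
    intro s
    have h1 : (cyc L).neighborSet s = {s + 1, s - 1} := by
      ext t
      simp only [mem_neighborSet, cyc, Set.mem_insert_iff, Set.mem_singleton_iff]
      constructor
      · rintro ⟨-, h | h⟩
        · exact Or.inl h
        · exact Or.inr (by rw [h]; ring)
      · rintro (h | h)
        · rw [h]; exact ⟨hne s, Or.inl rfl⟩
        · refine ⟨?_, Or.inr (by rw [h]; ring)⟩
          intro h2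
          have h3 := hne (s - 1)
          rw [sub_add_cancel, ← h] at h3
          exact h3 h2.symm
    rw [h1, Set.ncard_pair]
    intro h2
    have h3 : ((2 : ℕ) : ZMod L) = 0 := by
      push_cast
      linear_combination h2
    rw [ZMod.natCast_eq_zero_iff] at h3
    have := Nat.le_of_dvd two_pos h3
    omega
  have hcol : (cyc L).Colorable 3 := by
    let c : ZMod L → Fin 3 := fun s => if s.val + 1 = L then 2 else
      if s.val % 2 = 0 then 0 else 1
    have hc : ∀ s : ZMod L, c s ≠ c (s + 1) := by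
      intro s
      have h1 := Euler.val_succ s
      simp only [c, h1]
      split_ifs <;> first | omega | decide
    refine ⟨Coloring.mk c ?_⟩
    rintro s t ⟨-, h | h⟩
    · rw [h]; exact hc s
    · rw [h]; exact (hc t).symm
  obtain ⟨J, hJ, F, h1, h2⟩ := col_HD (cyc L) hconn 3 1 m one_pos hdeg hcol hS f hf
  exact ⟨J, hJ, F, by rw [h1, one_mul], h2⟩

theorem HD.blow {W0 W : Type} [Fintype W] {X : SimpleGraph W0} {L : ℕ} (hL : 3 ≤ L)
    {J : Type} [Finite J] {F : J → ZMod L → W0} (hF : HD X L F) (m : ℕ)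
    (hS : ∀ f : W → ZMod L, (∀ v, {x | f x = v}.ncard = m) →
      ∃ (J : Type) (_ : Finite J) (F : J → ZMod (Fintype.card W) → W), Nat.card J = m ∧
      HD ((cyc L).comap f) (Fintype.card W) F)
    (g : W → W0) (hg : ∀ v, {x | g x = v}.ncard = m) :
    ∃ (J' : Type) (_ : Finite J') (F' : J' → ZMod (Fintype.card W) → W),
      Nat.card J' = Nat.card J * m ∧ HD (X.comap g) (Fintype.card W) F' := by
  classical
  let e : J → (ZMod L ≃ W0) := fun j => Equiv.ofBijective (F j) (hF.1 j)
  have he : ∀ j s, e j s = F j s := fun j s => rfl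
  have hfib : ∀ j s, {x | (e j).symm (g x) = s}.ncard = m := by
    intro j s
    rw [← hg (F j s)]
    congr 1
    ext x
    simp only [Set.mem_ofPred_eq]
    rw [Equiv.symm_apply_eq, he]
  choose J' hJ' F' hc hF' using fun j => hS (fun x => (e j).symm (g x)) (hfib j)
  have hge : ∀ j x, g x = F j ((e j).symm (g x)) := by
    intro j x
    rw [← he, Equiv.apply_symm_apply]
  refine ⟨Σ j, J' j, inferInstance, fun p => F' p.1 p.2, ?_, ?_, ?_, ?_⟩
  · have : Fintype J := Fintype.ofFinite J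
    rw [Nat.card_sigma]
    simp only [hc]
    rw [Finset.sum_const, card_univ, smul_eq_mul, Nat.card_eq_fintype_card]
  · rintro ⟨j, j'⟩
    exact (hF' j).1 j'
  · rintro ⟨j, j'⟩ s
    have h1 := (hF' j).2.1 j' s
    simp only [comap_adj] at h1 ⊢
    rw [hge j (F' j j' s), hge j (F' j j' (s + 1))]
    rcases h1 with ⟨-, h | h⟩
    · rw [h]; exact hF.2.1 j _
    · rw [h]; exact (hF.2.1 j _).symm
  · intro x y hxy
    rw [comap_adj] at hxy
    obtain ⟨⟨j, s⟩, h1, h2⟩ := hF.2.2 _ _ hxy
    have hne : ∀ s : ZMod L, s ≠ s + 1 := by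
      intro s h
      have : Fact (1 < L) := ⟨by omega⟩
      have h1 : (1 : ZMod L) = 0 := by linear_combination -h
      exact one_ne_zero h1
    have hadj : ((cyc L).comap (fun x => (e j).symm (g x))).Adj x y := by
      simp only [comap_adj]
      simp only at h1
      rw [Sym2.eq_iff] at h1
      rcases h1 with ⟨a, b⟩ | ⟨a, b⟩
      · rw [← a, ← b, ← he, ← he, Equiv.symm_apply_apply, Equiv.symm_apply_apply]
        exact ⟨hne s, Or.inl rfl⟩
      · rw [← a, ← b, ← he, ← he, Equiv.symm_apply_apply, Equiv.symm_apply_apply]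
        exact ⟨(hne s).symm, Or.inr rfl⟩
    obtain ⟨⟨j', t⟩, h3, h4⟩ := (hF' j).2.2 x y hadj
    refine ⟨(⟨j, j'⟩, t), h3, ?_⟩
    rintro ⟨⟨i, i'⟩, t'⟩ h5
    simp only at h5
    -- the cycle is the right one
    have h6 := (hF' i).2.1 i' t'
    have h7 := congrArg (Sym2.map g) h5
    simp only [Sym2.map_mk] at h7
    simp only [comap_adj] at h6
    have h8 : i = j := by
      rcases h6 with ⟨-, h | h⟩
      · have h9 : s(F i ((e i).symm (g (F' i i' t'))), F i ((e i).symm (g (F' i i' t')) + 1)) =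
            s(g x, g y) := by
          rw [← h, ← hge, ← hge]
          exact h7
        exact congrArg Prod.fst (h2 (i, _) h9)
      · have h9 : s(F i ((e i).symm (g (F' i i' (t' + 1)))),
            F i ((e i).symm (g (F' i i' (t' + 1))) + 1)) = s(g x, g y) := by
          rw [← h, ← hge, ← hge, Sym2.eq_swap]
          exact h7
        exact congrArg Prod.fst (h2 (i, _) h9)
    subst h8
    have h9 := h4 (i', t') h5
    rw [Prod.mk.injEq] at h9
    rw [h9.1, h9.2]

/-- splitting a blow-up -/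
theorem split2 {V W : Type} [Finite W] (f : W → V) (m0 m1 : ℕ) (h0 : 0 < m0)
    (hf : ∀ v, {w | f w = v}.ncard = m0 * m1) :
    ∃ g : W → V × Fin m0, (∀ w, (g w).1 = f w) ∧ ∀ z, {w | g w = z}.ncard = m1 := by
  classical
  rcases Nat.eq_zero_or_pos m1 with rfl | hm
  · have hW : IsEmpty W := by
      refine ⟨fun w => ?_⟩
      have h1 := hf (f w)
      rw [Nat.mul_zero, Set.ncard_eq_zero (Set.toFinite _)] at h1
      have h2 : w ∈ ({w' | f w' = f w} : Set W) := rfl
      rw [h1] at h2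
      exact h2
    exact ⟨fun w => (f w, ⟨0, h0⟩), fun _ => rfl, fun z => by
      rw [Set.eq_empty_of_isEmpty {w | (f w, (⟨0, h0⟩ : Fin m0)) = z}, Set.ncard_empty]⟩
  have : Nonempty (Fin m0 × Fin m1) := ⟨(⟨0, h0⟩, ⟨0, hm⟩)⟩
  obtain ⟨c, hc⟩ := fibP (K := Fin m0 × Fin m1) f (fun _ => True) (by
    intro v _
    rw [hf, Nat.card_prod, Nat.card_fin, Nat.card_fin])
  refine ⟨fun w => (f w, (c w).1), fun _ => rfl, ?_⟩
  rintro ⟨v, e⟩
  choose s hs hs' using fun x => hc v trivial x
  have h1 : {w | (f w, (c w).1) = (v, e)} = (fun i : Fin m1 => s (e, i)) '' Set.univ := by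
    ext w
    simp only [Set.mem_ofPred_eq, Prod.mk.injEq, Set.mem_image, Set.mem_univ, true_and]
    constructor
    · rintro ⟨h2, h3⟩
      refine ⟨(c w).2, ?_⟩
      symm
      apply hs'
      exact ⟨h2, by rw [← h3]⟩
    · rintro ⟨i, rfl⟩
      exact ⟨(hs (e, i)).1, by rw [(hs (e, i)).2]⟩
  rw [h1, Set.ncard_image_of_injective, Set.ncard_univ, Nat.card_fin]
  intro i i' hii
  have h2 := (hs (e, i)).2
  have h3 := (hs (e, i')).2
  simp only at hii
  rw [hii, h3] at h2
  simpa using h2.symm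

theorem fst_fib {V : Type} (n : ℕ) (v : V) : {z : V × Fin n | z.1 = v}.ncard = n := by
  have h1 : {z : V × Fin n | z.1 = v} = (fun i : Fin n => (v, i)) '' Set.univ := by
    ext ⟨a, b⟩
    simp only [Set.mem_ofPred_eq, Set.mem_image, Set.mem_univ, true_and, Prod.mk.injEq,
      exists_eq_right]
    exact eq_comm
  rw [h1, Set.ncard_image_of_injective, Set.ncard_univ, Nat.card_fin]
  intro i j hij
  exact (Prod.mk.inj hij).2

/-- the arithmetic condition -/
def Good4 (q k m : ℕ) : Prop :=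
  k ∣ m ∧ (m % 4 ≠ 2 ∨ Even k) ∧ ∀ p, p.Prime → p ∣ k → q ≤ p ^ m.factorization p ∨
    (m.factorization p = k.factorization p ∧ q ≤ p ^ m.factorization p + 1)

theorem good4_HD {V W : Type} [Fintype V] [Fintype W] (G : SimpleGraph V) (hconn : G.Connected)
    (q k m : ℕ) (hk : 0 < k) (hm : 0 < m) (hdeg : ∀ v, (G.neighborSet v).ncard = 2 * k)
    (hcol : G.Colorable q) (hg : Good4 q k m)
    (f : W → V) (hf : ∀ v, {x | f x = v}.ncard = m) :
    ∃ F : Fin (k * m) → ZMod (Fintype.card W) → W, HD (G.comap f) (Fintype.card W) F := by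
  classical
  obtain ⟨m0, m1, hmm, hS0, hS1⟩ := Str.split q k m hk hm hg.1 hg.2.1 hg.2.2
  subst hmm
  have hm0 : 0 < m0 := Nat.pos_of_mul_pos_right hm |> fun h => by
    rcases Nat.eq_zero_or_pos m0 with h | h
    · rw [h, Nat.zero_mul] at hm; exact absurd hm (lt_irrefl _)
    · exact h
  obtain ⟨g, hg1, hg2⟩ := split2 f m0 m1 hm0 hf
  obtain ⟨J, hJ, F, hcJ, hF⟩ := col_HD G hconn q k m0 hk hdeg hcol hS0
    (Prod.fst : V × Fin m0 → V) (fst_fib m0)
  have hcV : 2 * k + 1 ≤ Fintype.card V := by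
    obtain ⟨v⟩ := hconn.nonempty
    have h1 : Set.ncard (insert v (G.neighborSet v)) = 2 * k + 1 := by
      rw [Set.ncard_insert_of_notMem (by simp) (Set.toFinite _), hdeg]
    have h2 := Set.ncard_le_ncard (Set.subset_univ (insert v (G.neighborSet v)))
      (Set.toFinite _)
    rw [h1, Set.ncard_univ, Nat.card_eq_fintype_card] at h2
    exact h2
  have hL : 3 ≤ Fintype.card (V × Fin m0) := by
    rw [Fintype.card_prod, Fintype.card_fin]
    nlinarith
  obtain ⟨J', hJ', F', hcJ', hF'⟩ := hF.blow hL m1 (fun f hf => cyc_HD hL m1 hS1 f hf) g hg2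
  have hcomap : (G.comap (Prod.fst : V × Fin m0 → V)).comap g = G.comap f := by
    ext x y
    simp only [comap_adj, hg1]
  rw [hcomap] at hF'
  have hc : Nat.card J' = k * (m0 * m1) := by rw [hcJ', hcJ, mul_assoc]
  let e : Fin (k * (m0 * m1)) ≃ J' := (Finite.equivFinOfCardEq hc).symm
  exact ⟨_, hF'.reindex e⟩

end Pool.Agent.X76.Blow
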