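import Pool.Agent.X76.Blow4

set_option autoImplicit false

/-!
Graphs with a Hamilton decomposition satisfy the linear arboricity conjecture.
-/

namespace Pool.Agent.X76.Blow

open SimpleGraph Finset

/-- the chosen edges -/
def Sl {W J : Type} {L : ℕ} (F : J → ZMod L → W) (T : J → ZMod L) (S : J → Prop) (u v : W) :
    Prop :=
  ∃ j, S j ∧ ((u = F j (T j) ∧ v = F j (T j + 1)) ∨ (v = F j (T j) ∧ u = F j (T j + 1)))

/-- the function `P` shows that the relation is a linear forest -/
def LF {W : Type} (A : W → W → Prop) (P : W → ℤ) : Prop :=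
  (∀ u v, A u v → P u ≠ P v) ∧
  (∀ u v w, A u v → A u w → P v < P u → P w < P u → v = w) ∧
  (∀ u v w, A u v → A u w → P u < P v → P u < P w → v = w)

theorem LF.extend {W : Type} [DecidableEq W] (A A' : W → W → Prop) (P : W → ℤ) (h : LF A P)
    (hs : ∀ u v, A u v → A v u) (x z : W) (hxz : x ≠ z)
    (hA' : ∀ u v, A' u v → A u v ∨ (u = x ∧ v = z) ∨ (u = z ∧ v = x))
    (hx : ∀ v, ¬ A x v) (hz : ∀ v v', A z v → A z v' → v = v') : ∃ P', LF A' P' := by
  classical
  obtain ⟨h1, h2, h3⟩ := h
  let P' : W → ℤ := fun u => if u = x then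
    (if ∃ v, A z v ∧ ¬ P v < P z then P z - 1 else P z + 1) else P u
  have hP : ∀ u, u ≠ x → P' u = P u := by
    intro u hu
    simp only [P', if_neg hu]
  have hPz : P' z = P z := hP z hxz.symm
  have hPx : P' x = if ∃ v, A z v ∧ ¬ P v < P z then P z - 1 else P z + 1 := by
    simp only [P', if_true]
  have hx' : ∀ v, ¬ A v x := fun v hv => hx v (hs _ _ hv)
  have hne : ∀ u v, A u v → u ≠ x ∧ v ≠ x := by
    intro u v huv
    constructor
    · rintro rfl; exact hx v huv
    · rintro rfl; exact hx' u huv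
  have hPxz : P' x ≠ P z := by
    rw [hPx]
    split_ifs <;> omega
  have key : ∀ v, A z v → (P' x < P z ↔ P z < P v) := by
    intro v hv
    have h4 := h1 z v hv
    rw [hPx]
    split_ifs with h
    · obtain ⟨v', h5, h6⟩ := h
      have h7 := hz v v' hv h5
      subst h7
      constructor
      · intro _; omega
      · intro _; omega
    · push Not at h
      have h5 := h v hv
      constructor
      · intro _; omega
      · intro _; omega
  refine ⟨P', ?_, ?_, ?_⟩
  · intro u v huv
    rcases hA' u v huv with h | ⟨rfl, rfl⟩ | ⟨rfl, rfl⟩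
    · obtain ⟨h4, h5⟩ := hne u v h
      rw [hP u h4, hP v h5]
      exact h1 u v h
    · rw [hPz]; exact hPxz
    · rw [hPz]; exact hPxz.symm
  · intro u v w huv huw hv hw
    rcases hA' u v huv with h | ⟨rfl, rfl⟩ | ⟨rfl, rfl⟩
    · obtain ⟨h4, h5⟩ := hne u v h
      rcases hA' u w huw with h' | ⟨rfl, rfl⟩ | ⟨rfl, rfl⟩
      · obtain ⟨h6, h7⟩ := hne u w h'
        rw [hP u h4, hP v h5] at hv
        rw [hP u h4, hP w h7] at hw
        exact h2 u v w h h' hv hw
      · exact absurd rfl h4
      · rw [hPz] at hw hv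
        rw [hP v h5] at hv
        have h8 := (key v h).1 hw
        omega
    · rcases hA' u w huw with h' | ⟨_, rfl⟩ | ⟨h8, rfl⟩
      · exact absurd h' (hx w)
      · rfl
      · exact absurd h8 hxz
    · rcases hA' u w huw with h' | ⟨h8, rfl⟩ | ⟨_, rfl⟩
      · obtain ⟨h6, h7⟩ := hne u w h'
        rw [hPz] at hv hw
        rw [hP w h7] at hw
        have h8 := (key w h').1 hv
        omega
      · exact absurd h8.symm hxz
      · rfl
  · intro u v w huv huw hv hw
    rcases hA' u v huv with h | ⟨rfl, rfl⟩ | ⟨rfl, rfl⟩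
    · obtain ⟨h4, h5⟩ := hne u v h
      rcases hA' u w huw with h' | ⟨rfl, rfl⟩ | ⟨rfl, rfl⟩
      · obtain ⟨h6, h7⟩ := hne u w h'
        rw [hP u h4, hP v h5] at hv
        rw [hP u h4, hP w h7] at hw
        exact h3 u v w h h' hv hw
      · exact absurd rfl h4
      · rw [hPz] at hw hv
        rw [hP v h5] at hv
        have h8 := (key v h).2 hv
        omega
    · rcases hA' u w huw with h' | ⟨_, rfl⟩ | ⟨h8, rfl⟩
      · exact absurd h' (hx w)
      · rfl
      · exact absurd h8 hxz
    · rcases hA' u w huw with h' | ⟨h8, rfl⟩ | ⟨_, rfl⟩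
      · obtain ⟨h6, h7⟩ := hne u w h'
        rw [hPz] at hv hw
        rw [hP w h7] at hw
        have h8 := (key w h').2 hw
        omega
      · exact absurd h8.symm hxz
      · rfl

/-- greedy choice of a linear forest with one edge from every cycle -/
theorem greedyLF {W : Type} {L h : ℕ} [NeZero L] (F : Fin h → ZMod L → W)
    (hF : ∀ j, Function.Bijective (F j)) (h2 : 2 * h ≤ L) :
    ∃ (T : Fin h → ZMod L) (P : W → ℤ), LF (Sl F T (fun _ => True)) P := by
  classical
  have main : ∀ S : Finset (Fin h), ∃ (T : Fin h → ZMod L) (P : W → ℤ),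
      LF (Sl F T (fun j => j ∈ S)) P := by
    intro S
    induction S using Finset.induction_on with
    | empty =>
      refine ⟨fun _ => 0, fun _ => 0, ?_, ?_, ?_⟩
      · rintro u v ⟨j, hj, -⟩
        simp at hj
      · rintro u v w ⟨j, hj, -⟩
        simp at hj
      · rintro u v w ⟨j, hj, -⟩
        simp at hj
    | insert a S ha ih =>
      obtain ⟨T, P, hP⟩ := ih
      have hS : S.card + 1 ≤ h := by
        have h1 := card_le_univ (insert a S)
        rw [card_insert_of_notMem ha, Fintype.card_fin] at h1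
        exact h1
      let e : ZMod L ≃ W := Equiv.ofBijective (F a) (hF a)
      have : Fintype W := Fintype.ofEquiv _ e
      let dg : W → ℕ := fun u => (S.filter fun j => u = F j (T j) ∨ u = F j (T j + 1)).card
      have hsum : ∑ u, dg u ≤ 2 * S.card := by
        simp only [dg, Finset.card_filter]
        rw [Finset.sum_comm]
        have h3 : ∀ j ∈ S, (∑ u : W, if u = F j (T j) ∨ u = F j (T j + 1) then 1 else 0) ≤ 2 := by
          intro j _
          rw [← Finset.card_filter]
          have h4 : (univ.filter fun u => u = F j (T j) ∨ u = F j (T j + 1)) ⊆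
              {F j (T j), F j (T j + 1)} := by
            intro u hu
            rw [mem_filter] at hu
            simpa using hu.2
          exact (card_le_card h4).trans Finset.card_le_two
        refine (Finset.sum_le_card_nsmul _ _ 2 h3).trans ?_
        rw [smul_eq_mul, mul_comm]
      have hs1 : ∑ t : ZMod L, dg (F a t) = ∑ u, dg u := by
        exact Equiv.sum_comp e dg
      have hs2 : ∑ t : ZMod L, dg (F a (t + 1)) = ∑ u, dg u := by
        rw [← hs1]
        exact Equiv.sum_comp (Equiv.addRight (1 : ZMod L)) (fun t => dg (F a t))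
      obtain ⟨t, ht⟩ : ∃ t : ZMod L, dg (F a t) + dg (F a (t + 1)) ≤ 1 := by
        by_contra hno
        push Not at hno
        have h3 : ∑ t : ZMod L, 2 ≤ ∑ t : ZMod L, (dg (F a t) + dg (F a (t + 1))) := by
          apply Finset.sum_le_sum
          intro t _
          exact hno t
        rw [Finset.sum_add_distrib, hs1, hs2, Finset.sum_const, card_univ, ZMod.card,
          smul_eq_mul] at h3
        omega
      have hL1 : ∀ t : ZMod L, t ≠ t + 1 := by
        intro t h3
        have h4 : (1 : ZMod L) = 0 := by linear_combination -h3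
        have : Fact (1 < L) := ⟨by omega⟩
        exact one_ne_zero h4
      obtain ⟨x, z, hxz, hnew, hdx, hdz⟩ : ∃ x z, x ≠ z ∧
          ((x = F a t ∧ z = F a (t + 1)) ∨ (z = F a t ∧ x = F a (t + 1))) ∧ dg x = 0 ∧
          dg z ≤ 1 := by
        rcases Nat.eq_zero_or_pos (dg (F a t)) with h3 | h3
        · exact ⟨F a t, F a (t + 1), fun h => hL1 t ((hF a).1 h), Or.inl ⟨rfl, rfl⟩, h3,
            by omega⟩
        · exact ⟨F a (t + 1), F a t, fun h => hL1 t ((hF a).1 h).symm, Or.inr ⟨rfl, rfl⟩,
            by omega, by omega⟩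
      have hup : ∀ i ∈ S, Function.update T a t i = T i := by
        intro i hi
        apply Function.update_of_ne
        rintro rfl
        exact ha hi
      have hmem : ∀ u v, Sl F T (fun j => j ∈ S) u v → ∃ j ∈ S,
          (u = F j (T j) ∨ u = F j (T j + 1)) := by
        rintro u v ⟨j, hj, h | h⟩
        · exact ⟨j, hj, Or.inl h.1⟩
        · exact ⟨j, hj, Or.inr h.2⟩
      obtain ⟨P', hP'⟩ := LF.extend (Sl F T (fun j => j ∈ S))
        (Sl F (Function.update T a t) (fun j => j ∈ insert a S)) P hP
        (by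
          rintro u v ⟨j, hj, h⟩
          exact ⟨j, hj, h.symm⟩) x z hxz
        (by
          rintro u v ⟨j, hj, h⟩
          rw [mem_insert] at hj
          rcases hj with rfl | hj
          · right
            rw [Function.update_self] at h
            rcases h with ⟨rfl, rfl⟩ | ⟨rfl, rfl⟩ <;> rcases hnew with ⟨rfl, rfl⟩ | ⟨rfl, rfl⟩
            · exact Or.inl ⟨rfl, rfl⟩
            · exact Or.inr ⟨rfl, rfl⟩
            · exact Or.inr ⟨rfl, rfl⟩
            · exact Or.inl ⟨rfl, rfl⟩
          · left
            rw [hup j hj] at h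
            exact ⟨j, hj, h⟩)
        (by
          intro v hv
          obtain ⟨j, hj, h⟩ := hmem x v hv
          rw [Finset.card_eq_zero, Finset.filter_eq_empty_iff] at hdx
          exact hdx hj h)
        (by
          intro v v' hv hv'
          obtain ⟨j, hj, h⟩ := hv
          obtain ⟨j', hj', h'⟩ := hv'
          rw [Finset.card_le_one] at hdz
          have h3 : j = j' := by
            apply hdz j _ j' _
            · rw [mem_filter]
              refine ⟨hj, ?_⟩
              rcases h with h | h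
              · exact Or.inl h.1
              · exact Or.inr h.2
            · rw [mem_filter]
              refine ⟨hj', ?_⟩
              rcases h' with h | h
              · exact Or.inl h.1
              · exact Or.inr h.2
          subst h3
          rcases h with ⟨h4, h5⟩ | ⟨h4, h5⟩ <;> rcases h' with ⟨h6, h7⟩ | ⟨h6, h7⟩
          · rw [h5, h7]
          · rw [h4] at h7
            exact absurd ((hF j).1 h7) (hL1 _)
          · rw [h6] at h5
            exact absurd ((hF j).1 h5) (hL1 _)
          · rw [h4, h6])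
      exact ⟨_, P', hP'⟩
  obtain ⟨T, P, hP⟩ := main univ
  refine ⟨T, P, ?_⟩
  have h3 : Sl F T (fun j => j ∈ univ) = Sl F T (fun _ => True) := by
    ext u v
    simp only [Sl, mem_univ]
  rw [← h3]
  exact hP

theorem rank_of_HD2 {W : Type} {X : SimpleGraph W} {L h : ℕ} [NeZero L] {F : Fin h → ZMod L → W}
    (hF : HD X L F) (h4 : 2 * h ≤ L) (hh : 0 < h) : Rank X (h + 1) := by
  classical
  obtain ⟨T, P0, hT⟩ := greedyLF F hF.1 h4
  let G : Fin h → (ZMod L ≃ W) := fun j => Equiv.ofBijective (F j) (hF.1 j)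
  have hG : ∀ j s, (G j).symm (F j s) = s := fun j s => (G j).symm_apply_apply s
  -- a rank function with natural values
  obtain ⟨P, hP⟩ : ∃ P : W → ℕ, ∀ u v, P u < P v ↔ P0 u < P0 v := by
    have : Fintype W := Fintype.ofEquiv _ (G ⟨0, hh⟩)
    refine ⟨fun u => (P0 u + ∑ v, |P0 v|).toNat, fun u v => ?_⟩
    have h1 : ∀ u, 0 ≤ P0 u + ∑ v, |P0 v| := by
      intro u
      have h2 : |P0 u| ≤ ∑ v, |P0 v| :=
        Finset.single_le_sum (f := fun v => |P0 v|) (fun i _ => abs_nonneg _) (mem_univ u)
      have h3 := neg_abs_le (P0 u)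
      omega
    have h2 := h1 u
    have h3 := h1 v
    simp only
    omega
  have hPne : ∀ u v, P0 u ≠ P0 v → P u ≠ P v := by
    intro u v hne he
    rcases lt_or_gt_of_ne hne with h1 | h1
    · have := (hP u v).2 h1
      omega
    · have := (hP v u).2 h1
      omega
  let p : W → W → Fin h × ZMod L → Prop := fun u v q => s(F q.1 q.2, F q.1 (q.2 + 1)) = s(u, v)
  let φ : W → W → ℕ := fun u v => if hp : ∃ q, p u v q then
    (if hp.choose.2 = T hp.choose.1 then h else hp.choose.1.val) else 0
  have hφ : ∀ u v, X.Adj u v → ∀ q, p u v q → φ u v = if q.2 = T q.1 then h else q.1.val := by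
    intro u v huv q hq
    have h1 : ∃ q, p u v q := ⟨q, hq⟩
    have h2 : h1.choose = q := (hF.2.2 u v huv).unique h1.choose_spec hq
    simp only [φ, dif_pos h1, h2]
  let pos : ℕ → W → ℕ := fun n w => if hn : n < h then
    ((G ⟨n, hn⟩).symm w - (T ⟨n, hn⟩ + 1)).val else P w
  have hposj : ∀ (j : Fin h) s, pos j.val (F j s) = (s - (T j + 1)).val := by
    intro j s
    simp only [pos, dif_pos j.2]
    rw [hG]
  have hinj : ∀ (j : Fin h) x y, pos j.val x = pos j.val y → x = y := by
    intro j x y hxy
    simp only [pos, dif_pos j.2] at hxy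
    have h1 := ZMod.val_injective L hxy
    have h2 := sub_left_injective h1
    exact (G j).symm.injective h2
  have hstep : ∀ (j : Fin h) s, s ≠ T j → pos j.val (F j (s + 1)) = pos j.val (F j s) + 1 := by
    intro j s hs
    rw [hposj, hposj]
    have h1 : s + 1 - (T j + 1) = (s - (T j + 1)) + 1 := by ring
    rw [h1, Euler.val_succ, if_neg]
    intro h2
    have h3 : (((s - (T j + 1)).val + 1 : ℕ) : ZMod L) = 0 := by
      rw [h2, ZMod.natCast_self]
    push_cast at h3
    rw [ZMod.natCast_zmod_val] at h3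
    apply hs
    linear_combination h3
  have hposh : ∀ w, pos h w = P w := by
    intro w
    simp only [pos, lt_irrefl, dif_neg, not_false_eq_true]
  -- the structure of an edge
  have hcase : ∀ u v, X.Adj u v →
      (∃ (j : Fin h) (s : ZMod L), s ≠ T j ∧ φ u v = j.val ∧
        ((u = F j s ∧ v = F j (s + 1)) ∨ (v = F j s ∧ u = F j (s + 1)))) ∨
      (φ u v = h ∧ Sl F T (fun _ => True) u v) := by
    intro u v huv
    obtain ⟨⟨j, s⟩, hq, -⟩ := hF.2.2 u v huv
    have h1 := hφ u v huv (j, s) hq
    simp only at h1 hq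
    rw [Sym2.eq_iff] at hq
    have h2 : (u = F j s ∧ v = F j (s + 1)) ∨ (v = F j s ∧ u = F j (s + 1)) := by
      rcases hq with ⟨a, b⟩ | ⟨a, b⟩
      · exact Or.inl ⟨a.symm, b.symm⟩
      · exact Or.inr ⟨a.symm, b.symm⟩
    by_cases hs : s = T j
    · rw [if_pos hs] at h1
      subst hs
      exact Or.inr ⟨h1, j, trivial, h2⟩
    · rw [if_neg hs] at h1
      exact Or.inl ⟨j, s, hs, h1, h2⟩
  refine ⟨φ, pos, ?_, ?_, ?_, ?_, ?_⟩
  · intro u v huv
    obtain ⟨q, hq, -⟩ := hF.2.2 u v huv
    rw [hφ u v huv q hq, hφ v u huv.symm q (hq.trans Sym2.eq_swap)]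
  · intro u v huv
    rcases hcase u v huv with ⟨j, s, -, h1, -⟩ | ⟨h1, -⟩
    · have := j.2; omega
    · omega
  · intro u v huv
    rcases hcase u v huv with ⟨j, s, hs, h1, h2⟩ | ⟨h1, h2⟩
    · rw [h1]
      have h3 := hstep j s hs
      rcases h2 with ⟨rfl, rfl⟩ | ⟨rfl, rfl⟩ <;> omega
    · rw [h1, hposh, hposh]
      exact hPne u v (hT.1 u v h2)
  · intro u v w huv huw he
    rcases hcase u v huv with ⟨j, s, hs, h1, h2⟩ | ⟨h1, h2⟩
    · rcases hcase u w huw with ⟨j', s', hs', h1', h2'⟩ | ⟨h1', -⟩
      · have hjj : j = j' := Fin.ext (by omega)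
        subst hjj
        rw [h1]
        have h3 := hstep j s hs
        have h3' := hstep j s' hs'
        intro a b
        apply hinj j
        rcases h2 with ⟨e1, e2⟩ | ⟨e1, e2⟩ <;> rcases h2' with ⟨e3, e4⟩ | ⟨e3, e4⟩ <;>
          rw [← e1, ← e2] at h3 <;> rw [← e3, ← e4] at h3' <;> omega
      · have := j.2
        omega
    · rcases hcase u w huw with ⟨j', s', hs', h1', h2'⟩ | ⟨h1', h2'⟩
      · have := j'.2
        omega
      · rw [h1, hposh, hposh, hposh, hP, hP]
        exact hT.2.1 u v w h2 h2'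
  · intro u v w huv huw he
    rcases hcase u v huv with ⟨j, s, hs, h1, h2⟩ | ⟨h1, h2⟩
    · rcases hcase u w huw with ⟨j', s', hs', h1', h2'⟩ | ⟨h1', -⟩
      · have hjj : j = j' := Fin.ext (by omega)
        subst hjj
        rw [h1]
        have h3 := hstep j s hs
        have h3' := hstep j s' hs'
        intro a b
        apply hinj j
        rcases h2 with ⟨e1, e2⟩ | ⟨e1, e2⟩ <;> rcases h2' with ⟨e3, e4⟩ | ⟨e3, e4⟩ <;>
          rw [← e1, ← e2] at h3 <;> rw [← e3, ← e4] at h3' <;> omega
      · have := j.2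
        omega
    · rcases hcase u w huw with ⟨j', s', hs', h1', h2'⟩ | ⟨h1', h2'⟩
      · have := j'.2
        omega
      · rw [h1, hposh, hposh, hposh, hP, hP]
        exact hT.2.2 u v w h2 h2'

end Pool.Agent.X76.Blow
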