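import Pool.Agent.X76.Chr6
import Pool.Agent.X76.Chr4

set_option autoImplicit false

/-!
Linear arboricity of blow-ups of regular graphs.
-/

namespace Pool.Agent.X76.Blow

open SimpleGraph Finset

theorem good_rank {V W : Type} [Finite V] [Finite W] (G : SimpleGraph V)
    (q k m : ℕ) (hk : 0 < k) (hm : 0 < m) (hdeg : ∀ v, (G.neighborSet v).ncard = 2 * k)
    (hcol : G.Colorable q) (hg : Good q k m)
    (f : W → V) (hf : ∀ v, {x | f x = v}.ncard = m) : Rank (G.comap f) (k * m + 1) := by
  classical
  apply Rank.comp (G.comap f) (fun w => G.connectedComponentMk (f w))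
  · intro u v huv
    exact ConnectedComponent.sound (Adj.reachable huv)
  intro C
  -- the component
  let VC : Type := {v : V // G.connectedComponentMk v = C}
  let WC : Type := {w : W // G.connectedComponentMk (f w) = C}
  have iV := Fintype.ofFinite VC
  have iW := Fintype.ofFinite WC
  let GC : SimpleGraph VC := G.comap Subtype.val
  let fC : WC → VC := fun w => ⟨f w.1, w.2⟩
  have hconn : GC.Connected := C.connected_toSimpleGraph
  have hdC : ∀ v : VC, (GC.neighborSet v).ncard = 2 * k := by
    intro v
    rw [← hdeg v.1, ← Set.ncard_image_of_injective _ Subtype.val_injective]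
    congr 1
    ext u
    simp only [Set.mem_image, mem_neighborSet]
    constructor
    · rintro ⟨u', h1, rfl⟩
      exact h1
    · intro h1
      refine ⟨⟨u, ?_⟩, h1, rfl⟩
      rw [← v.2]
      exact ConnectedComponent.sound (Adj.reachable h1.symm)
  have hfC : ∀ v : VC, {w | fC w = v}.ncard = m := by
    intro v
    rw [← hf v.1, ← Set.ncard_image_of_injective _ Subtype.val_injective]
    congr 1
    ext w
    simp only [Set.mem_image, Set.mem_ofPred_eq]
    constructor
    · rintro ⟨w', h1, rfl⟩
      rw [← h1]
    · intro h1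
      refine ⟨⟨w, ?_⟩, ?_, rfl⟩
      · rw [h1]; exact v.2
      · exact Subtype.ext h1
  have hcolC : GC.Colorable q := by
    obtain ⟨C0⟩ := hcol
    exact ⟨Coloring.mk (fun v => C0 v.1) (fun {u v} h => C0.valid h)⟩
  obtain ⟨F, hF⟩ := good_HD GC hconn q k m hk hm hdC hcolC hg fC hfC
  have hcV : 2 * k + 1 ≤ Nat.card VC := by
    obtain ⟨v⟩ := hconn.nonempty
    have h1 : Set.ncard (insert v (GC.neighborSet v)) = 2 * k + 1 := by
      rw [Set.ncard_insert_of_notMem (by simp) (Set.toFinite _), hdC]
    have h2 := Set.ncard_le_ncard (Set.subset_univ (insert v (GC.neighborSet v)))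
      (Set.toFinite _)
    rw [h1, Set.ncard_univ] at h2
    exact h2
  have hcW := card_fib fC m hfC
  have h2 : 2 * (k * m) ≤ Fintype.card WC := by
    rw [← Nat.card_eq_fintype_card, hcW]
    nlinarith
  have hpos : 0 < k * m := Nat.mul_pos hk hm
  have : NeZero (Fintype.card WC) := ⟨by omega⟩
  exact rank_of_HD2 hF h2 hpos

/-- a graph with all degrees equal to `r` is `(r + 1)`-colourable -/
theorem colorable_succ {V : Type} [Finite V] (G : SimpleGraph V) (r : ℕ)
    (hdeg : ∀ v, (G.neighborSet v).ncard = r) : G.Colorable (r + 1) := by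
  classical
  have : Fintype V := Fintype.ofFinite V
  have main : ∀ S : Finset V, ∃ C : V → Fin (r + 1), ∀ u ∈ S, ∀ v ∈ S, G.Adj u v → C u ≠ C v := by
    intro S
    induction S using Finset.induction_on with
    | empty => exact ⟨fun _ => 0, by simp⟩
    | insert a S ha ih =>
      obtain ⟨C, hC⟩ := ih
      have h1 : ((G.neighborFinset a).image C).card ≤ r := by
        refine card_image_le.trans ?_
        rw [← hdeg a, Set.ncard_eq_toFinset_card']
        exact le_of_eq rfl
      obtain ⟨c, hc⟩ : ∃ c : Fin (r + 1), c ∉ (G.neighborFinset a).image C := by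
        by_contra hno
        push Not at hno
        have h2 : (univ : Finset (Fin (r + 1))) ⊆ (G.neighborFinset a).image C :=
          fun c _ => hno c
        have h3 := card_le_card h2
        rw [card_univ, Fintype.card_fin] at h3
        omega
      have hc' : ∀ v, G.Adj a v → C v ≠ c := by
        intro v hv h
        apply hc
        rw [mem_image]
        exact ⟨v, (mem_neighborFinset _ _ _).2 hv, h⟩
      refine ⟨Function.update C a c, ?_⟩
      intro u hu v hv huv
      have hup : ∀ x, x ≠ a → Function.update C a c x = C x :=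
        fun x hx => Function.update_of_ne hx _ _
      by_cases hua : u = a
      · subst hua
        rw [Function.update_self, hup v huv.ne']
        exact (hc' v huv).symm
      · by_cases hva : v = a
        · subst hva
          rw [Function.update_self, hup u hua]
          exact hc' u huv.symm
        · rw [hup u hua, hup v hva]
          exact hC u ((mem_insert.1 hu).resolve_left hua) v ((mem_insert.1 hv).resolve_left hva)
            huv
  obtain ⟨C, hC⟩ := main univ
  exact ⟨Coloring.mk C (fun {u v} h => hC u (mem_univ _) v (mem_univ _) h)⟩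

/-- many values are good -/
theorem good_large (r m : ℕ) (hr : 0 < r) (hm : 0 < m) (h : 2 * r ^ r ∣ m) :
    ∃ n, m = 2 * n ∧ Good (r + 1) r n := by
  obtain ⟨j, rfl⟩ := h
  have hj : 0 < j := by
    rcases Nat.eq_zero_or_pos j with h | h
    · rw [h, Nat.mul_zero] at hm; exact absurd hm (lt_irrefl _)
    · exact h
  have hn : r ^ r * j ≠ 0 := by positivity
  refine ⟨r ^ r * j, by ring, ?_, ?_⟩
  · exact (dvd_pow_self r hr.ne').mul_right j
  · intro p hp hpr
    left
    have h1 : p ^ r ∣ r ^ r * j := (pow_dvd_pow_of_dvd hpr r).mul_right j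
    have h2 := (hp.pow_dvd_iff_le_factorization hn).1 h1
    calc r + 1 ≤ 2 ^ r := Nat.lt_two_pow_self
      _ ≤ p ^ r := Nat.pow_le_pow_left hp.two_le r
      _ ≤ p ^ (r ^ r * j).factorization p := Nat.pow_le_pow_right hp.pos h2

theorem main_chr {V W : Type} [Finite V] [Finite W] (G : SimpleGraph V)
    (q r m k n : ℕ) (hr : 0 < r) (hm : 0 < m) (hcol : G.Colorable q)
    (hdeg : ∀ v, (G.neighborSet v).ncard = r)
    (hkn : (r = 2 * k ∧ m = n) ∨ (r = k ∧ m = 2 * n)) (hg : Good q k n)
    (f : W → V) (hf : ∀ v, {w | f w = v}.ncard = m) :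
    Rank (G.comap f) (r * m / 2 + 1) ∧
    (G.Connected → ∃ F : Fin (r * m / 2) → ZMod (Nat.card W) → W,
      HD (G.comap f) (Nat.card W) F) := by
  classical
  have iV := Fintype.ofFinite V
  have iW := Fintype.ofFinite W
  have hcW : Nat.card W = Fintype.card W := Nat.card_eq_fintype_card
  rcases hkn with ⟨h1, rfl⟩ | ⟨rfl, h2⟩
  · subst h1
    have hJ : 2 * k * m / 2 = k * m := by
      rw [mul_assoc]; exact Nat.mul_div_cancel_left _ two_pos
    rw [hJ, hcW]
    exact ⟨good_rank G q k m (by omega) hm hdeg hcol hg f hf,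
      fun hconn => good_HD G hconn q k m (by omega) hm hdeg hcol hg f hf⟩
  · subst h2
    have hJ : r * (2 * n) / 2 = r * n := by
      rw [show r * (2 * n) = 2 * (r * n) by ring]; exact Nat.mul_div_cancel_left _ two_pos
    rw [hJ, hcW]
    obtain ⟨g, hg1, hg2⟩ := split2 f 2 n two_pos hf
    have hcomap : G.comap f = (G.comap (Prod.fst : V × Fin 2 → V)).comap g := by
      ext x y
      simp only [comap_adj, hg1]
    have hd2 : ∀ z, ((G.comap (Prod.fst : V × Fin 2 → V)).neighborSet z).ncard = 2 * r := by
      intro z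
      rw [deg_comap G r 2 hdeg Prod.fst (fst_fib 2) z]
      ring
    have hcol2 : (G.comap (Prod.fst : V × Fin 2 → V)).Colorable q := by
      obtain ⟨C0⟩ := hcol
      exact ⟨Coloring.mk (fun v => C0 v.1) (fun {u v} h => C0.valid h)⟩
    have hn : 0 < n := by omega
    rw [hcomap]
    refine ⟨good_rank _ q r n hr hn hd2 hcol2 hg g hg2, fun hconn => ?_⟩
    have hconn2 : (G.comap (Prod.fst : V × Fin 2 → V)).Connected := by
      apply conn_comap G hconn
      · exact fun v => ⟨(v, 0), rfl⟩
      · intro v
        have h1 : (G.neighborSet v).Nonempty := by rw [← Set.ncard_pos, hdeg]; exact hr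
        exact h1
    exact good_HD _ hconn2 q r n hr hn hd2 hcol2 hg g hg2

end Pool.Agent.X76.Blow
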