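import Pool.Agent.X76.Chr3

set_option autoImplicit false

/-!
Doubling the vertices of a cycle.
-/

namespace Pool.Agent.X76.Blow

open SimpleGraph Finset

/-- a family of Hamilton cycles covering all edges is a decomposition if the degrees fit -/
theorem HD.of_cover {W J : Type} [Fintype W] [Fintype J] {X : SimpleGraph W} {L : ℕ} [NeZero L]
    {F : J → ZMod L → W} (hb : ∀ j, Function.Bijective (F j))
    (hadj : ∀ j s, X.Adj (F j s) (F j (s + 1)))
    (hcov : ∀ x y, X.Adj x y → ∃ p : J × ZMod L, s(F p.1 p.2, F p.1 (p.2 + 1)) = s(x, y))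
    (hdeg : ∀ x, (X.neighborSet x).ncard = 2 * Fintype.card J)
    (hL : L = Fintype.card W) : HD X L F := by
  classical
  have hdeg' : ∀ v, X.degree v = 2 * Fintype.card J := by
    intro v
    rw [← hdeg v, ← card_neighborFinset_eq_degree, Set.ncard_eq_toFinset_card']
    rfl
  have hE : Fintype.card J * L = Fintype.card X.edgeSet := by
    have h1 := X.sum_degrees_eq_twice_card_edges
    simp only [hdeg'] at h1
    rw [Finset.sum_const, card_univ, smul_eq_mul, ← hL] at h1
    rw [edgeFinset_card] at h1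
    nlinarith
  let Φ : J × ZMod L → X.edgeSet := fun p => ⟨s(F p.1 p.2, F p.1 (p.2 + 1)), hadj p.1 p.2⟩
  have hs : Function.Surjective Φ := by
    rintro ⟨e, he⟩
    induction e with
    | _ x y =>
      obtain ⟨p, hp⟩ := hcov x y he
      exact ⟨p, Subtype.ext hp⟩
  have hbij := (Fintype.bijective_iff_surjective_and_card Φ).2 ⟨hs, by
    rw [Fintype.card_prod, ZMod.card, hE]⟩
  refine ⟨hb, hadj, ?_⟩
  intro x y hxy
  obtain ⟨p, hp⟩ := hcov x y hxy
  refine ⟨p, hp, ?_⟩
  intro p' hp'
  exact hbij.1 (Subtype.ext (hp'.trans hp.symm))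

/-- the bits of the two Hamilton cycles -/
def bit (L : ℕ) (j : Bool) (q : ℕ) : Bool :=
  if q + 1 = L then j else (if j then decide (q % 2 = 1) else false)

/-- the two Hamilton cycles of the doubled cycle -/
def dbl (L : ℕ) (j : Bool) (p : ZMod (2 * L)) : ZMod L × Bool :=
  if p.val < L then ((p.val : ZMod L), bit L j p.val)
  else if p.val + 1 = 2 * L then (((L - 1 : ℕ) : ZMod L), !bit L j (L - 1))
  else (((2 * L - 2 - p.val : ℕ) : ZMod L), !bit L j (2 * L - 2 - p.val))

theorem dbl_inj (L : ℕ) (hL : 3 ≤ L) (j : Bool) : Function.Injective (dbl L j) := by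
  have : NeZero L := ⟨by omega⟩
  have : NeZero (2 * L) := ⟨by omega⟩
  have hcast : ∀ a b : ℕ, a < L → b < L → ((a : ℕ) : ZMod L) = (b : ZMod L) → a = b := by
    intro a b ha hb h
    rw [ZMod.natCast_eq_natCast_iff', Nat.mod_eq_of_lt ha, Nat.mod_eq_of_lt hb] at h
    exact h
  intro p p' h
  apply ZMod.val_injective
  have hp := ZMod.val_lt p
  have hp' := ZMod.val_lt p'
  unfold dbl at h
  split_ifs at h with h1 h2 h3 h4 h5 h6 h7 h8
  · exact hcast _ _ h1 h2 (Prod.mk.inj h).1
  · have e1 := hcast _ _ h1 (by omega) (Prod.mk.inj h).1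
    have e2 := (Prod.mk.inj h).2
    rw [e1] at e2
    cases hb : bit L j (L - 1) <;> rw [hb] at e2 <;> simp at e2
  · have e1 := hcast _ _ h1 (by omega) (Prod.mk.inj h).1
    have e2 := (Prod.mk.inj h).2
    rw [e1] at e2
    cases hb : bit L j (2 * L - 2 - p'.val) <;> rw [hb] at e2 <;> simp at e2
  · have e1 := hcast _ _ (by omega) h5 (Prod.mk.inj h).1
    have e2 := (Prod.mk.inj h).2
    rw [← e1] at e2
    cases hb : bit L j (L - 1) <;> rw [hb] at e2 <;> simp at e2
  · omega
  · have e1 := hcast _ _ (by omega) (by omega) (Prod.mk.inj h).1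
    omega
  · have e1 := hcast _ _ (by omega) h7 (Prod.mk.inj h).1
    have e2 := (Prod.mk.inj h).2
    rw [← e1] at e2
    cases hb : bit L j (2 * L - 2 - p.val) <;> rw [hb] at e2 <;> simp at e2
  · have e1 := hcast _ _ (by omega) (by omega) (Prod.mk.inj h).1
    omega
  · have e1 := hcast _ _ (by omega) (by omega) (Prod.mk.inj h).1
    omega

theorem dbl_lo (L : ℕ) (hL : 3 ≤ L) (j : Bool) (n : ℕ) (hn : n < L) :
    dbl L j (n : ZMod (2 * L)) = ((n : ZMod L), bit L j n) := by
  have : NeZero (2 * L) := ⟨by omega⟩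
  unfold dbl
  rw [ZMod.val_natCast, Nat.mod_eq_of_lt (by omega), if_pos hn]

theorem dbl_mid (L : ℕ) (hL : 3 ≤ L) (j : Bool) (n : ℕ) (hn : L ≤ n) (hn' : n + 1 < 2 * L) :
    dbl L j (n : ZMod (2 * L)) =
      (((2 * L - 2 - n : ℕ) : ZMod L), !bit L j (2 * L - 2 - n)) := by
  have : NeZero (2 * L) := ⟨by omega⟩
  unfold dbl
  rw [ZMod.val_natCast, Nat.mod_eq_of_lt (by omega), if_neg (by omega), if_neg (by omega)]

theorem dbl_hi (L : ℕ) (hL : 3 ≤ L) (j : Bool) :
    dbl L j ((2 * L - 1 : ℕ) : ZMod (2 * L)) = (((L - 1 : ℕ) : ZMod L), !bit L j (L - 1)) := by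
  have : NeZero (2 * L) := ⟨by omega⟩
  unfold dbl
  rw [ZMod.val_natCast, Nat.mod_eq_of_lt (by omega), if_neg (by omega), if_pos (by omega)]

theorem dbl_step (L : ℕ) (hL : 3 ≤ L) (j : Bool) (p : ZMod (2 * L)) :
    (dbl L j (p + 1)).1 = (dbl L j p).1 + 1 ∨ (dbl L j p).1 = (dbl L j (p + 1)).1 + 1 := by
  have : NeZero L := ⟨by omega⟩
  have : NeZero (2 * L) := ⟨by omega⟩
  have hp := ZMod.val_lt p
  have hL0 : ((L : ℕ) : ZMod L) = 0 := ZMod.natCast_self L
  obtain ⟨n, hn⟩ : ∃ n, n = p.val := ⟨_, rfl⟩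
  have hpn : p = (n : ZMod (2 * L)) := by rw [hn, ZMod.natCast_zmod_val]
  rw [← hn] at hp
  have hp1 : p + 1 = ((n + 1 : ℕ) : ZMod (2 * L)) := by rw [hpn]; push_cast; ring
  have hc : ∀ a b : ℕ, a = b + 1 → ((a : ℕ) : ZMod L) = (b : ZMod L) + 1 := by
    rintro a b rfl
    push_cast
    ring
  rcases Nat.lt_or_ge (n + 1) L with h1 | h1
  · left
    rw [hp1, hpn, dbl_lo L hL j _ h1, dbl_lo L hL j n (by omega)]
    exact hc _ _ rfl
  rcases Nat.lt_or_ge n L with h2 | h2
  · right
    rw [hp1, hpn, dbl_lo L hL j n h2, dbl_mid L hL j (n + 1) h1 (by omega)]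
    exact hc _ _ (by omega)
  rcases Nat.lt_or_ge (n + 2) (2 * L) with h3 | h3
  · right
    rw [hp1, hpn, dbl_mid L hL j n h2 (by omega), dbl_mid L hL j (n + 1) h1 (by omega)]
    exact hc _ _ (by omega)
  rcases Nat.lt_or_ge (n + 1) (2 * L) with h4 | h4
  · right
    have h5 : n + 1 = 2 * L - 1 := by omega
    rw [hp1, hpn, dbl_mid L hL j n h2 h4, h5, dbl_hi L hL j]
    have h6 := hc L (L - 1) (by omega)
    simp only
    rw [← h6, hL0, show 2 * L - 2 - n = 0 by omega, Nat.cast_zero]
  · left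
    have h5 : n = 2 * L - 1 := by omega
    have h6 : ((n + 1 : ℕ) : ZMod (2 * L)) = ((0 : ℕ) : ZMod (2 * L)) := by
      rw [show n + 1 = 2 * L by omega, ZMod.natCast_self, Nat.cast_zero]
    rw [hp1, hpn, h6, dbl_lo L hL j 0 (by omega), h5, dbl_hi L hL j]
    have h7 := hc L (L - 1) (by omega)
    simp only
    rw [← h7, hL0, Nat.cast_zero]

theorem dbl_cov (L : ℕ) (hL : 3 ≤ L) (q : ZMod L) (b b' : Bool) :
    ∃ (j : Bool) (p : ZMod (2 * L)), s(dbl L j p, dbl L j (p + 1)) = s((q, b), (q + 1, b')) := by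
  have : NeZero L := ⟨by omega⟩
  have : NeZero (2 * L) := ⟨by omega⟩
  have hL0 : ((L : ℕ) : ZMod L) = 0 := ZMod.natCast_self L
  obtain ⟨n, hn⟩ : ∃ n, n = q.val := ⟨_, rfl⟩
  have hq : q = (n : ZMod L) := by rw [hn, ZMod.natCast_zmod_val]
  have hnL : n < L := by rw [hn]; exact ZMod.val_lt q
  have hq1 : q + 1 = ((n + 1 : ℕ) : ZMod L) := by rw [hq]; push_cast; ring
  have hsucc : ∀ n : ℕ, (n : ZMod (2 * L)) + 1 = ((n + 1 : ℕ) : ZMod (2 * L)) := by
    intro n; push_cast; ring
  rcases Nat.lt_or_ge (n + 2) L with h1 | h1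
  · -- ordinary edges
    have hb : ∀ j : Bool, bit L j (n + 1) = (bit L j n != j) := by
      intro j
      unfold bit
      rw [if_neg (show ¬ (n + 1 + 1 = L) by omega), if_neg (show ¬ (n + 1 = L) by omega)]
      cases j
      · rfl
      · rcases Nat.mod_two_eq_zero_or_one n with h | h
        · have h' : (n + 1) % 2 = 1 := by omega
          simp [h, h']
        · have h' : (n + 1) % 2 = 0 := by omega
          simp [h, h']
    by_cases h2 : bit L (b != b') n = b
    · refine ⟨b != b', (n : ZMod (2 * L)), ?_⟩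
      rw [hsucc, dbl_lo L hL _ n hnL, dbl_lo L hL _ (n + 1) (by omega), hb, h2, hq1, hq]
      cases b <;> cases b' <;> rfl
    · refine ⟨b != b', ((2 * L - 3 - n : ℕ) : ZMod (2 * L)), ?_⟩
      rw [hsucc, dbl_mid L hL _ _ (by omega) (by omega), dbl_mid L hL _ _ (by omega) (by omega),
        show 2 * L - 2 - (2 * L - 3 - n) = n + 1 by omega,
        show 2 * L - 2 - (2 * L - 3 - n + 1) = n by omega, hb, hq1, hq, Sym2.eq_swap]
      revert h2
      cases bit L (b != b') n <;> cases b <;> cases b' <;> simp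
  rcases Nat.lt_or_ge (n + 1) L with h2 | h2
  · -- the edges before the special pair
    have hn2 : n = L - 2 := by omega
    have hb : bit L b' (L - 1) = b' := by
      unfold bit
      rw [if_pos (by omega)]
    by_cases h3 : bit L b' n = b
    · refine ⟨b', (n : ZMod (2 * L)), ?_⟩
      rw [hsucc, dbl_lo L hL _ n hnL, dbl_lo L hL _ (n + 1) (by omega), h3, hq1, hq,
        show n + 1 = L - 1 by omega, hb]
    · refine ⟨b', ((L - 1 : ℕ) : ZMod (2 * L)), ?_⟩
      rw [hsucc, dbl_lo L hL _ (L - 1) (by omega), dbl_mid L hL _ _ (by omega) (by omega), hb,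
        show 2 * L - 2 - (L - 1 + 1) = n by omega, hq1, hq, show n + 1 = L - 1 by omega,
        Sym2.eq_swap]
      revert h3
      cases bit L b' n <;> cases b <;> simp
  · -- the edges after the special pair
    have hn1 : n = L - 1 := by omega
    have hb : bit L (!b) (L - 1) = !b := by
      unfold bit
      rw [if_pos (by omega)]
    have hb0 : bit L (!b) 0 = false := by
      unfold bit
      rw [if_neg (by omega)]
      cases b <;> rfl
    have hq2 : ((n + 1 : ℕ) : ZMod L) = ((0 : ℕ) : ZMod L) := by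
      rw [show n + 1 = L by omega, hL0, Nat.cast_zero]
    rw [hq2] at hq1
    cases b'
    · refine ⟨!b, ((2 * L - 1 : ℕ) : ZMod (2 * L)), ?_⟩
      have h6 : ((2 * L - 1 + 1 : ℕ) : ZMod (2 * L)) = ((0 : ℕ) : ZMod (2 * L)) := by
        rw [show 2 * L - 1 + 1 = 2 * L by omega, ZMod.natCast_self, Nat.cast_zero]
      rw [hsucc, dbl_hi L hL, h6, dbl_lo L hL _ 0 (by omega), hb, hb0, hq1, hq, hn1,
        Bool.not_not]
    · refine ⟨!b, ((2 * L - 2 : ℕ) : ZMod (2 * L)), ?_⟩
      rw [hsucc, dbl_mid L hL _ (2 * L - 2) (by omega) (by omega),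
        show 2 * L - 2 + 1 = 2 * L - 1 by omega, dbl_hi L hL, Nat.sub_self, hb, hb0, hq1, hq, hn1,
        Bool.not_not, Sym2.eq_swap]
      rfl

theorem cyc_HD2 {L : ℕ} (hL : 3 ≤ L) {W : Type} [Fintype W]
    (f : W → ZMod L) (hf : ∀ v, {x | f x = v}.ncard = 2) :
    ∃ (J : Type) (_ : Finite J) (F : J → ZMod (Fintype.card W) → W), Nat.card J = 2 ∧
      HD ((cyc L).comap f) (Fintype.card W) F := by
  classical
  have : NeZero L := ⟨by omega⟩
  have : NeZero (2 * L) := ⟨by omega⟩
  have : Fact (1 < L) := ⟨by omega⟩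
  obtain ⟨g, hg⟩ := fibP (K := Bool) f (fun _ => True) (by
    intro v _; rw [hf]; simp)
  let E : W → ZMod L × Bool := fun x => (f x, g x)
  have hEb : Function.Bijective E := by
    constructor
    · intro x x' h
      simp only [E, Prod.mk.injEq] at h
      exact (hg (f x) trivial (g x)).unique ⟨rfl, rfl⟩ ⟨h.1.symm, h.2.symm⟩
    · rintro ⟨v, b⟩
      obtain ⟨x, ⟨rfl, rfl⟩, -⟩ := hg v trivial b
      exact ⟨x, rfl⟩
  let Ei := Equiv.ofBijective E hEb
  have hEi : ∀ z, E (Ei.symm z) = z := fun z => Ei.apply_symm_apply z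
  have hcW : Fintype.card W = 2 * L := by
    rw [← Nat.card_eq_fintype_card, Nat.card_congr Ei, Nat.card_prod, Nat.card_zmod]
    simp [mul_comm]
  have hne : ∀ s : ZMod L, s ≠ s + 1 := by
    intro s h
    have h1 : (1 : ZMod L) = 0 := by linear_combination -h
    exact one_ne_zero h1
  have hdegc : ∀ s, ((cyc L).neighborSet s).ncard = 2 := by
    intro s
    have h1 : (cyc L).neighborSet s = {s + 1, s - 1} := by
      ext t
      simp only [mem_neighborSet, cyc, Set.mem_insert_iff, Set.mem_singleton_iff]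
      constructor
      · rintro ⟨-, h | h⟩
        · exact Or.inl h
        · exact Or.inr (by rw [h]; ring)
      · rintro (h | h)
        · rw [h]; exact ⟨hne s, Or.inl rfl⟩
        · refine ⟨?_, Or.inr (by rw [h]; ring)⟩
          intro h2
          have h3 := hne (s - 1)
          rw [sub_add_cancel, ← h] at h3
          exact h3 h2.symm
    rw [h1, Set.ncard_pair]
    intro h2
    have h3 : ((2 : ℕ) : ZMod L) = 0 := by
      push_cast
      linear_combination h2
    rw [ZMod.natCast_eq_zero_iff] at h3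
    have := Nat.le_of_dvd two_pos h3
    omega
  rw [hcW]
  refine ⟨Bool, inferInstance, fun j p => Ei.symm (dbl L j p), by simp, ?_⟩
  have hf' : ∀ z, f (Ei.symm z) = z.1 := fun z => congrArg Prod.fst (hEi z)
  apply HD.of_cover
  · intro j
    refine (Fintype.bijective_iff_injective_and_card _).2
      ⟨Ei.symm.injective.comp (dbl_inj L hL j), by rw [ZMod.card, hcW]⟩
  · intro j p
    rw [comap_adj, hf', hf']
    rcases dbl_step L hL j p with h | h
    · refine ⟨?_, Or.inl h⟩
      rw [h]; exact hne _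
    · refine ⟨?_, Or.inr h⟩
      rw [h]; exact (hne _).symm
  · have main : ∀ x y, f y = f x + 1 → ∃ p : Bool × ZMod (2 * L),
        s(Ei.symm (dbl L p.1 p.2), Ei.symm (dbl L p.1 (p.2 + 1))) = s(x, y) := by
      intro x y h
      obtain ⟨j, p, hp⟩ := dbl_cov L hL (f x) (g x) (g y)
      refine ⟨(j, p), ?_⟩
      have h1 := congrArg (Sym2.map Ei.symm) hp
      simp only [Sym2.map_mk] at h1
      rw [h1]
      congr 1
      · exact Ei.symm_apply_apply x
      · rw [← h]; exact Ei.symm_apply_apply y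
    intro x y hxy
    rcases hxy with ⟨-, h | h⟩
    · exact main x y h
    · rw [Sym2.eq_swap]
      exact main y x h
  · intro x
    rw [deg_comap (cyc L) 2 2 hdegc f hf]
    rfl
  · exact hcW.symm

/-- the arithmetic condition -/
def Good (q k m : ℕ) : Prop :=
  k ∣ m ∧ ∀ p, p.Prime → p ∣ k → q ≤ p ^ m.factorization p ∨
    (m.factorization p = k.factorization p ∧ q ≤ p ^ m.factorization p + 1)

theorem good_HD {V W : Type} [Fintype V] [Fintype W] (G : SimpleGraph V) (hconn : G.Connected)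
    (q k m : ℕ) (hk : 0 < k) (hm : 0 < m) (hdeg : ∀ v, (G.neighborSet v).ncard = 2 * k)
    (hcol : G.Colorable q) (hg : Good q k m)
    (f : W → V) (hf : ∀ v, {x | f x = v}.ncard = m) :
    ∃ F : Fin (k * m) → ZMod (Fintype.card W) → W, HD (G.comap f) (Fintype.card W) F := by
  classical
  by_cases h4 : m % 4 ≠ 2 ∨ Even k
  · exact good4_HD G hconn q k m hk hm hdeg hcol ⟨hg.1, h4, hg.2⟩ f hf
  · push Not at h4
    obtain ⟨h4, hke⟩ := h4
    rw [Nat.not_even_iff_odd] at hke
    obtain ⟨n, rfl⟩ : ∃ n, m = n * 2 := ⟨m / 2, by omega⟩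
    have hn : 0 < n := by omega
    have hkn : k ∣ n := by
      have h1 : Nat.Coprime k 2 := hke.coprime_two_right
      exact h1.dvd_of_dvd_mul_right hg.1
    have hgood : Good4 q k n := by
      refine ⟨hkn, Or.inl (by omega), ?_⟩
      intro p hp hpk
      have hp2 : p ≠ 2 := by
        rintro rfl
        exact (Nat.not_even_iff_odd.2 hke) (even_iff_two_dvd.2 hpk)
      have h1 : (n * 2).factorization p = n.factorization p := by
        rw [Nat.factorization_mul hn.ne' two_ne_zero, Finsupp.add_apply,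
          Nat.Prime.factorization Nat.prime_two, Finsupp.single_eq_of_ne hp2, add_zero]
      have h2 := hg.2 p hp hpk
      rw [h1] at h2
      exact h2
    obtain ⟨g, hg1, hg2⟩ := split2 f n 2 hn hf
    obtain ⟨F, hF⟩ := good4_HD G hconn q k n hk hn hdeg hcol hgood
      (Prod.fst : V × Fin n → V) (fst_fib n)
    have hcV : 2 * k + 1 ≤ Fintype.card V := by
      obtain ⟨v⟩ := hconn.nonempty
      have h1 : Set.ncard (insert v (G.neighborSet v)) = 2 * k + 1 := by
        rw [Set.ncard_insert_of_notMem (by simp) (Set.toFinite _), hdeg]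
      have h2 := Set.ncard_le_ncard (Set.subset_univ (insert v (G.neighborSet v)))
        (Set.toFinite _)
      rw [h1, Set.ncard_univ, Nat.card_eq_fintype_card] at h2
      exact h2
    have hL : 3 ≤ Fintype.card (V × Fin n) := by
      rw [Fintype.card_prod, Fintype.card_fin]
      nlinarith
    obtain ⟨J', hJ', F', hcJ', hF'⟩ := hF.blow hL 2 (fun f hf => cyc_HD2 hL f hf) g hg2
    have hcomap : (G.comap (Prod.fst : V × Fin n → V)).comap g = G.comap f := by
      ext x y
      simp only [comap_adj, hg1]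
    rw [hcomap] at hF'
    have hc : Nat.card J' = k * (n * 2) := by rw [hcJ', Nat.card_fin, mul_assoc]
    let e : Fin (k * (n * 2)) ≃ J' := (Finite.equivFinOfCardEq hc).symm
    exact ⟨_, hF'.reindex e⟩

end Pool.Agent.X76.Blow
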