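import Mathlib

/-!
Circular colourings and their reconfiguration: general facts.
-/

set_option autoImplicit false

namespace Pool.Agent.X76.CircMix

open Relation Finset

/-- `f` is a `(k,q)`-colouring of `G`. -/
def IsCol {V : Type*} (G : SimpleGraph V) (k q : ℕ) (f : V → ℕ) : Prop :=
  (∀ v, f v < k) ∧
    ∀ u v, G.Adj u v → (q : ℤ) ≤ |(f u : ℤ) - f v| ∧ |(f u : ℤ) - f v| ≤ (k : ℤ) - q

/-- A recolouring step: both maps are `(k,q)`-colourings and they differ in at most one vertex. -/
def Step {V : Type*} (G : SimpleGraph V) (k q : ℕ) (f g : V → ℕ) : Prop :=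
  IsCol G k q f ∧ IsCol G k q g ∧ ∃ v, ∀ u, u ≠ v → f u = g u

/-- `G` is `(k,q)`-mixing. -/
def Mixing {V : Type*} (G : SimpleGraph V) (k q : ℕ) : Prop :=
  ∀ f g : V → ℕ, IsCol G k q f → IsCol G k q g → ReflTransGen (Step G k q) f g

/-- the colours `x`, `y` may be given to adjacent vertices -/
def ok (k q x y : ℕ) : Prop := (x + q ≤ y ∧ y + q ≤ x + k) ∨ (y + q ≤ x ∧ x + q ≤ y + k)

lemma abs_iff (k q x y : ℕ) :
    ((q : ℤ) ≤ |(x : ℤ) - y| ∧ |(x : ℤ) - y| ≤ (k : ℤ) - q) ↔ ok k q x y := by
  unfold ok
  rcases le_total x y with h | h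
  · rw [abs_of_nonpos (by omega)]
    omega
  · rw [abs_of_nonneg (by omega)]
    omega

variable {V : Type*} {G : SimpleGraph V} {k q : ℕ}

lemma isCol_iff (f : V → ℕ) :
    IsCol G k q f ↔ (∀ v, f v < k) ∧ ∀ u v, G.Adj u v → ok k q (f u) (f v) := by
  unfold IsCol
  simp only [abs_iff]

lemma ok_symm {x y : ℕ} (h : ok k q x y) : ok k q y x := by
  unfold ok at *
  omega

lemma step_symm {f g : V → ℕ} (h : Step G k q f g) : Step G k q g f := by
  obtain ⟨h1, h2, v, h3⟩ := h
  exact ⟨h2, h1, v, fun u hu => (h3 u hu).symm⟩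

lemma conn_symm {f g : V → ℕ} (h : ReflTransGen (Step G k q) f g) :
    ReflTransGen (Step G k q) g f := by
  induction h with
  | refl => exact .refl
  | tail _ hs ih => exact (ReflTransGen.single (step_symm hs)).trans ih

lemma isCol_map {k' q' : ℕ} (φ : ℕ → ℕ) (h1 : ∀ x < k, φ x < k')
    (h2 : ∀ x y, x < k → y < k → ok k q x y → ok k' q' (φ x) (φ y)) {f : V → ℕ}
    (hf : IsCol G k q f) : IsCol G k' q' (φ ∘ f) := by
  rw [isCol_iff] at hf ⊢
  exact ⟨fun v => h1 _ (hf.1 v), fun u v huv => h2 _ _ (hf.1 u) (hf.1 v) (hf.2 u v huv)⟩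

lemma conn_map {k' q' : ℕ} (φ : ℕ → ℕ) (h1 : ∀ x < k, φ x < k')
    (h2 : ∀ x y, x < k → y < k → ok k q x y → ok k' q' (φ x) (φ y)) {f g : V → ℕ}
    (h : ReflTransGen (Step G k q) f g) : ReflTransGen (Step G k' q') (φ ∘ f) (φ ∘ g) := by
  induction h with
  | refl => exact .refl
  | tail _ hs ih =>
    obtain ⟨ha, hb, v, hv⟩ := hs
    exact ih.tail
      ⟨isCol_map φ h1 h2 ha, isCol_map φ h1 h2 hb, v, fun u hu => congrArg φ (hv u hu)⟩

/-- If all mixtures of `f` and `g` are colourings, then `f` and `g` are connected. -/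
lemma conn_mix [Finite V] (f g : V → ℕ)
    (h : ∀ w : V → ℕ, (∀ v, w v = f v ∨ w v = g v) → IsCol G k q w) :
    ReflTransGen (Step G k q) f g := by
  classical
  cases nonempty_fintype V
  have key : ∀ S : Finset V,
      ReflTransGen (Step G k q) f (fun v => if v ∈ S then g v else f v) := by
    intro S
    induction S using Finset.induction_on with
    | empty => simpa using ReflTransGen.refl
    | insert a S ha ih =>
      refine ih.tail ⟨h _ ?_, h _ ?_, a, ?_⟩
      · intro v
        by_cases hv : v ∈ S <;> simp [hv]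
      · intro v
        by_cases hv : v ∈ insert a S <;> simp [hv]
      · intro u hu
        simp [Finset.mem_insert, hu]
  have := key Finset.univ
  simpa using this

/-- rotation by `a ≤ k` -/
def rt (k a x : ℕ) : ℕ := if x + a < k then x + a else x + a - k

lemma rt_lt {a x : ℕ} (ha : a ≤ k) (hx : x < k) : rt k a x < k := by
  unfold rt
  split_ifs <;> omega

lemma rt_ok {a x y : ℕ} (ha : a ≤ k) (hx : x < k) (hy : y < k) (h : ok k q x y) :
    ok k q (rt k a x) (rt k a y) := by
  unfold rt ok at *
  split_ifs <;> omega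

/-- recolouring steps and rotations by one -/
def R (G : SimpleGraph V) (k q : ℕ) (f g : V → ℕ) : Prop :=
  Step G k q f g ∨ (IsCol G k q f ∧ g = rt k 1 ∘ f)

lemma R_isCol {f g : V → ℕ} (hk : 0 < k) (h : R G k q f g) : IsCol G k q g := by
  rcases h with h | ⟨h, rfl⟩
  · exact h.2.1
  · exact isCol_map _ (fun x hx => rt_lt hk hx) (fun x y hx hy h => rt_ok hk hx hy h) h

lemma orb_isCol {f g : V → ℕ} (hk : 0 < k) (hf : IsCol G k q f)
    (h : ReflTransGen (R G k q) f g) : IsCol G k q g := by
  cases h with
  | refl => exact hf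
  | tail _ h => exact R_isCol hk h

lemma orb_rt {f : V → ℕ} (hk : 0 < k) (hf : IsCol G k q f) (a : ℕ) (ha : a ≤ k) :
    ReflTransGen (R G k q) f (rt k a ∘ f) := by
  induction a with
  | zero =>
    have e : rt k 0 ∘ f = f := by
      funext v
      have := hf.1 v
      simp only [Function.comp, rt, add_zero]
      rw [if_pos this]
    rw [e]
  | succ a ih =>
    have h1 := ih (by omega)
    refine h1.tail (Or.inr ⟨orb_isCol hk hf h1, ?_⟩)
    funext v
    have := hf.1 v
    simp only [Function.comp, rt]
    split_ifs <;> omega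

lemma conn_orb {f g : V → ℕ} (h : ReflTransGen (Step G k q) f g) :
    ReflTransGen (R G k q) f g := by
  induction h with
  | refl => exact .refl
  | tail _ hs ih => exact ih.tail (Or.inl hs)

/-- If `h` is connected to its rotation by one, then everything in its orbit is connected to it. -/
lemma orb_to_conn {f h : V → ℕ} (hk : 0 < k) (hh : IsCol G k q h)
    (hrot : ReflTransGen (Step G k q) h (rt k 1 ∘ h)) (hfh : ReflTransGen (R G k q) f h) :
    ReflTransGen (Step G k q) f h := by
  induction hfh using ReflTransGen.head_induction_on with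
  | refl => exact .refl
  | @head a b hab hbh ih =>
    rcases hab with hs | ⟨ha, rfl⟩
    · exact (ReflTransGen.single hs).trans ih
    · have h1 := ih.trans hrot
      have h2 := conn_map (rt k (k - 1)) (fun x hx => rt_lt (by omega) hx)
        (fun x y hx hy h => rt_ok (by omega) hx hy h) h1
      have e : ∀ w : V → ℕ, IsCol G k q w → rt k (k - 1) ∘ (rt k 1 ∘ w) = w := by
        intro w hw
        funext v
        have := hw.1 v
        simp only [Function.comp, rt]
        split_ifs <;> omega
      rwa [e a ha, e h hh] at h2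

/-- number of vertices whose colour is bad -/
def cnt [Fintype V] (B : ℕ → Prop) [DecidablePred B] (g : V → ℕ) : ℕ :=
  (Finset.univ.filter (fun v => B (g v))).card

/-- A member of the orbit with the least number of bad colours and then the least sum. -/
lemma exists_min [Fintype V] (hk : 0 < k) {f : V → ℕ} (hf : IsCol G k q f) (B : ℕ → Prop)
    [DecidablePred B] : ∃ g, ReflTransGen (R G k q) f g ∧ IsCol G k q g ∧
      (∀ v, 0 < g v → (B (g v - 1) → B (g v)) → ∃ u, g u + q = g v ∨ g u + q = g v + k) ∧
      ∀ g', ReflTransGen (R G k q) g g' → cnt B g ≤ cnt B g' := by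
  classical
  let N := Fintype.card V * k + 1
  let μ : (V → ℕ) → ℕ := fun g => cnt B g * N + ∑ v, g v
  have hsum : ∀ g, IsCol G k q g → ∑ v, g v < N := by
    intro g hg
    have : ∑ v, g v ≤ ∑ _v : V, k := Finset.sum_le_sum (fun v _ => (hg.1 v).le)
    rw [Finset.sum_const, Finset.card_univ, smul_eq_mul] at this
    exact Nat.lt_succ_of_le this
  obtain ⟨g, hg, hmin⟩ := (InvImage.wf μ Nat.lt_wfRel.wf).has_min
    {g | ReflTransGen (R G k q) f g} ⟨f, .refl⟩
  have hmin' : ∀ g', ReflTransGen (R G k q) f g' → μ g ≤ μ g' := fun g' h =>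
    not_lt.mp (hmin g' h)
  have hgC := orb_isCol hk hf hg
  refine ⟨g, hg, hgC, ?_, ?_⟩
  · intro v hv hB
    by_contra hcon
    push Not at hcon
    let g' : V → ℕ := Function.update g v (g v - 1)
    have hgv := hgC.1 v
    have hg' : IsCol G k q g' := by
      have h0 := hgC
      rw [isCol_iff] at h0 ⊢
      constructor
      · intro u
        by_cases huv : u = v
        · subst huv
          simp only [g', Function.update_self]
          omega
        · simp only [g', Function.update_of_ne huv]
          exact h0.1 u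
      · intro a b hab
        have hne := hab.ne
        by_cases hav : a = v
        · subst hav
          have hba : b ≠ a := hne.symm
          simp only [g', Function.update_self, Function.update_of_ne hba]
          have h1 := h0.2 a b hab
          have h2 := hcon b
          unfold ok at *
          omega
        · by_cases hbv : b = v
          · subst hbv
            simp only [g', Function.update_self, Function.update_of_ne hav]
            have h1 := h0.2 a b hab
            have h2 := hcon a
            unfold ok at *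
            omega
          · simp only [g', Function.update_of_ne hav, Function.update_of_ne hbv]
            exact h0.2 a b hab
    have hstep : Step G k q g g' := ⟨hgC, hg', v, fun u hu => by
      simp only [g', Function.update_of_ne hu]⟩
    have h1 := hmin' g' (hg.tail (Or.inl hstep))
    have h2 : cnt B g' ≤ cnt B g := by
      apply Finset.card_le_card
      intro u hu
      rw [Finset.mem_filter] at hu ⊢
      refine ⟨hu.1, ?_⟩
      by_cases huv : u = v
      · subst huv
        simp only [g', Function.update_self] at hu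
        exact hB hu.2
      · simpa only [g', Function.update_of_ne huv] using hu.2
    have h3 : ∑ u, g' u < ∑ u, g u := by
      apply Finset.sum_lt_sum
      · intro u _
        by_cases huv : u = v
        · subst huv
          simp only [g', Function.update_self]
          omega
        · simp only [g', Function.update_of_ne huv]
          exact le_rfl
      · refine ⟨v, Finset.mem_univ v, ?_⟩
        simp only [g', Function.update_self]
        omega
    have h4 : cnt B g' * N ≤ cnt B g * N := Nat.mul_le_mul_right _ h2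
    simp only [μ] at h1
    omega
  · intro g' hg'
    have h1 := hmin' g' (hg.trans hg')
    have h2 := hsum g' (orb_isCol hk hf (hg.trans hg'))
    simp only [μ] at h1
    by_contra hlt
    push Not at hlt
    have h3 : (cnt B g' + 1) * N ≤ cnt B g * N := Nat.mul_le_mul_right _ hlt
    rw [Nat.add_mul, one_mul] at h3
    omega

/-- chains of occupied positions -/
lemma chain {Occ : ℕ → Prop} (h : ∀ p, Occ p → q ≤ p → Occ (p - q)) (ρ : ℕ) (i : ℕ)
    (hi : Occ (ρ + i * q)) : ∀ j ≤ i, Occ (ρ + j * q) := by
  induction i with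
  | zero =>
    intro j hj
    obtain rfl : j = 0 := by omega
    exact hi
  | succ i ih =>
    intro j hj
    rcases Nat.lt_or_ge i j with hij | hij
    · obtain rfl : j = i + 1 := by omega
      exact hi
    · refine ih ?_ j hij
      have h1 := h _ hi (by rw [Nat.add_mul, one_mul]; omega)
      have e : ρ + (i + 1) * q - q = ρ + i * q := by rw [Nat.add_mul, one_mul]; omega
      rwa [e] at h1

/-- counting occupied positions on two chains -/
lemma count [Fintype V] (g : V → ℕ) (hq : 0 < q) (a b ρ ρ' : ℕ)
    (h1 : ∀ i < a, ∃ v, g v = ρ + i * q) (h2 : ∀ i < b, ∃ v, g v = ρ' + i * q)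
    (hd : ∀ i j, ρ + i * q ≠ ρ' + j * q) : a + b ≤ Fintype.card V := by
  classical
  have hinj : ∀ ρ : ℕ, Function.Injective (fun i => ρ + i * q) := by
    intro ρ i j hij
    have : i * q = j * q := Nat.add_left_cancel hij
    exact Nat.eq_of_mul_eq_mul_right hq this
  let A := (Finset.range a).image (fun i => ρ + i * q)
  let B := (Finset.range b).image (fun i => ρ' + i * q)
  have hA : A.card = a := by
    rw [Finset.card_image_of_injective _ (hinj ρ), Finset.card_range]
  have hB : B.card = b := by
    rw [Finset.card_image_of_injective _ (hinj ρ'), Finset.card_range]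
  have hAB : Disjoint A B := by
    rw [Finset.disjoint_left]
    intro x hxA hxB
    obtain ⟨i, _, rfl⟩ := Finset.mem_image.mp hxA
    obtain ⟨j, _, hj⟩ := Finset.mem_image.mp hxB
    exact hd i j hj.symm
  have hsub : A ∪ B ⊆ Finset.univ.image g := by
    intro x hx
    rw [Finset.mem_union] at hx
    rw [Finset.mem_image]
    rcases hx with hx | hx
    · obtain ⟨i, hi, rfl⟩ := Finset.mem_image.mp hx
      obtain ⟨v, hv⟩ := h1 i (Finset.mem_range.mp hi)
      exact ⟨v, Finset.mem_univ v, hv⟩
    · obtain ⟨i, hi, rfl⟩ := Finset.mem_image.mp hx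
      obtain ⟨v, hv⟩ := h2 i (Finset.mem_range.mp hi)
      exact ⟨v, Finset.mem_univ v, hv⟩
  have := Finset.card_le_card hsub
  rw [Finset.card_union_of_disjoint hAB, hA, hB] at this
  exact this.trans (Finset.card_image_le)

/-- If `k = m q + s` with `0 < s < q` and `|V| ≤ 2 m`, then the orbit of every colouring contains one
all of whose colours are multiples of `q`. -/
lemma to_multiples_pos [Fintype V] {m s : ℕ} (hq : 0 < q) (hm : 0 < m) (hs : 0 < s) (hsq : s < q)
    (hk : k = m * q + s) (hn : Fintype.card V ≤ 2 * m) {f : V → ℕ} (hf : IsCol G k q f) :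
    ∃ g, ReflTransGen (R G k q) f g ∧ IsCol G k q g ∧ (∀ v, q ∣ g v) ∧ ∀ v, g v < m * q := by
  classical
  have hk0 : 0 < k := by omega
  obtain ⟨g, hfg, hg, hbl, hmin⟩ := exists_min hk0 hf (fun x => m * q ≤ x)
  have hmq : (m - 1) * q + q = m * q := by
    obtain ⟨m', rfl⟩ : ∃ m', m = m' + 1 := ⟨m - 1, by omega⟩
    rw [Nat.add_sub_cancel, Nat.add_mul, one_mul]
  have hbl' : ∀ v, 0 < g v → ∃ u, g u + q = g v ∨ g u + q = g v + k := fun v hv =>
    hbl v hv (fun h => by omega)
  -- closure properties of the occupied positions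
  have hB1 : ∀ p, (∃ v, g v = p) → q ≤ p → ∃ v, g v = p - q := by
    rintro p ⟨v, rfl⟩ hp
    obtain ⟨u, hu | hu⟩ := hbl' v (by omega)
    · exact ⟨u, by omega⟩
    · have := hg.1 u
      omega
  have hB2 : ∀ p, (∃ v, g v = p) → 0 < p → p < q → ∃ v, g v = p + s + (m - 1) * q := by
    rintro p ⟨v, rfl⟩ hp hpq
    obtain ⟨u, hu | hu⟩ := hbl' v hp
    · omega
    · exact ⟨u, by omega⟩
  have htop : ∀ v, g v ≤ m * q := by
    intro v
    by_contra hv
    push Not at hv
    have hvk := hg.1 v
    obtain ⟨ρ, hρ⟩ : ∃ ρ, g v = ρ + m * q := ⟨g v - m * q, by omega⟩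
    have h1 : ∀ i < m + 1, ∃ u, g u = ρ + i * q := by
      intro i hi
      exact chain (Occ := fun p => ∃ u, g u = p) hB1 ρ m ⟨v, hρ⟩ i (by omega)
    have h0 : ∃ u, g u = ρ := by simpa using h1 0 (by omega)
    have h2 := hB2 ρ h0 (by omega) (by omega)
    have h3 : ∀ i < m, ∃ u, g u = (ρ + s) + i * q := by
      intro i hi
      exact chain (Occ := fun p => ∃ u, g u = p) hB1 (ρ + s) (m - 1) h2 i (by omega)
    have h4 := count g hq (m + 1) m ρ (ρ + s) h1 h3 (by
      intro i j hij
      have h5 : i * q = s + j * q := by omega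
      have h6 : j < i := by
        by_contra hji
        push Not at hji
        have := Nat.mul_le_mul_right q hji
        omega
      have h7 : (j + 1) * q ≤ i * q := Nat.mul_le_mul_right q h6
      rw [Nat.add_mul, one_mul] at h7
      omega)
    omega
  have ht : ∀ v, g v < m * q := by
    by_contra hcon
    push Not at hcon
    obtain ⟨v, hv⟩ := hcon
    have hv' : g v = 0 + m * q := by
      have := htop v
      omega
    have h1 : ∀ i < m + 1, ∃ u, g u = 0 + i * q := by
      intro i hi
      exact chain (Occ := fun p => ∃ u, g u = p) hB1 0 m ⟨v, hv'⟩ i (by omega)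
    have h2 : 0 < cnt (fun x => m * q ≤ x) g := by
      unfold cnt
      rw [Finset.card_pos]
      exact ⟨v, by simp; omega⟩
    have h3 := hmin _ (orb_rt hk0 hg s (by omega))
    obtain ⟨z, hz⟩ : ∃ z, m * q ≤ rt k s (g z) := by
      have : 0 < cnt (fun x => m * q ≤ x) (rt k s ∘ g) := by omega
      unfold cnt at this
      rw [Finset.card_pos] at this
      obtain ⟨z, hz⟩ := this
      exact ⟨z, (Finset.mem_filter.mp hz).2⟩
    have hzt := htop z
    have hz' : g z < m * q ∧ m * q ≤ g z + s := by
      unfold rt at hz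
      split_ifs at hz <;> omega
    obtain ⟨ρ, hρ⟩ : ∃ ρ, g z = ρ + (m - 1) * q := ⟨g z - (m - 1) * q, by omega⟩
    have h4 : ∀ i < m, ∃ u, g u = ρ + i * q := by
      intro i hi
      exact chain (Occ := fun p => ∃ u, g u = p) hB1 ρ (m - 1) ⟨z, hρ⟩ i (by omega)
    have h5 := count g hq (m + 1) m 0 ρ h1 h4 (by
      intro i j hij
      have h5 : i * q = ρ + j * q := by omega
      have h6 : j < i := by
        by_contra hji
        push Not at hji
        have := Nat.mul_le_mul_right q hji
        omega
      have h7 : (j + 1) * q ≤ i * q := Nat.mul_le_mul_right q h6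
      rw [Nat.add_mul, one_mul] at h7
      omega)
    omega
  refine ⟨g, hfg, hg, ?_, ht⟩
  by_contra hcon
  push Not at hcon
  obtain ⟨v, hv⟩ := hcon
  -- a small occupied position which is not a multiple of `q`
  have hsmall : ∀ v, ¬ q ∣ g v → ∃ u, g u = g v % q := by
    intro v _
    have h := chain (Occ := fun p => ∃ u, g u = p) hB1 (g v % q) (g v / q) ⟨v, by
      rw [mul_comm]
      exact (Nat.mod_add_div _ _).symm⟩ 0 (Nat.zero_le _)
    simpa using h
  obtain ⟨u, hu⟩ := hsmall v hv
  have hu0 : 0 < g u := by
    rw [hu]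
    exact Nat.pos_of_ne_zero (fun h => hv (Nat.dvd_of_mod_eq_zero h))
  have huq : g u < q := by
    rw [hu]
    exact Nat.mod_lt _ hq
  obtain ⟨w, hw, hwmax⟩ := Finset.exists_max_image
    (Finset.univ.filter (fun w => 0 < g w ∧ g w < q)) g ⟨u, by simp [hu0, huq]⟩
  rw [Finset.mem_filter] at hw
  obtain ⟨z, hz⟩ := hB2 (g w) ⟨w, rfl⟩ hw.2.1 hw.2.2
  have hzt := ht z
  obtain ⟨y, hy⟩ := chain (Occ := fun p => ∃ u, g u = p) hB1 (g w + s) (m - 1) ⟨z, hz⟩ 0 (by omega)
  have h1 := hwmax y (by
    rw [Finset.mem_filter]
    refine ⟨Finset.mem_univ _, ?_, ?_⟩ <;> omega)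
  omega

/-- The case `k = m q` with `|V| < 2 m`. -/
lemma to_multiples_zero [Fintype V] {m : ℕ} (hq : 0 < q) (hm : 0 < m)
    (hk : k = m * q) (hn : Fintype.card V + 1 ≤ 2 * m) {f : V → ℕ} (hf : IsCol G k q f) :
    ∃ g, ReflTransGen (R G k q) f g ∧ IsCol G k q g ∧ (∀ v, q ∣ g v) ∧ ∀ v, g v < m * q := by
  classical
  have hk0 : 0 < k := by
    rw [hk]
    exact Nat.mul_pos hm hq
  obtain ⟨g, hfg, hg, hbl, hmin⟩ := exists_min hk0 hf (fun x => ¬ q ∣ x)
  refine ⟨g, hfg, hg, ?_, fun v => by rw [← hk]; exact hg.1 v⟩
  by_contra hcon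
  push Not at hcon
  obtain ⟨v, hv⟩ := hcon
  have hmq : (m - 1) * q + q = m * q := by
    obtain ⟨m', rfl⟩ : ∃ m', m = m' + 1 := ⟨m - 1, by omega⟩
    rw [Nat.add_sub_cancel, Nat.add_mul, one_mul]
  -- closure, for positions congruent to `ρ`
  set ρ := g v % q with hρ
  have hρ0 : 0 < ρ := Nat.pos_of_ne_zero (fun h => hv (Nat.dvd_of_mod_eq_zero h))
  have hρq : ρ < q := Nat.mod_lt _ hq
  have hdvd : ∀ i, ¬ q ∣ ρ + i * q := by
    intro i h
    have h1 : q ∣ ρ := (Nat.dvd_add_left (Dvd.intro_left i rfl)).mp h
    exact absurd (Nat.le_of_dvd hρ0 h1) (by omega)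
  have hB1 : ∀ i, (∃ u, g u = ρ + (i + 1) * q) → ∃ u, g u = ρ + i * q := by
    rintro i ⟨w, hw⟩
    obtain ⟨u, hu | hu⟩ := hbl w (by omega) (fun _ => by rw [hw]; exact hdvd _)
    · refine ⟨u, ?_⟩
      rw [hw, Nat.add_mul, one_mul] at hu
      omega
    · have := hg.1 u
      rw [hw, Nat.add_mul, one_mul] at hu
      omega
  have hchain : ∀ i, (∃ u, g u = ρ + i * q) → ∀ j ≤ i, ∃ u, g u = ρ + j * q := by
    intro i
    induction i with
    | zero =>
      intro h j hj
      obtain rfl : j = 0 := by omega
      exact h
    | succ i ih =>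
      intro h j hj
      rcases Nat.lt_or_ge i j with hij | hij
      · obtain rfl : j = i + 1 := by omega
        exact h
      · exact ih (hB1 i h) j hij
  have h0 : ∃ u, g u = ρ + 0 * q := hchain (g v / q) ⟨v, by
    rw [hρ, mul_comm (g v / q) q]
    exact (Nat.mod_add_div _ _).symm⟩ 0 (Nat.zero_le _)
  have htop : ∃ u, g u = ρ + (m - 1) * q := by
    obtain ⟨w, hw⟩ := h0
    rw [Nat.zero_mul, add_zero] at hw
    obtain ⟨u, hu | hu⟩ := hbl w (by omega) (fun _ => by rw [hw]; simpa using hdvd 0)
    · omega
    · exact ⟨u, by omega⟩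
  have hall : ∀ i < m, ∃ u, g u = ρ + i * q := fun i hi => hchain (m - 1) htop i (by omega)
  -- the vertices with residue `ρ`
  let A := Finset.univ.filter (fun u => g u % q = ρ)
  have hA : m ≤ A.card := by
    have hinj : Function.Injective (fun i : ℕ => ρ + i * q) := by
      intro i j hij
      have : i * q = j * q := Nat.add_left_cancel hij
      exact Nat.eq_of_mul_eq_mul_right hq this
    have h1 : ((Finset.range m).image (fun i => ρ + i * q)) ⊆ A.image g := by
      intro x hx
      obtain ⟨i, hi, rfl⟩ := Finset.mem_image.mp hx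
      obtain ⟨u, hu⟩ := hall i (Finset.mem_range.mp hi)
      refine Finset.mem_image.mpr ⟨u, ?_, hu⟩
      rw [Finset.mem_filter]
      refine ⟨Finset.mem_univ _, ?_⟩
      rw [hu, Nat.add_mul_mod_self_right, Nat.mod_eq_of_lt hρq]
    have h2 := Finset.card_le_card h1
    rw [Finset.card_image_of_injective _ hinj, Finset.card_range] at h2
    exact h2.trans Finset.card_image_le
  have hcnt1 : m ≤ cnt (fun x => ¬ q ∣ x) g := by
    refine hA.trans (Finset.card_le_card ?_)
    intro u hu
    rw [Finset.mem_filter] at hu ⊢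
    refine ⟨Finset.mem_univ _, ?_⟩
    intro h
    rw [Nat.mod_eq_zero_of_dvd h] at hu
    omega
  have hcnt2 := hmin _ (orb_rt hk0 hg (k - ρ) (by omega))
  have hcnt3 : cnt (fun x => ¬ q ∣ x) (rt k (k - ρ) ∘ g) + A.card ≤ Fintype.card V := by
    unfold cnt
    rw [← Finset.card_union_of_disjoint]
    · exact Finset.card_le_univ _
    · rw [Finset.disjoint_left]
      intro u hu1 hu2
      rw [Finset.mem_filter] at hu1 hu2
      apply hu1.2
      have h1 : g u = ρ + (g u / q) * q := by
        have := Nat.mod_add_div (g u) q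
        rw [hu2.2, mul_comm] at this
        omega
      have h2 := hg.1 u
      have hle : ρ ≤ g u := by omega
      have h3 : rt k (k - ρ) (g u) = g u - ρ := by
        unfold rt
        have : ρ ≤ k := by
          rw [hk]
          have := Nat.mul_le_mul_right q hm
          omega
        split_ifs <;> omega
      show q ∣ rt k (k - ρ) (g u)
      rw [h3]
      exact Dvd.intro_left (g u / q) (by omega)
  omega

/-- Every `(k,q)`-colouring is connected to the canonical one. -/
theorem mixing_of [Fintype V] (M : ℕ) (hn : Fintype.card V + 1 ≤ 2 * M)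
    (hM : ∀ m, M ≤ m → Mixing G m 1) (c₀ : V → ℕ) (hc₀ : IsCol G M 1 c₀) (hq : 0 < q)
    (hk : M * q < k) : Mixing G k q := by
  classical
  have hM0 : 0 < M := by omega
  have hk0 : 0 < k := by omega
  -- the canonical colouring
  have hcan : IsCol G k q ((fun x => x * q) ∘ c₀) := by
    refine isCol_map (k := M) (q := 1) _ ?_ ?_ hc₀
    · intro x hx
      have := Nat.mul_le_mul_right q hx.le
      omega
    · intro x y hx hy h
      unfold ok at *
      rcases h with ⟨h1, h2⟩ | ⟨h1, h2⟩
      · left
        have a1 := Nat.mul_le_mul_right q h1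
        have a2 := Nat.mul_le_mul_right q h2
        rw [Nat.add_mul, one_mul] at a1
        rw [Nat.add_mul, Nat.add_mul, one_mul] at a2
        omega
      · right
        have a1 := Nat.mul_le_mul_right q h1
        have a2 := Nat.mul_le_mul_right q h2
        rw [Nat.add_mul, one_mul] at a1
        rw [Nat.add_mul, Nat.add_mul, one_mul] at a2
        omega
  have hc₀' := (isCol_iff c₀).mp hc₀
  -- it is connected to its rotation
  have hrot : ReflTransGen (Step G k q) ((fun x => x * q) ∘ c₀) (rt k 1 ∘ ((fun x => x * q) ∘ c₀)) := by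
    have key : ∀ j ≤ M, ReflTransGen (Step G k q) ((fun x => x * q) ∘ c₀)
        (fun v => if M - j ≤ c₀ v then c₀ v * q + 1 else c₀ v * q) := by
      intro j hj
      induction j with
      | zero =>
        have e : (fun v => if M - 0 ≤ c₀ v then c₀ v * q + 1 else c₀ v * q) =
            (fun x => x * q) ∘ c₀ := by
          funext v
          have := hc₀'.1 v
          rw [if_neg (by omega)]
          rfl
        rw [e]
      | succ j ih =>
        refine (ih (by omega)).trans (conn_mix _ _ ?_)
        intro w hw
        rw [isCol_iff]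
        have hw' : ∀ v, (w v = c₀ v * q ∧ c₀ v ≤ M - (j + 1)) ∨
            (w v = c₀ v * q + 1 ∧ M - (j + 1) ≤ c₀ v) := by
          intro v
          rcases hw v with h | h
          · split_ifs at h with h1
            · right; exact ⟨h, by omega⟩
            · left; exact ⟨h, by omega⟩
          · split_ifs at h with h1
            · right; exact ⟨h, by omega⟩
            · left; exact ⟨h, by omega⟩
        constructor
        · intro v
          have h1 := hc₀'.1 v
          have h2 := Nat.mul_le_mul_right q h1
          rw [Nat.succ_mul] at h2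
          rcases hw' v with h | h <;> omega
        · have main : ∀ u v, c₀ u < c₀ v → ok k q (w u) (w v) := by
            intro u v huv
            have h1 := hc₀'.1 v
            have h2 := Nat.mul_le_mul_right q huv
            have h3 := Nat.mul_le_mul_right q h1
            rw [Nat.succ_mul] at h2 h3
            left
            rcases hw' u with h | h <;> rcases hw' v with h' | h' <;> constructor <;> omega
          intro u v huv
          have h1 := hc₀'.2 u v huv
          have hne : c₀ u ≠ c₀ v := by
            unfold ok at h1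
            omega
          rcases lt_or_gt_of_ne hne with h | h
          · exact main u v h
          · exact ok_symm (main v u h)
    have h := key M le_rfl
    have e : (fun v => if M - M ≤ c₀ v then c₀ v * q + 1 else c₀ v * q) =
        rt k 1 ∘ ((fun x => x * q) ∘ c₀) := by
      funext v
      rw [if_pos (by omega)]
      have h1 := hc₀'.1 v
      have h2 := Nat.mul_le_mul_right q h1
      rw [Nat.succ_mul] at h2
      simp only [Function.comp, rt]
      rw [if_pos (by omega)]
    rwa [e] at h
  -- every colouring is connected to it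
  have main : ∀ f, IsCol G k q f → ReflTransGen (Step G k q) f ((fun x => x * q) ∘ c₀) := by
    intro f hf
    apply orb_to_conn hk0 hcan hrot
    obtain ⟨m, s, hmk, hkm, hsq⟩ : ∃ m s, M ≤ m ∧ k = m * q + s ∧ s < q := by
      refine ⟨k / q, k % q, (Nat.le_div_iff_mul_le hq).mpr hk.le, ?_, Nat.mod_lt _ hq⟩
      have := Nat.div_add_mod k q
      rw [mul_comm] at this
      exact this.symm
    obtain ⟨g, hfg, hg, hdiv, hgm⟩ : ∃ g, ReflTransGen (R G k q) f g ∧ IsCol G k q g ∧
        (∀ v, q ∣ g v) ∧ ∀ v, g v < m * q := by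
      rcases Nat.eq_zero_or_pos s with hs | hs
      · exact to_multiples_zero hq (by omega) (by omega) (by omega) hf
      · exact to_multiples_pos hq (by omega) hs hsq hkm (by omega) hf
    refine hfg.trans (conn_orb ?_)
    choose c hc using hdiv
    have hg' := (isCol_iff g).mp hg
    have hcol : IsCol G m 1 c := by
      rw [isCol_iff]
      have hlt : ∀ v, c v < m := by
        intro v
        have h1 := hgm v
        rw [hc v, mul_comm m q] at h1
        exact Nat.lt_of_mul_lt_mul_left h1
      refine ⟨hlt, ?_⟩
      intro u v huv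
      have h1 := hg'.2 u v huv
      have h2 : c u ≠ c v := by
        intro h
        have : g u = g v := by rw [hc, hc, h]
        unfold ok at h1
        omega
      have h3 := hlt u
      have h4 := hlt v
      unfold ok
      omega
    have hconn := hM m hmk c c₀ hcol (by
      rw [isCol_iff] at hc₀ ⊢
      refine ⟨fun v => (hc₀.1 v).trans_le hmk, fun u v huv => ?_⟩
      have := hc₀.2 u v huv
      unfold ok at *
      omega)
    have h5 := conn_map (k := m) (q := 1) (k' := k) (q' := q) (fun x => x * q) ?_ ?_ hconn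
    · have e : (fun x => x * q) ∘ c = g := by
        funext v
        simp only [Function.comp]
        rw [hc v, mul_comm]
      rwa [e] at h5
    · intro x hx
      have := Nat.mul_le_mul_right q hx
      rw [Nat.succ_mul] at this
      omega
    · intro x y hx hy h
      unfold ok at *
      rcases h with ⟨h1, h2⟩ | ⟨h1, h2⟩
      · left
        have a1 := Nat.mul_le_mul_right q h1
        have a2 := Nat.mul_le_mul_right q h2
        rw [Nat.add_mul, one_mul] at a1
        rw [Nat.add_mul, Nat.add_mul, one_mul] at a2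
        omega
      · right
        have a1 := Nat.mul_le_mul_right q h1
        have a2 := Nat.mul_le_mul_right q h2
        rw [Nat.add_mul, one_mul] at a1
        rw [Nat.add_mul, Nat.add_mul, one_mul] at a2
        omega
  intro f g hf hg
  exact (main f hf).trans (conn_symm (main g hg))

end Pool.Agent.X76.CircMix
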