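import Pool.Agent.H160R2.HF.Hoffman

set_option autoImplicit false

/-!
Balanced roundings of matrices, from Hoffman's circulation theorem.
-/

namespace Pool.Agent.X76.Det

open Finset Pool.Agent.H160R2.HF

section Flow

variable {V E : Type} [Fintype V] [Fintype E] [DecidableEq V] [DecidableEq E]

/-- integral flows from multiples of fractional ones -/
theorem scaled (t h : E → V) (lo hi : E → ℤ) (d : V → ℤ) (p : ℤ) (hp : 0 < p) (G : E → ℤ)
    (h1 : ∀ e, p * lo e ≤ G e ∧ G e ≤ p * hi e) (h2 : ∀ v, net t h G v = p * d v) :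
    ∃ g : E → ℤ, (∀ e, lo e ≤ g e ∧ g e ≤ hi e) ∧ ∀ v, net t h g v = d v := by
  apply hoffman t h lo hi d
  · intro e
    have := (h1 e).1.trans (h1 e).2
    exact le_of_mul_le_mul_left this hp
  · have h3 : p * ∑ v, d v = 0 := by
      rw [Finset.mul_sum, ← Finset.sum_congr rfl (fun v _ => h2 v), net_sum]
      simp
    rcases mul_eq_zero.1 h3 with h | h
    · omega
    · exact h
  · intro X
    have h3 : p * ff t h lo hi d X = ∑ e, (((if t e ∈ X then G e else 0) -
        (if h e ∈ X then G e else 0)) + p * ce t h lo hi X e) := by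
      unfold ff
      rw [mul_add, Finset.mul_sum, ← Finset.sum_congr rfl (fun v _ => h2 v), net_sum,
        Finset.mul_sum, ← Finset.sum_add_distrib]
    have h4 : 0 ≤ p * ff t h lo hi d X := by
      rw [h3]
      apply Finset.sum_nonneg
      intro e _
      obtain ⟨a, b⟩ := h1 e
      unfold ce
      by_cases h5 : t e ∈ X <;> by_cases h6 : h e ∈ X <;> simp only [h5, h6, if_true, if_false,
        not_true_eq_false, not_false_eq_true, and_true, and_false, and_self] <;> linarith
    by_contra hno
    push Not at hno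
    have := mul_neg_of_pos_of_neg hp hno
    omega

end Flow

theorem net_eq {V E : Type} [Fintype V] [Fintype E] [DecidableEq V] [DecidableEq E]
    (t h : E → V) (g : E → ℤ) (v : V) :
    net t h g v = (∑ e, if t e = v then g e else 0) - ∑ e, if h e = v then g e else 0 := by
  unfold net
  rw [Finset.sum_filter, Finset.sum_filter]

/-- selection of edges at a vertex -/
theorem select {C X : Type} [Fintype C] [Fintype X] [DecidableEq C] [DecidableEq X]
    (M cap : C → X → ℕ) (κ : C → X → X) (p : ℕ) (hp : 0 < p) (b : X → ℕ) (hi : C → X → ℕ)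
    (h0 : ∀ c y, M c y ≤ p * cap c y) (h1 : ∀ c, ∑ y, M c y = p * 2) (h2 : ∀ y, ∑ c, M c y = p * b y)
    (h3 : ∀ c k, (∑ y, if κ c y = k then M c y else 0) ≤ p * hi c k) :
    ∃ T : C → X → ℕ, (∀ c y, T c y ≤ cap c y) ∧ (∀ c, ∑ y, T c y = 2) ∧
      (∀ y, ∑ c, T c y = b y) ∧ ∀ c k, (∑ y, if κ c y = k then T c y else 0) ≤ hi c k := by
  let t : (C × X) ⊕ (C × X) → C ⊕ ((C × X) ⊕ X) := fun e => match e with
    | Sum.inl q => Sum.inl q.1
    | Sum.inr q => Sum.inr (Sum.inl (q.1, κ q.1 q.2))
  let h : (C × X) ⊕ (C × X) → C ⊕ ((C × X) ⊕ X) := fun e => match e with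
    | Sum.inl q => Sum.inr (Sum.inl q)
    | Sum.inr q => Sum.inr (Sum.inr q.2)
  let lo : (C × X) ⊕ (C × X) → ℤ := fun _ => 0
  let up : (C × X) ⊕ (C × X) → ℤ := fun e => match e with
    | Sum.inl q => (hi q.1 q.2 : ℤ)
    | Sum.inr q => (cap q.1 q.2 : ℤ)
  let G : (C × X) ⊕ (C × X) → ℤ := fun e => match e with
    | Sum.inl q => ∑ y, if κ q.1 y = q.2 then (M q.1 y : ℤ) else 0
    | Sum.inr q => (M q.1 q.2 : ℤ)
  let d : C ⊕ ((C × X) ⊕ X) → ℤ := fun v => match v with
    | Sum.inl _ => 2
    | Sum.inr (Sum.inl _) => 0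
    | Sum.inr (Sum.inr y) => - (b y : ℤ)
  have hn1 : ∀ (g : (C × X) ⊕ (C × X) → ℤ) (c : C),
      net t h g (Sum.inl c) = ∑ k, g (Sum.inl (c, k)) := by
    intro g c
    rw [net_eq, Fintype.sum_sum_type, Fintype.sum_sum_type, Fintype.sum_prod_type]
    simp only [t, h, Sum.inl.injEq, reduceCtorEq, if_false, Finset.sum_const_zero, add_zero,
      sub_zero]
    rw [Finset.sum_eq_single c]
    · simp
    · intro c' _ hne
      simp [hne]
    · simp
  have hn2 : ∀ (g : (C × X) ⊕ (C × X) → ℤ) (c : C) (k : X),
      net t h g (Sum.inr (Sum.inl (c, k))) =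
        (∑ y, if κ c y = k then g (Sum.inr (c, y)) else 0) - g (Sum.inl (c, k)) := by
    intro g c k
    rw [net_eq, Fintype.sum_sum_type, Fintype.sum_sum_type]
    simp only [t, h, Sum.inr.injEq, Sum.inl.injEq, reduceCtorEq, if_false, Finset.sum_const_zero,
      add_zero, zero_add, Prod.mk.injEq]
    congr 1
    · rw [Fintype.sum_prod_type, Finset.sum_eq_single c]
      · simp
      · intro c' _ hne
        simp [hne]
      · simp
    · simp
  have hn3 : ∀ (g : (C × X) ⊕ (C × X) → ℤ) (y : X),
      net t h g (Sum.inr (Sum.inr y)) = - ∑ c, g (Sum.inr (c, y)) := by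
    intro g y
    rw [net_eq, Fintype.sum_sum_type, Fintype.sum_sum_type]
    simp only [t, h, Sum.inr.injEq, reduceCtorEq, if_false, Finset.sum_const_zero,
      add_zero, zero_add, zero_sub, Fintype.sum_prod_type]
    simp
  obtain ⟨g, hg1, hg2⟩ := scaled t h lo up d (p : ℤ) (by exact_mod_cast hp) G
    (by
      rintro (⟨c, k⟩ | ⟨c, y⟩)
      · simp only [lo, up, G, mul_zero]
        refine ⟨Finset.sum_nonneg fun y _ => by split_ifs <;> positivity, ?_⟩
        have := h3 c k
        have h4 : ((∑ y, if κ c y = k then M c y else 0 : ℕ) : ℤ) ≤ ((p * hi c k : ℕ) : ℤ) := by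
          exact_mod_cast this
        push_cast at h4
        exact h4
      · simp only [lo, up, G, mul_zero]
        refine ⟨by positivity, ?_⟩
        exact_mod_cast h0 c y)
    (by
      rintro (c | ⟨c, k⟩ | y)
      · rw [hn1]
        simp only [G, d]
        rw [Finset.sum_comm]
        have h4 : ∀ y, (∑ k, if κ c y = k then (M c y : ℤ) else 0) = (M c y : ℤ) := by
          intro y; simp
        simp only [h4]
        exact_mod_cast h1 c
      · rw [hn2]
        simp only [G, d, mul_zero, sub_self]
      · rw [hn3]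
        simp only [G, d]
        have h4 : ((∑ c, M c y : ℕ) : ℤ) = ((p * b y : ℕ) : ℤ) := by rw [h2]
        push_cast at h4
        rw [h4]
        ring)
  have hT : ∀ c y, ((g (Sum.inr (c, y))).toNat : ℤ) = g (Sum.inr (c, y)) := by
    intro c y
    exact Int.toNat_of_nonneg (hg1 (Sum.inr (c, y))).1
  have hk : ∀ c k, (∑ y, if κ c y = k then g (Sum.inr (c, y)) else 0) = g (Sum.inl (c, k)) := by
    intro c k
    have h4 := hg2 (Sum.inr (Sum.inl (c, k)))
    rw [hn2] at h4
    simp only [d] at h4
    linarith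
  refine ⟨fun c y => (g (Sum.inr (c, y))).toNat, ?_, ?_, ?_, ?_⟩
  · intro c y
    have h4 := (hg1 (Sum.inr (c, y))).2
    simp only [up] at h4
    rw [← hT] at h4
    exact_mod_cast h4
  · intro c
    have h4 := hg2 (Sum.inl c)
    rw [hn1] at h4
    simp only [d] at h4
    rw [← Finset.sum_congr rfl (fun k _ => hk c k), Finset.sum_comm] at h4
    have h5 : ∀ y, (∑ k, if κ c y = k then g (Sum.inr (c, y)) else 0) = g (Sum.inr (c, y)) := by
      intro y; simp
    simp only [h5] at h4
    have h6 : ((∑ y, (g (Sum.inr (c, y))).toNat : ℕ) : ℤ) = 2 := by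
      push_cast
      rw [← h4]
      apply Finset.sum_congr rfl
      intro y _
      exact_mod_cast hT c y
    exact_mod_cast h6
  · intro y
    have h4 := hg2 (Sum.inr (Sum.inr y))
    rw [hn3] at h4
    simp only [d] at h4
    have h6 : ((∑ c, (g (Sum.inr (c, y))).toNat : ℕ) : ℤ) = b y := by
      push_cast
      have h7 : ∑ c, g (Sum.inr (c, y)) = (b y : ℤ) := by linarith
      rw [← h7]
      apply Finset.sum_congr rfl
      intro c _
      exact_mod_cast hT c y
    exact_mod_cast h6
  · intro c k
    have h4 := (hg1 (Sum.inl (c, k))).2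
    simp only [up] at h4
    rw [← hk] at h4
    have h6 : ((∑ y, if κ c y = k then (g (Sum.inr (c, y))).toNat else 0 : ℕ) : ℤ) ≤ hi c k := by
      push_cast
      refine le_trans (le_of_eq ?_) h4
      apply Finset.sum_congr rfl
      intro y _
      split_ifs
      · exact_mod_cast hT c y
      · rfl
    exact_mod_cast h6

/-- one balanced class of a matrix -/
theorem one_class {X : Type} [Fintype X] [DecidableEq X] (o : X → X → ℕ) (D : ℕ) (hD : 0 < D)
    (a b : X → ℕ) (h1 : ∀ x, ∑ y, o x y = D * a x) (h2 : ∀ y, ∑ x, o x y = D * b y) :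
    ∃ T : X → X → ℕ, (∀ x, ∑ y, T x y = a x) ∧ (∀ y, ∑ x, T x y = b y) ∧
      ∀ x y, o x y / D ≤ T x y ∧ T x y ≤ (o x y + (D - 1)) / D := by
  let t : X × X → X ⊕ X := fun q => Sum.inl q.1
  let h : X × X → X ⊕ X := fun q => Sum.inr q.2
  let lo : X × X → ℤ := fun q => ((o q.1 q.2 / D : ℕ) : ℤ)
  let up : X × X → ℤ := fun q => (((o q.1 q.2 + (D - 1)) / D : ℕ) : ℤ)
  let G : X × X → ℤ := fun q => (o q.1 q.2 : ℤ)
  let d : X ⊕ X → ℤ := fun v => match v with
    | Sum.inl x => (a x : ℤ)
    | Sum.inr y => - (b y : ℤ)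
  have hn1 : ∀ (g : X × X → ℤ) (x : X), net t h g (Sum.inl x) = ∑ y, g (x, y) := by
    intro g x
    rw [net_eq, Fintype.sum_prod_type, Fintype.sum_prod_type]
    simp only [t, h, Sum.inl.injEq, reduceCtorEq, if_false, Finset.sum_const_zero, sub_zero]
    rw [Finset.sum_eq_single x]
    · simp
    · intro x' _ hne
      simp [hne]
    · simp
  have hn2 : ∀ (g : X × X → ℤ) (y : X), net t h g (Sum.inr y) = - ∑ x, g (x, y) := by
    intro g y
    rw [net_eq, Fintype.sum_prod_type, Fintype.sum_prod_type]
    simp only [t, h, Sum.inr.injEq, reduceCtorEq, if_false, Finset.sum_const_zero, zero_sub]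
    simp
  obtain ⟨g, hg1, hg2⟩ := scaled t h lo up d (D : ℤ) (by exact_mod_cast hD) G
    (by
      rintro ⟨x, y⟩
      simp only [lo, up, G]
      constructor
      · exact_mod_cast Nat.mul_div_le (o x y) D
      · have h3 : o x y ≤ D * ((o x y + (D - 1)) / D) := by
          have h4 := Nat.div_add_mod (o x y + (D - 1)) D
          have h5 := Nat.mod_lt (o x y + (D - 1)) hD
          omega
        exact_mod_cast h3)
    (by
      rintro (x | y)
      · rw [hn1]
        simp only [G, d]
        exact_mod_cast h1 x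
      · rw [hn2]
        simp only [G, d]
        have h4 : ((∑ x, o x y : ℕ) : ℤ) = ((D * b y : ℕ) : ℤ) := by rw [h2]
        push_cast at h4
        rw [h4]
        ring)
  have hT : ∀ x y, ((g (x, y)).toNat : ℤ) = g (x, y) := by
    intro x y
    apply Int.toNat_of_nonneg
    have h3 := (hg1 (x, y)).1
    simp only [lo] at h3
    exact (by positivity : (0 : ℤ) ≤ ((o x y / D : ℕ) : ℤ)).trans h3
  refine ⟨fun x y => (g (x, y)).toNat, ?_, ?_, ?_⟩
  · intro x
    have h4 := hg2 (Sum.inl x)
    rw [hn1] at h4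
    simp only [d] at h4
    have h6 : ((∑ y, (g (x, y)).toNat : ℕ) : ℤ) = a x := by
      push_cast
      rw [← h4]
      apply Finset.sum_congr rfl
      intro y _
      exact_mod_cast hT x y
    exact_mod_cast h6
  · intro y
    have h4 := hg2 (Sum.inr y)
    rw [hn2] at h4
    simp only [d] at h4
    have h6 : ((∑ x, (g (x, y)).toNat : ℕ) : ℤ) = b y := by
      push_cast
      have h7 : ∑ x, g (x, y) = (b y : ℤ) := by linarith
      rw [← h7]
      apply Finset.sum_congr rfl
      intro x _
      exact_mod_cast hT x y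
    exact_mod_cast h6
  · intro x y
    have h3 := hg1 (x, y)
    simp only [lo, up] at h3
    rw [← hT] at h3
    exact ⟨by exact_mod_cast h3.1, by exact_mod_cast h3.2⟩

/-- a decomposition in balanced classes -/
theorem classes {X : Type} [Fintype X] [DecidableEq X] (D : ℕ) (a b : X → ℕ) :
    ∀ (o : X → X → ℕ), (∀ x, ∑ y, o x y = D * a x) → (∀ y, ∑ x, o x y = D * b y) →
    ∃ T : Fin D → X → X → ℕ, (∀ c x, ∑ y, T c x y = a x) ∧ (∀ c y, ∑ x, T c x y = b y) ∧
      (∀ x y, ∑ c, T c x y = o x y) ∧ ∀ x y, D ≤ o x y → ∀ c, 1 ≤ T c x y := by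
  induction D with
  | zero =>
    intro o h1 h2
    refine ⟨fun c => c.elim0, fun c => c.elim0, fun c => c.elim0, ?_, fun x y _ c => c.elim0⟩
    intro x y
    have h3 := h1 x
    rw [Nat.zero_mul] at h3
    have h4 := (Finset.sum_eq_zero_iff.1 h3) y (mem_univ y)
    rw [h4]
    simp
  | succ D ih =>
    intro o h1 h2
    obtain ⟨T0, hT1, hT2, hT3⟩ := one_class o (D + 1) (Nat.succ_pos D) a b h1 h2
    have hle : ∀ x y, T0 x y ≤ o x y := by
      intro x y
      refine (hT3 x y).2.trans ?_
      rw [Nat.add_sub_cancel]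
      rcases Nat.eq_zero_or_pos (o x y) with h | h
      · rw [h, Nat.zero_add, Nat.div_eq_of_lt (Nat.lt_succ_self D)]
      · rw [Nat.div_le_iff_le_mul_add_pred (Nat.succ_pos D)]
        nlinarith
    obtain ⟨T, h3, h4, h5, h6⟩ := ih (fun x y => o x y - T0 x y)
      (by
        intro x
        rw [Finset.sum_tsub_distrib _ (fun y _ => hle x y), h1, hT1]
        rw [Nat.add_mul, one_mul, Nat.add_sub_cancel])
      (by
        intro y
        rw [Finset.sum_tsub_distrib _ (fun x _ => hle x y), h2, hT2]
        rw [Nat.add_mul, one_mul, Nat.add_sub_cancel])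
    refine ⟨Fin.cons T0 T, ?_, ?_, ?_, ?_⟩
    · intro c x
      refine Fin.cases ?_ (fun c => ?_) c
      · simpa using hT1 x
      · simpa using h3 c x
    · intro c y
      refine Fin.cases ?_ (fun c => ?_) c
      · simpa using hT2 y
      · simpa using h4 c y
    · intro x y
      rw [Fin.sum_univ_succ]
      simp only [Fin.cons_zero, Fin.cons_succ, h5]
      have := hle x y
      omega
    · intro x y hxy c
      obtain ⟨h7, h8⟩ := hT3 x y
      refine Fin.cases ?_ (fun c => ?_) c
      · simp only [Fin.cons_zero]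
        refine le_trans ?_ h7
        exact (Nat.one_le_div_iff (Nat.succ_pos D)).2 hxy
      · simp only [Fin.cons_succ]
        apply h6 x y
        rw [Nat.add_sub_cancel] at h8
        have hD : 0 < D := Fin.pos c
        have h9 : (o x y + D) / (D + 1) ≤ o x y - D := by
          obtain ⟨e, he⟩ : ∃ e, o x y = D + 1 + e := ⟨o x y - (D + 1), by omega⟩
          rw [he, show D + 1 + e - D = 1 + e by omega]
          apply Nat.lt_succ_iff.1
          rw [Nat.div_lt_iff_lt_mul (Nat.succ_pos D)]
          nlinarith [Nat.zero_le (D * e)]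
        omega

/-- a balanced orientation -/
theorem orient {X : Type} [Fintype X] [LinearOrder X] (w : X → X → ℕ)
    (hs : ∀ x y, w x y = w y x) (h0 : ∀ x, w x x = 0) (a : X → ℕ)
    (h1 : ∀ x, ∑ y, w x y = 2 * a x) :
    ∃ o : X → X → ℕ, (∀ x y, o x y + o y x = w x y) ∧ (∀ x, ∑ y, o x y = a x) ∧
      (∀ y, ∑ x, o x y = a y) ∧ ∀ x y, w x y / 2 ≤ o x y := by
  let t : X × X → X := fun q => q.1
  let h : X × X → X := fun q => q.2
  let lo : X × X → ℤ := fun q => if q.1 < q.2 then ((w q.1 q.2 / 2 : ℕ) : ℤ) else 0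
  let up : X × X → ℤ := fun q => if q.1 < q.2 then (((w q.1 q.2 + 1) / 2 : ℕ) : ℤ) else 0
  let G : X × X → ℤ := fun q => if q.1 < q.2 then (w q.1 q.2 : ℤ) else 0
  let d : X → ℤ := fun x => (a x : ℤ) - ∑ y, if y < x then (w x y : ℤ) else 0
  have hn : ∀ (g : X × X → ℤ) (x : X), net t h g x = ∑ y, g (x, y) - ∑ y, g (y, x) := by
    intro g x
    rw [net_eq, Fintype.sum_prod_type, Fintype.sum_prod_type]
    simp only [t, h]
    congr 1
    · rw [Finset.sum_eq_single x]
      · simp
      · intro x' _ hne
        simp [hne]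
      · simp
    · simp
  have hsplit : ∀ x, (∑ y, (w x y : ℤ)) = (∑ y, if x < y then (w x y : ℤ) else 0) +
      ∑ y, if y < x then (w x y : ℤ) else 0 := by
    intro x
    rw [← Finset.sum_add_distrib]
    apply Finset.sum_congr rfl
    intro y _
    rcases lt_trichotomy x y with h | h | h
    · simp [h, h.le, not_lt.2 h.le]
    · subst h
      simp [h0]
    · simp [h, not_lt.2 h.le]
  obtain ⟨g, hg1, hg2⟩ := scaled t h lo up d 2 two_pos G
    (by
      rintro ⟨x, y⟩
      simp only [lo, up, G]
      split_ifs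
      · constructor
        · have h3 : 2 * (w x y / 2) ≤ w x y := Nat.mul_div_le _ _
          exact_mod_cast h3
        · have h3 : w x y ≤ 2 * ((w x y + 1) / 2) := by omega
          exact_mod_cast h3
      · simp)
    (by
      intro x
      rw [hn]
      simp only [G, d]
      have h3 : (∑ y, (w x y : ℤ)) = 2 * a x := by exact_mod_cast h1 x
      rw [hsplit] at h3
      have h4 : (∑ y, if y < x then (w y x : ℤ) else 0) = ∑ y, if y < x then (w x y : ℤ) else 0 := by
        apply Finset.sum_congr rfl
        intro y _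
        rw [hs x y]
      rw [h4]
      linarith)
  have hlt : ∀ x y, x < y → ((w x y / 2 : ℕ) : ℤ) ≤ g (x, y) ∧
      g (x, y) ≤ (((w x y + 1) / 2 : ℕ) : ℤ) := by
    intro x y hxy
    have h3 := hg1 (x, y)
    simp only [lo, up, if_pos hxy] at h3
    exact h3
  have hge : ∀ x y, ¬ x < y → g (x, y) = 0 := by
    intro x y hxy
    have h3 := hg1 (x, y)
    simp only [lo, up, if_neg hxy] at h3
    omega
  let o : X → X → ℕ := fun x y => if x < y then (g (x, y)).toNat else w x y - (g (y, x)).toNat
  have hadd : ∀ x y, o x y + o y x = w x y := by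
    have main : ∀ x y, x < y → o x y + o y x = w x y := by
      intro x y hxy
      have h3 := hlt x y hxy
      simp only [o, if_pos hxy, if_neg (not_lt.2 hxy.le)]
      rw [hs y x]
      omega
    intro x y
    rcases lt_trichotomy x y with h | h | h
    · exact main x y h
    · subst h
      simp only [o, lt_irrefl, if_false, h0]
      omega
    · rw [add_comm, hs]; exact main y x h
  have hrow : ∀ x, ∑ y, o x y = a x := by
    intro x
    have h3 : ((∑ y, o x y : ℕ) : ℤ) = a x := by
      push_cast
      have h4 : ∀ y, (o x y : ℤ) = g (x, y) + ((if y < x then (w x y : ℤ) else 0) - g (y, x)) := by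
        intro y
        rcases lt_trichotomy x y with h | h | h
        · have h5 := hlt x y h
          have h6 := hge y x (not_lt.2 h.le)
          simp only [o, if_pos h, if_neg (not_lt.2 h.le)]
          omega
        · subst h
          have h6 := hge x x (lt_irrefl x)
          simp only [o, lt_irrefl, if_false, h0, h6]
          simp
        · have h5 := hlt y x h
          have h6 := hge x y (not_lt.2 h.le)
          rw [hs y x] at h5
          simp only [o, if_neg (not_lt.2 h.le), if_pos h]
          omega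
      simp only [h4]
      rw [Finset.sum_add_distrib, Finset.sum_sub_distrib]
      have h7 := hg2 x
      rw [hn] at h7
      simp only [d] at h7
      linarith
    exact_mod_cast h3
  refine ⟨o, hadd, hrow, ?_, ?_⟩
  · intro y
    have h3 : ∑ x, o x y + ∑ x, o y x = ∑ x, w y x := by
      rw [← Finset.sum_add_distrib]
      apply Finset.sum_congr rfl
      intro x _
      rw [hadd, hs]
    rw [hrow, h1] at h3
    omega
  · intro x y
    rcases lt_trichotomy x y with h | h | h
    · have h5 := hlt x y h
      simp only [o, if_pos h]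
      omega
    · subst h
      simp [h0]
    · have h5 := hlt y x h
      rw [hs y x] at h5
      simp only [o, if_neg (not_lt.2 h.le)]
      omega

end Pool.Agent.X76.Det
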