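import Pool.Agent.X76.Det13
import Pool.Agent.X76.Det9
import Pool.Agent.X76.Lex3

set_option autoImplicit false

/-!
Linear forests plus matchings between ends of different paths, alignment of matchings.
-/

namespace Pool.Agent.X76.Det

open Finset SimpleGraph H931R3.LA

theorem closed_reach {W : Type} (S : SimpleGraph W) (K : W → Prop)
    (hK : ∀ a b, K a → S.Adj a b → K b) {a b : W} (h : S.Reachable a b) (ha : K a) : K b := by
  obtain ⟨p⟩ := h
  induction p with
  | nil => exact ha
  | cons h p ih => exact ih (hK _ _ ha h)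

theorem union_LF {W : Type} [Finite W] (F M : SimpleGraph W) (hF : IsLF F)
    (h1 : ∀ x y z, M.Adj x y → M.Adj x z → y = z)
    (h2 : ∀ x y, M.Adj x y → (F.neighborSet x).ncard ≤ 1)
    (h3 : ∀ x x' y y', M.Adj x y → M.Adj x' y' → F.Reachable x x' → x = x') :
    IsLF (F ⊔ M) := by
  classical
  refine ⟨?_, ?_⟩
  · rw [isAcyclic_iff_forall_adj_isBridge]
    intro x y hxy
    rw [isBridge_iff]
    intro hr
    have hdel : ∀ (S : SimpleGraph W) a b, (S.deleteEdges {s(x, y)}).Adj a b ↔
        S.Adj a b ∧ s(a, b) ≠ s(x, y) := by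
      intro S a b
      rw [deleteEdges_adj, Set.mem_singleton_iff]
    by_cases hM : M.Adj x y
    · have h4 := closed_reach _ (fun w => F.Reachable x w) (by
        intro a b ha hab
        rw [hdel] at hab
        rcases hab.1 with h5 | h5
        · exact ha.trans h5.reachable
        · have h6 : x = a := h3 x a y b hM h5 ha
          subst h6
          have h7 := h1 x y b hM h5
          rw [h7] at hab
          exact absurd rfl hab.2) hr (Reachable.refl _)
      have h5 : x = y := h3 x y y x hM hM.symm h4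
      exact hM.ne h5
    · have hFxy : F.Adj x y := hxy.resolve_right hM
      have hno : ¬ (F.deleteEdges {s(x, y)}).Reachable x y := by
        have h4 := (isAcyclic_iff_forall_adj_isBridge.1 hF.1) hFxy
        rw [isBridge_iff] at h4
        exact h4
      have hmono : ∀ a b, (F.deleteEdges {s(x, y)}).Reachable a b → F.Reachable a b :=
        fun a b h => h.mono (deleteEdges_le _)
      have h4 := closed_reach _ (fun w => (F.deleteEdges {s(x, y)}).Reachable x w ∨
          ∃ a b, (F.deleteEdges {s(x, y)}).Reachable x a ∧ M.Adj a b ∧ F.Reachable b w) (by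
        intro w w' hw hww
        rw [hdel] at hww
        rcases hw with hw | ⟨a, b, ha, hab, hb⟩
        · rcases hww.1 with h5 | h5
          · left
            refine hw.trans (Adj.reachable ?_)
            rw [hdel]
            exact ⟨h5, hww.2⟩
          · right
            exact ⟨w, w', hw, h5, Reachable.refl _⟩
        · rcases hww.1 with h5 | h5
          · right
            exact ⟨a, b, ha, hab, hb.trans h5.reachable⟩
          · left
            have h6 : b = w := h3 b w a w' hab.symm h5 hb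
            subst h6
            have h7 := h1 b a w' hab.symm h5
            rw [← h7]
            exact ha) hr (Or.inl (Reachable.refl _))
      rcases h4 with h4 | ⟨a, b, ha, hab, hb⟩
      · exact hno h4
      · have h5 : F.Reachable a b :=
          ((hmono _ _ ha).symm.trans hFxy.reachable).trans hb.symm
        exact hab.ne (h3 a b b a hab hab.symm h5)
  · intro x
    have hsub : (F ⊔ M).neighborSet x = F.neighborSet x ∪ M.neighborSet x := rfl
    rw [hsub]
    by_cases hx : ∃ y, M.Adj x y
    · obtain ⟨y, hy⟩ := hx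
      have h4 : M.neighborSet x = {y} := by
        ext z
        rw [mem_neighborSet, Set.mem_singleton_iff]
        exact ⟨fun h => (h1 x y z hy h).symm, fun h => h ▸ hy⟩
      have h5 := Set.ncard_union_le (F.neighborSet x) (M.neighborSet x)
      rw [h4, Set.ncard_singleton] at h5
      have h6 := h2 x y hy
      rw [h4]
      omega
    · have h4 : M.neighborSet x = ∅ := by
        ext z
        rw [mem_neighborSet]
        exact ⟨fun h => absurd ⟨z, h⟩ hx, fun h => absurd h (Set.notMem_empty _)⟩
      rw [h4, Set.union_empty]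
      exact hF.2 x

theorem LF_comap {W : Type} [Finite W] (E : SimpleGraph W) (hE : IsLF E) (Q : W ≃ W) :
    IsLF (E.comap Q) := by
  refine ⟨IsAcyclic.comap (⟨Q, fun h => h⟩ : E.comap Q →g E) Q.injective hE.1, ?_⟩
  intro x
  refine le_trans ?_ (hE.2 (Q x))
  rw [← Set.ncard_image_of_injective _ Q.injective]
  apply Set.ncard_le_ncard _ (Set.toFinite _)
  rintro _ ⟨y, hy, rfl⟩
  exact hy

/-- moving the ends of a matching to prescribed places -/
theorem align_M {V W K : Type} [Finite W] [Fintype K] (f : W → V) (M : SimpleGraph W)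
    (h1 : ∀ x y z, M.Adj x y → M.Adj x z → y = z) (A : V → Prop)
    (h2 : ∀ x y, M.Adj x y → (A (f x) ↔ ¬ A (f y)))
    (h3 : ∀ x y x' y', M.Adj x y → M.Adj x' y' → f x = f x' → f y = f y')
    (slot : V → K → W) (hs1 : ∀ v k, f (slot v k) = v) (hs2 : ∀ v, Function.Injective (slot v))
    (hload : ∀ v, {x | f x = v ∧ ∃ y, M.Adj x y}.ncard ≤ Fintype.card K) :
    ∃ Q : W ≃ W, (∀ w, f (Q w) = f w) ∧
      ∀ x y, M.Adj x y → ∃ k, Q x = slot (f x) k ∧ Q y = slot (f y) k := by
  classical
  have := Fintype.ofFinite W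
  -- injections of the ends
  have hemb : ∀ v, ∃ j : W → Option K, (∀ x, (f x = v ∧ ∃ y, M.Adj x y) → (j x).isSome) ∧
      Set.InjOn j {x | f x = v ∧ ∃ y, M.Adj x y} := by
    intro v
    have h5 : Nonempty ({x // f x = v ∧ ∃ y, M.Adj x y} ↪ K) := by
      apply Function.Embedding.nonempty_of_card_le
      refine le_trans (le_of_eq ?_) (hload v)
      rw [← Nat.card_coe_set_eq, Nat.card_eq_fintype_card]
      rfl
    obtain ⟨i⟩ := h5
    refine ⟨fun x => if h : f x = v ∧ ∃ y, M.Adj x y then some (i ⟨x, h⟩) else none, ?_, ?_⟩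
    · intro x hx
      simp only [dif_pos hx, Option.isSome_some]
    · intro x hx x' hx' he
      simp only [Set.mem_ofPred_eq] at hx hx'
      simp only [dif_pos hx, dif_pos hx'] at he
      exact congrArg Subtype.val (i.injective (Option.some.inj he))
  choose j hj1 hj2 using hemb
  -- mates
  have hmate : ∀ x, ∃ y, (∃ y', M.Adj x y') → M.Adj x y := by
    intro x
    by_cases hx : ∃ y, M.Adj x y
    · obtain ⟨y, hy⟩ := hx
      exact ⟨y, fun _ => hy⟩
    · exact ⟨x, fun h => absurd h hx⟩
  choose mate hm using hmate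
  let κ : W → Option K := fun x => if A (f x) then j (f x) x else j (f (mate x)) (mate x)
  have hκs : ∀ x y, M.Adj x y → (κ x).isSome := by
    intro x y hxy
    simp only [κ]
    split_ifs with hA
    · exact hj1 _ _ ⟨rfl, y, hxy⟩
    · exact hj1 _ _ ⟨rfl, x, (hm x ⟨y, hxy⟩).symm⟩
  have hκe : ∀ x y, M.Adj x y → κ x = κ y := by
    have main : ∀ x y, M.Adj x y → A (f x) → κ x = κ y := by
      intro x y hxy hA
      have hA' : ¬ A (f y) := (h2 x y hxy).1 hA
      have h4 : mate y = x := h1 y _ _ (hm y ⟨x, hxy.symm⟩) hxy.symm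
      simp only [κ, if_pos hA, if_neg hA', h4]
    intro x y hxy
    by_cases hA : A (f x)
    · exact main x y hxy hA
    · have hA' : A (f y) := by
        by_contra h
        exact hA ((h2 x y hxy).2 h)
      exact (main y x hxy.symm hA').symm
  have hκi : ∀ x x' y y', M.Adj x y → M.Adj x' y' → f x = f x' → κ x = κ x' → x = x' := by
    intro x x' y y' hxy hxy' hf hk
    by_cases hA : A (f x)
    · have hA' : A (f x') := hf ▸ hA
      simp only [κ, if_pos hA, if_pos hA'] at hk
      rw [← hf] at hk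
      exact hj2 (f x) ⟨rfl, y, hxy⟩ ⟨hf.symm, y', hxy'⟩ hk
    · have hA' : ¬ A (f x') := hf ▸ hA
      simp only [κ, if_neg hA, if_neg hA'] at hk
      have h4 := hm x ⟨y, hxy⟩
      have h5 := hm x' ⟨y', hxy'⟩
      have h6 : f (mate x) = f (mate x') := h3 x _ x' _ h4 h5 hf
      rw [← h6] at hk
      have h7 := hj2 (f (mate x)) ⟨rfl, x, h4.symm⟩ ⟨h6.symm, x', h5.symm⟩ hk
      rw [← h7] at h5
      exact h1 (mate x) x x' h4.symm h5.symm
  -- permutations of the fibres
  have hρ : ∀ v, ∃ ρ : Equiv.Perm {w // f w = v}, ∀ a b, ((∃ y, M.Adj a.1 y) ∧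
      ∃ k, κ a.1 = some k ∧ b.1 = slot v k) → ρ a = b := by
    intro v
    apply Lex.ext_perm
    · rintro a b b' ⟨-, k, h4, h5⟩ ⟨-, k', h4', h5'⟩
      have h6 : k = k' := Option.some.inj (h4.symm.trans h4')
      subst h6
      exact Subtype.ext (h5.trans h5'.symm)
    · rintro a a' b ⟨⟨y, hy⟩, k, h4, h5⟩ ⟨⟨y', hy'⟩, k', h4', h5'⟩
      have h6 : k = k' := hs2 v (h5.symm.trans h5')
      subst h6
      exact Subtype.ext (hκi a.1 a'.1 y y' hy hy' (a.2.trans a'.2.symm) (h4.trans h4'.symm))
  choose ρ hρ using hρ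
  let Q : W ≃ W := (Equiv.sigmaFiberEquiv f).symm.trans
    ((Equiv.sigmaCongrRight ρ).trans (Equiv.sigmaFiberEquiv f))
  have hQ : ∀ w, Q w = (ρ (f w) ⟨w, rfl⟩).1 := fun w => rfl
  refine ⟨Q, fun w => (ρ (f w) ⟨w, rfl⟩).2, ?_⟩
  have key : ∀ x y k, M.Adj x y → κ x = some k → Q x = slot (f x) k := by
    intro x y k hxy hk
    have h4 := hρ (f x) ⟨x, rfl⟩ ⟨slot (f x) k, hs1 _ _⟩ ⟨⟨y, hxy⟩, k, hk, rfl⟩
    rw [hQ, h4]
  intro x y hxy
  obtain ⟨k, hk⟩ := Option.isSome_iff_exists.1 (hκs x y hxy)
  exact ⟨k, key x y k hxy hk, key y x k hxy.symm ((hκe x y hxy).symm.trans hk)⟩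

end Pool.Agent.X76.Det
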