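import Pool.Agent.X76.Det14

set_option autoImplicit false

/-!
Linear arboricity of graphs with homogeneous classes and further edges inside the classes.
-/

namespace Pool.Agent.X76.Det

open Finset SimpleGraph H931R3.LA

theorem subst_conn {V W K : Type} [Fintype V] [Fintype W] [Fintype K] [DecidableEq V]
    (G : SimpleGraph V) (hG : G.Connected) (f : W → V) (g : V → ℕ)
    (hg : ∀ v, {w | f w = v}.ncard = g v) (hpos : ∀ v, 1 ≤ g v) (L q : ℕ)
    (T : Fin L → V → V → ℕ) (h1 : ∀ c u, ∑ v, T c u v = g u) (h2 : ∀ c v, ∑ u, T c u v = g v)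
    (h3 : ∀ u v, G.Adj u v → ∑ c, (T c u v + T c v u) = g u * g v)
    (h3' : ∀ u v, ¬ G.Adj u v → ∑ c, (T c u v + T c v u) = 0)
    (h4 : ∀ c u v, G.Adj u v → 1 ≤ T c u v + T c v u)
    (a b : Fin L → V) (hab : ∀ c, G.Adj (a c) (b c)) (hab1 : ∀ c c', a c ≠ b c')
    (hab2 : ∀ c c', a c = a c' → b c = b c') (hab3 : ∀ c c', b c = b c' → a c = a c')
    (hD : ∀ v, ∑ c, inc (a c) (b c) v ≤ Fintype.card K)
    (X : SimpleGraph W) (hX : ∀ x y, f x ≠ f y → (X.Adj x y → G.Adj (f x) (f y)))
    (F : Fin q → SimpleGraph W) (hF : ∀ i, IsLF (F i)) (hF1 : ∀ i x y, (F i).Adj x y → f x = f y)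
    (hF2 : ∀ x y, f x = f y → X.Adj x y → ∃! i, (F i).Adj x y)
    (slot : V → K → W) (hs1 : ∀ v k, f (slot v k) = v) (hs2 : ∀ v, Function.Injective (slot v))
    (ι : K → Fin q) (hι1 : ∀ v k, ((F (ι k)).neighborSet (slot v k)).ncard ≤ 1)
    (hι2 : ∀ v k k', ι k = ι k' → (F (ι k)).Reachable (slot v k) (slot v k') → k = k') :
    Blow.Rank X (L + q) := by
  classical
  have hKg : ∀ v, Fintype.card K ≤ g v := by
    intro v
    rw [← hg v, ← Nat.card_eq_fintype_card, ← Set.ncard_univ,
      ← Set.ncard_image_of_injective _ (hs2 v)]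
    apply Set.ncard_le_ncard _ (Set.toFinite _)
    rintro _ ⟨k, -, rfl⟩
    exact hs1 v k
  obtain ⟨E, M, m1, m2, m3, m4, m5, m6, m7, m8, m9⟩ := forests G hG f g hg hpos L T h1 h2 h3 h3'
    h4 a b hab (fun v => (hD v).trans (hKg v))
  obtain ⟨Q, hQ1, hQ2⟩ := align_M f M m3 (fun v => ∃ c, a c = v) (by
      intro x y hxy
      obtain ⟨c, ⟨e1, e2⟩ | ⟨e1, e2⟩⟩ := m2 x y hxy
      · constructor
        · rintro - ⟨c', hc'⟩
          exact hab1 c' c (hc'.trans e2)
        · intro _
          exact ⟨c, e1.symm⟩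
      · constructor
        · rintro ⟨c', hc'⟩
          exact absurd (hc'.trans e1) (hab1 c' c)
        · intro h
          exact absurd ⟨c, e2.symm⟩ h) (by
      intro x y x' y' hxy hxy' hf
      obtain ⟨c, ⟨e1, e2⟩ | ⟨e1, e2⟩⟩ := m2 x y hxy
      · obtain ⟨c', ⟨e1', e2'⟩ | ⟨e1', e2'⟩⟩ := m2 x' y' hxy'
        · rw [e2, e2']
          exact hab2 c c' (e1.symm.trans (hf.trans e1'))
        · exact absurd (e1.symm.trans (hf.trans e1')) (hab1 c c')
      · obtain ⟨c', ⟨e1', e2'⟩ | ⟨e1', e2'⟩⟩ := m2 x' y' hxy'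
        · exact absurd (e1.symm.trans (hf.trans e1')).symm (hab1 c' c)
        · rw [e2, e2']
          exact hab3 c c' (e1.symm.trans (hf.trans e1'))) slot hs1 hs2
    (fun v => (m4 v).trans (hD v))
  have hfQ : ∀ x, f (Q.symm x) = f x := by
    intro x
    have h5 := hQ1 (Q.symm x)
    rw [Equiv.apply_symm_apply] at h5
    exact h5.symm
  let Mi : Fin q → SimpleGraph W := fun i =>
    { Adj := fun x y => M.Adj (Q.symm x) (Q.symm y) ∧
        ∃ k, ι k = i ∧ x = slot (f x) k ∧ y = slot (f y) k
      symm := ⟨fun x y h => ⟨h.1.symm, by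
        obtain ⟨-, k, e1, e2, e3⟩ := h
        exact ⟨k, e1, e3, e2⟩⟩⟩
      loopless := ⟨fun x h => M.loopless.irrefl _ h.1⟩ }
  have hMi : ∀ i, IsLF (F i ⊔ Mi i) := by
    intro i
    apply union_LF (F i) (Mi i) (hF i)
    · intro x y z hxy hxz
      exact Q.symm.injective (m3 _ _ _ hxy.1 hxz.1)
    · rintro x y ⟨-, k, rfl, e2, -⟩
      rw [e2]
      exact hι1 _ k
    · rintro x x' y y' ⟨-, k, e1, e2, -⟩ ⟨-, k', e1', e2', -⟩ hr
      have h5 : f x' = f x := by
        refine closed_reach (F i) (fun w => f w = f x) ?_ hr rfl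
        intro w w' hw hww
        exact (hF1 i w w' hww).symm.trans hw
      rw [h5] at e2'
      have h6 : k = k' := by
        apply hι2 (f x) k k' (e1.trans e1'.symm)
        rw [e1, ← e2, ← e2']
        exact hr
      rw [e2, e2', h6]
  let Ef : Fin (L + q) → SimpleGraph W :=
    Fin.addCases (fun c => (E c).comap Q.symm) (fun i => F i ⊔ Mi i)
  have hEl : ∀ c, Ef (Fin.castAdd q c) = (E c).comap Q.symm := fun c => Fin.addCases_left c
  have hEr : ∀ i, Ef (Fin.natAdd L i) = F i ⊔ Mi i := fun i => Fin.addCases_right i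
  apply rank_of_LF X Ef
  · intro c
    refine Fin.addCases (fun c => ?_) (fun i => ?_) c
    · rw [hEl]
      exact LF_comap (E c) (m1 c) Q.symm
    · rw [hEr]
      exact hMi i
  · intro x y hxy
    by_cases hf : f x = f y
    · obtain ⟨i, hi, hi'⟩ := hF2 x y hf hxy
      refine ⟨Fin.natAdd L i, ?_, ?_⟩
      · simp only [hEr]
        exact Or.inl hi
      · intro c
        refine Fin.addCases (fun c => ?_) (fun i' => ?_) c
        · intro h5
          simp only [hEl, comap_adj] at h5
          have h6 := m9 _ _ _ h5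
          rw [hfQ, hfQ, hf] at h6
          exact absurd rfl h6.ne
        · intro h5
          simp only [hEr] at h5
          rcases h5 with h5 | h5
          · rw [hi' i' h5]
          · have h6 := m8 _ _ h5.1
            rw [hfQ, hfQ, hf] at h6
            exact absurd rfl h6.ne
    · have hGxy := hX x y hf hxy
      have h5 := m5 (Q.symm x) (Q.symm y) (by rw [hfQ, hfQ]; exact hGxy)
      rcases h5 with h5 | ⟨c, hc⟩
      · obtain ⟨k, e1, e2⟩ := hQ2 _ _ h5
        rw [Equiv.apply_symm_apply, hfQ] at e1 e2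
        refine ⟨Fin.natAdd L (ι k), ?_, ?_⟩
        · simp only [hEr]
          exact Or.inr ⟨h5, k, rfl, e1, e2⟩
        · intro c
          refine Fin.addCases (fun c => ?_) (fun i' => ?_) c
          · intro h6
            simp only [hEl, comap_adj] at h6
            exact absurd h6 (m6 _ _ c h5)
          · intro h6
            simp only [hEr] at h6
            rcases h6 with h6 | ⟨-, k', e1', e2', -⟩
            · exact absurd (hF1 _ _ _ h6) hf
            · have h7 : k = k' := hs2 (f x) (e1.symm.trans e2')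
              rw [← e1', h7]
      · refine ⟨Fin.castAdd q c, ?_, ?_⟩
        · simp only [hEl, comap_adj]
          exact hc
        · intro c'
          refine Fin.addCases (fun c' => ?_) (fun i' => ?_) c'
          · intro h6
            simp only [hEl, comap_adj] at h6
            rw [m7 _ _ c' c h6 hc]
          · intro h6
            simp only [hEr] at h6
            rcases h6 with h6 | ⟨h7, -⟩
            · exact absurd (hF1 _ _ _ h6) hf
            · exact absurd hc (m6 _ _ c h7)

end Pool.Agent.X76.Det
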