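import Pool.Agent.X76.Det16
import Pool.Agent.X76.Lex4

set_option autoImplicit false

/-!
Linear arboricity of lexicographic products `G[H]`, `G` an arbitrary regular graph.
-/

namespace Pool.Agent.X76.Det

open Finset SimpleGraph H931R3.LA Pool.Agent.X76.Lex

/-- the copies of a graph -/
def copies {V U W : Type} (E : SimpleGraph U) (f : W → V) (u : W → U) : SimpleGraph W where
  Adj x y := f x = f y ∧ E.Adj (u x) (u y)
  symm := ⟨fun _ _ h => ⟨h.1.symm, h.2.symm⟩⟩
  loopless := ⟨fun _ h => E.loopless.irrefl _ h.2⟩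

theorem copies_reach {V U W : Type} (E : SimpleGraph U) (f : W → V) (u : W → U) {x y : W}
    (h : (copies E f u).Reachable x y) : f y = f x ∧ E.Reachable (u x) (u y) := by
  refine closed_reach (copies E f u) (fun w => f w = f x ∧ E.Reachable (u x) (u w)) ?_ h
    ⟨rfl, Reachable.refl _⟩
  intro a b ha hab
  exact ⟨hab.1.symm.trans ha.1, ha.2.trans hab.2.reachable⟩

theorem copies_ncard {V U W : Type} [Finite U] (E : SimpleGraph U) (f : W → V)
    (u : W → U) (hinj : ∀ x y, f x = f y → u x = u y → x = y) (x : W) :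
    ((copies E f u).neighborSet x).ncard ≤ (E.neighborSet (u x)).ncard := by
  apply Set.ncard_le_ncard_of_injOn u
  · intro y hy
    exact hy.2
  · intro y hy y' hy' h
    exact hinj y y' (hy.1.symm.trans hy'.1) h

theorem copies_LF {V U W : Type} [Finite U] (E : SimpleGraph U) (hE : IsLF E) (f : W → V)
    (u : W → U) (hinj : ∀ x y, f x = f y → u x = u y → x = y) : IsLF (copies E f u) := by
  refine ⟨?_, fun x => (copies_ncard E f u hinj x).trans (hE.2 _)⟩
  rw [isAcyclic_iff_forall_adj_isBridge]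
  intro x y hxy
  rw [isBridge_iff]
  intro hr
  have hno : ¬ (E.deleteEdges {s(u x, u y)}).Reachable (u x) (u y) := by
    have h4 := (isAcyclic_iff_forall_adj_isBridge.1 hE.1) hxy.2
    rw [isBridge_iff] at h4
    exact h4
  apply hno
  refine (closed_reach _ (fun w => f w = f x ∧
    (E.deleteEdges {s(u x, u y)}).Reachable (u x) (u w)) ?_ hr ⟨rfl, Reachable.refl _⟩).2
  intro a b ha hab
  rw [deleteEdges_adj, Set.mem_singleton_iff] at hab
  refine ⟨hab.1.1.symm.trans ha.1, ha.2.trans (Adj.reachable ?_)⟩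
  rw [deleteEdges_adj, Set.mem_singleton_iff]
  refine ⟨hab.1.2, ?_⟩
  intro h
  apply hab.2
  rw [Sym2.eq_iff] at h ⊢
  have hfa := ha.1
  have hfb := hab.1.1.symm.trans ha.1
  rcases h with ⟨e1, e2⟩ | ⟨e1, e2⟩
  · exact Or.inl ⟨hinj _ _ hfa e1, hinj _ _ (hfb.trans hxy.1) e2⟩
  · exact Or.inr ⟨hinj _ _ (hfa.trans hxy.1) e1, hinj _ _ hfb e2⟩

theorem lexg_conn {V U W : Type} [Fintype V] [Fintype U] [Fintype W] (G : SimpleGraph V)
    (hG : G.Connected) (r : ℕ) (hr : 0 < r) (hU : 0 < Fintype.card U)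
    (hdeg : ∀ v, (G.neighborSet v).ncard = r)
    (hrm : (Even r ∧ r ≤ 2 * Fintype.card U) ∨ (Even (Fintype.card U) ∧ r ≤ Fintype.card U))
    (H : SimpleGraph U) (f : W → V) (u : W → U)
    (hbij : Function.Bijective (fun w => (f w, u w)))
    (E : ℕ → SimpleGraph U) (hE : ∀ n, IsLF (E n)) (q : ℕ) (ψ : U → U → ℕ)
    (hψ : ∀ x y, H.Adj x y → ∀ i < q, (E i).Adj x y ↔ i = ψ x y)
    (hψ' : ∀ x y, H.Adj x y → ψ x y < q)
    (Z : Finset U) (idx : U → ℕ) (hsel : Sel E q Z idx)
    (hcap : Z = univ ∨ (Fintype.card U ≤ 2 * Z.card ∧ 2 * r ≤ Fintype.card V)) :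
    Blow.Rank (LexG G H f u) (r * Fintype.card U / 2 + q) := by
  classical
  obtain ⟨T, h1, h2, h3, h3', h4⟩ := exists_T G r (Fintype.card U) hdeg hrm
  have hinj : ∀ x y, f x = f y → u x = u y → x = y :=
    fun x y h1 h2 => hbij.1 (Prod.ext h1 h2)
  have hg : ∀ v, {w | f w = v}.ncard = Fintype.card U := by
    intro v
    rw [fib_card f u hbij v, Nat.card_eq_fintype_card]
  -- a matching
  have hmat : ∃ M : Finset (V × V), IsM G M ∧ r * Fintype.card U / 2 ≤ M.card * Z.card := by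
    rcases hcap with hZ | ⟨hZ, hC⟩
    · obtain ⟨M, hM, hc⟩ := exists_matching G r (fun v => (hdeg v).ge) ((r + 1) / 2) (by omega) (by
        have h5 : r + 1 ≤ Fintype.card V := by
          obtain ⟨v⟩ := hG.nonempty
          have h6 : Set.ncard (insert v (G.neighborSet v)) = r + 1 := by
            rw [Set.ncard_insert_of_notMem (by simp) (Set.toFinite _), hdeg]
          have h7 := Set.ncard_le_ncard (Set.subset_univ (insert v (G.neighborSet v)))
            (Set.toFinite _)
          rw [h6, Set.ncard_univ, Nat.card_eq_fintype_card] at h7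
          exact h7
        omega)
      refine ⟨M, hM, ?_⟩
      rw [hc, hZ, card_univ]
      have h5 : r ≤ 2 * ((r + 1) / 2) := by omega
      have h6 := Nat.mul_le_mul_right (Fintype.card U) h5
      rw [mul_assoc] at h6
      omega
    · obtain ⟨M, hM, hc⟩ := exists_matching G r (fun v => (hdeg v).ge) r le_rfl hC
      refine ⟨M, hM, ?_⟩
      rw [hc]
      have h6 := Nat.mul_le_mul_left r hZ
      have h7 : r * (2 * Z.card) = 2 * (r * Z.card) := by ring
      omega
  obtain ⟨M, hM, hMc⟩ := hmat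
  obtain ⟨a, b, hab, hab1, hab2, hab3, hD⟩ := assign G M hM _ _ hMc
  let B : W ≃ V × U := Equiv.ofBijective _ hbij
  have hB1 : ∀ v x, f (B.symm (v, x)) = v := by
    intro v x
    have h5 : B (B.symm (v, x)) = (v, x) := Equiv.apply_symm_apply _ _
    exact congrArg Prod.fst h5
  have hB2 : ∀ v x, u (B.symm (v, x)) = x := by
    intro v x
    have h5 : B (B.symm (v, x)) = (v, x) := Equiv.apply_symm_apply _ _
    exact congrArg Prod.snd h5
  refine subst_conn (K := {x // x ∈ Z}) G hG f (fun _ => Fintype.card U) hg (fun _ => hU) _ q T h1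
    h2 h3 h3' h4 a b hab hab1 hab2 hab3 ?_ (LexG G H f u) ?_ (fun i : Fin q => copies (E i) f u)
    (fun i => copies_LF _ (hE i) f u hinj) (fun i x y h => h.1) ?_
    (fun v x => B.symm (v, x.1)) (fun v x => hB1 v x.1) ?_
    (fun x => ⟨idx x.1, (hsel.1 x.1 x.2).1⟩) ?_ ?_
  · rw [Fintype.card_coe]
    exact hD
  · rintro x y hne (h5 | h5)
    · exact h5
    · exact absurd h5.1 hne
  · rintro x y hf (h5 | ⟨-, h5⟩)
    · rw [hf] at h5
      exact absurd rfl h5.ne
    · refine ⟨⟨ψ (u x) (u y), hψ' _ _ h5⟩, ⟨hf, (hψ _ _ h5 _ (hψ' _ _ h5)).2 rfl⟩, ?_⟩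
      rintro ⟨i, hi⟩ ⟨-, h6⟩
      exact Fin.ext ((hψ _ _ h5 i hi).1 h6)
  · intro v x y h5
    have h6 := B.symm.injective h5
    exact Subtype.ext (Prod.mk.inj h6).2
  · intro v x
    refine (copies_ncard _ f u hinj _).trans ?_
    rw [hB2]
    exact (hsel.1 x.1 x.2).2
  · intro v x x' he hr'
    have h5 := (copies_reach _ f u hr').2
    rw [hB2, hB2] at h5
    exact Subtype.ext (hsel.2 x.1 x.2 x'.1 x'.2 (congrArg Fin.val he) h5)

theorem lexg_rank {V U W : Type} [Finite V] [Fintype U] [Finite W] (G : SimpleGraph V)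
    (r : ℕ) (hr : 0 < r) (hU : 0 < Fintype.card U) (hdeg : ∀ v, (G.neighborSet v).ncard = r)
    (hrm : (Even r ∧ r ≤ 2 * Fintype.card U) ∨ (Even (Fintype.card U) ∧ r ≤ Fintype.card U))
    (H : SimpleGraph U) (f : W → V) (u : W → U)
    (hbij : Function.Bijective (fun w => (f w, u w)))
    (E : ℕ → SimpleGraph U) (hE : ∀ n, IsLF (E n)) (q : ℕ) (ψ : U → U → ℕ)
    (hψ : ∀ x y, H.Adj x y → ∀ i < q, (E i).Adj x y ↔ i = ψ x y)
    (hψ' : ∀ x y, H.Adj x y → ψ x y < q)
    (Z : Finset U) (idx : U → ℕ) (hsel : Sel E q Z idx)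
    (hcap : Z = univ ∨ (Fintype.card U ≤ 2 * Z.card ∧
      ∀ C : G.ConnectedComponent, 2 * r ≤ C.supp.ncard)) :
    Blow.Rank (LexG G H f u) (r * Fintype.card U / 2 + q) := by
  classical
  apply Blow.Rank.comp (LexG G H f u) (fun w => G.connectedComponentMk (f w))
  · intro x y hxy
    rcases hxy with hxy | ⟨hxy, -⟩
    · exact ConnectedComponent.sound (Adj.reachable hxy)
    · rw [hxy]
  intro C
  -- the component
  let VC : Type := {v : V // G.connectedComponentMk v = C}
  let WC : Type := {w : W // G.connectedComponentMk (f w) = C}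
  have iV := Fintype.ofFinite VC
  have iW := Fintype.ofFinite WC
  let GC : SimpleGraph VC := G.comap Subtype.val
  let fC : WC → VC := fun w => ⟨f w.1, w.2⟩
  let uC : WC → U := fun w => u w.1
  have hconn : GC.Connected := C.connected_toSimpleGraph
  have hdC : ∀ v : VC, (GC.neighborSet v).ncard = r := by
    intro v
    rw [← hdeg v.1, ← Set.ncard_image_of_injective _ Subtype.val_injective]
    congr 1
    ext u
    simp only [Set.mem_image, mem_neighborSet]
    constructor
    · rintro ⟨u', h1, rfl⟩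
      exact h1
    · intro h1
      refine ⟨⟨u, ?_⟩, h1, rfl⟩
      rw [← v.2]
      exact ConnectedComponent.sound (Adj.reachable h1.symm)
  have hbC : Function.Bijective (fun w : WC => (fC w, uC w)) := by
    constructor
    · intro w w' h
      have h1 : (f w.1, u w.1) = (f w'.1, u w'.1) := by
        have h2 := congrArg Prod.fst h
        have h3 := congrArg Prod.snd h
        exact Prod.ext (congrArg Subtype.val h2) h3
      exact Subtype.ext (hbij.1 h1)
    · rintro ⟨v, x⟩
      obtain ⟨w, hw⟩ := hbij.2 (v.1, x)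
      have h1 : f w = v.1 := congrArg Prod.fst hw
      have h2 : u w = x := congrArg Prod.snd hw
      exact ⟨⟨w, by rw [h1]; exact v.2⟩, Prod.ext (Subtype.ext h1) h2⟩
  have heq : (LexG G H f u).comap (Subtype.val : WC → W) = LexG GC H fC uC := by
    ext x y
    show (G.Adj (f x.1) (f y.1) ∨ (f x.1 = f y.1 ∧ H.Adj (u x.1) (u y.1))) ↔
      (G.Adj (f x.1) (f y.1) ∨ (fC x = fC y ∧ H.Adj (u x.1) (u y.1)))
    rw [show (fC x = fC y) ↔ (f x.1 = f y.1) from Subtype.ext_iff]
  show Blow.Rank ((LexG G H f u).comap (Subtype.val : WC → W)) _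
  rw [heq]
  refine lexg_conn GC hconn r hr hU hdC hrm H fC uC hbC E hE q ψ hψ hψ' Z idx hsel ?_
  rcases hcap with hZ | ⟨hZ, hC⟩
  · exact Or.inl hZ
  · right
    refine ⟨hZ, ?_⟩
    have h1 := hC C
    have h2 : C.supp.ncard = Fintype.card VC := by
      rw [← Nat.card_coe_set_eq, ← Nat.card_eq_fintype_card]
      rfl
    rwa [h2] at h1

theorem lexg_cov {V U : Type} [Finite V] [Finite U] (G : SimpleGraph V) (H : SimpleGraph U)
    (r q : ℕ) (hr : 0 < r) (hU : 0 < Nat.card U) (hdeg : ∀ v, (G.neighborSet v).ncard = r)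
    (hrm : (Even r ∧ r ≤ 2 * Nat.card U) ∨ (Even (Nat.card U) ∧ r ≤ Nat.card U))
    (hcov : Cov H q)
    (hq : (∀ x, (H.neighborSet x).ncard + 2 ≤ 2 * q) ∨
      ((∀ x, (H.neighborSet x).ncard < 2 * q) ∧
        ∀ C : G.ConnectedComponent, 2 * r ≤ C.supp.ncard)) :
    Cov (LexG G H Prod.fst Prod.snd) (r * Nat.card U / 2 + q) := by
  classical
  have iU := Fintype.ofFinite U
  rw [Nat.card_eq_fintype_card] at hrm hU ⊢
  obtain ⟨c, hlt, hc⟩ := exists_col hcov
  have hbij : Function.Bijective (fun w : V × U => (w.1, w.2)) := Function.bijective_id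
  have hsum : ∀ x, ∑ n ∈ range q, ((cls H c n).neighborSet x).ncard = (H.neighborSet x).ncard :=
    fun x => sum_cls H c q hlt x
  have hψ : ∀ x y, H.Adj x y → ∀ i < q, (cls H c i).Adj x y ↔ i = c s(x, y) := by
    intro x y hxy i _
    constructor
    · exact fun h => h.2.symm
    · exact fun h => ⟨hxy, h.symm⟩
  have hψ' : ∀ x y, H.Adj x y → c s(x, y) < q := fun x y h => hlt x y h
  rcases hq with hq | ⟨hq, hC⟩
  · obtain ⟨idx, hsel⟩ := sel_all (cls H c) q hc (fun x => by rw [hsum]; exact hq x)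
    exact (lexg_rank G r hr hU hdeg hrm H Prod.fst Prod.snd hbij (cls H c) hc q
      (fun x y => c s(x, y)) hψ hψ' univ idx hsel (Or.inl rfl)).cov
  · obtain ⟨Z, idx, hsel, hZ⟩ := sel_half (cls H c) q hc (fun x => by rw [hsum]; exact hq x)
    exact (lexg_rank G r hr hU hdeg hrm H Prod.fst Prod.snd hbij (cls H c) hc q
      (fun x y => c s(x, y)) hψ hψ' Z idx hsel (Or.inr ⟨hZ, hC⟩)).cov

end Pool.Agent.X76.Det
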