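import Pool.Agent.X76.Det14
import Pool.Agent.X76.Det18

set_option autoImplicit false

/-!
Blow-ups as unions of linear forests and a matching with prescribed numbers of edges between the
classes.
-/

namespace Pool.Agent.X76.Det

open Finset SimpleGraph

/-- **Linear forests and a matching.** -/
theorem forests2 {V W : Type} [Fintype V] [Fintype W] [DecidableEq V] (G : SimpleGraph V)
    (hG : G.Connected) (f : W → V) (g : V → ℕ) (hg : ∀ v, {w | f w = v}.ncard = g v)
    (hpos : ∀ v, 1 ≤ g v) (L : ℕ) (T : Fin L → V → V → ℕ)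
    (h1 : ∀ c u, ∑ v, T c u v = g u) (h2 : ∀ c v, ∑ u, T c u v = g v)
    (h3 : ∀ u v, G.Adj u v → ∑ c, (T c u v + T c v u) = g u * g v)
    (h3' : ∀ u v, ¬ G.Adj u v → ∑ c, (T c u v + T c v u) = 0)
    (h4 : ∀ c u v, G.Adj u v → 1 ≤ T c u v + T c v u)
    (p q : Fin L → V) (hpq : ∀ c, G.Adj (p c) (q c))
    (hD : ∀ v, ∑ c, inc (p c) (q c) v ≤ g v) :
    ∃ (E : Fin L → SimpleGraph W) (M : SimpleGraph W),
      (∀ c, H931R3.LA.IsLF (E c)) ∧
      (∀ x y, M.Adj x y → ∃ c, (f x = p c ∧ f y = q c) ∨ (f x = q c ∧ f y = p c)) ∧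
      (∀ x y z, M.Adj x y → M.Adj x z → y = z) ∧
      (∀ v v', v ≠ v' → {x | f x = v ∧ ∃ y, f y = v' ∧ M.Adj x y}.ncard ≤
        ∑ c, hit (p c) (q c) v v') ∧
      (∀ x y, G.Adj (f x) (f y) → M.Adj x y ∨ ∃ c, (E c).Adj x y) ∧
      (∀ x y c, M.Adj x y → ¬ (E c).Adj x y) ∧
      (∀ x y c c', (E c).Adj x y → (E c').Adj x y → c = c') ∧
      (∀ x y, M.Adj x y → G.Adj (f x) (f y)) ∧ ∀ x y c, (E c).Adj x y → G.Adj (f x) (f y) := by
  classical
  have hst := state G hG g hpos L T h1 h2 (by
    intro u v
    split_ifs with h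
    · exact h3 u v h
    · exact h3' u v h) h4 p q hpq hD
  obtain ⟨Y, hY, π, g', M, k1, k2, k3, k4, k5, k6, -, k8⟩ := detachR _ (Option (Option V)) _ _ _ _
    (adet_symm G _) hst rfl
  -- the extra vertices
  have hnz : ¬ ∃ v : V, (none : Option (Option V)) = some (some v) := by simp
  have hns : ¬ ∃ v : V, (some none : Option (Option V)) = some (some v) := by simp
  obtain ⟨z, hz⟩ := Set.ncard_eq_one.1 (k2 none hnz)
  obtain ⟨s, hs⟩ := Set.ncard_eq_one.1 (k2 (some none) hns)
  have hπz : π z = none := by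
    have h6 : z ∈ {y | π y = none} := by rw [hz]; rfl
    exact h6
  have hπs : π s = some none := by
    have h6 : s ∈ {y | π y = some none} := by rw [hs]; rfl
    exact h6
  have hgz : g' z = 1 := by
    have h6 := k4 z (by rw [hπz]; exact hnz)
    rw [h6, hπz]
    rfl
  have hgs : g' s = 1 := by
    have h6 := k4 s (by rw [hπs]; exact hns)
    rw [h6, hπs]
    rfl
  -- the real vertices
  have hev : ∀ v, Nonempty ({w // f w = v} ≃ {y // π y = some (some v)}) := by
    intro v
    apply Finite.card_eq.1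
    have h6 : Nat.card {w // f w = v} = {w | f w = v}.ncard := Nat.card_coe_set_eq _
    have h7 : Nat.card {y // π y = some (some v)} = {y | π y = some (some v)}.ncard :=
      Nat.card_coe_set_eq _
    rw [h6, h7, hg, k1 (some (some v)) ⟨v, rfl⟩]
    rfl
  let ev := fun v => (hev v).some
  let e : W → Y := fun w => (ev (f w) ⟨w, rfl⟩).1
  have heπ : ∀ w, π (e w) = some (some (f w)) := fun w => (ev (f w) ⟨w, rfl⟩).2
  have hev' : ∀ v w (hw : f w = v), e w = (ev v ⟨w, hw⟩).1 := by
    rintro v w rfl
    rfl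
  have hinj : Function.Injective e := by
    intro w w' hww
    have h6 : f w = f w' := by
      have h7 := heπ w
      rw [hww, heπ] at h7
      exact (Option.some.inj (Option.some.inj h7)).symm
    rw [hev' (f w') w h6, hev' (f w') w' rfl] at hww
    have h8 := (ev (f w')).injective (Subtype.ext hww)
    exact congrArg Subtype.val h8
  have hez : ∀ w, e w ≠ z := by
    intro w hw
    have h6 := heπ w
    rw [hw, hπz] at h6
    exact absurd h6 (by simp)
  have hes : ∀ w, e w ≠ s := by
    intro w hw
    have h6 := heπ w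
    rw [hw, hπs] at h6
    exact absurd h6 (by simp)
  have hPe : ∀ w, ∃ v, π (e w) = some (some v) := fun w => ⟨f w, heπ w⟩
  have hge : ∀ w, g' (e w) = 1 := fun w => k3 (e w) (hPe w)
  have hMd : ∀ c w, M c (e w) (e w) = 0 := by
    intro c w
    have h6 := k5.loop (e w) (hPe w)
    rw [hge, Nat.sub_self, Nat.zero_mul, Nat.mul_zero] at h6
    exact (Finset.sum_eq_zero_iff.1 h6) c (mem_univ c)
  have hdeg : ∀ c w, ∑ y, M c (e w) y = 2 := by
    intro c w
    rw [k5.deg c (e w) (hPe w), hge]
  -- multiplicities between real vertices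
  have hmul : ∀ x y, x ≠ y → ∑ c, M c (e x) (e y) = if G.Adj (f x) (f y) then 1 else 0 := by
    intro x y hxy
    rw [k5.mult (e x) (e y) (hinj.ne hxy), hge, hge, heπ, heπ, one_mul, one_mul]
    rfl
  have hz0 : ∀ (c : Fin L) w, M (some c) (e w) z = 0 := by
    intro c w
    have h6 := k6 (some c) (e w) z
    rw [heπ, hπz] at h6
    simp only [mcol] at h6
    omega
  have hz1 : ∀ w, M none (e w) z = 1 := by
    intro w
    have h6 := k5.mult (e w) z (hez w)
    rw [hge, hgz, heπ, hπz, Fintype.sum_option, Finset.sum_eq_zero fun c _ => hz0 c w] at h6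
    simpa [adet] using h6
  have hs1 : ∀ w, ∑ c, M c (e w) s = 1 := by
    intro w
    rw [k5.mult (e w) s (hes w), hge, hgs, heπ, hπs]
    rfl
  have hle1 : ∀ c x y, M c (e x) (e y) ≤ 1 := by
    intro c x y
    by_cases hxy : x = y
    · rw [hxy, hMd]; omega
    · have h6 := hmul x y hxy
      have h7 : M c (e x) (e y) ≤ ∑ c, M c (e x) (e y) :=
        Finset.single_le_sum (f := fun c => M c (e x) (e y)) (fun i _ => Nat.zero_le _)
          (mem_univ c)
      split_ifs at h6 <;> omega
  let E : Option (Fin L) → SimpleGraph W := fun c =>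
    { Adj := fun x y => 1 ≤ M c (e x) (e y) ∧ 1 ≤ M c (e y) (e x)
      symm := ⟨fun x y h => ⟨h.2, h.1⟩⟩
      loopless := ⟨fun x h => by
        have h6 := hMd c x
        have h7 := h.1
        omega⟩ }
  have hEadj : ∀ c x y, (E c).Adj x y ↔ 1 ≤ M c (e x) (e y) := by
    intro c x y
    constructor
    · exact fun h => h.1
    · intro h7
      exact ⟨h7, by rw [k5.symm c (e y) (e x)]; exact h7⟩
  have huniq : ∀ c c' x y, (E c).Adj x y → (E c').Adj x y → c = c' := by
    intro c c' x y h6 h7
    by_contra hne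
    have h8 := hmul x y h6.ne
    rw [hEadj] at h6 h7
    have h9 : M c (e x) (e y) + M c' (e x) (e y) ≤ ∑ c, M c (e x) (e y) := by
      rw [← Finset.add_sum_erase _ _ (mem_univ c)]
      apply Nat.add_le_add_left
      exact Finset.single_le_sum (f := fun c => M c (e x) (e y)) (fun i _ => Nat.zero_le _)
        (Finset.mem_erase.2 ⟨Ne.symm hne, mem_univ c'⟩)
    split_ifs at h8 <;> omega
  have hG' : ∀ c x y, (E c).Adj x y → G.Adj (f x) (f y) := by
    intro c x y h6
    have h8 := hmul x y h6.ne
    rw [hEadj] at h6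
    have h9 : M c (e x) (e y) ≤ ∑ c, M c (e x) (e y) :=
      Finset.single_le_sum (f := fun c => M c (e x) (e y)) (fun i _ => Nat.zero_le _) (mem_univ c)
    by_contra hno
    rw [if_neg hno] at h8
    omega
  have hcov : ∀ x y, G.Adj (f x) (f y) → ∃ c, (E c).Adj x y := by
    intro x y hxy
    have hne : x ≠ y := by
      rintro rfl
      exact hxy.ne rfl
    have h8 := hmul x y hne
    rw [if_pos hxy] at h8
    by_contra hno
    push Not at hno
    have h9 : ∑ c, M c (e x) (e y) = 0 := Finset.sum_eq_zero fun c _ => by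
      have := hno c
      rw [hEadj] at this
      omega
    omega
  -- the edges of the additional class at a vertex
  have hM1 : ∀ x y, (E none).Adj x y → M none (e x) s = 0 ∧
      ∀ y', y' ≠ y → ¬ (E none).Adj x y' := by
    intro x y hxy
    rw [hEadj] at hxy
    have h6 := hdeg none x
    have h7 : M none (e x) z + (M none (e x) (e y) + (M none (e x) s +
        0)) ≤ ∑ t, M none (e x) t := by
      rw [← Finset.add_sum_erase _ _ (mem_univ z)]
      apply Nat.add_le_add_left
      rw [← Finset.add_sum_erase _ _ (Finset.mem_erase.2 ⟨hez y, mem_univ (e y)⟩)]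
      apply Nat.add_le_add_left
      have hsz : s ≠ z := by
        intro h
        rw [h, hπz] at hπs
        exact absurd hπs (by simp)
      exact Finset.single_le_sum (f := fun t => M none (e x) t) (fun i _ => Nat.zero_le _)
        (Finset.mem_erase.2 ⟨(hes y).symm, Finset.mem_erase.2 ⟨hsz, mem_univ s⟩⟩)
    have h8 := hz1 x
    refine ⟨by omega, ?_⟩
    intro y' hy' hxy'
    rw [hEadj] at hxy'
    have h9 : M none (e x) z + (M none (e x) (e y) + M none (e x) (e y')) ≤
        ∑ t, M none (e x) t := by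
      rw [← Finset.add_sum_erase _ _ (mem_univ z)]
      apply Nat.add_le_add_left
      rw [← Finset.add_sum_erase _ _ (Finset.mem_erase.2 ⟨hez y, mem_univ (e y)⟩)]
      apply Nat.add_le_add_left
      exact Finset.single_le_sum (f := fun t => M none (e x) t) (fun i _ => Nat.zero_le _)
        (Finset.mem_erase.2 ⟨hinj.ne hy', Finset.mem_erase.2 ⟨hez y', mem_univ (e y')⟩⟩)
    omega
  refine ⟨fun c => E (some c), E none, ?_, ?_, ?_, ?_, ?_, ?_, ?_, ?_, ?_⟩
  · intro c
    exact lf_of_class' (M (some c)) z e hinj (hdeg (some c)) (k5.conn (some c)) hez _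
      (fun u v huv => huv.1)
  · intro x y hxy
    rw [hEadj] at hxy
    have h6 := hxy.trans (k6 none (e x) (e y))
    rw [heπ, heπ] at h6
    simp only [mcol] at h6
    by_contra hno
    push Not at hno
    have h7 : ∑ c, hit (p c) (q c) (f x) (f y) = 0 := Finset.sum_eq_zero fun c _ => by
      unfold hit
      rw [if_neg]
      rintro (⟨h8, h9⟩ | ⟨h8, h9⟩)
      · exact (hno c).1 h8 h9
      · exact (hno c).2 h8 h9
    omega
  · intro x y y' hxy hxy'
    by_contra hne
    exact (hM1 x y hxy).2 y' (Ne.symm hne) hxy'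
  · intro v v' hvv
    have h6 := k8 none (some (some v)) (some (some v')) (fun h =>
      hvv (Option.some.inj (Option.some.inj h)))
    have h7 : mcol T p q g (∑ v, g v) none (some (some v)) (some (some v')) =
        ∑ c, hit (p c) (q c) v v' := rfl
    rw [← h7, ← h6]
    rw [← Set.ncard_image_of_injective _ hinj]
    refine le_trans (Set.ncard_le_ncard (t := {y | π y = some (some v) ∧
      1 ≤ ∑ y', (if π y' = some (some v') then M none y y' else 0)}) ?_ (Set.toFinite _)) ?_
    · rintro _ ⟨x, ⟨hx, y, hy, hxy⟩, rfl⟩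
      refine ⟨by rw [heπ, hx], ?_⟩
      rw [hEadj] at hxy
      refine hxy.trans ?_
      have h8 : π (e y) = some (some v') := by rw [heπ, hy]
      refine le_trans (le_of_eq ?_) (Finset.single_le_sum (fun i _ => Nat.zero_le _)
        (mem_univ (e y)))
      rw [if_pos h8]
    · rw [Set.ncard_eq_toFinset_card', Set.toFinset_ofPred, Finset.card_filter]
      apply Finset.sum_le_sum
      intro y _
      by_cases h8 : π y = some (some v)
      · rw [if_pos h8]
        split_ifs with h9
        · exact h9.2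
        · exact Nat.zero_le _
      · rw [if_neg h8, if_neg (fun h => h8 h.1)]
  · intro x y hxy
    obtain ⟨c, hc⟩ := hcov x y hxy
    rcases c with _ | c
    · exact Or.inl hc
    · exact Or.inr ⟨c, hc⟩
  · intro x y c h6 h7
    exact absurd (huniq none (some c) x y h6 h7) (by simp)
  · intro x y c c' h6 h7
    exact Option.some.inj (huniq (some c) (some c') x y h6 h7)
  · exact fun x y => hG' none x y
  · exact fun x y c => hG' (some c) x y

end Pool.Agent.X76.Det
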