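import Pool.Agent.X76.Det1

set_option autoImplicit false

/-!
Detachments of edge-coloured multigraphs: splitting off one vertex.
-/

namespace Pool.Agent.X76.Det

open Finset SimpleGraph

/-- the graph of the positive entries -/
def supp {X : Type} (m : X → X → ℕ) : SimpleGraph X where
  Adj x y := x ≠ y ∧ 0 < m x y ∧ 0 < m y x
  symm := ⟨fun _ _ h => ⟨h.1.symm, h.2.2, h.2.1⟩⟩
  loopless := ⟨fun _ h => h.1 rfl⟩

/-- an edge-coloured multigraph with vertex weights `g`, connected colour classes `m c` of degrees
`2 g`, with `g x * g y * a x y` edges between `x` and `y`, and with `g x * (g x - 1) * a x x / 2`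
loops at `x`; a loop contributes `2` to `m c x x` -/
structure St {C X : Type} [Fintype C] [Fintype X] (g : X → ℕ) (a : X → X → ℕ)
    (m : C → X → X → ℕ) : Prop where
  pos : ∀ x, 1 ≤ g x
  symm : ∀ c x y, m c x y = m c y x
  diag : ∀ c x, Even (m c x x)
  mult : ∀ x y, x ≠ y → ∑ c, m c x y = g x * g y * a x y
  loop : ∀ x, ∑ c, m c x x = g x * ((g x - 1) * a x x)
  deg : ∀ c x, ∑ y, m c x y = 2 * g x
  conn : ∀ c, (supp (m c)).Connected

theorem even_sum_symm {X : Type} [DecidableEq X] (f : X → X → ℕ) (hs : ∀ x y, f x y = f y x)
    (h0 : ∀ x, Even (f x x)) (K : Finset X) : Even (∑ x ∈ K, ∑ y ∈ K, f x y) := by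
  induction K using Finset.induction_on with
  | empty => simp
  | insert a K ha ih =>
    rw [Finset.sum_insert ha]
    have h1 : ∀ x, ∑ y ∈ insert a K, f x y = f x a + ∑ y ∈ K, f x y :=
      fun x => Finset.sum_insert ha
    simp only [h1]
    rw [Finset.sum_add_distrib]
    have h2 : ∑ x ∈ K, f x a = ∑ x ∈ K, f a x := Finset.sum_congr rfl fun x _ => hs x a
    rw [h2]
    have h3 : f a a + ∑ y ∈ K, f a y + (∑ x ∈ K, f a x + ∑ x ∈ K, ∑ y ∈ K, f x y) =
        f a a + ((∑ y ∈ K, f a y + ∑ x ∈ K, f a x) + ∑ x ∈ K, ∑ y ∈ K, f x y) := by ring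
    rw [h3]
    exact (h0 a).add ((Even.add_self _).add ih)

/-- the graph without the vertex `v` -/
def del {X : Type} (S : SimpleGraph X) (v : X) : SimpleGraph X where
  Adj x y := x ≠ v ∧ y ≠ v ∧ S.Adj x y
  symm := ⟨fun _ _ h => ⟨h.2.1, h.1, h.2.2.symm⟩⟩
  loopless := ⟨fun x h => S.loopless.irrefl x h.2.2⟩

theorem reach_last {X : Type} (S : SimpleGraph X) (v : X) {y u : X} (p : S.Walk y u) (hu : u = v)
    (hy : y ≠ v) : ∃ z, (del S v).Reachable y z ∧ S.Adj z v := by
  induction p with
  | nil => exact absurd hu hy
  | @cons a b c h p ih =>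
    by_cases hb : b = v
    · exact ⟨a, Reachable.refl _, hb ▸ h⟩
    · obtain ⟨z, h1, h2⟩ := ih hu hb
      have h3 : (del S v).Adj a b := ⟨hy, hb, h⟩
      exact ⟨z, h3.reachable.trans h1, h2⟩

theorem exists_rep {X : Type} (H : SimpleGraph X) :
    ∃ κ : X → X, ∀ y z, κ y = κ z ↔ H.Reachable y z := by
  classical
  refine ⟨fun y => (H.connectedComponentMk y).out, fun y z => ?_⟩
  constructor
  · intro h
    have h1 := congrArg H.connectedComponentMk h
    have h2 : ∀ y, H.connectedComponentMk (H.connectedComponentMk y).out =
        H.connectedComponentMk y := fun y => Quot.out_eq _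
    simp only [h2] at h1
    exact ConnectedComponent.exact h1
  · intro h
    have h1 : H.connectedComponentMk y = H.connectedComponentMk z := ConnectedComponent.sound h
    simp only [h1]

/-- the weights after the splitting -/
def gs {X : Type} [DecidableEq X] (g : X → ℕ) (v : X) : Option X → ℕ
  | none => 1
  | some x => if x = v then g v - 1 else g x

/-- the multiplicities after the splitting -/
def ms {X : Type} [DecidableEq X] (m : X → X → ℕ) (T : X → ℕ) (v : X) : Option X → Option X → ℕ
  | none, none => 0
  | none, some y => T y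
  | some x, none => T x
  | some x, some y => if x = v then (if y = v then m v v - 2 * T v else m v y - T y) else
      if y = v then m v x - T x else m x y

theorem step {C X : Type} [Fintype C] [Fintype X] [DecidableEq X] (g : X → ℕ) (a : X → X → ℕ)
    (ha : ∀ x y, a x y = a y x)
    (m : C → X → X → ℕ) (h : St g a m) (v : X) (hv : 2 ≤ g v) :
    ∃ m' : C → Option X → Option X → ℕ,
      St (gs g v) (fun x y => a (x.getD v) (y.getD v)) m' := by
  classical
  choose κ hκ using fun c => exists_rep (del (supp (m c)) v)
  let A : C → X → ℕ := fun c k => ∑ y, if κ c y = k then m c v y else 0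
  have hAle : ∀ c k, A c k ≤ 2 * g v := by
    intro c k
    rw [← h.deg c v]
    apply Finset.sum_le_sum
    intro y _
    split_ifs <;> omega
  obtain ⟨T, hT1, hT2, hT3, hT4⟩ := select (fun c y => m c v y)
    (fun c y => if y = v then m c v v / 2 else m c v y) κ (g v) (by omega)
    (fun y => if y = v then (g v - 1) * a v v else g y * a v y)
    (fun c k => if A c k ≤ 2 then 1 else 2)
    (by
      intro c y
      split_ifs with hy
      · rw [hy]
        obtain ⟨j, hj⟩ := h.diag c v
        rw [hj, show (j + j) / 2 = j by omega]
        nlinarith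
      · nlinarith)
    (by intro c; rw [h.deg]; ring)
    (by
      intro y
      split_ifs with hy
      · rw [hy]; exact h.loop v
      · rw [h.mult v y (Ne.symm hy)]; ring)
    (by
      intro c k
      have h1 := hAle c k
      change A c k ≤ _
      split_ifs with h2
      · omega
      · omega)
  have hTv : ∀ c, 2 * T c v ≤ m c v v := by
    intro c
    have := hT1 c v
    rw [if_pos rfl] at this
    omega
  have hTy : ∀ c y, y ≠ v → T c y ≤ m c v y := by
    intro c y hy
    have := hT1 c y
    rw [if_neg hy] at this
    exact this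
  have hTle : ∀ c y, T c y ≤ m c v y := by
    intro c y
    by_cases hy : y = v
    · rw [hy]; have := hTv c; omega
    · exact hTy c y hy
  -- components of other vertices do not contain `v`
  have hcomp : ∀ c y z, y ≠ v → κ c z = κ c y → z ≠ v := by
    rintro c y z hy hz rfl
    obtain ⟨p⟩ := (hκ c z y).1 hz
    cases p with
    | nil => exact hy rfl
    | cons h3 _ => exact h3.1 rfl
  -- the number of edges to a component is even
  have hpar : ∀ c y, y ≠ v → Even (A c (κ c y)) := by
    intro c y hy
    let K : Finset X := univ.filter fun z => κ c z = κ c y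
    have hKv : v ∉ K := by
      intro h1
      rw [mem_filter] at h1
      exact hcomp c y v hy h1.2 rfl
    have h1 : ∑ z ∈ K, ∑ x, m c z x = ∑ z ∈ K, ∑ x ∈ K, m c z x + ∑ z ∈ K, m c z v := by
      rw [← Finset.sum_add_distrib]
      apply Finset.sum_congr rfl
      intro z hz
      have hz' := (mem_filter.1 hz).2
      have h2 : ∑ x, m c z x = ∑ x ∈ insert v K, m c z x := by
        symm
        apply Finset.sum_subset (Finset.subset_univ _)
        intro x _ hx
        rw [mem_insert, not_or] at hx
        by_contra h3
        apply hx.2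
        rw [mem_filter]
        refine ⟨mem_univ _, ?_⟩
        rw [← hz']
        symm
        rw [hκ]
        apply Adj.reachable
        refine ⟨hcomp c y z hy hz', hx.1, ?_, Nat.pos_of_ne_zero h3, ?_⟩
        · rintro rfl
          exact hx.2 hz
        · rw [h.symm]; exact Nat.pos_of_ne_zero h3
      rw [h2, Finset.sum_insert hKv, add_comm]
    have h2 : A c (κ c y) = ∑ z ∈ K, m c z v := by
      simp only [A, K]
      rw [Finset.sum_filter]
      apply Finset.sum_congr rfl
      intro z _
      rw [h.symm c v z]
    have h3 : ∑ z ∈ K, ∑ x, m c z x = 2 * ∑ z ∈ K, g z := by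
      rw [Finset.mul_sum]
      exact Finset.sum_congr rfl fun z _ => h.deg c z
    have h4 := even_sum_symm (m c) (h.symm c) (h.diag c) K
    rw [h2]
    rw [h1] at h3
    have h5 : Even (∑ z ∈ K, ∑ x ∈ K, m c z x + ∑ z ∈ K, m c z v) := by
      rw [h3]; exact even_two_mul _
    exact (Nat.even_add.1 h5).1 h4
  -- every component stays attached to `v`
  have hatt : ∀ c y, y ≠ v → ∃ z, z ≠ v ∧ (del (supp (m c)) v).Reachable y z ∧
      T c z < m c v z := by
    intro c y hy
    obtain ⟨p⟩ := (h.conn c).preconnected y v
    obtain ⟨z, hz1, hz2⟩ := reach_last (supp (m c)) v p rfl hy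
    have hApos : 0 < A c (κ c y) := by
      have h1 : m c v z ≤ A c (κ c y) := by
        have h2 := Finset.single_le_sum (f := fun x => if κ c x = κ c y then m c v x else 0)
          (fun i _ => Nat.zero_le _) (mem_univ z)
        rw [if_pos ((hκ c z y).2 hz1.symm)] at h2
        exact h2
      exact lt_of_lt_of_le hz2.2.2 h1
    have hA2 : 2 ≤ A c (κ c y) := by
      obtain ⟨j, hj⟩ := hpar c y hy
      omega
    have hlt : (∑ x, if κ c x = κ c y then T c x else 0) < A c (κ c y) := by
      have h1 := hT4 c (κ c y)
      split_ifs at h1 with h2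
      · omega
      · omega
    by_contra hno
    push Not at hno
    apply absurd hlt
    rw [not_lt]
    apply Finset.sum_le_sum
    intro x _
    split_ifs with h1
    · exact hno x (hcomp c y x hy h1) ((hκ c y x).1 h1.symm)
    · exact le_rfl
  refine ⟨fun c => ms (m c) (T c) v, ?_, ?_, ?_, ?_, ?_, ?_, ?_⟩
  · rintro (_ | x)
    · exact le_rfl
    · simp only [gs]
      split_ifs
      · omega
      · exact h.pos x
  · rintro c (_ | x) (_ | y)
    · rfl
    · rfl
    · rfl
    · simp only [ms]
      by_cases hx : x = v
      · by_cases hy : y = v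
        · rw [hx, hy]
        · rw [if_pos hx, if_neg hy, if_neg hy, if_pos hx]
      · by_cases hy : y = v
        · rw [if_neg hx, if_pos hy, if_pos hy, if_neg hx]
        · rw [if_neg hx, if_neg hy, if_neg hy, if_neg hx, h.symm]
  · rintro c (_ | x)
    · simp [ms]
    · simp only [ms]
      by_cases hx : x = v
      · rw [if_pos hx, if_pos hx]
        rw [Nat.even_sub (hTv c)]
        exact ⟨fun _ => even_two_mul _, fun _ => h.diag c v⟩
      · rw [if_neg hx, if_neg hx]; exact h.diag c x
  · rintro (_ | x) (_ | y) hxy
    · exact absurd rfl hxy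
    · simp only [ms, gs, Option.getD_none, Option.getD_some]
      rw [hT3]
      by_cases hy : y = v
      · rw [if_pos hy, if_pos hy, hy]; ring
      · rw [if_neg hy, if_neg hy]; ring
    · simp only [ms, gs, Option.getD_none, Option.getD_some]
      rw [hT3]
      by_cases hx : x = v
      · rw [if_pos hx, if_pos hx, hx]; ring
      · rw [if_neg hx, if_neg hx, ha x v]; ring
    · have hxy' : x ≠ y := fun e => hxy (by rw [e])
      simp only [ms, gs, Option.getD_some]
      by_cases hx : x = v
      · subst hx
        simp only [if_true, if_neg hxy'.symm]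
        rw [Finset.sum_tsub_distrib _ (fun c _ => hTle c y), h.mult x y hxy', hT3,
          if_neg hxy'.symm]
        obtain ⟨e, he⟩ : ∃ e, g x = e + 1 := ⟨g x - 1, by omega⟩
        rw [he, Nat.add_sub_cancel]
        have h1 : (e + 1) * g y * a x y = e * g y * a x y + g y * a x y := by ring
        rw [h1, Nat.add_sub_cancel]
      · simp only [if_neg hx]
        by_cases hy : y = v
        · subst hy
          simp only [if_true]
          rw [Finset.sum_tsub_distrib _ (fun c _ => hTle c x), hT3, if_neg hx,
            h.mult y x hxy'.symm]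
          obtain ⟨e, he⟩ : ∃ e, g y = e + 1 := ⟨g y - 1, by omega⟩
          rw [he, Nat.add_sub_cancel, ha y x]
          have h7 : (e + 1) * g x * a x y = g x * e * a x y + g x * a x y := by ring
          rw [h7, Nat.add_sub_cancel]
        · simp only [if_neg hy]
          exact h.mult x y hxy'
  · rintro (_ | x)
    · simp [ms, gs]
    · simp only [ms, gs, Option.getD_some]
      by_cases hx : x = v
      · subst hx
        simp only [if_true]
        rw [Finset.sum_tsub_distrib _ (fun c _ => hTv c), h.loop, ← Finset.mul_sum, hT3,
          if_pos rfl]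
        obtain ⟨e, he⟩ : ∃ e, g x = e + 2 := ⟨g x - 2, by omega⟩
        rw [he, show e + 2 - 1 = e + 1 by omega, Nat.add_sub_cancel]
        have h1 : (e + 2) * ((e + 1) * a x x) =
            (e + 1) * (e * a x x) + 2 * ((e + 1) * a x x) := by ring
        rw [h1, Nat.add_sub_cancel]
      · simp only [if_neg hx]
        exact h.loop x
  · rintro c (_ | x)
    · rw [Fintype.sum_option]
      simp only [ms, gs, zero_add]
      rw [hT2]
    · rw [Fintype.sum_option]
      simp only [ms, gs]
      by_cases hx : x = v
      · subst hx
        simp only [if_true]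
        have h1 := h.deg c x
        have h2 := hT2 c
        rw [← Finset.add_sum_erase _ _ (mem_univ x)] at h1 h2 ⊢
        simp only [if_true]
        have h3 : ∑ y ∈ univ.erase x, (if y = x then m c x x - 2 * T c x else m c x y - T c y) =
            ∑ y ∈ univ.erase x, (m c x y - T c y) := by
          apply Finset.sum_congr rfl
          intro y hy
          rw [if_neg (Finset.ne_of_mem_erase hy)]
        rw [h3, Finset.sum_tsub_distrib _ (fun y _ => hTle c y)]
        have h4 : ∑ y ∈ univ.erase x, T c y ≤ ∑ y ∈ univ.erase x, m c x y :=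
          Finset.sum_le_sum fun y _ => hTle c y
        have h5 := hTv c
        omega
      · simp only [if_neg hx]
        have h1 := h.deg c x
        rw [← Finset.add_sum_erase _ _ (mem_univ v)] at h1 ⊢
        simp only [if_true]
        have h2 : ∑ y ∈ univ.erase v, (if y = v then m c v x - T c x else m c x y) =
            ∑ y ∈ univ.erase v, m c x y := by
          apply Finset.sum_congr rfl
          intro y hy
          rw [if_neg (Finset.ne_of_mem_erase hy)]
        rw [h2]
        have h3 := hTle c x
        rw [h.symm c v x] at h3 ⊢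
        omega
  · intro c
    have hlift : ∀ x y, (del (supp (m c)) v).Reachable x y →
        (supp (ms (m c) (T c) v)).Reachable (some x) (some y) := by
      rintro x y ⟨p⟩
      induction p with
      | nil => exact Reachable.refl _
      | @cons x z y h1 p ih =>
        refine Reachable.trans (Adj.reachable ?_) ih
        obtain ⟨h2, h3, h4, h5, h6⟩ := h1
        refine ⟨fun e => h4 (Option.some.inj e), ?_, ?_⟩
        · simp only [ms, if_neg h2, if_neg h3]; exact h5
        · simp only [ms, if_neg h2, if_neg h3]; exact h6
    have hv' : ∀ y, (supp (ms (m c) (T c) v)).Reachable (some y) (some v) := by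
      intro y
      by_cases hy : y = v
      · rw [hy]
      · obtain ⟨z, hzv, h1, h2⟩ := hatt c y hy
        refine (hlift y z h1).trans (Adj.reachable ?_)
        refine ⟨fun e => hzv (Option.some.inj e), ?_, ?_⟩
        · simp only [ms, if_neg hzv, if_true]; omega
        · simp only [ms, if_neg hzv, if_true]; omega
    have hn : (supp (ms (m c) (T c) v)).Reachable none (some v) := by
      obtain ⟨y, hy⟩ : ∃ y, 0 < T c y := by
        by_contra hno
        push Not at hno
        have h1 := hT2 c
        have h2 : ∑ y, T c y = 0 := Finset.sum_eq_zero fun y _ => by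
          have := hno y; omega
        omega
      refine Reachable.trans (Adj.reachable (?_ : (supp (ms (m c) (T c) v)).Adj none (some y)))
        (hv' y)
      exact ⟨by simp, hy, hy⟩
    refine (connected_iff _).2 ⟨?_, ⟨none⟩⟩
    rintro (_ | x) (_ | y)
    · exact Reachable.refl _
    · exact hn.trans (hv' y).symm
    · exact (hv' x).trans hn.symm
    · exact (hv' x).trans (hv' y).symm

end Pool.Agent.X76.Det
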