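import Pool.Agent.X76.Det21

set_option autoImplicit false

/-!
Linear arboricity of lexicographic products `G[H]`, without conditions on the components of `G`.
-/

namespace Pool.Agent.X76.Det

open Finset SimpleGraph H931R3.LA Pool.Agent.X76.Lex

theorem lexp_conn {V U W : Type} [Fintype V] [Fintype U] [Fintype W] (G : SimpleGraph V)
    (hG : G.Connected) (r : ℕ) (hU : 0 < Fintype.card U)
    (hdeg : ∀ v, (G.neighborSet v).ncard = r)
    (hrm : (Even r ∧ r ≤ 2 * Fintype.card U) ∨ (Even (Fintype.card U) ∧ r ≤ Fintype.card U))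
    (H : SimpleGraph U) (f : W → V) (u : W → U)
    (hbij : Function.Bijective (fun w => (f w, u w)))
    (E : ℕ → SimpleGraph U) (hE : ∀ n, IsLF (E n)) (q : ℕ) (ψ : U → U → ℕ)
    (hψ : ∀ x y, H.Adj x y → ∀ i < q, (E i).Adj x y ↔ i = ψ x y)
    (hψ' : ∀ x y, H.Adj x y → ψ x y < q)
    (idx : U → ℕ) (τ : U → Bool) (hty : Typed E q idx τ)
    (hτ : Fintype.card U ≤ 2 * (univ.filter fun x => τ x = true).card) :
    Blow.Rank (LexG G H f u) (r * Fintype.card U / 2 + q) := by
  classical
  have hne : Nonempty V := hG.nonempty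
  obtain ⟨T, h1, h2, h3, h3', h4⟩ := exists_T G r (Fintype.card U) hdeg hrm
  have hinj : ∀ x y, f x = f y → u x = u y → x = y :=
    fun x y h1 h2 => hbij.1 (Prod.ext h1 h2)
  have hg : ∀ v, {w | f w = v}.ncard = Fintype.card U := by
    intro v
    rw [fib_card f u hbij v, Nat.card_eq_fintype_card]
  have hev : Even (r * Fintype.card U) := by
    rcases hrm with h | h
    · exact h.1.mul_right _
    · exact h.1.mul_left _
  obtain ⟨P, hP1, hP2⟩ := exists_path G r (fun v => (hdeg v).ge) r le_rfl
  obtain ⟨J, κ, hJ1, hJ2, hJ3⟩ := assign_path τ hτ r hev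
  -- positions
  let pos : V → ℕ := fun v => if h : ∃ i, i ≤ r ∧ P i = v then h.choose else 0
  have hpos : ∀ i, i ≤ r → pos (P i) = i := by
    intro i hi
    have h5 : ∃ i', i' ≤ r ∧ P i' = P i := ⟨i, hi, rfl⟩
    simp only [pos, dif_pos h5]
    exact hP2 _ h5.choose_spec.1 i hi h5.choose_spec.2
  have hJr : ∀ c, J c ≤ r ∧ J c + 1 ≤ r := fun c => ⟨(hJ1 c).le, hJ1 c⟩
  have hD : ∀ v, ∑ c, inc (P (J c)) (P (J c + 1)) v ≤ Fintype.card U := by
    intro v
    have h5 : ∑ c, inc (P (J c)) (P (J c + 1)) v =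
        (univ.filter fun c => v = P (J c) ∨ v = P (J c + 1)).card := by
      rw [Finset.card_filter]
      rfl
    rw [h5]
    refine le_trans ?_ (le_of_eq (card_univ (α := U)))
    apply card_le_card_of_injOn κ (fun _ _ => Finset.mem_coe.2 (mem_univ _))
    intro c hc c' hc' hk
    rw [Finset.mem_coe, mem_filter] at hc hc'
    apply hJ3 c c' _ hk
    have hpar : Even (J c) ↔ Even (J c') := by rw [← hJ2, ← hJ2, hk]
    have e1 : pos v = J c ∨ pos v = J c + 1 := by
      rcases hc.2 with h | h
      · left; rw [h]; exact hpos _ (hJr c).1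
      · right; rw [h]; exact hpos _ (hJr c).2
    have e2 : pos v = J c' ∨ pos v = J c' + 1 := by
      rcases hc'.2 with h | h
      · left; rw [h]; exact hpos _ (hJr c').1
      · right; rw [h]; exact hpos _ (hJr c').2
    rw [Nat.even_iff, Nat.even_iff] at hpar
    omega
  obtain ⟨E', M, m1, m2, m3, m4, m5, m6, m7, m8, m9⟩ := forests2 G hG f (fun _ => Fintype.card U)
    hg (fun _ => hU) _ T h1 h2 h3 h3' h4 (fun c => P (J c)) (fun c => P (J c + 1))
    (fun c => hP1 (J c) (hJ1 c)) hD
  have n2 : ∀ x y, M.Adj x y → pos (f y) = pos (f x) + 1 ∨ pos (f x) = pos (f y) + 1 := by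
    intro x y hxy
    obtain ⟨c, ⟨e1, e2⟩ | ⟨e1, e2⟩⟩ := m2 x y hxy
    · left; rw [e1, e2, hpos _ (hJr c).1, hpos _ (hJr c).2]
    · right; rw [e1, e2, hpos _ (hJr c).1, hpos _ (hJr c).2]
  have nP : ∀ x y, M.Adj x y → f x = P (pos (f x)) ∧ pos (f x) ≤ r := by
    intro x y hxy
    obtain ⟨c, ⟨e1, e2⟩ | ⟨e1, e2⟩⟩ := m2 x y hxy
    · rw [e1, hpos _ (hJr c).1]; exact ⟨rfl, (hJr c).1⟩
    · rw [e1, hpos _ (hJr c).2]; exact ⟨rfl, (hJr c).2⟩
  have n3 : ∀ x y x' y', M.Adj x y → M.Adj x' y' → pos (f x) = pos (f x') → f x = f x' := by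
    intro x y x' y' hxy hxy' hp
    rw [(nP x y hxy).1, (nP x' y' hxy').1, hp]
  have nload : ∀ v, {x | f x = v ∧ ∃ y, M.Adj x y ∧ pos (f y) = pos v + 1}.ncard ≤
      (univ.filter fun c => J c = pos v).card := by
    intro v
    rcases Set.eq_empty_or_nonempty {x | f x = v ∧ ∃ y, M.Adj x y ∧ pos (f y) = pos v + 1} with
      h5 | ⟨x0, hx0, y0, hxy0, hp0⟩
    · rw [h5, Set.ncard_empty]
      exact Nat.zero_le _
    have hv : v = P (pos v) := by
      have := (nP x0 y0 hxy0).1
      rw [hx0] at this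
      exact this
    have hv1 : pos v + 1 ≤ r := by
      have := (nP y0 x0 hxy0.symm).2
      rw [hp0] at this
      exact this
    have hne' : v ≠ P (pos v + 1) := by
      intro h
      have h6 := hpos _ hv1
      rw [← h] at h6
      omega
    refine le_trans (Set.ncard_le_ncard
      (t := {x | f x = v ∧ ∃ y, f y = P (pos v + 1) ∧ M.Adj x y}) ?_ (Set.toFinite _)) ?_
    · rintro x ⟨hx, y, hxy, hp⟩
      refine ⟨hx, y, ?_, hxy⟩
      rw [← hp]
      exact (nP y x hxy.symm).1
    · refine (m4 v (P (pos v + 1)) hne').trans ?_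
      rw [Finset.card_filter]
      apply Finset.sum_le_sum
      intro c _
      by_cases hc : J c = pos v
      · rw [if_pos hc]
        unfold hit
        split_ifs <;> omega
      · rw [if_neg hc]
        unfold hit
        rw [if_neg]
        rintro (⟨e1, -⟩ | ⟨e1, e2⟩)
        · apply hc
          rw [e1, hpos _ (hJr c).1]
        · have h6 := hpos _ (hJr c).2
          rw [← e1] at h6
          have h7 := hpos _ (hJr c).1
          rw [← e2, hpos _ hv1] at h7
          omega
  obtain ⟨Q, hQ1, hQ2⟩ := align_P f u hbij M m3 pos τ J κ hJ2 hJ3 n2 n3 nload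
  have hfQ : ∀ x, f (Q.symm x) = f x := by
    intro x
    have h5 := hQ1 (Q.symm x)
    rw [Equiv.apply_symm_apply] at h5
    exact h5.symm
  -- the aligned edges
  have hal : ∀ x y, M.Adj (Q.symm x) (Q.symm y) → pos (f y) = pos (f x) + 1 →
      u x = u y ∧ (τ (u x) = true ↔ Even (pos (f x))) := by
    intro x y hxy hp
    obtain ⟨c, e1, e2, e3⟩ := hQ2 _ _ hxy (by rw [hfQ, hfQ]; exact hp)
    rw [Equiv.apply_symm_apply] at e2 e3
    rw [hfQ] at e1
    refine ⟨e2.trans e3.symm, ?_⟩
    rw [e2, hJ2, e1]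
  have hal' : ∀ x y, M.Adj (Q.symm x) (Q.symm y) → u x = u y := by
    intro x y hxy
    rcases n2 _ _ hxy with h | h
    · rw [hfQ, hfQ] at h
      exact (hal x y hxy h).1
    · rw [hfQ, hfQ] at h
      exact (hal y x hxy.symm h).1.symm
  let Mi : Fin q → SimpleGraph W := fun i =>
    { Adj := fun x y => M.Adj (Q.symm x) (Q.symm y) ∧ idx (u x) = i.val
      symm := ⟨fun x y h => ⟨h.1.symm, by rw [← hal' x y h.1]; exact h.2⟩⟩
      loopless := ⟨fun x h => M.loopless.irrefl _ h.1⟩ }
  have hMi : ∀ i : Fin q, IsLF (copies (E i) f u ⊔ Mi i) := by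
    intro i
    apply product_LF E hE q idx τ hty f u hinj pos (Mi i)
    · intro x y z hxy hxz
      exact Q.symm.injective (m3 _ _ _ hxy.1 hxz.1)
    · intro x y hxy
      have h5 := n2 _ _ hxy.1
      rw [hfQ, hfQ] at h5
      exact h5
    · intro x y x' y' hxy hxy' hp
      have h5 := n3 _ _ _ _ hxy.1 hxy'.1
      rw [hfQ, hfQ] at h5
      exact h5 hp
    · intro x y hxy
      exact hal' x y hxy.1
    · intro x y hxy hp
      exact (hal x y hxy.1 hp).2
    · intro x y hxy
      exact hxy.2
  let Ef : Fin (r * Fintype.card U / 2 + q) → SimpleGraph W :=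
    Fin.addCases (fun c => (E' c).comap Q.symm) (fun i => copies (E i) f u ⊔ Mi i)
  have hEl : ∀ c, Ef (Fin.castAdd q c) = (E' c).comap Q.symm := fun c => Fin.addCases_left c
  have hEr : ∀ i, Ef (Fin.natAdd (r * Fintype.card U / 2) i) = copies (E i) f u ⊔ Mi i :=
    fun i => Fin.addCases_right i
  apply rank_of_LF _ Ef
  · intro c
    refine Fin.addCases (fun c => ?_) (fun i => ?_) c
    · rw [hEl]
      exact LF_comap (E' c) (m1 c) Q.symm
    · rw [hEr]
      exact hMi i
  · intro x y hxy
    by_cases hf : f x = f y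
    · have hH : H.Adj (u x) (u y) := by
        rcases hxy with h | h
        · rw [hf] at h
          exact absurd rfl h.ne
        · exact h.2
      have hi := hψ' _ _ hH
      refine ⟨Fin.natAdd _ ⟨ψ (u x) (u y), hi⟩, ?_, ?_⟩
      · simp only [hEr]
        exact Or.inl ⟨hf, (hψ _ _ hH _ hi).2 rfl⟩
      · intro c
        refine Fin.addCases (fun c => ?_) (fun i' => ?_) c
        · intro h5
          simp only [hEl, comap_adj] at h5
          have h6 := m9 _ _ _ h5
          rw [hfQ, hfQ, hf] at h6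
          exact absurd rfl h6.ne
        · intro h5
          simp only [hEr] at h5
          rcases h5 with h5 | h5
          · have h6 := (hψ _ _ hH i'.val i'.2).1 h5.2
            congr 1
            exact Fin.ext h6
          · have h6 := m8 _ _ h5.1
            rw [hfQ, hfQ, hf] at h6
            exact absurd rfl h6.ne
    · have hGxy : G.Adj (f x) (f y) := by
        rcases hxy with h | h
        · exact h
        · exact absurd h.1 hf
      have h5 := m5 (Q.symm x) (Q.symm y) (by rw [hfQ, hfQ]; exact hGxy)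
      rcases h5 with h5 | ⟨c, hc⟩
      · refine ⟨Fin.natAdd _ ⟨idx (u x), (hty.1 (u x)).1⟩, ?_, ?_⟩
        · simp only [hEr]
          exact Or.inr ⟨h5, rfl⟩
        · intro c
          refine Fin.addCases (fun c => ?_) (fun i' => ?_) c
          · intro h6
            simp only [hEl, comap_adj] at h6
            exact absurd h6 (m6 _ _ c h5)
          · intro h6
            simp only [hEr] at h6
            rcases h6 with h6 | h6
            · exact absurd h6.1 hf
            · congr 1
              exact Fin.ext h6.2.symm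
      · refine ⟨Fin.castAdd q c, ?_, ?_⟩
        · simp only [hEl, comap_adj]
          exact hc
        · intro c'
          refine Fin.addCases (fun c' => ?_) (fun i' => ?_) c'
          · intro h6
            simp only [hEl, comap_adj] at h6
            rw [m7 _ _ c' c h6 hc]
          · intro h6
            simp only [hEr] at h6
            rcases h6 with h6 | h6
            · exact absurd h6.1 hf
            · exact absurd hc (m6 _ _ c h6.1)

theorem lexp_rank {V U W : Type} [Finite V] [Fintype U] [Finite W] (G : SimpleGraph V)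
    (r : ℕ) (hU : 0 < Fintype.card U) (hdeg : ∀ v, (G.neighborSet v).ncard = r)
    (hrm : (Even r ∧ r ≤ 2 * Fintype.card U) ∨ (Even (Fintype.card U) ∧ r ≤ Fintype.card U))
    (H : SimpleGraph U) (f : W → V) (u : W → U)
    (hbij : Function.Bijective (fun w => (f w, u w)))
    (E : ℕ → SimpleGraph U) (hE : ∀ n, IsLF (E n)) (q : ℕ) (ψ : U → U → ℕ)
    (hψ : ∀ x y, H.Adj x y → ∀ i < q, (E i).Adj x y ↔ i = ψ x y)
    (hψ' : ∀ x y, H.Adj x y → ψ x y < q)
    (idx : U → ℕ) (τ : U → Bool) (hty : Typed E q idx τ)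
    (hτ : Fintype.card U ≤ 2 * (univ.filter fun x => τ x = true).card) :
    Blow.Rank (LexG G H f u) (r * Fintype.card U / 2 + q) := by
  classical
  apply Blow.Rank.comp (LexG G H f u) (fun w => G.connectedComponentMk (f w))
  · intro x y hxy
    rcases hxy with hxy | ⟨hxy, -⟩
    · exact ConnectedComponent.sound (Adj.reachable hxy)
    · rw [hxy]
  intro C
  -- the component
  let VC : Type := {v : V // G.connectedComponentMk v = C}
  let WC : Type := {w : W // G.connectedComponentMk (f w) = C}
  have iV := Fintype.ofFinite VC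
  have iW := Fintype.ofFinite WC
  let GC : SimpleGraph VC := G.comap Subtype.val
  let fC : WC → VC := fun w => ⟨f w.1, w.2⟩
  let uC : WC → U := fun w => u w.1
  have hconn : GC.Connected := C.connected_toSimpleGraph
  have hdC : ∀ v : VC, (GC.neighborSet v).ncard = r := by
    intro v
    rw [← hdeg v.1, ← Set.ncard_image_of_injective _ Subtype.val_injective]
    congr 1
    ext u
    simp only [Set.mem_image, mem_neighborSet]
    constructor
    · rintro ⟨u', h1, rfl⟩
      exact h1
    · intro h1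
      refine ⟨⟨u, ?_⟩, h1, rfl⟩
      rw [← v.2]
      exact ConnectedComponent.sound (Adj.reachable h1.symm)
  have hbC : Function.Bijective (fun w : WC => (fC w, uC w)) := by
    constructor
    · intro w w' h
      have h1 : (f w.1, u w.1) = (f w'.1, u w'.1) := by
        have h2 := congrArg Prod.fst h
        have h3 := congrArg Prod.snd h
        exact Prod.ext (congrArg Subtype.val h2) h3
      exact Subtype.ext (hbij.1 h1)
    · rintro ⟨v, x⟩
      obtain ⟨w, hw⟩ := hbij.2 (v.1, x)
      have h1 : f w = v.1 := congrArg Prod.fst hw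
      have h2 : u w = x := congrArg Prod.snd hw
      exact ⟨⟨w, by rw [h1]; exact v.2⟩, Prod.ext (Subtype.ext h1) h2⟩
  have heq : (LexG G H f u).comap (Subtype.val : WC → W) = LexG GC H fC uC := by
    ext x y
    show (G.Adj (f x.1) (f y.1) ∨ (f x.1 = f y.1 ∧ H.Adj (u x.1) (u y.1))) ↔
      (G.Adj (f x.1) (f y.1) ∨ (fC x = fC y ∧ H.Adj (u x.1) (u y.1)))
    rw [show (fC x = fC y) ↔ (f x.1 = f y.1) from Subtype.ext_iff]
  show Blow.Rank ((LexG G H f u).comap (Subtype.val : WC → W)) _
  rw [heq]
  exact lexp_conn GC hconn r hU hdC hrm H fC uC hbC E hE q ψ hψ hψ' idx τ hty hτ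

theorem lexp_cov {V U : Type} [Finite V] [Finite U] (G : SimpleGraph V) (H : SimpleGraph U)
    (r q : ℕ) (hU : 0 < Nat.card U) (hdeg : ∀ v, (G.neighborSet v).ncard = r)
    (hrm : (Even r ∧ r ≤ 2 * Nat.card U) ∨ (Even (Nat.card U) ∧ r ≤ Nat.card U))
    (hcov : Cov H q) (hq : ∀ x, (H.neighborSet x).ncard < 2 * q) :
    Cov (LexG G H Prod.fst Prod.snd) (r * Nat.card U / 2 + q) := by
  classical
  have iU := Fintype.ofFinite U
  rw [Nat.card_eq_fintype_card] at hrm hU ⊢
  obtain ⟨c, hlt, hc⟩ := exists_col hcov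
  have hbij : Function.Bijective (fun w : V × U => (w.1, w.2)) := Function.bijective_id
  have hsum : ∀ x, ∑ n ∈ range q, ((cls H c n).neighborSet x).ncard = (H.neighborSet x).ncard :=
    fun x => sum_cls H c q hlt x
  have hψ : ∀ x y, H.Adj x y → ∀ i < q, (cls H c i).Adj x y ↔ i = c s(x, y) := by
    intro x y hxy i _
    constructor
    · exact fun h => h.2.symm
    · exact fun h => ⟨hxy, h.symm⟩
  have hψ' : ∀ x y, H.Adj x y → c s(x, y) < q := fun x y h => hlt x y h
  obtain ⟨idx, τ, hty, hτ⟩ := exists_typed (cls H c) q hc (fun x => by rw [hsum]; exact hq x)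
  exact (lexp_rank G r hU hdeg hrm H Prod.fst Prod.snd hbij (cls H c) hc q
    (fun x y => c s(x, y)) hψ hψ' idx τ hty hτ).cov

end Pool.Agent.X76.Det
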