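import Pool.Agent.X76.Det2
import Pool.Agent.X76.Chr4

set_option autoImplicit false

/-!
Detachments of edge-coloured multigraphs, and Hamilton decompositions.
-/

namespace Pool.Agent.X76.Det

open Finset SimpleGraph

theorem detach {C : Type} [Fintype C] (n : ℕ) :
    ∀ (X : Type) [Fintype X] (g : X → ℕ) (a : X → X → ℕ) (m : C → X → X → ℕ),
      (∀ x y, a x y = a y x) → St g a m → ∑ x, (g x - 1) = n →
      ∃ (Y : Type) (_ : Fintype Y) (π : Y → X) (M : C → Y → Y → ℕ),
        (∀ x, {y | π y = x}.ncard = g x) ∧ St (fun _ => 1) (fun y z => a (π y) (π z)) M := by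
  classical
  induction n with
  | zero =>
    intro X _ g a m ha h hn
    have hg : g = fun _ => 1 := by
      funext x
      have h1 := (Finset.sum_eq_zero_iff.1 hn) x (mem_univ x)
      have h2 := h.pos x
      omega
    subst hg
    refine ⟨X, inferInstance, id, m, ?_, h⟩
    intro x
    have h1 : {y : X | id y = x} = {x} := by ext; simp
    rw [h1, Set.ncard_singleton]
  | succ n ih =>
    intro X _ g a m ha h hn
    obtain ⟨v, hv⟩ : ∃ v, 2 ≤ g v := by
      by_contra hno
      push Not at hno
      have h1 : ∑ x, (g x - 1) = 0 := Finset.sum_eq_zero fun x _ => by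
        have := hno x; omega
      omega
    obtain ⟨m', hm'⟩ := step g a ha m h v hv
    have hsum : ∑ o, (gs g v o - 1) = n := by
      rw [Fintype.sum_option]
      simp only [gs]
      rw [← Finset.add_sum_erase _ _ (mem_univ v)] at hn ⊢
      simp only [if_true]
      have h2 : ∑ x ∈ univ.erase v, ((if x = v then g v - 1 else g x) - 1) =
          ∑ x ∈ univ.erase v, (g x - 1) := by
        apply Finset.sum_congr rfl
        intro x hx
        rw [if_neg (Finset.ne_of_mem_erase hx)]
      rw [h2]
      omega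
    obtain ⟨Y, hY, π, M, h1, h2⟩ := ih (Option X) (gs g v) _ m' (fun x y => ha _ _) hm' hsum
    refine ⟨Y, hY, fun y => (π y).getD v, M, ?_, h2⟩
    intro x
    by_cases hx : x = v
    · subst hx
      have h3 : {y | (π y).getD x = x} = {y | π y = none} ∪ {y | π y = some x} := by
        ext y
        simp only [Set.mem_ofPred_eq, Set.mem_union]
        rcases hπ : π y with _ | z
        · simp
        · simp
      rw [h3, Set.ncard_union_eq _ (Set.toFinite _) (Set.toFinite _), h1, h1]
      · simp only [gs, if_true]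
        omega
      · rw [Set.disjoint_left]
        intro y hy hy'
        simp only [Set.mem_ofPred_eq] at hy hy'
        rw [hy] at hy'
        simp at hy'
    · have h3 : {y | (π y).getD v = x} = {y | π y = some x} := by
        ext y
        simp only [Set.mem_ofPred_eq]
        rcases hπ : π y with _ | z
        · simp [Ne.symm hx]
        · simp
      rw [h3, h1]
      simp only [gs, if_neg hx]

open Classical in
/-- a 0-1 matrix -/
noncomputable def ind {Y : Type} (A : Y → Y → Prop) (y z : Y) : ℕ := if A y z then 1 else 0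

/-- connected two-regular colour classes are Hamilton cycles -/
theorem HD_of_classes {C Y : Type} [Fintype C] [Fintype Y] [DecidableEq Y] (X : SimpleGraph Y)
    (A : Y → Y → Prop) (hXA : ∀ y z, X.Adj y z ↔ y ≠ z ∧ A y z)
    (M : C → Y → Y → ℕ) (h : St (fun _ => 1) (ind A) M) :
    ∃ F : C → ZMod (Fintype.card Y) → Y, Blow.HD X (Fintype.card Y) F := by
  classical
  have hdiag : ∀ c y, M c y y = 0 := by
    intro c y
    have h1 := h.loop y
    rw [Nat.sub_self, Nat.zero_mul, Nat.mul_zero] at h1
    exact (Finset.sum_eq_zero_iff.1 h1) c (mem_univ c)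
  have hsum : ∀ y z, ∑ c, M c y z = if X.Adj y z then 1 else 0 := by
    intro y z
    by_cases hyz : y = z
    · rw [hyz, if_neg (SimpleGraph.irrefl X)]
      exact Finset.sum_eq_zero fun c _ => hdiag c z
    · rw [h.mult y z hyz, one_mul, one_mul, ind]
      by_cases hA : A y z
      · rw [if_pos hA, if_pos ((hXA y z).2 ⟨hyz, hA⟩)]
      · rw [if_neg hA, if_neg (fun h => hA ((hXA y z).1 h).2)]
  have hle : ∀ c y z, M c y z ≤ if X.Adj y z then 1 else 0 := by
    intro c y z
    rw [← hsum]
    exact Finset.single_le_sum (f := fun c => M c y z) (fun i _ => Nat.zero_le _) (mem_univ c)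
  have hadj : ∀ c y z, (supp (M c)).Adj y z ↔ M c y z = 1 := by
    intro c y z
    constructor
    · rintro ⟨-, h2, -⟩
      have h3 := hle c y z
      split_ifs at h3 <;> omega
    · intro h2
      refine ⟨?_, by omega, by rw [h.symm]; omega⟩
      rintro rfl
      rw [hdiag] at h2
      omega
  have hX : ∀ c y z, (supp (M c)).Adj y z → X.Adj y z := by
    intro c y z h1
    rw [hadj] at h1
    by_contra h2
    have h3 := hle c y z
    rw [if_neg h2] at h3
    omega
  have hdeg : ∀ c y, (supp (M c)).degree y = 2 := by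
    intro c y
    rw [← card_neighborFinset_eq_degree]
    have h1 := h.deg c y
    rw [mul_one] at h1
    rw [← h1]
    have h2 : (supp (M c)).neighborFinset y = univ.filter fun z => M c y z = 1 := by
      ext z
      rw [mem_neighborFinset, hadj]
      simp
    rw [h2, Finset.card_filter]
    apply Finset.sum_congr rfl
    intro z _
    have h3 := hle c y z
    split_ifs at h3 ⊢ <;> omega
  have main : ∀ c, ∃ F : ZMod (Fintype.card Y) → Y, Function.Bijective F ∧
      (∀ s, (supp (M c)).Adj (F s) (F (s + 1))) ∧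
      ∀ y z, (supp (M c)).Adj y z → ∃! s, s(F s, F (s + 1)) = s(y, z) := by
    intro c
    obtain ⟨y0⟩ := (h.conn c).nonempty
    obtain ⟨N, hN, τ, h1, h2⟩ := Euler.exists_tour (supp (M c)) (h.conn c) (by
      intro y; rw [hdeg]; exact even_two) (by
      have h3 : 0 < (supp (M c)).degree y0 := by rw [hdeg]; exact two_pos
      rw [degree_pos_iff_exists_adj] at h3
      exact ⟨_, h3⟩)
    have hv : ∀ y, (univ.filter fun s => τ s = y).card = 1 := by
      intro y
      have h3 := Blow.visits (supp (M c)) τ h1 h2 y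
      rw [hdeg] at h3
      omega
    have hb : Function.Bijective τ := by
      rw [Function.bijective_iff_existsUnique]
      intro y
      obtain ⟨s, hs⟩ := Finset.card_eq_one.1 (hv y)
      refine ⟨s, ?_, ?_⟩
      · have h3 : s ∈ univ.filter fun s => τ s = y := by rw [hs]; exact mem_singleton_self s
        exact (mem_filter.1 h3).2
      · intro s' hs'
        have h3 : s' ∈ univ.filter fun s => τ s = y := mem_filter.2 ⟨mem_univ _, hs'⟩
        rw [hs] at h3
        exact mem_singleton.1 h3
    have hcard : N = Fintype.card Y := by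
      rw [← Fintype.card_of_bijective hb, ZMod.card]
    subst hcard
    exact ⟨τ, hb, h1, h2⟩
  choose F hF1 hF2 hF3 using main
  refine ⟨F, hF1, fun c s => hX c _ _ (hF2 c s), ?_⟩
  intro x y hxy
  have h1 := hsum x y
  rw [if_pos hxy] at h1
  obtain ⟨c, hc⟩ : ∃ c, M c x y = 1 := by
    by_contra hno
    push Not at hno
    have h2 : ∑ c, M c x y = 0 := Finset.sum_eq_zero fun c _ => by
      have h3 := hno c
      have h4 := hle c x y
      rw [if_pos hxy] at h4
      omega
    omega
  have huniq : ∀ c', M c' x y = 1 → c' = c := by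
    intro c' hc'
    by_contra hne
    have h2 : M c' x y + M c x y ≤ ∑ c, M c x y := by
      rw [← Finset.add_sum_erase _ _ (mem_univ c')]
      apply Nat.add_le_add_left
      exact Finset.single_le_sum (f := fun c => M c x y) (fun i _ => Nat.zero_le _)
        (Finset.mem_erase.2 ⟨Ne.symm hne, mem_univ c⟩)
    omega
  obtain ⟨s, hs, hs'⟩ := hF3 c x y ((hadj c x y).2 hc)
  refine ⟨(c, s), hs, ?_⟩
  rintro ⟨c', s'⟩ h2
  simp only at h2
  have h3 := hF2 c' s'
  rw [← mem_edgeSet, h2, mem_edgeSet, hadj] at h3
  have h4 := huniq c' h3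
  subst h4
  rw [hs' s' h2]

/-- transport along an isomorphism -/
theorem HD_iso {C Y W : Type} [Fintype Y] [Fintype W] (X : SimpleGraph Y) (Z : SimpleGraph W)
    (e : Y ≃ W) (he : ∀ y z, X.Adj y z ↔ Z.Adj (e y) (e z))
    {F : C → ZMod (Fintype.card Y) → Y} (hF : Blow.HD X (Fintype.card Y) F) :
    ∃ F' : C → ZMod (Fintype.card W) → W, Blow.HD Z (Fintype.card W) F' := by
  have hcard : Fintype.card Y = Fintype.card W := Fintype.card_congr e
  rw [← hcard]
  refine ⟨fun c s => e (F c s), fun c => e.bijective.comp (hF.1 c), ?_, ?_⟩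
  · intro c s
    rw [← he]
    exact hF.2.1 c s
  · intro x y hxy
    obtain ⟨p, hp, hp'⟩ := hF.2.2 (e.symm x) (e.symm y) (by
      rw [he, e.apply_symm_apply, e.apply_symm_apply]
      exact hxy)
    have htr : ∀ p : C × ZMod (Fintype.card Y),
        s(e (F p.1 p.2), e (F p.1 (p.2 + 1))) = s(x, y) ↔
        s(F p.1 p.2, F p.1 (p.2 + 1)) = s(e.symm x, e.symm y) := by
      intro p
      constructor
      · intro h
        have h1 := congrArg (Sym2.map e.symm) h
        simp only [Sym2.map_mk, Equiv.symm_apply_apply] at h1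
        exact h1
      · intro h
        have h1 := congrArg (Sym2.map e) h
        simp only [Sym2.map_mk, Equiv.apply_symm_apply] at h1
        exact h1
    refine ⟨p, (htr p).2 hp, ?_⟩
    intro q hq
    exact hp' q ((htr q).1 hq)

/-- a bijection compatible with the projections -/
theorem fib_equiv {V Y W : Type} [Finite Y] [Finite W] (π : Y → V) (f : W → V)
    (hc : ∀ v, {y | π y = v}.ncard = {w | f w = v}.ncard) : ∃ e : Y ≃ W, ∀ y, f (e y) = π y := by
  have hne : ∀ v, Nonempty ({y // π y = v} ≃ {w // f w = v}) := by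
    intro v
    apply Finite.card_eq.1
    exact hc v
  let ev := fun v => (hne v).some
  let e : Y ≃ W := (Equiv.sigmaFiberEquiv π).symm.trans
    ((Equiv.sigmaCongrRight ev).trans (Equiv.sigmaFiberEquiv f))
  exact ⟨e, fun y => (ev (π y) ⟨y, rfl⟩).2⟩

/-- **Hamilton decompositions of graphs with homogeneous classes.** -/
theorem HD_of_orient {V W : Type} [Fintype V] [Fintype W] (A : V → V → Prop)
    (hA : ∀ u v, A u v → A v u) (f : W → V) (D : ℕ)
    (g : V → ℕ) (hg : ∀ v, {w | f w = v}.ncard = g v) (hpos : ∀ v, 1 ≤ g v)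
    (G : SimpleGraph V) (hconn : G.Connected) (o : V → V → ℕ)
    (h1 : ∀ u v, u ≠ v → o u v + o v u = g u * g v * ind A u v)
    (h1' : ∀ u, 2 * o u u = g u * ((g u - 1) * ind A u u))
    (h2 : ∀ u, ∑ v, o u v = D * g u) (h3 : ∀ v, ∑ u, o u v = D * g v)
    (h4 : ∀ u v, G.Adj u v → D ≤ o u v ∨ D ≤ o v u)
    (X : SimpleGraph W) (hX : ∀ x y, X.Adj x y ↔ x ≠ y ∧ A (f x) (f y)) :
    ∃ F : Fin D → ZMod (Fintype.card W) → W, Blow.HD X (Fintype.card W) F := by
  classical
  obtain ⟨T, hT1, hT2, hT3, hT4⟩ := classes D g g o h2 h3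
  have hind : ∀ u v, ind A u v = ind A v u := by
    intro u v
    unfold ind
    by_cases h : A u v
    · rw [if_pos h, if_pos (hA u v h)]
    · rw [if_neg h, if_neg (fun h' => h (hA v u h'))]
  have hSt : St (C := Fin D) g (ind A) (fun c u v => T c u v + T c v u) := by
    refine ⟨hpos, ?_, ?_, ?_, ?_, ?_, ?_⟩
    · intro c u v; rw [add_comm]
    · intro c u
      exact Even.add_self _
    · intro u v huv
      rw [Finset.sum_add_distrib, hT3, hT3, h1 u v huv]
    · intro u
      rw [Finset.sum_add_distrib, hT3, ← h1' u]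
      ring
    · intro c u
      rw [Finset.sum_add_distrib, hT1, hT2]
      ring
    · intro c
      apply hconn.mono
      intro u v huv
      have h5 : 0 < T c u v + T c v u := by
        rcases h4 u v huv with h | h
        · have := hT4 u v h c; omega
        · have := hT4 v u h c; omega
      exact ⟨huv.ne, h5, by show 0 < T c v u + T c u v; omega⟩
  obtain ⟨Y, hY, π, M, h5, h6⟩ := detach _ V g _ _ hind hSt rfl
  let Z : SimpleGraph Y :=
    { Adj := fun y z => y ≠ z ∧ A (π y) (π z)
      symm := ⟨fun y z h => ⟨h.1.symm, hA _ _ h.2⟩⟩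
      loopless := ⟨fun y h => h.1 rfl⟩ }
  obtain ⟨F, hF⟩ := HD_of_classes Z (fun y z => A (π y) (π z)) (fun y z => Iff.rfl) M h6
  obtain ⟨e, he⟩ := fib_equiv π f (fun v => by rw [h5, hg])
  refine HD_iso Z X e (fun y z => ?_) hF
  rw [hX, he, he, e.injective.ne_iff]

end Pool.Agent.X76.Det
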