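import Pool.Agent.X76.Det3

set_option autoImplicit false

/-!
Hamilton decompositions and linear arboricity of regular graphs with homogeneous classes.
-/

namespace Pool.Agent.X76.Det

open Finset SimpleGraph

/-- adjacency of different vertices depends only on their classes -/
def Hom {W V : Type} (X : SimpleGraph W) (f : W → V) : Prop :=
  ∀ x y x' y', f x = f x' → f y = f y' → x ≠ y → x' ≠ y' → X.Adj x y → X.Adj x' y'

/-- the classes are large -/
def Big {W V : Type} (X : SimpleGraph W) (f : W → V) (R : ℕ) : Prop :=
  (∀ x y, X.Adj x y → f x ≠ f y → R ≤ {z | f z = f x}.ncard * {z | f z = f y}.ncard) ∨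
  (∃ m, (∀ x, {z | f z = f x}.ncard = m) ∧ R ≤ 2 * m ^ 2 ∧
    ∀ x, Even {v | v ≠ f x ∧ ∃ y, f y = v ∧ X.Adj x y}.ncard)

theorem ind_true {Y : Type} {A : Y → Y → Prop} {y z : Y} (h : A y z) : ind A y z = 1 := if_pos h
theorem ind_false {Y : Type} {A : Y → Y → Prop} {y z : Y} (h : ¬ A y z) : ind A y z = 0 := if_neg h

theorem conn_HD {W V : Type} [Fintype W] [Fintype V] (X : SimpleGraph W) (hconn : X.Connected)
    (f : W → V) (hf : Function.Surjective f) (H : Hom X f) (D : ℕ)
    (hdeg : ∀ x, (X.neighborSet x).ncard = 2 * D) (hB : Big X f (2 * D)) :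
    ∃ F : Fin D → ZMod (Fintype.card W) → W, Blow.HD X (Fintype.card W) F := by
  classical
  let ord : LinearOrder V := LinearOrder.lift' (Fintype.equivFin V) (Fintype.equivFin V).injective
  let A : V → V → Prop := fun u v => ∃ x y, f x = u ∧ f y = v ∧ X.Adj x y
  have hA : ∀ u v, A u v → A v u := by
    rintro u v ⟨x, y, h1, h2, h3⟩
    exact ⟨y, x, h2, h1, h3.symm⟩
  have hind : ∀ u v, ind A u v = ind A v u := by
    intro u v
    by_cases h : A u v
    · rw [ind_true h, ind_true (hA u v h)]
    · rw [ind_false h, ind_false (fun h' => h (hA v u h'))]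
  have hX : ∀ x y, X.Adj x y ↔ x ≠ y ∧ A (f x) (f y) := by
    intro x y
    constructor
    · intro h
      exact ⟨h.ne, x, y, rfl, rfl, h⟩
    · rintro ⟨h1, x', y', h2, h3, h4⟩
      exact H x' y' x y h2 h3 h4.ne h1 h4
  let g : V → ℕ := fun v => {w | f w = v}.ncard
  have hpos : ∀ v, 1 ≤ g v := by
    intro v
    obtain ⟨w, hw⟩ := hf v
    have h1 : {w | f w = v}.Nonempty := ⟨w, hw⟩
    exact (Set.ncard_pos (Set.toFinite _)).2 h1
  -- the degrees in terms of the classes
  have hrow : ∀ v, ∑ u, (if u = v then (g v - 1) * ind A v v else g u * ind A v u) = 2 * D := by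
    intro v
    obtain ⟨x, hx⟩ := hf v
    subst hx
    rw [← hdeg x, Set.ncard_eq_toFinset_card']
    rw [Finset.card_eq_sum_card_fiberwise (f := f) (t := univ) (fun _ _ => by simp)]
    apply Finset.sum_congr rfl
    intro u _
    by_cases hu : u = f x
    · rw [if_pos hu, hu]
      by_cases hAx : A (f x) (f x)
      · rw [ind_true hAx, mul_one]
        have h1 : ((X.neighborSet x).toFinset.filter fun y => f y = f x) =
            (univ.filter fun y => f y = f x).erase x := by
          ext y
          simp only [mem_filter, Set.mem_toFinset, mem_neighborSet, mem_univ, true_and, mem_erase]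
          constructor
          · rintro ⟨h1, h2⟩
            exact ⟨h1.ne', h2⟩
          · rintro ⟨h1, h2⟩
            exact ⟨(hX x y).2 ⟨Ne.symm h1, by rw [h2]; exact hAx⟩, h2⟩
        rw [h1, Finset.card_erase_of_mem (by simp)]
        simp only [g, Set.ncard_eq_toFinset_card', Set.toFinset_ofPred]
      · rw [ind_false hAx, mul_zero]
        symm
        rw [Finset.card_eq_zero, Finset.filter_eq_empty_iff]
        intro y hy h2
        rw [Set.mem_toFinset, mem_neighborSet] at hy
        exact hAx ⟨x, y, rfl, h2, hy⟩
    · rw [if_neg hu]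
      by_cases hAx : A (f x) u
      · rw [ind_true hAx, mul_one]
        simp only [g, Set.ncard_eq_toFinset_card', Set.toFinset_ofPred]
        congr 1
        ext y
        simp only [mem_filter, Set.mem_toFinset, mem_neighborSet, mem_univ, true_and]
        constructor
        · intro h2
          refine ⟨(hX x y).2 ⟨?_, by rw [h2]; exact hAx⟩, h2⟩
          rintro rfl
          exact hu h2.symm
        · exact fun h => h.2
      · rw [ind_false hAx, mul_zero]
        symm
        rw [Finset.card_eq_zero, Finset.filter_eq_empty_iff]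
        intro y hy h2
        rw [Set.mem_toFinset, mem_neighborSet] at hy
        exact hAx ⟨x, y, rfl, h2, hy⟩
  -- the graph of the classes
  let G : SimpleGraph V :=
    { Adj := fun u v => u ≠ v ∧ A u v
      symm := ⟨fun u v h => ⟨h.1.symm, hA _ _ h.2⟩⟩
      loopless := ⟨fun u h => h.1 rfl⟩ }
  have hG : G.Connected := by
    have h1 : ∀ x y, X.Reachable x y → G.Reachable (f x) (f y) := by
      rintro x y ⟨p⟩
      induction p with
      | nil => exact Reachable.refl _
      | @cons x z y h p ih =>
        by_cases hxz : f x = f z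
        · rw [hxz]; exact ih
        · exact (Adj.reachable (⟨hxz, x, z, rfl, rfl, h⟩ : G.Adj (f x) (f z))).trans ih
    refine (connected_iff _).2 ⟨fun u v => ?_, ?_⟩
    · obtain ⟨x, rfl⟩ := hf u
      obtain ⟨y, rfl⟩ := hf v
      exact h1 x y (hconn.preconnected x y)
    · obtain ⟨x⟩ := hconn.nonempty
      exact ⟨f x⟩
  -- an orientation
  have hloop : ∀ u, Even (g u * ((g u - 1) * ind A u u)) := by
    intro u
    rw [← mul_assoc]
    exact (Nat.even_mul_pred_self (g u)).mul_right _
  have key : ∃ o : V → V → ℕ, (∀ u v, u ≠ v → o u v + o v u = g u * g v * ind A u v) ∧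
      (∀ u, o u u = 0) ∧ (∀ u, 2 * ∑ v, o u v = ∑ v, if u = v then 0 else g u * g v * ind A u v) ∧
      (∀ v, ∑ u, o u v = ∑ u, o v u) ∧ (∀ u v, G.Adj u v → D ≤ o u v ∨ D ≤ o v u) := by
    rcases hB with hB | ⟨m, hm, hm2, hev⟩
    · let w : V → V → ℕ := fun u v => if u = v then 0 else g u * g v * ind A u v
      have hw : ∀ u, ∃ a, ∑ v, w u v = 2 * a := by
        intro u
        have h1 : ∑ v, w u v + g u * ((g u - 1) * ind A u u) = g u * (2 * D) := by
          rw [← hrow u, Finset.mul_sum, ← Finset.add_sum_erase _ _ (mem_univ u),
            ← Finset.add_sum_erase _ _ (mem_univ u)]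
          simp only [w, if_true]
          have h2 : ∑ v ∈ univ.erase u, (if u = v then 0 else g u * g v * ind A u v) =
              ∑ v ∈ univ.erase u, g u * (if v = u then (g u - 1) * ind A u u else
                g v * ind A u v) := by
            apply Finset.sum_congr rfl
            intro v hv
            have hv' := Finset.ne_of_mem_erase hv
            rw [if_neg hv'.symm, if_neg hv', mul_assoc]
          rw [h2]
          ring
        obtain ⟨j, hj⟩ := hloop u
        exact ⟨g u * D - j, by rw [hj] at h1; rw [Nat.mul_sub]; have : g u * (2 * D) = 2 * (g u * D) := by ring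
                               omega⟩
      choose a ha using hw
      obtain ⟨o, ho1, ho2, ho3, ho4⟩ := orient w (by
        intro u v
        simp only [w]
        by_cases h : u = v
        · rw [h]
        · rw [if_neg h, if_neg (Ne.symm h), hind u v]; ring) (by intro u; simp [w]) a ha
      refine ⟨o, ?_, ?_, ?_, ?_, ?_⟩
      · intro u v huv
        rw [ho1]
        simp only [w, if_neg huv]
      · intro u
        have h1 := ho1 u u
        simp only [w, if_true] at h1
        omega
      · intro u
        rw [ho2, ← ha]
      · intro v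
        rw [ho3, ho2]
      · intro u v huv
        left
        refine le_trans ?_ (ho4 u v)
        obtain ⟨h1, x, y, h2, h3, h4⟩ := huv
        simp only [w, if_neg h1]
        rw [ind_true ⟨x, y, h2, h3, h4⟩, mul_one]
        have h5 := hB x y h4 (by rw [h2, h3]; exact h1)
        rw [h2, h3] at h5
        change 2 * D ≤ g u * g v at h5
        omega
    · have hgm : ∀ v, g v = m := by
        intro v
        obtain ⟨x, rfl⟩ := hf v
        exact hm x
      let w : V → V → ℕ := fun u v => if u = v then 0 else ind A u v
      have hw : ∀ u, ∃ a, ∑ v, w u v = 2 * a := by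
        intro u
        obtain ⟨x, rfl⟩ := hf u
        obtain ⟨j, hj⟩ := hev x
        refine ⟨j, ?_⟩
        rw [two_mul, ← hj, Set.ncard_eq_toFinset_card', Set.toFinset_ofPred, Finset.card_filter]
        apply Finset.sum_congr rfl
        intro v _
        simp only [w]
        by_cases hv : f x = v
        · rw [if_pos hv, if_neg]
          exact fun h => h.1 hv.symm
        · rw [if_neg hv]
          by_cases h1 : A (f x) v
          · rw [ind_true h1, if_pos]
            refine ⟨Ne.symm hv, ?_⟩
            obtain ⟨x', y', h2, h3, h4⟩ := h1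
            exact ⟨y', h3, H x' y' x y' h2 rfl h4.ne (fun h => hv (by rw [h, h3])) h4⟩
          · rw [ind_false h1, if_neg]
            rintro ⟨-, y, h2, h3⟩
            exact h1 ⟨x, y, rfl, h2, h3⟩
      choose a ha using hw
      obtain ⟨o, ho1, ho2, ho3, ho4⟩ := orient w (by
        intro u v
        simp only [w]
        by_cases h : u = v
        · rw [h]
        · rw [if_neg h, if_neg (Ne.symm h), hind u v]) (by intro u; simp [w]) a ha
      refine ⟨fun u v => m * m * o u v, ?_, ?_, ?_, ?_, ?_⟩
      · intro u v huv
        rw [← mul_add, ho1]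
        simp only [w, if_neg huv, hgm]
      · intro u
        have h1 := ho1 u u
        simp only [w, if_true] at h1
        show m * m * o u u = 0
        rw [show o u u = 0 by omega, mul_zero]
      · intro u
        rw [← Finset.mul_sum, ho2, mul_left_comm, ← ha, Finset.mul_sum]
        apply Finset.sum_congr rfl
        intro v _
        simp only [w, hgm]
        split_ifs <;> simp
      · intro v
        rw [← Finset.mul_sum, ← Finset.mul_sum, ho3, ho2]
      · intro u v huv
        have h1 := ho1 u v
        simp only [w, if_neg huv.1, ind_true huv.2] at h1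
        have h2 : D ≤ m * m := by nlinarith
        rcases Nat.eq_zero_or_pos (o u v) with h3 | h3
        · right
          rw [h3, zero_add] at h1
          show D ≤ m * m * o v u
          rw [h1, mul_one]; exact h2
        · left
          have h4 : o u v = 1 := by omega
          show D ≤ m * m * o u v
          rw [h4, mul_one]; exact h2
  obtain ⟨o, ho1, ho2, ho3, ho4, ho5⟩ := key
  -- add the loops
  have hsum : ∀ u, ∑ v, o u v + g u * ((g u - 1) * ind A u u) / 2 = D * g u := by
    intro u
    have h1 := ho3 u
    have h2 : (∑ v, if u = v then 0 else g u * g v * ind A u v) +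
        g u * ((g u - 1) * ind A u u) = g u * (2 * D) := by
      rw [← hrow u, Finset.mul_sum, ← Finset.add_sum_erase _ _ (mem_univ u),
        ← Finset.add_sum_erase _ _ (mem_univ u)]
      simp only [if_true]
      have h2 : ∑ v ∈ univ.erase u, (if u = v then 0 else g u * g v * ind A u v) =
          ∑ v ∈ univ.erase u, g u * (if v = u then (g u - 1) * ind A u u else
            g v * ind A u v) := by
        apply Finset.sum_congr rfl
        intro v hv
        have hv' := Finset.ne_of_mem_erase hv
        rw [if_neg hv'.symm, if_neg hv', mul_assoc]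
      rw [h2]
      ring
    obtain ⟨j, hj⟩ := hloop u
    rw [hj] at h2 ⊢
    rw [show (j + j) / 2 = j by omega]
    have h3 : g u * (2 * D) = 2 * (D * g u) := by ring
    omega
  let o' : V → V → ℕ := fun u v => if u = v then g u * ((g u - 1) * ind A u u) / 2 else o u v
  have ho' : ∀ u, ∑ v, o' u v = ∑ v, o u v + g u * ((g u - 1) * ind A u u) / 2 := by
    intro u
    rw [← Finset.add_sum_erase _ _ (mem_univ u), ← Finset.add_sum_erase _ (o u) (mem_univ u), ho2]
    simp only [o', if_true]
    have h2 : ∑ v ∈ univ.erase u, (if u = v then g u * ((g u - 1) * ind A u u) / 2 else o u v) =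
        ∑ v ∈ univ.erase u, o u v := by
      apply Finset.sum_congr rfl
      intro v hv
      rw [if_neg (Finset.ne_of_mem_erase hv).symm]
    rw [h2]
    ring
  have ho'' : ∀ v, ∑ u, o' u v = ∑ u, o u v + g v * ((g v - 1) * ind A v v) / 2 := by
    intro v
    rw [← Finset.add_sum_erase _ _ (mem_univ v), ← Finset.add_sum_erase _ (fun u => o u v)
      (mem_univ v), ho2]
    simp only [o', if_true]
    have h2 : ∑ u ∈ univ.erase v, (if u = v then g u * ((g u - 1) * ind A u u) / 2 else o u v) =
        ∑ u ∈ univ.erase v, o u v := by
      apply Finset.sum_congr rfl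
      intro u hu
      rw [if_neg (Finset.ne_of_mem_erase hu)]
    rw [h2]
    ring
  apply HD_of_orient A hA f D g (fun _ => rfl) hpos G hG o'
  · intro u v huv
    simp only [o', if_neg huv, if_neg huv.symm]
    exact ho1 u v huv
  · intro u
    simp only [o', if_true]
    obtain ⟨j, hj⟩ := hloop u
    rw [hj]
    omega
  · intro u
    rw [ho', hsum]
  · intro v
    rw [ho'', ho4, hsum]
  · intro u v huv
    have h1 : u ≠ v := huv.1
    simp only [o', if_neg h1, if_neg h1.symm]
    exact ho5 u v huv
  · exact hX

end Pool.Agent.X76.Det
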