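import Pool.Agent.X76.Det4

set_option autoImplicit false

/-!
Linear arboricity of regular graphs with homogeneous classes: components.
-/

namespace Pool.Agent.X76.Det

open Finset SimpleGraph

theorem Hom.range {W V : Type} {X : SimpleGraph W} {f : W → V} (h : Hom X f) :
    Hom X (Set.rangeFactorization f) := by
  intro x y x' y' h1 h2
  exact h x y x' y' (congrArg Subtype.val h1) (congrArg Subtype.val h2)

theorem Big.range {W V : Type} {X : SimpleGraph W} {f : W → V} {R : ℕ}
    (h : Big X f R) : Big X (Set.rangeFactorization f) R := by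
  have h0 : ∀ x y, Set.rangeFactorization f x = Set.rangeFactorization f y ↔ f x = f y := by
    intro x y
    constructor
    · exact fun h => congrArg Subtype.val h
    · exact fun h => Subtype.ext h
  have h1 : ∀ x, {z | Set.rangeFactorization f z = Set.rangeFactorization f x} =
      {z | f z = f x} := by
    intro x
    ext z
    exact h0 z x
  rcases h with h | ⟨m, h2, h3, h4⟩
  · left
    intro x y hxy hne
    rw [h1, h1]
    exact h x y hxy (fun e => hne ((h0 x y).2 e))
  · right
    refine ⟨m, fun x => by rw [h1]; exact h2 x, h3, fun x => ?_⟩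
    have h5 : {v | v ≠ f x ∧ ∃ y, f y = v ∧ X.Adj x y} = Subtype.val ''
        {v : Set.range f | v ≠ Set.rangeFactorization f x ∧
          ∃ y, Set.rangeFactorization f y = v ∧ X.Adj x y} := by
      ext v
      simp only [Set.mem_ofPred_eq, Set.mem_image]
      constructor
      · rintro ⟨h5, y, rfl, h6⟩
        refine ⟨Set.rangeFactorization f y, ⟨?_, y, rfl, h6⟩, rfl⟩
        intro e
        exact h5 ((h0 y x).1 e)
      · rintro ⟨v', ⟨h5, y, rfl, h6⟩, rfl⟩
        refine ⟨?_, y, rfl, h6⟩
        intro e
        exact h5 (Subtype.ext e)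
    have h6 := h4 x
    rw [h5, Set.ncard_image_of_injective _ Subtype.val_injective] at h6
    exact h6

/-- connected graphs -/
theorem conn_HD' {W V : Type} [Fintype W] (X : SimpleGraph W) (hconn : X.Connected)
    (f : W → V) (H : Hom X f) (D : ℕ)
    (hdeg : ∀ x, (X.neighborSet x).ncard = 2 * D) (hB : Big X f (2 * D)) :
    ∃ F : Fin D → ZMod (Fintype.card W) → W, Blow.HD X (Fintype.card W) F := by
  classical
  have : Finite (Set.range f) := Set.finite_range f
  have : Fintype (Set.range f) := Fintype.ofFinite _
  exact conn_HD X hconn (Set.rangeFactorization f) Set.rangeFactorization_surjective H.range D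
    hdeg hB.range

/-- all graphs -/
theorem rank {W V : Type} [Finite W] (X : SimpleGraph W) (f : W → V) (H : Hom X f) (D : ℕ)
    (hD : 0 < D) (hdeg : ∀ x, (X.neighborSet x).ncard = 2 * D) (hB : Big X f (2 * D)) :
    Blow.Rank X (D + 1) := by
  classical
  apply Blow.Rank.comp X (fun w => X.connectedComponentMk w)
  · intro u v huv
    exact ConnectedComponent.sound (Adj.reachable huv)
  intro C
  let WC : Type := {w : W // X.connectedComponentMk w = C}
  have iW := Fintype.ofFinite WC
  let XC : SimpleGraph WC := X.comap Subtype.val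
  let fC : WC → V := fun w => f w.1
  have hconn : XC.Connected := C.connected_toSimpleGraph
  have hdC : ∀ v : WC, (XC.neighborSet v).ncard = 2 * D := by
    intro v
    rw [← hdeg v.1, ← Set.ncard_image_of_injective _ Subtype.val_injective]
    congr 1
    ext u
    simp only [Set.mem_image, mem_neighborSet]
    constructor
    · rintro ⟨u', h1, rfl⟩
      exact h1
    · intro h1
      refine ⟨⟨u, ?_⟩, h1, rfl⟩
      rw [← v.2]
      exact ConnectedComponent.sound (Adj.reachable h1.symm)
  have hHC : Hom XC fC := by
    intro x y x' y' h1 h2 h3 h4 h5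
    exact H x.1 y.1 x'.1 y'.1 h1 h2 (fun e => h3 (Subtype.ext e)) (fun e => h4 (Subtype.ext e)) h5
  -- vertices of a class are in the same component
  have hcls : ∀ x z, f z = f x → X.connectedComponentMk z = X.connectedComponentMk x := by
    intro x z hz
    obtain ⟨y, hy⟩ : (X.neighborSet x).Nonempty := by
      rw [← Set.ncard_pos (Set.toFinite _), hdeg]; omega
    rw [mem_neighborSet] at hy
    by_cases hyz : z = y
    · rw [hyz]; exact ConnectedComponent.sound (Adj.reachable hy.symm)
    · have h1 : X.Adj z y := H x y z y hz.symm rfl hy.ne hyz hy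
      exact ConnectedComponent.sound (h1.reachable.trans hy.symm.reachable)
  have hsize : ∀ x : WC, {z | fC z = fC x}.ncard = {z | f z = f x.1}.ncard := by
    intro x
    rw [← Set.ncard_image_of_injective _ Subtype.val_injective]
    congr 1
    ext z
    simp only [Set.mem_image, Set.mem_ofPred_eq]
    constructor
    · rintro ⟨z', h1, rfl⟩
      exact h1
    · intro h1
      exact ⟨⟨z, (hcls x.1 z h1).trans x.2⟩, h1, rfl⟩
  have hBC : Big XC fC (2 * D) := by
    rcases hB with h | ⟨m, h1, h2, h3⟩
    · left
      intro x y hxy hne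
      rw [hsize, hsize]
      exact h x.1 y.1 hxy hne
    · right
      refine ⟨m, fun x => by rw [hsize]; exact h1 x.1, h2, fun x => ?_⟩
      have h4 : {v | v ≠ fC x ∧ ∃ y, fC y = v ∧ XC.Adj x y} =
          {v | v ≠ f x.1 ∧ ∃ y, f y = v ∧ X.Adj x.1 y} := by
        ext v
        simp only [Set.mem_ofPred_eq]
        constructor
        · rintro ⟨h5, y, h6, h7⟩
          exact ⟨h5, y.1, h6, h7⟩
        · rintro ⟨h5, y, h6, h7⟩
          refine ⟨h5, ⟨y, ?_⟩, h6, h7⟩
          rw [← x.2]
          exact ConnectedComponent.sound (Adj.reachable h7.symm)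
      rw [h4]
      exact h3 x.1
  obtain ⟨F, hF⟩ := conn_HD' XC hconn fC hHC D hdC hBC
  have hcW : 2 * D + 1 ≤ Fintype.card WC := by
    obtain ⟨v⟩ := hconn.nonempty
    have h1 : Set.ncard (insert v (XC.neighborSet v)) = 2 * D + 1 := by
      rw [Set.ncard_insert_of_notMem (by simp) (Set.toFinite _), hdC]
    have h2 := Set.ncard_le_ncard (Set.subset_univ (insert v (XC.neighborSet v)))
      (Set.toFinite _)
    rw [h1, Set.ncard_univ, Nat.card_eq_fintype_card] at h2
    exact h2
  have : NeZero (Fintype.card WC) := ⟨by omega⟩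
  exact Blow.rank_of_HD2 hF (by omega) hD

end Pool.Agent.X76.Det
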