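import Pool.Agent.X76.Blow5
import Pool.Agent.TH525.FRG.Hom

set_option autoImplicit false

/-!
Paths of linear forests: distances from an end, ends, choice of ends of different paths.
-/

namespace Pool.Agent.X76.Lex

open SimpleGraph Finset H931R3.LA

variable {U : Type}

theorem closer (E : SimpleGraph U) {κ x : U} (hr : E.Reachable κ x) (hne : x ≠ κ) :
    ∃ y, E.Adj x y ∧ E.Reachable κ y ∧ E.dist κ y + 1 = E.dist κ x := by
  obtain ⟨p, hp⟩ := hr.symm.exists_walk_length_eq_dist
  cases p with
  | nil => exact absurd rfl hne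
  | @cons _ y _ h q =>
    refine ⟨y, h, ⟨q.reverse⟩, ?_⟩
    rw [Walk.length_cons] at hp
    have h1 : E.dist y κ ≤ q.length := dist_le q
    have h2 : E.dist x κ ≤ E.dist y κ + 1 := by
      have hyk : E.Reachable y κ := ⟨q⟩
      obtain ⟨q', hq'⟩ := hyk.exists_walk_length_eq_dist
      have := dist_le (Walk.cons h q')
      rw [Walk.length_cons, hq'] at this
      exact this
    rw [E.dist_comm (u := κ) (v := y), E.dist_comm (u := κ) (v := x)]
    omega

section LF

variable {E : SimpleGraph U} (hE : IsLF E) {κ : U} (hκ : (E.neighborSet κ).ncard ≤ 1)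

include hE in
theorem near {x y z : U} (hr : E.Reachable κ x) (hy : E.Adj x y) (hz : E.Adj x z)
    (h1 : E.dist κ y ≤ E.dist κ x) (h2 : E.dist κ z ≤ E.dist κ x) : y = z :=
  TH525.FRG.tree_parent E hE.1 κ x y z hr hy hz h1 h2

include hE in
theorem dist_ne {x y : U} (hr : E.Reachable κ x) (hy : E.Adj x y) : E.dist κ x ≠ E.dist κ y := by
  intro h
  by_cases hx : x = κ
  · subst hx
    rw [dist_self] at h
    have h1 : E.Reachable x y := hy.reachable
    have h2 := (Reachable.dist_eq_zero_iff h1).1 h.symm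
    exact hy.ne h2
  · obtain ⟨z, hz, -, hd⟩ := closer E hr hx
    have h1 := near hE hr hy hz h.symm.le (by omega)
    rw [← h1] at hd
    omega

variable [Finite U]

include hE hκ in
theorem far {x y z : U} (hr : E.Reachable κ x) (hy : E.Adj x y) (hz : E.Adj x z)
    (h1 : E.dist κ x < E.dist κ y) (h2 : E.dist κ x < E.dist κ z) : y = z := by
  by_contra hne
  by_cases hx : x = κ
  · subst hx
    have h3 : ({y, z} : Set U) ⊆ E.neighborSet x := by
      rintro a (rfl | rfl)
      · exact hy
      · exact hz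
    have h4 := Set.ncard_le_ncard h3 (Set.toFinite _)
    rw [Set.ncard_pair hne] at h4
    omega
  · obtain ⟨w, hw, -, hd⟩ := closer E hr hx
    have h3 : ({w, y, z} : Set U) ⊆ E.neighborSet x := by
      rintro a (rfl | rfl | rfl)
      · exact hw
      · exact hy
      · exact hz
    have h4 := Set.ncard_le_ncard h3 (Set.toFinite _)
    have h5 : ({w, y, z} : Set U).ncard = 3 := by
      rw [Set.ncard_eq_three]
      refine ⟨w, y, z, ?_, ?_, hne, rfl⟩
      · rintro rfl; omega
      · rintro rfl; omega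
    have h6 := hE.2 x
    omega

include hE hκ in
theorem dist_inj : ∀ (d : ℕ) {x y : U}, E.Reachable κ x → E.Reachable κ y → E.dist κ x = d →
    E.dist κ y = d → x = y := by
  intro d
  induction d with
  | zero =>
    intro x y hx hy h1 h2
    rw [← (Reachable.dist_eq_zero_iff hx).1 h1, ← (Reachable.dist_eq_zero_iff hy).1 h2]
  | succ d ih =>
    intro x y hx hy h1 h2
    have hxk : x ≠ κ := by rintro rfl; rw [dist_self] at h1; omega
    have hyk : y ≠ κ := by rintro rfl; rw [dist_self] at h2; omega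
    obtain ⟨x', hx1, hx2, hx3⟩ := closer E hx hxk
    obtain ⟨y', hy1, hy2, hy3⟩ := closer E hy hyk
    have h3 : x' = y' := ih hx2 hy2 (by omega) (by omega)
    subst h3
    exact far hE hκ hx2 hx1.symm hy1.symm (by omega) (by omega)

theorem exists_at_dist (E : SimpleGraph U) {κ z : U} : ∀ (n : ℕ) {z : U}, E.Reachable κ z →
    ∀ d, E.dist κ z = d + n → ∃ x, E.Reachable κ x ∧ E.dist κ x = d := by
  intro n
  induction n with
  | zero =>
    intro z hz d hd
    exact ⟨z, hz, hd⟩
  | succ n ih =>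
    intro z hz d hd
    have hzk : z ≠ κ := by rintro rfl; rw [dist_self] at hd; omega
    obtain ⟨z', -, h2, h3⟩ := closer E hz hzk
    exact ih h2 d (by omega)

include hE hκ in
theorem ends_aux {y z : U} (hy : E.Reachable κ y) (hz : E.Reachable κ z)
    (hyd : (E.neighborSet y).ncard ≤ 1) (hyk : y ≠ κ) (hlt : E.dist κ y < E.dist κ z) : False := by
  obtain ⟨x', hx1, hx2⟩ := exists_at_dist (z := z) E (E.dist κ z - (E.dist κ y + 1)) hz
    (E.dist κ y + 1) (by omega)
  have hxk : x' ≠ κ := by rintro rfl; rw [dist_self] at hx2; omega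
  obtain ⟨x, h1, h2, h3⟩ := closer E hx1 hxk
  have h4 : x = y := dist_inj hE hκ _ h2 hy (by omega) rfl
  subst h4
  obtain ⟨w, hw, -, hd⟩ := closer E hy hyk
  have h5 : ({w, x'} : Set U) ⊆ E.neighborSet x := by
    rintro a (rfl | rfl)
    · exact hw
    · exact h1.symm
  have h6 := Set.ncard_le_ncard h5 (Set.toFinite _)
  rw [Set.ncard_pair (by rintro rfl; omega)] at h6
  omega

include hE hκ in
/-- a path has at most two ends -/
theorem ends_le_two {y z : U} (hy : E.Reachable κ y) (hz : E.Reachable κ z)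
    (hyd : (E.neighborSet y).ncard ≤ 1) (hzd : (E.neighborSet z).ncard ≤ 1) (hyk : y ≠ κ)
    (hzk : z ≠ κ) : y = z := by
  rcases lt_trichotomy (E.dist κ y) (E.dist κ z) with h | h | h
  · exact (ends_aux hE hκ hy hz hyd hyk h).elim
  · exact dist_inj hE hκ _ hy hz h rfl
  · exact (ends_aux hE hκ hz hy hzd hzk h).elim

include hE in
theorem exists_end (x : U) : ∃ κ, E.Reachable κ x ∧ (E.neighborSet κ).ncard ≤ 1 := by
  classical
  have := Fintype.ofFinite U
  obtain ⟨κ, h1, h2⟩ := Finset.exists_max_image (univ.filter fun y => E.Reachable x y)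
    (fun y => E.dist x y) ⟨x, by simp⟩
  rw [mem_filter] at h1
  refine ⟨κ, h1.2.symm, ?_⟩
  rw [Set.ncard_le_one_iff]
  intro a b ha hb
  have hle : ∀ a, a ∈ E.neighborSet κ → E.dist x a ≤ E.dist x κ := by
    intro a ha
    exact h2 a (by
      rw [mem_filter]
      exact ⟨mem_univ _, h1.2.trans (Adj.reachable ha)⟩)
  exact near hE h1.2 ha hb (hle a ha) (hle b hb)

end LF

/-- the chosen end of the path of a vertex -/
theorem exists_root [Finite U] {E : SimpleGraph U} (hE : IsLF E) :
    ∃ R : U → U, (∀ x, E.Reachable (R x) x) ∧ (∀ x, (E.neighborSet (R x)).ncard ≤ 1) ∧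
      ∀ x y, E.Reachable x y → R x = R y := by
  have h : ∀ c : E.ConnectedComponent, ∃ κ, E.connectedComponentMk κ = c ∧
      (E.neighborSet κ).ncard ≤ 1 := by
    intro c
    induction c using ConnectedComponent.ind with
    | h x =>
      obtain ⟨κ, h1, h2⟩ := exists_end hE x
      exact ⟨κ, ConnectedComponent.sound h1, h2⟩
  choose R hR1 hR2 using h
  refine ⟨fun x => R (E.connectedComponentMk x), fun x => ?_, fun x => hR2 _, fun x y hxy => ?_⟩
  · exact ConnectedComponent.exact (hR1 _)
  · simp only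
    rw [ConnectedComponent.sound hxy]

/-- ends of different paths -/
def Sel (E : ℕ → SimpleGraph U) (q : ℕ) (Z : Finset U) (idx : U → ℕ) : Prop :=
  (∀ z ∈ Z, idx z < q ∧ ((E (idx z)).neighborSet z).ncard ≤ 1) ∧
    ∀ z ∈ Z, ∀ z' ∈ Z, idx z = idx z' → (E (idx z)).Reachable z z' → z = z'

theorem sel_half [Fintype U] (E : ℕ → SimpleGraph U) (q : ℕ) (hE : ∀ n, IsLF (E n))
    (hdeg : ∀ x, ∑ n ∈ range q, ((E n).neighborSet x).ncard < 2 * q) :
    ∃ (Z : Finset U) (idx : U → ℕ), Sel E q Z idx ∧ Fintype.card U ≤ 2 * Z.card := by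
  classical
  have h1 : ∀ x, ∃ n, n < q ∧ ((E n).neighborSet x).ncard ≤ 1 := by
    intro x
    by_contra hcon
    push Not at hcon
    have h2 : ∑ n ∈ range q, 2 ≤ ∑ n ∈ range q, ((E n).neighborSet x).ncard := by
      apply sum_le_sum
      intro n hn
      exact hcon n (mem_range.1 hn)
    rw [sum_const, card_range, smul_eq_mul] at h2
    have := hdeg x
    omega
  choose idx hi1 hi2 using h1
  let s : Setoid U :=
    { r := fun x y => idx x = idx y ∧ (E (idx x)).Reachable x y
      iseqv := ⟨fun x => ⟨rfl, Reachable.refl _⟩, fun {x y} h => ⟨h.1.symm, h.1 ▸ h.2.symm⟩,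
        fun {x y z} h h' => ⟨h.1.trans h'.1, h.2.trans (h.1.symm ▸ h'.2)⟩⟩ }
  have hr : ∀ x y, Quotient.mk s x = Quotient.mk s y ↔
      idx x = idx y ∧ (E (idx x)).Reachable x y := fun x y => Quotient.eq (r := s)
  refine ⟨univ.image (fun c : Quotient s => c.out), idx, ⟨fun z _ => ⟨hi1 z, hi2 z⟩, ?_⟩, ?_⟩
  · intro z hz z' hz' h2 h3
    rw [mem_image] at hz hz'
    obtain ⟨c, -, rfl⟩ := hz
    obtain ⟨c', -, rfl⟩ := hz'
    have h4 : Quotient.mk s c.out = Quotient.mk s c'.out := (hr _ _).2 ⟨h2, h3⟩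
    rw [Quotient.out_eq, Quotient.out_eq] at h4
    rw [h4]
  · rw [card_image_of_injective _ Quotient.out_injective]
    have h2 := Finset.card_le_mul_card_image (s := (univ : Finset U)) (f := Quotient.mk s) 2 (by
      intro c _
      by_contra hcon
      push Not at hcon
      obtain ⟨x, hx, y, hy, z, hz, hxy, hxz, hyz⟩ := Finset.two_lt_card.1 hcon
      rw [mem_filter] at hx hy hz
      have e1 := (hr x y).1 (hx.2.trans hy.2.symm)
      have e2 := (hr x z).1 (hx.2.trans hz.2.symm)
      apply hyz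
      exact ends_le_two (hE (idx x)) (hi2 x) e1.2 e2.2 (e1.1 ▸ hi2 y) (e2.1 ▸ hi2 z)
        (Ne.symm hxy) (Ne.symm hxz))
    rw [card_univ] at h2
    have h3 := card_le_univ ((univ : Finset U).image (Quotient.mk s))
    rw [← card_univ] at h3
    omega

theorem sel_all [Fintype U] (E : ℕ → SimpleGraph U) (q : ℕ) (hE : ∀ n, IsLF (E n))
    (hdeg : ∀ x, ∑ n ∈ range q, ((E n).neighborSet x).ncard + 2 ≤ 2 * q) :
    ∃ idx : U → ℕ, Sel E q univ idx := by
  classical
  let g : U × ℕ → ℕ × Set U := fun p => (p.2, {y | (E p.2).Reachable p.1 y})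
  have hg : ∀ x y n, g (x, n) = g (y, n) → (E n).Reachable x y := by
    intro x y n h
    have h1 : y ∈ ({z | (E n).Reachable y z} : Set U) := Reachable.refl _
    have h2 : ({z | (E n).Reachable x z} : Set U) = {z | (E n).Reachable y z} :=
      congrArg Prod.snd h
    rw [← h2] at h1
    exact h1
  have hg2 : ∀ x y n, (E n).Reachable x y → g (x, n) = g (y, n) := by
    intro x y n h
    simp only [g, Prod.mk.injEq, true_and]
    ext z
    exact ⟨fun h1 => h.symm.trans h1, fun h1 => h.trans h1⟩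
  let D : U → ℕ → ℕ := fun x n => ((E n).neighborSet x).ncard
  let t : U → Finset (ℕ × Set U) := fun x => ((range q).filter (fun n => D x n ≤ 1)).image
    (fun n => g (x, n))
  have hall : ∀ S : Finset U, S.card ≤ (S.biUnion t).card := by
    intro S
    let Q : Finset (U × ℕ) := (S ×ˢ range q).filter (fun p => D p.1 p.2 ≤ 1)
    have h1 : 2 * S.card ≤ ∑ p ∈ Q, (2 - D p.1 p.2) := by
      have h2 : ∑ p ∈ Q, (2 - D p.1 p.2) = ∑ p ∈ S ×ˢ range q, (2 - D p.1 p.2) := by
        apply sum_filter_of_ne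
        intro p _ hp
        omega
      rw [h2, sum_product]
      rw [show 2 * S.card = ∑ _x ∈ S, 2 by rw [sum_const, smul_eq_mul, mul_comm]]
      apply sum_le_sum
      intro x _
      have h3 : ∑ n ∈ range q, 2 = ∑ n ∈ range q, (2 - D x n) + ∑ n ∈ range q, D x n := by
        rw [← sum_add_distrib]
        apply sum_congr rfl
        intro n _
        have := (hE n).2 x
        simp only [D]
        omega
      rw [sum_const, card_range, smul_eq_mul] at h3
      have h4 := hdeg x
      simp only [D] at h3 ⊢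
      omega
    have hmaps : ∀ p ∈ Q, g p ∈ S.biUnion t := by
      rintro ⟨x, n⟩ hp
      rw [mem_filter, mem_product] at hp
      rw [mem_biUnion]
      refine ⟨x, hp.1.1, ?_⟩
      rw [mem_image]
      exact ⟨n, mem_filter.2 ⟨hp.1.2, hp.2⟩, rfl⟩
    have h2 : ∑ p ∈ Q, (2 - D p.1 p.2) ≤ ∑ _c ∈ S.biUnion t, 2 := by
      rw [← sum_fiberwise_of_maps_to hmaps]
      apply sum_le_sum
      rintro ⟨n, C⟩ _
      -- at most two ends
      set Q' := Q.filter (fun p => g p = (n, C)) with hQ'
      have hmem : ∀ p ∈ Q', p.2 = n ∧ D p.1 n ≤ 1 := by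
        intro p hp
        rw [hQ', mem_filter, mem_filter] at hp
        have h3 : p.2 = n := congrArg Prod.fst hp.2
        exact ⟨h3, by rw [← h3]; exact hp.1.2⟩
      have hreach : ∀ p ∈ Q', ∀ p' ∈ Q', (E n).Reachable p.1 p'.1 := by
        intro p hp p' hp'
        have h3 := (hmem p hp).1
        have h4 := (hmem p' hp').1
        rw [hQ', mem_filter] at hp hp'
        apply hg
        rw [show (p.1, n) = p by rw [← h3], show (p'.1, n) = p' by rw [← h4]]
        rw [hp.2, hp'.2]
      rcases Nat.lt_or_ge 1 Q'.card with hc | hc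
      · obtain ⟨p, hp, p', hp', hne⟩ := Finset.one_lt_card.1 hc
        have hne1 : p.1 ≠ p'.1 := by
          intro h
          exact hne (Prod.ext h ((hmem p hp).1.trans (hmem p' hp').1.symm))
        -- every member is one of the two
        have h3 : Q' ⊆ {p, p'} := by
          intro p'' hp''
          rw [mem_insert, mem_singleton]
          by_contra hcon
          push Not at hcon
          have h4 := ends_le_two (hE n) (hmem p hp).2 (hreach p hp p' hp') (hreach p hp p'' hp'')
            (hmem p' hp').2 (hmem p'' hp'').2 (Ne.symm hne1) (by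
              intro h
              exact hcon.1 (Prod.ext h ((hmem p'' hp'').1.trans (hmem p hp).1.symm)))
          exact hcon.2 (Prod.ext h4.symm ((hmem p'' hp'').1.trans (hmem p' hp').1.symm))
        have hone : ∀ a ∈ Q', ∀ b ∈ Q', a.1 ≠ b.1 → 2 - D a.1 a.2 ≤ 1 := by
          intro a ha b hb hab
          obtain ⟨y, hy, -, -⟩ := closer (E n) (hreach b hb a ha) hab
          have h4 : 0 < ((E n).neighborSet a.1).ncard := by
            rw [Set.ncard_pos (Set.toFinite _)]
            exact ⟨y, hy⟩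
          rw [(hmem a ha).1]
          simp only [D]
          omega
        calc ∑ p ∈ Q', (2 - D p.1 p.2) ≤ ∑ p ∈ ({p, p'} : Finset (U × ℕ)), (2 - D p.1 p.2) :=
              sum_le_sum_of_subset h3
          _ = (2 - D p.1 p.2) + (2 - D p'.1 p'.2) := sum_pair hne
          _ ≤ 2 := by
            have h4 := hone p hp p' hp' hne1
            have h5 := hone p' hp' p hp (Ne.symm hne1)
            omega
      · calc ∑ p ∈ Q', (2 - D p.1 p.2) ≤ ∑ p ∈ Q', 2 := sum_le_sum fun _ _ => Nat.sub_le _ _
          _ = Q'.card * 2 := by rw [sum_const, smul_eq_mul]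
          _ ≤ 2 := by omega
    rw [sum_const, smul_eq_mul] at h2
    omega
  obtain ⟨f, hf1, hf2⟩ := (Finset.all_card_le_biUnion_card_iff_exists_injective t).1 hall
  have hf3 : ∀ x, ∃ n, n < q ∧ D x n ≤ 1 ∧ g (x, n) = f x := by
    intro x
    have h1 := hf2 x
    rw [mem_image] at h1
    obtain ⟨n, hn, h2⟩ := h1
    rw [mem_filter, mem_range] at hn
    exact ⟨n, hn.1, hn.2, h2⟩
  choose idx hi1 hi2 hi3 using hf3
  refine ⟨idx, fun z _ => ⟨hi1 z, hi2 z⟩, ?_⟩
  intro z _ z' _ h1 h2
  apply hf1
  rw [← hi3 z, ← hi3 z', ← h1]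
  exact hg2 _ _ _ h2

end Pool.Agent.X76.Lex
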