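import Mathlib

set_option autoImplicit false

/-!
Euler's theorem: a finite connected simple graph with even degrees has a closed Eulerian walk; in
the form of a cyclic sequence of vertices.
-/

namespace Pool.Agent.X76.Euler

open SimpleGraph Finset

variable {V : Type} [Fintype V] [DecidableEq V] (G : SimpleGraph V) [DecidableRel G.Adj]

/-- a trail in which all edges at the last vertex are used is closed -/
theorem closed_of_full (heven : ∀ v, Even (G.degree v)) {u v : V} (p : G.Walk u v)
    (hp : p.IsTrail) (hfull : ∀ w, G.Adj v w → s(v, w) ∈ p.edges) : u = v := by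
  by_contra hne
  have h1 := (hp.even_countP_edges_iff v).not.2 (by
    push Not
    exact ⟨hne, fun _ => rfl⟩)
  apply h1
  have h2 : p.edges.countP (fun e => v ∈ e) = G.degree v := by
    rw [← card_incidenceFinset_eq_degree, List.countP_eq_length_filter,
      ← List.toFinset_card_of_nodup (hp.edges_nodup.filter _)]
    congr 1
    ext e
    simp only [List.mem_toFinset, List.mem_filter, decide_eq_true_eq, mem_incidenceFinset]
    constructor
    · rintro ⟨h3, h4⟩
      exact ⟨p.edges_subset_edgeSet h3, h4⟩
    · rintro ⟨h3, h4⟩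
      refine ⟨?_, h4⟩
      obtain ⟨w, rfl⟩ := Sym2.mem_iff_exists.1 h4
      exact hfull w h3
  rw [h2]
  exact heven v

theorem exists_eulerian (hconn : G.Connected) (heven : ∀ v, Even (G.degree v)) :
    ∃ (v : V) (p : G.Walk v v), p.IsTrail ∧ ∀ e ∈ G.edgeSet, e ∈ p.edges := by
  classical
  -- a longest trail
  let P : ℕ → Prop := fun n => ∃ (u v : V) (p : G.Walk u v), p.IsTrail ∧ p.length = n
  have hP0 : P 0 := by
    obtain ⟨v⟩ := hconn.nonempty
    exact ⟨v, v, Walk.nil, by simp, rfl⟩
  have hbd : ∀ n, P n → n ≤ G.edgeFinset.card := by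
    rintro n ⟨u, v, p, hp, rfl⟩
    exact hp.length_le_card_edgeFinset
  obtain ⟨u, v, p, hp, hlen⟩ : P (Nat.findGreatest P G.edgeFinset.card) :=
    Nat.findGreatest_spec (Nat.zero_le _) hP0
  have hmax : ∀ (a b : V) (q : G.Walk a b), q.IsTrail → q.length ≤ p.length := by
    intro a b q hq
    rw [hlen]
    exact Nat.le_findGreatest (hbd _ ⟨a, b, q, hq, rfl⟩) ⟨a, b, q, hq, rfl⟩
  have hfull : ∀ (a b : V) (q : G.Walk a b), q.IsTrail → q.length = p.length →
      ∀ w, G.Adj b w → s(b, w) ∈ q.edges := by
    intro a b q hq hql w hw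
    by_contra hno
    have h1 : (q.concat hw).IsTrail := by
      rw [Walk.isTrail_def, Walk.edges_concat, List.concat_eq_append]
      rw [List.nodup_append]
      refine ⟨hq.edges_nodup, by simp, ?_⟩
      intro e he e' he'
      simp only [List.mem_singleton] at he'
      subst he'
      rintro rfl
      exact hno he
    have h2 := hmax _ _ _ h1
    rw [Walk.length_concat] at h2
    omega
  have huv : u = v := closed_of_full G heven p hp (hfull u v p hp rfl)
  subst huv
  have hfull2 : ∀ a ∈ p.support, ∀ w, G.Adj a w → s(a, w) ∈ p.edges := by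
    intro a ha w hw
    have h1 := hfull a a (p.rotate a ha) (hp.rotate ha) (by simp) w hw
    exact (p.rotate_edges a ha).mem_iff.1 h1
  have hstep : ∀ (a b : V) (_ : G.Walk a b), a ∈ p.support → b ∈ p.support := by
    intro a b q
    induction q with
    | nil => exact fun h => h
    | @cons a b c h q ih =>
      intro ha
      exact ih (p.snd_mem_support_of_mem_edges (hfull2 a ha b h))
  have hsupp : ∀ w, w ∈ p.support := by
    intro w
    obtain ⟨q⟩ := hconn.preconnected u w
    exact hstep u w q p.start_mem_support
  refine ⟨u, p, hp, ?_⟩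
  intro e
  induction e with
  | h a b => exact fun h => hfull2 a (hsupp a) b h


omit [Fintype V] [DecidableEq V] in
theorem val_succ {N : ℕ} [NeZero N] (s : ZMod N) :
    (s + 1).val = if s.val + 1 = N then 0 else s.val + 1 := by
  have h1 : (s + 1).val = (s.val + 1) % N := by
    rw [ZMod.val_add, ZMod.val_one_eq_one_mod, Nat.add_mod_mod]
  have h2 := ZMod.val_lt s
  rw [h1]
  split_ifs with h
  · rw [h, Nat.mod_self]
  · exact Nat.mod_eq_of_lt (by omega)

/-- the function form: a cyclic sequence using every edge exactly once -/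
theorem exists_tour (hconn : G.Connected) (heven : ∀ v, Even (G.degree v))
    (hne : ∃ a b, G.Adj a b) :
    ∃ (N : ℕ) (_ : NeZero N) (τ : ZMod N → V), (∀ s, G.Adj (τ s) (τ (s + 1))) ∧
      ∀ a b, G.Adj a b → ∃! s, s(τ s, τ (s + 1)) = s(a, b) := by
  obtain ⟨v, p, hp, hall⟩ := exists_eulerian G hconn heven
  have hN : p.length ≠ 0 := by
    intro h0
    obtain ⟨a, b, hab⟩ := hne
    have h1 := hall s(a, b) hab
    have h2 : p.edges.length = 0 := by rw [Walk.length_edges, h0]
    rw [List.length_eq_zero_iff] at h2
    rw [h2] at h1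
    simp at h1
  have : NeZero p.length := ⟨hN⟩
  refine ⟨p.length, this, fun s => p.getVert s.val, ?_, ?_⟩
  · intro s
    have h1 := ZMod.val_lt s
    have h2 : p.getVert (s + 1).val = p.getVert (s.val + 1) := by
      rw [val_succ]
      split_ifs with h
      · rw [h, Walk.getVert_zero, Walk.getVert_length]
      · rfl
    simp only
    rw [h2]
    exact p.adj_getVert_succ h1
  · have hnext : ∀ s : ZMod p.length, p.getVert (s + 1).val = p.getVert (s.val + 1) := by
      intro s
      rw [val_succ]
      split_ifs with h
      · rw [h, Walk.getVert_zero, Walk.getVert_length]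
      · rfl
    intro a b hab
    obtain ⟨i, hi, hi2⟩ := p.mk_mem_edges_iff_exists.1 (hall s(a, b) hab)
    refine ⟨(i : ZMod p.length), ?_, ?_⟩
    · simp only
      rw [hnext, ZMod.val_natCast, Nat.mod_eq_of_lt hi]
      exact hi2
    · intro s hs
      simp only at hs
      rw [hnext] at hs
      have h1 := ZMod.val_lt s
      have hl : p.edges.length = p.length := Walk.length_edges p
      have h3 : p.edges[s.val]'(by omega) = p.edges[i]'(by omega) := by
        rw [Walk.getElem_edges, Walk.getElem_edges, hs, hi2]
      have h4 := (List.Nodup.getElem_inj_iff hp.edges_nodup).1 h3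
      rw [← h4, ZMod.natCast_zmod_val]

end Pool.Agent.X76.Euler
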