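import Pool.Agent.TH481.DenseMinor8

/-! Clique minors in joins. -/

set_option autoImplicit false

namespace Pool.Agent.X76.JoinHad

open Finset Pool.Agent.W212.EFF TH481.DM

variable {V : Type}

lemma minorIn_mono (G : SimpleGraph V) {U W : Set V} {t : ℕ} (h : MinorIn G U t)
    (hUW : U ⊆ W) : MinorIn G W t := by
  obtain ⟨f, h1, h2, h3, h4⟩ := h
  exact ⟨f, fun i => (h1 i).trans hUW, h2, h3, h4⟩

/-- Add a dominating branch set. -/
lemma minorIn_add (G : SimpleGraph V) (U S : Set V) (q : ℕ) (h : MinorIn G U q)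
    (hS : (G.induce S).Connected) (hd : Disjoint U S) (hdom : ∀ z ∈ U, ∃ s ∈ S, G.Adj z s) :
    MinorIn G (U ∪ S) (q + 1) := by
  obtain ⟨f, h1, h2, h3, h4⟩ := h
  have hne : ∀ i, ∃ x, x ∈ f i := fun i => by
    obtain ⟨⟨x, hx⟩⟩ := (h2 i).nonempty
    exact ⟨x, hx⟩
  refine ⟨Fin.cons (α := fun _ => Set V) S f, ?_, ?_, ?_, ?_⟩
  · intro i
    refine Fin.cases ?_ (fun j => ?_) i
    · simp only [Fin.cons_zero]; exact Set.subset_union_right
    · simp only [Fin.cons_succ]; exact (h1 j).trans Set.subset_union_left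
  · intro i
    refine Fin.cases ?_ (fun j => ?_) i
    · exact hS
    · exact h2 j
  · intro i j
    refine Fin.cases ?_ (fun i => ?_) i <;> refine Fin.cases ?_ (fun j => ?_) j
    · intro h; exact absurd rfl h
    · intro _
      simp only [Fin.cons_zero, Fin.cons_succ]
      exact (hd.mono_left (h1 j)).symm
    · intro _
      simp only [Fin.cons_zero, Fin.cons_succ]
      exact hd.mono_left (h1 i)
    · intro h
      simp only [Fin.cons_succ]
      exact h3 i j (fun h' => h (by rw [h']))
  · intro i j
    refine Fin.cases ?_ (fun i => ?_) i <;> refine Fin.cases ?_ (fun j => ?_) j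
    · intro h; exact absurd rfl h
    · intro _
      simp only [Fin.cons_zero, Fin.cons_succ]
      obtain ⟨x, hx⟩ := hne j
      obtain ⟨s, hs, hxs⟩ := hdom x (h1 j hx)
      exact ⟨s, hs, x, hx, hxs.symm⟩
    · intro _
      simp only [Fin.cons_zero, Fin.cons_succ]
      obtain ⟨x, hx⟩ := hne i
      obtain ⟨s, hs, hxs⟩ := hdom x (h1 i hx)
      exact ⟨x, hx, s, hs, hxs⟩
    · intro h
      simp only [Fin.cons_succ]
      exact h4 i j (fun h' => h (by rw [h']))

/-- Two vertices can be removed at the price of one branch set. -/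
lemma drop [DecidableEq V] (G : SimpleGraph V) (W : Finset V) (p : ℕ)
    (h : MinorIn G (W : Set V) (p + 1)) (hc : 2 * (p + 1) ≤ W.card) :
    ∃ x ∈ W, ∃ y ∈ W, x ≠ y ∧ MinorIn G (((W.erase x).erase y : Finset V) : Set V) p := by
  obtain ⟨f, h1, h2, h3, h4⟩ := h
  by_cases hbig : ∃ i, ∃ x ∈ f i, ∃ y ∈ f i, x ≠ y
  · obtain ⟨i, x, hx, y, hy, hxy⟩ := hbig
    refine ⟨x, h1 i hx, y, h1 i hy, hxy, fun j => f (i.succAbove j), ?_, fun j => h2 _,
      fun j k hjk => h3 _ _ (fun h => hjk (Fin.succAbove_right_injective h)),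
      fun j k hjk => h4 _ _ (fun h => hjk (Fin.succAbove_right_injective h))⟩
    intro j z hz
    have hdis := h3 i (i.succAbove j) (Fin.succAbove_ne i j).symm
    have hzW : z ∈ W := h1 _ hz
    have hzx : z ≠ x := by rintro rfl; exact Set.disjoint_left.1 hdis hx hz
    have hzy : z ≠ y := by rintro rfl; exact Set.disjoint_left.1 hdis hy hz
    simp [hzW, hzx, hzy]
  · push Not at hbig
    have hne : ∀ i, ∃ x, x ∈ f i := fun i => by
      obtain ⟨⟨x, hx⟩⟩ := (h2 i).nonempty
      exact ⟨x, hx⟩
    choose g hg using hne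
    have hex : ∃ w ∈ W, ∀ i, w ∉ f i := by
      by_contra hcon
      push Not at hcon
      have h5 : W ⊆ univ.image g := by
        intro w hw
        obtain ⟨i, hi⟩ := hcon w hw
        exact mem_image.2 ⟨i, mem_univ _, hbig i _ (hg i) _ hi⟩
      have h6 := card_le_card h5
      have h7 : (univ.image g).card ≤ p + 1 := by
        refine card_image_le.trans ?_
        simp
      omega
    obtain ⟨w, hw, hwf⟩ := hex
    refine ⟨g 0, h1 0 (hg 0), w, hw, ?_, fun j => f j.succ, ?_, fun j => h2 _,
      fun j k hjk => h3 _ _ (fun h => hjk (Fin.succ_injective _ h)),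
      fun j k hjk => h4 _ _ (fun h => hjk (Fin.succ_injective _ h))⟩
    · intro h; exact hwf 0 (h ▸ hg 0)
    · intro j z hz
      have hdis := h3 0 j.succ (Fin.succ_ne_zero j).symm
      have hzW : z ∈ W := h1 _ hz
      have hzx : z ≠ g 0 := by
        intro h
        exact Set.disjoint_left.1 hdis (hg 0) (h ▸ hz)
      have hzy : z ≠ w := by
        intro h
        exact hwf _ (h ▸ hz)
      simp [hzW, hzx, hzy]

section join

variable {ι : Type} [DecidableEq V] [DecidableEq ι]

omit [DecidableEq V] in
lemma add_pair (G : SimpleGraph V) (c : V → ι) (hc : ∀ u v, c u ≠ c v → G.Adj u v)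
    (U : Finset V) (q : ℕ) (h : MinorIn G (U : Set V) q) (x y : V) (hx : x ∉ U) (hy : y ∉ U)
    (hxy : c x ≠ c y) (W : Finset V) (hW : U ⊆ W) (hxW : x ∈ W) (hyW : y ∈ W) :
    MinorIn G (W : Set V) (q + 1) := by
  have h1 := minorIn_add G (U : Set V) ({x, y} : Set V) q h
    (SimpleGraph.induce_pair_connected_of_adj (hc x y hxy)) ?_ ?_
  · refine minorIn_mono G h1 ?_
    intro z hz
    rcases hz with hz | hz
    · exact hW hz
    · rcases hz with rfl | hz
      · exact hxW
      · rw [Set.mem_singleton_iff] at hz; subst hz; exact hyW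
  · rw [Set.disjoint_left]
    intro z hz hz'
    rcases hz' with rfl | hz'
    · exact hx hz
    · rw [Set.mem_singleton_iff] at hz'; subst hz'; exact hy hz
  · intro z _
    by_cases hz : c z = c x
    · exact ⟨y, by simp, hc _ _ (fun h => hxy (hz.symm.trans h))⟩
    · exact ⟨x, by simp, hc _ _ hz⟩

lemma base (G : SimpleGraph V) (c : V → ι) (hc : ∀ u v, c u ≠ c v → G.Adj u v)
    (M : ι → Finset V) (i0 : ι) (p : ℕ) (h0 : MinorIn G (M i0 : Set V) p)
    (hl0 : ∀ x ∈ M i0, c x = i0) : ∀ (J : Finset ι), i0 ∉ J →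
    (∀ i ∈ J, ∀ x ∈ M i, c x = i) → (∀ i ∈ J, (M i).Nonempty) →
    MinorIn G ((M i0 ∪ J.biUnion M : Finset V) : Set V) (p + J.card) := by
  intro J
  induction J using Finset.induction_on with
  | empty => intro _ _ _; simpa using h0
  | insert j J hj ih =>
    intro hi0 hl hne
    have ih' := ih (fun h => hi0 (mem_insert_of_mem h)) (fun i hi => hl i (mem_insert_of_mem hi))
      (fun i hi => hne i (mem_insert_of_mem hi))
    obtain ⟨v, hv⟩ := hne j (mem_insert_self _ _)
    have hcv : c v = j := hl j (mem_insert_self _ _) v hv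
    have hlab : ∀ z ∈ M i0 ∪ J.biUnion M, c z ≠ j := by
      intro z hz
      rcases mem_union.1 hz with hz | hz
      · rw [hl0 z hz]; rintro rfl; exact hi0 (mem_insert_self _ _)
      · obtain ⟨i, hi, hzi⟩ := mem_biUnion.1 hz
        rw [hl i (mem_insert_of_mem hi) z hzi]
        rintro rfl; exact hj hi
    have h1 := minorIn_add G _ ({v} : Set V) _ ih' (connected_singleton G v) ?_ ?_
    · rw [card_insert_of_notMem hj, ← add_assoc]
      refine minorIn_mono G h1 ?_
      intro z hz
      rcases hz with hz | hz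
      · rw [biUnion_insert]
        have := mem_union.1 (mem_coe.1 hz)
        simp only [coe_union, Set.mem_union, mem_coe]
        tauto
      · rw [Set.mem_singleton_iff] at hz
        subst hz
        rw [biUnion_insert]
        simp [hv]
    · rw [Set.disjoint_singleton_right]
      intro hz
      exact hlab v (mem_coe.1 hz) hcv
    · intro z hz
      exact ⟨v, rfl, hc _ _ (by rw [hcv]; exact hlab z (mem_coe.1 hz))⟩

theorem joinMinor (G : SimpleGraph V) (c : V → ι)
    (hc : ∀ u v, c u ≠ c v → G.Adj u v) (I : Finset ι) (hI : I.Nonempty) :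
    ∀ (n : ℕ) (M : ι → Finset V) (p : ι → ℕ), ∑ i ∈ I, p i = n →
      (∀ i ∈ I, ∀ x ∈ M i, c x = i) →
      (∀ i ∈ I, MinorIn G (M i : Set V) (p i)) →
      (∀ i ∈ I, 2 * p i + 1 ≤ (M i).card) →
      MinorIn G ((I.biUnion M : Finset V) : Set V) (n + (I.card - 1)) := by
  intro n
  induction n using Nat.strong_induction_on with
  | _ n ih =>
    intro M p hsum hl hm hcard
    by_cases htwo : ∃ i ∈ I, ∃ j ∈ I, i ≠ j ∧ 0 < p i ∧ 0 < p j
    · obtain ⟨i, hi, j, hj, hij, hpi, hpj⟩ := htwo
      obtain ⟨pi, hpi'⟩ : ∃ a, p i = a + 1 := ⟨p i - 1, by omega⟩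
      obtain ⟨pj, hpj'⟩ : ∃ a, p j = a + 1 := ⟨p j - 1, by omega⟩
      obtain ⟨x1, hx1, y1, hy1, hxy1, hm1⟩ := drop G (M i) pi (by rw [← hpi']; exact hm i hi)
        (by have := hcard i hi; omega)
      obtain ⟨x2, hx2, y2, hy2, hxy2, hm2⟩ := drop G (M j) pj (by rw [← hpj']; exact hm j hj)
        (by have := hcard j hj; omega)
      set M' : ι → Finset V := fun l => if l = i then ((M i).erase x1).erase y1 else
        if l = j then ((M j).erase x2).erase y2 else M l with hM'
      set p' : ι → ℕ := fun l => if l = i then pi else if l = j then pj else p l with hp'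
      have hsub : ∀ l, M' l ⊆ M l := by
        intro l
        simp only [hM']
        split_ifs with h1 h2
        · rw [h1]; exact (erase_subset _ _).trans (erase_subset _ _)
        · rw [h2]; exact (erase_subset _ _).trans (erase_subset _ _)
        · exact subset_refl _
      have hpp : ∀ l, p l = p' l + ((if l = i then 1 else 0) + (if l = j then 1 else 0)) := by
        intro l
        simp only [hp']
        split_ifs with h1 h2 h2
        · exact absurd (h1.symm.trans h2) hij
        · rw [h1, hpi']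
        · rw [h2, hpj']
        · omega
      have hsum' : ∑ l ∈ I, p' l + 2 = n := by
        rw [← hsum, sum_congr rfl (fun l _ => hpp l), sum_add_distrib, sum_add_distrib,
          sum_ite_eq', sum_ite_eq', if_pos hi, if_pos hj]
      have h1 := ih (∑ l ∈ I, p' l) (by omega) M' p' rfl
        (fun l hl' x hx => hl l hl' x (hsub l hx)) ?_ ?_
      · have hcx1 := hl i hi x1 hx1
        have hcy1 := hl i hi y1 hy1
        have hcx2 := hl j hj x2 hx2
        have hcy2 := hl j hj y2 hy2
        have hnot : ∀ z l, c z = l → z ∉ M' l → z ∉ I.biUnion M' := by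
          intro z l hz hzl hz'
          obtain ⟨l', hl', hzl'⟩ := mem_biUnion.1 hz'
          have := hl l' hl' z (hsub l' hzl')
          rw [hz] at this
          exact hzl (this ▸ hzl')
        have n1 : x1 ∉ I.biUnion M' := hnot x1 i hcx1 (by simp [hM'])
        have n2 : y1 ∉ I.biUnion M' := hnot y1 i hcy1 (by simp [hM'])
        have n3 : x2 ∉ I.biUnion M' := hnot x2 j hcx2 (by simp [hM', hij.symm])
        have n4 : y2 ∉ I.biUnion M' := hnot y2 j hcy2 (by simp [hM', hij.symm])
        have hx12 : c x1 ≠ c x2 := by rw [hcx1, hcx2]; exact hij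
        have hy12 : c y1 ≠ c y2 := by rw [hcy1, hcy2]; exact hij
        have h2 := add_pair G c hc (I.biUnion M') _ h1 x1 x2 n1 n3 hx12
          (I.biUnion M' ∪ {x1, x2}) subset_union_left (by simp) (by simp)
        have e1 : y1 ≠ x2 := by
          intro h; apply hij; rw [← hcy1, ← hcx2, h]
        have e2 : y2 ≠ x1 := by
          intro h; apply hij; rw [← hcx1, ← hcy2, h]
        have h3 := add_pair G c hc _ _ h2 y1 y2 (by simp only [mem_union, mem_insert, mem_singleton]; tauto)
          (by simp only [mem_union, mem_insert, mem_singleton]; tauto) hy12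
          (I.biUnion M) ?_ (mem_biUnion.2 ⟨i, hi, hy1⟩) (mem_biUnion.2 ⟨j, hj, hy2⟩)
        · have : n + (I.card - 1) = ∑ l ∈ I, p' l + (I.card - 1) + 1 + 1 := by omega
          rw [this]
          exact h3
        · intro z hz
          rcases mem_union.1 hz with hz | hz
          · obtain ⟨l, hl', hzl⟩ := mem_biUnion.1 hz
            exact mem_biUnion.2 ⟨l, hl', hsub l hzl⟩
          · rcases mem_insert.1 hz with rfl | hz
            · exact mem_biUnion.2 ⟨i, hi, hx1⟩
            · rw [mem_singleton] at hz; subst hz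
              exact mem_biUnion.2 ⟨j, hj, hx2⟩
      · intro l hl'
        simp only [hM', hp']
        by_cases h1 : l = i
        · rw [if_pos h1, if_pos h1]; exact hm1
        · rw [if_neg h1, if_neg h1]
          by_cases h2 : l = j
          · rw [if_pos h2, if_pos h2]; exact hm2
          · rw [if_neg h2, if_neg h2]; exact hm l hl'
      · intro l hl'
        simp only [hM', hp']
        by_cases h1 : l = i
        · rw [if_pos h1, if_pos h1, card_erase_of_mem (mem_erase.2 ⟨hxy1.symm, hy1⟩),
            card_erase_of_mem hx1]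
          have := hcard i hi
          omega
        · rw [if_neg h1, if_neg h1]
          by_cases h2 : l = j
          · rw [if_pos h2, if_pos h2, card_erase_of_mem (mem_erase.2 ⟨hxy2.symm, hy2⟩),
              card_erase_of_mem hx2]
            have := hcard j hj
            omega
          · rw [if_neg h2, if_neg h2]; exact hcard l hl'
    · -- at most one part has a non-trivial model
      obtain ⟨i0, hi0, hz⟩ : ∃ i0 ∈ I, ∀ j ∈ I, j ≠ i0 → p j = 0 := by
        by_cases hex : ∃ i ∈ I, 0 < p i
        · obtain ⟨i, hi, hpi⟩ := hex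
          refine ⟨i, hi, fun j hj hji => ?_⟩
          by_contra hne
          exact htwo ⟨i, hi, j, hj, hji.symm, hpi, Nat.pos_of_ne_zero hne⟩
        · push Not at hex
          obtain ⟨i, hi⟩ := hI
          exact ⟨i, hi, fun j hj _ => Nat.le_zero.1 (hex j hj)⟩
      have hn : n = p i0 := by
        rw [← hsum]
        exact sum_eq_single i0 (fun j hj hji => hz j hj hji) (fun h => absurd hi0 h)
      have h1 := base G c hc M i0 (p i0) (hm i0 hi0) (hl i0 hi0) (I.erase i0) (notMem_erase _ _)
        (fun i hi => hl i (mem_of_mem_erase hi))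
        (fun i hi => card_pos.1 (by have := hcard i (mem_of_mem_erase hi); omega))
      rw [hn, ← card_erase_of_mem hi0]
      refine minorIn_mono G h1 ?_
      intro z hz'
      rcases mem_union.1 (mem_coe.1 hz') with h | h
      · exact mem_coe.2 (mem_biUnion.2 ⟨i0, hi0, h⟩)
      · obtain ⟨l, hl', hzl⟩ := mem_biUnion.1 h
        exact mem_coe.2 (mem_biUnion.2 ⟨l, mem_of_mem_erase hl', hzl⟩)

end join

end Pool.Agent.X76.JoinHad
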