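import Pool.Agent.X76.JoinHad

/-! Weak Hadwiger and joins; Hadwiger for balanced joins and lexicographic products. -/

set_option autoImplicit false

namespace Pool.Agent.X76.JoinHad

open Finset Pool.Agent.W212.EFF TH481.DM

/-- `G` satisfies the off-by-one form. -/
def Off {V : Type} (G : SimpleGraph V) : Prop := ∀ k : ℕ, ¬ G.Colorable k → HasCliqueMinor G k

/-- `G` satisfies Hadwiger's conjecture. -/
def Hadw {V : Type} (G : SimpleGraph V) : Prop :=
  ∀ k : ℕ, ¬ G.Colorable k → HasCliqueMinor G (k + 1)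

theorem sub_minor {V W : Type} (G : SimpleGraph V) (G' : SimpleGraph W) (φ : V → W)
    (hφ : Function.Injective φ) (hadj : ∀ x y, G.Adj x y → G'.Adj (φ x) (φ y)) (k : ℕ)
    (h : HasCliqueMinor G k) : HasCliqueMinor G' k := by
  obtain ⟨f, hc, hd, ha⟩ := h
  refine ⟨fun i => φ '' (f i), ?_, ?_, ?_⟩
  · intro i
    let ψ : (G.induce (f i)) →g (G'.induce (φ '' (f i))) :=
      { toFun := fun x => ⟨φ x.1, ⟨x.1, x.2, rfl⟩⟩
        map_rel' := fun {a b} h => by
          have h' : G.Adj a.1 b.1 := by simpa using h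
          simpa using hadj _ _ h' }
    refine (hc i).map ψ ?_
    rintro ⟨_, x, hx, rfl⟩
    exact ⟨⟨x, hx⟩, rfl⟩
  · intro i j hij
    rw [Set.disjoint_left]
    rintro _ ⟨x, hx, rfl⟩ ⟨y, hy, hxy⟩
    exact Set.disjoint_left.1 (hd i j hij) hx (hφ hxy ▸ hy)
  · intro i j hij
    obtain ⟨u, hu, v, hv, huv⟩ := ha i j hij
    exact ⟨φ u, ⟨u, hu, rfl⟩, φ v, ⟨v, hv, rfl⟩, hadj _ _ huv⟩

theorem off_iso {V W : Type} (G : SimpleGraph V) (G' : SimpleGraph W) (φ : G ≃g G')
    (h : Off G) : Off G' := by
  intro j hj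
  refine sub_minor G G' φ φ.injective (fun x y hxy => φ.map_rel_iff.2 hxy) _ (h j ?_)
  intro hc
  exact hj (SimpleGraph.Colorable.of_hom φ.symm.toHom hc)

/-- Induced subgraphs of induced subgraphs. -/
def indIso {V : Type} (G : SimpleGraph V) (U : Set V) (X : Set U) :
    G.induce (Subtype.val '' X) ≃g (G.induce U).induce X where
  toFun y := ⟨⟨y.1, by obtain ⟨x, hx, h⟩ := y.2; rw [← h]; exact x.2⟩, by
    obtain ⟨x, hx, h⟩ := y.2
    have : x = ⟨y.1, by rw [← h]; exact x.2⟩ := Subtype.ext h
    rw [← this]; exact hx⟩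
  invFun x := ⟨x.1.1, ⟨x.1, x.2, rfl⟩⟩
  left_inv _ := rfl
  right_inv _ := rfl
  map_rel_iff' := by
    intro a b
    simp

theorem image_lt {V : Type} [Fintype V] (U : Set V) (X : Set U) (hX : X ≠ Set.univ) :
    (Subtype.val '' X : Set V).ncard < U.ncard := by
  apply Set.ncard_lt_ncard _ (Set.toFinite _)
  rw [Set.ssubset_iff_subset_ne]
  refine ⟨?_, ?_⟩
  · rintro _ ⟨x, _, rfl⟩; exact x.2
  · intro heq
    apply hX
    ext x
    simp only [Set.mem_univ, iff_true]
    have : x.1 ∈ Subtype.val '' X := by rw [heq]; exact x.2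
    obtain ⟨y, hy, hyx⟩ := this
    rwa [Subtype.ext hyx] at hy

/-- A failure contains a smallest one. -/
theorem exists_min {V : Type} [Fintype V] (G : SimpleGraph V) (h : ¬ Off G) :
    ∃ U : Set V, ¬ Off (G.induce U) ∧
      ∀ X : Set U, X ≠ Set.univ → Off ((G.induce U).induce X) := by
  have key : ∀ n : ℕ, ∀ U : Set V, U.ncard = n → ¬ Off (G.induce U) →
      ∃ U : Set V, ¬ Off (G.induce U) ∧
        ∀ X : Set U, X ≠ Set.univ → Off ((G.induce U).induce X) := by
    intro n
    induction n using Nat.strong_induction_on with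
    | _ n ih =>
      intro U hU hnot
      by_cases hex : ∃ X : Set U, X ≠ Set.univ ∧ ¬ Off ((G.induce U).induce X)
      · obtain ⟨X, hX, hXn⟩ := hex
        refine ih _ (hU ▸ image_lt U X hX) (Subtype.val '' X) rfl ?_
        intro hh
        exact hXn (off_iso _ _ (indIso G U X) hh)
      · push Not at hex
        exact ⟨U, hnot, hex⟩
  refine key _ Set.univ rfl ?_
  intro hh
  exact h (off_iso _ _ (SimpleGraph.induceUnivIso G) hh)

section comps

open Classical in
theorem label_adj {V : Type} (G H : SimpleGraph V)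
    (hHadj : ∀ u v, H.Adj u v ↔ u ≠ v ∧ ¬ G.Adj u v) (u v : V)
    (h : H.connectedComponentMk u ≠ H.connectedComponentMk v) : G.Adj u v := by
  by_contra hcon
  apply h
  by_cases huv : u = v
  · rw [huv]
  · exact SimpleGraph.ConnectedComponent.sound ((hHadj u v).2 ⟨huv, hcon⟩).reachable

open Classical in
theorem crit_join {V : Type} [Fintype V] [Nonempty V] (G H : SimpleGraph V)
    (hHadj : ∀ u v, H.Adj u v ↔ u ≠ v ∧ ¬ G.Adj u v)
    (hcrit : ∀ v, Y (Ind G) ((univ : Finset V).erase v) < Y (Ind G) (univ : Finset V))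
    (hoff : ∀ a, MinorIn G (comp H a : Set V) (Y (Ind G) (comp H a) - 1)) :
    HasCliqueMinor G (Y (Ind G) (univ : Finset V) - 1) := by
  have hsurj : Function.Surjective H.connectedComponentMk := by
    intro C
    induction C using SimpleGraph.ConnectedComponent.ind with
    | _ v => exact ⟨v, rfl⟩
  set rep := Function.surjInv hsurj with hrep
  have hrepq : ∀ C, H.connectedComponentMk (rep C) = C := Function.surjInv_eq hsurj
  have hcompmem : ∀ C v, v ∈ comp H (rep C) ↔ H.connectedComponentMk v = C := by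
    intro C v
    simp only [comp, mem_filter, mem_univ, true_and]
    rw [← SimpleGraph.ConnectedComponent.eq, hrepq]
    exact eq_comm
  have hun : (univ : Finset V) = (univ : Finset H.ConnectedComponent).biUnion
      (fun C => comp H (rep C)) := by
    ext v
    simp only [mem_univ, mem_biUnion, true_and, true_iff]
    exact ⟨H.connectedComponentMk v, (hcompmem _ v).2 rfl⟩
  have h3 : Y (Ind G) (univ : Finset V) ≤ ∑ C : H.ConnectedComponent,
      Y (Ind G) (comp H (rep C)) := by
    conv_lhs => rw [hun]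
    exact Y_biUnion_le (ind_cpx G) _ _
  have hpos : ∀ a, 1 ≤ Y (Ind G) (comp H a) := by
    intro a
    by_contra hcon
    have h0 : Y (Ind G) (comp H a) = 0 := by omega
    have hs := Y_spec (ind_cpx G) (comp H a)
    rw [h0] at hs
    simp only [Cov] at hs
    have : a ∈ comp H a := by
      simp only [comp, mem_filter, mem_univ, true_and]
      exact SimpleGraph.Reachable.refl a
    rw [hs] at this
    exact absurd this (notMem_empty a)
  obtain ⟨v0⟩ : Nonempty V := inferInstance
  have hne : (univ : Finset H.ConnectedComponent).Nonempty := ⟨H.connectedComponentMk v0, mem_univ _⟩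
  have hJ := joinMinor G H.connectedComponentMk (label_adj G H hHadj) univ hne
    (∑ C, (Y (Ind G) (comp H (rep C)) - 1)) (fun C => comp H (rep C))
    (fun C => Y (Ind G) (comp H (rep C)) - 1) rfl
    (fun C _ x hx => (hcompmem C x).1 hx) (fun C _ => hoff (rep C))
    (fun C _ => by
      have h1 := comp_gallai G H hHadj hcrit (rep C)
      have h2 := hpos (rep C)
      omega)
  refine minor_of_minorIn G _ _ _ hJ ?_
  have hsum : ∑ C : H.ConnectedComponent, Y (Ind G) (comp H (rep C)) =
      ∑ C : H.ConnectedComponent, (Y (Ind G) (comp H (rep C)) - 1) +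
        (univ : Finset H.ConnectedComponent).card := by
    rw [card_eq_sum_ones, ← sum_add_distrib]
    exact sum_congr rfl (fun C _ => (Nat.sub_add_cancel (hpos (rep C))).symm)
  have hcp : 1 ≤ (univ : Finset H.ConnectedComponent).card := card_pos.2 hne
  omega

open Classical in
/-- A smallest failure of the off-by-one form has a connected complement. -/
theorem min_conn {V : Type} [Fintype V] (G : SimpleGraph V) (k : ℕ)
    (h1 : ¬ G.Colorable k) (h2 : ¬ HasCliqueMinor G k)
    (hmin : ∀ U : Set V, U ≠ Set.univ → Off (G.induce U)) :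
    Gᶜ.Connected ∧ 2 * k + 1 ≤ Fintype.card V := by
  have hHadj : ∀ u v, Gᶜ.Adj u v ↔ u ≠ v ∧ ¬ G.Adj u v := fun u v => by
    rw [SimpleGraph.compl_adj]
  have hcrit := crit_of_min G 0 k (by omega) h1 h2 (fun U hU j hj => hmin U hU j hj)
  have hk := lt_Y_univ G k h1
  obtain ⟨a⟩ : Nonempty V := by
    by_contra hne
    rw [not_nonempty_iff] at hne
    exact h1 ⟨SimpleGraph.Coloring.mk (fun v => (hne.false v).elim)
      (fun {v} => (hne.false v).elim)⟩
  haveI : Nonempty V := ⟨a⟩
  have huniv : ∃ b, comp Gᶜ b = univ := by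
    by_contra hne
    push Not at hne
    apply h2
    refine minor_mono G _ _ (crit_join G Gᶜ hHadj hcrit ?_) (by omega : k ≤ _)
    intro b
    rcases Nat.eq_zero_or_pos (Y (Ind G) (comp Gᶜ b)) with h0 | h0
    · rw [h0]; exact minorIn_zero G _
    · have hne' : ((comp Gᶜ b : Finset V) : Set V) ≠ Set.univ := by
        intro h
        exact hne b (Finset.coe_eq_univ.1 h)
      exact minorIn_of_induce G _ _ (hmin _ hne' _ (not_colorable_induce G (comp Gᶜ b) h0))
  obtain ⟨b, hb⟩ := huniv
  refine ⟨?_, ?_⟩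
  · have hr : ∀ v, Gᶜ.Reachable b v := by
      intro v
      have : v ∈ comp Gᶜ b := by rw [hb]; exact mem_univ v
      simpa only [comp, mem_filter, mem_univ, true_and] using this
    exact SimpleGraph.Connected.mk (fun u v => (hr u).symm.trans (hr v))
  · have h3 := comp_gallai G Gᶜ hHadj hcrit b
    rw [hb, card_univ] at h3
    omega

/-- The graphs all of whose induced subgraphs satisfy the off-by-one form are closed under
joins. -/
theorem closure {V ι : Type} [Fintype V] (G : SimpleGraph V) (c : V → ι)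
    (hc : ∀ u v, c u ≠ c v → G.Adj u v)
    (h : ∀ U : Set V, (∀ x ∈ U, ∀ y ∈ U, c x = c y) → Off (G.induce U)) : Off G := by
  classical
  by_contra hcon
  obtain ⟨U, hU, hmin⟩ := exists_min G hcon
  have hU' := hU
  unfold Off at hU'
  push Not at hU'
  obtain ⟨k, h1, h2⟩ := hU'
  have hconn := (min_conn (G.induce U) k h1 h2 hmin).1
  apply hU
  apply h
  have key : ∀ a b : U, ((G.induce U)ᶜ).Reachable a b → c a.1 = c b.1 := by
    rintro a b ⟨w⟩
    induction w with
    | nil => rfl
    | cons hab _ ih =>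
      rw [← ih]
      by_contra hne
      rw [SimpleGraph.compl_adj] at hab
      exact hab.2 (by simpa using hc _ _ hne)
  intro x hx y hy
  exact key ⟨x, hx⟩ ⟨y, hy⟩ (hconn.preconnected _ _)

end comps

end Pool.Agent.X76.JoinHad
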