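import Pool.Agent.X76.JoinHad2

/-! Hadwiger's conjecture for balanced joins and lexicographic products. -/

set_option autoImplicit false

namespace Pool.Agent.X76.JoinHad

open Finset Pool.Agent.W212.EFF TH481.DM

open Classical in
/-- Representatives of the components of the complement of a vertex-critical graph. -/
theorem reps {V : Type} [Fintype V] (G H : SimpleGraph V)
    (hHadj : ∀ u v, H.Adj u v ↔ u ≠ v ∧ ¬ G.Adj u v)
    (hcrit : ∀ v, Y (Ind G) ((univ : Finset V).erase v) < Y (Ind G) (univ : Finset V)) :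
    ∃ S : Finset V, (∀ u ∈ S, ∀ v ∈ S, H.Reachable u v → u = v) ∧
      (∀ v, ∃ u ∈ S, H.Reachable u v) ∧ S.card = Nat.card H.ConnectedComponent ∧
      2 * Y (Ind G) (univ : Finset V) ≤ 2 * S.card + (Sᶜ : Finset V).card := by
  have hsurj : Function.Surjective H.connectedComponentMk := by
    intro C
    induction C using SimpleGraph.ConnectedComponent.ind with
    | _ v => exact ⟨v, rfl⟩
  set rep := Function.surjInv hsurj with hrep
  have hrepq : ∀ C, H.connectedComponentMk (rep C) = C := Function.surjInv_eq hsurj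
  have hrepinj : Function.Injective rep := Function.injective_surjInv hsurj
  set S : Finset V := univ.image rep with hS
  have hScard : S.card = Fintype.card H.ConnectedComponent := by
    rw [hS, Finset.card_image_of_injective _ hrepinj, Finset.card_univ]
  have hcompmem : ∀ C v, v ∈ comp H (rep C) ↔ H.connectedComponentMk v = C := by
    intro C v
    simp only [comp, mem_filter, mem_univ, true_and]
    rw [← SimpleGraph.ConnectedComponent.eq, hrepq]
    exact eq_comm
  have hsum : Fintype.card V = ∑ C : H.ConnectedComponent, (comp H (rep C)).card := by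
    rw [← Finset.card_univ, Finset.card_eq_sum_card_fiberwise (s := (univ : Finset V))
      (f := fun v => H.connectedComponentMk v) (t := (univ : Finset H.ConnectedComponent))
      (by intro x _; simp)]
    refine Finset.sum_congr rfl (fun C _ => ?_)
    congr 1
    ext v
    rw [mem_filter, hcompmem]
    simp
  have hY : 2 * Y (Ind G) (univ : Finset V) ≤
      Fintype.card V + Fintype.card H.ConnectedComponent := by
    have hun : (univ : Finset V) = (univ : Finset H.ConnectedComponent).biUnion
        (fun C => comp H (rep C)) := by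
      ext v
      simp only [mem_univ, mem_biUnion, true_and, true_iff]
      exact ⟨H.connectedComponentMk v, (hcompmem _ v).2 rfl⟩
    have h3 : Y (Ind G) (univ : Finset V) ≤ ∑ C : H.ConnectedComponent,
        Y (Ind G) (comp H (rep C)) := by
      conv_lhs => rw [hun]
      exact Y_biUnion_le (ind_cpx G) _ _
    calc 2 * Y (Ind G) (univ : Finset V) ≤ 2 * ∑ C : H.ConnectedComponent,
          Y (Ind G) (comp H (rep C)) := Nat.mul_le_mul_left _ h3
      _ = ∑ C : H.ConnectedComponent, 2 * Y (Ind G) (comp H (rep C)) := by rw [Finset.mul_sum]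
      _ ≤ ∑ C : H.ConnectedComponent, ((comp H (rep C)).card + 1) :=
          Finset.sum_le_sum (fun C _ => comp_gallai G H hHadj hcrit (rep C))
      _ = Fintype.card V + Fintype.card H.ConnectedComponent := by
          rw [Finset.sum_add_distrib, ← hsum]; simp
  refine ⟨S, ?_, ?_, ?_, ?_⟩
  · intro u hu v hv huv
    obtain ⟨C, _, rfl⟩ := mem_image.1 hu
    obtain ⟨C', _, rfl⟩ := mem_image.1 hv
    have := SimpleGraph.ConnectedComponent.eq.2 huv
    rw [hrepq, hrepq] at this
    rw [this]
  · intro v
    refine ⟨rep (H.connectedComponentMk v), mem_image_of_mem _ (mem_univ _), ?_⟩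
    exact SimpleGraph.ConnectedComponent.eq.1 (hrepq _)
  · rw [hScard, Nat.card_eq_fintype_card]
  · have h1 : S.card + (Sᶜ : Finset V).card = Fintype.card V := Finset.card_add_card_compl S
    omega

open Classical in
theorem crit_of_col {V : Type} [Fintype V] (G : SimpleGraph V) (k : ℕ)
    (hcol : ∀ v, (G.induce {v}ᶜ).Colorable k) (h1 : ¬ G.Colorable k) :
    (∀ v, Y (Ind G) ((univ : Finset V).erase v) < Y (Ind G) (univ : Finset V)) ∧
      k + 1 ≤ Y (Ind G) (univ : Finset V) := by
  have hk := lt_Y_univ G k h1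
  have hY : ∀ v, Y (Ind G) ((univ : Finset V).erase v) ≤ k := by
    intro v
    apply Y_le
    rw [cov_iff, ← colorable_induce_iff]
    have : (((univ : Finset V).erase v : Finset V) : Set V) = {v}ᶜ := by
      ext w; simp
    rw [this]
    exact hcol v
  exact ⟨fun v => lt_of_le_of_lt (hY v) hk, hk⟩

open Classical in
/-- Vertex-critical graphs whose complement has no dominating component satisfy Hadwiger's
conjecture. -/
theorem balanced {V : Type} [Fintype V] (G : SimpleGraph V) (k : ℕ)
    (hcol : ∀ v, (G.induce {v}ᶜ).Colorable k) (h1 : ¬ G.Colorable k)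
    (hbal : ∀ C : Gᶜ.ConnectedComponent,
      2 * C.supp.ncard + Nat.card Gᶜ.ConnectedComponent ≤ Fintype.card V + 2) :
    HasCliqueMinor G (k + 1) := by
  have hHadj : ∀ u v, Gᶜ.Adj u v ↔ u ≠ v ∧ ¬ G.Adj u v := fun u v => by
    rw [SimpleGraph.compl_adj]
  obtain ⟨hcrit, hk⟩ := crit_of_col G k hcol h1
  obtain ⟨S, hS1, hS2, hS3, hS4⟩ := reps G Gᶜ hHadj hcrit
  have hSc : S.card + (Sᶜ : Finset V).card = Fintype.card V := Finset.card_add_card_compl S
  let e := Fintype.equivFin Gᶜ.ConnectedComponent
  refine cross_pairs G (fun v => e (Gᶜ.connectedComponentMk v)) ?_ S ?_ ?_ (k + 1) (by omega)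
  · intro u v h
    exact label_adj G Gᶜ hHadj u v (fun h' => h (by simp only [h']))
  · intro u hu v hv h
    exact hS1 u hu v hv (SimpleGraph.ConnectedComponent.eq.1 (e.injective h))
  · intro a
    obtain ⟨v, hv⟩ : ∃ v, Gᶜ.connectedComponentMk v = e.symm a := by
      induction e.symm a using SimpleGraph.ConnectedComponent.ind with
      | _ v => exact ⟨v, rfl⟩
    obtain ⟨u, hu, huv⟩ := hS2 v
    have h2 := hbal (e.symm a)
    have h3 : ((Sᶜ).filter (fun v => e (Gᶜ.connectedComponentMk v) = a)).card + 1 ≤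
        (e.symm a).supp.ncard := by
      rw [Set.ncard_eq_toFinset_card', ← card_insert_of_notMem (a := u)]
      · apply card_le_card
        intro w hw
        rw [Set.mem_toFinset, SimpleGraph.ConnectedComponent.mem_supp_iff]
        rcases mem_insert.1 hw with rfl | hw
        · rw [← hv]; exact SimpleGraph.ConnectedComponent.eq.2 huv
        · rw [← (mem_filter.1 hw).2, Equiv.symm_apply_apply]
      · intro h
        exact absurd hu (mem_compl.1 (mem_filter.1 h).1)
    omega

/-- The lexicographic product: every vertex of `H` is replaced by a copy of `G`. -/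
def Lex {W V : Type} (H : SimpleGraph W) (G : SimpleGraph V) : SimpleGraph (W × V) where
  Adj a b := H.Adj a.1 b.1 ∨ (a.1 = b.1 ∧ G.Adj a.2 b.2)
  symm := ⟨fun a b h => by
    rcases h with h | ⟨h, h'⟩
    · exact Or.inl h.symm
    · exact Or.inr ⟨h.symm, h'.symm⟩⟩
  loopless := ⟨fun a h => by
    rcases h with h | ⟨_, h'⟩
    · exact H.irrefl h
    · exact G.irrefl h'⟩

theorem exists_crit {V : Type} [Fintype V] (G : SimpleGraph V) (k : ℕ) (h : ¬ G.Colorable k) :
    ∃ U : Set V, ¬ (G.induce U).Colorable k ∧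
      ∀ v : U, ((G.induce U).induce {v}ᶜ).Colorable k := by
  classical
  have key : ∀ n : ℕ, ∀ U : Set V, U.ncard = n → ¬ (G.induce U).Colorable k →
      ∃ U : Set V, ¬ (G.induce U).Colorable k ∧
        ∀ v : U, ((G.induce U).induce {v}ᶜ).Colorable k := by
    intro n
    induction n using Nat.strong_induction_on with
    | _ n ih =>
      intro U hU hnot
      by_cases hex : ∃ v : U, ¬ ((G.induce U).induce {v}ᶜ).Colorable k
      · obtain ⟨v, hv⟩ := hex
        refine ih _ (hU ▸ image_lt U ({v}ᶜ) ?_) (Subtype.val '' ({v}ᶜ : Set U)) rfl ?_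
        · intro hh
          exact hv (SimpleGraph.Colorable.of_hom (indIso G U {v}ᶜ).symm.toHom hh)
        · intro h
          have : v ∈ ({v}ᶜ : Set U) := by rw [h]; trivial
          exact this rfl
      · push Not at hex
        exact ⟨U, hnot, hex⟩
  refine key _ Set.univ rfl ?_
  intro hh
  exact h (SimpleGraph.Colorable.of_hom (SimpleGraph.induceUnivIso G).symm.toHom hh)

open Classical in
theorem lex_top {V : Type} [Fintype V] (G : SimpleGraph V) (k r : ℕ) (hr : 2 ≤ r)
    (hcol : ∀ v, (G.induce {v}ᶜ).Colorable k) (h1 : ¬ G.Colorable k) :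
    HasCliqueMinor (Lex (⊤ : SimpleGraph (Fin r)) G) (r * (k + 1)) := by
  have hHadj : ∀ u v, Gᶜ.Adj u v ↔ u ≠ v ∧ ¬ G.Adj u v := fun u v => by
    rw [SimpleGraph.compl_adj]
  obtain ⟨hcrit, hk⟩ := crit_of_col G k hcol h1
  obtain ⟨S, hS1, hS2, hS3, hS4⟩ := reps G Gᶜ hHadj hcrit
  let e := Fintype.equivFin Gᶜ.ConnectedComponent
  let T : Finset (Fin r × V) := univ ×ˢ S
  have hT : T.card = r * S.card := by simp [T]
  have hA : ∀ A : Finset (Fin r × V), (∀ x, x ∈ A ↔ x ∉ T) →
      A.card = r * (Sᶜ : Finset V).card := by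
    intro A hA
    have : A = univ ×ˢ Sᶜ := by
      ext x; rw [hA]; simp [T]
    rw [this, card_product, card_univ, Fintype.card_fin]
  refine cross_pairs (Lex (⊤ : SimpleGraph (Fin r)) G)
    (fun x => toLex (x.1, e (Gᶜ.connectedComponentMk x.2))) ?_ T ?_ ?_ (r * (k + 1)) ?_
  · rintro ⟨i, u⟩ ⟨j, v⟩ h
    by_cases hij : i = j
    · right
      refine ⟨hij, label_adj G Gᶜ hHadj u v (fun h' => h ?_)⟩
      simp only [hij, h']
    · left
      simpa using hij
  · rintro ⟨i, u⟩ hu ⟨j, v⟩ hv h
    have h' := toLex.injective h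
    simp only [Prod.mk.injEq] at h'
    have hu' : u ∈ S := by simpa [T] using hu
    have hv' : v ∈ S := by simpa [T] using hv
    rw [h'.1, hS1 u hu' v hv' (SimpleGraph.ConnectedComponent.eq.1 (e.injective h'.2))]
  · intro a
    refine le_trans ?_ (le_of_eq (hA _ (by intro x; simp)).symm)
    refine (Nat.mul_le_mul_left 2 (card_le_card_of_injOn (t := Sᶜ) (fun x => x.2) ?_ ?_)).trans
      (Nat.mul_le_mul_right _ hr)
    · intro x hx
      have := (mem_filter.1 (mem_coe.1 hx)).1
      simpa [T] using this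
    · rintro ⟨i, u⟩ hx ⟨j, v⟩ hy h
      have h3 := (mem_filter.1 (mem_coe.1 hx)).2
      have h4 := (mem_filter.1 (mem_coe.1 hy)).2
      have h5 := toLex.injective (h3.trans h4.symm)
      simp only [Prod.mk.injEq] at h5
      exact Prod.ext h5.1 h
  · have h6 : ∀ n, n = r * (Sᶜ : Finset V).card → r * (k + 1) ≤ T.card + n / 2 := by
      intro n hn
      rw [hT, hn]
      have h5 : 2 * (r * (k + 1)) ≤ 2 * (r * S.card) + r * (Sᶜ : Finset V).card := by
        calc 2 * (r * (k + 1)) = r * (2 * (k + 1)) := by ring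
          _ ≤ r * (2 * S.card + (Sᶜ : Finset V).card) := Nat.mul_le_mul_left _ (by omega)
          _ = 2 * (r * S.card) + r * (Sᶜ : Finset V).card := by ring
      omega
    exact h6 _ (hA _ (by intro x; simp))

/-- Hadwiger's conjecture for `H[G]`, `χ(H) = ω(H) ≥ 2`. -/
theorem lex_hadw {W V : Type} [Fintype V] (H : SimpleGraph W) (G : SimpleGraph V)
    (r : ℕ) (hr : 2 ≤ r) (hH : H.Colorable r) (hcl : ¬ H.CliqueFree r) :
    Hadw (Lex H G) := by
  classical
  intro k hk
  -- the chromatic number of `G`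
  by_cases hemp : G.Colorable 0
  · exfalso
    apply hk
    have : IsEmpty V := by
      rw [← SimpleGraph.colorable_zero_iff (G := G)]
      exact hemp
    exact ⟨SimpleGraph.Coloring.mk (fun x => isEmptyElim x.2) (fun {x} => isEmptyElim x.2)⟩
  have hex : ∃ n, G.Colorable n := ⟨_, G.colorable_of_fintype⟩
  set Y0 := Nat.find hex with hY0
  have hcolY : G.Colorable Y0 := Nat.find_spec hex
  have hYpos : 0 < Y0 := by
    rw [Nat.pos_iff_ne_zero]
    intro h
    rw [h] at hcolY
    exact hemp hcolY
  have hnot : ¬ G.Colorable (Y0 - 1) := Nat.find_min hex (by omega)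
  have hprod : (Lex H G).Colorable (r * Y0) := by
    obtain ⟨cH⟩ := hH
    obtain ⟨cG⟩ := hcolY
    have hcc : (Lex H G).Coloring (Fin r × Fin Y0) :=
      SimpleGraph.Coloring.mk (fun x => (cH x.1, cG x.2)) (by
        rintro x y (h | ⟨h, h'⟩) heq
        · exact cH.valid h (Prod.mk.inj heq).1
        · exact cG.valid h' (Prod.mk.inj heq).2)
    have := hcc.colorable
    simpa using this
  have hlt : k < r * Y0 := by
    by_contra hcon
    exact hk (hprod.mono (not_lt.1 hcon))
  obtain ⟨U, hU, hUc⟩ := exists_crit G (Y0 - 1) hnot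
  have h1 := lex_top (G.induce U) (Y0 - 1) r hr hUc hU
  rw [Nat.sub_add_cancel hYpos] at h1
  unfold SimpleGraph.CliqueFree at hcl
  push Not at hcl
  obtain ⟨s, hs⟩ := hcl
  let e : Fin r ≃ s := (s.equivFinOfCardEq hs.2).symm
  refine minor_mono _ _ _ (sub_minor _ (Lex H G) (fun x => ((e x.1).1, x.2.1)) ?_ ?_ _ h1) hlt
  · rintro ⟨i, u⟩ ⟨j, v⟩ h
    simp only [Prod.mk.injEq] at h
    exact Prod.ext (e.injective (Subtype.ext h.1)) (Subtype.ext h.2)
  · rintro ⟨i, u⟩ ⟨j, v⟩ (h | ⟨h, h'⟩)
    · left
      have hij : i ≠ j := by simpa using h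
      exact hs.1 (e i).2 (e j).2 (fun h'' => hij (e.injective (Subtype.ext h'')))
    · right
      exact ⟨by simp only at h; rw [h], by simpa using h'⟩

end Pool.Agent.X76.JoinHad
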