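import Pool.Agent.X76.JoinHad3

/-! Substitution into perfect graphs. -/

set_option autoImplicit false

namespace Pool.Agent.X76.JoinHad

open Finset Pool.Agent.W212.EFF TH481.DM

/-- Weighted colourings of perfect graphs. -/
theorem weighted {W : Type} [Fintype W] [DecidableEq W] (H : SimpleGraph W)
    (hperf : ∀ (U : Finset W) (m : ℕ), (∀ K ⊆ U, H.IsClique (K : Set W) → K.card ≤ m) →
      ∃ c : W → ℕ, (∀ v ∈ U, c v < m) ∧ ∀ u ∈ U, ∀ v ∈ U, H.Adj u v → c u ≠ c v) :
    ∀ (n : ℕ) (p : W → ℕ) (m : ℕ), ∑ v, p v = n →
      (∀ K : Finset W, H.IsClique (K : Set W) → ∑ v ∈ K, p v ≤ m) →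
      ∃ S : Fin m → Finset W, (∀ i, ∀ u ∈ S i, ∀ v ∈ S i, ¬ H.Adj u v) ∧
        ∀ v, p v ≤ (univ.filter (fun i => v ∈ S i)).card := by
  intro n
  induction n using Nat.strong_induction_on with
  | _ n ih =>
    intro p m hsum hK
    by_cases hbig : ∃ v, 2 ≤ p v
    · obtain ⟨v, hv⟩ := hbig
      set p' : W → ℕ := fun u => if u = v then p u - 1 else p u with hp'
      have hle' : ∀ u, p' u ≤ p u := by
        intro u; simp only [hp']; split_ifs <;> omega
      have hlt' : ∑ u, p' u < n := by
        rw [← hsum]
        refine sum_lt_sum (fun u _ => hle' u) ⟨v, mem_univ _, ?_⟩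
        simp only [hp', if_true]; omega
      obtain ⟨S', hS1, hS2⟩ := ih _ hlt' p' m rfl
        (fun K hKc => (sum_le_sum (fun u _ => hle' u)).trans (hK K hKc))
      obtain ⟨i0, hi0⟩ : ∃ i0, v ∈ S' i0 := by
        have h1 := hS2 v
        have h2 : 0 < (univ.filter (fun i => v ∈ S' i)).card := by
          simp only [hp', if_true] at h1; omega
        obtain ⟨i, hi⟩ := card_pos.1 h2
        exact ⟨i, (mem_filter.1 hi).2⟩
      obtain ⟨m', rfl⟩ : ∃ m', m = m' + 1 := ⟨m - 1, by have := i0.2; omega⟩
      set A := S' i0 with hA
      set p'' : W → ℕ := fun u => if u ∈ A then p u - 1 else p u with hp''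
      have hle'' : ∀ u, p'' u ≤ p u := by
        intro u; simp only [hp'']; split_ifs <;> omega
      have hlt'' : ∑ u, p'' u < n := by
        rw [← hsum]
        refine sum_lt_sum (fun u _ => hle'' u) ⟨v, mem_univ _, ?_⟩
        simp only [hp'', if_pos hi0]; omega
      have hcl : ∀ K : Finset W, H.IsClique (K : Set W) → ∑ v ∈ K, p'' v ≤ m' := by
        intro K hKc
        by_contra hcon
        have hcon := not_le.1 hcon
        have hKm := hK K hKc
        have hle : ∑ u ∈ K, p'' u ≤ ∑ u ∈ K, p u := sum_le_sum (fun u _ => hle'' u)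
        have heq : ∑ u ∈ K, p'' u = ∑ u ∈ K, p u := by omega
        have heach : ∀ u ∈ K, p'' u = p u :=
          (sum_eq_sum_iff_of_le (fun u _ => hle'' u)).1 heq
        set K0 := K.filter (fun u => 1 ≤ p u) with hK0
        have hK0A : ∀ u ∈ K0, u ∉ A := by
          intro u hu hA'
          have h5 := heach u (mem_filter.1 hu).1
          have h6 := (mem_filter.1 hu).2
          simp only [hp'', if_pos hA'] at h5
          omega
        have hsumK0 : ∑ u ∈ K0, p u = ∑ u ∈ K, p u := by
          rw [hK0, sum_filter]
          refine sum_congr rfl (fun u _ => ?_)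
          split_ifs with h
          · rfl
          · omega
        have hK0c : H.IsClique (K0 : Set W) := hKc.subset (by
          intro u hu; exact mem_coe.2 (mem_filter.1 (mem_coe.1 hu)).1)
        have h7 : ∑ u ∈ K0, p u ≤ ∑ u ∈ K0, (univ.filter (fun i => u ∈ S' i)).card := by
          refine sum_le_sum (fun u hu => ?_)
          have h8 := hS2 u
          have h9 : u ≠ v := by rintro rfl; exact hK0A u hu hi0
          simp only [hp', if_neg h9] at h8
          exact h8
        have h10 : ∑ u ∈ K0, (univ.filter (fun i => u ∈ S' i)).card =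
            ∑ i, (K0.filter (fun u => u ∈ S' i)).card := by
          simp_rw [card_filter]
          exact sum_comm
        have h11 : ∑ i, (K0.filter (fun u => u ∈ S' i)).card ≤
            ∑ i : Fin (m' + 1), (if i = i0 then 0 else 1) := by
          refine sum_le_sum (fun i _ => ?_)
          split_ifs with hi
          · rw [hi, Nat.le_zero, card_eq_zero, filter_eq_empty_iff]
            intro u hu
            exact hK0A u hu
          · refine card_le_one.2 (fun a ha b hb => ?_)
            by_contra hab
            exact hS1 i a (mem_filter.1 ha).2 b (mem_filter.1 hb).2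
              (hK0c (mem_coe.2 (mem_filter.1 ha).1) (mem_coe.2 (mem_filter.1 hb).1) hab)
        have h12 : ∑ i : Fin (m' + 1), (if i = i0 then 0 else 1) = m' := by
          have h13 : ∑ i : Fin (m' + 1), (if i = i0 then 0 else 1) +
              ∑ i : Fin (m' + 1), (if i = i0 then 1 else 0) = m' + 1 := by
            rw [← sum_add_distrib]
            have : ∀ i : Fin (m' + 1), ((if i = i0 then 0 else 1) + (if i = i0 then 1 else 0)) = 1 := by
              intro i; split_ifs <;> rfl
            simp [this]
          rw [sum_ite_eq' univ i0, if_pos (mem_univ _)] at h13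
          omega
        omega
      obtain ⟨S'', hT1, hT2⟩ := ih _ hlt'' p'' m' rfl hcl
      · refine ⟨Fin.cons A S'', ?_, ?_⟩
        · intro i
          refine Fin.cases ?_ (fun j => ?_) i
          · exact hS1 i0
          · exact hT1 j
        · intro u
          have h3 := hT2 u
          have h4 : (univ.filter (fun i : Fin (m' + 1) =>
              u ∈ (Fin.cons A S'' : Fin (m' + 1) → Finset W) i)).card =
              (if u ∈ A then 1 else 0) + (univ.filter (fun i => u ∈ S'' i)).card := by
            rw [card_filter, card_filter, Fin.sum_univ_succ]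
            simp only [Fin.cons_zero, Fin.cons_succ]
          rw [h4]
          simp only [hp''] at h3
          split_ifs at h3 ⊢ <;> omega
    · push Not at hbig
      set U := univ.filter (fun v => p v = 1) with hU
      obtain ⟨c, hc1, hc2⟩ := hperf U m (by
        intro K hKU hKc
        have h1 : K.card = ∑ v ∈ K, p v := by
          rw [card_eq_sum_ones]
          exact sum_congr rfl (fun v hv => (mem_filter.1 (hKU hv)).2.symm)
        rw [h1]; exact hK K hKc)
      refine ⟨fun i => U.filter (fun v => c v = i.1), ?_, ?_⟩
      · intro i u hu v hv huv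
        exact hc2 u (mem_filter.1 hu).1 v (mem_filter.1 hv).1 huv
          ((mem_filter.1 hu).2.trans (mem_filter.1 hv).2.symm)
      · intro v
        have h1 := hbig v
        by_cases h0 : p v = 1
        · rw [h0]
          have hvU : v ∈ U := by rw [hU, mem_filter]; exact ⟨mem_univ _, h0⟩
          exact card_pos.2 ⟨⟨c v, hc1 v hvU⟩, by
            rw [mem_filter]
            exact ⟨mem_univ _, mem_filter.2 ⟨hvU, rfl⟩⟩⟩
        · have : p v = 0 := by omega
          rw [this]; exact Nat.zero_le _

end Pool.Agent.X76.JoinHad
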