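import Pool.Agent.X76.JoinHad4

/-! The off-by-one form and substitution into perfect graphs; near-perfect classes. -/

set_option autoImplicit false

namespace Pool.Agent.X76.JoinHad

open Finset Pool.Agent.W212.EFF TH481.DM

/-- `H` is perfect. -/
def Perf {W : Type} (H : SimpleGraph W) : Prop :=
  ∀ (U : Set W) (m : ℕ), (H.induce U).CliqueFree (m + 1) → (H.induce U).Colorable m

theorem cliqueFree_of {W : Type} (H : SimpleGraph W) (U : Finset W) (m : ℕ)
    (h : ∀ K ⊆ U, H.IsClique (K : Set W) → K.card ≤ m) :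
    (H.induce (U : Set W)).CliqueFree (m + 1) := by
  intro s hs
  have h1 := h (s.map (Function.Embedding.subtype _)) ?_ ?_
  · rw [card_map, hs.2] at h1
    omega
  · intro x hx
    obtain ⟨y, _, rfl⟩ := mem_map.1 hx
    exact mem_coe.1 y.2
  · intro x hx y hy hxy
    obtain ⟨x', hx', rfl⟩ := mem_map.1 (mem_coe.1 hx)
    obtain ⟨y', hy', rfl⟩ := mem_map.1 (mem_coe.1 hy)
    have := hs.1 (mem_coe.2 hx') (mem_coe.2 hy') (fun h => hxy (by rw [h]))
    simpa using this

section perf

variable {V W : Type} [Fintype V] [Fintype W]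

open Classical in
theorem join_sum (G : SimpleGraph V) (H : SimpleGraph W) (c : V → W)
    (hc : ∀ u v, c u ≠ c v → (G.Adj u v ↔ H.Adj (c u) (c v))) (K : Finset W)
    (hK : H.IsClique (K : Set W)) :
    ∑ w ∈ K, Y (Ind G) (univ.filter (fun v => c v = w)) ≤
      Y (Ind G) (univ.filter (fun v => c v ∈ K)) := by
  induction K using Finset.induction_on with
  | empty => simp
  | insert a s ha ih =>
    have hs : H.IsClique (s : Set W) := hK.subset (by
      intro x hx; exact mem_coe.2 (mem_insert_of_mem (mem_coe.1 hx)))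
    have ih' := ih hs
    rw [sum_insert ha]
    have h1 : Y (Ind G) (univ.filter (fun v => c v = a)) +
        Y (Ind G) (univ.filter (fun v => c v ∈ insert a s) \ univ.filter (fun v => c v = a)) ≤
        Y (Ind G) (univ.filter (fun v => c v ∈ insert a s)) := by
      apply Y_split (ind_cpx G)
      · intro v hv
        have := (mem_filter.1 hv).2
        rw [mem_filter, this]
        exact ⟨mem_univ _, mem_insert_self _ _⟩
      · intro x hx y hy
        have hx' := (mem_filter.1 hx).2
        have hy' := mem_sdiff.1 hy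
        have hy1 : c y ≠ a := by
          intro h; exact hy'.2 (mem_filter.2 ⟨mem_univ _, h⟩)
        have hy2 := (mem_filter.1 hy'.1).2
        rw [ind_pair, not_not, hc x y (by rw [hx']; exact hy1.symm), hx']
        exact hK (by simp) (mem_coe.2 hy2) hy1.symm
    have h2 : Y (Ind G) (univ.filter (fun v => c v ∈ s)) ≤
        Y (Ind G) (univ.filter (fun v => c v ∈ insert a s) \ univ.filter (fun v => c v = a)) := by
      apply Y_mono (ind_cpx G)
      intro v hv
      have hv' := (mem_filter.1 hv).2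
      rw [mem_sdiff, mem_filter, mem_filter]
      refine ⟨⟨mem_univ _, mem_insert_of_mem hv'⟩, ?_⟩
      rintro ⟨_, h⟩
      exact ha (h ▸ hv')
    omega

/-- The off-by-one form passes to substitutions into perfect graphs. -/
theorem perf_closure (G : SimpleGraph V) (H : SimpleGraph W) (c : V → W)
    (hc : ∀ u v, c u ≠ c v → (G.Adj u v ↔ H.Adj (c u) (c v))) (hH : Perf H)
    (h : ∀ U : Set V, (∀ x ∈ U, ∀ y ∈ U, c x = c y) → Off (G.induce U)) : Off G := by
  classical
  intro k hk
  set cls : W → Finset V := fun w => univ.filter (fun v => c v = w) with hcls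
  have hmem : ∀ v w, c v = w → v ∈ cls w := fun v w hv => mem_filter.2 ⟨mem_univ _, hv⟩
  by_cases hall : ∀ K : Finset W, H.IsClique (K : Set W) → ∑ w ∈ K, Y (Ind G) (cls w) ≤ k
  · exfalso
    apply hk
    have hperf : ∀ (U : Finset W) (m : ℕ), (∀ K ⊆ U, H.IsClique (K : Set W) → K.card ≤ m) →
        ∃ c : W → ℕ, (∀ v ∈ U, c v < m) ∧ ∀ u ∈ U, ∀ v ∈ U, H.Adj u v → c u ≠ c v := by
      intro U m hU
      rw [← colorable_induce_iff]
      exact hH _ _ (cliqueFree_of H U m hU)
    obtain ⟨S, hS1, hS2⟩ := weighted H hperf _ (fun w => Y (Ind G) (cls w)) k rfl hall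
    have hcol : ∀ w, ∃ f : V → ℕ, (∀ v ∈ cls w, f v < Y (Ind G) (cls w)) ∧
        ∀ u ∈ cls w, ∀ v ∈ cls w, G.Adj u v → f u ≠ f v :=
      fun w => (cov_iff G _ _).1 (Y_spec (ind_cpx G) (cls w))
    choose f hf1 hf2 using hcol
    let e : ∀ w, Fin (Y (Ind G) (cls w)) ↪o Fin k := fun w =>
      (univ.filter (fun i => w ∈ S i)).orderEmbOfCardLe (hS2 w)
    have he : ∀ w a, w ∈ S (e w a) := fun w a =>
      (mem_filter.1 (orderEmbOfCardLe_mem (univ.filter (fun i => w ∈ S i)) (hS2 w) a)).2
    let col : V → Fin k := fun v => e (c v) ⟨f (c v) v, hf1 (c v) v (hmem v _ rfl)⟩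
    have hcolv : ∀ v w (hv : c v = w), col v = e w ⟨f w v, hf1 w v (hmem v w hv)⟩ := by
      rintro v w rfl; rfl
    refine ⟨SimpleGraph.Coloring.mk col ?_⟩
    intro u v huv heq
    by_cases huc : c u = c v
    · rw [hcolv u (c v) huc, hcolv v (c v) rfl] at heq
      have h1 := (e (c v)).injective heq
      exact hf2 (c v) u (hmem u _ huc) v (hmem v _ rfl) huv (Fin.mk.inj h1)
    · have h1 := he (c u) ⟨f (c u) u, hf1 (c u) u (hmem u _ rfl)⟩
      have h2 := he (c v) ⟨f (c v) v, hf1 (c v) v (hmem v _ rfl)⟩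
      have h3 : c v ∈ S (col u) := by rw [heq]; exact h2
      exact hS1 (col u) (c u) h1 (c v) h3 ((hc u v huc).1 huv)
  · push Not at hall
    obtain ⟨K, hKc, hKs⟩ := hall
    have hsum := join_sum G H c hc K hKc
    set U : Finset V := univ.filter (fun v => c v ∈ K) with hU
    have hUn : ¬ (G.induce (U : Set V)).Colorable k := by
      rw [colorable_induce_iff, ← cov_iff]
      intro hcov
      have h1 := Y_le hcov
      have h2 : ∑ w ∈ K, Y (Ind G) (cls w) ≤ Y (Ind G) U := hsum
      omega
    have hoff : Off (G.induce (U : Set V)) := by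
      refine closure _ (fun x => c x.1) ?_ ?_
      · intro u v huv
        have hu := (mem_filter.1 (mem_coe.1 u.2)).2
        have hv := (mem_filter.1 (mem_coe.1 v.2)).2
        simp only [SimpleGraph.comap_adj, Function.Embedding.subtype_apply]
        exact (hc _ _ huv).2 (hKc (mem_coe.2 hu) (mem_coe.2 hv) huv)
      · intro X hX
        refine off_iso _ _ (indIso G (U : Set V) X) (h _ ?_)
        rintro _ ⟨x, hx, rfl⟩ _ ⟨y, hy, rfl⟩
        exact hX x hx y hy
    exact sub_minor _ G Subtype.val Subtype.val_injective (fun x y hxy => by simpa using hxy) k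
      (hoff k hUn)

end perf

section clique

variable {V : Type} [Fintype V]

/-- A clique of a vertex-critical graph together with the rest. -/
theorem clique_succ (G : SimpleGraph V) (k : ℕ) (h1 : ¬ G.Colorable k)
    (hcol : ∀ v, (G.induce {v}ᶜ).Colorable k) (K : Finset V) (hK : G.IsClique (K : Set V))
    (x : V) (hx : x ∉ K) : HasCliqueMinor G (K.card + 1) := by
  classical
  -- the component of `x` outside `K`
  let R : SimpleGraph ((K : Set V)ᶜ : Set V) := G.induce ((K : Set V)ᶜ)
  have hxc : x ∈ ((K : Set V)ᶜ : Set V) := by simpa using hx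
  let C : Set V := {y | ∃ h : y ∈ ((K : Set V)ᶜ : Set V), R.Reachable ⟨x, hxc⟩ ⟨y, h⟩}
  have hxC : x ∈ C := ⟨hxc, SimpleGraph.Reachable.refl _⟩
  have hCK : ∀ y ∈ C, y ∉ K := fun y hy => by
    obtain ⟨h, _⟩ := hy
    simpa using h
  have hCstep : ∀ y ∈ C, ∀ z, z ∉ K → G.Adj y z → z ∈ C := by
    rintro y ⟨hy, hr⟩ z hz hyz
    have hz' : z ∈ ((K : Set V)ᶜ : Set V) := by simpa using hz
    refine ⟨hz', hr.trans (SimpleGraph.Adj.reachable ?_)⟩
    simpa [R] using hyz
  have hconn : (G.induce C).Connected := by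
    have key : ∀ (a b : ((K : Set V)ᶜ : Set V)) (_ : R.Walk a b) (ha : a.1 ∈ C) (hb : b.1 ∈ C),
        (G.induce C).Reachable ⟨a.1, ha⟩ ⟨b.1, hb⟩ := by
      intro a b p
      induction p with
      | nil => intro ha hb; exact SimpleGraph.Reachable.refl _
      | @cons a b d hab p ih =>
        intro ha hd
        have hab' : G.Adj a.1 b.1 := by simpa [R] using hab
        have hb : b.1 ∈ C := hCstep a.1 ha b.1 (fun h => b.2 (mem_coe.2 h)) hab'
        exact (SimpleGraph.Adj.reachable (by simpa using hab')).trans (ih hb hd)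
    have : Nonempty C := ⟨⟨x, hxC⟩⟩
    refine SimpleGraph.Connected.mk ?_
    have h0 : ∀ y : C, (G.induce C).Reachable ⟨x, hxC⟩ y := by
      rintro ⟨y, hy, hr⟩
      obtain ⟨p⟩ := hr
      exact key _ _ p hxC ⟨hy, ⟨p⟩⟩
    exact fun a b => (h0 a).symm.trans (h0 b)
  -- every vertex of `K` has a neighbour in `C`
  have hdom : ∀ u ∈ K, ∃ y ∈ C, G.Adj u y := by
    intro u hu
    by_contra hcon
    push Not at hcon
    apply h1
    obtain ⟨f1⟩ := hcol x
    obtain ⟨f2⟩ := hcol u
    have hux : u ≠ x := by rintro rfl; exact hx hu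
    let φ1 : V → Fin k := fun y => if hy : y ∈ ({x}ᶜ : Set V) then f1 ⟨y, hy⟩ else
      f1 ⟨u, hux⟩
    let φ2 : V → Fin k := fun y => if hy : y ∈ ({u}ᶜ : Set V) then f2 ⟨y, hy⟩ else
      f2 ⟨x, hux.symm⟩
    have hφ1 : ∀ a b, a ≠ x → b ≠ x → G.Adj a b → φ1 a ≠ φ1 b := by
      intro a b ha hb hab
      have ha' : a ∈ ({x}ᶜ : Set V) := ha
      have hb' : b ∈ ({x}ᶜ : Set V) := hb
      simp only [φ1, dif_pos ha', dif_pos hb']
      exact f1.valid (by simpa using hab)
    have hφ2 : ∀ a b, a ≠ u → b ≠ u → G.Adj a b → φ2 a ≠ φ2 b := by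
      intro a b ha hb hab
      have ha' : a ∈ ({u}ᶜ : Set V) := ha
      have hb' : b ∈ ({u}ᶜ : Set V) := hb
      simp only [φ2, dif_pos ha', dif_pos hb']
      exact f2.valid (by simpa using hab)
    -- a permutation matching the colours on `K \ {u}`
    obtain ⟨π, hπ⟩ : ∃ π : Equiv.Perm (Fin k), ∀ w ∈ K.erase u, π (φ2 w) = φ1 w := by
      have hi1 : Set.InjOn φ1 (K.erase u : Finset V) := by
        intro a ha b hb hab
        by_contra hne
        have ha' := mem_erase.1 (mem_coe.1 ha)
        have hb' := mem_erase.1 (mem_coe.1 hb)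
        exact hφ1 a b (fun h => hx (h ▸ ha'.2)) (fun h => hx (h ▸ hb'.2))
          (hK (mem_coe.2 ha'.2) (mem_coe.2 hb'.2) hne) hab
      have hi2 : Set.InjOn φ2 (K.erase u : Finset V) := by
        intro a ha b hb hab
        by_contra hne
        have ha' := mem_erase.1 (mem_coe.1 ha)
        have hb' := mem_erase.1 (mem_coe.1 hb)
        exact hφ2 a b ha'.1 hb'.1 (hK (mem_coe.2 ha'.2) (mem_coe.2 hb'.2) hne) hab
      let A := ((K.erase u : Finset V) : Set V)
      let e1 := Set.BijOn.equiv φ1 hi1.bijOn_image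
      let e2 := Set.BijOn.equiv φ2 hi2.bijOn_image
      let e : {y // y ∈ φ2 '' A} ≃ {y // y ∈ φ1 '' A} := e2.symm.trans e1
      refine ⟨e.extendSubtype, ?_⟩
      intro w hw
      have hw' : w ∈ A := mem_coe.2 hw
      have hmem : φ2 w ∈ φ2 '' A := ⟨w, hw', rfl⟩
      rw [Equiv.extendSubtype_apply_of_mem e _ hmem]
      have h2 : e2 ⟨w, hw'⟩ = ⟨φ2 w, hmem⟩ := rfl
      have h3 : e2.symm ⟨φ2 w, hmem⟩ = ⟨w, hw'⟩ := by
        rw [← h2, Equiv.symm_apply_apply]
      simp only [e, Equiv.trans_apply]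
      rw [h3]
      rfl
    refine ⟨SimpleGraph.Coloring.mk (fun y => if y ∈ C then π (φ2 y) else φ1 y) ?_⟩
    have hcross : ∀ y ∈ C, ∀ z, z ∉ C → G.Adj y z → π (φ2 y) ≠ φ1 z := by
      intro y hy z hz hyz heq
      have hzK : z ∈ K := by
        by_contra hzK
        exact hz (hCstep y hy z hzK hyz)
      have hzu : z ≠ u := by
        rintro rfl
        exact hcon y hy hyz.symm
      have hyu : y ≠ u := by
        rintro rfl
        exact hCK _ hy hu
      rw [← hπ z (mem_erase.2 ⟨hzu, hzK⟩)] at heq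
      exact hφ2 y z hyu hzu hyz (π.injective heq)
    intro a b hab heq
    by_cases ha : a ∈ C <;> by_cases hb : b ∈ C
    · rw [if_pos ha, if_pos hb] at heq
      exact hφ2 a b (by rintro rfl; exact hCK _ ha hu) (by rintro rfl; exact hCK _ hb hu) hab
        (π.injective heq)
    · rw [if_pos ha, if_neg hb] at heq
      exact hcross a ha b hb hab heq
    · rw [if_neg ha, if_pos hb] at heq
      exact hcross b hb a ha hab.symm heq.symm
    · rw [if_neg ha, if_neg hb] at heq
      exact hφ1 a b (by rintro rfl; exact ha hxC) (by rintro rfl; exact hb hxC) hab heq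
  refine minor_of_family G (ι := Option {u // u ∈ K}) (fun o => Option.elim o C (fun u => {u.1}))
    ?_ ?_ ?_ (K.card + 1) (by simp)
  · rintro (_ | ⟨u, hu⟩)
    · exact hconn
    · exact connected_singleton G u
  · rintro (_ | ⟨u, hu⟩) (_ | ⟨v, hv⟩) hne
    · exact absurd rfl hne
    · simp only [Option.elim, Set.disjoint_singleton_right]
      intro h; exact hCK _ h hv
    · simp only [Option.elim, Set.disjoint_singleton_left]
      intro h; exact hCK _ h hu
    · simp only [Option.elim, Set.disjoint_singleton]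
      rintro rfl; exact hne rfl
  · rintro (_ | ⟨u, hu⟩) (_ | ⟨v, hv⟩) hne
    · exact absurd rfl hne
    · obtain ⟨y, hy, hyv⟩ := hdom v hv
      exact ⟨y, hy, v, rfl, hyv.symm⟩
    · obtain ⟨y, hy, hyu⟩ := hdom u hu
      exact ⟨u, rfl, y, hy, hyu⟩
    · exact ⟨u, rfl, v, rfl, hK (mem_coe.2 hu) (mem_coe.2 hv) (by rintro rfl; exact hne rfl)⟩

/-- Hereditary classes with `χ ≤ ω + d`. -/
theorem near (G : SimpleGraph V) (d e : ℕ) (hde : d ≤ e + 1)
    (h : ∀ (U : Set V) (m : ℕ), (G.induce U).CliqueFree (m + 1) → (G.induce U).Colorable (m + d))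
    (k : ℕ) (hk : ¬ G.Colorable (k + e)) : HasCliqueMinor G (k + 1) := by
  classical
  obtain ⟨U, hU, hUc⟩ := exists_crit G (k + e) hk
  -- a maximum clique
  obtain ⟨K, hKc, hKm⟩ : ∃ K : Finset U, (G.induce U).IsClique (K : Set U) ∧
      ∀ L : Finset U, (G.induce U).IsClique (L : Set U) → L.card ≤ K.card := by
    have hfin : (Set.ofPred (fun L : Finset U => (G.induce U).IsClique (L : Set U))).Finite :=
      Set.toFinite _
    obtain ⟨K, hK, hmax⟩ := Set.exists_max_image _ Finset.card hfin ⟨∅, by simp⟩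
    exact ⟨K, hK, fun L hL => hmax L hL⟩
  have hfree : (G.induce U).CliqueFree (K.card + 1) := by
    intro s hs
    have := hKm s hs.1
    rw [hs.2] at this
    omega
  have hcolK := h U K.card hfree
  have hlt : k + e < K.card + d := by
    by_contra hcon
    exact hU (hcolK.mono (not_lt.1 hcon))
  by_cases hfull : ∃ x : U, x ∉ K
  · obtain ⟨x, hx⟩ := hfull
    have h2 := clique_succ (G.induce U) (k + e) hU hUc K hKc x hx
    exact sub_minor _ G Subtype.val Subtype.val_injective (fun x y hxy => by simpa using hxy) _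
      (minor_mono _ _ _ h2 (by omega))
  · push Not at hfull
    have hlt2 : k + e < K.card := by
      by_contra hcon
      apply hU
      have hcu : (G.induce U).Colorable (Fintype.card U) := (G.induce U).colorable_of_fintype
      have hKu : Fintype.card U = K.card := by
        rw [← card_univ]
        congr 1
        ext y
        simp [hfull y]
      rw [hKu] at hcu
      exact hcu.mono (not_lt.1 hcon)
    refine sub_minor (G.induce U) G Subtype.val Subtype.val_injective
      (fun x y hxy => by simpa using hxy) _ ?_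
    refine minor_of_family (G.induce U) (ι := {u // u ∈ K}) (fun u => {u.1}) ?_ ?_ ?_ (k + 1)
      (by rw [Fintype.card_coe]; omega)
    · intro u; exact connected_singleton _ u.1
    · rintro ⟨u, hu⟩ ⟨v, hv⟩ hne
      simp only [Set.disjoint_singleton]
      rintro rfl; exact hne rfl
    · rintro ⟨u, hu⟩ ⟨v, hv⟩ hne
      exact ⟨u, rfl, v, rfl, hKc (mem_coe.2 hu) (mem_coe.2 hv) (by rintro rfl; exact hne rfl)⟩

end clique

end Pool.Agent.X76.JoinHad
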