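import Pool.Agent.X76.TW3

set_option autoImplicit false

/-! Counting modules: sets of vertices inducing a given graph, with a given number of splitters. -/

namespace Pool.Agent.X76.MD

open Finset
open Pool.Agent.H234RC (Hypo NonIso)
open Pool.Agent.X76.TW (symm_ne app_ne)

/-- the recursion has only the alternating binomial solutions -/
theorem binom_rec (N : ℕ) (δ : ℕ → ℤ)
    (hrec : ∀ j : ℕ, ((N : ℤ) - j) * δ j + (j + 1) * δ (j + 1) = 0) :
    ∑ j ∈ range (N + 1), |δ j| = 2 ^ N * |δ 0| := by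
  have hform : ∀ j : ℕ, j ≤ N → δ j = (-1) ^ j * (N.choose j : ℤ) * δ 0 := by
    intro j
    induction j with
    | zero => intro _; simp
    | succ j ih =>
      intro hj
      have h1 := hrec j
      have h2 := ih (by omega)
      have h3 := Nat.choose_succ_right_eq N j
      have h4 : ((N.choose (j + 1) : ℤ)) * ((j : ℤ) + 1) = (N.choose j : ℤ) * ((N : ℤ) - j) := by
        have := congrArg (fun k : ℕ => (k : ℤ)) h3
        simp only [Nat.cast_mul] at this
        rw [Nat.cast_sub (by omega)] at this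
        push_cast at this
        exact this
      have h5 : ((j : ℤ) + 1) ≠ 0 := by positivity
      apply mul_left_cancel₀ h5
      rw [h2] at h1
      have h6 : ((j : ℤ) + 1) * δ (j + 1) = - (((N : ℤ) - j) *
          ((-1) ^ j * (N.choose j : ℤ) * δ 0)) := by linarith
      rw [h6]
      have h7 : ((j : ℤ) + 1) * ((-1) ^ (j + 1) * (N.choose (j + 1) : ℤ) * δ 0) =
          (-1) ^ (j + 1) * ((N.choose (j + 1) : ℤ) * ((j : ℤ) + 1)) * δ 0 := by ring
      rw [h7, h4]
      ring
  have h1 : ∀ j ∈ range (N + 1), |δ j| = (N.choose j : ℤ) * |δ 0| := by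
    intro j hj
    rw [hform j (by rw [mem_range] at hj; omega), abs_mul, abs_mul, abs_pow, abs_neg, abs_one,
      one_pow, one_mul, Nat.abs_cast]
  rw [sum_congr rfl h1, ← sum_mul]
  congr 1
  exact_mod_cast Nat.sum_range_choose N

variable {V : Type} [Fintype V]

open Classical in
/-- the vertices outside `M` which are adjacent to some but not all vertices of `M` -/
noncomputable def spl (G : SimpleGraph V) (M : Finset V) : Finset V :=
  univ.filter (fun y => y ∉ M ∧ ∃ a ∈ M, ∃ b ∈ M, G.Adj y a ∧ ¬ G.Adj y b)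

theorem mem_spl (G : SimpleGraph V) (M : Finset V) (y : V) :
    y ∈ spl G M ↔ y ∉ M ∧ ∃ a ∈ M, ∃ b ∈ M, G.Adj y a ∧ ¬ G.Adj y b := by
  simp [spl]

/-- `M` induces in `G` the same graph as `N` in `H` -/
def Same (G H : SimpleGraph V) (M N : Finset V) : Prop :=
  ∃ e : {x // x ∈ M} ≃ {x // x ∈ N}, ∀ x y, H.Adj (e x) (e y) ↔ G.Adj x y

theorem Same.card {G H : SimpleGraph V} {M N : Finset V} (h : Same G H M N) : M.card = N.card := by
  obtain ⟨e, _⟩ := h
  have := Fintype.card_congr e
  rwa [Fintype.card_coe, Fintype.card_coe] at this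

theorem Same.trans {G H K : SimpleGraph V} {M N P : Finset V} (h : Same G H M N)
    (h' : Same H K N P) : Same G K M P := by
  obtain ⟨e, he⟩ := h
  obtain ⟨f, hf⟩ := h'
  exact ⟨e.trans f, fun x y => (hf _ _).trans (he x y)⟩

theorem Same.symm {G H : SimpleGraph V} {M N : Finset V} (h : Same G H M N) : Same H G N M := by
  obtain ⟨e, he⟩ := h
  refine ⟨e.symm, fun x y => ?_⟩
  rw [← he, e.apply_symm_apply, e.apply_symm_apply]

theorem Same.refl (G : SimpleGraph V) (M : Finset V) : Same G G M M :=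
  ⟨Equiv.refl _, fun _ _ => Iff.rfl⟩

open Classical in
/-- the number of sets with exactly `j` splitters inducing the graph induced by `M₀` in `G₀` -/
noncomputable def cn (G₀ : SimpleGraph V) (M₀ : Finset V) (G : SimpleGraph V) (j : ℕ) : ℕ :=
  (univ.filter (fun M : Finset V => Same G₀ G M₀ M ∧ (spl G M).card = j)).card

open Classical in
/-- the same in `G - w` -/
noncomputable def cnO (G₀ : SimpleGraph V) (M₀ : Finset V) (G : SimpleGraph V) (w : V) (j : ℕ) : ℕ :=
  (univ.filter (fun M : Finset V => w ∉ M ∧ Same G₀ G M₀ M ∧ ((spl G M).erase w).card = j)).card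

open Classical in
/-- Kelly's double counting -/
theorem sum_cnO (G₀ : SimpleGraph V) (M₀ : Finset V) (G : SimpleGraph V) (j : ℕ) :
    (∑ w, (cnO G₀ M₀ G w j : ℤ)) =
      ((Fintype.card V : ℤ) - M₀.card - j) * cn G₀ M₀ G j + (j + 1) * cn G₀ M₀ G (j + 1) := by
  set T : Finset (Finset V) := univ.filter (fun M => Same G₀ G M₀ M) with hT
  have h1 : (∑ w, cnO G₀ M₀ G w j) = ∑ M ∈ T, (univ.filter (fun w => w ∉ M ∧
      ((spl G M).erase w).card = j)).card := by
    have e1 : ∀ w, cnO G₀ M₀ G w j = (T.filter (fun M => w ∉ M ∧ ((spl G M).erase w).card = j)).card := by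
      intro w
      unfold cnO
      rw [hT, filter_filter]
      congr 1
      ext M
      simp only [mem_filter, mem_univ, true_and]
      tauto
    simp_rw [e1, card_filter]
    rw [sum_comm]
  have h2 : ∀ M ∈ T, ((univ.filter (fun w => w ∉ M ∧ ((spl G M).erase w).card = j)).card : ℤ) =
      (if (spl G M).card = j then ((Fintype.card V : ℤ) - M₀.card - j) else 0) +
      (if (spl G M).card = j + 1 then ((j : ℤ) + 1) else 0) := by
    intro M hM
    rw [hT, mem_filter] at hM
    have hcard := hM.2.card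
    have hdis : Disjoint M (spl G M) := by
      rw [disjoint_left]
      intro x hx hx2
      rw [mem_spl] at hx2
      exact hx2.1 hx
    by_cases c1 : (spl G M).card = j
    · rw [if_pos c1, if_neg (by omega), add_zero]
      have e : univ.filter (fun w => w ∉ M ∧ ((spl G M).erase w).card = j) =
          univ \ (M ∪ spl G M) := by
        ext w
        simp only [mem_filter, mem_univ, true_and, mem_sdiff, mem_union, not_or]
        constructor
        · rintro ⟨h1, h3⟩
          refine ⟨h1, fun h => ?_⟩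
          rw [card_erase_of_mem h] at h3
          have := card_pos.mpr ⟨w, h⟩
          omega
        · rintro ⟨h1, h3⟩
          exact ⟨h1, by rw [erase_eq_of_notMem h3]; exact c1⟩
      rw [e, cast_card_sdiff (subset_univ _), card_univ, card_union_of_disjoint hdis, c1, hcard]
      push_cast; ring
    · rw [if_neg c1, zero_add]
      by_cases c2 : (spl G M).card = j + 1
      · rw [if_pos c2]
        have e : univ.filter (fun w => w ∉ M ∧ ((spl G M).erase w).card = j) = spl G M := by
          ext w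
          simp only [mem_filter, mem_univ, true_and]
          constructor
          · rintro ⟨h1, h3⟩
            by_contra h
            rw [erase_eq_of_notMem h] at h3
            exact c1 h3
          · intro h
            exact ⟨fun h' => disjoint_left.mp hdis h' h, by rw [card_erase_of_mem h]; omega⟩
        rw [e, c2]
        push_cast
        ring
      · rw [if_neg c2]
        have e : univ.filter (fun w => w ∉ M ∧ ((spl G M).erase w).card = j) = ∅ := by
          ext w
          simp only [mem_filter, mem_univ, true_and, notMem_empty, iff_false]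
          rintro ⟨h1, h3⟩
          by_cases h : w ∈ spl G M
          · rw [card_erase_of_mem h] at h3
            have := card_pos.mpr ⟨w, h⟩
            omega
          · rw [erase_eq_of_notMem h] at h3
            exact c1 h3
        rw [e]
        simp
  have h3 : (∑ w, (cnO G₀ M₀ G w j : ℤ)) = ((∑ w, cnO G₀ M₀ G w j : ℕ) : ℤ) := by push_cast; rfl
  rw [h3, h1]
  push_cast
  rw [sum_congr rfl h2, sum_add_distrib, ← sum_filter, ← sum_filter, sum_const, sum_const]
  unfold cn
  rw [hT, filter_filter, filter_filter]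
  simp only [nsmul_eq_mul]
  ring

variable {G H : SimpleGraph V} {π : V → Equiv.Perm V}

theorem same_map (hH : Hypo G H π) (w : V) (M : Finset V) (hM : w ∉ M) :
    Same G H M (M.map (π w).toEmbedding) := by
  refine ⟨⟨fun x => ⟨π w x, mem_map_of_mem _ x.2⟩,
    fun y => ⟨(π w).symm y, by
      obtain ⟨z, hz, hzy⟩ := mem_map.mp y.2
      rw [← hzy]
      simpa using hz⟩, ?_, ?_⟩, ?_⟩
  · intro x; simp
  · intro y; simp
  · intro x y
    exact hH.adj w x y (fun h => hM (h ▸ x.2)) (fun h => hM (h ▸ y.2))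

open Classical in
theorem spl_map (hH : Hypo G H π) (w : V) (M : Finset V) (hM : w ∉ M) :
    (spl H (M.map (π w).toEmbedding)).erase w = ((spl G M).erase w).map (π w).toEmbedding := by
  have hMne : ∀ a ∈ M, a ≠ w := fun a ha h => hM (h ▸ ha)
  ext y
  rw [mem_map]
  simp only [Equiv.coe_toEmbedding, mem_erase, mem_spl]
  constructor
  · rintro ⟨hy, hy2, a, ha, b, hb, h1, h2⟩
    rw [mem_map] at ha hb
    obtain ⟨a', ha', rfl⟩ := ha
    obtain ⟨b', hb', rfl⟩ := hb
    have hs := symm_ne hH hy
    refine ⟨(π w).symm y, ⟨hs, ?_, a', ha', b', hb', ?_, ?_⟩, by simp⟩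
    · intro h
      apply hy2
      rw [mem_map]
      exact ⟨_, h, by simp⟩
    · rw [← hH.adj w _ _ hs (hMne _ ha'), Equiv.apply_symm_apply]
      exact h1
    · rw [← hH.adj w _ _ hs (hMne _ hb'), Equiv.apply_symm_apply]
      exact h2
  · rintro ⟨z, ⟨hz, hz2, a, ha, b, hb, h1, h2⟩, rfl⟩
    refine ⟨app_ne hH hz, ?_, π w a, mem_map_of_mem _ ha, π w b, mem_map_of_mem _ hb, ?_, ?_⟩
    · intro h
      rw [mem_map] at h
      obtain ⟨x, hx, hxz⟩ := h
      exact hz2 ((π w).injective hxz ▸ hx)
    · exact (hH.adj w _ _ hz (hMne _ ha)).2 h1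
    · exact fun h => h2 ((hH.adj w _ _ hz (hMne _ hb)).1 h)

theorem map_notMem (hH : Hypo G H π) (w : V) (M : Finset V) (hM : w ∉ M) :
    w ∉ M.map (π w).toEmbedding := by
  intro h
  rw [mem_map] at h
  obtain ⟨x, hx, hxz⟩ := h
  have : x = w := (π w).injective (by rw [hH.fix]; exact hxz)
  exact hM (this ▸ hx)

open Classical in
theorem cnO_eq (hH : Hypo G H π) (G₀ : SimpleGraph V) (M₀ : Finset V) (w : V) (j : ℕ) :
    cnO G₀ M₀ G w j = cnO G₀ M₀ H w j := by
  unfold cnO
  apply card_bij (fun M _ => M.map (π w).toEmbedding)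
  · intro M hM
    rw [mem_filter] at hM ⊢
    obtain ⟨_, h1, h2, h3⟩ := hM
    refine ⟨mem_univ _, map_notMem hH w M h1, h2.trans (same_map hH w M h1), ?_⟩
    rw [spl_map hH w M h1, card_map]
    exact h3
  · intro M _ N _ h
    exact (map_injective _) h
  · intro N hN
    rw [mem_filter] at hN
    obtain ⟨_, h1, h2, h3⟩ := hN
    set M := N.map (π w).symm.toEmbedding with hMdef
    have hNM : M.map (π w).toEmbedding = N := by
      rw [hMdef, map_map]
      ext x
      simp
    have hwM : w ∉ M := by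
      intro h
      apply h1
      rw [← hNM, mem_map]
      exact ⟨w, h, hH.fix w⟩
    refine ⟨M, ?_, hNM⟩
    rw [mem_filter]
    have h4 := same_map hH w M hwM
    rw [hNM] at h4
    refine ⟨mem_univ _, hwM, h2.trans h4.symm, ?_⟩
    rw [← h3, ← hNM, spl_map hH w M hwM, card_map]

theorem sum_cn (G₀ : SimpleGraph V) (M₀ : Finset V) (G : SimpleGraph V) (N : ℕ) :
    ∑ j ∈ range N, cn G₀ M₀ G j ≤ (Fintype.card V).choose M₀.card := by
  classical
  have h1 : ∑ j ∈ range N, cn G₀ M₀ G j ≤ (powersetCard M₀.card (univ : Finset V)).card := by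
    unfold cn
    have := card_biUnion (s := range N) (t := fun j => univ.filter
      (fun M : Finset V => Same G₀ G M₀ M ∧ (spl G M).card = j)) (by
        intro a _ b _ hab
        rw [Function.onFun, disjoint_left]
        intro p hp hp'
        rw [mem_filter] at hp hp'
        exact hab (hp.2.2.symm.trans hp'.2.2))
    rw [← this]
    apply card_le_card
    intro M hM
    rw [mem_biUnion] at hM
    obtain ⟨j, _, hj⟩ := hM
    rw [mem_powersetCard]
    exact ⟨subset_univ _, (mem_filter.mp hj).2.1.card.symm⟩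
  rwa [card_powersetCard, card_univ] at h1

/-- the number of modules inducing a given small graph is determined by the deck -/
theorem cn_zero_eq (hH : Hypo G H π) (G₀ : SimpleGraph V) (M₀ : Finset V)
    (hk : M₀.card ≤ Fintype.card V)
    (hn : 2 * (Fintype.card V).choose M₀.card < 2 ^ (Fintype.card V - M₀.card)) :
    cn G₀ M₀ G 0 = cn G₀ M₀ H 0 := by
  set n := Fintype.card V with hnd
  set N := n - M₀.card with hN
  set δ : ℕ → ℤ := fun j => (cn G₀ M₀ H j : ℤ) - cn G₀ M₀ G j with hδ
  have hNc : (N : ℤ) = (n : ℤ) - M₀.card := by rw [hN, Nat.cast_sub hk]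
  have hrec : ∀ j : ℕ, ((N : ℤ) - j) * δ j + (j + 1) * δ (j + 1) = 0 := by
    intro j
    have h1 := sum_cnO G₀ M₀ G j
    have h2 := sum_cnO G₀ M₀ H j
    have h3 : (∑ w, (cnO G₀ M₀ G w j : ℤ)) = ∑ w, (cnO G₀ M₀ H w j : ℤ) :=
      sum_congr rfl (fun w _ => by rw [cnO_eq hH G₀ M₀ w j])
    rw [h1, h2] at h3
    simp only [hδ]
    rw [hNc]
    linarith
  have h1 := binom_rec N δ hrec
  by_contra hne
  have hδ0 : 1 ≤ |δ 0| := by
    apply Int.one_le_abs
    simp only [hδ]
    intro h
    apply hne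
    omega
  have h2 : ∑ j ∈ range (N + 1), |δ j| ≤ 2 * (n.choose M₀.card : ℤ) := by
    have h3 : ∀ j ∈ range (N + 1), |δ j| ≤ (cn G₀ M₀ H j : ℤ) + cn G₀ M₀ G j := by
      intro j _
      simp only [hδ]
      have := abs_sub (cn G₀ M₀ H j : ℤ) (cn G₀ M₀ G j)
      rw [Nat.abs_cast, Nat.abs_cast] at this
      exact this
    refine (sum_le_sum h3).trans ?_
    rw [sum_add_distrib]
    have h4 : (∑ j ∈ range (N + 1), (cn G₀ M₀ H j : ℤ)) ≤ (n.choose M₀.card : ℤ) := by
      exact_mod_cast sum_cn G₀ M₀ H (N + 1)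
    have h5 : (∑ j ∈ range (N + 1), (cn G₀ M₀ G j : ℤ)) ≤ (n.choose M₀.card : ℤ) := by
      exact_mod_cast sum_cn G₀ M₀ G (N + 1)
    linarith
  have h3 : (2 : ℤ) * (n.choose M₀.card : ℤ) < 2 ^ N := by exact_mod_cast hn
  rw [h1] at h2
  have h4 : (0 : ℤ) < 2 ^ N := by positivity
  nlinarith

open Classical in
theorem cnO_lt_cn {G₀ : SimpleGraph V} {M₀ : Finset V} {v : V} {M : Finset V} (hv : v ∈ M)
    (hs : Same G₀ G M₀ M) (hm : (spl G M).card = 0)
    (h : ∀ M', v ∉ M' → Same G₀ G M₀ M' → (∀ y, y ≠ v → y ∉ spl G M') → (spl G M').card = 0) :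
    cnO G₀ M₀ G v 0 < cn G₀ M₀ G 0 := by
  unfold cnO cn
  apply card_lt_card
  rw [ssubset_iff_of_subset]
  · refine ⟨M, ?_, ?_⟩
    · rw [mem_filter]
      exact ⟨mem_univ _, hs, hm⟩
    · rw [mem_filter]
      exact fun h => h.2.1 hv
  · intro M' hM'
    rw [mem_filter] at hM' ⊢
    obtain ⟨_, h1, h2, h3⟩ := hM'
    refine ⟨mem_univ _, h2, h M' h1 h2 ?_⟩
    intro y hy hy2
    rw [card_eq_zero, eq_empty_iff_forall_notMem] at h3
    exact h3 y (mem_erase.mpr ⟨hy, hy2⟩)

open Classical in
theorem cn_le_cnO {G₀ : SimpleGraph V} {M₀ : Finset V} {v : V}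
    (h : ∀ N, Same G₀ H M₀ N → (spl H N).card = 0 → v ∉ N) :
    cn G₀ M₀ H 0 ≤ cnO G₀ M₀ H v 0 := by
  unfold cnO cn
  apply card_le_card
  intro N hN
  rw [mem_filter] at hN ⊢
  obtain ⟨_, h2, h3⟩ := hN
  refine ⟨mem_univ _, h N h2 h3, h2, ?_⟩
  rw [card_eq_zero] at h3 ⊢
  rw [h3]
  simp

end Pool.Agent.X76.MD
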