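import Pool.Agent.X76.MD1

set_option autoImplicit false

/-! Modules of cards. -/

namespace Pool.Agent.X76.MD

open Finset
open Pool.Agent.H234RC (Hypo NonIso)
open Pool.Agent.X76.TW (symm_ne app_ne)

/-- `C(n, k) 4^(n-k) ≤ 5^n` -/
theorem choose_mul_le (n k : ℕ) (hk : k ≤ n) : n.choose k * 4 ^ (n - k) ≤ 5 ^ n := by
  have h := add_pow (1 : ℕ) 4 n
  simp only [Nat.cast_id] at h
  have h2 : (5 : ℕ) ^ n = ∑ m ∈ range (n + 1), 1 ^ m * 4 ^ (n - m) * (n.choose m) := by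
    rw [← h]
  rw [h2]
  calc n.choose k * 4 ^ (n - k) = 1 ^ k * 4 ^ (n - k) * n.choose k := by ring
    _ ≤ _ := single_le_sum (f := fun m => 1 ^ m * 4 ^ (n - m) * n.choose m)
      (fun _ _ => Nat.zero_le _) (mem_range.mpr (by omega))

theorem choose_bound (n k : ℕ) (h : 5 * k ≤ n) (h15 : 15 ≤ n) :
    2 * n.choose k < 2 ^ (n - k) := by
  -- `2 * 8 ^ k * 5 ^ n < 8 ^ n`
  have key : 2 * 8 ^ k * 5 ^ n < 8 ^ n := by
    obtain ⟨r, rfl⟩ : ∃ r, n = 5 * k + r := ⟨n - 5 * k, by omega⟩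
    have h1 : 8 ^ k * 5 ^ (5 * k) * 13 ^ k ≤ 8 ^ (5 * k) * 10 ^ k := by
      rw [pow_mul, pow_mul, ← mul_pow, ← mul_pow, ← mul_pow]
      exact Nat.pow_le_pow_left (by norm_num) k
    have h2 : 2 * 5 ^ r * 10 ^ k < 8 ^ r * 13 ^ k := by
      rcases Nat.lt_or_ge k 3 with hk | hk
      · -- here `r ≥ 5`
        have hr : 15 ≤ 5 * k + r := h15
        have h5 : ∀ s : ℕ, 2 * 5 ^ (s + 2) < 8 ^ (s + 2) := by
          intro s
          induction s with
          | zero => norm_num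
          | succ s ih =>
            have e1 : 5 ^ (s + 1 + 2) = 5 * 5 ^ (s + 2) := by rw [← pow_succ']
            have e2 : 8 ^ (s + 1 + 2) = 8 * 8 ^ (s + 2) := by rw [← pow_succ']
            rw [e1, e2]; omega
        obtain ⟨s, rfl⟩ : ∃ s, r = s + 2 := ⟨r - 2, by omega⟩
        calc 2 * 5 ^ (s + 2) * 10 ^ k < 8 ^ (s + 2) * 10 ^ k :=
              Nat.mul_lt_mul_of_pos_right (h5 s) (by positivity)
          _ ≤ 8 ^ (s + 2) * 13 ^ k := Nat.mul_le_mul_left _ (Nat.pow_le_pow_left (by norm_num) k)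
      · obtain ⟨s, rfl⟩ : ∃ s, k = s + 3 := ⟨k - 3, by omega⟩
        have h5 : ∀ s : ℕ, 2 * 10 ^ (s + 3) < 13 ^ (s + 3) := by
          intro s
          induction s with
          | zero => norm_num
          | succ s ih =>
            have e1 : 10 ^ (s + 1 + 3) = 10 * 10 ^ (s + 3) := by rw [← pow_succ']
            have e2 : 13 ^ (s + 1 + 3) = 13 * 13 ^ (s + 3) := by rw [← pow_succ']
            rw [e1, e2]; omega
        calc 2 * 5 ^ r * 10 ^ (s + 3) = 5 ^ r * (2 * 10 ^ (s + 3)) := by ring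
          _ < 5 ^ r * 13 ^ (s + 3) := Nat.mul_lt_mul_of_pos_left (h5 s) (by positivity)
          _ ≤ 8 ^ r * 13 ^ (s + 3) := Nat.mul_le_mul_right _ (Nat.pow_le_pow_left (by norm_num) r)
    have h3 : (2 * 8 ^ k * 5 ^ (5 * k + r)) * (10 ^ k * 13 ^ k) <
        8 ^ (5 * k + r) * (10 ^ k * 13 ^ k) := by
      calc (2 * 8 ^ k * 5 ^ (5 * k + r)) * (10 ^ k * 13 ^ k) =
          (8 ^ k * 5 ^ (5 * k) * 13 ^ k) * (2 * 5 ^ r * 10 ^ k) := by rw [pow_add]; ring
        _ ≤ (8 ^ (5 * k) * 10 ^ k) * (2 * 5 ^ r * 10 ^ k) := Nat.mul_le_mul_right _ h1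
        _ < (8 ^ (5 * k) * 10 ^ k) * (8 ^ r * 13 ^ k) := Nat.mul_lt_mul_of_pos_left h2 (by positivity)
        _ = _ := by rw [pow_add]; ring
    exact Nat.lt_of_mul_lt_mul_right h3
  have h1 := choose_mul_le n k (by omega)
  have h2 : 8 ^ n = 2 ^ (n - k) * (4 ^ (n - k) * 8 ^ k) := by
    have : 8 ^ n = 8 ^ (n - k) * 8 ^ k := by rw [← pow_add]; congr 1; omega
    rw [this, ← mul_assoc, ← mul_pow]
    norm_num
  rw [h2] at key
  have h3 : (2 * n.choose k) * (4 ^ (n - k) * 8 ^ k) < 2 ^ (n - k) * (4 ^ (n - k) * 8 ^ k) := by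
    calc (2 * n.choose k) * (4 ^ (n - k) * 8 ^ k) = 2 * 8 ^ k * (n.choose k * 4 ^ (n - k)) := by ring
      _ ≤ 2 * 8 ^ k * 5 ^ n := Nat.mul_le_mul_left _ h1
      _ < _ := key
  exact Nat.lt_of_mul_lt_mul_right h3

variable {V : Type} [Fintype V] [DecidableEq V]

/-- `M` is a module of the graph induced by `U` (if `M ⊆ U`) -/
def ModIn (G : SimpleGraph V) (U : Set V) (M : Finset V) : Prop :=
  ∀ y, y ∈ U → y ∉ M → ∀ a ∈ M, ∀ b ∈ M, (G.Adj y a → G.Adj y b)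

/-- `M` has a partition into two parts completely adjacent or completely nonadjacent -/
def Split (G : SimpleGraph V) (M : Finset V) : Prop :=
  ∃ P Q : Finset V, P.Nonempty ∧ Q.Nonempty ∧ Disjoint P Q ∧ P ∪ Q = M ∧
    ((∀ a ∈ P, ∀ b ∈ Q, G.Adj a b) ∨ (∀ a ∈ P, ∀ b ∈ Q, ¬ G.Adj a b))

omit [Fintype V] [DecidableEq V] in
theorem ModIn.iff {G : SimpleGraph V} {U : Set V} {M : Finset V} (h : ModIn G U M) {y a b : V}
    (hU : y ∈ U) (hy : y ∉ M) (ha : a ∈ M) (hb : b ∈ M) : G.Adj y a ↔ G.Adj y b :=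
  ⟨h y hU hy a ha b hb, h y hU hy b hb a ha⟩

omit [Fintype V] in
theorem split_of (G : SimpleGraph V) (P Q : Finset V) (hP : P.Nonempty) (hQ : Q.Nonempty)
    (hd : Disjoint P Q) (h : ∀ a ∈ P, ∀ b ∈ Q, ∀ a' ∈ P, ∀ b' ∈ Q, G.Adj a b → G.Adj a' b') :
    Split G (P ∪ Q) := by
  refine ⟨P, Q, hP, hQ, hd, rfl, ?_⟩
  obtain ⟨a, ha⟩ := hP
  obtain ⟨b, hb⟩ := hQ
  by_cases hab : G.Adj a b
  · left
    intro a' ha' b' hb'
    exact h a ha b hb a' ha' b' hb' hab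
  · right
    intro a' ha' b' hb' h'
    exact hab (h a' ha' b' hb' a ha b hb h')

omit [Fintype V] in
/-- overlapping modules are split -/
theorem overlap_split {G : SimpleGraph V} {U : Set V} {P Q : Finset V} (hPU : ↑P ⊆ U)
    (hQU : ↑Q ⊆ U) (hP : ModIn G U P) (hQ : ModIn G U Q) (h1 : (P ∩ Q).Nonempty)
    (h2 : (P \ Q).Nonempty) (h3 : (Q \ P).Nonempty) : Split G Q := by
  have e : (Q ∩ P) ∪ (Q \ P) = Q := by
    ext x; simp only [mem_union, mem_inter, mem_sdiff]; tauto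
  rw [← e]
  obtain ⟨c, hc⟩ := h2
  rw [mem_sdiff] at hc
  rw [inter_comm] at h1
  apply split_of G _ _ h1 h3
  · rw [disjoint_left]
    intro x hx hx2
    rw [mem_inter] at hx
    rw [mem_sdiff] at hx2
    exact hx2.2 hx.2
  · intro a ha b hb a' ha' b' hb' hab
    rw [mem_inter] at ha ha'
    rw [mem_sdiff] at hb hb'
    have k1 : G.Adj b c := (hP.iff (hQU hb.1) hb.2 ha.2 hc.1).1 hab.symm
    have k2 : G.Adj c b' := (hQ.iff (hPU hc.1) hc.2 hb.1 hb'.1).1 k1.symm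
    exact ((hP.iff (hQU hb'.1) hb'.2 hc.1 ha'.2).1 k2.symm).symm

omit [Fintype V] in
/-- the difference of overlapping modules is a module -/
theorem diff_mod {G : SimpleGraph V} {U : Set V} {P Q : Finset V} (hPU : ↑P ⊆ U)
    (hQU : ↑Q ⊆ U) (hP : ModIn G U P) (hQ : ModIn G U Q) (h2 : (P \ Q).Nonempty) :
    ModIn G U (Q \ P) := by
  intro y hyU hy a ha b hb hya
  obtain ⟨c, hc⟩ := h2
  rw [mem_sdiff] at hy ha hb hc
  by_cases hyQ : y ∈ Q
  · have hyP : y ∈ P := by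
      by_contra h
      exact hy ⟨hyQ, h⟩
    have k1 : G.Adj c a := ((hP.iff (hQU ha.1) ha.2 hyP hc.1).1 hya.symm).symm
    have k2 : G.Adj c b := (hQ.iff (hPU hc.1) hc.2 ha.1 hb.1).1 k1
    exact ((hP.iff (hQU hb.1) hb.2 hc.1 hyP).1 k2.symm).symm
  · exact hQ y hyU hyQ a ha.1 b hb.1 hya

omit [Fintype V] [DecidableEq V] in
/-- a module of the card disjoint from the module of the deleted vertex is a module -/
theorem disj_mod {G : SimpleGraph V} {v c : V} {P Q : Finset V} (hv : v ∈ P) (hc : c ∈ P)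
    (hcv : c ≠ v) (hP : ModIn G Set.univ P) (hQ : ModIn G {x | x ≠ v} Q) (hd : Disjoint P Q) :
    ModIn G Set.univ Q := by
  intro y _ hy a ha b hb hya
  by_cases h : y = v
  · subst h
    have ha2 : a ∉ P := fun h => disjoint_left.mp hd h ha
    have hb2 : b ∉ P := fun h => disjoint_left.mp hd h hb
    have k1 : G.Adj c a := ((hP.iff (Set.mem_univ a) ha2 hv hc).1 hya.symm).symm
    have k2 : G.Adj c b := (hQ.iff (show c ∈ {x | x ≠ y} from hcv)
      (fun h => disjoint_left.mp hd hc h) ha hb).1 k1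
    exact ((hP.iff (Set.mem_univ b) hb2 hc hv).1 k2.symm).symm
  · exact hQ y h hy a ha b hb hya

omit [Fintype V] [DecidableEq V] in
theorem ModIn.mono {G : SimpleGraph V} {U U' : Set V} {M : Finset V} (h : ModIn G U M)
    (hU : U' ⊆ U) : ModIn G U' M := fun y hy => h y (hU hy)

omit [Fintype V] in
theorem modIn_erase {G : SimpleGraph V} {v : V} {M : Finset V} (h : ModIn G Set.univ M) :
    ModIn G {x | x ≠ v} (M.erase v) := by
  intro y hy hyM a ha b hb hya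
  rw [mem_erase] at hyM ha hb
  exact h y (Set.mem_univ _) (fun h' => hyM ⟨hy, h'⟩) a ha.2 b hb.2 hya

theorem spl_card_zero (G : SimpleGraph V) (M : Finset V) :
    (spl G M).card = 0 ↔ ModIn G Set.univ M := by
  rw [card_eq_zero, eq_empty_iff_forall_notMem]
  constructor
  · intro h y _ hy a ha b hb hya
    by_contra hyb
    apply h y
    rw [mem_spl]
    exact ⟨hy, a, ha, b, hb, hya, hyb⟩
  · intro h y hy
    rw [mem_spl] at hy
    obtain ⟨h1, a, ha, b, hb, h2, h3⟩ := hy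
    exact h3 (h y (Set.mem_univ _) h1 a ha b hb h2)

theorem splO_card_zero (G : SimpleGraph V) (v : V) (M : Finset V) :
    ((spl G M).erase v).card = 0 ↔ ModIn G {x | x ≠ v} M := by
  rw [card_eq_zero, eq_empty_iff_forall_notMem]
  constructor
  · intro h y hyv hy a ha b hb hya
    by_contra hyb
    apply h y
    rw [mem_erase, mem_spl]
    exact ⟨hyv, hy, a, ha, b, hb, hya, hyb⟩
  · intro h y hy
    rw [mem_erase, mem_spl] at hy
    obtain ⟨hyv, h1, a, ha, b, hb, h2, h3⟩ := hy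
    exact h3 (h y hyv h1 a ha b hb h2)

omit [Fintype V] in
theorem Same.split {G H : SimpleGraph V} {M N : Finset V} (h : Same G H M N) (hs : Split G M) :
    Split H N := by
  obtain ⟨e, he⟩ := h
  obtain ⟨P, Q, hP, hQ, hd, hu, hc⟩ := hs
  have hPM : ∀ x ∈ P, x ∈ M := fun x hx => hu ▸ mem_union_left _ hx
  have hQM : ∀ x ∈ Q, x ∈ M := fun x hx => hu ▸ mem_union_right _ hx
  set f : {x // x ∈ M} ↪ V := e.toEmbedding.trans (Function.Embedding.subtype _) with hf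
  set P' : Finset V := (M.attach.filter (fun x : {x // x ∈ M} => (x : V) ∈ P)).map f with hP'
  set Q' : Finset V := (M.attach.filter (fun x : {x // x ∈ M} => (x : V) ∈ Q)).map f with hQ'
  have hmP : ∀ y, y ∈ P' ↔ ∃ x : {x // x ∈ M}, (x : V) ∈ P ∧ (e x : V) = y := by
    intro y
    rw [hP', mem_map]
    constructor
    · rintro ⟨x, hx, rfl⟩
      exact ⟨x, (mem_filter.mp hx).2, rfl⟩
    · rintro ⟨x, hx, rfl⟩
      exact ⟨x, mem_filter.mpr ⟨mem_attach _ _, hx⟩, rfl⟩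
  have hmQ : ∀ y, y ∈ Q' ↔ ∃ x : {x // x ∈ M}, (x : V) ∈ Q ∧ (e x : V) = y := by
    intro y
    rw [hQ', mem_map]
    constructor
    · rintro ⟨x, hx, rfl⟩
      exact ⟨x, (mem_filter.mp hx).2, rfl⟩
    · rintro ⟨x, hx, rfl⟩
      exact ⟨x, mem_filter.mpr ⟨mem_attach _ _, hx⟩, rfl⟩
  refine ⟨P', Q', ?_, ?_, ?_, ?_, ?_⟩
  · obtain ⟨x, hx⟩ := hP
    exact ⟨e ⟨x, hPM x hx⟩, (hmP _).2 ⟨_, hx, rfl⟩⟩
  · obtain ⟨x, hx⟩ := hQ
    exact ⟨e ⟨x, hQM x hx⟩, (hmQ _).2 ⟨_, hx, rfl⟩⟩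
  · rw [disjoint_left]
    intro y h1 h2
    obtain ⟨x, hx, hxy⟩ := (hmP y).1 h1
    obtain ⟨z, hz, hzy⟩ := (hmQ y).1 h2
    have : x = z := e.injective (Subtype.ext (hxy.trans hzy.symm))
    exact disjoint_left.mp hd hx (this ▸ hz)
  · ext y
    rw [mem_union, hmP, hmQ]
    constructor
    · rintro (⟨x, _, rfl⟩ | ⟨x, _, rfl⟩)
      · exact (e x).2
      · exact (e x).2
    · intro hy
      have h1 : ((e.symm ⟨y, hy⟩ : {x // x ∈ M}) : V) ∈ P ∪ Q := hu ▸ (e.symm ⟨y, hy⟩).2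
      rw [mem_union] at h1
      rcases h1 with h1 | h1
      · exact Or.inl ⟨_, h1, by simp⟩
      · exact Or.inr ⟨_, h1, by simp⟩
  · rcases hc with hc | hc
    · left
      intro a ha b hb
      obtain ⟨x, hx, rfl⟩ := (hmP a).1 ha
      obtain ⟨z, hz, rfl⟩ := (hmQ b).1 hb
      exact (he x z).2 (hc _ hx _ hz)
    · right
      intro a ha b hb h
      obtain ⟨x, hx, rfl⟩ := (hmP a).1 ha
      obtain ⟨z, hz, rfl⟩ := (hmQ b).1 hb
      exact hc _ hx _ hz ((he x z).1 h)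

end Pool.Agent.X76.MD
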