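import Pool.Agent.X76.TW5

set_option autoImplicit false

/-! Reconstruction of graphs with twins. -/

namespace Pool.Agent.X76.TW

open Finset
open Pool.Agent.H234RC (Hypo NonIso Reconstructible exists_hypo)
open Pool.Agent.TH87.RVC (compl_hypo)

variable {V : Type} [Fintype V]

theorem rec_of (G : SimpleGraph V)
    (h : ∀ (H : SimpleGraph V) (π : V → Equiv.Perm V), Hypo G H π → NonIso G H → False) :
    Reconstructible G ∧ Reconstructible Gᶜ := by
  constructor
  · by_contra hcon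
    obtain ⟨H, π, hH, hN⟩ := exists_hypo G hcon
    exact h H π hH hN
  · by_contra hcon
    obtain ⟨H, π, hH, hN⟩ := exists_hypo Gᶜ hcon
    obtain ⟨hH', hN'⟩ := compl_hypo hH hN
    exact h _ π hH' hN'

theorem main_gap (G : SimpleGraph V) (hn : 10 ≤ Fintype.card V)
    (h : ∃ v, 2 ≤ cl G v ∧ ∀ u, cl G u + 1 ≠ cl G v) : Reconstructible G ∧ Reconstructible Gᶜ := by
  apply rec_of
  intro H π hH hN
  obtain ⟨v, h1, h2⟩ := h
  obtain ⟨u, hu⟩ := gap_part hH hN hn v h1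
  exact h2 u hu

theorem main_orbit (G : SimpleGraph V) (hn : 10 ≤ Fintype.card V) (v v' : V) (hv : v' ≠ v)
    (ht : Tw G v v')
    (h : ∀ u, u ≠ v → clO G v u = clO G v v' → (∀ i, nd G v u i = nd G v v' i) →
      ∃ σ : Equiv.Perm V, σ v = v ∧ σ v' = u ∧
        ∀ x y, x ≠ v → y ≠ v → (G.Adj (σ x) (σ y) ↔ G.Adj x y)) :
    Reconstructible G ∧ Reconstructible Gᶜ := by
  apply rec_of
  intro H π hH hN
  obtain ⟨u, h1, h2, h3, h4⟩ := orbit_part hH hN hn hv ht
  exact h4 (h u h1 h2 h3)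

theorem main_aut (G : SimpleGraph V) (hn : 10 ≤ Fintype.card V) (S : Finset V)
    (hS : ∀ v, ∃! s, s ∈ S ∧ Tw G v s) (p : ℕ)
    (hp : ∀ (_ : DecidablePred (fun s => 2 ≤ cl G s)), p = (S.filter (fun s => 2 ≤ cl G s)).card)
    (h : 2 * (Nat.card (G.induce (S : Set V) ≃g G.induce (S : Set V)) : ℝ) < (3 / 2 : ℝ) ^ p) :
    Reconstructible G ∧ Reconstructible Gᶜ := by
  apply rec_of
  intro H π hH hN
  exact absurd h (not_lt.mpr (aut_part hH hN hn S hS p hp))

end Pool.Agent.X76.TW
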