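import Pool.Agent.X76.MD2
import Pool.Agent.X76.TW6

set_option autoImplicit false

/-! Reconstruction of graphs with small modules. -/

namespace Pool.Agent.X76.MD

open Finset
open Pool.Agent.H234RC (Hypo NonIso Reconstructible)
open Pool.Agent.X76.TW (symm_ne app_ne rec_of)

variable {V : Type} [Fintype V] [DecidableEq V]
variable {G H : SimpleGraph V} {π : V → Equiv.Perm V}

theorem modIn_map (hH : Hypo G H π) {v : V} {M : Finset V} (hM : v ∉ M) :
    ModIn H {x | x ≠ v} (M.map (π v).toEmbedding) ↔ ModIn G {x | x ≠ v} M := by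
  rw [← splO_card_zero, ← splO_card_zero]
  have h := spl_map hH v M hM
  have h2 : ((spl H (M.map (π v).toEmbedding)).erase v).card = ((spl G M).erase v).card := by
    have h3 := congrArg card h
    rw [card_map] at h3
    refine Eq.trans (congrArg card ?_) (h3.trans (congrArg card ?_))
    · ext x
      simp only [mem_erase]
    · ext x
      simp only [mem_erase]
  rw [h2]

omit [DecidableEq V] in
theorem fin_case (hH : Hypo G H π) (hN : NonIso G H) {v c : V} {M N : Finset V}
    (hM : ModIn G Set.univ M) (hcM : c ∈ M) (hcv : c ≠ v) (hv : v ∈ M)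
    (hNm : ModIn H Set.univ N) (hs : Same G H M N) (τ : Equiv.Perm V) (hτv : τ v = v)
    (hτ : ∀ x y, x ≠ v → y ≠ v → (G.Adj (τ x) (τ y) ↔ G.Adj x y))
    (hmap : ∀ x, x ∈ M ↔ π v (τ x) ∈ N) : False := by
  classical
  obtain ⟨e, he⟩ := hs
  apply hN
  set ρ : Equiv.Perm V := τ.trans (π v) with hρ
  have hτne : ∀ x, x ≠ v → τ x ≠ v := fun x hx h => hx (τ.injective (by rw [h, hτv]))
  have hρadj : ∀ x y, x ≠ v → y ≠ v → (H.Adj (ρ x) (ρ y) ↔ G.Adj x y) := by
    intro x y hx hy
    rw [hρ]
    simp only [Equiv.trans_apply]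
    rw [hH.adj v _ _ (hτne x hx) (hτne y hy), hτ x y hx hy]
  have hne : ∀ x, x ∉ M → x ≠ v := fun x hx h => hx (h ▸ hv)
  set f : V → V := fun x => if h : x ∈ M then (e ⟨x, h⟩ : V) else ρ x with hf
  have f1 : ∀ x (h : x ∈ M), f x = e ⟨x, h⟩ := fun x h => by simp only [hf]; rw [dif_pos h]
  have f2 : ∀ x, x ∉ M → f x = ρ x := fun x h => by simp only [hf]; rw [dif_neg h]
  have f1N : ∀ x, x ∈ M → f x ∈ N := fun x h => by rw [f1 x h]; exact (e ⟨x, h⟩).2
  have f2N : ∀ x, x ∉ M → f x ∉ N := fun x h h2 => by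
    rw [f2 x h] at h2
    exact h ((hmap x).2 h2)
  have finj : Function.Injective f := by
    intro x y hxy
    by_cases hx : x ∈ M
    · by_cases hy : y ∈ M
      · rw [f1 x hx, f1 y hy] at hxy
        have := e.injective (Subtype.ext hxy)
        exact congrArg Subtype.val this
      · exact absurd (hxy ▸ f1N x hx) (f2N y hy)
    · by_cases hy : y ∈ M
      · exact absurd (hxy ▸ f1N y hy) (f2N x hx)
      · rw [f2 x hx, f2 y hy] at hxy
        exact ρ.injective hxy
  have hmix : ∀ x y, x ∈ M → y ∉ M → (H.Adj (f x) (f y) ↔ G.Adj x y) := by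
    intro x y hx hy
    have hcN : ρ c ∈ N := (hmap c).1 hcM
    rw [H.adj_comm, hNm.iff (Set.mem_univ _) (f2N y hy) (f1N x hx) hcN, f2 y hy,
      hρadj y c (hne y hy) hcv, G.adj_comm x y]
    exact hM.iff (Set.mem_univ _) hy hcM hx
  refine ⟨Equiv.ofBijective f (Finite.injective_iff_bijective.mp finj), fun x y => ?_⟩
  show H.Adj (f x) (f y) ↔ G.Adj x y
  by_cases hx : x ∈ M
  · by_cases hy : y ∈ M
    · rw [f1 x hx, f1 y hy]
      exact he _ _
    · exact hmix x y hx hy
  · by_cases hy : y ∈ M
    · rw [H.adj_comm, G.adj_comm]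
      exact hmix y x hy hx
    · rw [f2 x hx, f2 y hy]
      exact hρadj x y (hne x hx) (hne y hy)

/-- some module of `H` containing the deleted vertex looks like `M` -/
theorem exists_N (hH : Hypo G H π) {v : V} {M : Finset V} (hM : ModIn G Set.univ M)
    (hv : v ∈ M) (hk : 3 ≤ M.card) (hns : ¬ Split G M) (hn : 5 * M.card ≤ Fintype.card V) :
    ∃ N : Finset V, v ∈ N ∧ ModIn H Set.univ N ∧ Same G H M N := by
  classical
  have hcount := cn_zero_eq hH G M (by omega) (choose_bound _ _ hn (by omega))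
  have hO := cnO_eq hH G M v 0
  obtain ⟨c, hc, hcv⟩ : ∃ c ∈ M, c ≠ v := exists_mem_ne (by omega) v
  have h1 : cnO G M G v 0 < cn G M G 0 := by
    apply cnO_lt_cn hv (Same.refl G M) ((spl_card_zero G M).2 hM)
    intro M' h1 h2 h3
    have h3' : ModIn G {x | x ≠ v} M' := by
      intro y hyv hy a ha b hb hya
      by_contra hyb
      exact h3 y hyv ((mem_spl G M' y).2 ⟨hy, a, ha, b, hb, hya, hyb⟩)
    rw [spl_card_zero]
    by_cases hd : Disjoint M M'
    · exact disj_mod hv hc hcv hM h3' hd
    · exfalso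
      apply hns
      apply h2.symm.split
      have hP : ModIn G {x | x ≠ v} (M.erase v) := modIn_erase hM
      have hcard := h2.card
      have hPc : (M.erase v).card = M.card - 1 := card_erase_of_mem hv
      rw [not_disjoint_iff] at hd
      obtain ⟨x, hx, hx'⟩ := hd
      have hxv : x ≠ v := fun h => h1 (h ▸ hx')
      have hQP : (M' \ M.erase v).Nonempty := by
        rw [nonempty_iff_ne_empty]
        intro h
        rw [sdiff_eq_empty_iff_subset] at h
        have := card_le_card h
        omega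
      by_cases hPQ : (M.erase v \ M').Nonempty
      · refine overlap_split (P := M.erase v) (Q := M') (U := {x | x ≠ v}) ?_ ?_ hP h3'
          ⟨x, ?_⟩ hPQ hQP
        · intro y hy
          exact (mem_erase.mp (mem_coe.mp hy)).1
        · intro y hy h
          exact h1 (h ▸ mem_coe.mp hy)
        · rw [mem_inter, mem_erase]
          exact ⟨⟨hxv, hx⟩, hx'⟩
      · rw [not_nonempty_iff_eq_empty, sdiff_eq_empty_iff_subset] at hPQ
        have e : M.erase v ∪ (M' \ M.erase v) = M' := union_sdiff_of_subset hPQ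
        have hone : (M' \ M.erase v).card = 1 := by
          rw [card_sdiff_of_subset hPQ]
          omega
        rw [card_eq_one] at hone
        obtain ⟨z, hz⟩ := hone
        rw [← e]
        apply split_of G _ _ ⟨x, by rw [mem_erase]; exact ⟨hxv, hx⟩⟩ hQP disjoint_sdiff
        intro a ha b hb a' ha' b' hb' hab
        have hzv : z ≠ v := by
          intro h
          have : z ∈ M' \ M.erase v := by rw [hz]; simp
          rw [mem_sdiff] at this
          exact h1 (h ▸ this.1)
        have hzn : z ∉ M.erase v := by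
          have : z ∈ M' \ M.erase v := by rw [hz]; simp
          exact (mem_sdiff.mp this).2
        rw [hz, mem_singleton] at hb hb'
        subst hb
        subst hb'
        exact ((hP.iff (show b' ∈ {x | x ≠ v} from hzv) hzn ha ha').1 hab.symm).symm
  by_contra hcon
  push Not at hcon
  have h2 : cn G M H 0 ≤ cnO G M H v 0 :=
    cn_le_cnO (fun N h2 h3 h => hcon N h ((spl_card_zero H N).1 h3) h2)
  omega

/-- the position of the module in the card -/
theorem mod_core (hH : Hypo G H π) (hN : NonIso G H) {v : V} {M : Finset V}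
    (hM : ModIn G Set.univ M) (hv : v ∈ M) (hk : 3 ≤ M.card) (hns : ¬ Split G M)
    (hn : 5 * M.card ≤ Fintype.card V)
    (hno : ∀ Q : Finset V, ModIn G Set.univ Q → ¬ Same G G (M.erase v) Q) :
    ∃ N' : Finset V, v ∉ N' ∧ ModIn G {x | x ≠ v} N' ∧ N'.card = (M.erase v).card ∧
      (M.erase v ∩ N').Nonempty ∧
      ∀ τ : Equiv.Perm V, τ v = v → (∀ x y, x ≠ v → y ≠ v → (G.Adj (τ x) (τ y) ↔ G.Adj x y)) →
        ¬ ∀ x, x ≠ v → (x ∈ M ↔ τ x ∈ N') := by
  classical
  obtain ⟨N, hvN, hNm, hs⟩ := exists_N hH hM hv hk hns hn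
  obtain ⟨c, hc, hcv⟩ : ∃ c ∈ M, c ≠ v := exists_mem_ne (by omega) v
  have hcard := hs.card
  have hPc : (M.erase v).card = M.card - 1 := card_erase_of_mem hv
  have hNc : (N.erase v).card = N.card - 1 := card_erase_of_mem hvN
  set N' := (N.erase v).map (π v).symm.toEmbedding with hN'
  have hN'mem : ∀ x, x ∈ N' ↔ π v x ∈ N.erase v := by
    intro x
    rw [hN', mem_map]
    constructor
    · rintro ⟨y, hy, rfl⟩
      simpa using hy
    · intro h
      exact ⟨π v x, h, by simp⟩
  have hvN' : v ∉ N' := by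
    rw [hN'mem, hH.fix]
    exact notMem_erase v N
  have hback : N'.map (π v).toEmbedding = N.erase v := by
    rw [hN', map_map]
    ext x
    simp
  have hmodN' : ModIn G {x | x ≠ v} N' := by
    rw [← modIn_map hH hvN', hback]
    exact modIn_erase hNm
  refine ⟨N', hvN', hmodN', by rw [hN', card_map]; omega, ?_, ?_⟩
  · -- not disjoint
    by_contra hdis
    rw [not_nonempty_iff_eq_empty, ← disjoint_iff_inter_eq_empty] at hdis
    have hvM : v ∉ M.erase v := notMem_erase v M
    set L := (M.erase v).map (π v).toEmbedding with hL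
    have hLm : ModIn H {x | x ≠ v} L := (modIn_map hH hvM).2 (modIn_erase hM)
    have hLs : Same G H (M.erase v) L := same_map hH v _ hvM
    have hvL : v ∉ L := map_notMem hH v _ hvM
    have hNL : Disjoint N L := by
      rw [disjoint_left]
      intro x hx hx2
      rw [hL, mem_map] at hx2
      obtain ⟨y, hy, hyx⟩ := hx2
      simp only [Equiv.coe_toEmbedding] at hyx
      have hxv : x ≠ v := by
        rintro rfl
        apply hvL
        rw [hL, mem_map]
        exact ⟨y, hy, hyx⟩
      have : y ∈ N' := by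
        rw [hN'mem, hyx, mem_erase]
        exact ⟨hxv, hx⟩
      exact disjoint_left.mp hdis hy this
    obtain ⟨d, hd, hdv⟩ : ∃ d ∈ N, d ≠ v := exists_mem_ne (by omega) v
    have hLmod := disj_mod hvN hd hdv hNm hLm hNL
    have hcount := cn_zero_eq hH G (M.erase v) (by omega)
      (choose_bound _ _ (by omega) (by omega))
    have h1 : cn G (M.erase v) G 0 = 0 := by
      unfold cn
      rw [card_eq_zero, filter_eq_empty_iff]
      rintro Q _ ⟨hQ1, hQ2⟩
      exact hno Q ((spl_card_zero G Q).1 hQ2) hQ1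
    have h2 : 0 < cn G (M.erase v) H 0 := by
      unfold cn
      apply card_pos.mpr
      refine ⟨L, ?_⟩
      rw [mem_filter]
      exact ⟨mem_univ _, hLs, (spl_card_zero H L).2 hLmod⟩
    omega
  · intro τ hτv hτ hcon
    refine fin_case hH hN hM hc hcv hv hNm hs τ hτv hτ (fun x => ?_)
    by_cases hx : x = v
    · subst hx
      rw [hτv, hH.fix]
      exact ⟨fun _ => hvN, fun _ => hv⟩
    · rw [hcon x hx, hN'mem, mem_erase]
      constructor
      · exact fun h => h.2
      · intro h
        refine ⟨?_, h⟩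
        apply app_ne hH
        intro h'
        exact hx (τ.injective (by rw [h', hτv]))

theorem part_A (G : SimpleGraph V) {v : V} {M : Finset V}
    (hM : ModIn G Set.univ M) (hv : v ∈ M) (hk : 3 ≤ M.card) (hns : ¬ Split G M)
    (hns' : ¬ Split G (M.erase v)) (hn : 5 * M.card ≤ Fintype.card V)
    (hno : ∀ Q : Finset V, ModIn G Set.univ Q → ¬ Same G G (M.erase v) Q) :
    Reconstructible G ∧ Reconstructible Gᶜ := by
  apply rec_of
  intro H π hH hN
  obtain ⟨N', h1, h2, h3, h4, h5⟩ := mod_core hH hN hM hv hk hns hn hno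
  have hne : N' ≠ M.erase v := by
    intro h
    apply h5 (Equiv.refl V) rfl (fun _ _ _ _ => Iff.rfl)
    intro x hx
    rw [h, Equiv.refl_apply, mem_erase]
    exact ⟨fun h => ⟨hx, h⟩, fun h => h.2⟩
  apply hns'
  rw [inter_comm] at h4
  refine overlap_split (P := N') (Q := M.erase v) (U := {x | x ≠ v}) ?_ ?_ h2 (modIn_erase hM)
    h4 ?_ ?_
  · intro y hy h
    exact h1 (h ▸ mem_coe.mp hy)
  · intro y hy
    exact (mem_erase.mp (mem_coe.mp hy)).1
  · rw [nonempty_iff_ne_empty, Ne, sdiff_eq_empty_iff_subset]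
    intro h
    exact hne (eq_of_subset_of_card_le h h3.ge)
  · rw [nonempty_iff_ne_empty, Ne, sdiff_eq_empty_iff_subset]
    intro h
    exact hne (eq_of_subset_of_card_le h h3.le).symm

theorem part_B (G : SimpleGraph V) (M : Finset V) (hM : ModIn G Set.univ M) (h2 : 2 ≤ M.card)
    (hn : 5 * M.card ≤ Fintype.card V)
    (htw : ∀ a b, a ≠ b → ∃ x, x ≠ a ∧ x ≠ b ∧ ¬ (G.Adj a x ↔ G.Adj b x)) :
    Reconstructible G ∧ Reconstructible Gᶜ := by
  classical
  apply rec_of
  intro H π hH hN
  -- a smallest nontrivial module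
  obtain ⟨M0, hM0, hmin⟩ := exists_min_image
    (univ.filter (fun Q : Finset V => ModIn G Set.univ Q ∧ 2 ≤ Q.card)) card
    ⟨M, by rw [mem_filter]; exact ⟨mem_univ _, hM, h2⟩⟩
  rw [mem_filter] at hM0
  obtain ⟨_, hMod, hc2⟩ := hM0
  have hmin' : ∀ Q : Finset V, ModIn G Set.univ Q → 2 ≤ Q.card → M0.card ≤ Q.card := by
    intro Q hQ hQ2
    exact hmin Q (by rw [mem_filter]; exact ⟨mem_univ _, hQ, hQ2⟩)
  have hle : M0.card ≤ M.card := hmin' M hM h2
  have h3 : 3 ≤ M0.card := by
    by_contra hlt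
    have : M0.card = 2 := by omega
    rw [card_eq_two] at this
    obtain ⟨a, b, hab, rfl⟩ := this
    obtain ⟨x, hxa, hxb, hx⟩ := htw a b hab
    apply hx
    rw [G.adj_comm a x, G.adj_comm b x]
    exact hMod.iff (Set.mem_univ x) (by simp [hxa, hxb]) (by simp) (by simp)
  have hns : ¬ Split G M0 := by
    rintro ⟨P, Q, hP, hQ, hd, rfl, hcase⟩
    have key : ∀ P Q : Finset V, P.Nonempty → Q.Nonempty → Disjoint P Q → ModIn G Set.univ (P ∪ Q) →
        (∀ R : Finset V, ModIn G Set.univ R → 2 ≤ R.card → (P ∪ Q).card ≤ R.card) →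
        ((∀ a ∈ P, ∀ b ∈ Q, G.Adj a b) ∨ (∀ a ∈ P, ∀ b ∈ Q, ¬ G.Adj a b)) → P.card ≤ 1 := by
      intro P Q hP hQ hd hm hmn hcase
      by_contra hlt
      have hmP : ModIn G Set.univ P := by
        intro y _ hy a ha b hb hya
        by_cases hyQ : y ∈ Q
        · rcases hcase with h | h
          · exact (h b hb y hyQ).symm
          · exact absurd hya.symm (h a ha y hyQ)
        · exact hm y (Set.mem_univ _) (by rw [mem_union]; tauto) a (mem_union_left _ ha) b
            (mem_union_left _ hb) hya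
      have h1 := hmn P hmP (by omega)
      rw [card_union_of_disjoint hd] at h1
      have := card_pos.mpr hQ
      omega
    have k1 := key P Q hP hQ hd hMod hmin' hcase
    have k2 := key Q P hQ hP hd.symm (by rw [union_comm]; exact hMod)
      (by rw [union_comm]; exact hmin') (by
        rcases hcase with h | h
        · exact Or.inl (fun a ha b hb => (h b hb a ha).symm)
        · exact Or.inr (fun a ha b hb h' => h b hb a ha h'.symm))
    rw [card_union_of_disjoint hd] at h3
    omega
  obtain ⟨v, hv⟩ := card_pos.mp (show 0 < M0.card by omega)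
  have hec : (M0.erase v).card = M0.card - 1 := card_erase_of_mem hv
  obtain ⟨N', g1, g2, g3, g4, g5⟩ := mod_core hH hN hMod hv h3 hns (by omega) (by
    intro Q hQ hs
    have := hs.card
    have := hmin' Q hQ (by omega)
    omega)
  have hne : N' ≠ M0.erase v := by
    intro h
    apply g5 (Equiv.refl V) rfl (fun _ _ _ _ => Iff.rfl)
    intro x hx
    rw [h, Equiv.refl_apply, mem_erase]
    exact ⟨fun h => ⟨hx, h⟩, fun h => h.2⟩
  have hd1 : (M0.erase v \ N').Nonempty := by
    rw [nonempty_iff_ne_empty, Ne, sdiff_eq_empty_iff_subset]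
    intro h
    exact hne (eq_of_subset_of_card_le h g3.le).symm
  have hU1 : (↑(M0.erase v) : Set V) ⊆ {x | x ≠ v} := fun y hy => (mem_erase.mp (mem_coe.mp hy)).1
  have hU2 : (↑N' : Set V) ⊆ {x | x ≠ v} := fun y hy h => g1 (h ▸ mem_coe.mp hy)
  have hA1 : ModIn G {x | x ≠ v} (N' \ M0.erase v) := diff_mod hU1 hU2 (modIn_erase hMod) g2 hd1
  obtain ⟨c, hc, hcv⟩ : ∃ c ∈ M0, c ≠ v := exists_mem_ne (by omega) v
  have hA2 : ModIn G Set.univ (N' \ M0.erase v) := by
    refine disj_mod hv hc hcv hMod hA1 ?_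
    rw [disjoint_left]
    intro x hx hx2
    rw [mem_sdiff, mem_erase] at hx2
    exact hx2.2 ⟨fun h => g1 (h ▸ hx2.1), hx⟩
  have hcap : 1 ≤ (M0.erase v ∩ N').card := card_pos.mpr g4
  have e1 := card_sdiff_add_card_inter N' (M0.erase v)
  have e2 := card_sdiff_add_card_inter (M0.erase v) N'
  rw [inter_comm N'] at e1
  have hA3 : (N' \ M0.erase v).card ≤ 1 := by
    by_contra hlt
    have := hmin' _ hA2 (by omega)
    omega
  have hpos := card_pos.mpr hd1
  have hz1 : (M0.erase v \ N').card = 1 := by omega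
  have hx1 : (N' \ M0.erase v).card = 1 := by omega
  rw [card_eq_one] at hz1 hx1
  obtain ⟨z, hz⟩ := hz1
  obtain ⟨x, hx⟩ := hx1
  have hzm : z ∈ M0.erase v ∧ z ∉ N' := by
    have : z ∈ M0.erase v \ N' := by rw [hz]; simp
    exact mem_sdiff.mp this
  have hxm : x ∈ N' ∧ x ∉ M0.erase v := by
    have : x ∈ N' \ M0.erase v := by rw [hx]; simp
    exact mem_sdiff.mp this
  have hzv : z ≠ v := (mem_erase.mp hzm.1).1
  have hxv : x ≠ v := fun h => g1 (h ▸ hxm.1)
  have hxz : x ≠ z := fun h => hzm.2 (h ▸ hxm.1)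
  -- membership
  have hmem : ∀ y, y ≠ x → y ≠ z → (y ∈ N' ↔ y ∈ M0.erase v) := by
    intro y hyx hyz
    constructor
    · intro h
      by_contra h'
      have : y ∈ N' \ M0.erase v := mem_sdiff.mpr ⟨h, h'⟩
      rw [hx, mem_singleton] at this
      exact hyx this
    · intro h
      by_contra h'
      have : y ∈ M0.erase v \ N' := mem_sdiff.mpr ⟨h, h'⟩
      rw [hz, mem_singleton] at this
      exact hyz this
  obtain ⟨b, hb⟩ := g4
  rw [mem_inter] at hb
  have hbx : b ≠ x := fun h => hxm.2 (h ▸ hb.1)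
  have hbz : b ≠ z := fun h => hzm.2 (h ▸ hb.2)
  have hmodP : ModIn G {x | x ≠ v} (M0.erase v) := modIn_erase hMod
  have htwin : ∀ y, y ≠ v → y ≠ x → y ≠ z → (G.Adj y x ↔ G.Adj y z) := by
    intro y hyv hyx hyz
    by_cases hy : y ∈ M0.erase v
    · have hyN : y ∈ N' := (hmem y hyx hyz).2 hy
      have k1 : G.Adj x y ↔ G.Adj x z :=
        hmodP.iff (show x ∈ {x | x ≠ v} from hxv) hxm.2 hy hzm.1
      have k2 : G.Adj z y ↔ G.Adj z x :=
        g2.iff (show z ∈ {x | x ≠ v} from hzv) hzm.2 hyN hxm.1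
      rw [G.adj_comm y x, k1, G.adj_comm x z, ← k2, G.adj_comm]
    · have hyN : y ∉ N' := fun h => hy ((hmem y hyx hyz).1 h)
      rw [g2.iff (show y ∈ {x | x ≠ v} from hyv) hyN hxm.1 hb.2]
      exact hmodP.iff (show y ∈ {x | x ≠ v} from hyv) hy hb.1 hzm.1
  apply g5 (Equiv.swap z x) (Equiv.swap_apply_of_ne_of_ne hzv.symm hxv.symm)
  · intro a a' hav ha'v
    by_cases c1 : a = z
    · by_cases c2 : a' = z
      · subst c1; subst c2
        exact ⟨fun h => absurd h (G.loopless.irrefl _), fun h => absurd h (G.loopless.irrefl _)⟩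
      · by_cases c3 : a' = x
        · subst c1; subst c3
          rw [Equiv.swap_apply_left, Equiv.swap_apply_right, G.adj_comm]
        · subst c1
          rw [Equiv.swap_apply_left, Equiv.swap_apply_of_ne_of_ne c2 c3, G.adj_comm x, G.adj_comm a]
          exact htwin a' ha'v c3 c2
    · by_cases c1' : a = x
      · by_cases c2 : a' = z
        · subst c1'; subst c2
          rw [Equiv.swap_apply_left, Equiv.swap_apply_right, G.adj_comm]
        · by_cases c3 : a' = x
          · subst c1'; subst c3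
            exact ⟨fun h => absurd h (G.loopless.irrefl _), fun h => absurd h (G.loopless.irrefl _)⟩
          · subst c1'
            rw [Equiv.swap_apply_right, Equiv.swap_apply_of_ne_of_ne c2 c3, G.adj_comm z,
              G.adj_comm a]
            exact (htwin a' ha'v c3 c2).symm
      · rw [Equiv.swap_apply_of_ne_of_ne c1 c1']
        by_cases c2 : a' = z
        · subst c2
          rw [Equiv.swap_apply_left]
          exact htwin a hav c1' c1
        · by_cases c3 : a' = x
          · subst c3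
            rw [Equiv.swap_apply_right]
            exact (htwin a hav c1' c1).symm
          · rw [Equiv.swap_apply_of_ne_of_ne c2 c3]
  · intro y hyv
    by_cases c1 : y = z
    · subst c1
      rw [Equiv.swap_apply_left]
      exact ⟨fun _ => hxm.1, fun _ => (mem_erase.mp hzm.1).2⟩
    · by_cases c2 : y = x
      · subst c2
        rw [Equiv.swap_apply_right]
        exact ⟨fun h => absurd (mem_erase.mpr ⟨hyv, h⟩) hxm.2, fun h => absurd h hzm.2⟩
      · rw [Equiv.swap_apply_of_ne_of_ne c1 c2, hmem y c2 c1, mem_erase]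
        exact ⟨fun h => ⟨hyv, h⟩, fun h => h.2⟩

end Pool.Agent.X76.MD
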