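import Pool.Agent.X76.MD3

set_option autoImplicit false

/-! Connected and co-connected sets have a vertex whose deletion leaves such a set. -/

namespace Pool.Agent.X76.MD

open Finset
open Pool.Agent.H234RC (Hypo NonIso Reconstructible)

variable {V : Type} [DecidableEq V]

/-- `M` induces a connected graph -/
def Cn (G : SimpleGraph V) (M : Finset V) : Prop :=
  ∀ P Q : Finset V, P.Nonempty → Q.Nonempty → Disjoint P Q → P ∪ Q = M → ∃ a ∈ P, ∃ b ∈ Q, G.Adj a b

theorem cn_of_not_split {G : SimpleGraph V} {M : Finset V} (h : ¬ Split G M) : Cn G M := by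
  intro P Q hP hQ hd hu
  by_contra hcon
  push Not at hcon
  exact h ⟨P, Q, hP, hQ, hd, hu, Or.inr hcon⟩

theorem cn_compl_of_not_split {G : SimpleGraph V} {M : Finset V} (h : ¬ Split G M) : Cn Gᶜ M := by
  intro P Q hP hQ hd hu
  by_contra hcon
  push Not at hcon
  refine h ⟨P, Q, hP, hQ, hd, hu, Or.inl fun a ha b hb => ?_⟩
  by_contra hab
  exact hcon a ha b hb ⟨fun h => disjoint_left.mp hd ha (h ▸ hb), hab⟩

theorem not_split_iff {G : SimpleGraph V} {M : Finset V} : ¬ Split G M ↔ Cn G M ∧ Cn Gᶜ M := by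
  refine ⟨fun h => ⟨cn_of_not_split h, cn_compl_of_not_split h⟩, ?_⟩
  rintro ⟨h1, h2⟩ ⟨P, Q, hP, hQ, hd, hu, hc | hc⟩
  · obtain ⟨a, ha, b, hb, hab⟩ := h2 P Q hP hQ hd hu
    exact hab.2 (hc a ha b hb)
  · obtain ⟨a, ha, b, hb, hab⟩ := h1 P Q hP hQ hd hu
    exact hc a ha b hb hab

/-- a vertex different from `r` whose deletion leaves a connected graph -/
theorem exists_noncut {G : SimpleGraph V} {M : Finset V} (h : Cn G M) (h2 : 2 ≤ M.card)
    {r : V} (hr : r ∈ M) : ∃ x ∈ M, x ≠ r ∧ Cn G (M.erase x) := by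
  classical
  obtain ⟨U, hU, hmax⟩ := exists_max_image
    (M.powerset.filter (fun U => r ∈ U ∧ U ≠ M ∧ Cn G U)) card
    ⟨{r}, by
      rw [mem_filter, mem_powerset]
      refine ⟨by simpa using hr, by simp, fun h => ?_, ?_⟩
      · rw [← h] at h2; simp at h2
      · intro P Q hP hQ hd hu
        exfalso
        obtain ⟨a, ha⟩ := hP
        obtain ⟨b, hb⟩ := hQ
        have h1 : a = r := by
          have : a ∈ P ∪ Q := mem_union_left _ ha
          rw [hu] at this; simpa using this
        have h2 : b = r := by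
          have : b ∈ P ∪ Q := mem_union_right _ hb
          rw [hu] at this; simpa using this
        subst h1; subst h2
        exact disjoint_left.mp hd ha hb⟩
  rw [mem_filter, mem_powerset] at hU
  obtain ⟨hUM, hrU, hne, hcn⟩ := hU
  have hdiff : (M \ U).Nonempty := by
    rw [nonempty_iff_ne_empty, Ne, sdiff_eq_empty_iff_subset]
    intro h'
    exact hne (subset_antisymm hUM h')
  obtain ⟨a, ha, x, hx, hax⟩ := h U (M \ U) ⟨r, hrU⟩ hdiff disjoint_sdiff
    (union_sdiff_of_subset hUM)
  rw [mem_sdiff] at hx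
  have hcn2 : Cn G (insert x U) := by
    intro P Q hP hQ hd hu
    by_cases hxP : x ∈ P
    · by_cases hP1 : (P.erase x).Nonempty
      · obtain ⟨c, hc, d, hd', hcd⟩ := hcn (P.erase x) Q hP1 hQ
          (disjoint_of_subset_left (erase_subset _ _) hd) (by
            ext y
            have h1 : y ∈ P ∪ Q ↔ y ∈ insert x U := by rw [hu]
            rw [mem_union, mem_insert] at h1
            rw [mem_union, mem_erase]
            have hxQ : x ∉ Q := fun h => disjoint_left.mp hd hxP h
            constructor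
            · rintro (⟨h2, h3⟩ | h3)
              · exact (h1.1 (Or.inl h3)).resolve_left h2
              · refine (h1.1 (Or.inr h3)).resolve_left ?_
                rintro rfl
                exact hxQ h3
            · intro h2
              have h3 : y ≠ x := fun h => hx.2 (h ▸ h2)
              rcases h1.2 (Or.inr h2) with h4 | h4
              · exact Or.inl ⟨h3, h4⟩
              · exact Or.inr h4)
        exact ⟨c, (mem_erase.mp hc).2, d, hd', hcd⟩
      · have hPx : P = {x} := by
          rw [not_nonempty_iff_eq_empty, erase_eq_empty_iff] at hP1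
          rcases hP1 with h1 | h1
          · rw [h1] at hxP; simp at hxP
          · exact h1
        refine ⟨x, hxP, a, ?_, hax.symm⟩
        have h1 : a ∈ P ∪ Q := by rw [hu]; exact mem_insert_of_mem ha
        rw [mem_union, hPx, mem_singleton] at h1
        rcases h1 with h1 | h1
        · exact absurd (h1 ▸ ha) hx.2
        · exact h1
    · have hxQ : x ∈ Q := by
        have h1 : x ∈ P ∪ Q := by rw [hu]; exact mem_insert_self _ _
        rw [mem_union] at h1
        exact h1.resolve_left hxP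
      by_cases hQ1 : (Q.erase x).Nonempty
      · obtain ⟨c, hc, d, hd', hcd⟩ := hcn P (Q.erase x) hP hQ1
          (disjoint_of_subset_right (erase_subset _ _) hd) (by
            ext y
            have h1 : y ∈ P ∪ Q ↔ y ∈ insert x U := by rw [hu]
            rw [mem_union, mem_insert] at h1
            rw [mem_union, mem_erase]
            constructor
            · rintro (h3 | ⟨h2, h3⟩)
              · refine (h1.1 (Or.inl h3)).resolve_left ?_
                rintro rfl
                exact hxP h3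
              · exact (h1.1 (Or.inr h3)).resolve_left h2
            · intro h2
              have h3 : y ≠ x := fun h => hx.2 (h ▸ h2)
              rcases h1.2 (Or.inr h2) with h4 | h4
              · exact Or.inl h4
              · exact Or.inr ⟨h3, h4⟩)
        exact ⟨c, hc, d, (mem_erase.mp hd').2, hcd⟩
      · have hQx : Q = {x} := by
          rw [not_nonempty_iff_eq_empty, erase_eq_empty_iff] at hQ1
          rcases hQ1 with h1 | h1
          · rw [h1] at hxQ; simp at hxQ
          · exact h1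
        refine ⟨a, ?_, x, hxQ, hax⟩
        have h1 : a ∈ P ∪ Q := by rw [hu]; exact mem_insert_of_mem ha
        rw [mem_union, hQx, mem_singleton] at h1
        rcases h1 with h1 | h1
        · exact h1
        · exact absurd (h1 ▸ ha) hx.2
  have hins : insert x U = M := by
    by_contra hne2
    have := hmax (insert x U) (by
      rw [mem_filter, mem_powerset]
      exact ⟨insert_subset hx.1 hUM, mem_insert_of_mem hrU, hne2, hcn2⟩)
    rw [card_insert_of_notMem hx.2] at this
    omega
  refine ⟨x, hx.1, fun h => hx.2 (h ▸ hrU), ?_⟩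
  rw [← hins, erase_insert hx.2]
  exact hcn

/-- cut vertices of the graph and of the complement -/
theorem cut_pair {G : SimpleGraph V} {M : Finset V} {u v : V} (huv : u ≠ v) (hu : u ∈ M)
    (hv : v ∈ M) (h1 : ¬ Cn Gᶜ (M.erase u)) (h2 : ¬ Cn G (M.erase v)) :
    (∀ z ∈ M, G.Adj u z → z = v) ∨ (∀ z ∈ M, z ≠ v → ¬ G.Adj v z → z = u) := by
  -- reduce to `v ∈ P`
  have key : ∀ P Q : Finset V, P.Nonempty → Q.Nonempty → Disjoint P Q → P ∪ Q = M.erase u →
      (∀ a ∈ P, ∀ b ∈ Q, G.Adj a b) → v ∈ P →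
      (∀ z ∈ M, G.Adj u z → z = v) ∨ (∀ z ∈ M, z ≠ v → ¬ G.Adj v z → z = u) := by
    intro P Q hP hQ hd hPQ hadj hvP
    have hmem : ∀ z, z ∈ P ∨ z ∈ Q ↔ z ≠ u ∧ z ∈ M := by
      intro z
      rw [← mem_union, hPQ, mem_erase]
    by_cases hP1 : (P.erase v).Nonempty
    · left
      -- `R = {u}`
      unfold Cn at h2
      push Not at h2
      obtain ⟨R0, T0, hR0, hT0, hRT0, hRTu0, hno0⟩ := h2
      have key2 : ∀ R T : Finset V, T.Nonempty → Disjoint R T → R ∪ T = M.erase v →
          (∀ a ∈ R, ∀ b ∈ T, ¬ G.Adj a b) → u ∈ R → ∀ z ∈ M, G.Adj u z → z = v := by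
        intro R T hT hRT hRTu hno huR
        have hmem2 : ∀ z, z ∈ R ∨ z ∈ T ↔ z ≠ v ∧ z ∈ M := by
          intro z
          rw [← mem_union, hRTu, mem_erase]
        have hR1 : ∀ r ∈ R, r = u := by
          by_contra hcon
          push Not at hcon
          obtain ⟨r, hr, hru⟩ := hcon
          obtain ⟨t, ht⟩ := hT
          have htu : t ≠ u := fun h => disjoint_left.mp hRT huR (h ▸ ht)
          have hr2 := (hmem2 r).1 (Or.inl hr)
          have ht2 := (hmem2 t).1 (Or.inr ht)
          obtain ⟨q, hq⟩ := hQ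
          obtain ⟨p, hp⟩ := hP1
          rw [mem_erase] at hp
          have hpv : p ≠ v := hp.1
          have hqv : q ≠ v := fun h => disjoint_left.mp hd hvP (h ▸ hq)
          have hp3 := (hmem p).1 (Or.inl hp.2)
          have hq3 := (hmem q).1 (Or.inr hq)
          have hpq := hadj p hp.2 q hq
          -- sides of `p` and `q`
          have hside : ∀ a b, (a ∈ R ∨ a ∈ T) → (b ∈ R ∨ b ∈ T) → G.Adj a b → (a ∈ R → b ∈ R) := by
            intro a b ha hb hab haR
            rcases hb with h | h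
            · exact h
            · exact absurd hab (hno a haR b h)
          have hp4 := (hmem2 p).2 ⟨hpv, hp3.2⟩
          have hq4 := (hmem2 q).2 ⟨hqv, hq3.2⟩
          have hr3 := (hmem r).2 ⟨hru, hr2.2⟩
          have ht3 := (hmem t).2 ⟨htu, ht2.2⟩
          have hr4 : r ∈ R ∨ r ∈ T := Or.inl hr
          have ht4 : t ∈ R ∨ t ∈ T := Or.inr ht
          -- everything is in `R`
          have hqR : q ∈ R := by
            rcases hr3 with h | h
            · exact hside r q hr4 hq4 (hadj r h q hq) hr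
            · exact hside p q hp4 hq4 hpq (hside r p hr4 hp4 (hadj p hp.2 r h).symm hr)
          have hpR : p ∈ R := hside q p hq4 hp4 hpq.symm hqR
          have htR : t ∈ R := by
            rcases ht3 with h | h
            · exact hside q t hq4 ht4 (hadj t h q hq).symm hqR
            · exact hside p t hp4 ht4 (hadj p hp.2 t h) hpR
          exact disjoint_left.mp hRT htR ht
        intro z hz huz
        by_contra hzv
        rcases (hmem2 z).2 ⟨hzv, hz⟩ with h | h
        · have := hR1 z h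
          subst this
          exact G.loopless.irrefl _ huz
        · exact hno u huR z h huz
      have hu2 : u ∈ R0 ∪ T0 := by rw [hRTu0, mem_erase]; exact ⟨huv, hu⟩
      rw [mem_union] at hu2
      rcases hu2 with h | h
      · exact key2 R0 T0 hT0 hRT0 hRTu0 hno0 h
      · exact key2 T0 R0 hR0 hRT0.symm (by rw [union_comm]; exact hRTu0)
          (fun a ha b hb h => hno0 b hb a ha h.symm) h
    · right
      have hPv : P = {v} := by
        rw [not_nonempty_iff_eq_empty, erase_eq_empty_iff] at hP1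
        rcases hP1 with h1 | h1
        · rw [h1] at hvP; simp at hvP
        · exact h1
      intro z hz hzv hvz
      by_contra hzu
      rcases (hmem z).2 ⟨hzu, hz⟩ with h | h
      · rw [hPv, mem_singleton] at h
        exact hzv h
      · exact hvz (hadj v hvP z h)
  unfold Cn at h1
  push Not at h1
  obtain ⟨P, Q, hP, hQ, hd, hPQ, hno⟩ := h1
  have hadj : ∀ a ∈ P, ∀ b ∈ Q, G.Adj a b := by
    intro a ha b hb
    by_contra hab
    exact hno a ha b hb ⟨fun h => disjoint_left.mp hd ha (h ▸ hb), hab⟩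
  have hv2 : v ∈ P ∪ Q := by rw [hPQ, mem_erase]; exact ⟨huv.symm, hv⟩
  rw [mem_union] at hv2
  rcases hv2 with h | h
  · exact key P Q hP hQ hd hPQ hadj h
  · exact key Q P hQ hP hd.symm (by rw [union_comm]; exact hPQ)
      (fun a ha b hb => (hadj b hb a ha).symm) h

theorem exists_del {G : SimpleGraph V} {M : Finset V} (h : ¬ Split G M) (h5 : 5 ≤ M.card) :
    ∃ v ∈ M, ¬ Split G (M.erase v) := by
  classical
  by_contra hcon
  push Not at hcon
  have hcn := cn_of_not_split h
  have hcc := cn_compl_of_not_split h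
  obtain ⟨r, hr⟩ := card_pos.mp (show 0 < M.card by omega)
  obtain ⟨x1, hx1, _, hx1c⟩ := exists_noncut hcn (by omega) hr
  obtain ⟨x2, hx2, hx12, hx2c⟩ := exists_noncut hcn (by omega) hx1
  obtain ⟨y1, hy1, _, hy1c⟩ := exists_noncut hcc (by omega) hr
  obtain ⟨y2, hy2, hy12, hy2c⟩ := exists_noncut hcc (by omega) hy1
  have dich : ∀ v ∈ M, Cn G (M.erase v) → ¬ Cn Gᶜ (M.erase v) := by
    intro v hv h1 h2
    exact (not_split_iff.mpr ⟨h1, h2⟩) (hcon v hv)
  have nx1 := dich x1 hx1 hx1c
  have nx2 := dich x2 hx2 hx2c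
  have ny1 : ¬ Cn G (M.erase y1) := fun h => dich y1 hy1 h hy1c
  have ny2 : ¬ Cn G (M.erase y2) := fun h => dich y2 hy2 h hy2c
  have d11 : x1 ≠ y1 := fun h => ny1 (h ▸ hx1c)
  have d12 : x1 ≠ y2 := fun h => ny2 (h ▸ hx1c)
  have d21 : x2 ≠ y1 := fun h => ny1 (h ▸ hx2c)
  have d22 : x2 ≠ y2 := fun h => ny2 (h ▸ hx2c)
  -- every vertex has a neighbour and a non-neighbour in `M`
  have hnb : ∀ K : SimpleGraph V, Cn K M → ∀ v ∈ M, ∃ z ∈ M, K.Adj v z := by
    intro K hK v hv
    obtain ⟨a, ha, b, hb, hab⟩ := hK {v} (M.erase v) ⟨v, by simp⟩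
      (by rw [← card_pos, card_erase_of_mem hv]; omega)
      (by rw [disjoint_singleton_left]; exact notMem_erase v M) (by
        rw [← insert_eq, insert_erase hv])
    rw [mem_singleton] at ha
    subst ha
    exact ⟨b, (mem_erase.mp hb).2, hab⟩
  -- uniqueness of the neighbour and of the non-neighbour
  have uni1 : ∀ u v v', u ∈ M → (∀ z ∈ M, G.Adj u z → z = v) → (∀ z ∈ M, G.Adj u z → z = v') →
      v = v' := by
    intro u v v' hu h1 h2
    obtain ⟨z, hz, huz⟩ := hnb G hcn u hu
    rw [← h1 z hz huz, ← h2 z hz huz]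
  have uni2 : ∀ v u u', v ∈ M → (∀ z ∈ M, z ≠ v → ¬ G.Adj v z → z = u) →
      (∀ z ∈ M, z ≠ v → ¬ G.Adj v z → z = u') → u = u' := by
    intro v u u' hv h1 h2
    obtain ⟨z, hz, hvz⟩ := hnb Gᶜ hcc v hv
    rw [← h1 z hz hvz.1.symm hvz.2, ← h2 z hz hvz.1.symm hvz.2]
  have p11 := cut_pair d11 hx1 hy1 nx1 ny1
  have p12 := cut_pair d12 hx1 hy2 nx1 ny2
  have p21 := cut_pair d21 hx2 hy1 nx2 ny1
  have p22 := cut_pair d22 hx2 hy2 nx2 ny2
  -- a fifth vertex
  obtain ⟨z, hz, hz'⟩ : ∃ z ∈ M, z ∉ ({x1, x2, y1, y2} : Finset V) := by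
    by_contra hcon2
    push Not at hcon2
    have h1 := card_le_card (show M ⊆ ({x1, x2, y1, y2} : Finset V) from fun z hz => hcon2 z hz)
    have h2 : ({x1, x2, y1, y2} : Finset V).card ≤ 4 := card_le_four
    omega
  simp only [mem_insert, mem_singleton, not_or] at hz'
  obtain ⟨z1, z2, z3, z4⟩ := hz'
  -- the contradiction from the structure
  have fin : ∀ a b c d : V, a ∈ M → b ∈ M → c ∈ M → d ∈ M → c ≠ d → a ≠ b → z ≠ a → z ≠ b → z ≠ c → z ≠ d →
      ¬ Cn Gᶜ (M.erase a) → ¬ Cn Gᶜ (M.erase b) → ¬ Cn G (M.erase c) → ¬ Cn G (M.erase d) →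
      (∀ w ∈ M, G.Adj a w → w = c) → (∀ w ∈ M, G.Adj b w → w = d) →
      (∀ w ∈ M, w ≠ c → ¬ G.Adj c w → w = b) → (∀ w ∈ M, w ≠ d → ¬ G.Adj d w → w = a) → False := by
    intro a b c d ha hb hc hd hcd hab za zb zc zd na nb nc nd la lb oc od
    by_cases hzc : Cn G (M.erase z)
    · have nz := dich z hz hzc
      have q1 := cut_pair zc hz hc nz nc
      have q2 := cut_pair zd hz hd nz nd
      rcases q1 with q1 | q1
      · rcases q2 with q2 | q2
        · exact hcd (uni1 z c d hz q1 q2)
        · exact za (uni2 d z a hd q2 od)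
      · exact zb (uni2 c z b hc q1 oc)
    · have q1 := cut_pair za.symm ha hz na hzc
      have q2 := cut_pair zb.symm hb hz nb hzc
      rcases q1 with q1 | q1
      · exact zc (uni1 a z c ha q1 la)
      · rcases q2 with q2 | q2
        · exact zd (uni1 b z d hb q2 lb)
        · exact hab (uni2 z a b hz q1 q2)
  rcases p11 with p11 | p11
  · have q12 := p12.resolve_left (fun h => hy12 (uni1 x1 y2 y1 hx1 h p11))
    have q22 := p22.resolve_right (fun h => hx12 (uni2 y2 x2 x1 hy2 h q12))
    have q21 := p21.resolve_left (fun h => hy12 (uni1 x2 y2 y1 hx2 q22 h))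
    exact fin x1 x2 y1 y2 hx1 hx2 hy1 hy2 hy12.symm hx12.symm z1 z2 z3 z4 nx1 nx2 ny1 ny2 p11 q22
      q21 q12
  · have q21 := p21.resolve_right (fun h => hx12 (uni2 y1 x2 x1 hy1 h p11))
    have q22 := p22.resolve_left (fun h => hy12 (uni1 x2 y2 y1 hx2 h q21))
    have q12 := p12.resolve_right (fun h => hx12 (uni2 y2 x2 x1 hy2 q22 h))
    exact fin x1 x2 y2 y1 hx1 hx2 hy2 hy1 hy12 hx12.symm z1 z2 z4 z3 nx1 nx2 ny2 ny1 q12 q21
      q22 p11

variable [Fintype V]

theorem part_C (G : SimpleGraph V) (M : Finset V) (hM : ModIn G Set.univ M) (h2 : 2 ≤ M.card)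
    (hns : ¬ Split G M) (hn : 5 * M.card ≤ Fintype.card V)
    (h5 : ∀ Q : Finset V, ModIn G Set.univ Q → 2 ≤ Q.card → ¬ Split G Q → 5 ≤ Q.card) :
    Reconstructible G ∧ Reconstructible Gᶜ := by
  classical
  obtain ⟨M0, hM0, hmin⟩ := exists_min_image
    (univ.filter (fun Q : Finset V => ModIn G Set.univ Q ∧ 2 ≤ Q.card ∧ ¬ Split G Q)) card
    ⟨M, by rw [mem_filter]; exact ⟨mem_univ _, hM, h2, hns⟩⟩
  rw [mem_filter] at hM0
  obtain ⟨_, hMod, hc2, hns0⟩ := hM0
  have hmin' : ∀ Q : Finset V, ModIn G Set.univ Q → 2 ≤ Q.card → ¬ Split G Q →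
      M0.card ≤ Q.card := by
    intro Q hQ hQ2 hQ3
    exact hmin Q (by rw [mem_filter]; exact ⟨mem_univ _, hQ, hQ2, hQ3⟩)
  have hle : M0.card ≤ M.card := hmin' M hM h2 hns
  have hc5 := h5 M0 hMod hc2 hns0
  obtain ⟨v, hv, hvs⟩ := exists_del hns0 hc5
  have hec : (M0.erase v).card = M0.card - 1 := card_erase_of_mem hv
  refine part_A G hMod hv (by omega) hns0 hvs (by omega) (fun Q hQ hs => ?_)
  have h1 := hs.card
  have h3 := hmin' Q hQ (by omega) (fun h => hvs (hs.symm.split h))
  omega

end Pool.Agent.X76.MD
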