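import Mathlib

/-!
A verified backtracking check that a finite graph has no proper `k`-colouring.
-/

set_option autoImplicit false

namespace Pool.Agent.X76

/-- no conflict between colour `c` for the vertex `i` and the colours of the vertices `j-1,...,0`
listed in the list -/
def okCol (adj : ℕ → ℕ → Bool) (i c : ℕ) : ℕ → List ℕ → Bool
  | _, [] => true
  | 0, _ :: _ => true
  | j + 1, d :: ds => !(adj i j && d == c) && okCol adj i c j ds

/-- `true` certifies that the partial colouring `cs` of the vertices `0..i-1` (in reverse order) does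
not extend to the next `rem` vertices -/
def noCol (adj : ℕ → ℕ → Bool) (k : ℕ) : ℕ → ℕ → List ℕ → Bool
  | 0, _, _ => false
  | rem + 1, i, cs =>
    (List.range k).all (fun c => !(okCol adj i c i cs) || noCol adj k rem (i + 1) (c :: cs))

/-- list of the colours of `j-1, ..., 0` -/
def pre (f : ℕ → ℕ) : ℕ → List ℕ
  | 0 => []
  | j + 1 => f j :: pre f j

lemma okCol_pre (adj : ℕ → ℕ → Bool) (f : ℕ → ℕ) (i : ℕ) (j : ℕ)
    (h : ∀ t < j, adj i t = true → f i ≠ f t) : okCol adj i (f i) j (pre f j) = true := by
  induction j with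
  | zero => rfl
  | succ j ih =>
    rw [pre, okCol, Bool.and_eq_true]
    refine ⟨?_, ih (fun t ht => h t (by omega))⟩
    by_cases ha : adj i j = true
    · have := h j (by omega) ha
      have h2 : (f j == f i) = false := by
        rw [beq_eq_false_iff_ne]
        exact fun h3 => this h3.symm
      rw [h2]; simp
    · simp only [Bool.not_eq_true] at ha
      rw [ha]; simp

lemma noCol_spec (adj : ℕ → ℕ → Bool) (k n : ℕ) (f : ℕ → ℕ) (hk : ∀ i < n, f i < k)
    (h : ∀ i < n, ∀ t < i, adj i t = true → f i ≠ f t) :
    ∀ rem i, i + rem = n → noCol adj k rem i (pre f i) = false := by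
  intro rem
  induction rem with
  | zero => intro i _; rfl
  | succ rem ih =>
    intro i hi
    rw [noCol, List.all_eq_false]
    refine ⟨f i, ?_, ?_⟩
    · rw [List.mem_range]
      exact hk i (by omega)
    · have h1 := okCol_pre adj f i i (h i (by omega))
      have h2 := ih (i + 1) (by omega)
      rw [pre] at h2
      rw [h1, h2]
      simp

/-- the certificate theorem -/
theorem not_colorable_of_noCol {n : ℕ} (G : SimpleGraph (Fin n)) (adj : ℕ → ℕ → Bool)
    (hadj : ∀ i j : Fin n, adj i j = true → G.Adj i j) (k : ℕ)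
    (h : noCol adj k n 0 [] = true) : ¬ G.Colorable k := by
  rintro ⟨c⟩
  rcases Nat.eq_zero_or_pos n with rfl | hn
  · simp [noCol] at h
  let f : ℕ → ℕ := fun i => if hi : i < n then (c ⟨i, hi⟩ : ℕ) else 0
  have hf : ∀ i (hi : i < n), f i = (c ⟨i, hi⟩ : ℕ) := fun i hi => by simp [f, hi]
  have := noCol_spec adj k n f (fun i hi => by rw [hf i hi]; exact (c ⟨i, hi⟩).2)
    (fun i hi t ht hit heq => by
      rw [hf i hi, hf t (by omega)] at heq
      exact c.valid (hadj ⟨i, hi⟩ ⟨t, by omega⟩ hit) (Fin.ext heq)) n 0 (by omega)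
  rw [pre] at this
  rw [this] at h
  exact absurd h (by decide)

end Pool.Agent.X76
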