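import Mathlib

/-!
Shortest odd closed walks of a graph, as functions on `ℕ`.
-/

set_option autoImplicit false

namespace Pool.Agent.X76

universe u

/-- a closed walk of length `l` given by its sequence of vertices -/
def Loop {V : Type u} (G : SimpleGraph V) (l : ℕ) (f : ℕ → V) : Prop :=
  f l = f 0 ∧ ∀ i < l, G.Adj (f i) (f (i + 1))

lemma loop_of_not_colorable {V : Type u} (G : SimpleGraph V) (h : ¬ G.Colorable 2) :
    ∃ l f, Odd l ∧ Loop G l f := by
  rw [SimpleGraph.two_colorable_iff_forall_loop_even] at h
  push Not at h
  obtain ⟨u, w, hw⟩ := h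
  refine ⟨w.length, w.getVert, by simpa using hw, ?_, ?_⟩
  · simp
  · intro i hi
    exact w.adj_getVert_succ hi

lemma not_colorable_of_loop {V : Type u} (G : SimpleGraph V) (l : ℕ) (f : ℕ → V) (hl : Odd l)
    (h : Loop G l f) : ¬ G.Colorable 2 := by
  rintro ⟨c⟩
  have key : ∀ i ≤ l, (c (f i) = c (f 0) ↔ Even i) := by
    intro i
    induction i with
    | zero => simp
    | succ i ih =>
      intro hi
      have h1 := ih (by omega)
      have h2 := c.valid (h.2 i (by omega))
      rw [Nat.even_add_one, ← h1]
      constructor
      · intro h3 h4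
        exact h2 (h4.trans h3.symm)
      · intro h3
        generalize c (f i) = a at *
        generalize c (f (i+1)) = b at *
        generalize c (f 0) = d at *
        revert h2 h3
        clear h1 ih
        revert a b d
        decide
  have := (key l le_rfl).1 (by rw [h.1])
  exact (Nat.not_even_iff_odd.2 hl) this

/-- `l`, `f` is a shortest odd closed walk -/
structure MinLoop {V : Type u} (G : SimpleGraph V) (l : ℕ) (f : ℕ → V) : Prop where
  odd : Odd l
  loop : Loop G l f
  min : ∀ l' f', Odd l' → Loop G l' f' → l ≤ l'

lemma exists_minLoop {V : Type u} (G : SimpleGraph V) (h : ¬ G.Colorable 2) :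
    ∃ l f, MinLoop G l f := by
  classical
  have hex : ∃ l, Odd l ∧ ∃ f, Loop G l f := by
    obtain ⟨l, f, h1, h2⟩ := loop_of_not_colorable G h
    exact ⟨l, h1, f, h2⟩
  obtain ⟨hl, f, hf⟩ := Nat.find_spec hex
  exact ⟨Nat.find hex, f, hl, hf, fun l' f' h1 h2 => Nat.find_min' hex ⟨h1, f', h2⟩⟩

lemma MinLoop.chord {V : Type u} {G : SimpleGraph V} {l : ℕ} {f : ℕ → V} (h : MinLoop G l f)
    {i j : ℕ} (hij : i < j) (hj : j < l) (hadj : G.Adj (f i) (f j)) :
    j = i + 1 ∨ (i = 0 ∧ j + 1 = l) := by
  obtain ⟨hl, h, hmin⟩ := h
  rcases Nat.even_or_odd (j - i) with he | ho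
  · have := hmin (j - i + 1) (fun t => if t ≤ j - i then f (i + t) else f i) he.add_one ⟨by simp, ?_⟩
    · right; omega
    · intro t ht
      have ht' : t ≤ j - i := by omega
      simp only [ht', if_true]
      by_cases h1 : t + 1 ≤ j - i
      · simp only [h1, if_true]
        exact h.2 (i + t) (by omega)
      · simp only [h1, if_false]
        have : i + t = j := by omega
        rw [this]; exact hadj.symm
  · have := hmin (i + 1 + (l - j)) (fun t => if t ≤ i then f t else f (t + j - i - 1)) ?_ ⟨?_, ?_⟩
    · left; omega
    · rcases hl with ⟨a, ha⟩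
      rcases ho with ⟨b, hb⟩
      exact ⟨a - b, by omega⟩
    · have h1 : ¬ (i + 1 + (l - j) ≤ i) := by omega
      simp only [h1, if_false, Nat.zero_le, if_true]
      have : i + 1 + (l - j) + j - i - 1 = l := by omega
      rw [this, h.1]
    · intro t ht
      by_cases h1 : t + 1 ≤ i
      · have h2 : t ≤ i := by omega
        simp only [h1, h2, if_true]
        exact h.2 t (by omega)
      · by_cases h2 : t ≤ i
        · have h3 : t = i := by omega
          subst h3
          simp only [h1, if_false, le_refl, if_true]
          have : t + 1 + j - t - 1 = j := by omega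
          rw [this]; exact hadj
        · simp only [h1, h2, if_false]
          have : t + 1 + j - i - 1 = (t + j - i - 1) + 1 := by omega
          rw [this]
          exact h.2 _ (by omega)

lemma MinLoop.inj {V : Type u} {G : SimpleGraph V} {l : ℕ} {f : ℕ → V} (h : MinLoop G l f)
    {i j : ℕ} (hij : i < j) (hj : j < l) : f i ≠ f j := by
  intro he
  obtain ⟨hl, h, hmin⟩ := h
  rcases Nat.even_or_odd (j - i) with hev | ho
  · have := hmin (l - (j - i)) (fun t => if t ≤ i then f t else f (t + (j - i))) ?_ ⟨?_, ?_⟩
    · omega
    · rcases hl with ⟨a, ha⟩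
      rcases hev with ⟨b, hb⟩
      exact ⟨a - b, by omega⟩
    · have h1 : ¬ (l - (j - i) ≤ i) := by omega
      simp only [h1, if_false, Nat.zero_le, if_true]
      have : l - (j - i) + (j - i) = l := by omega
      rw [this, h.1]
    · intro t ht
      by_cases h1 : t + 1 ≤ i
      · have h2 : t ≤ i := by omega
        simp only [h1, h2, if_true]
        exact h.2 t (by omega)
      · by_cases h2 : t ≤ i
        · have h3 : t = i := by omega
          subst h3
          simp only [h1, if_false, le_refl, if_true]
          have : t + 1 + (j - t) = j + 1 := by omega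
          rw [this, he]
          exact h.2 _ hj
        · simp only [h1, h2, if_false]
          have : t + 1 + (j - i) = (t + (j - i)) + 1 := by omega
          rw [this]
          exact h.2 _ (by omega)
  · have := hmin (j - i) (fun t => f (i + t)) ho ⟨?_, ?_⟩
    · omega
    · have : i + (j - i) = j := by omega
      simp only [this, Nat.add_zero]
      exact he.symm
    · intro t ht
      exact h.2 (i + t) (by omega)

/-- a triangle-free graph without induced path on four vertices is 2-colourable -/
lemma two_colorable_of {V : Type u} (G : SimpleGraph V)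
    (h3 : ∀ a b c, G.Adj a b → G.Adj b c → ¬ G.Adj a c)
    (h4 : ∀ a b c d, G.Adj a b → G.Adj b c → G.Adj c d → ¬ G.Adj a c → ¬ G.Adj b d →
      ¬ G.Adj a d → a ≠ c → b ≠ d → a ≠ d → False) : G.Colorable 2 := by
  by_contra hcon
  obtain ⟨l, f, h⟩ := exists_minLoop G hcon
  have hl := h.odd
  have h01 := h.loop.2 0
  have h12 := h.loop.2 1
  have h23 := h.loop.2 2
  rcases Nat.lt_or_ge l 2 with hl2 | hl2
  · have : l = 1 := by
      rcases hl with ⟨a, ha⟩; omega
    subst this
    have h1 := h.loop.1
    have h2 := h01 (by omega)
    rw [h1] at h2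
    exact G.loopless.irrefl _ h2
  rcases Nat.lt_or_ge l 4 with hl4 | hl4
  · have : l = 3 := by
      rcases hl with ⟨a, ha⟩; omega
    subst this
    have h1 := h.loop.1
    have h2 := h23 (by omega)
    rw [show 2 + 1 = 3 from rfl, h1] at h2
    exact h3 _ _ _ (h01 (by omega)) (h12 (by omega)) h2.symm
  · have hl5 : 5 ≤ l := by
      rcases hl with ⟨a, ha⟩; omega
    refine h4 (f 0) (f 1) (f 2) (f 3) (h01 (by omega)) (h12 (by omega)) (h23 (by omega)) ?_ ?_ ?_
      (h.inj (by omega) (by omega)) (h.inj (by omega) (by omega)) (h.inj (by omega) (by omega))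
    · intro hc
      rcases h.chord (by omega) (by omega) hc with h' | h' <;> omega
    · intro hc
      rcases h.chord (by omega) (by omega) hc with h' | h' <;> omega
    · intro hc
      rcases h.chord (by omega) (by omega) hc with h' | h' <;> omega

end Pool.Agent.X76
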