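import Pool.Agent.X76.Det18

set_option autoImplicit false

/-!
Detachments of edge-coloured multigraphs into perfect matchings.
-/

namespace Pool.Agent.X76.PM

open Finset Pool.Agent.H160R2.HF Pool.Agent.X76.Det

/-- selection of one edge of every group at a vertex -/
theorem pick {C K X : Type} [Fintype C] [Fintype K] [Fintype X] [DecidableEq C] [DecidableEq K]
    [DecidableEq X] (κ : C → K) (M cap : C → X → ℕ) (p : ℕ) (hp : 0 < p) (b : X → ℕ)
    (h0 : ∀ c y, M c y ≤ p * cap c y)
    (h1 : ∀ k, ∑ c, (if κ c = k then ∑ y, M c y else 0) = p)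
    (h2 : ∀ y, ∑ c, M c y = p * b y) :
    ∃ T : C → X → ℕ, (∀ c y, T c y ≤ cap c y) ∧
      (∀ k, ∑ c, (if κ c = k then ∑ y, T c y else 0) = 1) ∧ ∀ y, ∑ c, T c y = b y := by
  let t : C × X → K ⊕ X := fun e => Sum.inl (κ e.1)
  let h : C × X → K ⊕ X := fun e => Sum.inr e.2
  let lo : C × X → ℤ := fun _ => 0
  let up : C × X → ℤ := fun e => (cap e.1 e.2 : ℤ)
  let G : C × X → ℤ := fun e => (M e.1 e.2 : ℤ)
  let d : K ⊕ X → ℤ := fun v => match v with
    | Sum.inl _ => 1
    | Sum.inr y => - (b y : ℤ)
  have hn1 : ∀ (g : C × X → ℤ) (k : K),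
      net t h g (Sum.inl k) = ∑ c, (if κ c = k then ∑ y, g (c, y) else 0) := by
    intro g k
    rw [net_eq, Fintype.sum_prod_type, Fintype.sum_prod_type]
    simp only [t, h, Sum.inl.injEq, reduceCtorEq, if_false, Finset.sum_const_zero, sub_zero]
    apply Finset.sum_congr rfl
    intro c _
    split_ifs
    · rfl
    · simp
  have hn3 : ∀ (g : C × X → ℤ) (y : X), net t h g (Sum.inr y) = - ∑ c, g (c, y) := by
    intro g y
    rw [net_eq, Fintype.sum_prod_type, Fintype.sum_prod_type]
    simp only [t, h, Sum.inr.injEq, reduceCtorEq, if_false, Finset.sum_const_zero, zero_sub]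
    simp
  obtain ⟨g, hg1, hg2⟩ := scaled t h lo up d (p : ℤ) (by exact_mod_cast hp) G
    (by
      rintro ⟨c, y⟩
      simp only [lo, up, G, mul_zero]
      refine ⟨by positivity, ?_⟩
      exact_mod_cast h0 c y)
    (by
      rintro (k | y)
      · rw [hn1]
        simp only [G, d, mul_one]
        have h4 : ((∑ c, (if κ c = k then ∑ y, M c y else 0) : ℕ) : ℤ) = (p : ℤ) := by rw [h1]
        rw [← h4]
        push_cast
        apply Finset.sum_congr rfl
        intro c _
        split_ifs <;> simp
      · rw [hn3]
        simp only [G, d]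
        have h4 : ((∑ c, M c y : ℕ) : ℤ) = ((p * b y : ℕ) : ℤ) := by rw [h2]
        push_cast at h4
        rw [h4]
        ring)
  have hT : ∀ c y, ((g (c, y)).toNat : ℤ) = g (c, y) := by
    intro c y
    apply Int.toNat_of_nonneg
    exact (hg1 (c, y)).1
  refine ⟨fun c y => (g (c, y)).toNat, ?_, ?_, ?_⟩
  · intro c y
    have h4 := (hg1 (c, y)).2
    rw [← hT] at h4
    simp only [up] at h4
    exact_mod_cast h4
  · intro k
    have h4 := hg2 (Sum.inl k)
    rw [hn1] at h4
    simp only [d] at h4
    have h6 : ((∑ c, (if κ c = k then ∑ y, (g (c, y)).toNat else 0) : ℕ) : ℤ) = 1 := by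
      rw [← h4]
      push_cast
      apply Finset.sum_congr rfl
      intro c _
      split_ifs
      · push_cast
        apply Finset.sum_congr rfl
        intro y _
        exact_mod_cast hT c y
      · rfl
    exact_mod_cast h6
  · intro y
    have h4 := hg2 (Sum.inr y)
    rw [hn3] at h4
    simp only [d] at h4
    have h6 : ((∑ c, (g (c, y)).toNat : ℕ) : ℤ) = b y := by
      push_cast
      have h7 : ∑ c, g (c, y) = (b y : ℤ) := by linarith
      rw [← h7]
      apply Finset.sum_congr rfl
      intro c _
      exact_mod_cast hT c y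
    exact_mod_cast h6

/-- an edge-coloured multigraph with vertex weights `g`, whose groups of colours have degrees `g`,
with `g x * g y * a x y` edges between `x` and `y`, and with `g x * (g x - 1) * a x x / 2` loops at
`x`; a loop contributes `2` to `m c x x` -/
structure St1 {C K X : Type} [Fintype C] [Fintype X] [DecidableEq K] (κ : C → K) (g : X → ℕ)
    (a : X → X → ℕ) (m : C → X → X → ℕ) : Prop where
  pos : ∀ x, 1 ≤ g x
  symm : ∀ c x y, m c x y = m c y x
  diag : ∀ c x, Even (m c x x)
  mult : ∀ x y, x ≠ y → ∑ c, m c x y = g x * g y * a x y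
  loop : ∀ x, ∑ c, m c x x = g x * ((g x - 1) * a x x)
  deg : ∀ k x, ∑ c, (if κ c = k then ∑ y, m c x y else 0) = g x

theorem step1 {C K X : Type} [Fintype C] [Fintype K] [Fintype X] [DecidableEq K] [DecidableEq X]
    (κ : C → K) (g : X → ℕ) (a : X → X → ℕ) (ha : ∀ x y, a x y = a y x)
    (m : C → X → X → ℕ) (h : St1 κ g a m) (v : X) (hv : 2 ≤ g v) :
    ∃ m' : C → Option X → Option X → ℕ,
      St1 κ (gs g v) (fun x y => a (x.getD v) (y.getD v)) m' ∧
      ∀ c x, ∑ o, (if o.getD v = x then ∑ o', m' c o o' else 0) = ∑ y, m c x y := by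
  classical
  obtain ⟨T, hT1, hT2, hT3⟩ := pick κ (fun c y => m c v y)
    (fun c y => if y = v then m c v v / 2 else m c v y) (g v) (by omega)
    (fun y => if y = v then (g v - 1) * a v v else g y * a v y)
    (by
      intro c y
      split_ifs with hy
      · rw [hy]
        obtain ⟨j, hj⟩ := h.diag c v
        rw [hj, show (j + j) / 2 = j by omega]
        nlinarith
      · nlinarith)
    (by intro k; exact h.deg k v)
    (by
      intro y
      split_ifs with hy
      · rw [hy]; exact h.loop v
      · rw [h.mult v y (Ne.symm hy)]; ring)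
  have hTv : ∀ c, 2 * T c v ≤ m c v v := by
    intro c
    have := hT1 c v
    rw [if_pos rfl] at this
    omega
  have hTy : ∀ c y, y ≠ v → T c y ≤ m c v y := by
    intro c y hy
    have := hT1 c y
    rw [if_neg hy] at this
    exact this
  have hTle : ∀ c y, T c y ≤ m c v y := by
    intro c y
    by_cases hy : y = v
    · rw [hy]; have := hTv c; omega
    · exact hTy c y hy
  -- degrees
  have hdv : ∀ c, ∑ o, ms (m c) (T c) v (some v) o + ∑ y, T c y = ∑ y, m c v y := by
    intro c
    rw [Fintype.sum_option]
    simp only [ms, if_true]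
    rw [← Finset.add_sum_erase _ _ (mem_univ v),
      ← Finset.add_sum_erase _ (fun y => T c y) (mem_univ v),
      ← Finset.add_sum_erase _ (fun y => m c v y) (mem_univ v)]
    simp only [if_true]
    have h3 : ∑ y ∈ univ.erase v, (if y = v then m c v v - 2 * T c v else m c v y - T c y) =
        ∑ y ∈ univ.erase v, (m c v y - T c y) := by
      apply Finset.sum_congr rfl
      intro y hy
      rw [if_neg (Finset.ne_of_mem_erase hy)]
    rw [h3, Finset.sum_tsub_distrib _ (fun y _ => hTle c y)]
    have h4 : ∑ y ∈ univ.erase v, T c y ≤ ∑ y ∈ univ.erase v, m c v y :=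
      Finset.sum_le_sum fun y _ => hTle c y
    have h5 := hTv c
    omega
  have hdx : ∀ c x, x ≠ v → ∑ o, ms (m c) (T c) v (some x) o = ∑ y, m c x y := by
    intro c x hx
    rw [Fintype.sum_option]
    simp only [ms, if_neg hx]
    rw [← Finset.add_sum_erase _ _ (mem_univ v), ← Finset.add_sum_erase _ (m c x) (mem_univ v)]
    simp only [if_true]
    have h2 : ∑ y ∈ univ.erase v, (if y = v then m c v x - T c x else m c x y) =
        ∑ y ∈ univ.erase v, m c x y := by
      apply Finset.sum_congr rfl
      intro y hy
      rw [if_neg (Finset.ne_of_mem_erase hy)]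
    rw [h2]
    have h3 := hTle c x
    rw [h.symm c v x] at h3 ⊢
    omega
  have hdn : ∀ c, ∑ o, ms (m c) (T c) v none o = ∑ y, T c y := by
    intro c
    rw [Fintype.sum_option]
    simp only [ms, zero_add]
  refine ⟨fun c => ms (m c) (T c) v, ⟨?_, ?_, ?_, ?_, ?_, ?_⟩, ?_⟩
  · rintro (_ | x)
    · exact le_rfl
    · simp only [gs]
      split_ifs
      · omega
      · exact h.pos x
  · rintro c (_ | x) (_ | y)
    · rfl
    · rfl
    · rfl
    · simp only [ms]
      by_cases hx : x = v
      · by_cases hy : y = v
        · rw [hx, hy]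
        · rw [if_pos hx, if_neg hy, if_neg hy, if_pos hx]
      · by_cases hy : y = v
        · rw [if_neg hx, if_pos hy, if_pos hy, if_neg hx]
        · rw [if_neg hx, if_neg hy, if_neg hy, if_neg hx, h.symm]
  · rintro c (_ | x)
    · simp [ms]
    · simp only [ms]
      by_cases hx : x = v
      · rw [if_pos hx, if_pos hx]
        rw [Nat.even_sub (hTv c)]
        exact ⟨fun _ => even_two_mul _, fun _ => h.diag c v⟩
      · rw [if_neg hx, if_neg hx]; exact h.diag c x
  · rintro (_ | x) (_ | y) hxy
    · exact absurd rfl hxy
    · simp only [ms, gs, Option.getD_none, Option.getD_some]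
      rw [hT3]
      by_cases hy : y = v
      · rw [if_pos hy, if_pos hy, hy]; ring
      · rw [if_neg hy, if_neg hy]; ring
    · simp only [ms, gs, Option.getD_none, Option.getD_some]
      rw [hT3]
      by_cases hx : x = v
      · rw [if_pos hx, if_pos hx, hx]; ring
      · rw [if_neg hx, if_neg hx, ha x v]; ring
    · have hxy' : x ≠ y := fun e => hxy (by rw [e])
      simp only [ms, gs, Option.getD_some]
      by_cases hx : x = v
      · subst hx
        simp only [if_true, if_neg hxy'.symm]
        rw [Finset.sum_tsub_distrib _ (fun c _ => hTle c y), h.mult x y hxy', hT3,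
          if_neg hxy'.symm]
        obtain ⟨e, he⟩ : ∃ e, g x = e + 1 := ⟨g x - 1, by omega⟩
        rw [he, Nat.add_sub_cancel]
        have h1 : (e + 1) * g y * a x y = e * g y * a x y + g y * a x y := by ring
        rw [h1, Nat.add_sub_cancel]
      · simp only [if_neg hx]
        by_cases hy : y = v
        · subst hy
          simp only [if_true]
          rw [Finset.sum_tsub_distrib _ (fun c _ => hTle c x), hT3, if_neg hx,
            h.mult y x hxy'.symm]
          obtain ⟨e, he⟩ : ∃ e, g y = e + 1 := ⟨g y - 1, by omega⟩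
          rw [he, Nat.add_sub_cancel, ha y x]
          have h7 : (e + 1) * g x * a x y = g x * e * a x y + g x * a x y := by ring
          rw [h7, Nat.add_sub_cancel]
        · simp only [if_neg hy]
          exact h.mult x y hxy'
  · rintro (_ | x)
    · simp [ms, gs]
    · simp only [ms, gs, Option.getD_some]
      by_cases hx : x = v
      · subst hx
        simp only [if_true]
        rw [Finset.sum_tsub_distrib _ (fun c _ => hTv c), h.loop x, ← Finset.mul_sum, hT3,
          if_pos rfl]
        obtain ⟨e, he⟩ : ∃ e, g x = e + 2 := ⟨g x - 2, by omega⟩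
        rw [he, show e + 2 - 1 = e + 1 by omega, Nat.add_sub_cancel]
        have h1 : (e + 2) * ((e + 1) * a x x) =
            (e + 1) * (e * a x x) + 2 * ((e + 1) * a x x) := by ring
        rw [h1, Nat.add_sub_cancel]
      · simp only [if_neg hx]
        exact h.loop x
  · rintro k (_ | x)
    · simp only [hdn, gs]
      exact hT2 k
    · simp only [gs]
      by_cases hx : x = v
      · rw [if_pos hx, hx]
        have h1 : ∑ c, (if κ c = k then ∑ o, ms (m c) (T c) v (some v) o else 0) +
            ∑ c, (if κ c = k then ∑ y, T c y else 0) = g v := by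
          rw [← h.deg k v, ← Finset.sum_add_distrib]
          apply Finset.sum_congr rfl
          intro c _
          split_ifs
          · exact hdv c
          · rfl
        rw [hT2 k] at h1
        omega
      · rw [if_neg hx, ← h.deg k x]
        apply Finset.sum_congr rfl
        intro c _
        split_ifs
        · exact hdx c x hx
        · rfl
  · intro c x
    rw [Fintype.sum_option]
    simp only [Option.getD_none, Option.getD_some, hdn]
    rw [Finset.sum_ite_eq' univ x, if_pos (mem_univ x)]
    by_cases hx : x = v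
    · rw [if_pos hx.symm, hx, ← hdv c]
      ring
    · rw [if_neg (Ne.symm hx), zero_add, hdx c x hx]

theorem detach1 {C K : Type} [Fintype C] [Fintype K] [DecidableEq K] (κ : C → K) (n : ℕ) :
    ∀ (X : Type) [Fintype X] [DecidableEq X] (g : X → ℕ) (a : X → X → ℕ) (m : C → X → X → ℕ),
      (∀ x y, a x y = a y x) → St1 κ g a m → ∑ x, (g x - 1) = n →
      ∃ (Y : Type) (_ : Fintype Y) (π : Y → X) (M : C → Y → Y → ℕ),
        (∀ x, {y | π y = x}.ncard = g x) ∧
        St1 κ (fun _ => 1) (fun y z => a (π y) (π z)) M ∧
        ∀ c x, ∑ y, (if π y = x then ∑ z, M c y z else 0) = ∑ y, m c x y := by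
  classical
  induction n with
  | zero =>
    intro X _ _ g a m ha h hn
    have hg : g = fun _ => 1 := by
      funext x
      have h1 := (Finset.sum_eq_zero_iff.1 hn) x (mem_univ x)
      have h2 := h.pos x
      omega
    subst hg
    refine ⟨X, inferInstance, id, m, ?_, h, ?_⟩
    · intro x
      have h1 : {y : X | id y = x} = {x} := by ext; simp
      rw [h1, Set.ncard_singleton]
    · intro c x
      simp only [id]
      rw [Finset.sum_ite_eq' univ x, if_pos (mem_univ x)]
  | succ n ih =>
    intro X _ _ g a m ha h hn
    obtain ⟨v, hv⟩ : ∃ v, 2 ≤ g v := by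
      by_contra hno
      push Not at hno
      have h1 : ∑ x, (g x - 1) = 0 := Finset.sum_eq_zero fun x _ => by
        have := hno x; omega
      omega
    obtain ⟨m', hm', hm1⟩ := step1 κ g a ha m h v hv
    have hsum : ∑ o, (gs g v o - 1) = n := by
      rw [Fintype.sum_option]
      simp only [gs]
      rw [← Finset.add_sum_erase _ _ (mem_univ v)] at hn ⊢
      simp only [if_true]
      have h2 : ∑ x ∈ univ.erase v, ((if x = v then g v - 1 else g x) - 1) =
          ∑ x ∈ univ.erase v, (g x - 1) := by
        apply Finset.sum_congr rfl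
        intro x hx
        rw [if_neg (Finset.ne_of_mem_erase hx)]
      rw [h2]
      omega
    obtain ⟨Y, hY, π, M, h1, h2, h3⟩ := ih (Option X) (gs g v) _ m' (fun x y => ha _ _) hm' hsum
    refine ⟨Y, hY, fun y => (π y).getD v, M, ?_, h2, ?_⟩
    · intro x
      by_cases hx : x = v
      · subst hx
        have h3 : {y | (π y).getD x = x} = {y | π y = none} ∪ {y | π y = some x} := by
          ext y
          simp only [Set.mem_ofPred_eq, Set.mem_union]
          rcases hπ : π y with _ | z
          · simp
          · simp
        rw [h3, Set.ncard_union_eq _ (Set.toFinite _) (Set.toFinite _), h1, h1]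
        · simp only [gs, if_true]
          omega
        · rw [Set.disjoint_left]
          intro y hy hy'
          simp only [Set.mem_ofPred_eq] at hy hy'
          rw [hy] at hy'
          simp at hy'
      · have h3 : {y | (π y).getD v = x} = {y | π y = some x} := by
          ext y
          simp only [Set.mem_ofPred_eq]
          rcases hπ : π y with _ | z
          · simp [Ne.symm hx]
          · simp
        rw [h3, h1]
        simp only [gs, if_neg hx]
    · intro c x
      rw [← hm1 c x, sum_fib π (fun y => ∑ z, M c y z) (fun o => o.getD v = x)]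
      apply Finset.sum_congr rfl
      intro o _
      rw [h3 c o]

end Pool.Agent.X76.PM
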