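import Pool.Agent.MPd14d18.Star

set_option autoImplicit false

/-!
Vizing's theorem for multigraphs (the vertex-by-vertex proof of Ehrenfeucht, Faber and Kierstead),
in terms of involutions.
-/

namespace Pool.Agent.X76.PM

open Finset Pool.Agent.MPd14d18

section core

variable {W : Type*} [Fintype W] [DecidableEq W]

theorem exists_unique_colour' (L : Finset ℕ) (m : ℕ → W → W) (hm : ∀ c v, m c (m c v) = v)
    (k : W → ℕ) (u0 : W) (hu0 : 0 < k u0) (hcard : ∑ u, k u ≤ L.card)
    (hmiss : ∀ u, 2 * k u - (if u = u0 then 1 else 0) ≤
      (L.filter (fun c => m c u = u)).card) :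
    ∃ (m' : ℕ → W → W) (A : W → Finset ℕ), (∀ c v, m' c (m' c v) = v) ∧
      (∀ c, c ∉ L → m' c = m c) ∧ (∀ u w, mu L m' u w = mu L m u w) ∧
      (∀ u, A u ⊆ L.filter (fun c => m' c u = u)) ∧
      (∀ u, (A u).card = 2 * k u - if u = u0 then 1 else 0) ∧
      ∃ i ∈ L, (univ.filter (fun u => i ∈ A u)).card = 1 := by
  classical
  let Valid : (ℕ → W → W) → (W → Finset ℕ) → Prop := fun m' A =>
    (∀ c v, m' c (m' c v) = v) ∧
      (∀ c, c ∉ L → m' c = m c) ∧ (∀ u w, mu L m' u w = mu L m u w) ∧
      (∀ u, A u ⊆ L.filter (fun c => m' c u = u)) ∧
      (∀ u, (A u).card = 2 * k u - if u = u0 then 1 else 0)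
  let x : (W → Finset ℕ) → ℕ → ℕ := fun A i => (univ.filter (fun u => i ∈ A u)).card
  let Φ : (W → Finset ℕ) → ℕ := fun A => ∑ i ∈ L, (x A i) ^ 2
  have hex : ∃ n, ∃ m' A, Valid m' A ∧ Φ A = n := by
    have : ∀ u : W, ∃ B : Finset ℕ, B ⊆ L.filter (fun c => m c u = u) ∧
        B.card = 2 * k u - if u = u0 then 1 else 0 := by
      intro u
      obtain ⟨B, hB1, hB2⟩ := Finset.exists_subset_card_eq (hmiss u)
      exact ⟨B, hB1, hB2⟩
    choose A hA using this
    exact ⟨Φ A, m, A, ⟨hm, fun _ _ => rfl, fun _ _ => rfl, fun u => (hA u).1,
      fun u => (hA u).2⟩, rfl⟩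
  obtain ⟨m', A, hV, hΦ⟩ := Nat.find_spec hex
  have hmin : ∀ m'' A'', Valid m'' A'' → Φ A ≤ Φ A'' := by
    intro m'' A'' h
    rw [hΦ]
    exact Nat.find_min' hex ⟨m'', A'', h, rfl⟩
  obtain ⟨hinv, hout, hmul, hAs, hAc⟩ := hV
  refine ⟨m', A, hinv, hout, hmul, hAs, hAc, ?_⟩
  have claim1 : ∀ i ∈ L, ∀ j ∈ L, x A i ≤ x A j + 2 := by
    intro i hi j hj
    by_contra hcon
    rw [not_le] at hcon
    have hij : i ≠ j := by
      rintro rfl; omega
    let X : Finset W := univ.filter (fun u => i ∈ A u)
    let Y : Finset W := univ.filter (fun u => j ∈ A u)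
    have hXc : X.card = x A i := rfl
    have hYc : Y.card = x A j := rfl
    have hXfix : ∀ w ∈ X, m' i w = w := by
      intro w hw
      rw [mem_filter] at hw
      have := hAs w hw.2
      rw [mem_filter] at this
      exact this.2
    obtain ⟨S, hSi, hSj, hlt, hle⟩ := closed_exists (m' i) (m' j) (hinv i) (hinv j) X Y hXfix
      _ univ rfl (fun w _ => mem_univ _) (fun w _ => mem_univ _)
      (by rw [Finset.univ_inter, Finset.univ_inter]; omega)
    let m'' : ℕ → W → W := fun c v => if v ∈ S then m' (Equiv.swap i j c) v else m' c v
    obtain ⟨k1, k2, k3⟩ := Pool.Agent.MPd14d18.kempe L m' hinv i j hi hj S hSi hSj m''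
      (fun _ _ => rfl)
    let A'' : W → Finset ℕ := fun u =>
      if u ∈ S then (A u).map (Equiv.swap i j).toEmbedding else A u
    have hmemA : ∀ u c, c ∈ A'' u ↔ if u ∈ S then Equiv.swap i j c ∈ A u else c ∈ A u := by
      intro u c
      by_cases hu : u ∈ S
      · simp only [A'', hu, if_true]
        rw [Finset.mem_map_equiv, Equiv.symm_swap]
      · simp only [A'', hu, if_false]
    have hV'' : Valid m'' A'' := by
      refine ⟨k1, fun c hc => (k2 c hc).trans (hout c hc), fun u w => (k3 u w).trans (hmul u w),
        ?_, ?_⟩
      · intro u c hc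
        rw [hmemA] at hc
        by_cases huS : u ∈ S
        · rw [if_pos huS] at hc
          have h1 := hAs u hc
          rw [mem_filter] at h1 ⊢
          refine ⟨?_, ?_⟩
          · by_cases hci : c = i
            · rw [hci]; exact hi
            · by_cases hcj : c = j
              · rw [hcj]; exact hj
              · rw [Equiv.swap_apply_of_ne_of_ne hci hcj] at h1; exact h1.1
          · simp only [m'', huS, if_true]
            exact h1.2
        · rw [if_neg huS] at hc
          have h1 := hAs u hc
          rw [mem_filter] at h1 ⊢
          refine ⟨h1.1, ?_⟩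
          simp only [m'', huS, if_false]
          exact h1.2
      · intro u
        by_cases huS : u ∈ S
        · simp only [A'', huS, if_true, Finset.card_map]
          exact hAc u
        · simp only [A'', huS, if_false]
          exact hAc u
    have hxother : ∀ c, c ≠ i → c ≠ j → x A'' c = x A c := by
      intro c hci hcj
      simp only [x]
      congr 1
      apply Finset.filter_congr
      intro u _
      rw [hmemA, Equiv.swap_apply_of_ne_of_ne hci hcj]
      simp
    have hxi : x A'' i = (S ∩ Y).card + (X \ S).card := by
      simp only [x]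
      rw [← Finset.card_union_of_disjoint]
      · congr 1
        ext u
        simp only [mem_filter, mem_univ, true_and, mem_union, mem_inter, mem_sdiff, X, Y, hmemA,
          Equiv.swap_apply_left]
        by_cases huS : u ∈ S
        · simp [huS]
        · simp [huS]
      · rw [Finset.disjoint_left]
        intro u hu hu'
        rw [mem_inter] at hu
        rw [mem_sdiff] at hu'
        exact hu'.2 hu.1
    have hxj : x A'' j = (S ∩ X).card + (Y \ S).card := by
      simp only [x]
      rw [← Finset.card_union_of_disjoint]
      · congr 1
        ext u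
        simp only [mem_filter, mem_univ, true_and, mem_union, mem_inter, mem_sdiff, X, Y, hmemA,
          Equiv.swap_apply_right]
        by_cases huS : u ∈ S
        · simp [huS]
        · simp [huS]
      · rw [Finset.disjoint_left]
        intro u hu hu'
        rw [mem_inter] at hu
        rw [mem_sdiff] at hu'
        exact hu'.2 hu.1
    have hXs : X.card = (S ∩ X).card + (X \ S).card := by
      rw [Finset.inter_comm, Finset.card_inter_add_card_sdiff]
    have hYs : Y.card = (S ∩ Y).card + (Y \ S).card := by
      rw [Finset.inter_comm, Finset.card_inter_add_card_sdiff]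
    have hlt' : Φ A'' < Φ A := by
      simp only [Φ]
      rw [← Finset.add_sum_erase L (fun c => (x A'' c) ^ 2) hi,
        ← Finset.add_sum_erase L (fun c => (x A c) ^ 2) hi,
        ← Finset.add_sum_erase (L.erase i) (fun c => (x A'' c) ^ 2)
          (mem_erase.mpr ⟨hij.symm, hj⟩),
        ← Finset.add_sum_erase (L.erase i) (fun c => (x A c) ^ 2)
          (mem_erase.mpr ⟨hij.symm, hj⟩)]
      have e : ∑ c ∈ (L.erase i).erase j, (x A'' c) ^ 2 =
          ∑ c ∈ (L.erase i).erase j, (x A c) ^ 2 := by
        refine Finset.sum_congr rfl fun c hc => ?_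
        rw [mem_erase, mem_erase] at hc
        rw [hxother c hc.2.1 hc.1]
      rw [e]
      have h1 : (x A'' i) ^ 2 + (x A'' j) ^ 2 < (x A i) ^ 2 + (x A j) ^ 2 := by
        rw [hxi, hxj, ← hXc, ← hYc, hXs, hYs]
        rw [← hXc, ← hYc, hXs, hYs] at hcon
        have h2 : (S ∩ X).card = (S ∩ Y).card + 1 ∨ (S ∩ X).card = (S ∩ Y).card + 2 := by
          omega
        rcases h2 with h2 | h2
        · rw [h2] at hcon ⊢
          nlinarith
        · rw [h2] at hcon ⊢
          nlinarith
      have h1' : x A'' i ^ 2 + (x A'' j ^ 2 + ∑ c ∈ (L.erase i).erase j, (x A c) ^ 2) <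
          x A i ^ 2 + (x A j ^ 2 + ∑ c ∈ (L.erase i).erase j, (x A c) ^ 2) := by omega
      exact h1'
    exact absurd (hmin m'' A'' hV'') (not_le.mpr hlt')
  have hsum1 : ∑ i ∈ L, x A i = ∑ u, (A u).card := by
    simp only [x]
    simp_rw [Finset.card_filter]
    rw [Finset.sum_comm]
    refine Finset.sum_congr rfl fun u hu => ?_
    rw [← Finset.card_filter]
    congr 1
    ext c
    rw [mem_filter]
    constructor
    · intro h; exact h.2
    · intro h
      have := hAs u h
      rw [mem_filter] at this
      exact ⟨this.1, h⟩
  have hsum2 : ∑ u, (A u).card + 1 = 2 * ∑ u, k u := by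
    have e1 : ∑ u, (A u).card = ∑ u, (2 * k u - if u = u0 then 1 else 0) :=
      Finset.sum_congr rfl fun u _ => hAc u
    have e2 : ∑ u : W, (if u = u0 then 1 else 0) = 1 := by
      rw [Finset.sum_ite_eq' univ u0 (fun _ => 1), if_pos (mem_univ _)]
    rw [e1]
    calc ∑ u, (2 * k u - if u = u0 then 1 else 0) + 1
        = ∑ u, (2 * k u - if u = u0 then 1 else 0) + ∑ u : W, (if u = u0 then 1 else 0) := by
          rw [e2]
      _ = ∑ u, 2 * k u := by
          rw [← Finset.sum_add_distrib]
          refine Finset.sum_congr rfl fun u _ => ?_
          by_cases h : u = u0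
          · subst h
            rw [if_pos rfl]
            omega
          · rw [if_neg h]; omega
      _ = 2 * ∑ u, k u := by rw [Finset.mul_sum]
  by_contra hno
  push Not at hno
  have hex0 : ∃ j ∈ L, x A j = 0 := by
    by_contra h0
    push Not at h0
    have h2 : ∀ i ∈ L, 2 ≤ x A i := by
      intro i hi
      have h3 := h0 i hi
      have h4 : x A i ≠ 1 := hno i hi
      omega
    have h5 : ∑ i ∈ L, 2 ≤ ∑ i ∈ L, x A i := Finset.sum_le_sum h2
    rw [Finset.sum_const, smul_eq_mul] at h5
    omega
  obtain ⟨j, hj, hj0⟩ := hex0
  have heven : Even (∑ i ∈ L, x A i) := by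
    apply Finset.even_sum
    intro i hi
    have h1 := claim1 i hi j hj
    have h2 : x A i ≠ 1 := hno i hi
    have h3 : x A i = 0 ∨ x A i = 2 := by omega
    rcases h3 with h3 | h3 <;> rw [h3] <;> decide
  obtain ⟨r, hr⟩ := heven
  omega

theorem add_vertex' (x : W) :
    ∀ (n : ℕ) (L : Finset ℕ), L.card = n → ∀ (m : ℕ → W → W), (∀ c v, m c (m c v) = v) →
    (∀ c ∈ L, m c x = x) → ∀ (k : W → ℕ) (u0 : W), k x = 0 → ∑ u, k u ≤ n →
    (∀ u, 2 * k u - (if u = u0 then 1 else 0) ≤ (L.filter (fun c => m c u = u)).card) →
    ∃ m' : ℕ → W → W, (∀ c v, m' c (m' c v) = v) ∧ (∀ c, c ∉ L → m' c = m c) ∧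
      ∀ u w, u ≠ w → mu L m' u w = mu L m u w + ((if u = x then k w else 0) +
        if w = x then k u else 0) := by
  intro n
  induction n with
  | zero =>
    intro L hL m hm hx k u0 hkx hk hmiss
    have hk0 : ∀ u, k u = 0 := by
      intro u
      have := Finset.single_le_sum (f := k) (fun i _ => Nat.zero_le _) (mem_univ u)
      omega
    exact ⟨m, hm, fun _ _ => rfl, fun u w _ => by simp [hk0]⟩
  | succ n ih =>
    intro L hL m hm hx k u0 hkx hk hmiss
    by_cases hk0 : ∀ u, k u = 0
    · exact ⟨m, hm, fun _ _ => rfl, fun u w _ => by simp [hk0]⟩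
    · push Not at hk0
      obtain ⟨v0, hv0, hmiss0⟩ : ∃ v0, 0 < k v0 ∧ ∀ u, 2 * k u - (if u = v0 then 1 else 0) ≤
          (L.filter (fun c => m c u = u)).card := by
        by_cases h0 : 0 < k u0
        · exact ⟨u0, h0, hmiss⟩
        · obtain ⟨v0, hv0⟩ := hk0
          refine ⟨v0, by omega, fun u => ?_⟩
          have h1 := hmiss u
          by_cases h2 : u = u0
          · subst h2
            have : k u = 0 := by omega
            rw [this]
            omega
          · rw [if_neg h2] at h1
            omega
      obtain ⟨m1, A, h1inv, h1out, h1mu, hAs, hAc, i, hi, hone⟩ :=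
        exists_unique_colour' L m hm k v0 hv0 (by omega) hmiss0
      obtain ⟨u1, hu1⟩ := Finset.card_eq_one.mp hone
      have hu1U : i ∈ A u1 := by
        have : u1 ∈ univ.filter (fun u => i ∈ A u) := by rw [hu1]; exact mem_singleton_self _
        exact (mem_filter.1 this).2
      have hk1 : 0 < k u1 := by
        have h1 := Finset.card_pos.2 ⟨i, hu1U⟩
        rw [hAc] at h1
        omega
      have honly : ∀ u, u ≠ u1 → i ∉ A u := by
        intro u hne hiA
        have : u ∈ univ.filter (fun u => i ∈ A u) := mem_filter.mpr ⟨mem_univ _, hiA⟩
        rw [hu1, mem_singleton] at this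
        exact hne this
      have hm1u1 : m1 i u1 = u1 := by
        have := hAs u1 hu1U
        rw [mem_filter] at this
        exact this.2
      have hm1x : ∀ c ∈ L, m1 c x = x := by
        have e1 : mu L m x x = L.card := by
          rw [mu_eq_card]
          congr 1
          exact Finset.filter_true_of_mem hx
        have e2 : (L.filter (fun c => m1 c x = x)).card = L.card := by
          rw [← mu_eq_card, h1mu, e1]
        intro c hc
        exact Finset.card_filter_eq_iff.mp e2 c hc
      have hxu1 : x ≠ u1 := by
        intro h
        rw [← h, hkx] at hk1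
        exact absurd hk1 (lt_irrefl 0)
      have hLe : (L.erase i).card = n := by
        rw [Finset.card_erase_of_mem hi]; omega
      let k' : W → ℕ := fun u => k u - if u = u1 then 1 else 0
      have hk' : ∀ u, k' u + (if u = u1 then 1 else 0) = k u := by
        intro u
        simp only [k']
        by_cases h : u = u1
        · subst h
          rw [if_pos rfl]
          omega
        · rw [if_neg h]; omega
      have hsumk' : ∑ u, k' u + 1 = ∑ u, k u := by
        have e2 : ∑ u : W, (if u = u1 then 1 else 0) = 1 := by
          rw [Finset.sum_ite_eq' univ u1 (fun _ => 1), if_pos (mem_univ _)]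
        rw [← e2, ← Finset.sum_add_distrib]
        exact Finset.sum_congr rfl fun u _ => hk' u
      obtain ⟨m2, h2inv, h2out, h2mu⟩ := ih (L.erase i) hLe m1 h1inv
        (fun c hc => hm1x c (mem_of_mem_erase hc)) k' v0
        (by simp only [k']; rw [hkx]; simp)
        (by omega)
        (by
          intro u
          have h4 : (A u).card ≤ ((L.erase i).filter (fun c => m1 c u = u)).card +
              (if u = u1 then 1 else 0) := by
            by_cases hu : u = u1
            · subst hu
              rw [if_pos rfl]
              have h5 : A u ⊆ insert i ((L.erase i).filter (fun c => m1 c u = u)) := by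
                intro c hc
                have h3 := hAs u hc
                rw [mem_filter] at h3
                rw [mem_insert, mem_filter, mem_erase]
                by_cases hci : c = i
                · exact Or.inl hci
                · exact Or.inr ⟨⟨hci, h3.1⟩, h3.2⟩
              exact (Finset.card_le_card h5).trans (Finset.card_insert_le _ _)
            · rw [if_neg hu]
              apply Finset.card_le_card
              intro c hc
              have h3 := hAs u hc
              rw [mem_filter] at h3 ⊢
              refine ⟨?_, h3.2⟩
              rw [mem_erase]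
              refine ⟨?_, h3.1⟩
              rintro rfl
              exact honly u hu hc
          rw [hAc] at h4
          have h5 := hk' u
          by_cases hu : u = u1
          · simp only [hu, if_true] at h4 h5 ⊢
            omega
          · simp only [hu, if_false] at h4 h5 ⊢
            omega)
      have h2i : m2 i = m1 i := h2out i (by simp)
      obtain ⟨m3, h3inv, h3out, h3mu⟩ := add_edge L m2 h2inv i hi x u1 hxu1
        (by rw [h2i]; exact hm1x i hi) (by rw [h2i]; exact hm1u1)
      refine ⟨m3, h3inv, ?_, ?_⟩
      · intro c hc
        have hci : c ≠ i := fun h => hc (h ▸ hi)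
        rw [h3out c hci, h2out c (fun h => hc (mem_of_mem_erase h)), h1out c hc]
      · intro u w huw
        rw [h3mu u w huw, mu_erase L m2 i hi, h2mu u w huw, h2i, ← h1mu u w,
          mu_erase L m1 i hi]
        have key : ((if u = x then k' w else 0) + if w = x then k' u else 0) +
            (if (u = x ∧ w = u1) ∨ (u = u1 ∧ w = x) then 1 else 0) =
            (if u = x then k w else 0) + if w = x then k u else 0 := by
          rw [← hk' w, ← hk' u]
          by_cases hux : u = x
          · have hwx : w ≠ x := fun h => huw (hux.trans h.symm)
            have hu1' : u ≠ u1 := fun h => hxu1 (hux.symm.trans h)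
            simp [hux, hwx, hxu1]
          · by_cases hwx : w = x
            · simp [hux, hwx]
            · simp [hux, hwx]
        omega

end core

/-- adding parallel edges greedily -/
theorem add_greedy {V : Type} [Fintype V] [DecidableEq V] (L : Finset ℕ) (a b : V) (hab : a ≠ b)
    (n : ℕ) : ∀ m : ℕ → V → V, (∀ c v, m c (m c v) = v) →
    n ≤ (L.filter fun c => m c a = a ∧ m c b = b).card →
    ∃ m' : ℕ → V → V, (∀ c v, m' c (m' c v) = v) ∧
      ∀ u w, u ≠ w → mu L m' u w = mu L m u w +
        if (u = a ∧ w = b) ∨ (u = b ∧ w = a) then n else 0 := by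
  induction n with
  | zero =>
    intro m hm _
    exact ⟨m, hm, fun u w _ => by simp⟩
  | succ n ih =>
    intro m hm hn
    obtain ⟨c, hc⟩ : (L.filter fun c => m c a = a ∧ m c b = b).Nonempty := by
      rw [← Finset.card_pos]; omega
    obtain ⟨hcL, hca, hcb⟩ := mem_filter.1 hc
    obtain ⟨m1, h1, h2, h3⟩ := add_edge L m hm c hcL a b hab hca hcb
    obtain ⟨m2, g1, g2⟩ := ih m1 h1 (by
      have h4 : (L.filter fun c => m c a = a ∧ m c b = b).erase c ⊆
          L.filter fun c => m1 c a = a ∧ m1 c b = b := by
        intro e he
        rw [mem_erase, mem_filter] at he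
        rw [mem_filter, h2 e he.1]
        exact he.2
      have h5 := Finset.card_le_card h4
      rw [Finset.card_erase_of_mem hc] at h5
      omega)
    refine ⟨m2, g1, ?_⟩
    intro u w huw
    rw [g2 u w huw, h3 u w huw]
    split_ifs <;> omega

/-- A common generalization of the theorems of Vizing and Shannon: `D + t` colours suffice for
multigraphs of maximum degree at most `D`, if every multiplicity is at most `t` or at least
`D - t`. -/
theorem mshannon {V : Type} [Fintype V] [DecidableEq V] (z : V → V → ℕ)
    (hs : ∀ x y, z x y = z y x) (h0 : ∀ x, z x x = 0) (t D : ℕ)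
    (hz : ∀ x y, x ≠ y → z x y ≤ t ∨ D ≤ z x y + t)
    (hd : ∀ x, ∑ y, z x y ≤ D) :
    ∃ φ : Fin (D + t) → V → V, (∀ c x, φ c (φ c x) = x) ∧
      ∀ x y, x ≠ y → (univ.filter fun c => φ c x = y).card = z x y := by
  classical
  let L : Finset ℕ := Finset.range (D + t)
  have hL : L.card = D + t := Finset.card_range _
  -- the heavy neighbour is unique
  have huniq : ∀ x u v, t < z x u → t < z x v → u = v := by
    intro x u v hu hv
    by_contra huv
    have hxu : x ≠ u := by
      rintro rfl; rw [h0] at hu; omega
    have h1 := hz x u hxu
    have h2 : z x u + z x v ≤ D := by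
      refine le_trans ?_ (hd x)
      rw [← Finset.sum_pair (f := fun y => z x y) huv]
      exact Finset.sum_le_sum_of_subset (Finset.subset_univ _)
    omega
  have hall : ∀ X : Finset V, ∃ m : ℕ → V → V, (∀ c v, m c (m c v) = v) ∧
      ∀ u w, u ≠ w → mu L m u w = if u ∈ X ∧ w ∈ X then z u w else 0 := by
    intro X
    induction X using Finset.induction_on with
    | empty =>
      refine ⟨fun _ v => v, fun _ _ => rfl, ?_⟩
      intro u w huw
      rw [mu_eq_card, Finset.card_eq_zero.2]
      · simp
      · rw [Finset.filter_eq_empty_iff]
        intro _ _ h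
        exact huw h
    | insert x X hx ih =>
      obtain ⟨m, hm, hmu⟩ := ih
      have hmiss : ∀ u, (L.filter (fun c => m c u = u)).card +
          ∑ w ∈ univ.erase u, (if u ∈ X ∧ w ∈ X then z u w else 0) = D + t := by
        intro u
        rw [← hL, ← missing_add L m u]
        congr 1
        refine Finset.sum_congr rfl fun w hw => ?_
        rw [mem_erase] at hw
        exact (hmu u w hw.1.symm).symm
      have hxi : ∀ c ∈ L, m c x = x := by
        have h1 := hmiss x
        rw [Finset.sum_eq_zero (fun w _ => if_neg (fun h => hx h.1)), add_zero, ← hL] at h1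
        exact Finset.card_filter_eq_iff.mp h1
      have hdeg : ∀ u ∈ X, ∑ w ∈ univ.erase u, (if u ∈ X ∧ w ∈ X then z u w else 0) + z x u ≤
          D := by
        intro u hu
        rw [hs x u]
        refine le_trans ?_ (hd u)
        rw [← Finset.add_sum_erase univ (fun w => z u w) (mem_univ x), add_comm]
        apply Nat.add_le_add_left
        calc ∑ w ∈ univ.erase u, (if u ∈ X ∧ w ∈ X then z u w else 0)
            ≤ ∑ w, (if u ∈ X ∧ w ∈ X then z u w else 0) :=
              Finset.sum_le_sum_of_subset (Finset.erase_subset _ _)
          _ = (if u ∈ X ∧ x ∈ X then z u x else 0) +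
              ∑ w ∈ univ.erase x, (if u ∈ X ∧ w ∈ X then z u w else 0) :=
              (Finset.add_sum_erase univ
                (fun w => if u ∈ X ∧ w ∈ X then z u w else 0) (mem_univ x)).symm
          _ ≤ ∑ w ∈ univ.erase x, z u w := by
              rw [if_neg (fun h => hx h.2), zero_add]
              apply Finset.sum_le_sum
              intro w _
              split_ifs
              · exact le_rfl
              · exact Nat.zero_le _
      let k : V → ℕ := fun u => if u ∈ X ∧ z x u ≤ t then z x u else 0
      have hkz : ∀ u, k u ≤ z x u := by
        intro u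
        simp only [k]
        split_ifs
        · exact le_rfl
        · exact Nat.zero_le _
      have hkt : ∀ u, k u ≤ t := by
        intro u
        simp only [k]
        split_ifs with h1
        · exact h1.2
        · exact Nat.zero_le _
      have hksum : ∑ u, k u ≤ D := (Finset.sum_le_sum fun u _ => hkz u).trans (hd x)
      obtain ⟨m', hm', -, hmu'⟩ := add_vertex' x (D + t) L hL m hm hxi k x
        (by simp [k, hx]) (by omega) (by
          intro u
          have h1 := hmiss u
          by_cases hu : u ∈ X
          · have h2 := hdeg u hu
            have h3 := hkz u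
            have h4 := hkt u
            split_ifs <;> omega
          · simp only [k, hu, false_and, if_false]
            omega)
      have hxne : ∀ u ∈ X, u ≠ x := fun u hu h => hx (h ▸ hu)
      by_cases hheavy : ∃ u ∈ X, t < z x u
      · obtain ⟨u, hu, hut⟩ := hheavy
        have hux := hxne u hu
        have hDu : D ≤ z x u + t := by
          rcases hz x u hux.symm with h1 | h1
          · omega
          · exact h1
        have hku : k u = 0 := if_neg (fun h => by omega)
        -- the number of colours at `x` and at `u`
        have hpx : (L.filter (fun c => m' c x ≠ x)).card + z x u ≤ D := by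
          have h1 := missing_add L m' x
          have h2 := Finset.card_filter_add_card_filter_not (s := L) (fun c => m' c x = x)
          have h3 : ∑ w ∈ univ.erase x, mu L m' x w = ∑ w ∈ univ.erase x, k w := by
            apply Finset.sum_congr rfl
            intro w hw
            rw [mem_erase] at hw
            rw [hmu' x w hw.1.symm, hmu x w hw.1.symm, if_neg (fun h => hx h.1), if_pos rfl,
              if_neg hw.1]
            omega
          have h4 : ∑ w ∈ univ.erase x, k w + z x u ≤ D := by
            refine le_trans ?_ (hd x)
            rw [← Finset.add_sum_erase univ (fun w => z x w) (mem_univ u), add_comm]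
            apply Nat.add_le_add_left
            calc ∑ w ∈ univ.erase x, k w ≤ ∑ w, k w :=
                  Finset.sum_le_sum_of_subset (Finset.erase_subset _ _)
              _ = k u + ∑ w ∈ univ.erase u, k w :=
                  (Finset.add_sum_erase univ k (mem_univ u)).symm
              _ ≤ ∑ w ∈ univ.erase u, z x w := by
                  rw [hku, zero_add]
                  exact Finset.sum_le_sum fun w _ => hkz w
          have h5 : (L.filter (fun c => m' c x ≠ x)).card =
            (L.filter (fun c => ¬ (m' c x = x))).card := rfl
          omega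
        have hpu : (L.filter (fun c => m' c u ≠ u)).card + z x u ≤ D := by
          have h1 := missing_add L m' u
          have h2 := Finset.card_filter_add_card_filter_not (s := L) (fun c => m' c u = u)
          have h3 : ∑ w ∈ univ.erase u, mu L m' u w =
              ∑ w ∈ univ.erase u, (if u ∈ X ∧ w ∈ X then z u w else 0) := by
            apply Finset.sum_congr rfl
            intro w hw
            rw [mem_erase] at hw
            rw [hmu' u w hw.1.symm, hmu u w hw.1.symm]
            simp only [if_neg hux, hku, ite_self, add_zero]
          have h4 := hdeg u hu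
          have h5 : (L.filter (fun c => m' c u ≠ u)).card =
            (L.filter (fun c => ¬ (m' c u = u))).card := rfl
          omega
        have hcommon : z x u ≤ (L.filter fun c => m' c x = x ∧ m' c u = u).card := by
          have h1 : L ⊆ (L.filter fun c => m' c x = x ∧ m' c u = u) ∪
              ((L.filter (fun c => m' c x ≠ x)) ∪ (L.filter (fun c => m' c u ≠ u))) := by
            intro c hc
            rw [mem_union, mem_union, mem_filter, mem_filter, mem_filter]
            by_cases h1 : m' c x = x
            · by_cases h2 : m' c u = u
              · exact Or.inl ⟨hc, h1, h2⟩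
              · exact Or.inr (Or.inr ⟨hc, h2⟩)
            · exact Or.inr (Or.inl ⟨hc, h1⟩)
          have h2 := Finset.card_le_card h1
          have h3 := Finset.card_union_le (L.filter fun c => m' c x = x ∧ m' c u = u)
            ((L.filter (fun c => m' c x ≠ x)) ∪ (L.filter (fun c => m' c u ≠ u)))
          have h4 := Finset.card_union_le (L.filter (fun c => m' c x ≠ x))
            (L.filter (fun c => m' c u ≠ u))
          omega
        obtain ⟨m2, hm2, hmu2⟩ := add_greedy L x u hux.symm (z x u) m' hm' hcommon
        refine ⟨m2, hm2, ?_⟩
        intro p q hpq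
        rw [hmu2 p q hpq, hmu' p q hpq, hmu p q hpq]
        simp only [mem_insert, k]
        have hlight : ∀ v, v ≠ u → z x v ≤ t := by
          intro v hv
          by_contra h1
          exact hv (huniq x v u (by omega) hut)
        by_cases hpx' : p = x
        · have hqx : q ≠ x := fun h => hpq (hpx'.trans h.symm)
          subst hpx'
          by_cases hqu : q = u
          · subst hqu
            have : ¬ (z p q ≤ t) := by omega
            simp [hx, hu, this, hqx]
          · have := hlight q hqu
            simp [hx, hqx, hqu, this]
        · by_cases hqx : q = x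
          · subst hqx
            by_cases hpu' : p = u
            · subst hpu'
              have : ¬ (z p q ≤ t) := by rw [hs p q]; omega
              simp [hx, hu, this, hpx', hs q p]
            · have h9 := hlight p hpu'
              rw [hs q p] at h9
              simp [hx, hpx', hpu', h9, hs q p]
          · simp [hpx', hqx]
      · push Not at hheavy
        refine ⟨m', hm', ?_⟩
        intro u w huw
        rw [hmu' u w huw, hmu u w huw]
        simp only [mem_insert, k]
        by_cases hux : u = x
        · have hwx : w ≠ x := fun h => huw (hux.trans h.symm)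
          subst hux
          by_cases hw : w ∈ X
          · simp [hx, hwx, hw, hheavy w hw]
          · simp [hx, hwx, hw]
        · by_cases hwx : w = x
          · subst hwx
            by_cases hu : u ∈ X
            · have h9 := hheavy u hu
              rw [hs w u] at h9
              simp [hx, hux, hu, h9, hs w u]
            · simp [hx, hux, hu]
          · simp [hux, hwx]
  obtain ⟨m, hm, hmu⟩ := hall univ
  refine ⟨fun c => m c.val, fun c x => hm _ _, ?_⟩
  intro x y hxy
  have h1 := hmu x y hxy
  rw [if_pos ⟨mem_univ _, mem_univ _⟩] at h1
  rw [← h1]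
  unfold mu
  rw [Finset.card_filter]
  exact Fin.sum_univ_eq_sum_range (fun c => if m c x = y then 1 else 0) (D + t)

/-- Vizing's theorem, where the multiplicities may be `t + 1` on a matching. -/
theorem mvizing {V : Type} [Fintype V] [DecidableEq V] (z : V → V → ℕ)
    (hs : ∀ x y, z x y = z y x) (t D : ℕ) (E : V → V)
    (hz : ∀ x y, z x y ≤ t + if E x = y then 1 else 0)
    (hd : ∀ x, ∑ y, z x y ≤ D) :
    ∃ φ : Fin (D + t) → V → V, (∀ c x, φ c (φ c x) = x) ∧
      ∀ x y, x ≠ y → (univ.filter fun c => φ c x = y).card = z x y := by
  classical
  let L : Finset ℕ := Finset.range (D + t)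
  have hL : L.card = D + t := Finset.card_range _
  have hall : ∀ X : Finset V, ∃ m : ℕ → V → V, (∀ c v, m c (m c v) = v) ∧
      ∀ u w, u ≠ w → mu L m u w = if u ∈ X ∧ w ∈ X then z u w else 0 := by
    intro X
    induction X using Finset.induction_on with
    | empty =>
      refine ⟨fun _ v => v, fun _ _ => rfl, ?_⟩
      intro u w huw
      rw [mu_eq_card, Finset.card_eq_zero.2]
      · simp
      · rw [Finset.filter_eq_empty_iff]
        intro _ _ h
        exact huw h
    | insert x X hx ih =>
      obtain ⟨m, hm, hmu⟩ := ih
      have hmiss : ∀ u, (L.filter (fun c => m c u = u)).card +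
          ∑ w ∈ univ.erase u, (if u ∈ X ∧ w ∈ X then z u w else 0) = D + t := by
        intro u
        rw [← hL, ← missing_add L m u]
        congr 1
        refine Finset.sum_congr rfl fun w hw => ?_
        rw [mem_erase] at hw
        exact (hmu u w hw.1.symm).symm
      have hxi : ∀ c ∈ L, m c x = x := by
        have h1 := hmiss x
        rw [Finset.sum_eq_zero (fun w _ => if_neg (fun h => hx h.1)), add_zero, ← hL] at h1
        exact Finset.card_filter_eq_iff.mp h1
      let k : V → ℕ := fun u => if u ∈ X then z x u else 0
      have hkz : ∀ u, k u ≤ z x u := by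
        intro u
        simp only [k]
        split_ifs
        · exact le_rfl
        · exact Nat.zero_le _
      have hksum : ∑ u, k u ≤ D := (Finset.sum_le_sum fun u _ => hkz u).trans (hd x)
      obtain ⟨m', hm', -, hmu'⟩ := add_vertex' x (D + t) L hL m hm hxi k (E x)
        (by simp [k, hx]) (by omega) (by
          intro u
          have h1 := hmiss u
          by_cases hu : u ∈ X
          · have hux : u ≠ x := fun h => hx (h ▸ hu)
            have h2 : ∑ w ∈ univ.erase u, (if u ∈ X ∧ w ∈ X then z u w else 0) + z x u ≤ D := by
              rw [hs x u]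
              refine le_trans ?_ (hd u)
              rw [← Finset.add_sum_erase univ (fun w => z u w) (mem_univ x), add_comm]
              apply Nat.add_le_add_left
              calc ∑ w ∈ univ.erase u, (if u ∈ X ∧ w ∈ X then z u w else 0)
                  ≤ ∑ w, (if u ∈ X ∧ w ∈ X then z u w else 0) :=
                    Finset.sum_le_sum_of_subset (Finset.erase_subset _ _)
                _ = (if u ∈ X ∧ x ∈ X then z u x else 0) +
                    ∑ w ∈ univ.erase x, (if u ∈ X ∧ w ∈ X then z u w else 0) :=
                    (Finset.add_sum_erase univ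
                      (fun w => if u ∈ X ∧ w ∈ X then z u w else 0) (mem_univ x)).symm
                _ ≤ ∑ w ∈ univ.erase x, z u w := by
                    rw [if_neg (fun h => hx h.2), zero_add]
                    apply Finset.sum_le_sum
                    intro w _
                    split_ifs
                    · exact le_rfl
                    · exact Nat.zero_le _
            have h3 := hkz u
            have h4 := hz x u
            by_cases h5 : E x = u
            · rw [if_pos h5] at h4
              rw [if_pos h5.symm]
              omega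
            · rw [if_neg h5] at h4
              rw [if_neg (fun h6 => h5 h6.symm)]
              omega
          · simp only [k, hu, if_false]
            omega)
      refine ⟨m', hm', ?_⟩
      intro u w huw
      rw [hmu' u w huw, hmu u w huw]
      simp only [mem_insert, k]
      by_cases hux : u = x
      · have hwx : w ≠ x := fun h => huw (hux.trans h.symm)
        subst hux
        simp [hx, hwx]
      · by_cases hwx : w = x
        · subst hwx
          simp [hx, hux, hs w u]
        · simp [hux, hwx]
  obtain ⟨m, hm, hmu⟩ := hall univ
  refine ⟨fun c => m c.val, fun c x => hm _ _, ?_⟩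
  intro x y hxy
  have h1 := hmu x y hxy
  rw [if_pos ⟨mem_univ _, mem_univ _⟩] at h1
  rw [← h1]
  unfold mu
  rw [Finset.card_filter]
  exact Fin.sum_univ_eq_sum_range (fun c => if m c x = y then 1 else 0) (D + t)

end Pool.Agent.X76.PM
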