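import Pool.Agent.X76.PM3

set_option autoImplicit false

/-!
Kempe changes which spread the sets of vertices missing a colour.
-/

namespace Pool.Agent.X76.PM

open Finset Pool.Agent.X76.Det

theorem orbit_ends {W : Type} [Fintype W] [DecidableEq W] (g h : W → W)
    (hg : ∀ v, g (g v) = v) (hh : ∀ v, h (h v) = v) (v : W) (hv : g v = v) :
    ∃ S : Finset W, v ∈ S ∧ (∀ w ∈ S, g w ∈ S) ∧ (∀ w ∈ S, h w ∈ S) ∧
      (S.filter (fun w => g w = w)).card + (S.filter (fun w => h w = w)).card ≤ 2 := by
  classical
  let p : Equiv.Perm W := ⟨fun v => g (h v), fun v => h (g v),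
    fun v => by simp [hg, hh], fun v => by simp [hg, hh]⟩
  let gp : Equiv.Perm W := ⟨g, g, hg, hg⟩
  have hconj : gp * p * gp⁻¹ = p⁻¹ := by
    ext w
    show g (g (h (g w))) = h (g w)
    rw [hg]
  have key : ∀ k : ℤ, ∀ w, g ((p ^ k) w) = (p ^ (-k)) (g w) := by
    intro k w
    have h1 : gp * p ^ k * gp⁻¹ = p ^ (-k) := by
      rw [← conj_zpow, hconj, inv_zpow, zpow_neg]
    have h2 : gp * p ^ k = p ^ (-k) * gp := by
      rw [← h1]; group
    have := congrArg (fun q : Equiv.Perm W => q w) h2
    exact this
  have keyh : ∀ k : ℤ, h ((p ^ k) v) = (p ^ (-(k + 1))) v := by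
    intro k
    have h1 : (p ^ (k + 1)) v = g (h ((p ^ k) v)) := by
      rw [add_comm, zpow_add, zpow_one]; rfl
    have h2 := key (k + 1) v
    rw [hv, h1, hg] at h2
    exact h2
  let S : Finset W := univ.filter (fun w => ∃ k : ℤ, (p ^ k) v = w)
  have per : ∀ k l : ℤ, (p ^ k) v = (p ^ l) v ↔
      ((MulAction.period p v : ℕ) : ℤ) ∣ k - l := by
    intro k l
    rw [← MulAction.zpow_smul_eq_iff_period_dvd]
    have h4 : (p ^ k) v = (p ^ l) ((p ^ (k - l)) v) := by
      have : (p ^ l) ((p ^ (k - l)) v) = (p ^ l * p ^ (k - l)) v := rfl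
      rw [this, ← zpow_add]; congr 2; ring
    rw [h4]
    constructor
    · intro h5
      exact (p ^ l).injective h5
    · intro h5
      exact congrArg _ h5
  refine ⟨S, ?_, ?_, ?_, ?_⟩
  · simp only [S, mem_filter, mem_univ, true_and]
    exact ⟨0, by simp⟩
  · intro w hw
    simp only [S, mem_filter, mem_univ, true_and] at hw ⊢
    obtain ⟨k, rfl⟩ := hw
    exact ⟨-k, by rw [key, hv]⟩
  · intro w hw
    simp only [S, mem_filter, mem_univ, true_and] at hw ⊢
    obtain ⟨k, rfl⟩ := hw
    exact ⟨-(k + 1), (keyh k).symm⟩
  · by_contra hcon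
    rw [not_le] at hcon
    let T : Finset (W × Bool) := (S.filter (fun w => g w = w)).map ⟨fun w => (w, false),
        fun a b h => (Prod.mk.inj h).1⟩ ∪
      (S.filter (fun w => h w = w)).map ⟨fun w => (w, true), fun a b h => (Prod.mk.inj h).1⟩
    have hT : 2 < T.card := by
      have h1 : T.card = (S.filter (fun w => g w = w)).card +
          (S.filter (fun w => h w = w)).card := by
        simp only [T]
        rw [Finset.card_union_of_disjoint, Finset.card_map, Finset.card_map]
        rw [Finset.disjoint_left]
        intro a ha hb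
        rw [mem_map] at ha hb
        obtain ⟨x, -, rfl⟩ := ha
        obtain ⟨y, -, hy⟩ := hb
        simp at hy
      omega
    have hTm : ∀ a ∈ T, ∃ k s : ℤ, (p ^ k) v = a.1 ∧
        2 * k + (if a.2 = true then 1 else 0) = ((MulAction.period p v : ℕ) : ℤ) * s := by
      intro a ha
      simp only [T, mem_union, mem_map, mem_filter, Function.Embedding.coeFn_mk] at ha
      rcases ha with ⟨w, ⟨hw, hgw⟩, rfl⟩ | ⟨w, ⟨hw, hgw⟩, rfl⟩
      · simp only [S, mem_filter, mem_univ, true_and] at hw
        obtain ⟨k, rfl⟩ := hw
        rw [key, hv, per] at hgw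
        obtain ⟨s, hs⟩ := hgw
        refine ⟨k, -s, rfl, ?_⟩
        simp only [Bool.false_eq_true, if_false]
        linarith
      · simp only [S, mem_filter, mem_univ, true_and] at hw
        obtain ⟨k, rfl⟩ := hw
        rw [keyh, per] at hgw
        obtain ⟨s, hs⟩ := hgw
        refine ⟨k, -s, rfl, ?_⟩
        simp only [if_true]
        linarith
    rw [Finset.two_lt_card] at hT
    obtain ⟨a, ha, b, hb, c, hc, hab, hac, hbc⟩ := hT
    obtain ⟨ka, sa, ea, fa⟩ := hTm a ha
    obtain ⟨kb, sb, eb, fb⟩ := hTm b hb
    obtain ⟨kc, sc, ec, fc⟩ := hTm c hc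
    set N : ℤ := ((MulAction.period p v : ℕ) : ℤ) with hN
    have par : ∀ (a b : W × Bool) (k l s t : ℤ), (p ^ k) v = a.1 → (p ^ l) v = b.1 →
        2 * k + (if a.2 = true then 1 else 0) = N * s →
        2 * l + (if b.2 = true then 1 else 0) = N * t → (s - t) % 2 = 0 → a = b := by
      intro a b k l s t h1 h2 h3 h4 h5
      obtain ⟨r, hr⟩ := Int.dvd_of_emod_eq_zero h5
      have h6 : 2 * (k - l) + ((if a.2 = true then 1 else 0) - (if b.2 = true then 1 else 0)) =
          2 * (N * r) := by
        have : 2 * (k - l) + ((if a.2 = true then 1 else 0) - (if b.2 = true then 1 else 0)) =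
            N * (s - t) := by
          have e : N * (s - t) = N * s - N * t := mul_sub _ _ _
          rw [e, ← h3, ← h4]; ring
        rw [this, hr]; ring
      have h7 : a.2 = b.2 := by
        by_cases h8 : a.2 = true <;> by_cases h9 : b.2 = true
        · rw [h8, h9]
        · rw [if_pos h8, if_neg h9] at h6; omega
        · rw [if_neg h8, if_pos h9] at h6; omega
        · rw [Bool.not_eq_true] at h8 h9
          rw [h8, h9]
      have h8 : k - l = N * r := by
        rw [h7] at h6
        linarith
      have h9 : a.1 = b.1 := by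
        rw [← h1, ← h2, per]
        exact ⟨r, h8⟩
      exact Prod.ext h9 h7
    have h3 : (sa - sb) % 2 = 0 ∨ (sa - sc) % 2 = 0 ∨ (sb - sc) % 2 = 0 := by omega
    rcases h3 with h3 | h3 | h3
    · exact hab (par _ _ _ _ _ _ ea eb fa fb h3)
    · exact hac (par _ _ _ _ _ _ ea ec fa fc h3)
    · exact hbc (par _ _ _ _ _ _ eb ec fb fc h3)

/-- the vertices missing a colour -/
def Fx {U : Type} [Fintype U] [DecidableEq U] (f : U → U) : Finset U :=
  univ.filter fun x => f x = x

theorem mem_Fx {U : Type} [Fintype U] [DecidableEq U] (f : U → U) (x : U) :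
    x ∈ Fx f ↔ f x = x := by simp [Fx]

/-- a Kempe change at the vertex `u` -/
theorem kempe_at {U I : Type} [Fintype U] [DecidableEq U] [Fintype I] [DecidableEq I]
    (φ : I → U → U) (hφ : ∀ c x, φ c (φ c x) = x) (c d : I) (hcd : c ≠ d) (u v : U) (huv : u ≠ v)
    (hc : Fx (φ c) = {u, v}) (hu : u ∉ Fx (φ d)) (hv : v ∉ Fx (φ d)) (hd : (Fx (φ d)).Nonempty) :
    ∃ φ' : I → U → U, (∀ c x, φ' c (φ' c x) = x) ∧
      (∀ x y, (univ.filter fun c => φ' c x = y).card = (univ.filter fun c => φ c x = y).card) ∧
      (∀ e, e ≠ c → e ≠ d → φ' e = φ e) ∧ u ∈ Fx (φ' d) ∧ u ∉ Fx (φ' c) ∧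
      ((Fx (φ' c)).card = 2 → v ∈ Fx (φ' c)) ∧ Fx (φ' d) ≠ {u, v} := by
  classical
  have huc : φ c u = u := by rw [← mem_Fx, hc]; simp
  have hvc : φ c v = v := by rw [← mem_Fx, hc]; simp
  have hud : φ d u ≠ u := by rw [mem_Fx] at hu; exact hu
  have hvd : φ d v ≠ v := by rw [mem_Fx] at hv; exact hv
  obtain ⟨S, huS, hSc, hSd, hends⟩ := orbit_ends (φ c) (φ d) (hφ c) (hφ d) u huc
  have hSc' : ∀ w, w ∉ S → φ c w ∉ S := by
    intro w hw h; apply hw; have := hSc _ h; rwa [hφ] at this
  have hSd' : ∀ w, w ∉ S → φ d w ∉ S := by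
    intro w hw h; apply hw; have := hSd _ h; rwa [hφ] at this
  let φ' : I → U → U := fun e x => if x ∈ S then φ (Equiv.swap c d e) x else φ e x
  have hφc : ∀ x, φ' c x = if x ∈ S then φ d x else φ c x := by
    intro x; simp only [φ', Equiv.swap_apply_left]
  have hφd : ∀ x, φ' d x = if x ∈ S then φ c x else φ d x := by
    intro x; simp only [φ', Equiv.swap_apply_right]
  have hφe : ∀ e, e ≠ c → e ≠ d → φ' e = φ e := by
    intro e h1 h2
    funext x
    simp only [φ', Equiv.swap_apply_of_ne_of_ne h1 h2, ite_self]
  -- parity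
  have hpar : ∀ f : U → U, (∀ x, f (f x) = x) → (∀ x ∈ S, f x ∈ S) →
      (S.filter (fun w => f w = w)).card % 2 = S.card % 2 := by
    intro f hf hfS
    have h1 := fix_parity f hf S hfS
    have h2 := Finset.card_filter_add_card_filter_not (s := S) (fun w => f w = w)
    obtain ⟨k, hk⟩ := h1
    have h3 : (S.filter fun x => f x ≠ x).card = (S.filter fun x => ¬ (f x = x)).card := rfl
    omega
  have hp1 := hpar (φ c) (hφ c) hSc
  have hp2 := hpar (φ d) (hφ d) hSd
  have huSc : u ∈ S.filter (fun w => φ c w = w) := mem_filter.2 ⟨huS, huc⟩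
  have hcase : (v ∈ S ∧ S.filter (fun w => φ d w = w) = ∅) ∨
      (v ∉ S ∧ (S.filter (fun w => φ d w = w)).card = 1) := by
    by_cases hvS : v ∈ S
    · left
      refine ⟨hvS, ?_⟩
      have h1 : 2 ≤ (S.filter (fun w => φ c w = w)).card := by
        rw [← Finset.card_pair huv]
        apply Finset.card_le_card
        intro x hx
        rw [mem_insert, mem_singleton] at hx
        rcases hx with rfl | rfl
        · exact huSc
        · exact mem_filter.2 ⟨hvS, hvc⟩
      rw [← Finset.card_eq_zero]
      omega
    · right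
      refine ⟨hvS, ?_⟩
      have h1 : S.filter (fun w => φ c w = w) = {u} := by
        ext x
        rw [mem_filter, mem_singleton]
        constructor
        · rintro ⟨h1, h2⟩
          rw [← mem_Fx, hc, mem_insert, mem_singleton] at h2
          rcases h2 with h2 | h2
          · exact h2
          · exact absurd (h2 ▸ h1) hvS
        · rintro rfl
          exact ⟨huS, huc⟩
      rw [h1, Finset.card_singleton] at hends hp1
      omega
  refine ⟨φ', ?_, ?_, hφe, ?_, ?_, ?_, ?_⟩
  · intro e x
    by_cases h1 : e = c
    · rw [h1, hφc, hφc]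
      by_cases h2 : x ∈ S
      · rw [if_pos h2, if_pos (hSd x h2), hφ]
      · rw [if_neg h2, if_neg (hSc' x h2), hφ]
    · by_cases h2 : e = d
      · rw [h2, hφd, hφd]
        by_cases h2 : x ∈ S
        · rw [if_pos h2, if_pos (hSc x h2), hφ]
        · rw [if_neg h2, if_neg (hSd' x h2), hφ]
      · rw [hφe e h1 h2, hφ]
  · intro x y
    by_cases hx : x ∈ S
    · refine Finset.card_bij' (fun e _ => Equiv.swap c d e) (fun e _ => Equiv.swap c d e)
        ?_ ?_ ?_ ?_
      · intro e he
        rw [mem_filter] at he ⊢
        refine ⟨mem_univ _, ?_⟩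
        have h1 := he.2
        simp only [φ', if_pos hx] at h1
        exact h1
      · intro e he
        rw [mem_filter] at he ⊢
        refine ⟨mem_univ _, ?_⟩
        simp only [φ', if_pos hx, Equiv.swap_apply_self]
        exact he.2
      · intro e _; simp
      · intro e _; simp
    · congr 1
      apply Finset.filter_congr
      intro e _
      simp only [φ', if_neg hx]
  · rw [mem_Fx, hφd, if_pos huS, huc]
  · rw [mem_Fx, hφc, if_pos huS]
    exact hud
  · intro hcard
    rcases hcase with ⟨hvS, hemp⟩ | ⟨hvS, -⟩
    · exfalso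
      have h1 : Fx (φ' c) = ∅ := by
        rw [Finset.eq_empty_iff_forall_notMem]
        intro x hx
        rw [mem_Fx, hφc] at hx
        by_cases h2 : x ∈ S
        · rw [if_pos h2] at hx
          have h3 : x ∈ S.filter (fun w => φ d w = w) := mem_filter.2 ⟨h2, hx⟩
          rw [hemp] at h3
          simp at h3
        · rw [if_neg h2, ← mem_Fx, hc, mem_insert, mem_singleton] at hx
          rcases hx with rfl | rfl
          · exact h2 huS
          · exact h2 hvS
      rw [h1] at hcard
      simp at hcard
    · rw [mem_Fx, hφc, if_neg hvS, hvc]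
  · intro heq
    rcases hcase with ⟨hvS, hemp⟩ | ⟨hvS, -⟩
    · obtain ⟨z, hz⟩ := hd
      have hzS : z ∉ S := by
        intro h
        have h3 : z ∈ S.filter (fun w => φ d w = w) := mem_filter.2 ⟨h, (mem_Fx _ _).1 hz⟩
        rw [hemp] at h3
        simp at h3
      have h1 : z ∈ Fx (φ' d) := by
        rw [mem_Fx, hφd, if_neg hzS]
        exact (mem_Fx _ _).1 hz
      rw [heq, mem_insert, mem_singleton] at h1
      rcases h1 with rfl | rfl
      · exact hu hz
      · exact hv hz
    · have h1 : v ∈ Fx (φ' d) := by rw [heq]; simp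
      rw [mem_Fx, hφd, if_neg hvS] at h1
      exact hvd h1

/-- Phase 1: no pair of vertices is the whole set missing a colour for more than `h` colours. -/
theorem phase1 {U I : Type} [Fintype U] [DecidableEq U] [Fintype I] [DecidableEq I] (t h : ℕ)
    (hth : t ≤ 2 * h) (hU : 2 < Fintype.card U) (N : ℕ) :
    ∀ φ : I → U → U, (∀ c x, φ c (φ c x) = x) →
      (∀ x, (univ.filter fun c => φ c x = x).card = t) →
      ∑ P ∈ univ.filter (fun P : Finset U => P.card = 2),
        ((univ.filter fun c => Fx (φ c) = P).card - h) ≤ N →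
      ∃ φ' : I → U → U, (∀ c x, φ' c (φ' c x) = x) ∧
        (∀ x y, (univ.filter fun c => φ' c x = y).card = (univ.filter fun c => φ c x = y).card) ∧
        ∀ P : Finset U, P.card = 2 → (univ.filter fun c => Fx (φ' c) = P).card ≤ h := by
  induction N with
  | zero =>
    intro φ hφ hfix hN
    refine ⟨φ, hφ, fun _ _ => rfl, ?_⟩
    intro P hP
    have hPm : P ∈ univ.filter (fun P : Finset U => P.card = 2) :=
      mem_filter.2 ⟨mem_univ P, hP⟩
    have h1 := Finset.single_le_sum (s := univ.filter (fun P : Finset U => P.card = 2))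
      (f := fun P : Finset U => (univ.filter fun c => Fx (φ c) = P).card - h)
      (fun _ _ => Nat.zero_le _) hPm
    have h2 : (univ.filter fun c => Fx (φ c) = P).card - h ≤ 0 := h1.trans hN
    omega
  | succ N ih =>
    intro φ hφ hfix hN
    by_cases hall : ∀ P : Finset U, P.card = 2 → (univ.filter fun c => Fx (φ c) = P).card ≤ h
    · exact ⟨φ, hφ, fun _ _ => rfl, hall⟩
    push Not at hall
    obtain ⟨P, hP, hbig⟩ := hall
    obtain ⟨u, v, huv, rfl⟩ := Finset.card_eq_two.1 hP
    let C : Finset I := univ.filter fun c => Fx (φ c) = {u, v}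
    have hCm : ∀ c, c ∈ C ↔ Fx (φ c) = {u, v} := by intro c; simp [C]
    let ms : U → Finset I := fun x => univ.filter fun c => φ c x = x
    have hms : ∀ x c, c ∈ ms x ↔ x ∈ Fx (φ c) := by
      intro x c
      simp only [ms, mem_filter, mem_univ, true_and]
      exact (mem_Fx _ _).symm
    have hmsc : ∀ x, (ms x).card = t := hfix
    -- a third vertex
    obtain ⟨z, hz⟩ : ∃ z, z ∉ ({u, v} : Finset U) := by
      by_contra hno
      push Not at hno
      have h1 : (univ : Finset U) ⊆ {u, v} := fun x _ => hno x
      have h2 := Finset.card_le_card h1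
      rw [Finset.card_pair huv, Finset.card_univ] at h2
      omega
    obtain ⟨d, hdz, hdu, hdv⟩ : ∃ d, d ∈ ms z ∧ d ∉ ms u ∧ d ∉ ms v := by
      by_contra hno
      push Not at hno
      have h1 : ms z ⊆ (ms u \ C) ∪ (ms v \ C) := by
        intro d hd
        have hdC : d ∉ C := by
          rw [hCm]
          intro h2
          rw [hms, h2] at hd
          exact hz hd
        rw [mem_union, mem_sdiff, mem_sdiff]
        by_cases h2 : d ∈ ms u
        · exact Or.inl ⟨h2, hdC⟩
        · exact Or.inr ⟨hno d hd h2, hdC⟩
      have hCu : C ⊆ ms u := by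
        intro c hc
        rw [hms, (hCm c).1 hc]; simp
      have hCv : C ⊆ ms v := by
        intro c hc
        rw [hms, (hCm c).1 hc]; simp
      have h2 := Finset.card_le_card h1
      have h3 := Finset.card_union_le (ms u \ C) (ms v \ C)
      rw [Finset.card_sdiff_of_subset hCu, Finset.card_sdiff_of_subset hCv, hmsc, hmsc] at h3
      rw [hmsc] at h2
      have h5 := Finset.card_le_card hCu
      rw [hmsc] at h5
      have h4 : h < C.card := hbig
      omega
    obtain ⟨c, hcC⟩ : C.Nonempty := by
      rw [← Finset.card_pos]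
      have h4 : h < C.card := hbig
      omega
    have hcF := (hCm c).1 hcC
    have hcd : c ≠ d := by
      rintro rfl
      exact hdu (by rw [hms, hcF]; simp)
    obtain ⟨φ', f1, f2, f3, f4, f5, f6, f7⟩ := kempe_at φ hφ c d hcd u v huv hcF
      (fun h1 => hdu ((hms _ _).2 h1)) (fun h1 => hdv ((hms _ _).2 h1)) ⟨z, (hms _ _).1 hdz⟩
    have hlt : ∑ P ∈ univ.filter (fun P : Finset U => P.card = 2),
        ((univ.filter fun c => Fx (φ' c) = P).card - h) <
        ∑ P ∈ univ.filter (fun P : Finset U => P.card = 2),
        ((univ.filter fun c => Fx (φ c) = P).card - h) := by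
      -- the new counts
      have hle : ∀ P : Finset U, Fx (φ' c) ≠ P → Fx (φ' d) ≠ P →
          (univ.filter fun e => Fx (φ' e) = P) ⊆
            (univ.filter fun e => Fx (φ e) = P) := by
        intro P h1 h2 e he
        rw [mem_filter] at he ⊢
        refine ⟨mem_univ _, ?_⟩
        have h3 : e ≠ c := fun h4 => h1 (h4 ▸ he.2)
        have h4 : e ≠ d := fun h5 => h2 (h5 ▸ he.2)
        rw [← f3 e h3 h4]
        exact he.2
      have hne1 : Fx (φ' c) ≠ {u, v} := by
        intro h1
        apply f5
        rw [h1]; simp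
      have huv1 : (univ.filter fun e => Fx (φ' e) = ({u, v} : Finset U)).card + 1 ≤ C.card := by
        have h1 : (univ.filter fun e => Fx (φ' e) = ({u, v} : Finset U)) ⊆ C.erase c := by
          intro e he
          rw [mem_erase]
          refine ⟨?_, hle _ hne1 f7 he⟩
          rintro rfl
          exact hne1 (mem_filter.1 he).2
        have h2 := Finset.card_le_card h1
        rw [Finset.card_erase_of_mem hcC] at h2
        have h3 := Finset.card_pos.2 ⟨c, hcC⟩
        omega
      -- pairs containing exactly one of the two vertices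
      have hone : ∀ a, (a = u ∨ a = v) → ∀ P : Finset U, a ∈ P → P ≠ {u, v} →
          (univ.filter fun e => Fx (φ' e) = P).card ≤ h := by
        intro a ha P haP hPne
        have h1 : Disjoint (univ.filter fun e => Fx (φ' e) = P) (C.erase c) := by
          rw [Finset.disjoint_left]
          intro e he he'
          rw [mem_erase] at he'
          have h2 : e ≠ d := by
            rintro rfl
            apply hdu
            rw [hms, (hCm _).1 he'.2]; simp
          have h3 := (mem_filter.1 he).2
          rw [f3 e he'.1 h2, (hCm e).1 he'.2] at h3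
          exact hPne h3.symm
        have h2 : (univ.filter fun e => Fx (φ' e) = P) ∪ (C.erase c) ⊆
            univ.filter fun e => φ' e a = a := by
          intro e he
          rw [mem_union] at he
          rw [mem_filter]
          refine ⟨mem_univ _, ?_⟩
          rw [← mem_Fx]
          rcases he with he | he
          · rw [(mem_filter.1 he).2]; exact haP
          · rw [mem_erase] at he
            have h2 : e ≠ d := by
              rintro rfl
              apply hdu
              rw [hms, (hCm _).1 he.2]; simp
            rw [f3 e he.1 h2, (hCm e).1 he.2]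
            rcases ha with rfl | rfl <;> simp
        have h3 := Finset.card_le_card h2
        rw [Finset.card_union_of_disjoint h1, f2, hfix, Finset.card_erase_of_mem hcC] at h3
        have h4 : h < C.card := hbig
        omega
      apply Finset.sum_lt_sum
      · intro P hP'
        have hPc := (mem_filter.1 hP').2
        by_cases h1 : P = {u, v}
        · subst h1
          have : (univ.filter fun e => Fx (φ e) = ({u, v} : Finset U)).card = C.card := rfl
          omega
        · by_cases h2 : u ∈ P
          · have := hone u (Or.inl rfl) P h2 h1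
            omega
          · by_cases h3 : v ∈ P
            · have := hone v (Or.inr rfl) P h3 h1
              omega
            · have h4 : Fx (φ' c) ≠ P := by
                intro h5
                apply h3
                rw [← h5]
                exact f6 (by rw [h5]; exact hPc)
              have h5 : Fx (φ' d) ≠ P := by
                intro h5
                apply h2
                rw [← h5]
                exact f4
              have := Finset.card_le_card (hle P h4 h5)
              omega
      · refine ⟨{u, v}, mem_filter.2 ⟨mem_univ _, hP⟩, ?_⟩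
        have h4 : h < (univ.filter fun e => Fx (φ e) = ({u, v} : Finset U)).card := hbig
        have h5 : (univ.filter fun e => Fx (φ e) = ({u, v} : Finset U)).card = C.card := rfl
        omega
    obtain ⟨φ'', g1, g2, g3⟩ := ih φ' f1 (fun x => by rw [f2, hfix]) (by omega)
    exact ⟨φ'', g1, fun x y => (g2 x y).trans (f2 x y), g3⟩

end Pool.Agent.X76.PM
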