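import Pool.Agent.X76.PM3
import Pool.Agent.MPd14d18.Star

set_option autoImplicit false

/-!
Balanced edge colourings of the classes (Vizing's theorem and Kempe chains).
-/

namespace Pool.Agent.X76.PM

open Finset SimpleGraph Pool.Agent.X76.Det

theorem card_fib {V W : Type} [Fintype W] [DecidableEq V] (f : W → V) (m : ℕ) (v : V)
    (hf : {w | f w = v}.ncard = m) : (univ.filter fun w => f w = v).card = m := by
  rw [← hf, ← Set.ncard_coe_finset]
  congr 1
  ext w
  simp

theorem deg_sum {W : Type} [Fintype W] [DecidableEq W] (H : SimpleGraph W) [DecidableRel H.Adj]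
    (s : ℕ) (x : W) (hs : (H.neighborSet x).ncard = s) :
    ∑ y, (if H.Adj x y then 1 else 0) = s := by
  rw [← Finset.card_filter, ← hs, ← Set.ncard_coe_finset]
  congr 1
  ext w
  simp

/-- degrees and parity in the classes -/
theorem class_basic {V W : Type} [Fintype W] [DecidableEq V] [DecidableEq W] (f : W → V)
    (H : SimpleGraph W) (hH : ∀ x y, H.Adj x y → f x = f y) (s m : ℕ)
    (hs : ∀ x, (H.neighborSet x).ncard = s) (v : V) (hf : {w | f w = v}.ncard = m) (hm : 0 < m) :
    s + 1 ≤ m ∧ Even (s * m) := by
  classical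
  have hc := card_fib f m v hf
  constructor
  · obtain ⟨x, hx⟩ : (univ.filter fun w => f w = v).Nonempty := by
      rw [← Finset.card_pos, hc]; exact hm
    have hx' := (mem_filter.1 hx).2
    have h1 : (univ.filter fun y => H.Adj x y).card = s := by
      rw [Finset.card_filter]
      exact deg_sum H s x (hs x)
    have h2 : insert x (univ.filter fun y => H.Adj x y) ⊆ univ.filter fun w => f w = v := by
      intro y hy
      rw [mem_insert] at hy
      rcases hy with rfl | hy
      · exact hx
      · rw [mem_filter] at hy ⊢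
        exact ⟨mem_univ _, (hH x y hy.2).symm.trans hx'⟩
    have h3 := Finset.card_le_card h2
    rw [Finset.card_insert_of_notMem (by simp), h1, hc] at h3
    exact h3
  · have h1 := even_sum_symm (fun x y => if H.Adj x y then 1 else 0)
      (by
        intro x y
        by_cases h : H.Adj x y
        · rw [if_pos h, if_pos h.symm]
        · rw [if_neg h, if_neg (fun h' => h h'.symm)])
      (by intro x; simp) (univ.filter fun w => f w = v)
    have h2 : ∑ x ∈ univ.filter fun w => f w = v, ∑ y ∈ univ.filter fun w => f w = v,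
        (if H.Adj x y then 1 else 0) = s * m := by
      have h3 : ∀ x ∈ univ.filter fun w => f w = v, ∑ y ∈ univ.filter fun w => f w = v,
          (if H.Adj x y then 1 else 0) = s := by
        intro x hx
        rw [← deg_sum H s x (hs x)]
        apply Finset.sum_subset (Finset.subset_univ _)
        intro y _ hy
        rw [if_neg]
        intro h
        apply hy
        rw [mem_filter] at hx ⊢
        exact ⟨mem_univ _, (hH x y h).symm.trans hx.2⟩
      rw [Finset.sum_congr rfl h3, Finset.sum_const, hc, smul_eq_mul, mul_comm]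
    rw [h2] at h1
    exact h1

theorem inner_col {V W : Type} [Fintype W] [DecidableEq V] [DecidableEq W] (f : W → V)
    (H : SimpleGraph W) [DecidableRel H.Adj] (hH : ∀ x y, H.Adj x y → f x = f y) (s : ℕ)
    (m : V → ℕ) (hs : ∀ x, (H.neighborSet x).ncard = s) (hf : ∀ v, {w | f w = v}.ncard = m v)
    (T : V → Fin (s + 1) → ℕ) (hT : ∀ v c, T v c % 2 = m v % 2)
    (hnear : ∀ v p q, T v p ≤ T v q + 2) (hsum : ∀ v, ∑ c, T v c = m v) :
    ∃ Φ : Fin (s + 1) → W → W, (∀ c x, Φ c (Φ c x) = x) ∧ (∀ c x, f (Φ c x) = f x) ∧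
      (∀ x y, x ≠ y → (univ.filter fun c => Φ c x = y).card = if H.Adj x y then 1 else 0) ∧
      (∀ x, (univ.filter fun c => Φ c x = x).card = 1) ∧
      ∀ c v, (univ.filter fun x => f x = v ∧ Φ c x = x).card = T v c := by
  classical
  have hdeg : ∀ x, H.degree x = s := by
    intro x
    rw [← deg_sum H s x (hs x), ← Finset.card_filter, ← SimpleGraph.card_neighborFinset_eq_degree]
    congr 1
    ext y
    simp
  obtain ⟨N, hN1, hN2, hN3, hN4⟩ := Pool.Agent.MPd14d18.vizing_family H (range (s + 1)) s
    (fun v => (hdeg v).le) (by rw [card_range])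
  let φ0 : Fin (s + 1) → W → W := fun c x => N c.val x
  have hfφ : ∀ c x, f (φ0 c x) = f x := by
    intro c x
    by_cases h : φ0 c x = x
    · rw [h]
    · exact (hH _ _ (hN2 c.val (mem_range.2 c.2) x h)).symm
  have hmiss : ∀ x, (univ.filter fun c => φ0 c x = x).card = 1 := by
    intro x
    have h1 := hN4 x
    rw [hdeg, card_range, Finset.card_filter] at h1
    rw [Finset.card_filter]
    have h2 := Fin.sum_univ_eq_sum_range (fun c => if N c x = x then 1 else 0) (s + 1)
    have h3 : ∑ c : Fin (s + 1), (if φ0 c x = x then 1 else 0) =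
        ∑ c ∈ range (s + 1), (if N c x = x then 1 else 0) := h2
    omega
  have hcnt : ∀ x y, x ≠ y → (univ.filter fun c => φ0 c x = y).card =
      if H.Adj x y then 1 else 0 := by
    intro x
    have hle : ∀ y ∈ univ.erase x, (univ.filter fun c => φ0 c x = y).card ≤
        if H.Adj x y then 1 else 0 := by
      intro y hy
      have hyx := (mem_erase.1 hy).1
      by_cases h : H.Adj x y
      · rw [if_pos h, Finset.card_le_one]
        intro c hc c' hc'
        rw [mem_filter] at hc hc'
        apply Fin.ext
        apply hN3 c.val (mem_range.2 c.2) c'.val (mem_range.2 c'.2) x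
        · have h1 : N c.val x = y := hc.2
          rw [h1]; exact hyx
        · exact hc.2.trans hc'.2.symm
      · rw [if_neg h, Nat.le_zero, Finset.card_eq_zero, Finset.filter_eq_empty_iff]
        intro c _ hc
        apply h
        have h1 : N c.val x = y := hc
        rw [← h1]
        apply hN2 c.val (mem_range.2 c.2)
        rw [h1]; exact hyx
    have htot : ∑ y ∈ univ.erase x, (univ.filter fun c => φ0 c x = y).card =
        ∑ y ∈ univ.erase x, (if H.Adj x y then 1 else 0) := by
      have h1 : ∑ y, (univ.filter fun c => φ0 c x = y).card = s + 1 := by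
        have h2 := Finset.card_eq_sum_card_fiberwise (s := (univ : Finset (Fin (s + 1))))
          (f := fun c => φ0 c x) (t := univ) (fun c _ => mem_coe.2 (mem_univ _))
        rw [card_univ, Fintype.card_fin] at h2
        exact h2.symm
      have h3 := deg_sum H s x (hs x)
      rw [← Finset.add_sum_erase _ _ (mem_univ x)] at h1 h3
      rw [hmiss] at h1
      rw [if_neg (H.loopless.irrefl x)] at h3
      omega
    intro y hxy
    exact (Finset.sum_eq_sum_iff_of_le hle).1 htot y (mem_erase.2 ⟨Ne.symm hxy, mem_univ y⟩)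
  -- the classes
  let U : V → Type := fun v => {w : W // f w = v}
  have iU : ∀ v, Fintype (U v) := fun v => Fintype.ofFinite _
  have hU : ∀ v, Fintype.card (U v) = m v := by
    intro v
    rw [← Nat.card_eq_fintype_card, ← hf v, ← Nat.card_coe_set_eq]
    rfl
  let φv : ∀ v, Fin (s + 1) → U v → U v := fun v c x => ⟨φ0 c x.1, by rw [hfφ]; exact x.2⟩
  have hex : ∀ v, ∃ φ' : Fin (s + 1) → U v → U v, (∀ c x, φ' c (φ' c x) = x) ∧
      (∀ x y, (univ.filter fun c => φ' c x = y).card =
        (univ.filter fun c => φv v c x = y).card) ∧ ∀ c, fx (φ' c) = T v c := by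
    intro v
    apply kempe_target (T v) (by intro c; rw [hU]; exact hT v c) (hnear v) _ (φv v) _ _ le_rfl
    · intro c x
      exact Subtype.ext (hN1 c.val x.1)
    · rw [hsum]
      unfold fx
      have h1 : ∀ c, (univ.filter fun x : U v => φv v c x = x).card =
          ∑ x : U v, (if φ0 c x.1 = x.1 then 1 else 0) := by
        intro c
        rw [Finset.card_filter]
        apply Finset.sum_congr rfl
        intro x _
        by_cases h : φ0 c x.1 = x.1
        · rw [if_pos h, if_pos (Subtype.ext h)]
        · rw [if_neg h, if_neg (fun h' => h (congrArg Subtype.val h'))]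
      rw [Finset.sum_congr rfl (fun c _ => h1 c), Finset.sum_comm]
      have h2 : ∀ x : U v, ∑ c, (if φ0 c x.1 = x.1 then 1 else 0) = 1 := by
        intro x
        rw [← Finset.card_filter]
        exact hmiss x.1
      rw [Finset.sum_congr rfl (fun x _ => h2 x), Finset.sum_const, card_univ, hU, smul_eq_mul,
        mul_one]
  choose φ' hφ1 hφ2 hφ3 using hex
  let Φ : Fin (s + 1) → W → W := fun c x => (φ' (f x) c ⟨x, rfl⟩).1
  have key : ∀ c v (x : U v), Φ c x.1 = (φ' v c x).1 := by
    rintro c v ⟨x, rfl⟩
    rfl
  have hΦf : ∀ c x, f (Φ c x) = f x := fun c x => (φ' (f x) c ⟨x, rfl⟩).2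
  refine ⟨Φ, ?_, hΦf, ?_, ?_, ?_⟩
  · intro c x
    have h1 := key c (f x) (φ' (f x) c ⟨x, rfl⟩)
    rw [hφ1] at h1
    exact h1
  · intro x y hxy
    by_cases h : f x = f y
    · have h1 : (univ.filter fun c => Φ c x = y) =
          univ.filter fun c => φ' (f x) c ⟨x, rfl⟩ = ⟨y, h.symm⟩ := by
        ext c
        simp only [mem_filter, mem_univ, true_and]
        exact (Subtype.ext_iff (a1 := φ' (f x) c ⟨x, rfl⟩) (a2 := ⟨y, h.symm⟩)).symm
      rw [h1, hφ2, ← hcnt x y hxy]
      congr 1
      ext c
      simp only [mem_filter, mem_univ, true_and]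
      exact Subtype.ext_iff
    · rw [if_neg (fun h' => h (hH x y h')), Finset.card_eq_zero, Finset.filter_eq_empty_iff]
      intro c _ hc
      apply h
      rw [← hc, hΦf]
  · intro x
    have h1 : (univ.filter fun c => Φ c x = x) =
        univ.filter fun c => φ' (f x) c ⟨x, rfl⟩ = ⟨x, rfl⟩ := by
      ext c
      simp only [mem_filter, mem_univ, true_and]
      exact (Subtype.ext_iff (a1 := φ' (f x) c ⟨x, rfl⟩) (a2 := ⟨x, rfl⟩)).symm
    have h2 : (univ.filter fun c => φv (f x) c ⟨x, rfl⟩ = ⟨x, rfl⟩) =
        univ.filter fun c => φ0 c x = x := by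
      ext c
      simp only [mem_filter, mem_univ, true_and]
      exact Subtype.ext_iff
    exact (congrArg Finset.card h1).trans ((hφ2 (f x) _ _).trans
      ((congrArg Finset.card h2).trans (hmiss x)))
  · intro c v
    rw [← hφ3 v c]
    unfold fx
    rw [← Finset.card_map (⟨Subtype.val, Subtype.val_injective⟩ : U v ↪ W)]
    congr 1
    ext x
    simp only [Finset.mem_map, mem_filter, mem_univ, true_and, Function.Embedding.coeFn_mk]
    constructor
    · rintro ⟨rfl, h2⟩
      exact ⟨⟨x, rfl⟩, Subtype.ext h2, rfl⟩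
    · rintro ⟨x', hx', rfl⟩
      refine ⟨x'.2, ?_⟩
      rw [key c v x', hx']

end Pool.Agent.X76.PM
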