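import Pool.Agent.X76.PM2
import Pool.Agent.X76.PM4

set_option autoImplicit false

/-!
Perfect matchings which cover the edges of a multigraph obtained by substitution.
-/

namespace Pool.Agent.X76.PM

open Finset SimpleGraph Pool.Agent.X76.Det

theorem exists_partner {Y : Type} [Fintype Y] [DecidableEq Y] (P : Y → Y → ℕ)
    (hs : ∀ y z, P y z = P z y) (h1 : ∀ y, ∑ z, P y z = 1) :
    ∃ ρ : Y → Y, (∀ y, ρ (ρ y) = y) ∧ ∀ y z, P y z = if ρ y = z then 1 else 0 := by
  have hex : ∀ y, ∃ z, P y z = 1 := by
    intro y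
    by_contra hno
    push Not at hno
    obtain ⟨z, -, hz⟩ : ∃ z ∈ univ, P y z ≠ 0 := by
      by_contra hno'
      push Not at hno'
      have h2 := Finset.sum_eq_zero hno'
      rw [h1] at h2
      exact absurd h2 one_ne_zero
    have h3 := Finset.single_le_sum (f := P y) (fun i _ => Nat.zero_le _) (mem_univ z)
    rw [h1] at h3
    have h4 := hno z
    omega
  choose ρ hρ using hex
  have huniq : ∀ y z, P y z ≠ 0 → ρ y = z := by
    intro y z hz
    by_contra hne
    have h2 := h1 y
    rw [← Finset.add_sum_erase _ _ (mem_univ (ρ y)), hρ] at h2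
    have h3 := Finset.single_le_sum (f := P y) (fun i _ => Nat.zero_le _)
      (mem_erase.2 ⟨Ne.symm hne, mem_univ z⟩)
    omega
  refine ⟨ρ, ?_, ?_⟩
  · intro y
    apply huniq
    rw [hs, hρ]
    exact one_ne_zero
  · intro y z
    by_cases h : ρ y = z
    · rw [if_pos h, ← h, hρ]
    · rw [if_neg h]
      by_contra h2
      exact h (huniq y z h2)

/-- colourings from outlines -/
theorem assemble {V W : Type} [Fintype V] [Fintype W] [DecidableEq V] [DecidableEq W]
    (a : V → V → ℕ) (has : ∀ u v, a u v = a v u) (g : V → ℕ) (f : W → V)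
    (hf : ∀ v, {w | f w = v}.ncard = g v) (s N : ℕ) (H : SimpleGraph W) [DecidableRel H.Adj]
    (hH : ∀ x y, H.Adj x y → f x = f y) (hs : ∀ x, (H.neighborSet x).ncard = s)
    (M : Fin (s + 1) ⊕ Fin N → V → V → ℕ)
    (hSt : St1 (Sum.elim (fun _ => none) some : Fin (s + 1) ⊕ Fin N → Option (Fin N)) g a M)
    (hpar : ∀ v c, (∑ y, M (Sum.inl c) v y) % 2 = g v % 2)
    (hnear : ∀ v p q, ∑ y, M (Sum.inl p) v y ≤ ∑ y, M (Sum.inl q) v y + 2) :
    ∃ σ : Fin (s + 1) ⊕ Fin N → W → W, (∀ i x, σ i (σ i x) = x) ∧
      ∀ x y, (univ.filter fun i => σ i x = y).card =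
        if x = y then 0 else a (f x) (f y) + if H.Adj x y then 1 else 0 := by
  classical
  let κ : Fin (s + 1) ⊕ Fin N → Option (Fin N) := Sum.elim (fun _ => none) some
  have hSt : St1 κ g a M := hSt
  obtain ⟨Φ, hΦ1, hΦ2, hΦ3, hΦ4, hΦ5⟩ := inner_col f H hH s g hs hf
    (fun v c => ∑ y, M (Sum.inl c) v y) hpar hnear (by
      intro v
      have h1 := hSt.deg none v
      rw [Fintype.sum_sum_type] at h1
      simp only [κ, Sum.elim_inl, Sum.elim_inr, if_true, reduceCtorEq, if_false,
        Finset.sum_const_zero, add_zero] at h1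
      exact h1)
  obtain ⟨Y, iY, π, M', hπ, hSt', hcnt⟩ := detach1 κ _ V g a M has hSt rfl
  -- the types
  have hrow : ∀ y, ∑ c : Fin (s + 1), ∑ z, M' (Sum.inl c) y z = 1 := by
    intro y
    have h1 := hSt'.deg none y
    rw [Fintype.sum_sum_type] at h1
    simp only [κ, Sum.elim_inl, Sum.elim_inr, if_true, reduceCtorEq, if_false,
      Finset.sum_const_zero, add_zero] at h1
    exact h1
  have htyp : ∀ y, ∃ c : Fin (s + 1), ∀ c', (∑ z, M' (Sum.inl c') y z) =
      if c = c' then 1 else 0 := by
    intro y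
    obtain ⟨c, hc1⟩ : ∃ c : Fin (s + 1), (∑ z, M' (Sum.inl c) y z) ≠ 0 := by
      by_contra hno
      push Not at hno
      have h2 := Finset.sum_eq_zero (fun c (_ : c ∈ univ) => hno c)
      rw [hrow] at h2
      exact absurd h2 one_ne_zero
    refine ⟨c, fun c' => ?_⟩
    have h2 := hrow y
    rw [← Finset.add_sum_erase _ _ (mem_univ c)] at h2
    by_cases h : c = c'
    · rw [if_pos h, ← h]; omega
    · rw [if_neg h]
      have h3 := Finset.single_le_sum (f := fun c => ∑ z, M' (Sum.inl c) y z)
        (fun i _ => Nat.zero_le _) (mem_erase.2 ⟨Ne.symm h, mem_univ c'⟩)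
      omega
  choose typ htyp using htyp
  have hmis : ∀ x, ∃ c, ∀ c', Φ c' x = x ↔ c = c' := by
    intro x
    obtain ⟨c, hc1⟩ := Finset.card_eq_one.1 (hΦ4 x)
    refine ⟨c, fun c' => ?_⟩
    have h1 : c' ∈ univ.filter (fun c => Φ c x = x) ↔ c' ∈ ({c} : Finset _) := by rw [hc1]
    rw [mem_filter, mem_singleton] at h1
    constructor
    · intro h
      exact (h1.1 ⟨mem_univ _, h⟩).symm
    · intro h
      exact (h1.2 h.symm).2
  choose mis hmis using hmis
  obtain ⟨e, he⟩ := fib_equiv (fun y => (π y, typ y)) (fun x => (f x, mis x)) (by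
    rintro ⟨v, c⟩
    have h1 : {x | (f x, mis x) = (v, c)} = ↑(univ.filter fun x => f x = v ∧ Φ c x = x) := by
      ext x
      simp only [Set.mem_ofPred_eq, Prod.mk.injEq, coe_filter, mem_univ, true_and, hmis]
    have h2 : {y | (π y, typ y) = (v, c)} = ↑(univ.filter fun y => π y = v ∧ typ y = c) := by
      ext x
      simp only [Set.mem_ofPred_eq, Prod.mk.injEq, coe_filter, mem_univ, true_and]
    rw [h1, h2, Set.ncard_coe_finset, Set.ncard_coe_finset, hΦ5, Finset.card_filter]
    have h3 := hcnt (Sum.inl c) v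
    rw [← h3]
    apply Finset.sum_congr rfl
    intro y _
    rw [htyp]
    by_cases h5 : π y = v
    · by_cases h6 : typ y = c
      · rw [if_pos ⟨h5, h6⟩, if_pos h5, if_pos h6]
      · rw [if_neg (fun h => h6 h.2), if_pos h5, if_neg h6]
    · rw [if_neg (fun h => h5 h.1), if_neg h5])
  have heπ : ∀ y, f (e y) = π y := fun y => congrArg Prod.fst (he y)
  have het : ∀ y, mis (e y) = typ y := fun y => congrArg Prod.snd (he y)
  -- partners
  let P : Option (Fin N) → Y → Y → ℕ := fun k y z =>
    ∑ c, (if κ c = k then M' c y z else 0)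
  have hPs : ∀ k y z, P k y z = P k z y := by
    intro k y z
    apply Finset.sum_congr rfl
    intro c _
    rw [hSt'.symm]
  have hP1 : ∀ k y, ∑ z, P k y z = 1 := by
    intro k y
    rw [Finset.sum_comm]
    have h1 := hSt'.deg k y
    refine Eq.trans ?_ h1
    apply Finset.sum_congr rfl
    intro c _
    split_ifs
    · rfl
    · simp
  choose ρ hρ1 hρ2 using fun k => exists_partner (P k) (hPs k) (hP1 k)
  have hPsum : ∀ y z, ∑ k, P k y z = if y = z then 0 else a (π y) (π z) := by
    intro y z
    have h1 : ∑ k, P k y z = ∑ c, M' c y z := by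
      simp only [P]
      rw [Finset.sum_comm]
      apply Finset.sum_congr rfl
      intro c _
      rw [Finset.sum_ite_eq univ (κ c), if_pos (mem_univ _)]
    rw [h1]
    by_cases h : y = z
    · subst h
      rw [hSt'.loop y, if_pos rfl, Nat.sub_self, zero_mul, mul_zero]
    · rw [hSt'.mult y z h, mul_one, one_mul, if_neg h]
  have hρt : ∀ y, typ (ρ none y) = typ y := by
    intro y
    have h1 := hρ2 none y (ρ none y)
    rw [if_pos rfl] at h1
    simp only [P] at h1
    rw [Fintype.sum_sum_type] at h1
    simp only [κ, Sum.elim_inl, Sum.elim_inr, if_true, reduceCtorEq, if_false,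
      Finset.sum_const_zero, add_zero] at h1
    obtain ⟨c, -, hc1⟩ : ∃ c ∈ (univ : Finset (Fin (s + 1))),
        M' (Sum.inl c) y (ρ none y) ≠ 0 := by
      by_contra hno
      push Not at hno
      have h2 := Finset.sum_eq_zero hno
      rw [h1] at h2
      exact absurd h2 one_ne_zero
    have h2 : ∀ y z, M' (Sum.inl c) y z ≠ 0 → typ y = c := by
      intro y z hyz
      by_contra hne
      have h3 := htyp y c
      rw [if_neg hne] at h3
      exact hyz ((Finset.sum_eq_zero_iff.1 h3) z (mem_univ z))
    rw [h2 _ _ hc1, h2 (ρ none y) y (by rw [hSt'.symm]; exact hc1)]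
  let σ : Fin (s + 1) ⊕ Fin N → W → W := fun i => match i with
    | Sum.inl c => fun x => if mis x = c then e (ρ none (e.symm x)) else Φ c x
    | Sum.inr j => fun x => e (ρ (some j) (e.symm x))
  have hmis' : ∀ x, mis (e (ρ none (e.symm x))) = mis x := by
    intro x
    rw [het, hρt, ← het, Equiv.apply_symm_apply]
  refine ⟨σ, ?_, ?_⟩
  · rintro (c | j) x
    · simp only [σ]
      by_cases h : mis x = c
      · rw [if_pos h, if_pos ((hmis' x).trans h), Equiv.symm_apply_apply, hρ1,
          Equiv.apply_symm_apply]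
      · rw [if_neg h, if_neg, hΦ1]
        intro h1
        apply h
        rw [← hmis]
        have h2 := (hmis (Φ c x) c).2 h1
        rw [hΦ1] at h2
        exact h2.symm
    · simp only [σ]
      rw [Equiv.symm_apply_apply, hρ1, Equiv.apply_symm_apply]
  · intro x y
    rw [Finset.card_filter, Fintype.sum_sum_type]
    simp only [σ]
    have h1 : ∀ k, (if e (ρ k (e.symm x)) = y then 1 else 0) = P k (e.symm x) (e.symm y) := by
      intro k
      rw [hρ2]
      by_cases h : ρ k (e.symm x) = e.symm y
      · rw [if_pos h, if_pos]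
        rw [h, Equiv.apply_symm_apply]
      · rw [if_neg h, if_neg]
        intro h2
        apply h
        rw [← h2, Equiv.symm_apply_apply]
    have h2 : ∑ j : Fin N, (if e (ρ (some j) (e.symm x)) = y then 1 else 0) =
        ∑ j : Fin N, P (some j) (e.symm x) (e.symm y) :=
      Finset.sum_congr rfl (fun j _ => h1 (some j))
    have h3 : ∑ c : Fin (s + 1), (if (if mis x = c then e (ρ none (e.symm x)) else Φ c x) = y
        then 1 else 0) = P none (e.symm x) (e.symm y) + if H.Adj x y then 1 else 0 := by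
      rw [← Finset.add_sum_erase _ _ (mem_univ (mis x)), if_pos rfl, h1 none]
      congr 1
      have h4 : ∑ c ∈ univ.erase (mis x), (if (if mis x = c then e (ρ none (e.symm x))
          else Φ c x) = y then 1 else 0) =
          ∑ c ∈ univ.erase (mis x), (if Φ c x = y then 1 else 0) := by
        apply Finset.sum_congr rfl
        intro c hc
        rw [if_neg (Finset.ne_of_mem_erase hc).symm]
      rw [h4]
      by_cases hxy : x = y
      · subst hxy
        rw [if_neg (H.loopless.irrefl x)]
        apply Finset.sum_eq_zero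
        intro c hc
        rw [if_neg]
        intro h5
        exact (Finset.ne_of_mem_erase hc) (((hmis x c).1 h5).symm)
      · have h5 := hΦ3 x y hxy
        rw [Finset.card_filter, ← Finset.add_sum_erase _ _ (mem_univ (mis x))] at h5
        rw [if_neg (show ¬ Φ (mis x) x = y from fun h6 =>
          hxy (((hmis x (mis x)).2 rfl).symm.trans h6)), zero_add] at h5
        exact h5
    rw [h2, h3]
    have h6 := hPsum (e.symm x) (e.symm y)
    rw [Fintype.sum_option, ← heπ, ← heπ, Equiv.apply_symm_apply, Equiv.apply_symm_apply] at h6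
    by_cases hxy : x = y
    · subst hxy
      rw [if_pos rfl] at h6
      rw [if_pos rfl, if_neg (H.loopless.irrefl x)]
      omega
    · rw [if_neg (fun h => hxy (e.symm.injective h))] at h6
      rw [if_neg hxy]
      omega

end Pool.Agent.X76.PM
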