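import Pool.Agent.X76.PM7

set_option autoImplicit false

/-!
Perfect matchings which cover the edges of a multigraph obtained by substitution: the theorems.
-/

namespace Pool.Agent.X76.PM

open Finset SimpleGraph Pool.Agent.X76.Det

/-- `k * r` perfect matchings, given by partner functions, with every edge in exactly `k` of
them -/
def HasCover {W : Type} (k r : ℕ) (b : W → W → ℕ) : Prop :=
  ∃ σ : Fin (k * r) → W → W, (∀ i x, σ i (σ i x) = x ∧ σ i x ≠ x) ∧
    ∀ x y, Nat.card {i // σ i x = y} = k * b x y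

theorem card_sub {I : Type} [Fintype I] (p : I → Prop) [DecidablePred p] :
    Nat.card {i // p i} = (univ.filter p).card := by
  rw [Nat.card_eq_fintype_card, Fintype.card_subtype]

/-- covers from colourings with any set of colours -/
theorem cover_of {I W : Type} [Fintype I] [DecidableEq W] (r : ℕ)
    (hr : Fintype.card I = r) (b : W → W → ℕ) (hb0 : ∀ x, b x x = 0) (σ : I → W → W)
    (h1 : ∀ i x, σ i (σ i x) = x)
    (h2 : ∀ x y, (univ.filter fun i => σ i x = y).card = b x y) (k : ℕ) : HasCover k r b := by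
  classical
  let e : I ≃ Fin r := Fintype.equivFinOfCardEq hr
  refine ⟨fun i => σ (e.symm (finProdFinEquiv.symm i).2), ?_, ?_⟩
  · intro i x
    refine ⟨h1 _ x, ?_⟩
    intro h3
    have h4 := h2 x x
    rw [hb0, Finset.card_eq_zero, Finset.filter_eq_empty_iff] at h4
    exact h4 (mem_univ _) h3
  · intro x y
    rw [card_sub, ← h2 x y]
    have h3 : (univ.filter fun i : Fin (k * r) => σ (e.symm (finProdFinEquiv.symm i).2) x = y).card =
        ((univ : Finset (Fin k)) ×ˢ (univ.filter fun i : I => σ i x = y)).card := by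
      apply Finset.card_bij
        (fun i _ => ((finProdFinEquiv.symm i).1, e.symm (finProdFinEquiv.symm i).2))
      · intro i hi
        rw [mem_filter] at hi
        rw [mem_product, mem_filter]
        exact ⟨mem_univ _, mem_univ _, hi.2⟩
      · intro i _ j _ hij
        have h4 := Prod.mk.inj hij
        apply finProdFinEquiv.symm.injective
        exact Prod.ext h4.1 (e.symm.injective h4.2)
      · rintro ⟨p, i⟩ hi
        rw [mem_product, mem_filter] at hi
        refine ⟨finProdFinEquiv (p, e i), ?_, ?_⟩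
        · rw [mem_filter]
          refine ⟨mem_univ _, ?_⟩
          rw [Equiv.symm_apply_apply, Equiv.symm_apply_apply]
          exact hi.2.2
        · rw [Equiv.symm_apply_apply, Equiv.symm_apply_apply]
    rw [h3, Finset.card_product, card_univ, Fintype.card_fin]

/-- the structure of a multigraph obtained by substitution -/
structure Sub {V W : Type} (b : W → W → ℕ) (f : W → V) (a : V → V → ℕ) (H : SimpleGraph W) :
    Prop where
  symm : ∀ u v, a u v = a v u
  surj : Function.Surjective f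
  inside : ∀ x y, H.Adj x y → f x = f y
  zero : ∀ x, b x x = 0
  one : ∀ x y, H.Adj x y → b x y = a (f x) (f y) + 1
  two : ∀ x y, x ≠ y → ¬ H.Adj x y → b x y = a (f x) (f y)

theorem Sub.eq {V W : Type} {b : W → W → ℕ} {f : W → V} {a : V → V → ℕ} {H : SimpleGraph W}
    [DecidableRel H.Adj] [DecidableEq W] (h : Sub b f a H) (x y : W) :
    b x y = if x = y then 0 else a (f x) (f y) + if H.Adj x y then 1 else 0 := by
  by_cases h1 : x = y
  · rw [if_pos h1, h1, h.zero]
  · rw [if_neg h1]
    by_cases h2 : H.Adj x y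
    · rw [if_pos h2, h.one x y h2]
    · rw [if_neg h2, h.two x y h1 h2, add_zero]

theorem Sub.deg {V W : Type} [Fintype V] [Fintype W] [DecidableEq V] [DecidableEq W]
    {b : W → W → ℕ} {f : W → V} {a : V → V → ℕ} {H : SimpleGraph W}
    [DecidableRel H.Adj] (h : Sub b f a H) (g : V → ℕ) (hf : ∀ v, {w | f w = v}.ncard = g v)
    (s : ℕ) (hs : ∀ x, (H.neighborSet x).ncard = s) (x : W) :
    ∑ y, b x y = ∑ u, (if f x = u then (g (f x) - 1) * a (f x) (f x) else g u * a (f x) u) + s := by
  rw [← row_sum a g f hf x, ← deg_sum H s x (hs x), ← Finset.sum_add_distrib]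
  apply Finset.sum_congr rfl
  intro y _
  rw [h.eq]
  by_cases h1 : x = y
  · subst h1
    rw [if_pos rfl, if_pos rfl, if_neg (H.loopless.irrefl x)]
  · rw [if_neg h1, if_neg h1]

theorem cover_even {V W : Type} [Finite V] [Fintype W] (b : W → W → ℕ) (f : W → V)
    (a : V → V → ℕ) (H : SimpleGraph W) (h : Sub b f a H) (r s : ℕ) (hr : ∀ x, ∑ y, b x y = r)
    (hs : ∀ x, (H.neighborSet x).ncard = s) (hsr : s < r)
    (hev : ∀ v, Even {w | f w = v}.ncard) (k : ℕ) : HasCover k r b := by
  classical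
  have iV := Fintype.ofFinite V
  let g : V → ℕ := fun v => {w | f w = v}.ncard
  have hg : ∀ v, 1 ≤ g v := by
    intro v
    obtain ⟨w, hw⟩ := h.surj v
    exact (Set.ncard_pos (Set.toFinite _)).2 ⟨w, hw⟩
  obtain ⟨N, hN⟩ : ∃ N, r = s + (N + 1) := ⟨r - s - 1, by omega⟩
  obtain ⟨M, hM1, hM2, hM3⟩ := outline_even a h.symm g hg hev s N (by
    intro v
    obtain ⟨x, rfl⟩ := h.surj v
    have h1 := h.deg g (fun _ => rfl) s hs x
    rw [hr] at h1
    have h2 : ∑ y, (if f x = y then (g (f x) - 1) * a (f x) (f x) else g y * a (f x) y) =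
        ∑ u, (if f x = u then (g (f x) - 1) * a (f x) (f x) else g u * a (f x) u) := rfl
    omega)
  obtain ⟨σ, hσ1, hσ2⟩ := assemble a h.symm g f (fun _ => rfl) s N H h.inside hs M hM1 hM2 hM3
  apply cover_of r _ b h.zero σ hσ1
  · intro x y
    rw [hσ2, h.eq]
  · rw [Fintype.card_sum, Fintype.card_fin, Fintype.card_fin]
    omega

theorem cover_odd {V W : Type} [Finite V] [Fintype W] (b : W → W → ℕ) (f : W → V)
    (a : V → V → ℕ) (H : SimpleGraph W) (h : Sub b f a H) (r s m : ℕ) (hr : ∀ x, ∑ y, b x y = r)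
    (hs : ∀ x, (H.neighborSet x).ncard = s) (hsr : s < r) (hm : Odd m)
    (hf : ∀ v, {w | f w = v}.ncard = m) (F : Fin r → V → V)
    (hF : ∀ i v, F i (F i v) = v ∧ F i v ≠ v)
    (hcov : ∀ u v, Nat.card {i // F i u = v} ≤ m * m * a u v) (k : ℕ) : HasCover k r b := by
  classical
  have iV := Fintype.ofFinite V
  rcases isEmpty_or_nonempty V with hV | hV
  · have hW : IsEmpty W := ⟨fun x => hV.false (f x)⟩
    exact ⟨fun _ x => x, fun _ x => (hW.false x).elim, fun x => (hW.false x).elim⟩
  have hm0 : 0 < m := hm.pos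
  obtain ⟨v0⟩ := hV
  obtain ⟨hsm, hsev⟩ := class_basic f H h.inside s m hs v0 (hf v0) hm0
  obtain ⟨N, hN⟩ : ∃ N, r = s + (N + 1) := ⟨r - s - 1, by omega⟩
  let e : Fin (s + 1) ⊕ Fin N ≃ Fin r := Fintype.equivFinOfCardEq (by
    rw [Fintype.card_sum, Fintype.card_fin, Fintype.card_fin]; omega)
  obtain ⟨M, hM1, hM2, hM3⟩ := outline_odd a h.symm m s N (Nat.odd_iff.1 hm) hsm hsev (by
    intro v
    obtain ⟨x, rfl⟩ := h.surj v
    have h1 := h.deg (fun _ => m) hf s hs x
    rw [hr] at h1
    omega) (fun c => F (e c)) (fun c => hF (e c)) (by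
    intro x y
    refine le_trans (le_of_eq ?_) (hcov x y)
    rw [card_sub, ← Finset.card_map e.toEmbedding]
    congr 1
    ext i
    simp only [Finset.mem_map_equiv, mem_filter, mem_univ, true_and, Equiv.apply_symm_apply])
  obtain ⟨σ, hσ1, hσ2⟩ := assemble a h.symm (fun _ => m) f hf s N H h.inside hs M hM1 hM2 hM3
  apply cover_of r _ b h.zero σ hσ1
  · intro x y
    rw [hσ2, h.eq]
  · rw [Fintype.card_sum, Fintype.card_fin, Fintype.card_fin]
    omega

theorem exists_mult (m d s k : ℕ) (hm : 3 ≤ m) (hd : 1 ≤ d) (hs : s + 1 ≤ m) (hk : 1 ≤ k)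
    (hkm : k ≤ m * m) : ∃ c, d * m + s ≤ c * (k * d) ∧ c * k ≤ m * m := by
  have h1 := Nat.div_add_mod (m * m) k
  have h2 := Nat.mod_lt (m * m) hk
  have h3 : 0 < m * m / k := Nat.div_pos hkm hk
  obtain ⟨c, hc⟩ : ∃ c, c = m * m / k := ⟨_, rfl⟩
  rw [← hc] at h1 h3
  refine ⟨c, ?_, ?_⟩
  · have h4 : 2 * m - 1 ≤ c * k := by
      have h5 : k ≤ c * k := Nat.le_mul_of_pos_left k h3
      have h6 : k * c = c * k := mul_comm k c
      by_cases h7 : 2 * m - 1 ≤ k
      · omega
      · obtain ⟨t, rfl⟩ : ∃ t, m = t + 3 := ⟨m - 3, by omega⟩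
        have h8 : (t + 3) * (t + 3) = t * t + 6 * t + 9 := by ring
        have h9 : 0 ≤ t * t := Nat.zero_le _
        omega
    have h5 : c * (k * d) = (c * k) * d := by ring
    rw [h5]
    have h6 : (2 * m - 1) * d ≤ (c * k) * d := Nat.mul_le_mul_right d h4
    have h7 : (2 * m - 1) * d = d * m + (m - 1) * d := by
      obtain ⟨t, rfl⟩ : ∃ t, m = t + 1 := ⟨m - 1, by omega⟩
      rw [show 2 * (t + 1) - 1 = 2 * t + 1 by omega, Nat.add_sub_cancel]
      ring
    have h8 : m - 1 ≤ (m - 1) * d := Nat.le_mul_of_pos_right _ hd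
    omega
  · have h6 : k * c = c * k := mul_comm k c
    omega

theorem cover_closure {V W : Type} [Fintype V] [Fintype W] (b : W → W → ℕ) (f : W → V)
    (a : V → V → ℕ) (H : SimpleGraph W) (h : Sub b f a H) (d s m k : ℕ) (hd : 1 ≤ d)
    (ha0 : ∀ v, a v v = 0) (hdeg : ∀ v, ∑ u, a v u = d)
    (hs : ∀ x, (H.neighborSet x).ncard = s) (hm : 2 ≤ m)
    (hf : ∀ v, {w | f w = v}.ncard = m) (hk : 1 ≤ k) (hkm : k ≤ m * m) (hcov : HasCover k d a) :
    (∀ x, ∑ y, b x y = d * m + s) ∧ ∀ l, HasCover l (d * m + s) b := by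
  classical
  have hr : ∀ x, ∑ y, b x y = d * m + s := by
    intro x
    rw [h.deg (fun _ => m) hf s hs x]
    congr 1
    have h1 : ∀ u, (if f x = u then (m - 1) * a (f x) (f x) else m * a (f x) u) =
        m * a (f x) u := by
      intro u
      by_cases h2 : f x = u
      · rw [if_pos h2, ← h2, ha0, mul_zero, mul_zero]
      · rw [if_neg h2]
    rw [Finset.sum_congr rfl (fun u _ => h1 u), ← Finset.mul_sum, hdeg, mul_comm]
  refine ⟨hr, ?_⟩
  have hsr : s < d * m + s := by
    have : 0 < d * m := Nat.mul_pos hd (by omega)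
    omega
  rcases Nat.even_or_odd m with hev | hodd
  · exact cover_even b f a H h _ s hr hs hsr (fun v => by rw [hf]; exact hev)
  · rcases isEmpty_or_nonempty V with hV | hV
    · have hW : IsEmpty W := ⟨fun x => hV.false (f x)⟩
      intro l
      exact ⟨fun _ x => x, fun _ x => (hW.false x).elim, fun x => (hW.false x).elim⟩
    have hm3 : 3 ≤ m := by
      obtain ⟨t, ht⟩ := hodd
      omega
    obtain ⟨v0⟩ := hV
    obtain ⟨hsm, -⟩ := class_basic f H h.inside s m hs v0 (hf v0) (by omega)
    obtain ⟨c, hc1, hc2⟩ := exists_mult m d s k hm3 hd hsm hk hkm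
    obtain ⟨σ, hσ1, hσ2⟩ := hcov
    let ι : Fin (d * m + s) → Fin c × Fin (k * d) := fun i =>
      finProdFinEquiv.symm (Fin.castLE hc1 i)
    have hι : Function.Injective ι := by
      intro i j hij
      have h1 := finProdFinEquiv.symm.injective hij
      exact Fin.castLE_injective hc1 h1
    apply cover_odd b f a H h _ s m hr hs hsr hodd hf (fun i => σ (ι i).2) (fun i => hσ1 _)
    intro u v
    rw [card_sub]
    have h1 : (univ.filter fun i => σ (ι i).2 u = v).card ≤
        ((univ : Finset (Fin c)) ×ˢ (univ.filter fun j : Fin (k * d) => σ j u = v)).card := by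
      apply Finset.card_le_card_of_injOn ι
      · intro i hi
        rw [Finset.mem_coe, mem_filter] at hi
        rw [Finset.mem_coe, mem_product, mem_filter]
        exact ⟨mem_univ _, mem_univ _, hi.2⟩
      · exact hι.injOn
    refine h1.trans ?_
    have h2 := hσ2 u v
    rw [card_sub] at h2
    rw [Finset.card_product, card_univ, Fintype.card_fin, h2, ← mul_assoc]
    exact Nat.mul_le_mul_right _ hc2

end Pool.Agent.X76.PM
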