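import Pool.Agent.X76.PM13
import Pool.Agent.X76.PM14
import Pool.Agent.X76.PM8
import Pool.Agent.X76.PM5

set_option autoImplicit false

/-!
Pairings of the vertices missing the colours with bounded multiplicity; multigraphs all of whose
multiplicities are close to each other.
-/

namespace Pool.Agent.X76.PM

open Finset Pool.Agent.X76.Det

theorem exists_pairing {U : Type} [DecidableEq U] (n : ℕ) :
    ∀ M : Finset U, M.card = 2 * n → ∃ ν : U → U, ∀ x ∈ M, ν x ∈ M ∧ ν x ≠ x ∧ ν (ν x) = x := by
  induction n with
  | zero =>
    intro M hM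
    refine ⟨id, ?_⟩
    intro x hx
    have : 0 < M.card := Finset.card_pos.2 ⟨x, hx⟩
    omega
  | succ n ih =>
    intro M hM
    obtain ⟨a, ha, b, hb, hab⟩ := Finset.one_lt_card.1 (show 1 < M.card by omega)
    obtain ⟨ν, hν⟩ := ih ((M.erase a).erase b) (by
      rw [Finset.card_erase_of_mem (mem_erase.2 ⟨hab.symm, hb⟩), Finset.card_erase_of_mem ha]
      omega)
    refine ⟨fun x => if x = a then b else if x = b then a else ν x, ?_⟩
    intro x hx
    by_cases h1 : x = a
    · subst h1
      simp [hb, hab.symm]
    · by_cases h2 : x = b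
      · subst h2
        simp [h1, ha, hab]
      · obtain ⟨h3, h4, h5⟩ := hν x (mem_erase.2 ⟨h2, mem_erase.2 ⟨h1, hx⟩⟩)
        rw [mem_erase, mem_erase] at h3
        simp only [h1, h2, h3.1, h3.2.1, if_false]
        exact ⟨h3.2.2, h4, h5⟩

/-- Phase 2: pairings with bounded multiplicity. -/
theorem phase2 {U I : Type} [Fintype U] [DecidableEq U] [Fintype I] [DecidableEq I] (t h : ℕ)
    (hth : t ≤ 2 * h) (φ : I → U → U) (hfix : ∀ x, (univ.filter fun c => φ c x = x).card = t)
    (hF : ∀ P : Finset U, P.card = 2 → (univ.filter fun c => Fx (φ c) = P).card ≤ h) (N : ℕ) :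
    ∀ ν : I → U → U,
      (∀ c x, φ c x = x → φ c (ν c x) = ν c x ∧ ν c x ≠ x ∧ ν c (ν c x) = x) →
      ∑ x, ∑ y, ((univ.filter fun c => φ c x = x ∧ ν c x = y).card - h) ≤ N →
      ∃ ν' : I → U → U,
        (∀ c x, φ c x = x → φ c (ν' c x) = ν' c x ∧ ν' c x ≠ x ∧ ν' c (ν' c x) = x) ∧
        ∀ x y, (univ.filter fun c => φ c x = x ∧ ν' c x = y).card ≤ h := by
  induction N with
  | zero =>
    intro ν hν hN
    refine ⟨ν, hν, ?_⟩
    intro x y
    have h1 := Finset.single_le_sum
      (f := fun x => ∑ y, ((univ.filter fun c => φ c x = x ∧ ν c x = y).card - h))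
      (fun _ _ => Nat.zero_le _) (mem_univ x)
    have h2 := Finset.single_le_sum
      (f := fun y => ((univ.filter fun c => φ c x = x ∧ ν c x = y).card - h))
      (fun _ _ => Nat.zero_le _) (mem_univ y)
    have h3 : (univ.filter fun c => φ c x = x ∧ ν c x = y).card - h ≤ 0 :=
      h2.trans (h1.trans hN)
    omega
  | succ N ih =>
    intro ν hν hN
    by_cases hall : ∀ x y, (univ.filter fun c => φ c x = x ∧ ν c x = y).card ≤ h
    · exact ⟨ν, hν, hall⟩
    push Not at hall
    obtain ⟨u, v, hbig⟩ := hall
    -- symmetry of the multiplicities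
    have hsym : ∀ ρ : I → U → U,
        (∀ c x, φ c x = x → φ c (ρ c x) = ρ c x ∧ ρ c x ≠ x ∧ ρ c (ρ c x) = x) → ∀ x y,
        (univ.filter fun c => φ c x = x ∧ ρ c x = y).card =
          (univ.filter fun c => φ c y = y ∧ ρ c y = x).card := by
      intro ρ hρ x y
      congr 1
      apply Finset.filter_congr
      intro c _
      constructor
      · rintro ⟨h1, rfl⟩
        exact ⟨(hρ c x h1).1, (hρ c x h1).2.2⟩
      · rintro ⟨h1, rfl⟩
        exact ⟨(hρ c y h1).1, (hρ c y h1).2.2⟩
    let C : Finset I := univ.filter fun c => φ c u = u ∧ ν c u = v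
    have hCm : ∀ c, c ∈ C ↔ φ c u = u ∧ ν c u = v := by intro c; simp [C]
    have huv : u ≠ v := by
      rintro rfl
      have h1 : C.card = 0 := by
        rw [Finset.card_eq_zero, Finset.filter_eq_empty_iff]
        rintro c - ⟨h1, h2⟩
        exact (hν c u h1).2.1 h2
      have h2 : h < C.card := hbig
      omega
    obtain ⟨c, hcC, hcF⟩ : ∃ c ∈ C, Fx (φ c) ≠ {u, v} := by
      by_contra hno
      push Not at hno
      have h1 : C ⊆ univ.filter fun c => Fx (φ c) = {u, v} := by
        intro c hc
        exact mem_filter.2 ⟨mem_univ _, hno c hc⟩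
      have h2 := Finset.card_le_card h1
      have h3 := hF {u, v} (Finset.card_pair huv)
      have h4 : h < C.card := hbig
      omega
    obtain ⟨hcu, hcuv⟩ := (hCm c).1 hcC
    have hcv : φ c v = v := by rw [← hcuv]; exact (hν c u hcu).1
    have hcvu : ν c v = u := by rw [← hcuv]; exact (hν c u hcu).2.2
    obtain ⟨x, hx, hxu, hxv⟩ : ∃ x, φ c x = x ∧ x ≠ u ∧ x ≠ v := by
      by_contra hno
      push Not at hno
      apply hcF
      ext x
      rw [mem_Fx, mem_insert, mem_singleton]
      constructor
      · intro h1
        by_cases h2 : x = u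
        · exact Or.inl h2
        · exact Or.inr (hno x h1 h2)
      · rintro (rfl | rfl)
        · exact hcu
        · exact hcv
    obtain ⟨y, hy⟩ : ∃ y, y = ν c x := ⟨_, rfl⟩
    obtain ⟨hyf, hyx, hyx'⟩ := hν c x hx
    rw [← hy] at hyf hyx hyx'
    have hyu : y ≠ u := by
      intro h1
      rw [h1, hcuv] at hyx'
      exact hxv hyx'.symm
    have hyv : y ≠ v := by
      intro h1
      rw [h1, hcvu] at hyx'
      exact hxu hyx'.symm
    let s : Equiv.Perm U := Equiv.swap v x
    have hsv : s v = x := Equiv.swap_apply_left _ _
    have hsx : s x = v := Equiv.swap_apply_right _ _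
    have hso : ∀ a, a ≠ v → a ≠ x → s a = a := fun a h1 h2 => Equiv.swap_apply_of_ne_of_ne h1 h2
    have hss : ∀ a, s (s a) = a := fun a => Equiv.swap_apply_self _ _ _
    have hsf : ∀ a, φ c a = a → φ c (s a) = s a := by
      intro a ha
      by_cases h1 : a = v
      · rw [h1, hsv]; exact hx
      · by_cases h2 : a = x
        · rw [h2, hsx]; exact hcv
        · rw [hso a h1 h2]; exact ha
    let ν' : I → U → U := fun e a => if e = c then s (ν c (s a)) else ν e a
    have hν'c : ∀ a, ν' c a = s (ν c (s a)) := by intro a; simp [ν']
    have hν'e : ∀ e, e ≠ c → ∀ a, ν' e a = ν e a := by intro e he a; simp [ν', he]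
    have hval : ∀ e a, φ e a = a → φ e (ν' e a) = ν' e a ∧ ν' e a ≠ a ∧ ν' e (ν' e a) = a := by
      intro e a ha
      by_cases he : e = c
      · subst he
        obtain ⟨h1, h2, h3⟩ := hν e (s a) (hsf a ha)
        rw [hν'c, hν'c]
        refine ⟨hsf _ h1, ?_, ?_⟩
        · intro h4
          apply h2
          rw [← hss (ν e (s a)), h4]
        · rw [hss, h3, hss]
      · rw [hν'e e he, hν'e e he]
        exact hν e a ha
    have hν'u : ν' c u = x := by
      rw [hν'c, hso u huv hxu.symm, hcuv, hsv]
    have hν'v : ν' c v = y := by
      rw [hν'c, hsv, ← hy, hso y hyv hyx]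
    -- the count at the pair u, v
    have hsub : ∀ a b, ν' c a ≠ b → (univ.filter fun e => φ e a = a ∧ ν' e a = b) ⊆
        univ.filter fun e => φ e a = a ∧ ν e a = b := by
      intro a b hab e he
      rw [mem_filter] at he ⊢
      refine ⟨mem_univ _, he.2.1, ?_⟩
      have h1 : e ≠ c := by
        rintro rfl
        exact hab he.2.2
      rw [← hν'e e h1]
      exact he.2.2
    have huv1 : (univ.filter fun e => φ e u = u ∧ ν' e u = v).card + 1 ≤ C.card := by
      have h1 : (univ.filter fun e => φ e u = u ∧ ν' e u = v) ⊆ C.erase c := by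
        intro e he
        rw [mem_erase]
        refine ⟨?_, hsub u v (by rw [hν'u]; exact hxv) he⟩
        rintro rfl
        rw [mem_filter, hν'u] at he
        exact hxv he.2.2
      have h2 := Finset.card_le_card h1
      rw [Finset.card_erase_of_mem hcC] at h2
      have h3 := Finset.card_pos.2 ⟨c, hcC⟩
      omega
    have huv2 : C.card ≤ (univ.filter fun e => φ e u = u ∧ ν' e u = v).card + 1 := by
      have h1 : C.erase c ⊆ (univ.filter fun e => φ e u = u ∧ ν' e u = v) := by
        intro e he
        rw [mem_erase, hCm] at he
        rw [mem_filter, hν'e e he.1]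
        exact ⟨mem_univ _, he.2⟩
      have h2 := Finset.card_le_card h1
      rw [Finset.card_erase_of_mem hcC] at h2
      omega
    -- pairs meeting {u, v} in one vertex
    have hrow : ∀ a b b', b ≠ b' → h ≤ (univ.filter fun e => φ e a = a ∧ ν' e a = b').card →
        (univ.filter fun e => φ e a = a ∧ ν' e a = b).card ≤ h := by
      intro a b b' hbb hb'
      have h1 : Disjoint (univ.filter fun e => φ e a = a ∧ ν' e a = b)
          (univ.filter fun e => φ e a = a ∧ ν' e a = b') := by
        rw [Finset.disjoint_left]
        intro e he he'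
        rw [mem_filter] at he he'
        exact hbb (he.2.2.symm.trans he'.2.2)
      have h2 : (univ.filter fun e => φ e a = a ∧ ν' e a = b) ∪
          (univ.filter fun e => φ e a = a ∧ ν' e a = b') ⊆ univ.filter fun e => φ e a = a := by
        intro e he
        rw [mem_union, mem_filter, mem_filter] at he
        rw [mem_filter]
        refine ⟨mem_univ _, ?_⟩
        rcases he with he | he
        · exact he.2.1
        · exact he.2.1
      have h3 := Finset.card_le_card h2
      rw [Finset.card_union_of_disjoint h1, hfix] at h3
      omega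
    have hCb : h < C.card := hbig
    have hge : h ≤ (univ.filter fun e => φ e u = u ∧ ν' e u = v).card := by omega
    have hge' : h ≤ (univ.filter fun e => φ e v = v ∧ ν' e v = u).card := by
      rw [← hsym ν' hval u v]; exact hge
    have hmono : ∀ a b, (univ.filter fun e => φ e a = a ∧ ν' e a = b).card ≤
        (univ.filter fun e => φ e a = a ∧ ν e a = b).card ∨
        (univ.filter fun e => φ e a = a ∧ ν' e a = b).card ≤ h := by
      intro a b
      by_cases h1 : φ c a = a ∧ ν' c a = b ∧ ν c a ≠ b
      · right
        obtain ⟨h2, h3, h4⟩ := h1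
        by_cases hau : a = u
        · subst hau
          apply hrow a b v ?_ hge
          rw [← h3, hν'u]; exact hxv
        · by_cases hav : a = v
          · subst hav
            apply hrow a b u ?_ hge'
            rw [← h3, hν'v]; exact hyu
          · rw [hsym ν' hval a b]
            by_cases hax : a = x
            · subst hax
              have h5 : b = u := by
                rw [← h3, hν'c, hsx, hcvu, hso u huv (fun h9 => hau h9.symm)]
              subst h5
              exact hrow b a v hav hge
            · by_cases hay : a = y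
              · subst hay
                have h5 : b = v := by
                  rw [← h3, hν'c, hso a hav hax, hyx', hsx]
                subst h5
                exact hrow b a u hau hge'
              · exfalso
                apply h4
                rw [← h3, hν'c, hso a hav hax]
                have h5 : ν c a ≠ v := by
                  intro h6
                  apply hau
                  rw [← (hν c a h2).2.2, h6, hcvu]
                have h6 : ν c a ≠ x := by
                  intro h6
                  apply hay
                  rw [← (hν c a h2).2.2, h6, hy]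
                rw [hso _ h5 h6]
      · left
        apply Finset.card_le_card
        intro e he
        rw [mem_filter] at he ⊢
        refine ⟨mem_univ _, he.2.1, ?_⟩
        by_cases hec : e = c
        · subst hec
          by_contra h2
          exact h1 ⟨he.2.1, he.2.2, h2⟩
        · rw [← hν'e e hec]
          exact he.2.2
    have hlt : ∑ x, ∑ y, ((univ.filter fun c => φ c x = x ∧ ν' c x = y).card - h) <
        ∑ x, ∑ y, ((univ.filter fun c => φ c x = x ∧ ν c x = y).card - h) := by
      have hle : ∀ a b, (univ.filter fun c => φ c a = a ∧ ν' c a = b).card - h ≤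
          (univ.filter fun c => φ c a = a ∧ ν c a = b).card - h := by
        intro a b
        rcases hmono a b with h1 | h1 <;> omega
      apply Finset.sum_lt_sum (fun a _ => Finset.sum_le_sum fun b _ => hle a b)
      refine ⟨u, mem_univ _, ?_⟩
      apply Finset.sum_lt_sum (fun b _ => hle u b)
      refine ⟨v, mem_univ _, ?_⟩
      have h5 : (univ.filter fun c => φ c u = u ∧ ν c u = v).card = C.card := rfl
      omega
    exact ih ν' hval (by omega)

end Pool.Agent.X76.PM
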