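import Pool.Agent.X76.PM15

set_option autoImplicit false

/-!
Multigraphs all of whose multiplicities are close to each other: the induction.
-/

namespace Pool.Agent.X76.PM

open Finset Pool.Agent.X76.Det

/-- an edge colouring of the multigraph `z` with `m` colours -/
def Col {U : Type} [Fintype U] [DecidableEq U] (m : ℕ) (z : U → U → ℕ) : Prop :=
  ∃ φ : Fin m → U → U, (∀ c x, φ c (φ c x) = x) ∧
    ∀ x y, x ≠ y → (univ.filter fun c => φ c x = y).card = z x y

theorem Col.succ {U : Type} [Fintype U] [DecidableEq U] {m : ℕ} {z : U → U → ℕ}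
    (h : Col m z) : Col (m + 1) z := by
  obtain ⟨φ, h1, h2⟩ := h
  refine ⟨Fin.append φ (fun (_ : Fin 1) x => x), ?_, ?_⟩
  · intro c x
    refine Fin.addCases (fun i => ?_) (fun i => ?_) c
    · rw [Fin.append_left]; exact h1 i x
    · rw [Fin.append_right]
  · intro x y hxy
    rw [Finset.card_filter, Fin.sum_univ_add]
    simp only [Fin.append_left, Fin.append_right]
    rw [← Finset.card_filter, h2 x y hxy]
    simp [hxy]

theorem sum_fib {U : Type} [Fintype U] [DecidableEq U] {m : ℕ} (φ : Fin m → U → U) (x : U) :
    ∑ y, (univ.filter fun c => φ c x = y).card = m := by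
  simp_rw [Finset.card_filter]
  rw [Finset.sum_comm]
  simp

theorem fix_card {U : Type} [Fintype U] [DecidableEq U] (z : U → U → ℕ)
    (h0 : ∀ x, z x x = 0) (D t : ℕ) (hd : ∀ x, ∑ y, z x y = D) (φ : Fin (D + t) → U → U)
    (hφz : ∀ x y, x ≠ y → (univ.filter fun c => φ c x = y).card = z x y) (x : U) :
    (univ.filter fun c => φ c x = x).card = t := by
  have h1 := sum_fib φ x
  rw [← Finset.add_sum_erase univ _ (mem_univ x)] at h1
  have h3 : ∑ y ∈ univ.erase x, z x y = D := by
    have h4 := hd x
    rw [← Finset.add_sum_erase univ (fun y => z x y) (mem_univ x), h0, zero_add] at h4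
    exact h4
  have h2 : ∑ y ∈ univ.erase x, (univ.filter fun c => φ c x = y).card = D :=
    (Finset.sum_congr rfl fun y hy => hφz x y (Finset.ne_of_mem_erase hy).symm).trans h3
  rw [h2] at h1
  omega

theorem pairings {U I : Type} [Fintype U] [DecidableEq U] (hev : Even (Fintype.card U))
    (φ : I → U → U) (hφ : ∀ c x, φ c (φ c x) = x) :
    ∃ ν : I → U → U, ∀ c x, φ c x = x → φ c (ν c x) = ν c x ∧ ν c x ≠ x ∧ ν c (ν c x) = x := by
  have hpair : ∀ c, ∃ ν : U → U, ∀ x ∈ Fx (φ c), ν x ∈ Fx (φ c) ∧ ν x ≠ x ∧ ν (ν x) = x := by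
    intro c
    obtain ⟨k, hk⟩ : ∃ k, (Fx (φ c)).card = 2 * k := by
      have h1 := fix_parity (φ c) (hφ c) univ (fun x _ => mem_univ _)
      have h2 := Finset.card_filter_add_card_filter_not (s := (univ : Finset U))
        (fun w => φ c w = w)
      have h3 : (univ.filter fun x => φ c x ≠ x).card =
        (univ.filter fun x => ¬ (φ c x = x)).card := rfl
      have h4 : (Fx (φ c)).card = (univ.filter fun w => φ c w = w).card := rfl
      rw [Finset.card_univ] at h2
      obtain ⟨i, hi⟩ := h1
      obtain ⟨j, hj⟩ := hev
      exact ⟨j - i, by omega⟩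
    exact exists_pairing k _ hk
  choose ν0 hν0 using hpair
  refine ⟨ν0, ?_⟩
  intro c x hx
  obtain ⟨h1, h2, h3⟩ := hν0 c x ((mem_Fx _ _).2 hx)
  exact ⟨(mem_Fx _ _).1 h1, h2, h3⟩

theorem complete {U : Type} [Fintype U] [DecidableEq U] (z : U → U → ℕ)
    (h0 : ∀ x, z x x = 0) (D t : ℕ) (hd : ∀ x, ∑ y, z x y = D) (φ : Fin (D + t) → U → U)
    (hφ : ∀ c x, φ c (φ c x) = x)
    (hφz : ∀ x y, x ≠ y → (univ.filter fun c => φ c x = y).card = z x y)
    (ν : Fin (D + t) → U → U)
    (hν : ∀ c x, φ c x = x → φ c (ν c x) = ν c x ∧ ν c x ≠ x ∧ ν c (ν c x) = x)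
    (Y : U → U → ℕ) (hY : Y = fun x y => (univ.filter fun c => φ c x = x ∧ ν c x = y).card) :
    ∃ σ : Fin (D + t) → U → U, (∀ c x, σ c (σ c x) = x) ∧
      (∀ x y, Y x y = Y y x) ∧ (∀ x, Y x x = 0) ∧ (∀ x, ∑ y, Y x y = t) ∧
      ∀ x y, (univ.filter fun c => σ c x = y).card = z x y + Y x y := by
  classical
  subst hY
  let σ : Fin (D + t) → U → U := fun c x => if φ c x = x then ν c x else φ c x
  let Y : U → U → ℕ := fun x y => (univ.filter fun c => φ c x = x ∧ ν c x = y).card
  have hσne : ∀ c x, σ c x ≠ x := by
    intro c x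
    simp only [σ]
    split_ifs with h1
    · exact (hν c x h1).2.1
    · exact h1
  have hcount : ∀ x y, (univ.filter fun c => σ c x = y).card = z x y + Y x y := by
    intro x y
    by_cases hxy : x = y
    · subst hxy
      rw [h0, zero_add]
      have h1 : (univ.filter fun c => σ c x = x) = ∅ := by
        rw [Finset.filter_eq_empty_iff]
        intro c _
        exact hσne c x
      have h2 : (univ.filter fun c => φ c x = x ∧ ν c x = x) = ∅ := by
        rw [Finset.filter_eq_empty_iff]
        rintro c - ⟨h2, h3⟩
        exact (hν c x h2).2.1 h3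
      simp only [Y]
      rw [h1, h2]
    · rw [← hφz x y hxy]
      simp only [Y]
      rw [← Finset.card_union_of_disjoint]
      · congr 1
        ext c
        simp only [mem_filter, mem_univ, true_and, mem_union, σ]
        by_cases h1 : φ c x = x
        · rw [if_pos h1]
          constructor
          · intro h2; exact Or.inr ⟨h1, h2⟩
          · rintro (h2 | h2)
            · exact absurd (h1.symm.trans h2) hxy
            · exact h2.2
        · rw [if_neg h1]
          constructor
          · intro h2; exact Or.inl h2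
          · rintro (h2 | h2)
            · exact h2
            · exact absurd h2.1 h1
      · rw [Finset.disjoint_left]
        intro c hc hc'
        rw [mem_filter] at hc hc'
        exact hxy (hc'.2.1.symm.trans hc.2)
  refine ⟨σ, ?_, ?_, ?_, ?_, hcount⟩
  · intro c x
    by_cases h1 : φ c x = x
    · have h2 := hν c x h1
      simp only [σ, h1, if_true, h2.1, h2.2.2]
    · have h2 : ¬ (φ c (φ c x) = φ c x) := by
        rw [hφ]
        exact fun h3 => h1 h3.symm
      simp only [σ, h1, if_false, h2]
      exact hφ c x
  · intro x y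
    show Y x y = Y y x
    simp only [Y]
    congr 1
    apply Finset.filter_congr
    intro c _
    constructor
    · rintro ⟨h1, rfl⟩
      exact ⟨(hν c x h1).1, (hν c x h1).2.2⟩
    · rintro ⟨h1, rfl⟩
      exact ⟨(hν c y h1).1, (hν c y h1).2.2⟩
  · intro x
    show Y x x = 0
    simp only [Y]
    rw [Finset.card_eq_zero, Finset.filter_eq_empty_iff]
    rintro c - ⟨h2, h3⟩
    exact (hν c x h2).2.1 h3
  · intro x
    have h1 := sum_fib σ x
    have h2 : ∑ y, (univ.filter fun c => σ c x = y).card = ∑ y, z x y + ∑ y, Y x y := by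
      rw [← Finset.sum_add_distrib]
      exact Finset.sum_congr rfl fun y _ => hcount x y
    rw [h2, hd] at h1
    show ∑ y, Y x y = t
    omega

theorem spread {U : Type} [Fintype U] [DecidableEq U] (hU : 2 < Fintype.card U)
    (hev : Even (Fintype.card U)) (z : U → U → ℕ)
    (h0 : ∀ x, z x x = 0) (t h D : ℕ) (hth : t ≤ 2 * h) (hz : Col (D + t) z)
    (hd : ∀ x, ∑ y, z x y = D) :
    ∃ (σ : Fin (D + t) → U → U) (Y : U → U → ℕ), (∀ c x, σ c (σ c x) = x) ∧
      (∀ x y, Y x y = Y y x) ∧ (∀ x, Y x x = 0) ∧ (∀ x y, Y x y ≤ h) ∧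
      (∀ x, ∑ y, Y x y = t) ∧
      ∀ x y, (univ.filter fun c => σ c x = y).card = z x y + Y x y := by
  classical
  obtain ⟨φ0, hφ0, hφ0z⟩ := hz
  have hfix0 := fix_card z h0 D t hd φ0 hφ0z
  obtain ⟨φ, hφ, hφ1, hφ2⟩ := phase1 t h hth hU _ φ0 hφ0 hfix0 le_rfl
  have hfix : ∀ x, (univ.filter fun c => φ c x = x).card = t := by
    intro x; rw [hφ1, hfix0]
  have hφz : ∀ x y, x ≠ y → (univ.filter fun c => φ c x = y).card = z x y := by
    intro x y hxy; rw [hφ1, hφ0z x y hxy]
  obtain ⟨ν0, hν0⟩ := pairings hev φ hφ
  obtain ⟨ν, hν, hνh⟩ := phase2 t h hth φ hfix hφ2 _ ν0 hν0 le_rfl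
  obtain ⟨σ, g1, g2, g3, g4, g5⟩ := complete z h0 D t hd φ hφ hφz ν hν _ rfl
  exact ⟨σ, _, g1, g2, g3, hνh, g4, g5⟩

/-- a decomposition into `r` perfect matchings -/
def Dec {W : Type} [Fintype W] [DecidableEq W] (r : ℕ) (b : W → W → ℕ) : Prop :=
  ∃ σ : Fin r → W → W, (∀ i x, σ i (σ i x) = x) ∧
    ∀ x y, (univ.filter fun i => σ i x = y).card = b x y

theorem Dec.add {W : Type} [Fintype W] [DecidableEq W] {r r' : ℕ} {b b' : W → W → ℕ}
    (h : Dec r b) (h' : Dec r' b') : Dec (r + r') (fun x y => b x y + b' x y) := by
  obtain ⟨σ, h1, h2⟩ := h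
  obtain ⟨σ', h1', h2'⟩ := h'
  refine ⟨Fin.append σ σ', ?_, ?_⟩
  · intro i x
    refine Fin.addCases (fun i => ?_) (fun i => ?_) i
    · rw [Fin.append_left]; exact h1 i x
    · rw [Fin.append_right]; exact h1' i x
  · intro x y
    rw [Finset.card_filter, Fin.sum_univ_add]
    simp only [Fin.append_left, Fin.append_right]
    rw [← Finset.card_filter, ← Finset.card_filter, h2, h2']

theorem Dec.of_cover {W : Type} [Fintype W] [DecidableEq W] {r : ℕ} {b : W → W → ℕ}
    (h : HasCover 1 r b) : Dec r b := by
  obtain ⟨σ, h1, h2⟩ := h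
  have e : r = 1 * r := (one_mul r).symm
  refine ⟨fun i => σ (Fin.cast e i), fun i x => (h1 _ x).1, fun x y => ?_⟩
  rw [← one_mul (b x y), ← h2 x y, card_sub]
  refine Finset.card_bij' (fun i _ => Fin.cast e i) (fun i _ => Fin.cast e.symm i) ?_ ?_ ?_ ?_
  · intro i hi
    rw [mem_filter] at hi ⊢
    exact ⟨mem_univ _, hi.2⟩
  · intro i hi
    rw [mem_filter] at hi ⊢
    exact ⟨mem_univ _, hi.2⟩
  · intro i _; rfl
  · intro i _; rfl

/-- the multigraph with `l` edges between any two vertices and the additional edges `z` -/
def bK {W : Type} [DecidableEq W] (l : ℕ) (z : W → W → ℕ) (x y : W) : ℕ :=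
  if x = y then 0 else l + z x y

theorem bK_deg {W : Type} [Fintype W] [DecidableEq W] (l : ℕ) (z : W → W → ℕ)
    (h0 : ∀ x, z x x = 0) (D : ℕ) (hd : ∀ x, ∑ y, z x y = D) (x : W) :
    ∑ y, bK l z x y = l * (Fintype.card W - 1) + D := by
  rw [← Finset.add_sum_erase univ _ (mem_univ x)]
  have h1 : bK l z x x = 0 := if_pos rfl
  have h2 : ∑ y ∈ univ.erase x, bK l z x y = ∑ y ∈ univ.erase x, (l + z x y) := by
    apply Finset.sum_congr rfl
    intro y hy
    exact if_neg (Finset.ne_of_mem_erase hy).symm
  have h3 : ∑ y ∈ univ.erase x, z x y = D := by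
    rw [← hd x, ← Finset.add_sum_erase univ (fun y => z x y) (mem_univ x), h0, zero_add]
  rw [h1, h2, Finset.sum_add_distrib, h3, Finset.sum_const,
    Finset.card_erase_of_mem (mem_univ x), Finset.card_univ, smul_eq_mul, zero_add, mul_comm]

/-- multiplicities `l` and `l + 1` -/
theorem dec_base {W : Type} [Fintype W] [DecidableEq W] (hW : Even (Fintype.card W))
    (hW0 : 0 < Fintype.card W) (l : ℕ) (hl : 1 ≤ l) (z : W → W → ℕ)
    (hs : ∀ x y, z x y = z y x) (h0 : ∀ x, z x x = 0) (hz : ∀ x y, z x y ≤ 1) (D : ℕ)
    (hd : ∀ x, ∑ y, z x y = D) : Dec (l * (Fintype.card W - 1) + D) (bK l z) := by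
  classical
  let H : SimpleGraph W :=
    { Adj := fun x y => z x y = 1
      symm := ⟨fun x y h => (hs y x).trans h⟩
      loopless := ⟨fun x h => by rw [h0] at h; exact absurd h (by omega)⟩ }
  have hne : Nonempty W := Fintype.card_pos_iff.1 hW0
  obtain ⟨x0⟩ := hne
  have hS : Sub (bK l z) (fun _ : W => ()) (fun _ _ => l) H := by
    refine ⟨fun _ _ => rfl, fun _ => ⟨x0, rfl⟩, fun _ _ _ => rfl, fun x => if_pos rfl, ?_, ?_⟩
    · intro x y hxy
      have h1 : x ≠ y := H.ne_of_adj hxy
      have h2 : z x y = 1 := hxy
      rw [bK, if_neg h1, h2]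
    · intro x y hxy hn
      have h2 : z x y ≠ 1 := hn
      have h3 := hz x y
      rw [bK, if_neg hxy]
      omega
  apply Dec.of_cover
  apply cover_even (bK l z) (fun _ : W => ()) (fun _ _ => l) H hS _ D (bK_deg l z h0 D hd)
  · intro x
    rw [← hd x]
    have h1 : H.neighborSet x = ↑(univ.filter fun y => z x y = 1) := by
      ext y
      simp [H]
    rw [h1, Set.ncard_coe_finset, Finset.card_filter]
    apply Finset.sum_congr rfl
    intro y _
    have h3 := hz x y
    split_ifs with h4
    · exact h4.symm
    · omega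
  · have h2 : 2 ≤ Fintype.card W := by
      obtain ⟨k, hk⟩ := hW
      omega
    have h3 : 0 < l * (Fintype.card W - 1) := Nat.mul_pos hl (by omega)
    omega
  · intro v
    have h1 : {w : W | (fun _ => ()) w = v} = Set.univ := by
      ext w
      simp
    rw [h1, Set.ncard_univ, Nat.card_eq_fintype_card]
    exact hW

/-- the complement of a perfect matching -/
theorem dec_minus {W : Type} [Fintype W] [DecidableEq W] (hW2 : 2 < Fintype.card W)
    (N : W → W) (hN : ∀ x, N (N x) = x) (hN' : ∀ x, N x ≠ x) :
    Dec (Fintype.card W - 2) (fun x y => if x = y ∨ N x = y then 0 else 1) := by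
  classical
  have hfib : ∀ x y : W, ({x, N x} : Finset W) = {y, N y} ↔ x = y ∨ N x = y := by
    intro x y
    constructor
    · intro h
      have h1 : y ∈ ({x, N x} : Finset W) := by rw [h]; simp
      rw [mem_insert, mem_singleton] at h1
      rcases h1 with h1 | h1
      · exact Or.inl h1.symm
      · exact Or.inr h1.symm
    · rintro (rfl | rfl)
      · rfl
      · rw [hN, Finset.pair_comm]
  let V : Type := {P : Finset W // ∃ x, P = {x, N x}}
  let f : W → V := fun x => ⟨{x, N x}, x, rfl⟩
  let a : V → V → ℕ := fun u v => if u = v then 0 else 1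
  have hfeq : ∀ x y, f x = f y ↔ x = y ∨ N x = y := by
    intro x y
    rw [← hfib]
    exact Subtype.mk_eq_mk
  have hS : Sub (fun x y => if x = y ∨ N x = y then 0 else 1) f a ⊥ := by
    refine ⟨?_, ?_, fun _ _ h => h.elim, fun x => if_pos (Or.inl rfl), fun _ _ h => h.elim, ?_⟩
    · intro u v
      simp only [a, eq_comm]
    · rintro ⟨P, x, rfl⟩
      exact ⟨x, rfl⟩
    · intro x y hxy _
      simp only [a, hfeq]
  apply Dec.of_cover
  apply cover_even _ f a ⊥ hS (Fintype.card W - 2) 0
  · intro x
    have h1 : ∑ y, (if x = y ∨ N x = y then 0 else 1) =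
        (univ \ ({x, N x} : Finset W)).card := by
      rw [Finset.card_eq_sum_ones, ← Finset.sum_filter_add_sum_filter_not univ
        (fun y => x = y ∨ N x = y)]
      rw [Finset.sum_eq_zero (fun y hy => if_pos (mem_filter.1 hy).2), zero_add]
      apply Finset.sum_congr
      · ext y
        rw [mem_filter, mem_sdiff, mem_insert, mem_singleton]
        constructor
        · rintro ⟨h1, h2⟩
          exact ⟨h1, fun h3 => h2 (h3.elim (fun h => Or.inl h.symm) fun h => Or.inr h.symm)⟩
        · rintro ⟨h1, h2⟩
          exact ⟨h1, fun h3 => h2 (h3.elim (fun h => Or.inl h.symm) fun h => Or.inr h.symm)⟩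
      · intro y hy
        exact if_neg (fun h => (mem_sdiff.1 hy).2 (by
          rw [mem_insert, mem_singleton]
          exact h.elim (fun h => Or.inl h.symm) fun h => Or.inr h.symm))
    rw [h1, Finset.card_sdiff_of_subset (subset_univ _), Finset.card_univ,
      Finset.card_pair (hN' x).symm]
  · intro x
    have : (⊥ : SimpleGraph W).neighborSet x = ∅ := by
      ext y; simp
    rw [this, Set.ncard_empty]
  · omega
  · intro v
    obtain ⟨P, x, rfl⟩ := v
    have h1 : {w | f w = ⟨{x, N x}, x, rfl⟩} = ({x, N x} : Set W) := by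
      ext w
      have h2 : (f w = ⟨{x, N x}, x, rfl⟩) ↔ (f w = f x) := Iff.rfl
      simp only [Set.mem_setOf_eq, Set.mem_insert_iff, Set.mem_singleton_iff]
      rw [h2, hfeq]
      constructor
      · rintro (h3 | h3)
        · exact Or.inl h3
        · right; rw [← h3, hN]
      · rintro (h3 | h3)
        · exact Or.inl h3
        · right; rw [h3, hN]
    rw [h1, Set.ncard_pair (hN' x).symm]
    decide

/-- extending a matching -/
theorem extend_matching {W : Type} [Fintype W] [DecidableEq W] (hW : Even (Fintype.card W))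
    (P : W → W → Prop) (hs : ∀ x y, P x y → P y x) (hP : ∀ x, ¬ P x x)
    (hu : ∀ x y y', P x y → P x y' → y = y') :
    ∃ N : W → W, (∀ x, N (N x) = x) ∧ (∀ x, N x ≠ x) ∧ ∀ x y, P x y → N x = y := by
  classical
  let f : W → W := fun x => if h : ∃ y, P x y then h.choose else x
  have hf1 : ∀ x y, P x y → f x = y := by
    intro x y hxy
    have h : ∃ y, P x y := ⟨y, hxy⟩
    simp only [f, dif_pos h]
    exact hu x _ _ h.choose_spec hxy
  have hf2 : ∀ x, (¬ ∃ y, P x y) → f x = x := by
    intro x hx
    simp only [f, dif_neg hx]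
  have hff : ∀ x, f (f x) = x := by
    intro x
    by_cases h : ∃ y, P x y
    · obtain ⟨y, hy⟩ := h
      rw [hf1 x y hy, hf1 y x (hs x y hy)]
    · rw [hf2 x h, hf2 x h]
  obtain ⟨ν, hν⟩ := pairings hW (fun _ : Unit => f) (fun _ => hff)
  have hν' := hν ()
  refine ⟨fun x => if f x = x then ν () x else f x, ?_, ?_, ?_⟩
  · intro x
    by_cases h1 : f x = x
    · have h2 := hν' x h1
      simp only [h1, if_true, h2.1, h2.2.2]
    · have h2 : ¬ (f (f x) = f x) := by
        rw [hff]
        exact fun h3 => h1 h3.symm
      simp only [h1, if_false, h2]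
      exact hff x
  · intro x
    by_cases h1 : f x = x
    · simp only [h1, if_true]
      exact (hν' x h1).2.1
    · simp only [h1, if_false]
      exact h1
  · intro x y hxy
    have h1 : f x = y := hf1 x y hxy
    have h2 : f x ≠ x := by
      rw [h1]
      rintro rfl
      exact hP _ hxy
    simp only [h2, if_false]
    exact h1

/-- **The main induction.** -/
theorem dec_all {W : Type} [Fintype W] [DecidableEq W] (hW : Even (Fintype.card W))
    (hW2 : 2 < Fintype.card W) (l : ℕ) : ∀ (z : W → W → ℕ), (∀ x, z x x = 0) →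
      ∀ D, Col (D + l) z → (∀ x, ∑ y, z x y = D) → ∃ r, Dec r (bK l z) := by
  classical
  induction l using Nat.strong_induction_on with
  | _ l ih =>
    intro z h0 D hz hd
    by_cases hl0 : l = 0
    · subst hl0
      have hfix := fix_card z h0 D 0 hd
      obtain ⟨φ, hφ, hφz⟩ := hz
      refine ⟨D, φ, hφ, ?_⟩
      intro x y
      by_cases hxy : x = y
      · subst hxy
        rw [bK, if_pos rfl]
        exact hfix φ hφz x
      · rw [bK, if_neg hxy, zero_add]
        exact hφz x y hxy
    · obtain ⟨h, hh⟩ : ∃ h, l = 2 * h ∨ l = 2 * h + 1 := by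
        rcases Nat.even_or_odd' l with ⟨h, hh⟩
        exact ⟨h, hh⟩
      have hsumc : ∀ (c : ℕ) (x : W), ∑ y, (if x = y then 0 else c) =
          (Fintype.card W - 1) * c := by
        intro c x
        rw [← Finset.add_sum_erase univ _ (mem_univ x), if_pos rfl, zero_add]
        have e2 : ∑ y ∈ univ.erase x, (if x = y then 0 else c) = ∑ y ∈ univ.erase x, c := by
          apply Finset.sum_congr rfl
          intro y hy
          exact if_neg (Finset.ne_of_mem_erase hy).symm
        rw [e2, Finset.sum_const, Finset.card_erase_of_mem (mem_univ x), Finset.card_univ,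
          smul_eq_mul]
      rcases hh with hh | hh
      · -- even `l`
        subst hh
        obtain ⟨σ, Y, h1, h2, h3, h4, h5, h6⟩ := spread hW2 hW z h0 (2 * h) h D le_rfl hz hd
        let z' : W → W → ℕ := fun x y => if x = y then 0 else h - Y x y
        have hz'Y : ∀ x y, z' x y + Y x y = if x = y then 0 else h := by
          intro x y
          simp only [z']
          by_cases hxy : x = y
          · subst hxy
            rw [if_pos rfl, if_pos rfl, h3]
          · rw [if_neg hxy, if_neg hxy]
            have := h4 x y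
            omega
        have hd' : ∀ x, ∑ y, z' x y = (Fintype.card W - 1) * h - 2 * h := by
          intro x
          have e1 : ∑ y, z' x y + ∑ y, Y x y = (Fintype.card W - 1) * h := by
            rw [← Finset.sum_add_distrib, Finset.sum_congr rfl fun y _ => hz'Y x y, hsumc]
          rw [h5] at e1
          omega
        have hcol := mvizing z' (by
            intro x y
            simp only [z']
            by_cases hxy : x = y
            · subst hxy; rfl
            · rw [if_neg hxy, if_neg (Ne.symm hxy), h2 x y])
          h _ (fun x => x) (by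
            intro x y
            simp only [z']
            split_ifs <;> omega) (fun x => (hd' x).le)
        obtain ⟨r, hr⟩ := ih h (by omega) z' (fun x => if_pos rfl) _ hcol hd'
        have hσ : Dec (D + 2 * h) (fun x y => z x y + Y x y) := ⟨σ, h1, h6⟩
        have h7 := hr.add hσ
        have h8 : (fun x y => bK h z' x y + (z x y + Y x y)) = bK (2 * h) z := by
          funext x y
          have h9 := hz'Y x y
          by_cases hxy : x = y
          · subst hxy
            simp [bK, h0, h3]
          · rw [if_neg hxy] at h9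
            simp only [bK, if_neg hxy]
            omega
        rw [h8] at h7
        exact ⟨_, h7⟩
      · -- odd `l`
        subst hh
        obtain ⟨σ, Y, h1, h2, h3, h4, h5, h6⟩ := spread hW2 hW z h0 (2 * h + 1) (h + 1) D
          (by omega) hz hd
        obtain ⟨N, hN1, hN2, hN3⟩ := extend_matching hW (fun x y => Y x y = h + 1)
          (fun x y hxy => (h2 y x).trans hxy) (fun x hx => by rw [h3] at hx; omega) (by
            intro x y y' hy hy'
            by_contra hne
            have h9 : Y x y + Y x y' ≤ 2 * h + 1 := by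
              rw [← h5 x, ← Finset.sum_pair (f := fun y => Y x y) hne]
              exact Finset.sum_le_sum_of_subset (Finset.subset_univ _)
            omega)
        let z' : W → W → ℕ := fun x y => if x = y then 0 else h + (if N x = y then 1 else 0) - Y x y
        have hz'Y : ∀ x y, z' x y + Y x y = (if x = y then 0 else h) +
            (if N x = y then 1 else 0) := by
          intro x y
          simp only [z']
          by_cases hxy : x = y
          · subst hxy
            rw [if_pos rfl, if_pos rfl, h3, if_neg (hN2 x)]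
          · rw [if_neg hxy, if_neg hxy]
            have h9 := h4 x y
            have h10 : ¬ (N x = y) → Y x y ≠ h + 1 := fun h11 h12 => h11 (hN3 x y h12)
            by_cases h11 : N x = y
            · rw [if_pos h11]; omega
            · have := h10 h11
              rw [if_neg h11]; omega
        have hd' : ∀ x, ∑ y, z' x y = (Fintype.card W - 1) * h - 2 * h := by
          intro x
          have e1 : ∑ y, z' x y + ∑ y, Y x y = (Fintype.card W - 1) * h + 1 := by
            rw [← Finset.sum_add_distrib, Finset.sum_congr rfl fun y _ => hz'Y x y,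
              Finset.sum_add_distrib, hsumc]
            congr 1
            rw [Finset.sum_ite_eq univ (N x) (fun _ => 1), if_pos (mem_univ _)]
          rw [h5] at e1
          omega
        have hcol := mvizing z' (by
            intro x y
            simp only [z']
            by_cases hxy : x = y
            · subst hxy; rfl
            · rw [if_neg hxy, if_neg (Ne.symm hxy), h2 x y]
              by_cases h11 : N x = y
              · rw [if_pos h11, if_pos (by rw [← h11, hN1])]
              · rw [if_neg h11, if_neg (fun h12 => h11 (by rw [← h12, hN1]))])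
          h _ N (by
            intro x y
            simp only [z']
            split_ifs <;> omega) (fun x => (hd' x).le)
        obtain ⟨r, hr⟩ := ih h (by omega) z' (fun x => if_pos rfl) _ hcol hd'
        have hσ : Dec (D + (2 * h + 1)) (fun x y => z x y + Y x y) := ⟨σ, h1, h6⟩
        have h7 := (hr.add hσ).add (dec_minus hW2 N hN1 hN2)
        have h8 : (fun x y => bK h z' x y + (z x y + Y x y) +
            (if x = y ∨ N x = y then 0 else 1)) = bK (2 * h + 1) z := by
          funext x y
          have h9 := hz'Y x y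
          by_cases hxy : x = y
          · subst hxy
            simp [bK, h0, h3]
          · rw [if_neg hxy] at h9
            by_cases h11 : N x = y
            · rw [if_pos h11] at h9
              rw [if_pos (Or.inr h11)]
              simp only [bK, if_neg hxy]
              omega
            · rw [if_neg h11] at h9
              rw [if_neg (fun h12 => h12.elim hxy h11)]
              simp only [bK, if_neg hxy]
              omega
        rw [h8] at h7
        exact ⟨_, h7⟩

/-- the main theorem -/
theorem near_uniform {W : Type} [Fintype W] (hW : Even (Fintype.card W))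
    (b : W → W → ℕ) (hs : ∀ x y, b x y = b y x) (h0 : ∀ x, b x x = 0) (r : ℕ)
    (hr : ∀ x, ∑ y, b x y = r) (l : ℕ) (hbl : ∀ x y, x ≠ y → l ≤ b x y)
    (hcol : (∀ x y, x ≠ y → b x y ≤ 2 * l ∨ r ≤ b x y + l * (Fintype.card W - 1)) ∨
      ((∀ x y, b x y ≤ 2 * l + 1) ∧
        ∀ x y y', b x y = 2 * l + 1 → b x y' = 2 * l + 1 → y = y') ∨
      ∃ φ : Fin (r - l * (Fintype.card W - 1) + l) → W → W, (∀ c x, φ c (φ c x) = x) ∧
        ∀ x y, x ≠ y → Nat.card {c // φ c x = y} = b x y - l) (k : ℕ) : HasCover k r b := by
  classical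
  rcases isEmpty_or_nonempty W with hE | hne
  · exact ⟨fun _ x => x, fun _ x => (hE.false x).elim, fun x => (hE.false x).elim⟩
  obtain ⟨x0⟩ := hne
  have hpos : 0 < Fintype.card W := Fintype.card_pos_iff.2 ⟨x0⟩
  -- it is enough to find a decomposition
  have hred : (∃ q, Dec q b) → HasCover k r b := by
    rintro ⟨q, σ, h1, h2⟩
    have hq : Fintype.card (Fin q) = r := by
      rw [Fintype.card_fin, ← hr x0, Finset.sum_congr rfl fun y _ => (h2 x0 y).symm]
      simp_rw [Finset.card_filter]
      rw [Finset.sum_comm]
      simp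
    exact cover_of r hq b h0 σ h1 h2 k
  apply hred
  have hsub : ∀ l, (∀ x y, x ≠ y → l ≤ b x y) →
      b = bK l (fun x y => if x = y then 0 else b x y - l) := by
    intro l hl
    funext x y
    by_cases hxy : x = y
    · subst hxy
      rw [h0, bK, if_pos rfl]
    · have := hl x y hxy
      rw [bK, if_neg hxy, if_neg hxy]
      omega
  have hzs : ∀ l x y, (if x = y then 0 else b x y - l) = (if y = x then 0 else b y x - l) := by
    intro l x y
    by_cases hxy : x = y
    · subst hxy; rfl
    · rw [if_neg hxy, if_neg (Ne.symm hxy), hs]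
  have hzd : ∀ l, (∀ x y, x ≠ y → l ≤ b x y) →
      ∃ D, ∀ x, ∑ y, (if x = y then 0 else b x y - l) = D := by
    intro l hl
    refine ⟨r - (Fintype.card W - 1) * l, ?_⟩
    intro x
    have h1 : ∑ y, (if x = y then 0 else b x y - l) + (Fintype.card W - 1) * l = r := by
      rw [← hr x, ← Finset.add_sum_erase univ _ (mem_univ x), if_pos rfl, zero_add,
        ← Finset.add_sum_erase univ (fun y => b x y) (mem_univ x), h0, zero_add]
      have h2 : (Fintype.card W - 1) * l = ∑ y ∈ univ.erase x, l := by
        rw [Finset.sum_const, Finset.card_erase_of_mem (mem_univ x), Finset.card_univ,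
          smul_eq_mul]
      rw [h2, ← Finset.sum_add_distrib]
      apply Finset.sum_congr rfl
      intro y hy
      have h3 : x ≠ y := (Finset.ne_of_mem_erase hy).symm
      have h4 := hl x y h3
      rw [if_neg h3]
      omega
    omega
  by_cases hW2 : 2 < Fintype.card W
  · obtain ⟨D, hD⟩ := hzd l hbl
    have hDr : D = r - l * (Fintype.card W - 1) := by
      have h1 := bK_deg l (fun x y => if x = y then 0 else b x y - l) (fun x => if_pos rfl) D hD x0
      rw [← hsub l hbl, hr] at h1
      omega
    have hC : Col (D + l) (fun x y => if x = y then 0 else b x y - l) := by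
      rcases hcol with hcol | ⟨hcol1, hcol2⟩ | ⟨φ, h1, h2⟩
      · exact mshannon _ (hzs l) (fun x => if_pos rfl) l D (by
          intro x y hxy
          have h1 := hcol x y hxy
          have h2 := hbl x y hxy
          rw [if_neg hxy]
          rcases h1 with h1 | h1
          · left; omega
          · right; omega) (fun x => (hD x).le)
      · let E : W → W := fun x => if h : ∃ y, b x y = 2 * l + 1 then h.choose else x
        exact mvizing _ (hzs l) l D E (by
          intro x y
          by_cases hxy : x = y
          · rw [if_pos hxy]; exact Nat.zero_le _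
          · rw [if_neg hxy]
            have h1 := hcol1 x y
            by_cases h2 : b x y = 2 * l + 1
            · have h3 : ∃ y, b x y = 2 * l + 1 := ⟨y, h2⟩
              have h4 : E x = y := by
                simp only [E, dif_pos h3]
                exact hcol2 x _ _ h3.choose_spec h2
              rw [if_pos h4]
              omega
            · omega) (fun x => (hD x).le)
      · rw [hDr]
        refine ⟨φ, h1, ?_⟩
        intro x y hxy
        show (univ.filter fun c => φ c x = y).card = if x = y then 0 else b x y - l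
        rw [if_neg hxy, ← h2 x y hxy, card_sub]
    have hmain := dec_all hW hW2 l _ (fun x => if_pos rfl) D hC hD
    rw [← hsub l hbl] at hmain
    exact hmain
  · -- two vertices
    have hcard : Fintype.card W = 2 := by
      obtain ⟨j, hj⟩ := hW
      omega
    have hbr : ∀ x y, x ≠ y → b x y = r := by
      intro x y hxy
      have h1 : (univ : Finset W) = {x, y} := by
        symm
        apply Finset.eq_univ_of_card
        rw [Finset.card_pair hxy, hcard]
      have h2 := hr x
      rw [h1, Finset.sum_pair hxy, h0, zero_add] at h2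
      exact h2
    by_cases hr0 : r = 0
    · refine ⟨0, fun _ x => x, fun i _ => i.elim0, ?_⟩
      intro x y
      have h1 : b x y = 0 := by
        by_cases hxy : x = y
        · subst hxy; exact h0 x
        · rw [hbr x y hxy, hr0]
      rw [h1]
      simp
    · obtain ⟨D, hD⟩ := hzd r fun x y hxy => (hbr x y hxy).ge
      have hmain := dec_base hW hpos r (by omega) (fun x y => if x = y then 0 else b x y - r)
        (hzs r) (fun x => if_pos rfl) (by
          intro x y
          by_cases hxy : x = y
          · rw [if_pos hxy]; exact Nat.zero_le _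
          · rw [if_neg hxy, hbr x y hxy]
            omega) D hD
      rw [← hsub r fun x y hxy => (hbr x y hxy).ge] at hmain
      exact ⟨_, hmain⟩

end Pool.Agent.X76.PM
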