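import Pool.Agent.X76.PM6

set_option autoImplicit false

/-!
Regular multigraphs of even degree are unions of two-factors (Petersen).
-/

namespace Pool.Agent.X76.PM

open Finset Pool.Agent.X76.Det

theorem two_factors {X : Type} [Fintype X] (N : ℕ) (w : X → X → ℕ)
    (hs : ∀ x y, w x y = w y x) (h0 : ∀ x, Even (w x x)) (hd : ∀ x, ∑ y, w x y = 2 * N) :
    ∃ W : Fin N → X → X → ℕ, (∀ j x y, W j x y = W j y x) ∧ (∀ j x, ∑ y, W j x y = 2) ∧
      (∀ j x, Even (W j x x)) ∧ ∀ x y, ∑ j, W j x y = w x y := by
  classical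
  obtain ⟨o, ho1, ho2, ho3⟩ := orientL w hs h0 (fun _ => N) hd
  obtain ⟨T, hT1, hT2, hT3, -⟩ := classes N (fun _ : X => 1) (fun _ => 1) o
    (fun x => by rw [ho2, mul_one]) (fun y => by rw [ho3, mul_one])
  refine ⟨fun j x y => T j x y + T j y x, fun j x y => add_comm _ _, ?_, ?_, ?_⟩
  · intro j x
    rw [Finset.sum_add_distrib, hT1, hT2]
  · intro j x
    exact Even.add_self _
  · intro x y
    rw [Finset.sum_add_distrib, hT3, hT3, ho1]

/-- unions of two-factors with prescribed degrees, and given perfect matchings -/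
theorem outline {X C : Type} [Fintype X] [DecidableEq X] [Fintype C] [DecidableEq C] (ε : ℕ)
    (F : C → X → X) (hF : ε ≠ 0 → ∀ c x, F c (F c x) = x ∧ F c x ≠ x) (h : C → ℕ) (w : X → X → ℕ)
    (hs : ∀ x y, w x y = w y x) (h0 : ∀ x, Even (w x x))
    (hd : ∀ x, ∑ y, w x y = ∑ c, (ε + 2 * h c))
    (hle : ∀ x y, ∑ c, ε * (if F c x = y then 1 else 0) ≤ w x y) :
    ∃ M : C → X → X → ℕ, (∀ c x y, M c x y = M c y x) ∧ (∀ c x, ∑ y, M c x y = ε + 2 * h c) ∧
      (∀ c x, Even (M c x x)) ∧ ∀ x y, ∑ c, M c x y = w x y := by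
  classical
  have hFs : ∀ c x y, ε * (if F c x = y then 1 else 0) = ε * (if F c y = x then 1 else 0) := by
    intro c x y
    rcases Nat.eq_zero_or_pos ε with h1 | h1
    · rw [h1, zero_mul, zero_mul]
    · have h2 := hF h1.ne'
      congr 1
      by_cases h3 : F c x = y
      · rw [if_pos h3, if_pos]
        rw [← h3]
        exact (h2 c x).1
      · rw [if_neg h3, if_neg]
        intro h4
        apply h3
        rw [← h4]
        exact (h2 c y).1
  have hFd : ∀ c x, ∑ y, ε * (if F c x = y then 1 else 0) = ε := by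
    intro c x
    rw [← Finset.mul_sum, Finset.sum_ite_eq univ (F c x), if_pos (mem_univ _), mul_one]
  have hF0 : ∀ c x, ε * (if F c x = x then 1 else 0) = 0 := by
    intro c x
    rcases Nat.eq_zero_or_pos ε with h1 | h1
    · rw [h1, zero_mul]
    · rw [if_neg (hF h1.ne' c x).2, mul_zero]
  obtain ⟨W, hW1, hW2, hW4, hW3⟩ := two_factors (∑ c, h c)
    (fun x y => w x y - ∑ c, ε * (if F c x = y then 1 else 0))
    (by
      intro x y
      simp only [hs x y]
      congr 1
      exact Finset.sum_congr rfl (fun c _ => hFs c x y))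
    (by
      intro x
      simp only [hF0, Finset.sum_const_zero, Nat.sub_zero]
      exact h0 x)
    (by
      intro x
      rw [Finset.sum_tsub_distrib _ (fun y _ => hle x y), hd, Finset.sum_comm,
        Finset.sum_congr rfl (fun c _ => hFd c x), Finset.sum_add_distrib, ← Finset.mul_sum]
      omega)
  have hcard : Fintype.card (Fin (∑ c, h c)) = Fintype.card (Σ c, Fin (h c)) := by
    rw [Fintype.card_fin, Fintype.card_sigma]
    simp
  let e := Fintype.equivOfCardEq hcard
  let γ : Fin (∑ c, h c) → C := fun j => (e j).1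
  have hγ : ∀ c, (univ.filter fun j => γ j = c).card = h c := by
    intro c
    have h1 : (univ.filter fun j => γ j = c).card =
        (univ.filter fun z : Σ c, Fin (h c) => z.1 = c).card := by
      apply Finset.card_bij (fun j _ => e j)
      · intro j hj
        simpa [γ] using hj
      · intro j _ j' _ hjj
        exact e.injective hjj
      · intro z hz
        refine ⟨e.symm z, ?_, by simp⟩
        simpa [γ] using hz
    rw [h1, Finset.card_filter, Fintype.sum_sigma]
    have h2 : ∀ c', ∑ _i : Fin (h c'), (if c' = c then 1 else 0) = if c' = c then h c' else 0 := by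
      intro c'
      split_ifs <;> simp
    rw [Finset.sum_congr rfl (fun c' _ => h2 c'), Finset.sum_ite_eq' univ c, if_pos (mem_univ _)]
  refine ⟨fun c x y => ε * (if F c x = y then 1 else 0) +
    ∑ j, (if γ j = c then W j x y else 0), ?_, ?_, ?_, ?_⟩
  · intro c x y
    show ε * (if F c x = y then 1 else 0) + ∑ j, (if γ j = c then W j x y else 0) =
      ε * (if F c y = x then 1 else 0) + ∑ j, (if γ j = c then W j y x else 0)
    rw [hFs c x y]
    congr 1
    exact Finset.sum_congr rfl (fun j _ => by rw [hW1])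
  · intro c x
    rw [Finset.sum_add_distrib, hFd, Finset.sum_comm]
    congr 1
    have h1 : ∀ j, ∑ y, (if γ j = c then W j x y else 0) = if γ j = c then 2 else 0 := by
      intro j
      split_ifs
      · exact hW2 j x
      · simp
    rw [Finset.sum_congr rfl (fun j _ => h1 j), ← Finset.sum_filter, Finset.sum_const, hγ,
      smul_eq_mul, mul_comm]
  · intro c x
    show Even (ε * (if F c x = x then 1 else 0) + ∑ j, (if γ j = c then W j x x else 0))
    rw [hF0, zero_add]
    apply Finset.even_sum
    intro j _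
    split_ifs
    · exact hW4 j x
    · exact Even.zero
  · intro x y
    rw [Finset.sum_add_distrib]
    have h1 : ∑ c, ∑ j, (if γ j = c then W j x y else 0) = ∑ j, W j x y := by
      rw [Finset.sum_comm]
      apply Finset.sum_congr rfl
      intro j _
      rw [Finset.sum_ite_eq univ (γ j), if_pos (mem_univ _)]
    rw [h1, hW3]
    have h2 := hle x y
    omega

end Pool.Agent.X76.PM
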