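import Pool.Agent.X76.Det2

set_option autoImplicit false

/-!
Changing the numbers of vertices that miss the colours of an edge colouring, by Kempe chains.
-/

namespace Pool.Agent.X76.PM

open Finset SimpleGraph Pool.Agent.X76.Det

/-- the number of fixed points -/
def fx {U : Type} [Fintype U] [DecidableEq U] (φ : U → U) : ℕ :=
  (univ.filter fun x => φ x = x).card

/-- parity of the number of fixed points in a closed set -/
theorem fix_parity {U : Type} [Fintype U] [DecidableEq U] (φ : U → U) (hφ : ∀ x, φ (φ x) = x)
    (S : Finset U) (hS : ∀ x ∈ S, φ x ∈ S) :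
    Even (S.filter fun x => φ x ≠ x).card := by
  have h1 := even_sum_symm (fun x y => if φ x = y ∧ x ≠ y then 1 else 0)
    (by
      intro x y
      by_cases h : φ x = y ∧ x ≠ y
      · rw [if_pos h, if_pos]
        refine ⟨?_, h.2.symm⟩
        rw [← h.1]; exact hφ x
      · rw [if_neg h, if_neg]
        rintro ⟨h1, h2⟩
        apply h
        refine ⟨?_, h2.symm⟩
        rw [← h1]; exact hφ y)
    (by intro x; simp) S
  have h2 : ∑ x ∈ S, ∑ y ∈ S, (if φ x = y ∧ x ≠ y then 1 else 0) =
      (S.filter fun x => φ x ≠ x).card := by
    rw [Finset.card_filter]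
    apply Finset.sum_congr rfl
    intro x hx
    by_cases h : φ x = x
    · rw [if_neg (by simpa using h)]
      apply Finset.sum_eq_zero
      intro y _
      rw [if_neg]
      rintro ⟨h3, h4⟩
      exact h4 (h.symm.trans h3)
    · rw [if_pos h, Finset.sum_eq_single (φ x)]
      · rw [if_pos ⟨rfl, Ne.symm h⟩]
      · intro y _ hy
        rw [if_neg]
        rintro ⟨h3, -⟩
        exact hy h3.symm
      · intro h3
        exact absurd (hS x hx) h3
  rw [h2] at h1
  exact h1

theorem kempe {U : Type} [Fintype U] [DecidableEq U] {n : ℕ} (φ : Fin n → U → U)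
    (hφ : ∀ c x, φ c (φ c x) = x) (p q : Fin n) (hpq : p ≠ q) (hlt : fx (φ q) < fx (φ p)) :
    ∃ φ' : Fin n → U → U, (∀ c x, φ' c (φ' c x) = x) ∧
      (∀ x y, (univ.filter fun c => φ' c x = y).card = (univ.filter fun c => φ c x = y).card) ∧
      fx (φ' p) + 2 = fx (φ p) ∧ fx (φ' q) = fx (φ q) + 2 ∧
      ∀ c, c ≠ p → c ≠ q → φ' c = φ c := by
  classical
  let Γ : SimpleGraph U :=
    { Adj := fun x y => x ≠ y ∧ (φ p x = y ∨ φ q x = y)
      symm := ⟨fun x y h => ⟨h.1.symm, h.2.elim (fun h' => Or.inl (by rw [← h']; exact hφ p x))
        (fun h' => Or.inr (by rw [← h']; exact hφ q x))⟩⟩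
      loopless := ⟨fun x h => h.1 rfl⟩ }
  let κ : U → Γ.ConnectedComponent := fun x => Γ.connectedComponentMk x
  have hκ : ∀ x, κ (φ p x) = κ x ∧ κ (φ q x) = κ x := by
    intro x
    constructor
    · by_cases h : φ p x = x
      · rw [h]
      · symm
        apply ConnectedComponent.sound
        apply Adj.reachable
        exact ⟨Ne.symm h, Or.inl rfl⟩
    · by_cases h : φ q x = x
      · rw [h]
      · symm
        apply ConnectedComponent.sound
        apply Adj.reachable
        exact ⟨Ne.symm h, Or.inr rfl⟩
  have iC := Fintype.ofFinite Γ.ConnectedComponent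
  have hfib : ∀ c, fx (φ c) = ∑ k, (univ.filter fun x => κ x = k ∧ φ c x = x).card := by
    intro c
    unfold fx
    rw [Finset.card_eq_sum_card_fiberwise (f := κ) (t := univ) (fun x _ => mem_coe.2 (mem_univ _))]
    apply Finset.sum_congr rfl
    intro k _
    congr 1
    ext x
    simp only [mem_filter, mem_univ, true_and]
    exact and_comm
  obtain ⟨k, hk⟩ : ∃ k, (univ.filter fun x => κ x = k ∧ φ q x = x).card <
      (univ.filter fun x => κ x = k ∧ φ p x = x).card := by
    by_contra hno
    push Not at hno
    have h1 := Finset.sum_le_sum (fun k (_ : k ∈ univ) => hno k)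
    rw [← hfib, ← hfib] at h1
    omega
  let S : Finset U := univ.filter fun x => κ x = k
  have hSsplit : ∀ c, (univ.filter fun x => κ x = k ∧ φ c x = x).card +
      (S.filter fun x => φ c x ≠ x).card = S.card := by
    intro c
    rw [← Finset.card_filter_add_card_filter_not (s := S) (fun x => φ c x = x)]
    congr 1
    congr 1
    ext x
    simp [S]
  have hpar : ∀ c, (c = p ∨ c = q) → Even (S.filter fun x => φ c x ≠ x).card := by
    rintro c (rfl | rfl)
    · apply fix_parity _ (hφ _)
      intro x hx
      simp only [S, mem_filter, mem_univ, true_and] at hx ⊢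
      rw [(hκ x).1, hx]
    · apply fix_parity _ (hφ _)
      intro x hx
      simp only [S, mem_filter, mem_univ, true_and] at hx ⊢
      rw [(hκ x).2, hx]
  -- at most two ends
  have hends : (univ.filter fun x => κ x = k ∧ φ p x = x).card +
      (univ.filter fun x => κ x = k ∧ φ q x = x).card ≤ 2 := by
    let VC : Type := {v : U // Γ.connectedComponentMk v = k}
    let GC : SimpleGraph VC := Γ.comap Subtype.val
    have hconn : GC.Connected := k.connected_toSimpleGraph
    have iV := Fintype.ofFinite VC
    have h1 := hconn.card_vert_le_card_edgeSet_add_one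
    have h2 := GC.sum_degrees_eq_twice_card_edges
    have hVS : Fintype.card VC = S.card := by
      rw [Fintype.card_subtype]
    have hdeg : ∀ v : VC, GC.degree v + ((if φ p v.1 = v.1 then 1 else 0) +
        (if φ q v.1 = v.1 then 1 else 0)) ≤ 2 := by
      intro v
      have h3 : GC.degree v ≤ (({φ p v.1, φ q v.1} : Finset U).erase v.1).card := by
        rw [← SimpleGraph.card_neighborFinset_eq_degree,
          ← Finset.card_map (⟨Subtype.val, Subtype.val_injective⟩ : VC ↪ U)]
        apply Finset.card_le_card
        intro x hx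
        simp only [Finset.mem_map, mem_neighborFinset, Function.Embedding.coeFn_mk] at hx
        obtain ⟨x', hx', rfl⟩ := hx
        have hx2 : Γ.Adj v.1 x'.1 := hx'
        rw [mem_erase, mem_insert, mem_singleton]
        refine ⟨hx2.1.symm, ?_⟩
        rcases hx2.2 with h | h
        · exact Or.inl h.symm
        · exact Or.inr h.symm
      by_cases h4 : φ p v.1 = v.1
      · by_cases h5 : φ q v.1 = v.1
        · have h6 : (({φ p v.1, φ q v.1} : Finset U).erase v.1).card = 0 := by
            rw [h4, h5]; simp
          rw [if_pos h4, if_pos h5]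
          omega
        · have h6 : (({φ p v.1, φ q v.1} : Finset U).erase v.1).card ≤ 1 := by
            rw [h4]
            have h7 : ({v.1, φ q v.1} : Finset U).erase v.1 ⊆ {φ q v.1} := by
              intro x hx
              rw [mem_erase, mem_insert, mem_singleton] at hx
              rw [mem_singleton]
              exact hx.2.resolve_left hx.1
            exact (Finset.card_le_card h7).trans (by simp)
          rw [if_pos h4, if_neg h5]
          omega
      · by_cases h5 : φ q v.1 = v.1
        · have h6 : (({φ p v.1, φ q v.1} : Finset U).erase v.1).card ≤ 1 := by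
            rw [h5]
            have h7 : ({φ p v.1, v.1} : Finset U).erase v.1 ⊆ {φ p v.1} := by
              intro x hx
              rw [mem_erase, mem_insert, mem_singleton] at hx
              rw [mem_singleton]
              exact hx.2.resolve_right hx.1
            exact (Finset.card_le_card h7).trans (by simp)
          rw [if_neg h4, if_pos h5]
          omega
        · have h6 : (({φ p v.1, φ q v.1} : Finset U).erase v.1).card ≤ 2 :=
            (Finset.card_erase_le).trans Finset.card_le_two
          rw [if_neg h4, if_neg h5]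
          omega
    have h3 := Finset.sum_le_sum (fun v (_ : v ∈ univ) => hdeg v)
    rw [Finset.sum_add_distrib, Finset.sum_add_distrib, Finset.sum_const, card_univ,
      smul_eq_mul, h2] at h3
    have h4 : ∀ c, ∑ v : VC, (if φ c v.1 = v.1 then 1 else 0) =
        (univ.filter fun x => κ x = k ∧ φ c x = x).card := by
      intro c
      rw [← Finset.card_filter, ← Finset.card_map (⟨Subtype.val, Subtype.val_injective⟩ : VC ↪ U)]
      congr 1
      ext x
      simp only [Finset.mem_map, mem_filter, mem_univ, true_and, Function.Embedding.coeFn_mk]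
      constructor
      · rintro ⟨x', hx', rfl⟩
        exact ⟨x'.2, hx'⟩
      · rintro ⟨h5, h6⟩
        exact ⟨⟨x, h5⟩, h6, rfl⟩
    rw [h4, h4] at h3
    have h5 : Nat.card GC.edgeSet = #GC.edgeFinset := by
      rw [Nat.card_eq_fintype_card, SimpleGraph.edgeFinset_card]
    rw [Nat.card_eq_fintype_card, h5] at h1
    omega
  have hA : (univ.filter fun x => κ x = k ∧ φ p x = x).card = 2 ∧
      (univ.filter fun x => κ x = k ∧ φ q x = x).card = 0 := by
    have h1 := hSsplit p
    have h2 := hSsplit q
    obtain ⟨i, hi⟩ := hpar p (Or.inl rfl)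
    obtain ⟨j, hj⟩ := hpar q (Or.inr rfl)
    omega
  let φ' : Fin n → U → U := fun c x => if κ x = k then φ (Equiv.swap p q c) x else φ c x
  have hκ' : ∀ c x, κ x = k → (c = p ∨ c = q) → κ (φ (Equiv.swap p q c) x) = k := by
    rintro c x hx (rfl | rfl)
    · rw [Equiv.swap_apply_left, (hκ x).2, hx]
    · rw [Equiv.swap_apply_right, (hκ x).1, hx]
  have hsw : ∀ c, c ≠ p → c ≠ q → Equiv.swap p q c = c := fun c h1 h2 =>
    Equiv.swap_apply_of_ne_of_ne h1 h2
  have hoth : ∀ c, c ≠ p → c ≠ q → φ' c = φ c := by
    intro c h1 h2
    funext x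
    simp only [φ', hsw c h1 h2, ite_self]
  refine ⟨φ', ?_, ?_, ?_, ?_, hoth⟩
  · intro c x
    by_cases hc : c = p ∨ c = q
    · by_cases hx : κ x = k
      · have h1 := hκ' c x hx hc
        simp only [φ', if_pos hx, if_pos h1]
        exact hφ _ x
      · have h1 : κ (φ c x) ≠ k := by
          rcases hc with rfl | rfl
          · rw [(hκ x).1]; exact hx
          · rw [(hκ x).2]; exact hx
        simp only [φ', if_neg hx, if_neg h1]
        exact hφ c x
    · push Not at hc
      rw [hoth c hc.1 hc.2]
      exact hφ c x
  · intro x y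
    by_cases hx : κ x = k
    · have h1 : (univ.filter fun c => φ' c x = y) =
          (univ.filter fun c => φ c x = y).map (Equiv.swap p q).toEmbedding := by
        ext c
        simp only [mem_filter, mem_univ, true_and, Finset.mem_map_equiv, Equiv.symm_swap, φ',
          if_pos hx]
      rw [h1, Finset.card_map]
    · simp only [φ', if_neg hx]
  · have h1 : ∀ c, fx (φ c) = (univ.filter fun x => κ x = k ∧ φ c x = x).card +
        (univ.filter fun x => κ x ≠ k ∧ φ c x = x).card := by
      intro c
      unfold fx
      rw [← Finset.card_filter_add_card_filter_not (fun x => κ x = k), Finset.filter_filter,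
        Finset.filter_filter]
      congr 1
      · congr 1; ext x; simp only [mem_filter]; tauto
      · congr 1; ext x; simp only [mem_filter]; tauto
    have h2 : fx (φ' p) = (univ.filter fun x => κ x = k ∧ φ q x = x).card +
        (univ.filter fun x => κ x ≠ k ∧ φ p x = x).card := by
      unfold fx
      rw [← Finset.card_filter_add_card_filter_not (fun x => κ x = k), Finset.filter_filter,
        Finset.filter_filter]
      congr 1
      · congr 1
        ext x
        simp only [mem_filter, mem_univ, true_and, φ']
        constructor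
        · rintro ⟨h3, h4⟩
          rw [if_pos h4, Equiv.swap_apply_left] at h3
          exact ⟨h4, h3⟩
        · rintro ⟨h3, h4⟩
          rw [if_pos h3, Equiv.swap_apply_left]
          exact ⟨h4, h3⟩
      · congr 1
        ext x
        simp only [mem_filter, mem_univ, true_and, φ']
        constructor
        · rintro ⟨h3, h4⟩
          rw [if_neg h4] at h3
          exact ⟨h4, h3⟩
        · rintro ⟨h3, h4⟩
          rw [if_neg h3]
          exact ⟨h4, h3⟩
    rw [h2, h1 p, hA.1, hA.2]
    omega
  · have h1 : ∀ c, fx (φ c) = (univ.filter fun x => κ x = k ∧ φ c x = x).card +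
        (univ.filter fun x => κ x ≠ k ∧ φ c x = x).card := by
      intro c
      unfold fx
      rw [← Finset.card_filter_add_card_filter_not (fun x => κ x = k), Finset.filter_filter,
        Finset.filter_filter]
      congr 1
      · congr 1; ext x; simp only [mem_filter]; tauto
      · congr 1; ext x; simp only [mem_filter]; tauto
    have h2 : fx (φ' q) = (univ.filter fun x => κ x = k ∧ φ p x = x).card +
        (univ.filter fun x => κ x ≠ k ∧ φ q x = x).card := by
      unfold fx
      rw [← Finset.card_filter_add_card_filter_not (fun x => κ x = k), Finset.filter_filter,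
        Finset.filter_filter]
      congr 1
      · congr 1
        ext x
        simp only [mem_filter, mem_univ, true_and, φ']
        constructor
        · rintro ⟨h3, h4⟩
          rw [if_pos h4, Equiv.swap_apply_right] at h3
          exact ⟨h4, h3⟩
        · rintro ⟨h3, h4⟩
          rw [if_pos h3, Equiv.swap_apply_right]
          exact ⟨h4, h3⟩
      · congr 1
        ext x
        simp only [mem_filter, mem_univ, true_and, φ']
        constructor
        · rintro ⟨h3, h4⟩
          rw [if_neg h4] at h3
          exact ⟨h4, h3⟩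
        · rintro ⟨h3, h4⟩
          rw [if_neg h3]
          exact ⟨h4, h3⟩
    rw [h2, h1 q, hA.1, hA.2]
    omega

/-- edge colourings with given numbers of vertices that miss the colours -/
theorem kempe_target {U : Type} [Fintype U] [DecidableEq U] {n : ℕ} (T : Fin n → ℕ)
    (hT : ∀ c, T c % 2 = Fintype.card U % 2) (hnear : ∀ p q, T p ≤ T q + 2) (N : ℕ) :
    ∀ (φ : Fin n → U → U), (∀ c x, φ c (φ c x) = x) → ∑ c, fx (φ c) = ∑ c, T c →
      ∑ c, (fx (φ c) - T c) ≤ N →
      ∃ φ' : Fin n → U → U, (∀ c x, φ' c (φ' c x) = x) ∧
        (∀ x y, (univ.filter fun c => φ' c x = y).card = (univ.filter fun c => φ c x = y).card) ∧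
        ∀ c, fx (φ' c) = T c := by
  induction N with
  | zero =>
    intro φ hφ hsum hN
    refine ⟨φ, hφ, fun _ _ => rfl, ?_⟩
    have h1 : ∀ c, fx (φ c) ≤ T c := by
      intro c
      have h2 := (Finset.sum_eq_zero_iff.1 (Nat.le_zero.1 hN)) c (mem_univ c)
      omega
    intro c
    exact (Finset.sum_eq_sum_iff_of_le (fun c _ => h1 c)).1 hsum c (mem_univ c)
  | succ N ih =>
    intro φ hφ hsum hN
    by_cases hall : ∀ c, fx (φ c) = T c
    · exact ⟨φ, hφ, fun _ _ => rfl, hall⟩
    have hpar : ∀ c, fx (φ c) % 2 = T c % 2 := by
      intro c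
      obtain ⟨i, hi⟩ := fix_parity (φ c) (hφ c) univ (fun x _ => mem_univ _)
      have h1 := Finset.card_filter_add_card_filter_not (s := (univ : Finset U))
        (fun x => φ c x = x)
      rw [card_univ] at h1
      have h2 := hT c
      have h3 : (univ.filter fun x => ¬ φ c x = x).card = i + i := hi
      unfold fx
      omega
    obtain ⟨p, hp⟩ : ∃ p, T p < fx (φ p) := by
      by_contra hno
      push Not at hno
      apply hall
      intro c
      exact (Finset.sum_eq_sum_iff_of_le (fun c _ => hno c)).1 hsum c (mem_univ c)
    obtain ⟨q, hq⟩ : ∃ q, fx (φ q) < T q := by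
      by_contra hno
      push Not at hno
      apply hall
      intro c
      exact ((Finset.sum_eq_sum_iff_of_le (fun c _ => hno c)).1 hsum.symm c (mem_univ c)).symm
    have hpq : p ≠ q := by
      rintro rfl
      omega
    have h1 := hpar p
    have h2 := hpar q
    have h3 := hnear q p
    obtain ⟨φ₁, e1, e2, e3, e4, e5⟩ := kempe φ hφ p q hpq (by omega)
    have hsum' : ∀ (F : Fin n → ℕ), ∑ c, F c = F p + (F q + ∑ c ∈ (univ.erase p).erase q, F c) := by
      intro F
      rw [← Finset.add_sum_erase _ _ (mem_univ p),
        ← Finset.add_sum_erase (univ.erase p) F (mem_erase.2 ⟨hpq.symm, mem_univ q⟩)]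
    have hrest : ∀ (G : ℕ → Fin n → ℕ), ∑ c ∈ (univ.erase p).erase q, G (fx (φ₁ c)) c =
        ∑ c ∈ (univ.erase p).erase q, G (fx (φ c)) c := by
      intro G
      apply Finset.sum_congr rfl
      intro c hc
      rw [mem_erase, mem_erase] at hc
      rw [e5 c hc.2.1 hc.1]
    obtain ⟨φ', f1, f2, f3⟩ := ih φ₁ e1
      (by
        rw [← hsum, hsum' (fun c => fx (φ₁ c)), hsum' (fun c => fx (φ c)),
          hrest (fun a _ => a)]
        omega)
      (by
        have h4 := hsum' (fun c => fx (φ₁ c) - T c)
        have h5 := hsum' (fun c => fx (φ c) - T c)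
        have h6 : ∑ c ∈ (univ.erase p).erase q, (fx (φ₁ c) - T c) =
            ∑ c ∈ (univ.erase p).erase q, (fx (φ c) - T c) := hrest (fun a c => a - T c)
        omega)
    exact ⟨φ', f1, fun x y => (f2 x y).trans (e2 x y), f3⟩

end Pool.Agent.X76.PM
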