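import Pool.Agent.X76.PM1

set_option autoImplicit false

/-!
Outlines: decompositions of multigraphs with loops, and of circulations.
-/

namespace Pool.Agent.X76.PM

open Finset Pool.Agent.H160R2.HF Pool.Agent.X76.Det

/-- balanced orientations of multigraphs with loops -/
theorem orientL {X : Type} [Fintype X] (w : X → X → ℕ) (hs : ∀ x y, w x y = w y x)
    (h0 : ∀ x, Even (w x x)) (a : X → ℕ) (h1 : ∀ x, ∑ y, w x y = 2 * a x) :
    ∃ o : X → X → ℕ, (∀ x y, o x y + o y x = w x y) ∧ (∀ x, ∑ y, o x y = a x) ∧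
      ∀ y, ∑ x, o x y = a y := by
  classical
  let ord : LinearOrder X := LinearOrder.lift' (Fintype.equivFin X) (Fintype.equivFin X).injective
  have hle : ∀ x, w x x ≤ 2 * a x := by
    intro x
    rw [← h1]
    exact Finset.single_le_sum (f := w x) (fun i _ => Nat.zero_le _) (mem_univ x)
  have hsp : ∀ x, ∑ y, (if x = y then 0 else w x y) = 2 * (a x - w x x / 2) := by
    intro x
    have h2 := h1 x
    have h3 : ∑ y, w x y = ∑ y, (if x = y then 0 else w x y) +
        ∑ y, (if x = y then w x y else 0) := by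
      rw [← Finset.sum_add_distrib]
      apply Finset.sum_congr rfl
      intro y _
      split_ifs <;> omega
    rw [Finset.sum_ite_eq univ x, if_pos (mem_univ _)] at h3
    obtain ⟨k, hk⟩ := h0 x
    have := hle x
    omega
  obtain ⟨o, ho1, ho2, ho3, -⟩ := orient (fun x y => if x = y then 0 else w x y)
    (by
      intro x y
      by_cases h : x = y
      · rw [if_pos h, if_pos h.symm]
      · rw [if_neg h, if_neg (Ne.symm h), hs])
    (by intro x; rw [if_pos rfl]) _ hsp
  refine ⟨fun x y => o x y + if x = y then w x x / 2 else 0, ?_, ?_, ?_⟩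
  · intro x y
    have h2 := ho1 x y
    by_cases h : x = y
    · subst h
      simp only [if_true] at h2 ⊢
      obtain ⟨k, hk⟩ := h0 x
      omega
    · simp only [if_neg h, if_neg (Ne.symm h)] at h2 ⊢
      omega
  · intro x
    rw [Finset.sum_add_distrib, ho2, Finset.sum_ite_eq univ x, if_pos (mem_univ _)]
    have := hle x
    omega
  · intro y
    rw [Finset.sum_add_distrib, ho3]
    have h2 : ∑ x, (if x = y then w x x / 2 else 0) = w y y / 2 := by
      rw [Finset.sum_ite_eq' univ y, if_pos (mem_univ _)]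
    rw [h2]
    have := hle y
    omega

/-- one part of a circulation -/
theorem circ_one {X : Type} [Fintype X] [DecidableEq X] (o : X → X → ℕ) (n : ℕ) (hn : 0 < n)
    (A : X → ℕ) (h1 : ∀ x, ∑ y, o x y = A x) (h2 : ∀ y, ∑ x, o x y = A y) :
    ∃ (T : X → X → ℕ) (τ : X → ℕ), (∀ x, ∑ y, T x y = τ x) ∧ (∀ y, ∑ x, T x y = τ y) ∧
      (∀ x y, T x y ≤ o x y) ∧ ∀ x, A x / n ≤ τ x ∧ τ x ≤ (A x + (n - 1)) / n := by
  let t : (X × X) ⊕ X → X ⊕ X := fun e => match e with
    | Sum.inl q => Sum.inl q.1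
    | Sum.inr x => Sum.inr x
  let h : (X × X) ⊕ X → X ⊕ X := fun e => match e with
    | Sum.inl q => Sum.inr q.2
    | Sum.inr x => Sum.inl x
  let lo : (X × X) ⊕ X → ℤ := fun e => match e with
    | Sum.inl _ => 0
    | Sum.inr x => ((A x / n : ℕ) : ℤ)
  let up : (X × X) ⊕ X → ℤ := fun e => match e with
    | Sum.inl q => (o q.1 q.2 : ℤ)
    | Sum.inr x => (((A x + (n - 1)) / n : ℕ) : ℤ)
  let G : (X × X) ⊕ X → ℤ := fun e => match e with
    | Sum.inl q => (o q.1 q.2 : ℤ)
    | Sum.inr x => (A x : ℤ)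
  have hn1 : ∀ (g : (X × X) ⊕ X → ℤ) (x : X),
      net t h g (Sum.inl x) = ∑ y, g (Sum.inl (x, y)) - g (Sum.inr x) := by
    intro g x
    rw [net_eq, Fintype.sum_sum_type, Fintype.sum_sum_type, Fintype.sum_prod_type,
      Fintype.sum_prod_type]
    simp only [t, h, Sum.inl.injEq, reduceCtorEq, if_false, Finset.sum_const_zero, add_zero,
      zero_add]
    congr 1
    · rw [Finset.sum_eq_single x]
      · simp
      · intro x' _ hne
        simp [hne]
      · simp
    · rw [Finset.sum_ite_eq' univ x, if_pos (mem_univ _)]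
  have hn2 : ∀ (g : (X × X) ⊕ X → ℤ) (y : X),
      net t h g (Sum.inr y) = g (Sum.inr y) - ∑ x, g (Sum.inl (x, y)) := by
    intro g y
    rw [net_eq, Fintype.sum_sum_type, Fintype.sum_sum_type, Fintype.sum_prod_type,
      Fintype.sum_prod_type]
    simp only [t, h, Sum.inr.injEq, reduceCtorEq, if_false, Finset.sum_const_zero, add_zero,
      zero_add]
    congr 1
    · rw [Finset.sum_ite_eq' univ y, if_pos (mem_univ _)]
    · simp
  obtain ⟨g, hg1, hg2⟩ := scaled t h lo up (fun _ => 0) (n : ℤ) (by exact_mod_cast hn) G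
    (by
      rintro (⟨x, y⟩ | x)
      · simp only [lo, up, G, mul_zero]
        refine ⟨by positivity, ?_⟩
        have h3 : o x y ≤ n * o x y := Nat.le_mul_of_pos_left _ hn
        exact_mod_cast h3
      · simp only [lo, up, G]
        constructor
        · exact_mod_cast Nat.mul_div_le (A x) n
        · have h3 : A x ≤ n * ((A x + (n - 1)) / n) := by
            have h4 := Nat.div_add_mod (A x + (n - 1)) n
            have h5 := Nat.mod_lt (A x + (n - 1)) hn
            omega
          exact_mod_cast h3)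
    (by
      rintro (x | y)
      · rw [hn1]
        simp only [G, mul_zero]
        have h4 : ((∑ y, o x y : ℕ) : ℤ) = (A x : ℤ) := by rw [h1]
        push_cast at h4
        rw [h4, sub_self]
      · rw [hn2]
        simp only [G, mul_zero]
        have h4 : ((∑ x, o x y : ℕ) : ℤ) = (A y : ℤ) := by rw [h2]
        push_cast at h4
        rw [h4, sub_self])
  have hT : ∀ x y, ((g (Sum.inl (x, y))).toNat : ℤ) = g (Sum.inl (x, y)) := by
    intro x y
    apply Int.toNat_of_nonneg
    exact (hg1 (Sum.inl (x, y))).1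
  have hτ : ∀ x, ((g (Sum.inr x)).toNat : ℤ) = g (Sum.inr x) := by
    intro x
    apply Int.toNat_of_nonneg
    have h3 := (hg1 (Sum.inr x)).1
    simp only [lo] at h3
    exact (by positivity : (0 : ℤ) ≤ ((A x / n : ℕ) : ℤ)).trans h3
  refine ⟨fun x y => (g (Sum.inl (x, y))).toNat, fun x => (g (Sum.inr x)).toNat, ?_, ?_, ?_, ?_⟩
  · intro x
    have h4 := hg2 (Sum.inl x)
    rw [hn1] at h4
    have h6 : ((∑ y, (g (Sum.inl (x, y))).toNat : ℕ) : ℤ) = ((g (Sum.inr x)).toNat : ℤ) := by
      rw [hτ]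
      push_cast
      have h7 : ∑ y, g (Sum.inl (x, y)) = g (Sum.inr x) := by linarith
      rw [← h7]
      apply Finset.sum_congr rfl
      intro y _
      exact_mod_cast hT x y
    exact_mod_cast h6
  · intro y
    have h4 := hg2 (Sum.inr y)
    rw [hn2] at h4
    have h6 : ((∑ x, (g (Sum.inl (x, y))).toNat : ℕ) : ℤ) = ((g (Sum.inr y)).toNat : ℤ) := by
      rw [hτ]
      push_cast
      have h7 : ∑ x, g (Sum.inl (x, y)) = g (Sum.inr y) := by linarith
      rw [← h7]
      apply Finset.sum_congr rfl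
      intro x _
      exact_mod_cast hT x y
    exact_mod_cast h6
  · intro x y
    have h3 := (hg1 (Sum.inl (x, y))).2
    rw [← hT] at h3
    simp only [up] at h3
    exact_mod_cast h3
  · intro x
    have h3 := hg1 (Sum.inr x)
    rw [← hτ] at h3
    simp only [lo, up] at h3
    exact ⟨by exact_mod_cast h3.1, by exact_mod_cast h3.2⟩

theorem div_aux (A n τ : ℕ) (hn : 0 < n) (h1 : A / (n + 1) ≤ τ)
    (h2 : τ ≤ (A + n) / (n + 1)) : A / (n + 1) ≤ (A - τ) / n ∧
      ((A - τ) + (n - 1)) / n ≤ (A + n) / (n + 1) := by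
  have e1 := Nat.div_add_mod A (n + 1)
  have e2 := Nat.mod_lt A (Nat.succ_pos n)
  have e3 := Nat.div_add_mod (A + n) (n + 1)
  have e4 := Nat.mod_lt (A + n) (Nat.succ_pos n)
  obtain ⟨q, hq⟩ : ∃ q, q = A / (n + 1) := ⟨_, rfl⟩
  obtain ⟨r, hr⟩ : ∃ r, r = A % (n + 1) := ⟨_, rfl⟩
  obtain ⟨u, hu⟩ : ∃ u, u = (A + n) / (n + 1) := ⟨_, rfl⟩
  obtain ⟨v, hv⟩ : ∃ v, v = (A + n) % (n + 1) := ⟨_, rfl⟩
  rw [← hq, ← hr] at e1
  rw [← hr] at e2
  rw [← hu, ← hv] at e3
  rw [← hv] at e4
  rw [← hq] at h1 ⊢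
  rw [← hu] at h2 ⊢
  have hqu : (u = q ∧ r = 0) ∨ u = q + 1 := by
    rcases Nat.eq_zero_or_pos r with h | h
    · left
      refine ⟨?_, h⟩
      rw [hu]
      have h7 : q * (n + 1) = n * q + q := by ring
      have h8 : (q + 1) * (n + 1) = n * q + q + n + 1 := by ring
      have h9 : (n + 1) * q = n * q + q := by ring
      apply Nat.div_eq_of_lt_le <;> omega
    · right
      rw [hu]
      have h7 : (q + 1) * (n + 1) = n * q + q + n + 1 := by ring
      have h8 : (q + 1 + 1) * (n + 1) = n * q + q + n + 1 + n + 1 := by ring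
      have h9 : (n + 1) * q = n * q + q := by ring
      apply Nat.div_eq_of_lt_le <;> omega
  have hA : A = n * q + q + r := by rw [← e1]; ring
  constructor
  · rw [Nat.le_div_iff_mul_le hn, mul_comm]
    rcases hqu with ⟨h, h'⟩ | h
    · omega
    · have : τ ≤ q + 1 := by omega
      rcases Nat.eq_zero_or_pos r with h3 | h3
      · exfalso
        rw [h] at e3
        have : (n + 1) * (q + 1) = n * q + q + n + 1 := by ring
        omega
      · omega
  · have h5 : A - τ ≤ n * u := by
      rcases hqu with ⟨h, h'⟩ | h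
      · rw [h]; omega
      · rw [h]
        have : n * (q + 1) = n * q + n := by ring
        omega
    have h6 : (A - τ) + (n - 1) < (u + 1) * n := by
      have : (u + 1) * n = n * u + n := by ring
      omega
    have := (Nat.div_lt_iff_lt_mul hn).2 h6
    omega

theorem circ_split {X : Type} [Fintype X] [DecidableEq X] (n : ℕ) :
    ∀ (o : X → X → ℕ) (A : X → ℕ), (∀ x, ∑ y, o x y = A x) → (∀ y, ∑ x, o x y = A y) →
    ∃ (O : Fin (n + 1) → X → X → ℕ) (τ : Fin (n + 1) → X → ℕ), (∀ c x, ∑ y, O c x y = τ c x) ∧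
      (∀ c y, ∑ x, O c x y = τ c y) ∧ (∀ x y, ∑ c, O c x y = o x y) ∧
      ∀ c x, A x / (n + 1) ≤ τ c x ∧ τ c x ≤ (A x + n) / (n + 1) := by
  induction n with
  | zero =>
    intro o A h1 h2
    refine ⟨fun _ => o, fun _ => A, fun _ => h1, fun _ => h2, fun x y => by simp, ?_⟩
    intro c x
    simp
  | succ n ih =>
    intro o A h1 h2
    obtain ⟨T0, τ0, e1, e2, e3, e4⟩ := circ_one o (n + 2) (by omega) A h1 h2
    obtain ⟨O, τ, f1, f2, f3, f4⟩ := ih (fun x y => o x y - T0 x y) (fun x => A x - τ0 x)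
      (by
        intro x
        rw [Finset.sum_tsub_distrib _ (fun y _ => e3 x y), h1, e1])
      (by
        intro y
        rw [Finset.sum_tsub_distrib _ (fun x _ => e3 x y), h2, e2])
    have e4' : ∀ x, A x / (n + 1 + 1) ≤ τ0 x ∧ τ0 x ≤ (A x + (n + 1)) / (n + 1 + 1) := by
      intro x
      exact e4 x
    refine ⟨Fin.cons T0 O, Fin.cons τ0 τ, ?_, ?_, ?_, ?_⟩
    · intro c x
      refine Fin.cases ?_ (fun c => ?_) c
      · simpa using e1 x
      · simpa using f1 c x
    · intro c y
      refine Fin.cases ?_ (fun c => ?_) c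
      · simpa using e2 y
      · simpa using f2 c y
    · intro x y
      rw [Fin.sum_univ_succ]
      simp only [Fin.cons_zero, Fin.cons_succ, f3]
      have := e3 x y
      omega
    · intro c x
      have h5 := div_aux (A x) (n + 1) (τ0 x) (Nat.succ_pos n) (e4' x).1 (e4' x).2
      refine Fin.cases ?_ (fun c => ?_) c
      · simpa using e4' x
      · simp only [Fin.cons_succ]
        have h6 := f4 c x
        rw [Nat.add_sub_cancel] at h5
        exact ⟨h5.1.trans h6.1, h6.2.trans h5.2⟩

/-- outlines for classes of even sizes -/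
theorem outline_even {V : Type} [Fintype V] [DecidableEq V] (a : V → V → ℕ)
    (has : ∀ u v, a u v = a v u) (g : V → ℕ) (hg : ∀ v, 1 ≤ g v) (hev : ∀ v, Even (g v))
    (s N : ℕ)
    (hdeg : ∀ x, ∑ y, (if x = y then (g x - 1) * a x x else g y * a x y) = N + 1) :
    ∃ M : Fin (s + 1) ⊕ Fin N → V → V → ℕ,
      St1 (Sum.elim (fun _ => none) some : Fin (s + 1) ⊕ Fin N → Option (Fin N)) g a M ∧
      (∀ v c, (∑ y, M (Sum.inl c) v y) % 2 = g v % 2) ∧
      ∀ v p q, ∑ y, M (Sum.inl p) v y ≤ ∑ y, M (Sum.inl q) v y + 2 := by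
  classical
  let w : V → V → ℕ := fun x y => g x * (if x = y then (g x - 1) * a x x else g y * a x y)
  have hg2 : ∀ x, 2 * (g x / 2) = g x := by
    intro x
    obtain ⟨k, hk⟩ := hev x
    omega
  obtain ⟨o, ho1, ho2, ho3⟩ := orientL w
    (by
      intro x y
      simp only [w]
      by_cases h : x = y
      · subst h; rfl
      · rw [if_neg h, if_neg (Ne.symm h), has x y]; ring)
    (by
      intro x
      exact (hev x).mul_right _)
    (fun x => (N + 1) * (g x / 2))
    (by
      intro x
      simp only [w]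
      rw [← Finset.mul_sum, hdeg]
      calc g x * (N + 1) = (2 * (g x / 2)) * (N + 1) := by rw [hg2]
        _ = 2 * ((N + 1) * (g x / 2)) := by ring)
  obtain ⟨T, hT1, hT2, hT3, -⟩ := classes (N + 1) (fun x => g x / 2) (fun x => g x / 2) o ho2 ho3
  obtain ⟨O, τ, hO1, hO2, hO3, hO4⟩ := circ_split s (T 0) (fun x => g x / 2) (hT1 0) (hT2 0)
  have hw : ∀ x y, ∑ c : Fin (s + 1), (O c x y + O c y x) +
      ∑ j : Fin N, (T j.succ x y + T j.succ y x) = w x y := by
    intro x y
    rw [Finset.sum_add_distrib, hO3, hO3, ← ho1, ← hT3, ← hT3, ← Finset.sum_add_distrib,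
      Fin.sum_univ_succ]
  have hrow : ∀ c x, ∑ y, (O c x y + O c y x) = 2 * τ c x := by
    intro c x
    rw [Finset.sum_add_distrib, hO1, hO2]; ring
  refine ⟨Sum.elim (fun c x y => O c x y + O c y x) (fun j x y => T j.succ x y + T j.succ y x),
    ⟨hg, ?_, ?_, ?_, ?_, ?_⟩, ?_, ?_⟩
  · rintro (c | j) x y
    · exact add_comm _ _
    · exact add_comm _ _
  · rintro (c | j) x
    · exact Even.add_self _
    · exact Even.add_self _
  · intro x y hxy
    rw [Fintype.sum_sum_type]
    simp only [Sum.elim_inl, Sum.elim_inr]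
    rw [hw]
    simp only [w, if_neg hxy]
    ring
  · intro x
    rw [Fintype.sum_sum_type]
    simp only [Sum.elim_inl, Sum.elim_inr]
    rw [hw]
    simp only [w, if_true]
  · intro k x
    rw [Fintype.sum_sum_type]
    rcases k with _ | j
    · simp only [Sum.elim_inl, Sum.elim_inr, if_true, reduceCtorEq, if_false,
        Finset.sum_const_zero, add_zero]
      rw [Finset.sum_congr rfl (fun c _ => hrow c x), ← Finset.mul_sum,
        ← Finset.sum_congr rfl (fun c _ => hO1 c x), Finset.sum_comm,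
        Finset.sum_congr rfl (fun y _ => hO3 x y), hT1, hg2]
    · simp only [Sum.elim_inl, Sum.elim_inr, reduceCtorEq, if_false,
        Finset.sum_const_zero, zero_add, Option.some.injEq]
      rw [Finset.sum_ite_eq' univ j, if_pos (mem_univ _), Finset.sum_add_distrib, hT1, hT2,
        ← two_mul, hg2]
  · intro v c
    simp only [Sum.elim_inl]
    rw [hrow]
    obtain ⟨k, hk⟩ := hev v
    omega
  · intro v p q
    simp only [Sum.elim_inl]
    rw [hrow, hrow]
    have h1 := (hO4 p v).2
    have h2 := (hO4 q v).1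
    have h3 : (g v / 2 + s) / (s + 1) ≤ (g v / 2) / (s + 1) + 1 := by
      rw [← Nat.add_div_right _ (Nat.succ_pos s)]
      exact Nat.div_le_div_right (by omega)
    omega

end Pool.Agent.X76.PM
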