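import Pool.Agent.X76.PM2
import Pool.Agent.X76.PM5

set_option autoImplicit false

/-!
Perfect matchings which cover the edges of a multigraph obtained by substitution.
-/

namespace Pool.Agent.X76.PM

open Finset SimpleGraph Pool.Agent.X76.Det

/-- outlines for classes of the same odd size -/
theorem outline_odd {V : Type} [Fintype V] [DecidableEq V] (a : V → V → ℕ)
    (has : ∀ u v, a u v = a v u) (m s N : ℕ) (hmo : m % 2 = 1) (hsm : s + 1 ≤ m)
    (hsev : Even (s * m))
    (hdeg : ∀ x, ∑ y, (if x = y then (m - 1) * a x x else m * a x y) = N + 1)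
    (F : Fin (s + 1) ⊕ Fin N → V → V) (hF : ∀ c x, F c (F c x) = x ∧ F c x ≠ x)
    (hcov : ∀ x y, (univ.filter fun c => F c x = y).card ≤ m * m * a x y) :
    ∃ M : Fin (s + 1) ⊕ Fin N → V → V → ℕ,
      St1 (Sum.elim (fun _ => none) some : Fin (s + 1) ⊕ Fin N → Option (Fin N))
        (fun _ => m) a M ∧
      (∀ v c, (∑ y, M (Sum.inl c) v y) % 2 = m % 2) ∧
      ∀ v p q, ∑ y, M (Sum.inl p) v y ≤ ∑ y, M (Sum.inl q) v y + 2 := by
  classical
  have hseven : Even s := by
    rcases Nat.even_mul.1 hsev with h3 | h3
    · exact h3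
    · rw [Nat.even_iff] at h3; omega
  obtain ⟨s', hs'⟩ := hseven
  let h0 := (m - (s + 1)) / 2
  have hh0 : (s + 1) + 2 * h0 = m := by
    show (s + 1) + 2 * ((m - (s + 1)) / 2) = m
    omega
  let hc : Fin (s + 1) → ℕ := fun c => h0 / (s + 1) + if c.val < h0 % (s + 1) then 1 else 0
  have hhc : ∑ c, hc c = h0 := by
    have h1 : ∑ c : Fin (s + 1), (if c.val < h0 % (s + 1) then 1 else 0) = h0 % (s + 1) := by
      rw [Fin.sum_univ_eq_sum_range (fun c => if c < h0 % (s + 1) then 1 else 0) (s + 1),
        ← Finset.card_filter]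
      have h2 : (range (s + 1)).filter (fun c => c < h0 % (s + 1)) = range (h0 % (s + 1)) := by
        ext c
        rw [mem_filter, mem_range, mem_range]
        have := Nat.mod_lt h0 (show 0 < s + 1 by omega)
        omega
      rw [h2, card_range]
    simp only [hc]
    rw [Finset.sum_add_distrib, h1, Finset.sum_const, card_univ, Fintype.card_fin, smul_eq_mul]
    exact Nat.div_add_mod h0 (s + 1)
  have hTsum : ∑ c, (1 + 2 * hc c) = m := by
    rw [Finset.sum_add_distrib, Finset.sum_const, card_univ, Fintype.card_fin, smul_eq_mul,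
      ← Finset.mul_sum, hhc]
    omega
  let hh : Fin (s + 1) ⊕ Fin N → ℕ := Sum.elim hc (fun _ => (m - 1) / 2)
  have hm1 : 1 + 2 * ((m - 1) / 2) = m := by omega
  let w : V → V → ℕ := fun x y => m * (if x = y then (m - 1) * a x x else m * a x y)
  obtain ⟨M, hM1, hM2, hM4, hM3⟩ := outline 1 F (fun _ => hF) hh w
    (by
      intro x y
      simp only [w]
      by_cases h : x = y
      · subst h; rfl
      · rw [if_neg h, if_neg (Ne.symm h), has x y])
    (by
      intro x
      simp only [w, if_true]
      have h1 : Even (m - 1) := by rw [Nat.even_iff]; omega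
      exact (h1.mul_right _).mul_left _)
    (by
      intro x
      simp only [w]
      rw [← Finset.mul_sum, hdeg, Fintype.sum_sum_type]
      have h1 : ∑ c : Fin (s + 1), (1 + 2 * hh (Sum.inl c)) = m := hTsum
      have h2 : ∑ j : Fin N, (1 + 2 * hh (Sum.inr j)) = N * m := by
        have h3 : ∀ j : Fin N, 1 + 2 * hh (Sum.inr j) = m := fun j => hm1
        rw [Finset.sum_congr rfl (fun j _ => h3 j), Finset.sum_const, card_univ,
          Fintype.card_fin, smul_eq_mul]
      rw [h1, h2]
      ring)
    (by
      intro x y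
      rw [← Finset.mul_sum, ← Finset.card_filter, one_mul]
      by_cases h : x = y
      · subst h
        have h1 : (univ.filter fun c => F c x = x) = ∅ := by
          rw [Finset.filter_eq_empty_iff]
          intro c _
          exact (hF c x).2
        rw [h1, card_empty]
        exact Nat.zero_le _
      · simp only [w, if_neg h]
        rw [← mul_assoc]
        exact hcov x y)
  refine ⟨M, ⟨fun _ => by omega, hM1, hM4, ?_, ?_, ?_⟩, ?_, ?_⟩
  · intro x y h
    rw [hM3]
    simp only [w, if_neg h]
    ring
  · intro x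
    rw [hM3]
    simp only [w, if_true]
  · intro k x
    rw [Fintype.sum_sum_type]
    rcases k with _ | j
    · simp only [Sum.elim_inl, Sum.elim_inr, if_true, reduceCtorEq, if_false,
        Finset.sum_const_zero, add_zero, hM2]
      exact hTsum
    · simp only [Sum.elim_inl, Sum.elim_inr, reduceCtorEq, if_false,
        Finset.sum_const_zero, zero_add, Option.some.injEq]
      rw [Finset.sum_ite_eq' univ j, if_pos (mem_univ _), hM2]
      exact hm1
  · intro v c
    rw [hM2, hmo]
    omega
  · intro v p q
    rw [hM2, hM2]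
    simp only [hh, Sum.elim_inl, hc]
    split_ifs <;> omega

/-- row sums of homogeneous multigraphs -/
theorem row_sum {V W : Type} [Fintype V] [Fintype W] [DecidableEq V] [DecidableEq W]
    (a : V → V → ℕ) (g : V → ℕ) (f : W → V) (hf : ∀ v, {w | f w = v}.ncard = g v) (x : W) :
    ∑ y, (if x = y then 0 else a (f x) (f y)) =
      ∑ u, (if f x = u then (g (f x) - 1) * a (f x) (f x) else g u * a (f x) u) := by
  have h1 : ∑ y, (if x = y then 0 else a (f x) (f y)) =
      ∑ u, ∑ y ∈ univ.filter (fun y => f y = u), (if x = y then 0 else a (f x) (f y)) :=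
    (Finset.sum_fiberwise _ _ _).symm
  rw [h1]
  apply Finset.sum_congr rfl
  intro u _
  by_cases h : f x = u
  · rw [if_pos h]
    have hx : x ∈ univ.filter (fun y => f y = u) := by
      rw [mem_filter]; exact ⟨mem_univ _, h⟩
    rw [← Finset.add_sum_erase _ _ hx, if_pos rfl, zero_add]
    have h2 : ∀ y ∈ (univ.filter (fun y => f y = u)).erase x,
        (if x = y then 0 else a (f x) (f y)) = a (f x) (f x) := by
      intro y hy
      rw [mem_erase, mem_filter] at hy
      rw [if_neg (Ne.symm hy.1), hy.2.2, h]
    rw [Finset.sum_congr rfl h2, Finset.sum_const, Finset.card_erase_of_mem hx,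
      card_fib f (g u) u (hf u), smul_eq_mul, h]
  · rw [if_neg h]
    have h2 : ∀ y ∈ univ.filter (fun y => f y = u),
        (if x = y then 0 else a (f x) (f y)) = a (f x) u := by
      intro y hy
      rw [mem_filter] at hy
      rw [if_neg, hy.2]
      rintro rfl
      exact h hy.2
    rw [Finset.sum_congr rfl h2, Finset.sum_const, card_fib f (g u) u (hf u), smul_eq_mul]

end Pool.Agent.X76.PM
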