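import Pool.Agent.X76.OddLoop
import Pool.Agent.Results.MP_2fc053_co.ShiftVeto

/-!
Graphs chromatically related to the paw.
-/

set_option autoImplicit false

namespace Pool.Agent.X76.PawGraph

open Pool.Agent.X76 Pool.Agent.Results.MP_2fc053_co.ShiftVeto

/-- `c` is a colouring of `H` none of whose classes contains an induced copy of `F`. -/
def IsFree {W U κ : Type} (H : SimpleGraph W) (F : SimpleGraph U) (c : W → κ) : Prop :=
  ∀ i : κ, IsEmpty (F ↪g H.induce {v | c v = i})

/-- `χ(H : -F) = n`: `n` is the least number of classes of an `F`-free colouring of `H`. -/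
def FreeChi {W U : Type} (H : SimpleGraph W) (F : SimpleGraph U) (n : ℕ) : Prop :=
  IsLeast {k : ℕ | ∃ c : W → Fin k, IsFree H F c} n

/-- `F ≍_n G`: some finite graph `H` has `χ(H : -F) = χ(H : -G) = n`. -/
def RelatedN (n : ℕ) {U V : Type} (F : SimpleGraph U) (G : SimpleGraph V) : Prop :=
  ∃ (W : Type) (_ : Finite W) (H : SimpleGraph W), FreeChi H F n ∧ FreeChi H G n

/-- The paw: the triangle `0 1 2` with the pendant edge `0 3`. -/
def paw : SimpleGraph (Fin 4) where
  Adj a b := a ≠ b ∧ (a = 0 ∨ b = 0 ∨ (a ≠ 3 ∧ b ≠ 3))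
  symm := ⟨fun a b h => ⟨h.1.symm, by tauto⟩⟩
  loopless := ⟨fun _ h => h.1 rfl⟩

instance : DecidableRel paw.Adj := fun a b => by unfold paw; infer_instance

/-- build an embedding from a map reflecting adjacency and equality -/
def mkEmb {U V : Type} {F : SimpleGraph U} {G : SimpleGraph V} (f : U → V)
    (hinj : Function.Injective f) (h : ∀ a b, G.Adj (f a) (f b) ↔ F.Adj a b) : F ↪g G :=
  ⟨⟨f, hinj⟩, fun {a b} => h a b⟩

lemma no_paw {W κ : Type} {H : SimpleGraph W} {c : W → κ} (h : IsFree H paw c)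
    {a b t x : W} (hb : c b = c a) (ht : c t = c a) (hx : c x = c a)
    (hab : H.Adj a b) (hat : H.Adj a t) (hbt : H.Adj b t) (hax : H.Adj a x)
    (hxb : x ≠ b) (hxt : x ≠ t) : H.Adj x b ∨ H.Adj x t := by
  by_contra hcon
  push Not at hcon
  obtain ⟨h1, h2⟩ := hcon
  have h1' : ¬ H.Adj b x := fun h => h1 h.symm
  have h2' : ¬ H.Adj t x := fun h => h2 h.symm
  let g : Fin 4 → W := ![a, b, t, x]
  have hg : ∀ i, c (g i) = c a := by
    intro i; fin_cases i
    · rfl
    · exact hb
    · exact ht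
    · exact hx
  have hadj : ∀ i j, H.Adj (g i) (g j) ↔ paw.Adj i j := by
    intro i j
    fin_cases i <;> fin_cases j <;>
      simp [g, paw, hab, hat, hbt, hax, hab.symm, hat.symm, hbt.symm, hax.symm, h1, h2, h1', h2']
  have hinj : Function.Injective g := by
    intro i j hij
    have n1 := hab.ne
    have n2 := hat.ne
    have n3 := hbt.ne
    have n4 := hax.ne
    fin_cases i <;> fin_cases j <;>
      simp_all [g, ne_comm, eq_comm]
  exact (h (c a)).false (mkEmb (fun i => ⟨g i, hg i⟩)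
    (fun i j hij => hinj (congrArg Subtype.val hij)) (fun i j => hadj i j))

/-- `v` lies in a triangle inside its colour class -/
def InTri {W κ : Type} (H : SimpleGraph W) (c : W → κ) (v : W) : Prop :=
  ∃ a b, c a = c v ∧ c b = c v ∧ H.Adj v a ∧ H.Adj v b ∧ H.Adj a b

lemma edge_tri {W κ : Type} {H : SimpleGraph W} {c : W → κ} (h : IsFree H paw c)
    {v w : W} (hv : InTri H c v) (hvw : H.Adj v w) (hw : c w = c v) :
    ∃ t, c t = c v ∧ H.Adj t v ∧ H.Adj t w := by
  obtain ⟨a, b, ha, hb, hva, hvb, hab⟩ := hv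
  by_cases hwa : w = a
  · exact ⟨b, hb, hvb.symm, by rw [hwa]; exact hab.symm⟩
  by_cases hwb : w = b
  · exact ⟨a, ha, hva.symm, by rw [hwb]; exact hab⟩
  rcases no_paw h ha hb hw hva hvb hab hvw hwa hwb with h1 | h1
  · exact ⟨a, ha, hva.symm, h1.symm⟩
  · exact ⟨b, hb, hvb.symm, h1.symm⟩

lemma no_P4 {W κ : Type} {H : SimpleGraph W} {c : W → κ} (h : IsFree H paw c)
    {u v w x : W} (hv : InTri H c v) (cu : c u = c v) (cw : c w = c v) (cx : c x = c v)
    (huv : H.Adj u v) (hvw : H.Adj v w) (hwx : H.Adj w x) (huw : ¬ H.Adj u w)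
    (hvx : ¬ H.Adj v x) (hux : ¬ H.Adj u x) (huw' : u ≠ w) (hvx' : v ≠ x) (hux' : u ≠ x) :
    False := by
  obtain ⟨t, ct, htv, htw⟩ := edge_tri h hv hvw cw
  have hut : H.Adj u t := by
    rcases no_paw h (a := v) (b := w) (t := t) (x := u) cw ct cu hvw htv.symm htw.symm huv.symm
      huw' (by rintro rfl; exact huw htw) with h1 | h1
    · exact absurd h1 huw
    · exact h1
  have hxt : H.Adj x t := by
    rcases no_paw h (a := w) (b := v) (t := t) (x := x) cw.symm (ct.trans cw.symm)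
      (cx.trans cw.symm) hvw.symm htw.symm htv.symm hwx hvx'.symm
      (by rintro rfl; exact hvx htv.symm) with h1 | h1
    · exact absurd h1.symm hvx
    · exact h1
  rcases no_paw h (a := t) (b := u) (t := v) (x := x) (cu.trans ct.symm) ct.symm
    (cx.trans ct.symm) hut.symm htv huv hxt.symm hux'.symm hvx'.symm with h1 | h1
  · exact hux h1.symm
  · exact hvx h1.symm

/-- If `T` is triangle-free and not `2m`-colourable and `G` contains `T` and `K_{2m+1}`, then every
graph with a paw-free `m`-colouring has a `G`-free 2-colouring. -/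
theorem two_of_pawfree {W V U : Type} (m : ℕ) (T : SimpleGraph V)
    (hT3 : ∀ a b c, T.Adj a b → T.Adj b c → ¬ T.Adj a c) (hT : ¬ T.Colorable (m * 2))
    (G : SimpleGraph U) (eT : T ↪g G) (eK : (⊤ : SimpleGraph (Fin (2 * m + 1))) ↪g G)
    (H : SimpleGraph W) (c : W → Fin m) (hc : IsFree H paw c) :
    ∃ c2 : W → Fin 2, IsFree H G c2 := by
  classical
  refine ⟨fun v => if InTri H c v then 0 else 1, fun i => ⟨fun e => ?_⟩⟩
  have hi : i = 0 ∨ i = 1 := by omega
  rcases hi with rfl | rfl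
  · -- the class of the vertices in triangles
    let φ : T ↪g H.induce {v | (if InTri H c v then (0 : Fin 2) else 1) = 0} := e.comp eT
    have hφ : ∀ v, InTri H c (φ v) := by
      intro v
      have := (φ v).2
      by_contra h
      simp only [Set.mem_ofPred_eq, if_neg h] at this
      exact absurd this (by decide)
    have hadj : ∀ a b, H.Adj (φ a) (φ b) ↔ T.Adj a b := fun a b => φ.map_adj_iff
    have hinj : ∀ a b, (φ a : W) = φ b → a = b := fun a b h => φ.injective (Subtype.ext h)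
    have hcol : ∀ i : Fin m, (T.induce {v | c (φ v) = i}).Colorable 2 := by
      intro i
      apply two_colorable_of
      · intro a b d h1 h2 h3
        exact hT3 a b d h1 h2 h3
      · rintro ⟨a, ha⟩ ⟨b, hb⟩ ⟨d, hd⟩ ⟨f, hf⟩ h1 h2 h3 h4 h5 h6 h7 h8 h9
        simp only [Set.mem_ofPred_eq] at ha hb hd hf
        simp only [SimpleGraph.comap_adj, Function.Embedding.subtype_apply, ne_eq,
          Subtype.mk.injEq] at h1 h2 h3 h4 h5 h6 h7 h8 h9
        refine no_P4 hc (hφ b) (ha.trans hb.symm) (hd.trans hb.symm) (hf.trans hb.symm)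
          ((hadj a b).2 h1) ((hadj b d).2 h2) ((hadj d f).2 h3) ?_ ?_ ?_ ?_ ?_ ?_
        · intro h; exact h4 ((hadj a d).1 h)
        · intro h; exact h5 ((hadj b f).1 h)
        · intro h; exact h6 ((hadj a f).1 h)
        · intro h; exact h7 (hinj _ _ h)
        · intro h; exact h8 (hinj _ _ h)
        · intro h; exact h9 (hinj _ _ h)
    have col := fun i => (hcol i).some
    apply hT
    have hcard : Fintype.card (Fin m × Fin 2) = m * 2 := by simp
    rw [← hcard]
    refine (SimpleGraph.Coloring.mk (fun v => (c (φ v), col (c (φ v)) ⟨v, rfl⟩)) ?_).colorable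
    intro a b hab heq
    simp only [Prod.mk.injEq] at heq
    obtain ⟨h1, h2⟩ := heq
    have key : ∀ (i : Fin m) (hi : c (φ b) = i),
        col (c (φ b)) ⟨b, rfl⟩ = col i ⟨b, hi⟩ := by
      rintro i rfl; rfl
    rw [key _ h1.symm] at h2
    exact (col (c (φ a))).valid
      (show (T.induce {v | c (φ v) = c (φ a)}).Adj ⟨a, rfl⟩ ⟨b, h1.symm⟩ from hab) h2
  · -- the class of the vertices not in triangles
    let ψ : (⊤ : SimpleGraph (Fin (2 * m + 1))) ↪g
      H.induce {v | (if InTri H c v then (0 : Fin 2) else 1) = 1} := e.comp eK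
    have hψ : ∀ v, ¬ InTri H c (ψ v) := by
      intro v h
      have := (ψ v).2
      simp only [Set.mem_ofPred_eq, if_pos h] at this
      exact absurd this (by decide)
    have hadj : ∀ a b, a ≠ b → H.Adj (ψ a) (ψ b) := fun a b h => ψ.map_adj_iff.2 h
    obtain ⟨i, hi⟩ := Fintype.exists_lt_card_fiber_of_mul_lt_card
      (fun v : Fin (2 * m + 1) => c (ψ v)) (n := 2) (by simp; omega)
    rw [Finset.two_lt_card] at hi
    obtain ⟨x, hx, y, hy, z, hz, hxy, hxz, hyz⟩ := hi
    simp only [Finset.mem_filter, Finset.mem_univ, true_and] at hx hy hz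
    exact hψ x ⟨ψ y, ψ z, hy.trans hx.symm, hz.trans hx.symm, hadj x y hxy, hadj x z hxz,
      hadj y z hyz⟩

/-- `T` together with a complete graph on `k+1` vertices, one vertex of which is joined to all
vertices of `T`. -/
def GG {V : Type} (T : SimpleGraph V) (k : ℕ) : SimpleGraph (V ⊕ Fin (k + 1)) where
  Adj
    | .inl a, .inl b => T.Adj a b
    | .inl _, .inr j => j = 0
    | .inr j, .inl _ => j = 0
    | .inr i, .inr j => i ≠ j
  symm := ⟨by
    rintro (a | i) (b | j) h
    · exact T.symm.symm _ _ h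
    · exact h
    · exact h
    · exact fun h' => h h'.symm⟩
  loopless := ⟨by
    rintro (a | i) h
    · exact T.loopless.irrefl _ h
    · exact h rfl⟩

lemma GG_connected {V : Type} (T : SimpleGraph V) (k : ℕ) : (GG T k).Connected := by
  have h : ∀ x, (GG T k).Reachable (.inr 0) x := by
    rintro (a | i)
    · exact SimpleGraph.Adj.reachable (show (GG T k).Adj (.inr 0) (.inl a) from rfl)
    · by_cases hi : (0 : Fin (k + 1)) = i
      · rw [hi]
      · exact SimpleGraph.Adj.reachable (show (GG T k).Adj (.inr 0) (.inr i) from hi)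
  have : Nonempty (V ⊕ Fin (k + 1)) := ⟨.inr 0⟩
  exact ⟨fun x y => (h x).symm.trans (h y)⟩

/-- the embedding of `T` -/
def embT {V : Type} (T : SimpleGraph V) (k : ℕ) : T ↪g GG T k :=
  mkEmb Sum.inl Sum.inl_injective (fun _ _ => Iff.rfl)

/-- the embedding of the complete graph -/
def embK {V : Type} (T : SimpleGraph V) (k : ℕ) : (⊤ : SimpleGraph (Fin (k + 1))) ↪g GG T k :=
  mkEmb Sum.inr Sum.inr_injective (fun _ _ => Iff.rfl)

lemma GG_rr {V : Type} (T : SimpleGraph V) (k : ℕ) (i j : Fin (k + 1)) :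
    (GG T k).Adj (.inr i) (.inr j) ↔ i ≠ j := Iff.rfl

lemma GG_lr {V : Type} (T : SimpleGraph V) (k : ℕ) (x : V) (j : Fin (k + 1)) :
    (GG T k).Adj (.inl x) (.inr j) ↔ j = 0 := Iff.rfl

lemma GG_rl {V : Type} (T : SimpleGraph V) (k : ℕ) (x : V) (j : Fin (k + 1)) :
    (GG T k).Adj (.inr j) (.inl x) ↔ j = 0 := Iff.rfl

/-- `paw` in the graph -/
def embPaw {V : Type} (T : SimpleGraph V) (k : ℕ) (hk : 2 ≤ k) (x : V) : paw ↪g GG T k :=
  mkEmb ![.inr 0, .inr ⟨1, by omega⟩, .inr ⟨2, by omega⟩, .inl x] (by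
    have h1 : (0 : Fin (k + 1)) ≠ ⟨1, by omega⟩ := by
      intro h; exact absurd (congrArg Fin.val h) (by simp)
    have h2 : (0 : Fin (k + 1)) ≠ ⟨2, by omega⟩ := by
      intro h; exact absurd (congrArg Fin.val h) (by simp)
    have h3 : (⟨1, by omega⟩ : Fin (k + 1)) ≠ ⟨2, by omega⟩ := by
      intro h; exact absurd (congrArg Fin.val h) (by simp)
    intro i j hij
    fin_cases i <;> fin_cases j <;>
      first
      | rfl
      | (exfalso; exact h1 (Sum.inr.inj hij))
      | (exfalso; exact h2 (Sum.inr.inj hij))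
      | (exfalso; exact h3 (Sum.inr.inj hij))
      | (exfalso; exact h1 (Sum.inr.inj hij).symm)
      | (exfalso; exact h2 (Sum.inr.inj hij).symm)
      | (exfalso; exact h3 (Sum.inr.inj hij).symm)
      | (exfalso; exact Sum.inl_ne_inr hij)
      | (exfalso; exact Sum.inr_ne_inl hij)) (by
    have h1 : (0 : Fin (k + 1)) ≠ ⟨1, by omega⟩ := by
      intro h; exact absurd (congrArg Fin.val h) (by simp)
    have h2 : (0 : Fin (k + 1)) ≠ ⟨2, by omega⟩ := by
      intro h; exact absurd (congrArg Fin.val h) (by simp)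
    have h3 : (⟨1, by omega⟩ : Fin (k + 1)) ≠ ⟨2, by omega⟩ := by
      intro h; exact absurd (congrArg Fin.val h) (by simp)
    have hs : ∀ i j, paw.Adj i j → (GG T k).Adj
        ((![.inr 0, .inr ⟨1, by omega⟩, .inr ⟨2, by omega⟩, .inl x] : Fin 4 → V ⊕ Fin (k + 1)) i)
        ((![.inr 0, .inr ⟨1, by omega⟩, .inr ⟨2, by omega⟩, .inl x] : Fin 4 → V ⊕ Fin (k + 1)) j)
        := by
      intro i j h
      fin_cases i <;> fin_cases j <;>
      first
      | exact h1
      | exact h2
      | exact h3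
      | exact h1.symm
      | exact h2.symm
      | exact h3.symm
      | exact rfl
      | exact absurd h (by decide)
    have hn : ∀ i j, ¬ paw.Adj i j → ¬ (GG T k).Adj
        ((![.inr 0, .inr ⟨1, by omega⟩, .inr ⟨2, by omega⟩, .inl x] : Fin 4 → V ⊕ Fin (k + 1)) i)
        ((![.inr 0, .inr ⟨1, by omega⟩, .inr ⟨2, by omega⟩, .inl x] : Fin 4 → V ⊕ Fin (k + 1)) j)
        := by
      intro i j h
      fin_cases i <;> fin_cases j <;>
      first
      | exact absurd (by decide) h
      | exact (GG T k).loopless.irrefl _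
      | exact h1.symm
      | exact h2.symm
    intro i j
    exact ⟨fun h => by by_contra h'; exact hn i j h' h, hs i j⟩)

lemma not_free_one {V U : Type} [Nonempty V] {G : SimpleGraph V} {F : SimpleGraph U}
    (e : F ↪g G) {k : ℕ} (hk : k < 2) (c : V → Fin k) : ¬ IsFree G F c := by
  intro h
  obtain ⟨v⟩ := ‹Nonempty V›
  have hc : ∀ w, c w = c v := by
    intro w
    apply Fin.ext
    have h1 := (c w).2
    have h2 := (c v).2
    omega
  exact (h (c v)).false (mkEmb (fun u => ⟨e u, hc _⟩)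
    (fun a b hab => e.injective (congrArg Subtype.val hab)) (fun a b => e.map_adj_iff))

lemma GG_split_paw {V : Type} (T : SimpleGraph V)
    (hT3 : ∀ a b c, T.Adj a b → T.Adj b c → ¬ T.Adj a c) (k : ℕ) :
    IsFree (GG T k) paw (fun v => if v.isLeft then (0 : Fin 2) else 1) := by
  intro i
  refine ⟨fun e => ?_⟩
  have hi : i = 0 ∨ i = 1 := by omega
  have hadj : ∀ a b, (GG T k).Adj (e a) (e b) ↔ paw.Adj a b := fun a b => e.map_adj_iff
  rcases hi with rfl | rfl
  · have hl : ∀ a, ∃ t, (e a : V ⊕ Fin (k + 1)) = .inl t := by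
      intro a
      have := (e a).2
      simp only [Set.mem_ofPred_eq] at this
      rcases h : (e a : V ⊕ Fin (k + 1)) with t | j
      · exact ⟨t, rfl⟩
      · rw [h] at this
        simp at this
    obtain ⟨x, hx⟩ := hl 0
    obtain ⟨y, hy⟩ := hl 1
    obtain ⟨z, hz⟩ := hl 2
    have h1 := (hadj 0 1).2 (by decide)
    have h2 := (hadj 1 2).2 (by decide)
    have h3 := (hadj 0 2).2 (by decide)
    rw [hx, hy] at h1
    rw [hy, hz] at h2
    rw [hx, hz] at h3
    exact hT3 _ _ _ h1 h2 h3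
  · have hl : ∀ a, ∃ t, (e a : V ⊕ Fin (k + 1)) = .inr t := by
      intro a
      have := (e a).2
      simp only [Set.mem_ofPred_eq] at this
      rcases h : (e a : V ⊕ Fin (k + 1)) with t | j
      · rw [h] at this
        simp at this
      · exact ⟨j, rfl⟩
    obtain ⟨x, hx⟩ := hl 1
    obtain ⟨y, hy⟩ := hl 3
    have h1 : ¬ (GG T k).Adj (e 1) (e 3) := fun h => absurd ((hadj 1 3).1 h) (by decide)
    rw [hx, hy] at h1
    have h2 : x = y := by
      by_contra h
      exact h1 h
    rw [h2, ← hy] at hx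
    have := e.injective (Subtype.ext hx)
    exact absurd this (by decide)

lemma GG_split_self {V : Type} (T : SimpleGraph V) (x0 : V)
    (hT3 : ∀ a b c, T.Adj a b → T.Adj b c → ¬ T.Adj a c) (k : ℕ) (hk : 2 ≤ k) :
    IsFree (GG T k) (GG T k) (fun v => if v.isLeft then (0 : Fin 2) else 1) := by
  intro i
  refine ⟨fun e => ?_⟩
  exact ((GG_split_paw T hT3 k) i).false (e.comp (embPaw T k hk x0))

lemma GG_freeChi_paw {V : Type} (T : SimpleGraph V) (x0 : V)
    (hT3 : ∀ a b c, T.Adj a b → T.Adj b c → ¬ T.Adj a c) (k : ℕ) (hk : 2 ≤ k) :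
    FreeChi (GG T k) paw 2 := by
  have : Nonempty (V ⊕ Fin (k + 1)) := ⟨.inr 0⟩
  refine ⟨⟨_, GG_split_paw T hT3 k⟩, ?_⟩
  rintro j ⟨c, hc⟩
  by_contra hj
  exact not_free_one (embPaw T k hk x0) (by omega) c hc

lemma GG_freeChi_self {V : Type} (T : SimpleGraph V) (x0 : V)
    (hT3 : ∀ a b c, T.Adj a b → T.Adj b c → ¬ T.Adj a c) (k : ℕ) (hk : 2 ≤ k) :
    FreeChi (GG T k) (GG T k) 2 := by
  have : Nonempty (V ⊕ Fin (k + 1)) := ⟨.inr 0⟩
  refine ⟨⟨_, GG_split_self T x0 hT3 k hk⟩, ?_⟩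
  rintro j ⟨c, hc⟩
  by_contra hj
  exact not_free_one (SimpleGraph.Embedding.refl) (by omega) c hc

lemma shift_triangleFree (N : ℕ) :
    ∀ a b c, (shift N).Adj a b → (shift N).Adj b c → ¬ (shift N).Adj a c := by
  rintro ⟨⟨a1, a2⟩, ha⟩ ⟨⟨b1, b2⟩, hb⟩ ⟨⟨c1, c2⟩, hc⟩ h1 h2 h3
  change a2 = b1 ∨ b2 = a1 at h1
  change b2 = c1 ∨ c2 = b1 at h2
  change a2 = c1 ∨ c2 = a1 at h3
  simp only at ha hb hc
  omega

/-- the triangle-free graph used -/
abbrev TT (N : ℕ) : SimpleGraph (SV (2 ^ (N * 2) + 1)) := shift (2 ^ (N * 2) + 1)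

lemma TT_not_colorable (N : ℕ) : ¬ (TT N).Colorable (N * 2) := by
  intro h
  have := le_of_shift_colorable h
  omega

/-- a vertex -/
def x0 (N : ℕ) : SV (2 ^ (N * 2) + 1) :=
  ⟨(⟨0, by positivity⟩, ⟨1, by have := Nat.one_le_two_pow (n := N * 2); omega⟩), by
    simp [Fin.lt_def]⟩

/-- the graph not related to the paw -/
abbrev GN (N : ℕ) := GG (TT N) (2 * N)

theorem two_of (N m : ℕ) (hm : m ≤ N) {W : Type} (H : SimpleGraph W) (c : W → Fin m)
    (hc : IsFree H paw c) : ∃ c2 : W → Fin 2, IsFree H (GN N) c2 := by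
  refine two_of_pawfree N (TT N) (shift_triangleFree _) (TT_not_colorable N) (GN N) (embT _ _)
    (embK _ _) H (fun v => Fin.castLE hm (c v)) ?_
  intro i
  refine ⟨fun e => ?_⟩
  have h0 : Fin.castLE hm (c (e 0)) = i := (e 0).2
  refine (hc (c (e 0))).false (mkEmb (fun u => ⟨e u, ?_⟩)
    (fun a b hab => by have h := congrArg Subtype.val hab; exact e.injective (Subtype.ext h))
    (fun a b => e.map_adj_iff))
  have h1 : Fin.castLE hm (c (e u)) = i := (e u).2
  exact Fin.castLE_injective hm (h1.trans h0.symm)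

theorem not_related (N m : ℕ) (hm : m ≤ N) (h3 : 3 ≤ m) : ¬ RelatedN m paw (GN N) := by
  rintro ⟨W, _, H, ⟨⟨c, hc⟩, -⟩, ⟨-, h2⟩⟩
  have := h2 (two_of N m hm H c hc)
  omega

theorem related_two (N : ℕ) (hN : 1 ≤ N) : RelatedN 2 paw (GN N) :=
  ⟨_, inferInstance, GN N, GG_freeChi_paw _ (x0 N) (shift_triangleFree _) _ (by omega),
    GG_freeChi_self _ (x0 N) (shift_triangleFree _) _ (by omega)⟩

lemma paw_connected : paw.Connected := by
  have h : ∀ x, paw.Reachable 0 x := by
    intro x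
    by_cases hx : x = 0
    · rw [hx]
    · exact SimpleGraph.Adj.reachable ⟨fun h => hx h.symm, Or.inl rfl⟩
  exact ⟨fun x y => (h x).symm.trans (h y)⟩

lemma paw_free_big (N : ℕ) (hN : 2 ≤ N) : FreeChi paw (GN N) 1 := by
  refine ⟨⟨fun _ => 0, fun i => ⟨fun e => ?_⟩⟩, ?_⟩
  · have hinj : Function.Injective
        (fun j : Fin (2 * N + 1) => ((e (.inr j) : {v | (fun _ => (0 : Fin 1)) v = i}) : Fin 4)) :=
      Subtype.val_injective.comp (e.injective.comp Sum.inr_injective)
    have := Fintype.card_le_of_injective _ hinj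
    simp only [Fintype.card_fin] at this
    omega
  · rintro k ⟨c, -⟩
    exact (c 0).pos

end Pool.Agent.X76.PawGraph
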