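import Pool.Agent.TH87.RVC.Main

set_option autoImplicit false

/-! Pairs of nonadjacent vertices whose neighbourhoods differ in `j` vertices. -/

namespace Pool.Agent.X76.TW

open Finset
open Pool.Agent.H234RC (Hypo NonIso)

variable {V : Type} [Fintype V]

open Classical in
/-- the vertices adjacent to exactly one of `a`, `b` -/
noncomputable def dif (G : SimpleGraph V) (a b : V) : Finset V :=
  univ.filter (fun x => ¬ (G.Adj a x ↔ G.Adj b x))

/-- `a` and `b` have the same neighbours -/
def Tw (G : SimpleGraph V) (a b : V) : Prop := ∀ x, G.Adj a x ↔ G.Adj b x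

/-- `a` and `b` have the same neighbours apart from `w` -/
def TwO (G : SimpleGraph V) (w a b : V) : Prop := ∀ x, x ≠ w → (G.Adj a x ↔ G.Adj b x)

open Classical in
/-- ordered pairs of different nonadjacent vertices -/
noncomputable def prs (G : SimpleGraph V) : Finset (V × V) :=
  univ.filter (fun p => p.1 ≠ p.2 ∧ ¬ G.Adj p.1 p.2)

open Classical in
noncomputable def tau (G : SimpleGraph V) (j : ℕ) : ℕ :=
  ((prs G).filter (fun p => (dif G p.1 p.2).card = j)).card

open Classical in
noncomputable def tauO (G : SimpleGraph V) (w : V) (j : ℕ) : ℕ :=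
  ((prs G).filter (fun p => p.1 ≠ w ∧ p.2 ≠ w ∧ ((dif G p.1 p.2).erase w).card = j)).card

theorem mem_dif (G : SimpleGraph V) (a b x : V) :
    x ∈ dif G a b ↔ ¬ (G.Adj a x ↔ G.Adj b x) := by
  simp [dif]

theorem mem_prs (G : SimpleGraph V) (p : V × V) :
    p ∈ prs G ↔ p.1 ≠ p.2 ∧ ¬ G.Adj p.1 p.2 := by
  simp [prs]

theorem dif_left (G : SimpleGraph V) {a b : V} (h : ¬ G.Adj a b) : a ∉ dif G a b := by
  rw [mem_dif, not_not]
  exact ⟨fun h' => absurd h' (G.loopless.irrefl a), fun h' => absurd h'.symm h⟩

theorem dif_right (G : SimpleGraph V) {a b : V} (h : ¬ G.Adj a b) : b ∉ dif G a b := by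
  rw [mem_dif, not_not]
  exact ⟨fun h' => absurd h' h, fun h' => absurd h' (G.loopless.irrefl b)⟩

open Classical in
/-- Kelly's double counting -/
theorem sum_tauO (G : SimpleGraph V) (j : ℕ) :
    (∑ w, (tauO G w j : ℤ)) = ((Fintype.card V : ℤ) - 2 - j) * tau G j + (j + 1) * tau G (j + 1) := by
  have h1 : (∑ w, tauO G w j) = ∑ p ∈ prs G, (univ.filter (fun w => p.1 ≠ w ∧ p.2 ≠ w ∧
      ((dif G p.1 p.2).erase w).card = j)).card := by
    unfold tauO
    simp_rw [card_filter]
    rw [sum_comm]
  have h2 : ∀ p ∈ prs G, ((univ.filter (fun w => p.1 ≠ w ∧ p.2 ≠ w ∧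
      ((dif G p.1 p.2).erase w).card = j)).card : ℤ) =
      (if (dif G p.1 p.2).card = j then ((Fintype.card V : ℤ) - 2 - j) else 0) +
      (if (dif G p.1 p.2).card = j + 1 then ((j : ℤ) + 1) else 0) := by
    intro p hp
    rw [mem_prs] at hp
    have hl := dif_left G hp.2
    have hr := dif_right G hp.2
    by_cases c1 : (dif G p.1 p.2).card = j
    · rw [if_pos c1, if_neg (by omega), add_zero]
      have e : univ.filter (fun w => p.1 ≠ w ∧ p.2 ≠ w ∧ ((dif G p.1 p.2).erase w).card = j) =
          univ \ (insert p.1 (insert p.2 (dif G p.1 p.2))) := by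
        ext w
        simp only [mem_filter, mem_univ, true_and, mem_sdiff, mem_insert, not_or]
        constructor
        · rintro ⟨h1, h2, h3⟩
          refine ⟨fun h => h1 h.symm, fun h => h2 h.symm, fun h => ?_⟩
          rw [card_erase_of_mem h] at h3
          have := card_pos.mpr ⟨w, h⟩
          omega
        · rintro ⟨h1, h2, h3⟩
          exact ⟨fun h => h1 h.symm, fun h => h2 h.symm, by rw [erase_eq_of_notMem h3]; exact c1⟩
      rw [e, cast_card_sdiff (subset_univ _), card_univ, card_insert_of_notMem, card_insert_of_notMem hr, c1]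
      · push_cast; ring
      · rw [mem_insert, not_or]
        exact ⟨hp.1, hl⟩
    · rw [if_neg c1, zero_add]
      by_cases c2 : (dif G p.1 p.2).card = j + 1
      · rw [if_pos c2]
        have e : univ.filter (fun w => p.1 ≠ w ∧ p.2 ≠ w ∧ ((dif G p.1 p.2).erase w).card = j) =
            dif G p.1 p.2 := by
          ext w
          simp only [mem_filter, mem_univ, true_and]
          constructor
          · rintro ⟨h1, h2, h3⟩
            by_contra h
            rw [erase_eq_of_notMem h] at h3
            exact c1 h3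
          · intro h
            exact ⟨fun h' => hl (h' ▸ h), fun h' => hr (h' ▸ h), by rw [card_erase_of_mem h]; omega⟩
        rw [e, c2]
        push_cast
        ring
      · rw [if_neg c2]
        have e : univ.filter (fun w => p.1 ≠ w ∧ p.2 ≠ w ∧ ((dif G p.1 p.2).erase w).card = j) =
            ∅ := by
          ext w
          simp only [mem_filter, mem_univ, true_and, notMem_empty, iff_false]
          rintro ⟨h1, h2, h3⟩
          by_cases h : w ∈ dif G p.1 p.2
          · rw [card_erase_of_mem h] at h3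
            have := card_pos.mpr ⟨w, h⟩
            omega
          · rw [erase_eq_of_notMem h] at h3
            exact c1 h3
        rw [e]
        simp
  have h3 : (∑ w, (tauO G w j : ℤ)) = ((∑ w, tauO G w j : ℕ) : ℤ) := by push_cast; rfl
  rw [h3, h1]
  push_cast
  rw [sum_congr rfl h2, sum_add_distrib, ← sum_filter, ← sum_filter, sum_const, sum_const]
  simp only [tau, nsmul_eq_mul]
  ring

variable {G H : SimpleGraph V} {π : V → Equiv.Perm V}

open Classical in
theorem tauO_eq (hH : Hypo G H π) (w : V) (j : ℕ) : tauO G w j = tauO H w j := by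
  unfold tauO
  apply card_bij (fun p _ => (π w p.1, π w p.2))
  · intro p hp
    rw [mem_filter, mem_prs] at hp ⊢
    obtain ⟨⟨h1, h2⟩, h3, h4, h5⟩ := hp
    have e1 : π w p.1 ≠ w := fun h => h3 ((π w).injective (by rw [h, hH.fix]))
    have e2 : π w p.2 ≠ w := fun h => h4 ((π w).injective (by rw [h, hH.fix]))
    refine ⟨⟨fun h => h1 ((π w).injective h), fun h => h2 ((hH.adj w _ _ h3 h4).1 h)⟩, e1, e2, ?_⟩
    rw [← h5]
    have e : (dif H (π w p.1) (π w p.2)).erase w =
        ((dif G p.1 p.2).erase w).map (π w).toEmbedding := by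
      ext x
      rw [mem_map]
      simp only [Equiv.coe_toEmbedding, mem_erase, mem_dif]
      constructor
      · rintro ⟨hx, hx2⟩
        refine ⟨(π w).symm x, ?_, by simp⟩
        have hx3 : (π w).symm x ≠ w := by
          intro h
          apply hx
          rw [← (π w).apply_symm_apply x, h, hH.fix]
        refine ⟨hx3, fun h => hx2 ?_⟩
        have g1 := hH.adj w p.1 ((π w).symm x) h3 hx3
        have g2 := hH.adj w p.2 ((π w).symm x) h4 hx3
        rw [Equiv.apply_symm_apply] at g1 g2
        rw [g1, g2]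
        exact h
      · rintro ⟨y, ⟨hy, hy2⟩, rfl⟩
        refine ⟨fun h => hy ((π w).injective (by rw [h, hH.fix])), fun h => hy2 ?_⟩
        rw [← hH.adj w p.1 y h3 hy, ← hH.adj w p.2 y h4 hy]
        exact h
    rw [e, card_map]
  · intro p _ q _ h
    rw [Prod.mk.injEq] at h
    exact Prod.ext ((π w).injective h.1) ((π w).injective h.2)
  · intro q hq
    rw [mem_filter, mem_prs] at hq
    obtain ⟨⟨h1, h2⟩, h3, h4, h5⟩ := hq
    have e1 : (π w).symm q.1 ≠ w := by
      intro h
      apply h3
      rw [← (π w).apply_symm_apply q.1, h, hH.fix]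
    have e2 : (π w).symm q.2 ≠ w := by
      intro h
      apply h4
      rw [← (π w).apply_symm_apply q.2, h, hH.fix]
    refine ⟨((π w).symm q.1, (π w).symm q.2), ?_, by simp⟩
    rw [mem_filter, mem_prs]
    refine ⟨⟨fun h => h1 ((π w).symm.injective h), fun h => h2 ?_⟩, e1, e2, ?_⟩
    · have := hH.adj w _ _ e1 e2
      rw [Equiv.apply_symm_apply, Equiv.apply_symm_apply] at this
      exact this.2 h
    · rw [← h5]
      have e : (dif H q.1 q.2).erase w =
          ((dif G ((π w).symm q.1) ((π w).symm q.2)).erase w).map (π w).toEmbedding := by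
        ext x
        rw [mem_map]
        simp only [Equiv.coe_toEmbedding, mem_erase, mem_dif]
        constructor
        · rintro ⟨hx, hx2⟩
          refine ⟨(π w).symm x, ?_, by simp⟩
          have hx3 : (π w).symm x ≠ w := by
            intro h
            apply hx
            rw [← (π w).apply_symm_apply x, h, hH.fix]
          refine ⟨hx3, fun h => hx2 ?_⟩
          have g1 := hH.adj w ((π w).symm q.1) ((π w).symm x) e1 hx3
          have g2 := hH.adj w ((π w).symm q.2) ((π w).symm x) e2 hx3
          rw [Equiv.apply_symm_apply, Equiv.apply_symm_apply] at g1 g2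
          rw [g1, g2]
          exact h
        · rintro ⟨y, ⟨hy, hy2⟩, rfl⟩
          refine ⟨fun h => hy ((π w).injective (by rw [h, hH.fix])), fun h => hy2 ?_⟩
          have g1 := hH.adj w ((π w).symm q.1) y e1 hy
          have g2 := hH.adj w ((π w).symm q.2) y e2 hy
          rw [Equiv.apply_symm_apply] at g1 g2
          rw [← g1, ← g2]
          exact h
      rw [e, card_map]

theorem dif_card_le (G : SimpleGraph V) {p : V × V} (hp : p ∈ prs G) :
    (dif G p.1 p.2).card + 2 ≤ Fintype.card V := by
  classical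
  rw [mem_prs] at hp
  have hl := dif_left G hp.2
  have hr := dif_right G hp.2
  have := card_le_univ (insert p.1 (insert p.2 (dif G p.1 p.2)))
  rw [card_insert_of_notMem, card_insert_of_notMem hr] at this
  · omega
  · rw [mem_insert, not_or]
    exact ⟨hp.1, hl⟩

theorem sum_tau (G : SimpleGraph V) (N : ℕ) :
    ∑ j ∈ range N, tau G j ≤ Fintype.card V ^ 2 := by
  classical
  have h1 : ∑ j ∈ range N, tau G j ≤ (prs G).card := by
    unfold tau
    have := card_biUnion (s := range N) (t := fun j => (prs G).filter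
      (fun p => (dif G p.1 p.2).card = j)) (by
        intro a _ b _ hab
        rw [Function.onFun, disjoint_left]
        intro p hp hp'
        rw [mem_filter] at hp hp'
        exact hab (hp.2.symm.trans hp'.2))
    rw [← this]
    apply card_le_card
    intro p hp
    rw [mem_biUnion] at hp
    obtain ⟨j, _, hj⟩ := hp
    exact (mem_filter.mp hj).1
  refine h1.trans ((card_le_univ _).trans ?_)
  rw [Fintype.card_prod, sq]

/-- the number of twin pairs is determined by the deck -/
theorem tau_zero_eq (hH : Hypo G H π) (hn : 10 ≤ Fintype.card V) : tau G 0 = tau H 0 := by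
  set n := Fintype.card V with hnd
  set δ : ℕ → ℤ := fun j => (tau H j : ℤ) - tau G j with hδ
  have hrec : ∀ j : ℕ, ((n : ℤ) - 2 - j) * δ j + (j + 1) * δ (j + 1) = 0 := by
    intro j
    have h1 := sum_tauO G j
    have h2 := sum_tauO H j
    have h3 : (∑ w, (tauO G w j : ℤ)) = ∑ w, (tauO H w j : ℤ) :=
      sum_congr rfl (fun w _ => by rw [tauO_eq hH w j])
    rw [h1, h2] at h3
    simp only [hδ]
    linarith
  have hform : ∀ j : ℕ, j ≤ n - 2 → δ j = (-1) ^ j * ((n - 2).choose j : ℤ) * δ 0 := by
    intro j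
    induction j with
    | zero => intro _; simp
    | succ j ih =>
      intro hj
      have h1 := hrec j
      have h2 := ih (by omega)
      have h3 := Nat.choose_succ_right_eq (n - 2) j
      have h4 : (((n - 2).choose (j + 1) : ℤ)) * ((j : ℤ) + 1) =
          ((n - 2).choose j : ℤ) * ((n : ℤ) - 2 - j) := by
        have := congrArg (fun k : ℕ => (k : ℤ)) h3
        simp only [Nat.cast_mul] at this
        rw [Nat.cast_sub (by omega), Nat.cast_sub (by omega)] at this
        push_cast at this
        exact this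
      have h5 : ((j : ℤ) + 1) ≠ 0 := by positivity
      apply mul_left_cancel₀ h5
      rw [h2] at h1
      have h6 : ((j : ℤ) + 1) * δ (j + 1) = - (((n : ℤ) - 2 - j) *
          ((-1) ^ j * ((n - 2).choose j : ℤ) * δ 0)) := by linarith
      rw [h6]
      have h7 : ((j : ℤ) + 1) * ((-1) ^ (j + 1) * ((n - 2).choose (j + 1) : ℤ) * δ 0) =
          (-1) ^ (j + 1) * (((n - 2).choose (j + 1) : ℤ) * ((j : ℤ) + 1)) * δ 0 := by ring
      rw [h7, h4]
      ring
  by_contra hne
  have hδ0 : δ 0 ≠ 0 := by
    simp only [hδ]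
    intro h
    apply hne
    omega
  have habs : ∀ j ∈ range (n - 2 + 1), ((n - 2).choose j : ℤ) ≤ |δ j| := by
    intro j hj
    rw [hform j (by rw [mem_range] at hj; omega), abs_mul, abs_mul, abs_pow, abs_neg, abs_one,
      one_pow, one_mul, Nat.abs_cast]
    have : 1 ≤ |δ 0| := Int.one_le_abs hδ0
    nlinarith [Nat.cast_nonneg (α := ℤ) ((n - 2).choose j)]
  have h1 : (2 : ℤ) ^ (n - 2) ≤ ∑ j ∈ range (n - 2 + 1), |δ j| := by
    have := Nat.sum_range_choose (n - 2)
    have h2 : (2 : ℤ) ^ (n - 2) = ∑ j ∈ range (n - 2 + 1), ((n - 2).choose j : ℤ) := by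
      exact_mod_cast this.symm
    rw [h2]
    exact sum_le_sum habs
  have h2 : ∑ j ∈ range (n - 2 + 1), |δ j| ≤ 2 * (n : ℤ) ^ 2 := by
    have h3 : ∀ j ∈ range (n - 2 + 1), |δ j| ≤ (tau H j : ℤ) + tau G j := by
      intro j _
      simp only [hδ]
      have := abs_sub (tau H j : ℤ) (tau G j)
      rw [Nat.abs_cast, Nat.abs_cast] at this
      exact this
    refine (sum_le_sum h3).trans ?_
    rw [sum_add_distrib]
    have h4 : (∑ j ∈ range (n - 2 + 1), (tau H j : ℤ)) ≤ (n : ℤ) ^ 2 := by
      exact_mod_cast sum_tau H (n - 2 + 1)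
    have h5 : (∑ j ∈ range (n - 2 + 1), (tau G j : ℤ)) ≤ (n : ℤ) ^ 2 := by
      exact_mod_cast sum_tau G (n - 2 + 1)
    linarith
  have h3 : ∀ k : ℕ, 2 * (k + 10) ^ 2 < 2 ^ (k + 8) := by
    intro k
    induction k with
    | zero => norm_num
    | succ k ih =>
      have e1 : 2 ^ (k + 1 + 8) = 2 * 2 ^ (k + 8) := by rw [← pow_succ']
      have e2 : 2 * (k + 1 + 10) ^ 2 ≤ 2 * (2 * (k + 10) ^ 2) := by ring_nf; nlinarith
      rw [e1]
      omega
  have h4 := h3 (n - 10)
  rw [show n - 10 + 10 = n by omega, show n - 10 + 8 = n - 2 by omega] at h4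
  have h5 : (2 * (n : ℤ) ^ 2) < 2 ^ (n - 2) := by exact_mod_cast h4
  linarith

end Pool.Agent.X76.TW
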