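import Pool.Agent.X76.TW1

set_option autoImplicit false

/-! Twins in the deck. -/

namespace Pool.Agent.X76.TW

open Finset
open Pool.Agent.H234RC (Hypo NonIso)

variable {V : Type} [Fintype V]

theorem Tw.refl (G : SimpleGraph V) (a : V) : Tw G a a := fun _ => Iff.rfl

theorem Tw.symm {G : SimpleGraph V} {a b : V} (h : Tw G a b) : Tw G b a := fun x => (h x).symm

theorem Tw.trans {G : SimpleGraph V} {a b c : V} (h : Tw G a b) (h' : Tw G b c) : Tw G a c :=
  fun x => (h x).trans (h' x)

theorem Tw.nadj {G : SimpleGraph V} {a b : V} (h : Tw G a b) : ¬ G.Adj a b := by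
  intro h'
  exact G.loopless.irrefl b ((h b).1 h')

theorem Tw.adj {G : SimpleGraph V} {a b x y : V} (h : Tw G a b) (h' : Tw G x y) :
    G.Adj a x ↔ G.Adj b y := by
  rw [h x, G.adj_comm, h' b, G.adj_comm]

theorem TwO.nadj {G : SimpleGraph V} {w a b : V} (hb : b ≠ w) (h : TwO G w a b) :
    ¬ G.Adj a b := by
  intro h'
  exact G.loopless.irrefl b ((h b hb).1 h')

theorem Tw.twO {G : SimpleGraph V} {a b : V} (h : Tw G a b) (w : V) : TwO G w a b :=
  fun x _ => h x

/-- if `w` has a twin, then twins without `w` are twins -/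
theorem TwO.tw {G : SimpleGraph V} {w w' a b : V} (hw : Tw G w w') (hne : w' ≠ w)
    (h : TwO G w a b) : Tw G a b := by
  intro x
  by_cases hx : x = w
  · subst hx
    rw [G.adj_comm, hw a, G.adj_comm, h w' hne, G.adj_comm, ← hw b, G.adj_comm]
  · exact h x hx

open Classical in
/-- the size of the twin class of `a` -/
noncomputable def cl (G : SimpleGraph V) (a : V) : ℕ := (univ.filter (fun b => Tw G a b)).card

theorem cl_pos (G : SimpleGraph V) (a : V) : 1 ≤ cl G a :=
  card_pos.mpr ⟨a, by simp [Tw.refl]⟩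

theorem two_le_cl_iff (G : SimpleGraph V) (a : V) : 2 ≤ cl G a ↔ ∃ b, b ≠ a ∧ Tw G a b := by
  classical
  constructor
  · intro h
    obtain ⟨x, hx, y, hy, hxy⟩ := one_lt_card.mp (show 1 < (univ.filter (fun b => Tw G a b)).card from h)
    rw [mem_filter] at hx hy
    by_cases h1 : x = a
    · exact ⟨y, fun h' => hxy (h1.trans h'.symm), hy.2⟩
    · exact ⟨x, h1, hx.2⟩
  · rintro ⟨b, hb, hab⟩
    exact one_lt_card.mpr ⟨a, by simp [Tw.refl], b, by simp [hab], fun h => hb h.symm⟩

theorem dif_card_zero (G : SimpleGraph V) (a b : V) : (dif G a b).card = 0 ↔ Tw G a b := by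
  rw [card_eq_zero, eq_empty_iff_forall_notMem]
  constructor
  · intro h x
    have := h x
    rw [mem_dif, not_not] at this
    exact this
  · intro h x
    rw [mem_dif, not_not]
    exact h x

theorem difO_card_zero (G : SimpleGraph V) [DecidableEq V] (w a b : V) :
    ((dif G a b).erase w).card = 0 ↔ TwO G w a b := by
  rw [card_eq_zero, eq_empty_iff_forall_notMem]
  constructor
  · intro h x hx
    have := h x
    rw [mem_erase, mem_dif, not_and, not_not] at this
    exact this hx
  · intro h x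
    rw [mem_erase, mem_dif, not_and, not_not]
    exact h x

open Classical in
theorem tau_zero (G : SimpleGraph V) :
    tau G 0 = (univ.filter (fun p : V × V => p.1 ≠ p.2 ∧ Tw G p.1 p.2)).card := by
  unfold tau
  congr 1
  ext p
  rw [mem_filter, mem_prs, mem_filter, dif_card_zero]
  constructor
  · rintro ⟨⟨h1, _⟩, h2⟩; exact ⟨mem_univ _, h1, h2⟩
  · rintro ⟨_, h1, h2⟩; exact ⟨⟨h1, h2.nadj⟩, h2⟩

open Classical in
theorem tauO_zero (G : SimpleGraph V) (w : V) :
    tauO G w 0 = (univ.filter (fun p : V × V => p.1 ≠ w ∧ p.2 ≠ w ∧ p.1 ≠ p.2 ∧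
      TwO G w p.1 p.2)).card := by
  unfold tauO
  congr 1
  ext p
  rw [mem_filter, mem_prs, mem_filter, difO_card_zero]
  constructor
  · rintro ⟨⟨h1, _⟩, h2, h3, h4⟩; exact ⟨mem_univ _, h2, h3, h1, h4⟩
  · rintro ⟨_, h2, h3, h1, h4⟩; exact ⟨⟨h1, h4.nadj h3⟩, h2, h3, h4⟩

/-- deleting a vertex without a twin does not reduce the number of twin pairs -/
theorem tauO_ge (G : SimpleGraph V) (w : V) (hw : cl G w = 1) : tau G 0 ≤ tauO G w 0 := by
  classical
  rw [tau_zero, tauO_zero]
  apply card_le_card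
  intro p hp
  rw [mem_filter] at hp ⊢
  have hnot : ∀ b, b ≠ w → ¬ Tw G w b := by
    intro b hb h
    have := (two_le_cl_iff G w).2 ⟨b, hb, h⟩
    omega
  refine ⟨mem_univ _, ?_, ?_, hp.2.1, hp.2.2.twO w⟩
  · rintro rfl
    exact hnot p.2 (fun h => hp.2.1 h.symm) hp.2.2
  · rintro rfl
    exact hnot p.1 hp.2.1 hp.2.2.symm

/-- deleting a vertex with a twin -/
theorem tauO_of_twin (G : SimpleGraph V) (w : V) (hw : 2 ≤ cl G w) :
    tauO G w 0 + 2 * (cl G w - 1) = tau G 0 := by
  classical
  obtain ⟨w', hne, hw'⟩ := (two_le_cl_iff G w).1 hw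
  rw [tau_zero, tauO_zero]
  set A := univ.filter (fun p : V × V => p.1 ≠ w ∧ p.2 ≠ w ∧ p.1 ≠ p.2 ∧ TwO G w p.1 p.2) with hA
  set T := (univ.filter (fun b => Tw G w b)).erase w with hT
  have hTc : T.card = cl G w - 1 := by
    rw [hT, card_erase_of_mem (by simp [Tw.refl])]
    rfl
  have e : univ.filter (fun p : V × V => p.1 ≠ p.2 ∧ Tw G p.1 p.2) =
      A ∪ (T.image (fun b => (w, b)) ∪ T.image (fun b => (b, w))) := by
    ext p
    rw [mem_filter, mem_union, mem_union, mem_image, mem_image, hA, mem_filter]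
    constructor
    · rintro ⟨_, h1, h2⟩
      by_cases c1 : p.1 = w
      · right; left
        refine ⟨p.2, ?_, ?_⟩
        · rw [hT, mem_erase, mem_filter]
          exact ⟨fun h => h1 (c1.trans h.symm), mem_univ _, c1 ▸ h2⟩
        · rw [← c1]
      · by_cases c2 : p.2 = w
        · right; right
          refine ⟨p.1, ?_, ?_⟩
          · rw [hT, mem_erase, mem_filter]
            exact ⟨c1, mem_univ _, c2 ▸ h2.symm⟩
          · rw [← c2]
        · left
          exact ⟨mem_univ _, c1, c2, h1, h2.twO w⟩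
    · rintro (⟨_, h1, h2, h3, h4⟩ | ⟨b, hb, rfl⟩ | ⟨b, hb, rfl⟩)
      · exact ⟨mem_univ _, h3, h4.tw hw' hne⟩
      · rw [hT, mem_erase, mem_filter] at hb
        exact ⟨mem_univ _, fun h => hb.1 h.symm, hb.2.2⟩
      · rw [hT, mem_erase, mem_filter] at hb
        exact ⟨mem_univ _, hb.1, hb.2.2.symm⟩
  rw [e, card_union_of_disjoint, card_union_of_disjoint, card_image_of_injective,
    card_image_of_injective, hTc]
  · ring
  · intro a b h; exact (Prod.mk.inj h).1
  · intro a b h; exact (Prod.mk.inj h).2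
  · rw [disjoint_left]
    rintro p h1 h2
    rw [mem_image] at h1 h2
    obtain ⟨b, hb, rfl⟩ := h1
    obtain ⟨c, hc, hcc⟩ := h2
    rw [hT, mem_erase] at hb
    exact hb.1 (Prod.mk.inj hcc).2.symm
  · rw [disjoint_left]
    rintro p h1 h2
    rw [hA, mem_filter] at h1
    rw [mem_union, mem_image, mem_image] at h2
    rcases h2 with ⟨b, hb, rfl⟩ | ⟨b, hb, rfl⟩
    · exact h1.2.1 rfl
    · exact h1.2.2.1 rfl

variable {G H : SimpleGraph V} {π : V → Equiv.Perm V}

/-- the sizes of the twin classes are determined, vertex by vertex -/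
theorem cl_eq (hH : Hypo G H π) (hn : 10 ≤ Fintype.card V) (v : V) : cl G v = cl H v := by
  have h0 := tau_zero_eq hH hn
  have h1 := tauO_eq hH v 0
  rcases Nat.lt_or_ge (cl G v) 2 with hG | hG
  · have hG1 : cl G v = 1 := by have := cl_pos G v; omega
    rcases Nat.lt_or_ge (cl H v) 2 with hK | hK
    · have := cl_pos H v; omega
    · have h2 := tauO_ge G v hG1
      have h3 := tauO_of_twin H v hK
      omega
  · have h2 := tauO_of_twin G v hG
    rcases Nat.lt_or_ge (cl H v) 2 with hK | hK
    · have h3 := tauO_ge H v (by have := cl_pos H v; omega)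
      omega
    · have h3 := tauO_of_twin H v hK
      omega

/-- twins in the card of `G` are twins in the card of `H` -/
theorem twO_iff (hH : Hypo G H π) (v a b : V) (ha : a ≠ v) (hb : b ≠ v) :
    TwO H v (π v a) (π v b) ↔ TwO G v a b := by
  constructor
  · intro h x hx
    have hx' : π v x ≠ v := fun h' => hx ((π v).injective (by rw [h', hH.fix]))
    have := h (π v x) hx'
    rw [hH.adj v a x ha hx, hH.adj v b x hb hx] at this
    exact this
  · intro h x hx
    have hx3 : (π v).symm x ≠ v := by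
      intro h
      apply hx
      rw [← (π v).apply_symm_apply x, h, hH.fix]
    have g1 := hH.adj v a ((π v).symm x) ha hx3
    have g2 := hH.adj v b ((π v).symm x) hb hx3
    rw [Equiv.apply_symm_apply] at g1 g2
    rw [g1, g2]
    exact h _ hx3

end Pool.Agent.X76.TW
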