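import Pool.Agent.X76.TW2

set_option autoImplicit false

/-! Similar vertices of a card, and the sizes of the twin classes. -/

namespace Pool.Agent.X76.TW

open Finset
open Pool.Agent.H234RC (Hypo NonIso)

variable {V : Type} [Fintype V]

open Classical in
/-- the number of neighbours of `y` different from `v` -/
noncomputable def dg (G : SimpleGraph V) (v y : V) : ℕ :=
  (univ.filter (fun x => x ≠ v ∧ G.Adj y x)).card

open Classical in
/-- the number of neighbours of `u` which have exactly `i` neighbours, all without `v` -/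
noncomputable def nd (G : SimpleGraph V) (v u : V) (i : ℕ) : ℕ :=
  (univ.filter (fun y => y ≠ v ∧ G.Adj u y ∧ dg G v y = i)).card

open Classical in
/-- the number of twins of `u` in `G - v`, itself included -/
noncomputable def clO (G : SimpleGraph V) (v u : V) : ℕ :=
  (univ.filter (fun x => x ≠ v ∧ TwO G v u x)).card

open Classical in
noncomputable def deg (G : SimpleGraph V) (y : V) : ℕ := (univ.filter (fun x => G.Adj y x)).card

variable {G H : SimpleGraph V} {π : V → Equiv.Perm V}

theorem symm_ne (hH : Hypo G H π) {v x : V} (hx : x ≠ v) : (π v).symm x ≠ v := by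
  intro h
  apply hx
  rw [← (π v).apply_symm_apply x, h, hH.fix]

theorem app_ne (hH : Hypo G H π) {v x : V} (hx : x ≠ v) : π v x ≠ v := by
  intro h
  exact hx ((π v).injective (by rw [h, hH.fix]))

theorem dg_eq (hH : Hypo G H π) (v y : V) (hy : y ≠ v) : dg H v (π v y) = dg G v y := by
  classical
  unfold dg
  symm
  apply card_bij (fun x _ => π v x)
  · intro x hx
    rw [mem_filter] at hx ⊢
    exact ⟨mem_univ _, app_ne hH hx.2.1, (hH.adj v y x hy hx.2.1).2 hx.2.2⟩
  · intro a _ b _ h
    exact (π v).injective h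
  · intro x hx
    rw [mem_filter] at hx
    refine ⟨(π v).symm x, ?_, by simp⟩
    rw [mem_filter]
    refine ⟨mem_univ _, symm_ne hH hx.2.1, ?_⟩
    rw [← hH.adj v y _ hy (symm_ne hH hx.2.1), Equiv.apply_symm_apply]
    exact hx.2.2

/-- every vertex has the same degree in `G` and `H` -/
theorem deg_eq' (hH : Hypo G H π) (hn : 3 ≤ Fintype.card V) (v : V) : deg G v = deg H v := by
  classical
  -- the sum of all degrees without `v`
  set s : SimpleGraph V → V → ℕ := fun K v => ∑ y ∈ univ.erase v, dg K v y with hs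
  have h1 : ∀ v, s G v = s H v := by
    intro v
    simp only [hs]
    apply sum_bij (fun y _ => π v y)
    · intro y hy
      rw [mem_erase] at hy ⊢
      exact ⟨app_ne hH hy.1, mem_univ _⟩
    · intro a _ b _ h
      exact (π v).injective h
    · intro y hy
      rw [mem_erase] at hy
      exact ⟨(π v).symm y, by rw [mem_erase]; exact ⟨symm_ne hH hy.1, mem_univ _⟩, by simp⟩
    · intro y hy
      rw [mem_erase] at hy
      exact (dg_eq hH v y hy.1).symm
  have hdg : ∀ (K : SimpleGraph V) (v y : V), dg K v y + (if K.Adj y v then 1 else 0) = deg K y := by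
    intro K v y
    unfold dg deg
    by_cases h : K.Adj y v
    · rw [if_pos h]
      have e : univ.filter (fun x => x ≠ v ∧ K.Adj y x) = (univ.filter (fun x => K.Adj y x)).erase v := by
        ext x; simp [mem_erase]
      rw [e, card_erase_of_mem (by simp [h])]
      have := card_pos.mpr (⟨v, by simp [h]⟩ : (univ.filter (fun x => K.Adj y x)).Nonempty)
      omega
    · rw [if_neg h, add_zero]
      congr 1
      ext x
      simp only [mem_filter, mem_univ, true_and]
      constructor
      · exact fun h' => h'.2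
      · exact fun h' => ⟨fun e => h (e ▸ h'), h'⟩
  have h2 : ∀ (K : SimpleGraph V) (v : V), s K v + 2 * deg K v = ∑ y, deg K y := by
    intro K v
    simp only [hs]
    rw [← add_sum_erase univ (fun y => deg K y) (mem_univ v)]
    have : ∑ y ∈ univ.erase v, deg K y = (∑ y ∈ univ.erase v, dg K v y) + deg K v := by
      rw [sum_congr rfl (fun y _ => (hdg K v y).symm), sum_add_distrib]
      congr 1
      rw [← card_filter]
      unfold deg
      congr 1
      ext x
      simp only [mem_filter, mem_univ, true_and, mem_erase, and_true]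
      constructor
      · exact fun h' => h'.2.symm
      · exact fun h' => ⟨h'.ne.symm, h'.symm⟩
    omega
  have h3 : ∀ (K : SimpleGraph V), (∑ v, s K v) + 2 * (∑ y, deg K y) = Fintype.card V * ∑ y, deg K y := by
    intro K
    rw [mul_sum, ← sum_add_distrib, sum_congr rfl (fun v _ => h2 K v), sum_const, card_univ, smul_eq_mul]
  have h4 : (∑ v, s G v) = ∑ v, s H v := sum_congr rfl (fun v _ => h1 v)
  have h5 := h3 G
  have h6 := h3 H
  have h7 : (∑ y, deg G y) = ∑ y, deg H y := by
    rw [h4] at h5
    have h8 : (Fintype.card V - 2) * (∑ y, deg G y) = (Fintype.card V - 2) * ∑ y, deg H y := by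
      rw [Nat.sub_mul, Nat.sub_mul]
      omega
    exact Nat.eq_of_mul_eq_mul_left (by omega) h8
  have h8 := h2 G v
  have h9 := h2 H v
  have h10 := h1 v
  omega

theorem dg_add (K : SimpleGraph V) (v y : V) [Decidable (K.Adj v y)] :
    dg K v y + (if K.Adj v y then 1 else 0) = deg K y := by
  classical
  unfold dg deg
  by_cases h : K.Adj v y
  · rw [if_pos h]
    have e : univ.filter (fun x => x ≠ v ∧ K.Adj y x) = (univ.filter (fun x => K.Adj y x)).erase v := by
      ext x; simp [mem_erase]
    rw [e, card_erase_of_mem (by simp [h.symm])]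
    have := card_pos.mpr (⟨v, by simp [h.symm]⟩ : (univ.filter (fun x => K.Adj y x)).Nonempty)
    omega
  · rw [if_neg h, add_zero]
    congr 1
    ext x
    simp only [mem_filter, mem_univ, true_and]
    constructor
    · exact fun h' => h'.2
    · exact fun h' => ⟨fun e => h (e ▸ h'.symm), h'⟩

/-- the degrees of the neighbours of a vertex -/
theorem nbr_deg (hH : Hypo G H π) (hn : 3 ≤ Fintype.card V) (v : V) (i : ℕ) :
    nd G v v i = nd H v v i := by
  classical
  have key : ∀ K : SimpleGraph V, nd K v v i + (univ.filter (fun y => y ≠ v ∧ i + 1 ≤ dg K v y)).card =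
      (univ.filter (fun y => y ≠ v ∧ i + 1 ≤ deg K y)).card := by
    intro K
    unfold nd
    rw [← card_union_of_disjoint]
    · congr 1
      ext y
      rw [mem_union, mem_filter, mem_filter, mem_filter]
      have h1 := dg_add K v y
      by_cases h : K.Adj v y
      · rw [if_pos h] at h1
        constructor
        · rintro (⟨_, h2, _, h3⟩ | ⟨_, h2, h3⟩)
          · exact ⟨mem_univ _, h2, by omega⟩
          · exact ⟨mem_univ _, h2, by omega⟩
        · rintro ⟨_, h2, h3⟩
          rcases Nat.lt_or_ge i (dg K v y) with h4 | h4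
          · exact Or.inr ⟨mem_univ _, h2, h4⟩
          · exact Or.inl ⟨mem_univ _, h2, h, by omega⟩
      · rw [if_neg h] at h1
        constructor
        · rintro (⟨_, h2, h3, _⟩ | ⟨_, h2, h3⟩)
          · exact absurd h3 h
          · exact ⟨mem_univ _, h2, by omega⟩
        · rintro ⟨_, h2, h3⟩
          exact Or.inr ⟨mem_univ _, h2, by omega⟩
    · rw [disjoint_left]
      intro y h1 h2
      rw [mem_filter] at h1 h2
      omega
  have h1 := key G
  have h2 := key H
  have h3 : (univ.filter (fun y => y ≠ v ∧ i + 1 ≤ deg G y)).card =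
      (univ.filter (fun y => y ≠ v ∧ i + 1 ≤ deg H y)).card := by
    congr 1
    ext y
    rw [mem_filter, mem_filter, deg_eq' hH hn y]
  have h4 : (univ.filter (fun y => y ≠ v ∧ i + 1 ≤ dg G v y)).card =
      (univ.filter (fun y => y ≠ v ∧ i + 1 ≤ dg H v y)).card := by
    apply card_bij (fun y _ => π v y)
    · intro y hy
      rw [mem_filter] at hy ⊢
      exact ⟨mem_univ _, app_ne hH hy.2.1, by rw [dg_eq hH v y hy.2.1]; exact hy.2.2⟩
    · intro a _ b _ h
      exact (π v).injective h
    · intro y hy
      rw [mem_filter] at hy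
      refine ⟨(π v).symm y, ?_, by simp⟩
      rw [mem_filter]
      refine ⟨mem_univ _, symm_ne hH hy.2.1, ?_⟩
      rw [← dg_eq hH v _ (symm_ne hH hy.2.1), Equiv.apply_symm_apply]
      exact hy.2.2
  omega

theorem clO_of_twin (G : SimpleGraph V) {v v' u : V} (hv : v' ≠ v) (ht : Tw G v v')
    (htw : Tw G v u) : clO G v u + 1 = cl G v := by
  classical
  unfold clO cl
  have e : univ.filter (fun x => x ≠ v ∧ TwO G v u x) = (univ.filter (fun b => Tw G v b)).erase v := by
    ext x
    rw [mem_erase, mem_filter, mem_filter]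
    constructor
    · rintro ⟨_, h1, h2⟩
      exact ⟨h1, mem_univ _, htw.trans (h2.tw ht hv)⟩
    · rintro ⟨h1, _, h2⟩
      exact ⟨mem_univ _, h1, (htw.symm.trans h2).twO v⟩
  rw [e, card_erase_of_mem (by simp [Tw.refl])]
  have := cl_pos G v
  unfold cl at this
  omega

theorem clO_of_not (G : SimpleGraph V) {v v' u : V} (hv : v' ≠ v) (ht : Tw G v v')
    (htw : ¬ Tw G u v) : clO G v u = cl G u := by
  classical
  unfold clO cl
  congr 1
  ext x
  rw [mem_filter, mem_filter]
  constructor
  · rintro ⟨_, h1, h2⟩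
    exact ⟨mem_univ _, h2.tw ht hv⟩
  · rintro ⟨_, h2⟩
    exact ⟨mem_univ _, fun h => htw (h ▸ h2), h2.twO v⟩

/-- the vertex of the card of `G` which becomes a twin of the new vertex -/
theorem exists_vertex (hH : Hypo G H π) (hn : 10 ≤ Fintype.card V) {v v' : V} (hv : v' ≠ v)
    (ht : Tw G v v') :
    ∃ u, u ≠ v ∧ (∀ y, y ≠ v → (H.Adj v (π v y) ↔ G.Adj u y)) ∧ clO G v u = clO G v v' ∧
      (∀ i, nd G v u i = nd G v v' i) := by
  classical
  have hcl := cl_eq hH hn v
  have h2 : 2 ≤ cl H v := hcl ▸ (two_le_cl_iff G v).2 ⟨v', hv, ht⟩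
  obtain ⟨u', hu', htu⟩ := (two_le_cl_iff H v).1 h2
  have hne := symm_ne hH hu'
  set u := (π v).symm u' with hu
  have hadj : ∀ y, y ≠ v → (H.Adj v (π v y) ↔ G.Adj u y) := by
    intro y hy
    rw [htu (π v y), ← hH.adj v u y hne hy, hu, Equiv.apply_symm_apply]
  refine ⟨u, hne, hadj, ?_, ?_⟩
  · have h1 := clO_of_twin G hv ht ht
    have h3 := clO_of_twin H hu' htu htu
    have h4 : clO G v u = clO H v u' := by
      unfold clO
      apply card_bij (fun x _ => π v x)
      · intro x hx
        rw [mem_filter] at hx ⊢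
        refine ⟨mem_univ _, app_ne hH hx.2.1, ?_⟩
        have := (twO_iff hH v u x hne hx.2.1).2 hx.2.2
        rw [hu, Equiv.apply_symm_apply] at this
        exact this
      · intro a _ b _ h
        exact (π v).injective h
      · intro x hx
        rw [mem_filter] at hx
        refine ⟨(π v).symm x, ?_, by simp⟩
        rw [mem_filter]
        refine ⟨mem_univ _, symm_ne hH hx.2.1, ?_⟩
        rw [← twO_iff hH v u _ hne (symm_ne hH hx.2.1), hu, Equiv.apply_symm_apply,
          Equiv.apply_symm_apply]
        exact hx.2.2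
    omega
  · intro i
    have h1 : nd G v v i = nd G v v' i := by
      unfold nd
      congr 1
      ext y
      rw [mem_filter, mem_filter, ht y]
    rw [← h1, nbr_deg hH (by omega) v i]
    unfold nd
    apply card_bij (fun x _ => π v x)
    · intro x hx
      rw [mem_filter] at hx ⊢
      exact ⟨mem_univ _, app_ne hH hx.2.1, (hadj x hx.2.1).2 hx.2.2.1, by rw [dg_eq hH v x hx.2.1]; exact hx.2.2.2⟩
    · intro a _ b _ h
      exact (π v).injective h
    · intro x hx
      rw [mem_filter] at hx
      refine ⟨(π v).symm x, ?_, by simp⟩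
      have hs := symm_ne hH hx.2.1
      rw [mem_filter]
      refine ⟨mem_univ _, hs, ?_, ?_⟩
      · rw [← hadj _ hs, Equiv.apply_symm_apply]
        exact hx.2.2.1
      · rw [← dg_eq hH v _ hs, Equiv.apply_symm_apply]
        exact hx.2.2.2

/-- the vertices of the card which look like a twin of the deleted vertex are similar -/
theorem orbit_part (hH : Hypo G H π) (hN : NonIso G H) (hn : 10 ≤ Fintype.card V)
    {v v' : V} (hv : v' ≠ v) (ht : Tw G v v') :
    ∃ u, u ≠ v ∧ clO G v u = clO G v v' ∧ (∀ i, nd G v u i = nd G v v' i) ∧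
      ¬ ∃ σ : Equiv.Perm V, σ v = v ∧ σ v' = u ∧
        ∀ x y, x ≠ v → y ≠ v → (G.Adj (σ x) (σ y) ↔ G.Adj x y) := by
  classical
  obtain ⟨u, hne, hadj, h1, h2⟩ := exists_vertex hH hn hv ht
  refine ⟨u, hne, h1, h2, ?_⟩
  rintro ⟨σ, s1, s2, s3⟩
  apply hN
  have hsne : ∀ x, x ≠ v → σ x ≠ v := fun x hx h => hx (σ.injective (by rw [h, s1]))
  have hv2 : ∀ y, y ≠ v → (H.Adj v (π v (σ y)) ↔ G.Adj v y) := by
    intro y hy
    rw [hadj _ (hsne y hy), ← s2, s3 v' y hv hy, ← ht y]
  refine ⟨σ.trans (π v), fun x y => ?_⟩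
  simp only [Equiv.trans_apply]
  by_cases hx : x = v
  · subst hx
    rw [s1, hH.fix]
    by_cases hy : y = x
    · subst hy
      rw [s1, hH.fix]
      exact ⟨fun h => absurd h (H.loopless.irrefl y), fun h => absurd h (G.loopless.irrefl y)⟩
    · exact hv2 y hy
  · by_cases hy : y = v
    · subst hy
      rw [s1, hH.fix, H.adj_comm, hv2 x hx, G.adj_comm]
    · rw [hH.adj v _ _ (hsne x hx) (hsne y hy), s3 x y hx hy]

/-- if there is a class of size `c ≥ 2` and none of size `c - 1`, then `G` is reconstructible -/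
theorem gap_part (hH : Hypo G H π) (hN : NonIso G H) (hn : 10 ≤ Fintype.card V)
    (v : V) (hv : 2 ≤ cl G v) : ∃ u, cl G u + 1 = cl G v := by
  classical
  obtain ⟨v', hne, ht⟩ := (two_le_cl_iff G v).1 hv
  obtain ⟨u, h1, h2, _, h3⟩ := orbit_part hH hN hn hne ht
  by_cases hu : Tw G u v
  · exfalso
    apply h3
    refine ⟨Equiv.swap v' u, Equiv.swap_apply_of_ne_of_ne hne.symm h1.symm, Equiv.swap_apply_left _ _, ?_⟩
    intro x y _ _
    have hk : ∀ x, Tw G (Equiv.swap v' u x) x := by
      intro x
      rcases Equiv.swap_apply_eq_iff.mp (rfl : Equiv.swap v' u x = Equiv.swap v' u x) with _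
      by_cases c1 : x = v'
      · subst c1
        rw [Equiv.swap_apply_left]
        exact hu.trans ht
      · by_cases c2 : x = u
        · subst c2
          rw [Equiv.swap_apply_right]
          exact (hu.trans ht).symm
        · rw [Equiv.swap_apply_of_ne_of_ne c1 c2]
          exact Tw.refl G x
    exact (hk x).adj (hk y)
  · refine ⟨u, ?_⟩
    have e1 := clO_of_twin G hne ht ht
    have e2 := clO_of_not G hne ht hu
    omega

end Pool.Agent.X76.TW
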