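import Pool.Agent.X76.TW3

set_option autoImplicit false

/-! The reduced graph with the sizes of the classes. -/

namespace Pool.Agent.X76.TW

open Finset
open Pool.Agent.H234RC (Hypo NonIso)
open Pool.Agent.TH87.RVC (FF del cnt kelly_sum sum_cnt sum_cnt_card FF_inv supp_bound hh)

section weights

variable {X Γ : Type} [Fintype X] [DecidableEq X] [Group Γ] [Fintype Γ] (φ : Γ →* Equiv.Perm X)

theorem FF_zero (c w : X → ℕ) (hc : ∀ x, 1 ≤ c x) (x : X) (hw : w x = 0) : FF φ c w = 0 := by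
  unfold FF
  apply sum_eq_zero
  intro γ _
  apply prod_eq_zero (mem_univ ((φ γ).symm x))
  rw [Equiv.apply_symm_apply, hw, Nat.choose_eq_zero_of_lt (hc _)]
  simp

theorem kelly' {ι : Type} [Fintype ι] (t t' : ι → X)
    (hcl : ∀ i, cnt t (t i) = cnt t' (t' i))
    (hdeck : ∀ i, 2 ≤ cnt t (t i) →
      ∃ g : Γ, ∀ x, del (cnt t') (t' i) (φ g x) = del (cnt t) (t i) x)
    (c : X → ℕ) (hc1 : ∀ x, 1 ≤ c x) (hc : ∑ x, c x < Fintype.card ι) :
    FF φ c (cnt t) = FF φ c (cnt t') := by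
  have h1 := kelly_sum φ c (cnt t)
  have h2 := kelly_sum φ c (cnt t')
  rw [← sum_cnt t (fun x => FF φ c (del (cnt t) x))] at h1
  rw [← sum_cnt t' (fun x => FF φ c (del (cnt t') x))] at h2
  have h3 : ∀ i, FF φ c (del (cnt t) (t i)) = FF φ c (del (cnt t') (t' i)) := by
    intro i
    rcases Nat.lt_or_ge (cnt t (t i)) 2 with h | h
    · rw [FF_zero φ c _ hc1 (t i), FF_zero φ c _ hc1 (t' i)]
      · simp only [del, if_true]
        rw [← hcl]; omega
      · simp only [del, if_true]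
        omega
    · obtain ⟨g, hg⟩ := hdeck i h
      rw [← FF_inv φ c (del (cnt t') (t' i)) g]
      congr 1
      funext x
      exact (hg x).symm
  simp_rw [h3] at h1
  rw [h1] at h2
  have e1 : (∑ z, (cnt t z : ℝ)) = Fintype.card ι := by exact_mod_cast sum_cnt_card t
  have e2 : (∑ z, (cnt t' z : ℝ)) = Fintype.card ι := by exact_mod_cast sum_cnt_card t'
  rw [e1, e2] at h2
  have hne : ((Fintype.card ι : ℝ) - ∑ z, (c z : ℝ)) ≠ 0 := by
    have : (∑ z, (c z : ℝ)) < Fintype.card ι := by exact_mod_cast hc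
    exact sub_ne_zero.mpr (ne_of_gt this)
  exact mul_left_cancel₀ hne h2

theorem shift (c w : X → ℕ) :
    (∏ x, ((c x : ℝ) + 1)) * FF φ (fun x => c x + 1) w =
      (∏ x, (w x : ℝ)) * FF φ c (fun x => w x - 1) := by
  unfold FF
  rw [mul_sum, mul_sum]
  apply sum_congr rfl
  intro γ _
  rw [← Equiv.prod_comp (φ γ) (fun x => (w x : ℝ)), ← prod_mul_distrib, ← prod_mul_distrib]
  apply prod_congr rfl
  intro x _
  rcases h : w (φ γ x) with _ | n
  · simp
  · have := Nat.add_one_mul_choose_eq n (c x)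
    simp only [h, Nat.add_sub_cancel]
    have h2 := congrArg (fun k : ℕ => (k : ℝ)) this
    push_cast at h2 ⊢
    linarith

theorem FF_const (w : X → ℕ) : FF φ (fun _ => 0) w = Fintype.card Γ := by
  unfold FF
  simp

theorem supp_cnt {ι : Type} [Fintype ι] (t t' : ι → X) (h1 : ∀ x, 1 ≤ cnt t x)
    (h1' : ∀ x, 1 ≤ cnt t' x) (hcl : ∀ i, cnt t (t i) = cnt t' (t' i)) :
    (univ.filter (fun x => cnt t x - 1 ≠ 0)).card = (univ.filter (fun x => cnt t' x - 1 ≠ 0)).card := by
  have key : ∀ s : ι → X, (∀ x, 1 ≤ cnt s x) →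
      ((univ.filter (fun x => cnt s x - 1 ≠ 0)).card : ℝ) =
        Fintype.card X - ∑ i, (if cnt s (s i) = 1 then 1 else 0) := by
    intro s hs
    rw [sum_cnt s (fun x => if cnt s x = 1 then (1 : ℝ) else 0)]
    have e1 : ∀ x, (cnt s x : ℝ) * (if cnt s x = 1 then (1 : ℝ) else 0) =
        if cnt s x = 1 then 1 else 0 := by
      intro x
      by_cases h : cnt s x = 1
      · simp [h]
      · simp [h]
    simp_rw [e1]
    have e2 : (Fintype.card X : ℝ) = ∑ _x : X, 1 := by simp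
    rw [e2, ← sum_sub_distrib, card_filter]
    push_cast
    apply sum_congr rfl
    intro x _
    have := hs x
    by_cases h : cnt s x = 1
    · simp [h]
    · have h2 : cnt s x - 1 ≠ 0 := by omega
      rw [if_pos h2, if_neg h]; simp
  have e : (∑ i, (if cnt t (t i) = 1 then (1 : ℝ) else 0)) =
      ∑ i, (if cnt t' (t' i) = 1 then (1 : ℝ) else 0) :=
    sum_congr rfl (fun i _ => by rw [hcl i])
  have h2 := key t h1
  have h3 := key t' h1'
  rw [e] at h2
  rw [← h3] at h2
  exact_mod_cast h2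

theorem weight_bound {ι : Type} [Fintype ι] (t t' : ι → X) (h1 : ∀ x, 1 ≤ cnt t x)
    (h1' : ∀ x, 1 ≤ cnt t' x) (hm : Fintype.card X < Fintype.card ι)
    (hcl : ∀ i, cnt t (t i) = cnt t' (t' i))
    (hdeck : ∀ i, 2 ≤ cnt t (t i) →
      ∃ g : Γ, ∀ x, del (cnt t') (t' i) (φ g x) = del (cnt t) (t i) x)
    (hne : ¬ ∃ γ : Γ, ∀ x, cnt t' (φ γ x) = cnt t x) :
    (3 / 2 : ℝ) ^ (univ.filter (fun x => cnt t x - 1 ≠ 0)).card ≤ 2 * Fintype.card Γ := by
  have hΓ : (0 : ℝ) < Fintype.card Γ := by exact_mod_cast Fintype.card_pos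
  have hsum : ∀ s : ι → X, (∀ x, 1 ≤ cnt s x) →
      ∑ x, (cnt s x - 1) = Fintype.card ι - Fintype.card X := by
    intro s hs
    have e1 : ∑ x, (cnt s x - 1) + ∑ _x : X, 1 = ∑ x, cnt s x := by
      rw [← sum_add_distrib]
      apply sum_congr rfl
      intro x _
      have := hs x
      omega
    rw [sum_cnt_card] at e1
    simp only [sum_const, card_univ, smul_eq_mul, mul_one] at e1
    omega
  have hF : ∀ c : X → ℕ, ∑ x, c x < Fintype.card ι - Fintype.card X →
      (∏ x, (cnt t x : ℝ)) * FF φ c (fun x => cnt t x - 1) =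
      (∏ x, (cnt t' x : ℝ)) * FF φ c (fun x => cnt t' x - 1) := by
    intro c hc
    rw [← shift, ← shift, kelly' φ t t' hcl hdeck _ (fun x => Nat.le_add_left 1 _)]
    rw [sum_add_distrib]
    simp only [sum_const, card_univ, smul_eq_mul, mul_one]
    omega
  have h0 := hF (fun _ => 0) (by simp; omega)
  rw [FF_const, FF_const] at h0
  have hprod : (∏ x, (cnt t x : ℝ)) = ∏ x, (cnt t' x : ℝ) := mul_right_cancel₀ hΓ.ne' h0
  have hpos : (∏ x, (cnt t' x : ℝ)) ≠ 0 := by
    rw [prod_ne_zero_iff]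
    intro x _
    have := h1' x
    have : (0 : ℝ) < cnt t' x := by exact_mod_cast this
    exact this.ne'
  have hF2 : ∀ c : X → ℕ, ∑ x, c x < Fintype.card ι - Fintype.card X →
      FF φ c (fun x => cnt t x - 1) = FF φ c (fun x => cnt t' x - 1) := by
    intro c hc
    have := hF c hc
    rw [hprod] at this
    exact mul_left_cancel₀ hpos this
  rcases le_total (∏ x, hh (cnt t' x - 1)) (∏ x, hh (cnt t x - 1)) with hP | hP
  · refine supp_bound φ (fun x => cnt t x - 1) (fun x => cnt t' x - 1) _ (hsum t h1) (hsum t' h1')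
      hF2 ?_ hP
    rintro ⟨γ, hγ⟩
    apply hne
    refine ⟨γ, fun x => ?_⟩
    have a1 := hγ x
    have a2 := h1' (φ γ x)
    have a3 := h1 x
    omega
  · rw [supp_cnt t t' h1 h1' hcl]
    refine supp_bound φ (fun x => cnt t' x - 1) (fun x => cnt t x - 1) _ (hsum t' h1') (hsum t h1)
      (fun c hc => (hF2 c hc).symm) ?_ hP
    rintro ⟨γ, hγ⟩
    apply hne
    refine ⟨γ⁻¹, fun x => ?_⟩
    have a1 := hγ (φ γ⁻¹ x)
    have e : φ γ (φ γ⁻¹ x) = x := by
      rw [map_inv]; exact (φ γ).apply_symm_apply x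
    rw [e] at a1
    have a2 := h1' (φ γ⁻¹ x)
    have a3 := h1 x
    omega

end weights

/-- a permutation with given values of the types -/
theorem exists_perm {V X : Type} [Fintype V] [DecidableEq X] (t t' : V → X)
    (g : Equiv.Perm X) (h : ∀ x, cnt t' (g x) = cnt t x) :
    ∃ σ : Equiv.Perm V, ∀ v, t' (σ v) = g (t v) := by
  classical
  have e : ∀ x, Nonempty ({v // t v = x} ≃ {v // t' v = g x}) := by
    intro x
    rw [← Fintype.card_eq, Fintype.card_subtype, Fintype.card_subtype]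
    exact (h x).symm
  let E : (Σ x, {v // t v = x}) ≃ (Σ x, {v // t' v = x}) :=
    Equiv.sigmaCongr (β₂ := fun y => {v // t' v = y}) g (fun x => (e x).some)
  refine ⟨((Equiv.sigmaFiberEquiv t).symm.trans E).trans (Equiv.sigmaFiberEquiv t'), fun v => ?_⟩
  simp only [Equiv.trans_apply]
  set a := E ((Equiv.sigmaFiberEquiv t).symm v) with ha
  have h1 : t' ((Equiv.sigmaFiberEquiv t') a) = a.1 := a.2.2
  rw [h1, ha]
  rfl

end Pool.Agent.X76.TW
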