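import Pool.Agent.X76.TW4

set_option autoImplicit false

/-! Application of the weights to the reduced graph. -/

namespace Pool.Agent.X76.TW

open Finset
open Pool.Agent.H234RC (Hypo NonIso Reconstructible exists_hypo)
open Pool.Agent.TH87.RVC (FF del cnt compl_hypo)

variable {V : Type} [Fintype V]
variable {G H : SimpleGraph V} {π : V → Equiv.Perm V}

open Classical in
theorem del_cnt' {X ι : Type} [DecidableEq X] [Fintype ι] (s : ι → X) (v : ι) (x : X) :
    del (cnt s) (s v) x = (univ.filter (fun i => i ≠ v ∧ s i = x)).card := by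
  unfold del cnt
  by_cases h : x = s v
  · subst h
    rw [if_pos rfl]
    have e : univ.filter (fun i => i ≠ v ∧ s i = s v) = (univ.filter (fun i => s i = s v)).erase v := by
      ext i; simp [mem_erase]
    rw [e, card_erase_of_mem (by simp)]
  · rw [if_neg h]
    congr 1
    ext i
    simp only [mem_filter, mem_univ, true_and]
    constructor
    · intro h2
      exact ⟨fun e => h (by rw [← h2, e]), h2⟩
    · exact fun h2 => h2.2

theorem aut_part (hH : Hypo G H π) (hN : NonIso G H) (hn : 10 ≤ Fintype.card V) (S : Finset V)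
    (hS : ∀ v, ∃! s, s ∈ S ∧ Tw G v s) (p : ℕ)
    (hp : ∀ (D : DecidablePred (fun s => 2 ≤ cl G s)), p = (S.filter (fun s => 2 ≤ cl G s)).card) :
    (3 / 2 : ℝ) ^ p ≤
      2 * (Nat.card (G.induce (S : Set V) ≃g G.induce (S : Set V)) : ℝ) := by
  classical
  have : Finite (G.induce (S : Set V) ≃g G.induce (S : Set V)) :=
    Finite.of_injective (fun g => g.toEquiv) (fun a b h => RelIso.toEquiv_injective h)
  let _ : Fintype (G.induce (S : Set V) ≃g G.induce (S : Set V)) := Fintype.ofFinite _
  rw [hp inferInstance, Nat.card_eq_fintype_card]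
  have hcardpos : 1 ≤ Fintype.card (G.induce (S : Set V) ≃g G.induce (S : Set V)) :=
    Fintype.card_pos
  rcases Nat.eq_zero_or_pos (S.filter (fun s => 2 ≤ cl G s)).card with hp0 | hp0
  · rw [hp0, pow_zero]
    have : (1 : ℝ) ≤ Fintype.card (G.induce (S : Set V) ≃g G.induce (S : Set V)) := by
      exact_mod_cast hcardpos
    linarith
  obtain ⟨s1, hs1⟩ := card_pos.mp hp0
  rw [mem_filter] at hs1
  obtain ⟨v0, hv01, hv02⟩ := (two_le_cl_iff G s1).1 hs1.2
  have huniq : ∀ x y : V, x ∈ S → y ∈ S → Tw G x y → x = y := by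
    intro x y hx hy h
    obtain ⟨z, _, hz⟩ := hS x
    exact (hz x ⟨hx, Tw.refl G x⟩).trans (hz y ⟨hy, h⟩).symm
  have hv0 : v0 ∉ S := fun h => hv01 (huniq s1 v0 hs1.1 h hv02).symm
  obtain ⟨u0, hu01, hu02⟩ := (two_le_cl_iff H v0).1
    ((cl_eq hH hn v0) ▸ (two_le_cl_iff G v0).2 ⟨s1, hv01.symm, hv02.symm⟩)
  set X := {x // x ∈ (S : Set V)} with hX
  have hmemS : ∀ x : X, (x : V) ∈ S := fun x => x.2
  have hxv0 : ∀ x : X, (x : V) ≠ v0 := fun x h => hv0 (h ▸ hmemS x)
  have ht0 : ∀ v, ∃ s : X, Tw G v s := by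
    intro v
    obtain ⟨s, ⟨h1, h2⟩, _⟩ := hS v
    exact ⟨⟨s, h1⟩, h2⟩
  choose t ht using ht0
  have huniqX : ∀ x y : X, Tw G x y → x = y := fun x y h =>
    Subtype.ext (huniq x y (hmemS x) (hmemS y) h)
  have htt : ∀ a b : V, t a = t b ↔ Tw G a b := by
    intro a b
    constructor
    · intro h
      have h1 := ht a
      rw [h] at h1
      exact h1.trans (ht b).symm
    · intro h
      exact huniqX _ _ ((ht a).symm.trans (h.trans (ht b)))
  have htx : ∀ x : X, t x = x := fun x => (huniqX _ _ (ht x)).symm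
  -- the types of the vertices in `H`
  set r : X → V := fun x => π v0 x with hr
  have hra : ∀ x y : X, Tw H (r x) (r y) → x = y := by
    intro x y h
    have h1 : TwO G v0 x y := (twO_iff hH v0 x y (hxv0 x) (hxv0 y)).1 (h.twO v0)
    exact huniqX x y (h1.tw hv02.symm hv01.symm)
  have hrb : ∀ z : V, ∃ x : X, Tw H (r x) z := by
    have h1 : ∀ z : V, z ≠ v0 → ∃ x : X, Tw H (r x) z := by
      intro z hz
      have hz2 := symm_ne hH hz
      refine ⟨t ((π v0).symm z), ?_⟩
      have h2 : TwO G v0 (t ((π v0).symm z)) ((π v0).symm z) := (ht _).symm.twO v0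
      have h3 := (twO_iff hH v0 _ _ (hxv0 _) hz2).2 h2
      rw [Equiv.apply_symm_apply] at h3
      exact h3.tw hu02 hu01
    intro z
    by_cases hz : z = v0
    · obtain ⟨x, hx⟩ := h1 u0 hu01
      exact ⟨x, hz ▸ hx.trans hu02.symm⟩
    · exact h1 z hz
  choose t' ht' using hrb
  have htt' : ∀ a b : V, t' a = t' b ↔ Tw H a b := by
    intro a b
    constructor
    · intro h
      have h1 := ht' a
      rw [h] at h1
      exact h1.symm.trans (ht' b)
    · intro h
      exact hra _ _ ((ht' a).trans (h.trans (ht' b).symm))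
  have htx' : ∀ x : X, t' (r x) = x := fun x => hra _ _ (ht' (r x))
  have hrc : ∀ x y : X, H.Adj (r x) (r y) ↔ G.Adj x y := fun x y =>
    hH.adj v0 x y (hxv0 x) (hxv0 y)
  have hadjH : ∀ a b : V, H.Adj a b ↔ G.Adj (t' a) (t' b) := by
    intro a b
    rw [← hrc]
    exact ((ht' a).symm.adj (ht' b).symm)
  have hadjG : ∀ a b : V, G.Adj a b ↔ G.Adj (t a) (t b) := fun a b => (ht a).adj (ht b)
  have hclG : ∀ v, cnt t (t v) = cl G v := by
    intro v
    unfold cnt cl
    congr 1
    ext i
    rw [mem_filter, mem_filter, htt]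
    exact ⟨fun h => ⟨h.1, h.2.symm⟩, fun h => ⟨h.1, h.2.symm⟩⟩
  have hclH : ∀ v, cnt t' (t' v) = cl H v := by
    intro v
    unfold cnt cl
    congr 1
    ext i
    rw [mem_filter, mem_filter, htt']
    exact ⟨fun h => ⟨h.1, h.2.symm⟩, fun h => ⟨h.1, h.2.symm⟩⟩
  let φ : (G.induce (S : Set V) ≃g G.induce (S : Set V)) →* Equiv.Perm X :=
    { toFun := fun g => g.toEquiv
      map_one' := rfl
      map_mul' := fun _ _ => rfl }
  have hmain := weight_bound φ t t' (fun x => card_pos.mpr ⟨(x : V), by simp [htx x]⟩)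
    (fun x => card_pos.mpr ⟨r x, by simp [htx' x]⟩) ?_ (fun v => by rw [hclG, hclH, cl_eq hH hn v])
    ?_ ?_
  · have e : (univ.filter (fun x : X => cnt t x - 1 ≠ 0)).card =
        (S.filter (fun s => 2 ≤ cl G s)).card := by
      apply card_bij (fun (x : X) _ => (x : V))
      · intro x hx
        rw [mem_filter] at hx ⊢
        refine ⟨hmemS x, ?_⟩
        rw [← hclG, htx]
        omega
      · intro x _ y _ h
        exact Subtype.ext h
      · intro s hs
        rw [mem_filter] at hs
        refine ⟨⟨s, hs.1⟩, ?_, rfl⟩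
        rw [mem_filter]
        refine ⟨mem_univ _, ?_⟩
        have h1 := hclG s
        have h2 : t s = (⟨s, hs.1⟩ : X) := htx ⟨s, hs.1⟩
        rw [h2] at h1
        rw [h1]
        omega
    rw [← e]
    exact hmain
  · have h1 : Fintype.card X = S.card := by
      have h2 : Fintype.card X = Fintype.card {x // x ∈ S} :=
        Fintype.card_congr (Equiv.refl _)
      rw [h2, Fintype.card_coe]
    rw [h1]
    calc S.card < (insert v0 S).card := by rw [card_insert_of_notMem hv0]; omega
      _ ≤ Fintype.card V := card_le_univ _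
  · intro v hv
    rw [hclG] at hv
    obtain ⟨v', hv1, hv2⟩ := (two_le_cl_iff G v).1 hv
    obtain ⟨u', hu1, hu2⟩ := (two_le_cl_iff H v).1 ((cl_eq hH hn v) ▸ hv)
    have htl : ∀ x : X, ∃ y : V, y ≠ v ∧ Tw G x y := by
      intro x
      by_cases h : (x : V) = v
      · exact ⟨v', hv1, h ▸ hv2⟩
      · exact ⟨x, h, Tw.refl G _⟩
    choose tl htl1 htl2 using htl
    set γ : X → X := fun x => t' (π v (tl x)) with hγ
    have hγadj : ∀ x y : X, G.Adj (γ x) (γ y) ↔ G.Adj x y := by
      intro x y
      rw [hγ]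
      simp only
      rw [← hadjH, hH.adj v _ _ (htl1 x) (htl1 y)]
      exact ((htl2 x).adj (htl2 y)).symm
    have hγinj : Function.Injective γ := by
      intro x y h
      rw [hγ] at h
      simp only at h
      rw [htt'] at h
      have h1 := (twO_iff hH v _ _ (htl1 x) (htl1 y)).1 (h.twO v)
      exact huniqX x y ((htl2 x).trans ((h1.tw hv2 hv1).trans (htl2 y).symm))
    let e := Equiv.ofBijective γ (Finite.injective_iff_bijective.mp hγinj)
    refine ⟨⟨e, fun {x y} => hγadj x y⟩, fun x => ?_⟩
    show del (cnt t') (t' v) (γ x) = del (cnt t) (t v) x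
    rw [del_cnt', del_cnt']
    symm
    apply card_bij (fun i _ => π v i)
    · intro i hi
      rw [mem_filter] at hi ⊢
      refine ⟨mem_univ _, app_ne hH hi.2.1, ?_⟩
      rw [hγ]
      simp only
      rw [htt']
      have h1 : Tw G i (tl x) := by
        have := hi.2.2
        rw [← htx x, htt] at this
        exact this.trans (htl2 x)
      exact ((twO_iff hH v _ _ hi.2.1 (htl1 x)).2 (h1.twO v)).tw hu2 hu1
    · intro a _ b _ h
      exact (π v).injective h
    · intro i hi
      rw [mem_filter] at hi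
      have hs := symm_ne hH hi.2.1
      refine ⟨(π v).symm i, ?_, by simp⟩
      rw [mem_filter]
      refine ⟨mem_univ _, hs, ?_⟩
      rw [← htx x, htt]
      have h1 := hi.2.2
      rw [hγ] at h1
      simp only at h1
      rw [htt'] at h1
      have h2 : TwO H v (π v ((π v).symm i)) (π v (tl x)) := by
        rw [Equiv.apply_symm_apply]
        exact h1.twO v
      exact (((twO_iff hH v _ _ hs (htl1 x)).1 h2).tw hv2 hv1).trans (htl2 x).symm
  · rintro ⟨γ, hγ⟩
    apply hN
    obtain ⟨σ, hσ⟩ := exists_perm t t' (φ γ) hγ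
    refine ⟨σ, fun x y => ?_⟩
    rw [hadjH, hσ, hσ, hadjG x y]
    exact γ.map_rel_iff' (a := t x) (b := t y)

open Classical in
/-- few distinct neighbourhoods give a gap in the sizes of the classes -/
theorem exists_gap (G : SimpleGraph V)
    (h : (univ.image (fun v => univ.filter (fun y => G.Adj v y))).card *
      ((univ.image (fun v => univ.filter (fun y => G.Adj v y))).card + 1) < 2 * Fintype.card V) :
    ∃ v, 2 ≤ cl G v ∧ ∀ u, cl G u + 1 ≠ cl G v := by
  by_contra hcon
  push Not at hcon
  set N : V → Finset V := fun v => univ.filter (fun y => G.Adj v y) with hN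
  set I := univ.image N with hI
  set f : Finset V → ℕ := fun A => (univ.filter (fun v => N v = A)).card with hf
  have hfN : ∀ v, f (N v) = cl G v := by
    intro v
    simp only [hf]
    unfold cl
    congr 1
    ext x
    rw [mem_filter, mem_filter]
    constructor
    · rintro ⟨_, h1⟩
      refine ⟨mem_univ _, fun y => ?_⟩
      have h2 : y ∈ N x ↔ y ∈ N v := by rw [h1]
      simp only [hN, mem_filter, mem_univ, true_and] at h2
      exact h2.symm
    · rintro ⟨_, h1⟩
      refine ⟨mem_univ _, ?_⟩
      ext y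
      simp only [hN, mem_filter, mem_univ, true_and]
      exact (h1 y).symm
  have hsum : Fintype.card V = ∑ A ∈ I, f A := by
    rw [← card_univ, card_eq_sum_card_image N univ]
  obtain ⟨q, hq1, hq2⟩ : ∃ q, (∀ A ∈ I, f A ≤ q) ∧ (q = 0 ∨ ∃ A ∈ I, f A = q) := by
    rcases I.eq_empty_or_nonempty with h0 | h0
    · exact ⟨0, by simp [h0], Or.inl rfl⟩
    · obtain ⟨A, hA, hA2⟩ := exists_max_image I f h0
      exact ⟨f A, hA2, Or.inr ⟨A, hA, rfl⟩⟩
  have hdown : ∀ k j, 1 ≤ j → j + k = q → ∃ A ∈ I, f A = j := by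
    intro k
    induction k with
    | zero =>
      intro j hj1 hj2
      rcases hq2 with h0 | h0
      · omega
      · obtain ⟨A, hA, hA2⟩ := h0
        exact ⟨A, hA, by omega⟩
    | succ k ih =>
      intro j hj1 hj2
      obtain ⟨A, hA, hA2⟩ := ih (j + 1) (by omega) (by omega)
      rw [hI, mem_image] at hA
      obtain ⟨v, _, rfl⟩ := hA
      rw [hfN] at hA2
      obtain ⟨u, hu⟩ := hcon v (by omega)
      exact ⟨N u, mem_image_of_mem _ (mem_univ _), by rw [hfN]; omega⟩
  have hsmall : ∀ j ≤ q, j ≤ (I.filter (fun A => f A ≤ j)).card := by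
    intro j hj
    have h1 : Finset.Icc 1 j ⊆ (I.filter (fun A => f A ≤ j)).image f := by
      intro i hi
      rw [mem_Icc] at hi
      obtain ⟨A, hA, hA2⟩ := hdown (q - i) i hi.1 (by omega)
      rw [mem_image]
      exact ⟨A, by rw [mem_filter]; exact ⟨hA, by omega⟩, hA2⟩
    calc j = (Finset.Icc 1 j).card := by simp
      _ ≤ _ := card_le_card h1
      _ ≤ _ := card_image_le
  have hbig : ∀ j ≤ q, (I.filter (fun A => j < f A)).card ≤ I.card - j := by
    intro j hj
    have h1 := hsmall j hj
    have h2 := card_filter_add_card_filter_not (s := I) (fun A => f A ≤ j)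
    have h3 : I.filter (fun A => ¬ f A ≤ j) = I.filter (fun A => j < f A) := by
      ext A; simp only [mem_filter, not_le]
    rw [h3] at h2
    omega
  have hqs : q ≤ I.card := (hsmall q le_rfl).trans (card_le_card (filter_subset _ _))
  have hsum2 : ∑ A ∈ I, f A = ∑ j ∈ range q, (I.filter (fun A => j < f A)).card := by
    have h1 : ∀ A ∈ I, f A = ∑ j ∈ range q, if j < f A then 1 else 0 := by
      intro A hA
      rw [← card_filter]
      have h2 : (range q).filter (fun j => j < f A) = range (f A) := by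
        ext j
        rw [mem_filter, mem_range, mem_range]
        have := hq1 A hA
        omega
      rw [h2, card_range]
    rw [sum_congr rfl h1, sum_comm]
    apply sum_congr rfl
    intro j _
    rw [card_filter]
  have h1 : Fintype.card V ≤ ∑ j ∈ range (I.card + 1), (I.card - j) := by
    rw [hsum, hsum2]
    calc _ ≤ ∑ j ∈ range q, (I.card - j) :=
          sum_le_sum (fun j hj => hbig j (mem_range.mp hj).le)
      _ ≤ _ := sum_le_sum_of_subset (range_subset_range.mpr (by omega))
  have h2 : ∑ j ∈ range (I.card + 1), (I.card - j) = ∑ j ∈ range (I.card + 1), j := by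
    have := sum_range_reflect (fun j => j) (I.card + 1)
    rw [← this]
    apply sum_congr rfl
    intro j hj
    omega
  have h3 := sum_range_id_mul_two (I.card + 1)
  rw [Nat.add_sub_cancel] at h3
  rw [h2] at h1
  have h4 : I.card * (I.card + 1) < 2 * Fintype.card V := h
  nlinarith

end Pool.Agent.X76.TW
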