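import Pool.Agent.X76.PM13

set_option autoImplicit false

/-!
Edge colourings of wreath products.
-/

namespace Pool.Agent.X76.Wr

open Finset SimpleGraph

/-- edge colourings with `k` colours -/
def EC {U : Type} (k : ℕ) (H : SimpleGraph U) : Prop :=
  ∃ c : U → U → ℕ, ∀ u v, H.Adj u v → c u v = c v u ∧ c u v < k ∧
    ∀ w, H.Adj u w → v ≠ w → c u v ≠ c u w

/-- wreath products -/
def wreath {V W : Type} (G : SimpleGraph V) (G' : SimpleGraph W) : SimpleGraph (V × W) where
  Adj p q := (p.1 = q.1 ∧ G'.Adj p.2 q.2) ∨ (G.Adj p.1 q.1 ∧ ∃ φ : G' ≃g G', φ p.2 = q.2)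
  symm := ⟨by
    rintro p q (⟨h1, h2⟩ | ⟨h1, φ, h2⟩)
    · exact Or.inl ⟨h1.symm, h2.symm⟩
    · exact Or.inr ⟨h1.symm, φ.symm, by rw [← h2]; simp⟩⟩
  loopless := ⟨by
    rintro p (⟨-, h2⟩ | ⟨h1, -⟩)
    · exact G'.loopless.irrefl _ h2
    · exact G.loopless.irrefl _ h1⟩

/-- size of the orbit -/
noncomputable def orb {W : Type} (G' : SimpleGraph W) (w : W) : ℕ :=
  {w' | ∃ φ : G' ≃g G', φ w = w'}.ncard

theorem vizing_EC {W : Type} [Fintype W] (G' : SimpleGraph W) [DecidableRel G'.Adj] (D : ℕ)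
    (hD : ∀ w, G'.degree w ≤ D) : EC (D + 1) G' := by
  classical
  obtain ⟨φ, h1, h2⟩ := Pool.Agent.X76.PM.mvizing (fun x y => if G'.Adj x y then 1 else 0)
    (fun x y => by simp only [G'.adj_comm]) 1 D (fun x => x)
    (fun x y => by split_ifs <;> omega) (fun x => by
      rw [← Finset.card_filter]
      refine le_trans (le_of_eq ?_) (hD x)
      rw [← SimpleGraph.card_neighborFinset_eq_degree]
      congr 1
      ext y
      simp)
  have huniq : ∀ x y, G'.Adj x y → ∃ c : Fin (D + 1), φ c x = y ∧ ∀ c', φ c' x = y → c' = c := by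
    intro x y hxy
    have h3 := h2 x y (G'.ne_of_adj hxy)
    rw [if_pos hxy] at h3
    obtain ⟨c, hc⟩ := Finset.card_eq_one.1 h3
    refine ⟨c, ?_, ?_⟩
    · have : c ∈ univ.filter (fun c => φ c x = y) := by rw [hc]; exact mem_singleton_self _
      exact (mem_filter.1 this).2
    · intro c' hc'
      have : c' ∈ univ.filter (fun c => φ c x = y) := mem_filter.2 ⟨mem_univ _, hc'⟩
      rw [hc, mem_singleton] at this
      exact this
  let c : W → W → ℕ := fun x y => if h : ∃ c : Fin (D + 1), φ c x = y then h.choose.val else 0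
  have hc : ∀ x y, G'.Adj x y → ∀ e : Fin (D + 1), φ e x = y → c x y = e.val := by
    intro x y hxy e he
    have h : ∃ c : Fin (D + 1), φ c x = y := ⟨e, he⟩
    obtain ⟨c0, -, hc0⟩ := huniq x y hxy
    simp only [c, dif_pos h]
    rw [hc0 _ h.choose_spec, hc0 e he]
  refine ⟨c, ?_⟩
  intro u v huv
  obtain ⟨e, he, -⟩ := huniq u v huv
  refine ⟨?_, ?_, ?_⟩
  · rw [hc u v huv e he, hc v u huv.symm e (by rw [← he, h1])]
  · rw [hc u v huv e he]; exact e.2
  · intro w huw hvw heq
    obtain ⟨e', he', -⟩ := huniq u w huw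
    rw [hc u v huv e he, hc u w huw e' he'] at heq
    have h3 := Fin.ext heq
    subst h3
    exact hvw (he.symm.trans he')

/-- enumerations of the orbits -/
theorem exists_idx {W : Type} [Fintype W] (G' : SimpleGraph W) :
    ∃ idx : W → ℕ, (∀ w, idx w < orb G' w) ∧
      ∀ w w', (∃ φ : G' ≃g G', φ w = w') → idx w = idx w' → w = w' := by
  classical
  let e : W → ℕ := fun w => (Fintype.equivFin W w).val
  have he : Function.Injective e := fun a b h => (Fintype.equivFin W).injective (Fin.ext h)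
  let S : W → Finset W := fun w => univ.filter fun w' => ∃ φ : G' ≃g G', φ w = w'
  have hS : ∀ w, (S w).card = orb G' w := by
    intro w
    rw [orb, ← Set.ncard_coe_finset]
    congr 1
    ext w'
    simp [S]
  have hSS : ∀ w w', (∃ φ : G' ≃g G', φ w = w') → S w = S w' := by
    rintro w w' ⟨φ, hφ⟩
    ext x
    simp only [S, mem_filter, mem_univ, true_and]
    constructor
    · rintro ⟨ψ, hψ⟩
      exact ⟨φ.symm.trans ψ, by rw [← hφ]; simp [hψ]⟩
    · rintro ⟨ψ, hψ⟩
      exact ⟨φ.trans ψ, by simp [hφ, hψ]⟩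
  have hself : ∀ w, w ∈ S w := by
    intro w
    simp only [S, mem_filter, mem_univ, true_and]
    exact ⟨SimpleGraph.Iso.refl, rfl⟩
  refine ⟨fun w => ((S w).filter fun w' => e w' < e w).card, ?_, ?_⟩
  · intro w
    rw [← hS]
    apply Finset.card_lt_card
    refine ⟨Finset.filter_subset _ _, fun h => ?_⟩
    have := h (hself w)
    rw [mem_filter] at this
    exact lt_irrefl _ this.2
  · have key : ∀ w w', (∃ φ : G' ≃g G', φ w = w') → e w < e w' →
        ((S w).filter fun x => e x < e w).card < ((S w').filter fun x => e x < e w').card := by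
      intro w w' h hlt
      rw [hSS w w' h]
      apply Finset.card_lt_card
      refine ⟨?_, fun h1 => ?_⟩
      · intro x hx
        rw [mem_filter] at hx ⊢
        exact ⟨hx.1, hx.2.trans hlt⟩
      · have h2 : w ∈ (S w').filter fun x => e x < e w' :=
          mem_filter.2 ⟨by rw [← hSS w w' h]; exact hself w, hlt⟩
        have := h1 h2
        rw [mem_filter] at this
        exact lt_irrefl _ this.2
    intro w w' h heq
    have heq' : ((S w).filter fun x => e x < e w).card =
      ((S w').filter fun x => e x < e w').card := heq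
    rcases lt_trichotomy (e w) (e w') with h1 | h1 | h1
    · have := key w w' h h1; omega
    · exact he h1
    · obtain ⟨φ, hφ⟩ := h
      have := key w' w ⟨φ.symm, by rw [← hφ]; simp⟩ h1
      omega

theorem orb_eq {W : Type} (G' : SimpleGraph W) (w w' : W) (h : ∃ φ : G' ≃g G', φ w = w') :
    orb G' w = orb G' w' := by
  obtain ⟨φ, hφ⟩ := h
  unfold orb
  congr 1
  ext x
  constructor
  · rintro ⟨ψ, hψ⟩
    exact ⟨φ.symm.trans ψ, by rw [← hφ]; simp [hψ]⟩
  · rintro ⟨ψ, hψ⟩
    exact ⟨φ.trans ψ, by simp [hφ, hψ]⟩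

theorem mod_aux (m a b : ℕ) (ha : a < m) (hb : b < m) : (b + m - a) % m = if a ≤ b then b - a else
    b + m - a := by
  by_cases h : a ≤ b
  · rw [if_pos h]
    have : b + m - a = (b - a) + m := by omega
    rw [this, Nat.add_mod_right, Nat.mod_eq_of_lt (by omega)]
  · rw [if_neg h, Nat.mod_eq_of_lt (by omega)]

/-- the colouring -/
theorem wreath_EC {V W : Type} [Fintype V] [Fintype W] (G : SimpleGraph V) (G' : SimpleGraph W)
    [DecidableRel G'.Adj] (d q D : ℕ) (hG : EC d G) (hG' : EC q G') (hqD : q ≤ D)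
    (h1 : ∀ w, d * orb G' w + G'.degree w ≤ D)
    (h2 : ∀ w, d * (orb G' w - 1) + q ≤ D) : EC D (wreath G G') := by
  classical
  obtain ⟨cG, hcG⟩ := hG
  obtain ⟨c', hc'⟩ := hG'
  obtain ⟨idx, hidx1, hidx2⟩ := exists_idx G'
  let eV : V → ℕ := fun v => (Fintype.equivFin V v).val
  have heV : Function.Injective eV := fun a b h => (Fintype.equivFin V).injective (Fin.ext h)
  -- available colours
  have hav : ∀ w, ∃ f : Fin d → ℕ, Function.Injective f ∧ ∀ j, f j < D ∧
      (∀ w', G'.Adj w w' → f j ≠ c' w w') ∧ ¬ (q ≤ f j ∧ f j < q + d * (orb G' w - 1)) := by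
    intro w
    let A : Finset ℕ := range D \ ((G'.neighborFinset w).image (c' w) ∪
      Finset.Ico q (q + d * (orb G' w - 1)))
    have hm : 1 ≤ orb G' w := lt_of_le_of_lt (Nat.zero_le _) (hidx1 w)
    have hA : d ≤ A.card := by
      have h3 : (range D).card ≤ A.card + ((G'.neighborFinset w).image (c' w) ∪
          Finset.Ico q (q + d * (orb G' w - 1))).card := by
        rw [← Finset.card_sdiff_add_card_inter (range D) ((G'.neighborFinset w).image (c' w) ∪
          Finset.Ico q (q + d * (orb G' w - 1)))]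
        exact Nat.add_le_add_left (Finset.card_le_card Finset.inter_subset_right) _
      have h4 := Finset.card_union_le ((G'.neighborFinset w).image (c' w))
        (Finset.Ico q (q + d * (orb G' w - 1)))
      have h5 := Finset.card_image_le (s := G'.neighborFinset w) (f := c' w)
      rw [SimpleGraph.card_neighborFinset_eq_degree] at h5
      rw [Nat.card_Ico] at h4
      rw [card_range] at h3
      have h6 := h1 w
      have h7 : d * orb G' w = d * (orb G' w - 1) + d := by
        obtain ⟨k, hk⟩ : ∃ k, orb G' w = k + 1 := ⟨orb G' w - 1, by omega⟩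
        rw [hk, Nat.add_sub_cancel, Nat.mul_succ]
      omega
    have hcard : Fintype.card (Fin d) ≤ Fintype.card A := by
      rw [Fintype.card_fin, Fintype.card_coe]; exact hA
    obtain ⟨g⟩ := Function.Embedding.nonempty_of_card_le hcard
    refine ⟨fun j => (g j).1, fun a b h => g.injective (Subtype.ext h), ?_⟩
    intro j
    have hg := (g j).2
    simp only [A, mem_sdiff, mem_union, mem_range, mem_image, SimpleGraph.mem_neighborFinset,
      Finset.mem_Ico, not_or, not_exists, not_and] at hg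
    refine ⟨hg.1, ?_, ?_⟩
    · intro w' hw' heq
      exact hg.2.1 w' hw' heq.symm
    · rintro ⟨h8, h9⟩
      exact hg.2.2 h8 h9
  choose av hav1 hav2 using hav
  let avn : W → ℕ → ℕ := fun w j => if h : j < d then av w ⟨j, h⟩ else 0
  have havn : ∀ w j (h : j < d), avn w j = av w ⟨j, h⟩ := by
    intro w j h; simp only [avn, dif_pos h]
  let δ : ℕ → V → V → ℕ → ℕ → ℕ := fun m x y i i' =>
    if eV x < eV y then (i' + m - i) % m else (i + m - i') % m
  let c : V × W → V × W → ℕ := fun p r =>
    if p.1 = r.1 then c' p.2 r.2 else if p.2 = r.2 then avn p.2 (cG p.1 r.1) else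
      q + (cG p.1 r.1 * (orb G' p.2 - 1) + (δ (orb G' p.2) p.1 r.1 (idx p.2) (idx r.2) - 1))
  have hδ : ∀ m x y i i', i < m → i' < m → i ≠ i' → 1 ≤ δ m x y i i' ∧ δ m x y i i' < m := by
    intro m x y i i' hi hi' hne
    simp only [δ]
    split_ifs with h3
    · rw [mod_aux m i i' hi hi']
      split_ifs <;> omega
    · rw [mod_aux m i' i hi' hi]
      split_ifs <;> omega
  have hδinj : ∀ m x y i i' i'', i < m → i' < m → i'' < m → i ≠ i' → i ≠ i'' →
      δ m x y i i' = δ m x y i i'' → i' = i'' := by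
    intro m x y i i' i'' hi hi' hi'' hne hne' heq
    simp only [δ] at heq
    split_ifs at heq with h3
    · rw [mod_aux m i i' hi hi', mod_aux m i i'' hi hi''] at heq
      split_ifs at heq <;> omega
    · rw [mod_aux m i' i hi' hi, mod_aux m i'' i hi'' hi] at heq
      split_ifs at heq <;> omega
  -- the block of a colour of the third kind
  have hthird : ∀ p r : V × W, G.Adj p.1 r.1 → (∃ φ : G' ≃g G', φ p.2 = r.2) → p.2 ≠ r.2 →
      c p r = q + (cG p.1 r.1 * (orb G' p.2 - 1) +
        (δ (orb G' p.2) p.1 r.1 (idx p.2) (idx r.2) - 1)) ∧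
      δ (orb G' p.2) p.1 r.1 (idx p.2) (idx r.2) - 1 < orb G' p.2 - 1 ∧
      1 ≤ δ (orb G' p.2) p.1 r.1 (idx p.2) (idx r.2) ∧
      c p r < q + d * (orb G' p.2 - 1) := by
    intro p r hadj hφ hne
    have hlt : idx r.2 < orb G' p.2 := by rw [orb_eq G' p.2 r.2 hφ]; exact hidx1 _
    have hi : idx p.2 ≠ idx r.2 := fun h => hne (hidx2 _ _ hφ h)
    obtain ⟨h3, h4⟩ := hδ (orb G' p.2) p.1 r.1 _ _ (hidx1 p.2) hlt hi
    have h5 : c p r = q + (cG p.1 r.1 * (orb G' p.2 - 1) +
        (δ (orb G' p.2) p.1 r.1 (idx p.2) (idx r.2) - 1)) := by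
      simp only [c, if_neg (G.ne_of_adj hadj), if_neg hne]
    refine ⟨h5, by omega, h3, ?_⟩
    rw [h5]
    have h6 := (hcG p.1 r.1 hadj).2.1
    have h7 : (cG p.1 r.1 + 1) * (orb G' p.2 - 1) ≤ d * (orb G' p.2 - 1) :=
      Nat.mul_le_mul_right _ h6
    rw [Nat.succ_mul] at h7
    omega
  have hfirst : ∀ p r : V × W, p.1 = r.1 → c p r = c' p.2 r.2 := by
    intro p r h; simp only [c, if_pos h]
  have hsecond : ∀ p r : V × W, G.Adj p.1 r.1 → p.2 = r.2 → c p r = avn p.2 (cG p.1 r.1) := by
    intro p r h h'; simp only [c, if_neg (G.ne_of_adj h), if_pos h']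
  refine ⟨c, ?_⟩
  intro p r hpr
  refine ⟨?_, ?_, ?_⟩
  · -- symmetry
    rcases hpr with ⟨h3, h4⟩ | ⟨h3, φ, h4⟩
    · rw [hfirst p r h3, hfirst r p h3.symm, (hc' _ _ h4).1]
    · by_cases h5 : p.2 = r.2
      · rw [hsecond p r h3 h5, hsecond r p h3.symm h5.symm, h5, (hcG _ _ h3).1]
      · have h6 : ∃ ψ : G' ≃g G', ψ r.2 = p.2 := ⟨φ.symm, by rw [← h4]; simp⟩
        rw [(hthird p r h3 ⟨φ, h4⟩ h5).1, (hthird r p h3.symm h6 (Ne.symm h5)).1,
          (hcG _ _ h3).1, orb_eq G' p.2 r.2 ⟨φ, h4⟩]
        congr 3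
        simp only [δ]
        have h7 : eV p.1 ≠ eV r.1 := fun h => G.ne_of_adj h3 (heV h)
        by_cases h8 : eV p.1 < eV r.1
        · rw [if_pos h8, if_neg (by omega)]
        · rw [if_neg h8, if_pos (by omega)]
  · -- range
    rcases hpr with ⟨h3, h4⟩ | ⟨h3, φ, h4⟩
    · rw [hfirst p r h3]
      exact lt_of_lt_of_le (hc' _ _ h4).2.1 hqD
    · by_cases h5 : p.2 = r.2
      · rw [hsecond p r h3 h5, havn _ _ (hcG _ _ h3).2.1]
        exact (hav2 p.2 _).1
      · have h6 := (hthird p r h3 ⟨φ, h4⟩ h5).2.2.2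
        have h7 := h2 p.2
        omega
  · -- properness
    intro s hps hrs
    -- symmetric cases are reduced by a lemma
    have hcase : ∀ r s : V × W, (wreath G G').Adj p r → (wreath G G').Adj p s → r ≠ s →
        (p.1 = r.1 ∨ (p.1 ≠ s.1 ∧ (p.2 = r.2 ∨ p.2 ≠ s.2))) → c p r ≠ c p s := by
      intro r s hpr hps hrs hor
      by_cases h3 : p.1 = r.1
      · -- `r` in the fibre
        have h4 : G'.Adj p.2 r.2 := by
          rcases hpr with h | h
          · exact h.2
          · exact absurd h3 (G.ne_of_adj h.1)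
        rw [hfirst p r h3]
        by_cases h5 : p.1 = s.1
        · have h6 : G'.Adj p.2 s.2 := by
            rcases hps with h | h
            · exact h.2
            · exact absurd h5 (G.ne_of_adj h.1)
          rw [hfirst p s h5]
          exact (hc' _ _ h4).2.2 _ h6 (fun h => hrs (Prod.ext (h3.symm.trans h5) h))
        · have h6 : G.Adj p.1 s.1 ∧ ∃ φ : G' ≃g G', φ p.2 = s.2 := by
            rcases hps with h | h
            · exact absurd h.1 h5
            · exact h
          by_cases h7 : p.2 = s.2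
          · rw [hsecond p s h6.1 h7, havn _ _ (hcG _ _ h6.1).2.1]
            exact ((hav2 p.2 _).2.1 _ h4).symm
          · have h8 := (hthird p s h6.1 h6.2 h7).1
            have h9 := (hc' _ _ h4).2.1
            omega
      · have h4 : G.Adj p.1 r.1 ∧ ∃ φ : G' ≃g G', φ p.2 = r.2 := by
          rcases hpr with h | h
          · exact absurd h.1 h3
          · exact h
        rcases hor with h5 | ⟨h5, h6⟩
        · exact absurd h5 h3
        have h7 : G.Adj p.1 s.1 ∧ ∃ φ : G' ≃g G', φ p.2 = s.2 := by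
          rcases hps with h | h
          · exact absurd h.1 h5
          · exact h
        by_cases h8 : p.2 = r.2
        · rw [hsecond p r h4.1 h8, havn _ _ (hcG _ _ h4.1).2.1]
          by_cases h9 : p.2 = s.2
          · rw [hsecond p s h7.1 h9, havn _ _ (hcG _ _ h7.1).2.1]
            intro h10
            have h11 := hav1 p.2 h10
            have h12 : cG p.1 r.1 = cG p.1 s.1 := congrArg Fin.val h11
            by_cases h13 : r.1 = s.1
            · exact hrs (Prod.ext h13 (h8.symm.trans h9))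
            · exact (hcG _ _ h4.1).2.2 _ h7.1 h13 h12
          · obtain ⟨h10, -, -, h11⟩ := hthird p s h7.1 h7.2 h9
            intro h12
            apply (hav2 p.2 ⟨cG p.1 r.1, (hcG _ _ h4.1).2.1⟩).2.2
            rw [h12]
            exact ⟨by rw [h10]; exact Nat.le_add_right _ _, h11⟩
        · have h9 : p.2 ≠ s.2 := by
            rcases h6 with h6 | h6
            · exact absurd h6 h8
            · exact h6
          obtain ⟨e1, e2, e3, -⟩ := hthird p r h4.1 h4.2 h8
          obtain ⟨f1, f2, f3, -⟩ := hthird p s h7.1 h7.2 h9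
          rw [e1, f1]
          intro h10
          have h11 : cG p.1 r.1 * (orb G' p.2 - 1) +
              (δ (orb G' p.2) p.1 r.1 (idx p.2) (idx r.2) - 1) =
              cG p.1 s.1 * (orb G' p.2 - 1) +
              (δ (orb G' p.2) p.1 s.1 (idx p.2) (idx s.2) - 1) := by omega
          have hpos : 0 < orb G' p.2 - 1 := by omega
          have h12 : cG p.1 r.1 = cG p.1 s.1 := by
            have g1 : (cG p.1 r.1 * (orb G' p.2 - 1) +
                (δ (orb G' p.2) p.1 r.1 (idx p.2) (idx r.2) - 1)) / (orb G' p.2 - 1) =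
                (cG p.1 s.1 * (orb G' p.2 - 1) +
                (δ (orb G' p.2) p.1 s.1 (idx p.2) (idx s.2) - 1)) / (orb G' p.2 - 1) := by
              rw [h11]
            rw [mul_comm (cG p.1 r.1), mul_comm (cG p.1 s.1), Nat.mul_add_div hpos,
              Nat.mul_add_div hpos, Nat.div_eq_of_lt e2, Nat.div_eq_of_lt f2] at g1
            exact g1
          rw [h12] at h11
          have h13 : r.1 = s.1 := by
            by_contra h13
            exact (hcG _ _ h4.1).2.2 _ h7.1 h13 h12
          rw [h13] at h11 e3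
          have h14 : idx r.2 = idx s.2 := by
            apply hδinj (orb G' p.2) p.1 s.1 (idx p.2) _ _ (hidx1 p.2)
            · rw [orb_eq G' p.2 r.2 h4.2]; exact hidx1 _
            · rw [orb_eq G' p.2 s.2 h7.2]; exact hidx1 _
            · exact fun h => h8 (hidx2 _ _ h4.2 h)
            · exact fun h => h9 (hidx2 _ _ h7.2 h)
            · omega
          obtain ⟨φ, hφ⟩ := h4.2
          obtain ⟨ψ, hψ⟩ := h7.2
          exact hrs (Prod.ext h13 (hidx2 _ _ ⟨φ.symm.trans ψ, by rw [← hφ]; simp [hψ]⟩ h14))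
    by_cases h3 : p.1 = r.1
    · exact hcase r s hpr hps hrs (Or.inl h3)
    · by_cases h4 : p.1 = s.1
      · exact (hcase s r hps hpr (Ne.symm hrs) (Or.inl h4)).symm
      · by_cases h5 : p.2 = r.2
        · exact hcase r s hpr hps hrs (Or.inr ⟨h4, Or.inl h5⟩)
        · by_cases h6 : p.2 = s.2
          · exact (hcase s r hps hpr (Ne.symm hrs) (Or.inr ⟨h3, Or.inl h6⟩)).symm
          · exact hcase r s hpr hps hrs (Or.inr ⟨h4, Or.inr h6⟩)

/-- degrees in the wreath product -/
theorem wreath_degree {V W : Type} [Fintype V] [Fintype W] (G : SimpleGraph V)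
    (G' : SimpleGraph W) [DecidableRel G.Adj] [DecidableRel G'.Adj]
    [DecidableRel (wreath G G').Adj] (x : V) (w : W) :
    (wreath G G').degree (x, w) = G.degree x * orb G' w + G'.degree w := by
  classical
  let S : Finset W := univ.filter fun w' => ∃ φ : G' ≃g G', φ w = w'
  have hS : S.card = orb G' w := by
    rw [orb, ← Set.ncard_coe_finset]
    congr 1
    ext w'
    simp [S]
  rw [← SimpleGraph.card_neighborFinset_eq_degree, ← hS,
    ← SimpleGraph.card_neighborFinset_eq_degree, ← SimpleGraph.card_neighborFinset_eq_degree,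
    ← Finset.card_product,
    ← Finset.card_map (⟨fun w' => (x, w'), fun a b h => (Prod.mk.inj h).2⟩ : W ↪ V × W),
    ← Finset.card_union_of_disjoint]
  · congr 1
    ext ⟨y, w'⟩
    simp only [SimpleGraph.mem_neighborFinset, mem_union, mem_product, mem_map, S, mem_filter,
      mem_univ, true_and, Function.Embedding.coeFn_mk, Prod.mk.injEq]
    constructor
    · rintro (⟨h1, h2⟩ | ⟨h1, h2⟩)
      · exact Or.inr ⟨w', h2, h1, rfl⟩
      · exact Or.inl ⟨h1, h2⟩
    · rintro (⟨h1, h2⟩ | ⟨w'', h2, h1, rfl⟩)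
      · exact Or.inr ⟨h1, h2⟩
      · exact Or.inl ⟨h1, h2⟩
  · rw [Finset.disjoint_left]
    rintro ⟨y, w'⟩ h1 h2
    simp only [mem_product, SimpleGraph.mem_neighborFinset, mem_map,
      Function.Embedding.coeFn_mk, Prod.mk.injEq] at h1 h2
    obtain ⟨w'', -, rfl, -⟩ := h2
    exact G.loopless.irrefl _ h1.1

theorem main {V W : Type} [Fintype V] [Fintype W] (G : SimpleGraph V)
    (G' : SimpleGraph W) [DecidableRel G.Adj] [DecidableRel G'.Adj]
    [DecidableRel (wreath G G').Adj] (hG : EC G.maxDegree G) (q : ℕ) (hq : EC q G')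
    (h : ∀ w, G.maxDegree * (orb G' w - 1) + q ≤ (wreath G G').maxDegree) :
    EC (wreath G G').maxDegree (wreath G G') := by
  classical
  rcases isEmpty_or_nonempty V with hV | hV
  · exact ⟨fun _ _ => 0, fun u => (hV.false u.1).elim⟩
  rcases isEmpty_or_nonempty W with hW | hW
  · exact ⟨fun _ _ => 0, fun u => (hW.false u.2).elim⟩
  obtain ⟨x, hx⟩ := G.exists_maximal_degree_vertex
  obtain ⟨w0⟩ := hW
  apply wreath_EC G G' G.maxDegree q _ hG hq
  · exact (Nat.le_add_left _ _).trans (h w0)
  · intro w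
    rw [hx, ← wreath_degree G G' x w]
    exact SimpleGraph.degree_le_maxDegree _ _
  · exact h

theorem max_bound {V W : Type} [Fintype V] [Fintype W] (G : SimpleGraph V)
    (G' : SimpleGraph W) [DecidableRel G.Adj] [DecidableRel G'.Adj]
    [DecidableRel (wreath G G').Adj] (x0 : V) (w : W) :
    G.maxDegree * orb G' w + G'.degree w ≤ (wreath G G').maxDegree := by
  classical
  have : Nonempty V := ⟨x0⟩
  obtain ⟨x, hx⟩ := G.exists_maximal_degree_vertex
  rw [hx, ← wreath_degree G G' x w]
  exact SimpleGraph.degree_le_maxDegree _ _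

end Pool.Agent.X76.Wr
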